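import Mathlib
import Pool.Agent.Lib.MP_0016c7_nt.Rz.Defs
import Pool.Agent.Lib.MP_0016c7_nt.Rz.DefsC
import Pool.Agent.Lib.MP_0016c7_nt.Rz.DefsE
import Pool.Agent.Lib.MP_0016c7_nt.Rz.DefsF
import Pool.Agent.Lib.MP_0016c7_nt.Rz.DefsF2
import Pool.Agent.Lib.MP_0016c7_nt.Rz2.DefsG
import Pool.Agent.Lib.MP_0016c7_nt.Rz2.NSc

set_option autoImplicit false

/-!
Prescribed splitting: definitions.

The pattern: `P` is an odd squarefree number (a small power of the scale), `Q ∣ P` the product of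
the primes with prescribed value `-1`, `R ∣ P` the product of those which ramify (value `0`); all
other primes dividing `P` have the value `1`. Everything is stated for sequences (index `n : ℕ`) of
scales `X n → ∞` and patterns of size at most `exp (y n)` with `y n → ∞`, `y n ≤ c₀ log (X n)`.
-/

open Finset MeasureTheory Filter Topology
open scoped Real ContDiff

namespace Pool.Agent.MP0016c7.Rz

/-- A splitting pattern: `P` is an odd squarefree number `≤ exp y` which is divisible by all odd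
primes `≤ log y`; the primes dividing `Q` have the prescribed value `-1`, the primes dividing `R`
the value `0`, and the other primes dividing `P` the value `1`. -/
structure Pat (y : ℝ) (P Q R : ℕ) : Prop where
  sf : Squarefree P
  odd : Odd P
  le : (P : ℝ) ≤ Real.exp y
  pr : ∀ p : ℕ, p.Prime → 3 ≤ p → (p : ℝ) ≤ Real.log y → p ∣ P
  hQ : Q ∣ P
  hR : R ∣ P
  co : Nat.Coprime Q R

/-- A sequence of scales `X n` and splitting patterns of size `exp (y n)`,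
`y n ≤ c₀ log X n`. -/
structure PSq (c₀ : ℝ) (X y : ℕ → ℝ) (P Q R : ℕ → ℕ) : Prop where
  c0 : 0 < c₀
  c1 : c₀ ≤ 1 / 60
  one : ∀ n, 1 < X n
  lim : Tendsto X atTop atTop
  limy : Tendsto y atTop atTop
  le : ∀ n, y n ≤ c₀ * Real.log (X n)
  pat : ∀ n, Pat (y n) (P n) (Q n) (R n)

/-- The families of discriminants `κ σ d` with `σ d ≡ c` modulo `m`; `ε` is the value at `2`, and
the value at odd `n` is the Jacobi symbol of `2 σ u d`. -/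
def FamP (m c ε : ℤ) (κ u : ℕ) : Prop :=
  (m = 2 ∧ c = 1 ∧ ε = 0 ∧ κ = 8 ∧ u = 1) ∨ (m = 8 ∧ c = 1 ∧ ε = 1 ∧ κ = 1 ∧ u = 2) ∨
    (m = 8 ∧ c = 5 ∧ ε = -1 ∧ κ = 1 ∧ u = 2) ∨ (m = 8 ∧ c = 3 ∧ ε = 0 ∧ κ = 4 ∧ u = 2) ∨
    (m = 8 ∧ c = 7 ∧ ε = 0 ∧ κ = 4 ∧ u = 2)

/-- The symbol `(2 σ u d / n)` (`0` for even `n`). -/
noncomputable def sy (σ : ℤ) (u d n : ℕ) : ℝ := jr (2 * σ * ((u * d : ℕ) : ℤ)) n

/-- The residue class of a family; `2 σ u d` is not a perfect square. -/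
def RU (m c σ : ℤ) (u d : ℕ) : Prop :=
  (σ * d) % m = c ∧ ¬ IsSquare (2 * σ * ((u * d : ℕ) : ℤ))

/-- The family with the prescribed splitting pattern (exactly one power of the primes of `R`). -/
def RP (m c σ : ℤ) (u P Q R d : ℕ) : Prop :=
  RU m c σ u d ∧ ∀ p ∈ P.primeFactors, (p ∣ R → p ∣ d ∧ ¬ p ^ 2 ∣ d) ∧
    (¬ p ∣ R → sy σ u d p = if p ∣ Q then -1 else 1)

/-- `φ(P) / P`. -/
noncomputable def phP (P : ℕ) : ℝ := ∏ p ∈ P.primeFactors, (1 - 1 / (p : ℝ))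

/-- The density of the family with a splitting pattern. -/
noncomputable def DP (m : ℤ) (P R : ℕ) : ℝ :=
  1 / m * (phP P * ((∏ p ∈ R.primeFactors, (1 / (p : ℝ))) *
    ∏ p ∈ P.primeFactors.filter (fun p => ¬ p ∣ R), (1 / 2 : ℝ)))

/-- The normalised average over a class `Rc` of density `D`. -/
noncomputable def avS (Rc : ℕ → Prop) (D : ℝ) (F : ℝ → ℝ) (X : ℝ) (g : ℕ → ℝ) : ℝ :=
  1 / (D * X) * ∑' d : ℕ, (@ite ℝ (Rc d) (Classical.dec _) (F (d / X) * g d) 0)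

/-- The normalised average over the family with a splitting pattern. -/
noncomputable def avP (m c σ : ℤ) (u P Q R : ℕ) (F : ℝ → ℝ) (X : ℝ) (g : ℕ → ℝ) : ℝ :=
  avS (RP m c σ u P Q R) (DP m P R) F X g

open Classical in
/-- The normalised sum over the members of a residue class divisible by `q`. -/
noncomputable def PRq (F : ℝ → ℝ) (m c σ : ℤ) (u q : ℕ) (Y : ℝ) (N : ℕ) : ℝ :=
  m * q / Y * ∑' d : ℕ, if RU m c σ u d ∧ q ∣ d then F (d / Y) * sy σ u d N else 0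

/-- The main term of a residue class. -/
noncomputable def MU (F : ℝ → ℝ) (σ ε : ℤ) (κ : ℕ) (Y : ℝ) (N : ℕ) : ℝ :=
  if κ = 8 then MM F σ Y N else MG F σ ε Y N

/-- The Mellin kernel of the main term, and its cut-off function. -/
noncomputable def bU (F : ℝ → ℝ) (σ ε : ℤ) (κ : ℕ) (z : ℂ) : ℂ :=
  if κ = 8 then bb F σ z else bG F σ ε z

noncomputable def BU (F : ℝ → ℝ) (σ ε : ℤ) (κ : ℕ) (y : ℝ) : ℝ :=
  if κ = 8 then BB F σ y else BG F σ ε y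

/-- The sign of `e ∣ P` in the pattern. -/
noncomputable def eps (Q e : ℕ) : ℝ := (ArithmeticFunction.moebius (Nat.gcd e Q) : ℝ)

/-- The main term of the family with a splitting pattern. -/
noncomputable def MP (F : ℝ → ℝ) (σ ε : ℤ) (κ P Q R : ℕ) (Y : ℝ) (N : ℕ) : ℝ :=
  1 / phP P * ∑ e ∈ (P / R).divisors, ∑ f ∈ R.divisors,
    eps Q e * ((ArithmeticFunction.moebius f : ℝ) / f) *
      MU F σ ε κ (Y / (f : ℝ) ^ 2) (e * (P / R) ^ 2 * N)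

/-- The correction factor of the pattern. -/
noncomputable def WP (P Q R : ℕ) (z : ℂ) : ℂ :=
  (∏ p ∈ P.primeFactors.filter (fun p => ¬ p ∣ R), (1 + (if p ∣ Q then -1 else 1) *
      (((p : ℂ) ^ z - (p : ℂ) ^ (-z)) / ((√(p : ℝ) : ℂ) * (1 - 1 / (p : ℂ)))))) *
    ∏ p ∈ R.primeFactors, ((1 - (p : ℂ) ^ (2 * z - 1)) / (1 - 1 / (p : ℂ)))

/-- `M` has, for `N` coprime to `2 r`, the Mellin representation with the kernel `β` at the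
height `Y`. -/
def MRepC (r : ℕ) (β : ℂ → ℂ) (I₀ Y : ℝ) (M : ℕ → ℝ) : Prop :=
  ∀ N : ℕ, Nat.Coprime N (2 * r) → ∀ c : ℝ, 0 < c → c ≤ 1 / 8 →
    (M N : ℂ) = (I₀ : ℂ) * (bz 0 N - 1 / 2 * (1 / (2 * π)) * ∫ t : ℝ,
      β (c + Complex.I * t) * (((Y / 2 : ℝ)) : ℂ) ^ (-(c + Complex.I * t : ℂ)) *
        bz (c + Complex.I * t) N / (c + Complex.I * t))

/-- The Dirichlet series of the main term: coprimality to `2 r`, height `Y`, scale `X`. -/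
noncomputable def QXp (β : ℂ → ℂ) (r : ℕ) (X Y : ℝ) (s₁ w₁ s₂ w₂ : ℂ) : ℂ :=
  OO r (s₁ / Real.log X) (w₁ / Real.log X) (s₂ / Real.log X) (w₂ / Real.log X) 0 -
  1 / 2 * (1 / (2 * π)) * ∫ ζ : ℝ, β (1 / Real.log X + Complex.I * ζ) *
    (((Y / 2 : ℝ)) : ℂ) ^ (-(1 / Real.log X + Complex.I * ζ : ℂ)) *
    OO r (s₁ / Real.log X) (w₁ / Real.log X) (s₂ / Real.log X) (w₂ / Real.log X)
      (1 / Real.log X + Complex.I * ζ) / (1 / Real.log X + Complex.I * ζ)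

/-- Uniform bounds for the correction factors `W n` at the scales `X n` (abstract form). -/
structure WBd (X : ℕ → ℝ) (W : ℕ → ℂ → ℂ) : Prop where
  ct : ∀ n, Continuous (W n)
  near : ∃ C : ℝ, 0 < C ∧ ∀ᶠ n in atTop, ∀ z : ℂ, |z.re| ≤ 4 / Real.log (X n) →
    ‖z‖ * Real.log (X n) ≤ (Real.log (X n)) ^ (1 / 4 : ℝ) →
    ‖W n z - 1‖ ≤ C * ‖z‖ * (Real.log (X n)) ^ (5 / 8 : ℝ)
  mid : ∃ C : ℝ, 0 < C ∧ ∀ᶠ n in atTop, ∀ z : ℂ, |z.re| ≤ 4 / Real.log (X n) →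
    ‖W n z‖ ≤ C * (Real.log (X n)) ^ (1 / 16 : ℝ)
  far : ∀ η : ℝ, 0 < η → ∀ᶠ n in atTop, ∀ z : ℂ, |z.re| ≤ 1 / 8 → ‖W n z‖ ≤ (X n) ^ η
  bc : ∀ (β : ℂ → ℂ) (B : ℝ → ℝ), BC β B → ∀ n, ∃ B' : ℝ → ℝ, BC (fun z => β z * W n z) B'

/-! ### The process -/

/-- The primes with value `1`, including `2` if `ε = 1`. -/
def setA (ε : ℤ) (P Q R : ℕ) : Finset ℕ :=
  (P.primeFactors.filter (fun p => ¬ p ∣ Q ∧ ¬ p ∣ R)) ∪ (if ε = 1 then {2} else ∅)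

/-- The primes with value `-1`, including `2` if `ε = -1`. -/
def setB (ε : ℤ) (Q : ℕ) : Finset ℕ := Q.primeFactors ∪ (if ε = -1 then {2} else ∅)

open Classical in
/-- The weights of the shifts: a probability distribution on pairs `(n, b)`, `n` composed of
primes of `A`, and `b` a divisor of the product of the primes of `B`. -/
noncomputable def wS (A B : Finset ℕ) (q : ℕ × ℕ) : ℝ :=
  (∏ p ∈ A, (1 - 1 / √(p : ℝ))) / (∏ p ∈ B, (1 + 1 / √(p : ℝ))) *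
    (if q.1 ∈ Nat.factoredNumbers A ∧ q.2 ∣ ∏ p ∈ B, p then 1 / √((q.1 * q.2 : ℕ) : ℝ) else 0)

/-- The shifts. -/
noncomputable def sS (L : ℝ) (q : ℕ × ℕ) : ℝ := (Real.log q.1 - Real.log q.2) / L

/-- The average of a process `T` over the shifts. -/
noncomputable def shf (A B : Finset ℕ) (L : ℝ) (T : ℝ → ℝ) (Y : ℝ) : ℝ :=
  ∑' q : ℕ × ℕ, wS A B q * T (Y - sS L q)

/-- The base process of the pattern family: all primes dividing `2 P` are removed. -/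
noncomputable def yB (a : ℝ) (σ : ℤ) (u P : ℕ) (ρ h : ℝ → ℝ) (X : ℝ) (d : ℕ) (Y : ℝ) : ℝ :=
  ytil a σ ρ h X (u * (P ^ 2 * d)) Y

/-- The process of the pattern family. -/
noncomputable def yP (a : ℝ) (ε σ : ℤ) (u P Q R : ℕ) (ρ h : ℝ → ℝ) (X : ℝ) (d : ℕ) (Y : ℝ) : ℝ :=
  shf (setA ε P Q R) (setB ε Q) (Real.log X) (yB a σ u P ρ h X d) Y

/-- No zero on `(0, 1)` for the primitive quadratic characters modulo `κ d` of the given parity. -/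
def NZP (κ : ℕ) (σ : ℤ) (d : ℕ) : Prop :=
  ∀ (_ : NeZero (κ * d)) (χ : DirichletCharacter ℂ (κ * d)), χ.IsPrimitive → χ ^ 2 = 1 →
    ((σ = 1 ∧ χ.Even) ∨ (σ = -1 ∧ χ.Odd)) → ∀ s : ℝ, 0 < s → s < 1 → χ.LFunction s ≠ 0

/-! ### Sequences of families, general framework (as in `Gen0`, without the sieve) -/

/-- The classes `Rc n` have densities `D n`. -/
def DensS (Rc : ℕ → ℕ → Prop) (D X : ℕ → ℝ) : Prop :=
  ∀ F : ℝ → ℝ, Bump F (1 / 2) 4 → (∀ t, 0 ≤ F t) → 0 < ∫ t, F t →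
  ∀ ε : ℝ, 0 < ε → ∀ᶠ n in atTop, |avS (Rc n) (D n) F (X n) (fun _ => 1) - ∫ t, F t| ≤ ε

/-- The second moments of the processes `T n`. -/
def Mom2S (Rc : ℕ → ℕ → Prop) (D X : ℕ → ℝ) (δ : ℝ) (ρ₁ ρ₂ h : ℝ → ℝ)
    (T₁ T₂ : ℕ → ℕ → ℝ → ℝ) : Prop :=
  ∀ F : ℝ → ℝ, Bump F (1 / 2) 4 → (∀ t, 0 ≤ F t) → 0 < ∫ t, F t →
  ∀ ε : ℝ, 0 < ε → ∀ᶠ n in atTop,
    ∀ Y₁ ∈ Set.Icc (-(1 / 2) : ℝ) (1 / 2 + δ), ∀ Y₂ ∈ Set.Icc (-(1 / 2) : ℝ) (1 / 2 + δ),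
    |avS (Rc n) (D n) F (X n) (fun d => T₁ n d Y₁ * T₂ n d Y₂) -
      (∫ t, F t) * CC ρ₁ ρ₂ h Y₁ Y₂| ≤ ε

/-- The first moments of the processes `T n`. -/
def Mom1S (Rc : ℕ → ℕ → Prop) (D X : ℕ → ℝ) (δ : ℝ) (ρ h : ℝ → ℝ) (T : ℕ → ℕ → ℝ → ℝ) : Prop :=
  ∀ F : ℝ → ℝ, Bump F (1 / 2) 4 → (∀ t, 0 ≤ F t) → 0 < ∫ t, F t →
  ∀ ε : ℝ, 0 < ε → ∀ᶠ n in atTop, ∀ Y ∈ Set.Icc (-(1 / 2) : ℝ) (1 / 2 + δ),
    |avS (Rc n) (D n) F (X n) (fun d => T n d Y) - (∫ t, F t) * ∫ y, ρ y * HH h (y - Y)| ≤ ε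

/-- The shifted processes `τ n` are close to the base processes `T n`. -/
def PerS (Rc : ℕ → ℕ → Prop) (D X : ℕ → ℝ) (δ : ℝ) (T τ : ℕ → ℕ → ℝ → ℝ) : Prop :=
  ∀ ε : ℝ, 0 < ε → ∀ᶠ n in atTop, ∀ S : Finset ℕ,
    (∀ d ∈ S, Rc n d ∧ X n < d ∧ (d : ℝ) ≤ 2 * X n) →
    ∑ d ∈ S, ∫ v in (0 : ℝ)..(1 / 2 + δ), (T n d (1 / 2 - v) - τ n d v) ^ 2 ≤ ε * (D n * X n)

/-- The linear relation for the discriminants with a zero, with the lower bound of the tail. -/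
def BadP (Rc NZ : ℕ → ℕ → Prop) (X : ℕ → ℝ) (θ₀ δ : ℝ) (τ : ℕ → ℕ → ℝ → ℝ) : Prop :=
  ∀ ε : ℝ, 0 < ε → ∀ᶠ n in atTop, ∀ d : ℕ, X n < d → (d : ℝ) ≤ 2 * X n → Rc n d →
    Squarefree d → ¬ NZ n d → ∃ a : ℝ,
    IntegrableOn (fun v : ℝ => Real.cosh (a * v) * τ n d v) (Set.Ioi 0) ∧
    (∫ v in Set.Ioi (0 : ℝ), Real.cosh (a * v) * τ n d v) = 0 ∧
    (1 - ε) * (∫ v in Set.Ioc (1 / 2 + δ) (1 / 2 + δ + θ₀), Real.cosh (a * v) *
        Hid θ₀ (v - (1 / 2 + δ))) - ε ≤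
      ∫ v in Set.Ioi (1 / 2 + δ), Real.cosh (a * v) * τ n d v

/-- Almost all members of the classes are squarefree. -/
def SqfS (Rc : ℕ → ℕ → Prop) (D X : ℕ → ℝ) : Prop :=
  ∀ ε : ℝ, 0 < ε → ∀ᶠ n in atTop,
    (Nat.card {d : ℕ | X n < d ∧ (d : ℝ) ≤ 2 * X n ∧ Rc n d ∧ ¬ Squarefree d} : ℝ) ≤
      ε * (D n * X n)

/-- A sequence of families of discriminants. -/
structure FamS (Rc NZ : ℕ → ℕ → Prop) (D X : ℕ → ℝ) (θ₀ δ : ℝ) : Prop where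
  one : ∀ n, 1 < X n
  lim : Tendsto X atTop atTop
  hD : ∀ n, 0 < D n
  dens : DensS Rc D X
  sqf : SqfS Rc D X
  data : ∀ ρ h : ℝ → ℝ, Bump ρ (-(δ / 2)) (δ / 2) → (∀ y, 0 ≤ ρ y) → (∀ y, ρ (-y) = ρ y) →
    (∫ y, ρ y) = 1 → Bump h (2 * δ) (θ₀ + 3 * δ) → (∀ t, 0 ≤ h t) → 0 < HH h 0 →
    (∀ t, Hid θ₀ (t - 2 * δ) ≤ HH h t) →
    ∃ T τ : ℕ → ℕ → ℝ → ℝ, (∀ n d, Continuous (T n d)) ∧ (∀ n d, Continuous (τ n d)) ∧
      Mom1S Rc D X δ ρ h T ∧ Mom2S Rc D X δ ρ ρ h T T ∧ PerS Rc D X δ T τ ∧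
      BadP Rc NZ X θ₀ δ τ

end Pool.Agent.MP0016c7.Rz
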