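import Mathlib
import Pool.Agent.Lib.MP_0016c7_nt.PS.Defs

set_option autoImplicit false

/-!
Prescribed splitting: definitions for the main term.
-/

open Finset MeasureTheory Filter Topology
open scoped Real ContDiff

namespace Pool.Agent.MP0016c7.Rz

/-- The modulus `r` is small at the scale `L = log X`. -/
def SmM (L : ℝ) (r : ℕ) : Prop :=
  (∀ p ∈ r.primeFactors, Real.log p ≤ L / 60) ∧ ∑ p ∈ r.primeFactors, Real.log p ≤ 2 * L

/-- A splitting pattern which is small at the scale `L = log X`. -/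
structure PatL (L : ℝ) (P Q R : ℕ) : Prop where
  sf : Squarefree P
  odd : Odd P
  sm : SmM L P
  hQ : Q ∣ P
  hR : R ∣ P
  co : Nat.Coprime Q R

/-- Sequences of scales, moduli and correction factors for the main term. -/
structure MSq (X : ℕ → ℝ) (r : ℕ → ℕ) (W : ℕ → ℂ → ℂ) : Prop where
  lim : Tendsto X atTop atTop
  odd : ∀ n, Odd (r n)
  small : ∀ᶠ n in atTop, SmM (Real.log (X n)) (r n)
  wb : WBd X W

/-- The integrand of the second part of `QXp` in the variable `t = L ζ`. -/
noncomputable def QeGp (β : ℂ → ℂ) (r : ℕ) (X : ℝ) (s₁ w₁ s₂ w₂ : ℂ) (t : ℝ) : ℂ :=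
  β ((1 + Complex.I * t) / Real.log X) *
    (((X / 2 : ℝ)) : ℂ) ^ (-((1 + Complex.I * t) / Real.log X)) *
    (OO r (s₁ / Real.log X) (w₁ / Real.log X) (s₂ / Real.log X) (w₂ / Real.log X)
        ((1 + Complex.I * t) / Real.log X) -
      OO r (s₁ / Real.log X) (w₁ / Real.log X) (s₂ / Real.log X) (w₂ / Real.log X) 0) /
    (1 + Complex.I * t)

end Pool.Agent.MP0016c7.Rz
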