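import Mathlib
import Pool.Agent.Lib.MP_0016c7_nt.PS.DefsM

set_option autoImplicit false

/-!
Admissible kernels times finite products of local factors are admissible.
-/

open Finset MeasureTheory Filter Topology
open scoped Real ContDiff

namespace Pool.Agent.MP0016c7.Rz

private theorem bcw_re (c t : ℝ) : ((c : ℂ) + Complex.I * t).re = c := by simp

private theorem bcw_im (c t : ℝ) : ((c : ℂ) + Complex.I * t).im = t := by simp

private theorem bcw_ne {c : ℝ} (hc : 0 < c) (t : ℝ) : (c : ℂ) + Complex.I * t ≠ 0 := by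
  intro h0
  have := congrArg Complex.re h0
  rw [bcw_re, Complex.zero_re] at this
  exact hc.ne' this

/-- size of `p ^ z` and of `p ^ z - 1` -/
private theorem bcw_cpow {p : ℝ} (hp : 1 ≤ p) {z : ℂ} (hz : |z.re| ≤ 1 / 8) :
    ‖(p : ℂ) ^ z‖ ≤ p ^ (1 / 8 : ℝ) ∧
      ‖(p : ℂ) ^ z - 1‖ ≤ (p ^ (1 / 8 : ℝ) + 2) * Real.log p * ‖z‖ := by
  have hp0 : 0 < p := by linarith
  have h1 : ‖(p : ℂ) ^ z‖ ≤ p ^ (1 / 8 : ℝ) := by
    rw [Complex.norm_cpow_eq_rpow_re_of_pos hp0]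
    exact Real.rpow_le_rpow_of_exponent_le hp ((le_abs_self _).trans hz)
  refine ⟨h1, ?_⟩
  have hlog0 : 0 ≤ Real.log p := Real.log_nonneg hp
  have hw : (p : ℂ) ^ z = Complex.exp (Real.log p * z) := by
    rw [Complex.cpow_def_of_ne_zero (by exact_mod_cast hp0.ne'), Complex.ofReal_log hp0.le]
  have hwn : ‖(Real.log p : ℂ) * z‖ = Real.log p * ‖z‖ := by
    rw [norm_mul, Complex.norm_real, Real.norm_of_nonneg hlog0]
  have hq : 0 ≤ p ^ (1 / 8 : ℝ) := by positivity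
  have hz0 : 0 ≤ Real.log p * ‖z‖ := mul_nonneg hlog0 (norm_nonneg _)
  by_cases h5 : ‖(Real.log p : ℂ) * z‖ ≤ 1
  · have h6 := Complex.norm_exp_sub_one_le h5
    rw [← hw, hwn] at h6
    nlinarith
  · have h6 : ‖(p : ℂ) ^ z - 1‖ ≤ ‖(p : ℂ) ^ z‖ + ‖(1 : ℂ)‖ := norm_sub_le _ _
    rw [norm_one] at h6
    push Not at h5
    rw [hwn] at h5
    nlinarith

private theorem bcw_cpow' {p : ℝ} (hp : 1 ≤ p) {z : ℂ} (hz : |z.re| ≤ 1 / 8) :
    ‖(p : ℂ) ^ (-z)‖ ≤ p ^ (1 / 8 : ℝ) ∧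
      ‖(p : ℂ) ^ (-z) - 1‖ ≤ (p ^ (1 / 8 : ℝ) + 2) * Real.log p * ‖z‖ := by
  have h := bcw_cpow hp (z := -z) (by rw [Complex.neg_re, abs_neg]; exact hz)
  rwa [norm_neg] at h

private theorem bcw_ycont {y : ℝ} (hy : 0 < y) (c : ℝ) :
    Continuous fun t : ℝ => (y : ℂ) ^ (-(c + Complex.I * t : ℂ)) := by
  refine Continuous.const_cpow (by fun_prop) (Or.inl ?_)
  exact_mod_cast hy.ne'

private theorem bcw_ycont' {y : ℝ} (hy : 0 < y) (c : ℝ) :
    Continuous fun t : ℝ => (y : ℂ) ^ (c + Complex.I * t : ℂ) := by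
  refine Continuous.const_cpow (by fun_prop) (Or.inl ?_)
  exact_mod_cast hy.ne'

private theorem bcw_ynorm {y : ℝ} (hy : 0 < y) (c t : ℝ) :
    ‖(y : ℂ) ^ (-(c + Complex.I * t : ℂ))‖ = y ^ (-c) := by
  rw [Complex.norm_cpow_eq_rpow_re_of_pos hy]
  simp

private theorem bcw_shift {x y : ℝ} (hx : 0 < x) (hy : 0 < y) (z : ℂ) :
    ((y / x : ℝ) : ℂ) ^ (-z) = (y : ℂ) ^ (-z) * (x : ℂ) ^ z := by
  have hx' : (x : ℂ) ≠ 0 := by exact_mod_cast hx.ne'
  have hy' : (y : ℂ) ≠ 0 := by exact_mod_cast hy.ne'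
  have hyx : ((y / x : ℝ) : ℂ) ≠ 0 := by exact_mod_cast (div_pos hy hx).ne'
  rw [Complex.cpow_def_of_ne_zero hx', Complex.cpow_def_of_ne_zero hy',
    Complex.cpow_def_of_ne_zero hyx, ← Complex.exp_add, ← Complex.ofReal_log hx.le,
    ← Complex.ofReal_log hy.le, ← Complex.ofReal_log (div_pos hy hx).le,
    Real.log_div hy.ne' hx.ne', Complex.ofReal_sub]
  congr 1
  ring

private theorem bcw_shift' {x y : ℝ} (hx : 0 < x) (hy : 0 < y) (z : ℂ) :
    ((y * x : ℝ) : ℂ) ^ (-z) = (y : ℂ) ^ (-z) * (x : ℂ) ^ (-z) := by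
  have hx' : (x : ℂ) ≠ 0 := by exact_mod_cast hx.ne'
  have hy' : (y : ℂ) ≠ 0 := by exact_mod_cast hy.ne'
  have hyx : ((y * x : ℝ) : ℂ) ≠ 0 := by exact_mod_cast (mul_pos hy hx).ne'
  rw [Complex.cpow_def_of_ne_zero hx', Complex.cpow_def_of_ne_zero hy',
    Complex.cpow_def_of_ne_zero hyx, ← Complex.exp_add, ← Complex.ofReal_log hx.le,
    ← Complex.ofReal_log hy.le, ← Complex.ofReal_log (mul_pos hy hx).le,
    Real.log_mul hy.ne' hx.ne', Complex.ofReal_add]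
  congr 1
  ring

private theorem bcw_int {β : ℂ → ℂ} {B : ℝ → ℝ} (hβ : BC β B) {c : ℝ} (hc : 0 < c)
    (hc1 : c ≤ 1 / 8) {y : ℝ} (hy : 0 < y) :
    Integrable (fun t : ℝ => β (c + Complex.I * t) * (y : ℂ) ^ (-(c + Complex.I * t : ℂ)) /
      (c + Complex.I * t)) := by
  obtain ⟨C, hC0, hC⟩ := hβ.bd 2
  have hcont : Continuous fun t : ℝ =>
      β (c + Complex.I * t) * (y : ℂ) ^ (-(c + Complex.I * t : ℂ)) / (c + Complex.I * t) :=
    ((hβ.ct c (by rw [abs_of_pos hc]; exact hc1)).mul (bcw_ycont hy c)).div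
      (by fun_prop) (bcw_ne hc)
  refine (integrable_inv_one_add_sq.const_mul (C * y ^ (-c) / c)).mono'
    hcont.aestronglyMeasurable (Eventually.of_forall fun t => ?_)
  have h1 := (hC (c + Complex.I * t) (by rw [bcw_re, abs_of_pos hc]; exact hc1)).1
  have h2 : |t| ≤ ‖(c : ℂ) + Complex.I * t‖ := by
    have := Complex.abs_im_le_norm ((c : ℂ) + Complex.I * t)
    rwa [bcw_im] at this
  have h3 : c ≤ ‖(c : ℂ) + Complex.I * t‖ := by
    have := Complex.abs_re_le_norm ((c : ℂ) + Complex.I * t)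
    rwa [bcw_re, abs_of_pos hc] at this
  have h4 : 1 + t ^ 2 ≤ (1 + ‖(c : ℂ) + Complex.I * t‖) ^ (2 : ℝ) := by
    rw [Real.rpow_two]
    have h5 : t ^ 2 = |t| ^ 2 := (sq_abs t).symm
    nlinarith [abs_nonneg t, norm_nonneg ((c : ℂ) + Complex.I * t)]
  have h6 : ‖β (c + Complex.I * t)‖ ≤ C * (1 + t ^ 2)⁻¹ := by
    rw [← div_eq_mul_inv, le_div_iff₀ (by positivity)]
    exact (mul_le_mul_of_nonneg_left h4 (norm_nonneg _)).trans h1
  rw [norm_div, norm_mul, bcw_ynorm hy]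
  calc ‖β (c + Complex.I * t)‖ * y ^ (-c) / ‖(c : ℂ) + Complex.I * t‖
      ≤ (C * (1 + t ^ 2)⁻¹) * y ^ (-c) / c :=
        div_le_div₀ (by positivity) (mul_le_mul_of_nonneg_right h6 (by positivity)) hc h3
    _ = C * y ^ (-c) / c * (1 + t ^ 2)⁻¹ := by ring

theorem BC_factor {β : ℂ → ℂ} {B : ℝ → ℝ} (hβ : BC β B) (u v w : ℝ) (huvw : u + v + w = 1)
    {p : ℝ} (hp : 1 ≤ p) :
    BC (fun z => β z * ((u : ℂ) + (v : ℂ) * (p : ℂ) ^ z + (w : ℂ) * (p : ℂ) ^ (-z)))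
      (fun y => u * B y + v * B (y / p) + w * B (y * p)) := by
  have hp0 : 0 < p := by linarith
  have hlog0 : 0 ≤ Real.log p := Real.log_nonneg hp
  have hq0 : 0 ≤ p ^ (1 / 8 : ℝ) := by positivity
  refine ⟨fun A => ?_, fun c hc => ?_, fun c hc hc1 y hy => ?_⟩
  · obtain ⟨C, hC0, hC⟩ := hβ.bd A
    set K : ℝ := |u| + (|v| + |w|) * p ^ (1 / 8 : ℝ) with hK
    set D : ℝ := (|v| + |w|) * ((p ^ (1 / 8 : ℝ) + 2) * Real.log p) with hD
    have hK0 : 0 ≤ K := by positivity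
    have hD0 : 0 ≤ D := by positivity
    refine ⟨K * C + D + 1, by positivity, fun z hz => ?_⟩
    obtain ⟨h1, h2⟩ := hC z hz
    obtain ⟨a1, a2⟩ := bcw_cpow hp hz
    obtain ⟨b1, b2⟩ := bcw_cpow' hp hz
    have hz0 := norm_nonneg z
    have hm : ‖(u : ℂ) + (v : ℂ) * (p : ℂ) ^ z + (w : ℂ) * (p : ℂ) ^ (-z)‖ ≤ K := by
      have e1 := norm_add_le ((u : ℂ) + (v : ℂ) * (p : ℂ) ^ z) ((w : ℂ) * (p : ℂ) ^ (-z))
      have e2 := norm_add_le (u : ℂ) ((v : ℂ) * (p : ℂ) ^ z)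
      rw [norm_mul, Complex.norm_real, Real.norm_eq_abs] at e1
      rw [norm_mul, Complex.norm_real, Complex.norm_real, Real.norm_eq_abs,
        Real.norm_eq_abs] at e2
      have e3 : |v| * ‖(p : ℂ) ^ z‖ ≤ |v| * p ^ (1 / 8 : ℝ) :=
        mul_le_mul_of_nonneg_left a1 (abs_nonneg _)
      have e4 : |w| * ‖(p : ℂ) ^ (-z)‖ ≤ |w| * p ^ (1 / 8 : ℝ) :=
        mul_le_mul_of_nonneg_left b1 (abs_nonneg _)
      rw [hK, add_mul]
      linarith
    have hm1 : ‖(u : ℂ) + (v : ℂ) * (p : ℂ) ^ z + (w : ℂ) * (p : ℂ) ^ (-z) - 1‖ ≤ D * ‖z‖ := by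
      have hu : (u : ℂ) = 1 - v - w := by
        have : u = 1 - v - w := by linarith
        rw [this]
        push_cast
        ring
      have e0 : (u : ℂ) + (v : ℂ) * (p : ℂ) ^ z + (w : ℂ) * (p : ℂ) ^ (-z) - 1 =
          (v : ℂ) * ((p : ℂ) ^ z - 1) + (w : ℂ) * ((p : ℂ) ^ (-z) - 1) := by
        rw [hu]
        ring
      rw [e0]
      refine (norm_add_le _ _).trans ?_
      rw [norm_mul, norm_mul, Complex.norm_real, Complex.norm_real, Real.norm_eq_abs,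
        Real.norm_eq_abs]
      have e3 := mul_le_mul_of_nonneg_left a2 (abs_nonneg v)
      have e4 := mul_le_mul_of_nonneg_left b2 (abs_nonneg w)
      refine (add_le_add e3 e4).trans (le_of_eq ?_)
      rw [hD]
      ring
    constructor
    · have h5 : 0 ≤ ‖β z‖ * (1 + ‖z‖) ^ A := by positivity
      calc ‖β z * ((u : ℂ) + (v : ℂ) * (p : ℂ) ^ z + (w : ℂ) * (p : ℂ) ^ (-z))‖ *
            (1 + ‖z‖) ^ A
          = ‖(u : ℂ) + (v : ℂ) * (p : ℂ) ^ z + (w : ℂ) * (p : ℂ) ^ (-z)‖ *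
            (‖β z‖ * (1 + ‖z‖) ^ A) := by rw [norm_mul]; ring
        _ ≤ K * C := mul_le_mul hm h1 h5 hK0
        _ ≤ K * C + D + 1 := by linarith
    · have h5 : β z * ((u : ℂ) + (v : ℂ) * (p : ℂ) ^ z + (w : ℂ) * (p : ℂ) ^ (-z)) - 1 =
          (β z - 1) * ((u : ℂ) + (v : ℂ) * (p : ℂ) ^ z + (w : ℂ) * (p : ℂ) ^ (-z)) +
            ((u : ℂ) + (v : ℂ) * (p : ℂ) ^ z + (w : ℂ) * (p : ℂ) ^ (-z) - 1) := by ring
      show ‖β z * ((u : ℂ) + (v : ℂ) * (p : ℂ) ^ z + (w : ℂ) * (p : ℂ) ^ (-z)) - 1‖ ≤ _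
      rw [h5]
      refine (norm_add_le _ _).trans ?_
      rw [norm_mul]
      have h6 := mul_le_mul h2 hm (norm_nonneg _) (by positivity : 0 ≤ C * ‖z‖)
      have h7 : C * ‖z‖ * K = K * C * ‖z‖ := by ring
      have h8 : (K * C + D + 1) * ‖z‖ = K * C * ‖z‖ + D * ‖z‖ + ‖z‖ := by ring
      rw [h8]
      linarith
  · exact (hβ.ct c hc).mul ((continuous_const.add (continuous_const.mul (bcw_ycont' hp0 c))).add
      (continuous_const.mul (bcw_ycont hp0 c)))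
  · have i1 := bcw_int hβ hc hc1 hy
    have i2 := bcw_int hβ hc hc1 (y := y / p) (by positivity)
    have i3 := bcw_int hβ hc hc1 (y := y * p) (by positivity)
    push_cast
    rw [hβ.inv c hc hc1 y hy, hβ.inv c hc hc1 (y / p) (by positivity),
      hβ.inv c hc hc1 (y * p) (by positivity)]
    have e2 : ∀ t : ℝ, β (c + Complex.I * t) * ((u : ℂ) + (v : ℂ) * (p : ℂ) ^ (c + Complex.I * t : ℂ)
        + (w : ℂ) * (p : ℂ) ^ (-(c + Complex.I * t : ℂ))) * (y : ℂ) ^ (-(c + Complex.I * t : ℂ)) /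
          (c + Complex.I * t) =
        ((u : ℂ) * (β (c + Complex.I * t) * (y : ℂ) ^ (-(c + Complex.I * t : ℂ)) /
          (c + Complex.I * t)) +
        (v : ℂ) * (β (c + Complex.I * t) * ((y / p : ℝ) : ℂ) ^ (-(c + Complex.I * t : ℂ)) /
          (c + Complex.I * t))) +
        (w : ℂ) * (β (c + Complex.I * t) * ((y * p : ℝ) : ℂ) ^ (-(c + Complex.I * t : ℂ)) /
          (c + Complex.I * t)) := by
      intro t
      rw [bcw_shift hp0 hy, bcw_shift' hp0 hy]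
      ring
    have e3 := integral_add ((i1.const_mul (u : ℂ)).add (i2.const_mul (v : ℂ)))
      (i3.const_mul (w : ℂ))
    have e4 := integral_add (i1.const_mul (u : ℂ)) (i2.const_mul (v : ℂ))
    simp only [Pi.add_apply] at e3
    rw [e4, integral_const_mul, integral_const_mul, integral_const_mul] at e3
    simp_rw [e2]
    rw [e3]
    ring

private theorem bcw_prod {β : ℂ → ℂ} {B : ℝ → ℝ} (hβ : BC β B) (f : ℕ → ℂ → ℂ)
    (S : Finset ℕ) (hf : ∀ p ∈ S, ∃ u v w q : ℝ, u + v + w = 1 ∧ 1 ≤ q ∧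
      ∀ z : ℂ, f p z = (u : ℂ) + (v : ℂ) * (q : ℂ) ^ z + (w : ℂ) * (q : ℂ) ^ (-z)) :
    ∃ B' : ℝ → ℝ, BC (fun z => β z * ∏ p ∈ S, f p z) B' := by
  classical
  induction S using Finset.induction_on with
  | empty =>
    refine ⟨B, ?_⟩
    simpa using hβ
  | insert a S ha ih =>
    obtain ⟨B', hB'⟩ := ih fun p hp => hf p (Finset.mem_insert_of_mem hp)
    obtain ⟨u, v, w, q, h1, h2, h3⟩ := hf a (Finset.mem_insert_self a S)
    refine ⟨fun y => u * B' y + v * B' (y / q) + w * B' (y * q), ?_⟩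
    have h := BC_factor hB' u v w h1 h2
    have e : (fun z => β z * ∏ p ∈ insert a S, f p z) =
        fun z => β z * (∏ p ∈ S, f p z) *
          ((u : ℂ) + (v : ℂ) * (q : ℂ) ^ z + (w : ℂ) * (q : ℂ) ^ (-z)) := by
      funext z
      rw [Finset.prod_insert ha, h3 z]
      ring
    rw [e]
    exact h

private theorem bcw_sq {p : ℕ} (hp : 0 < p) (z : ℂ) :
    (p : ℂ) ^ (2 * z - 1) = ((((p : ℝ) ^ 2 : ℝ)) : ℂ) ^ z / (p : ℂ) := by
  have hp' : (p : ℂ) ≠ 0 := by exact_mod_cast hp.ne'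
  have hpr : (0 : ℝ) < p := by exact_mod_cast hp
  have hk : (((p : ℝ) ^ 2 : ℝ) : ℂ) ≠ 0 := by exact_mod_cast (pow_pos hpr 2).ne'
  rw [Complex.cpow_sub _ _ hp', Complex.cpow_one]
  congr 1
  rw [Complex.cpow_def_of_ne_zero hp', Complex.cpow_def_of_ne_zero hk,
    ← Complex.ofReal_log (by positivity), Real.log_pow, Complex.ofReal_mul,
    Complex.ofReal_natCast, ← Complex.ofReal_natCast p, Complex.ofReal_log hpr.le]
  congr 1
  push_cast
  ring

theorem BC_WP {β : ℂ → ℂ} {B : ℝ → ℝ} (hβ : BC β B) (P Q R : ℕ) :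
    ∃ B' : ℝ → ℝ, BC (fun z => β z * WP P Q R z) B' := by
  classical
  obtain ⟨B₁, hB₁⟩ := bcw_prod hβ (fun p z => 1 + (if p ∣ Q then -1 else 1) *
      (((p : ℂ) ^ z - (p : ℂ) ^ (-z)) / ((√(p : ℝ) : ℂ) * (1 - 1 / (p : ℂ)))))
    (P.primeFactors.filter (fun p => ¬ p ∣ R)) (by
      intro p hp
      have hpp : p.Prime := Nat.prime_of_mem_primeFactors (Finset.mem_filter.mp hp).1
      have hp1 : (1 : ℝ) ≤ p := by exact_mod_cast hpp.one_lt.le
      refine ⟨1, (if p ∣ Q then -1 else 1) / (√(p : ℝ) * (1 - 1 / (p : ℝ))),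
        -((if p ∣ Q then -1 else 1) / (√(p : ℝ) * (1 - 1 / (p : ℝ)))), p, by ring, hp1,
        fun z => ?_⟩
      split_ifs
      · push_cast
        ring
      · push_cast
        ring)
  obtain ⟨B₂, hB₂⟩ := bcw_prod hB₁ (fun p z => (1 - (p : ℂ) ^ (2 * z - 1)) / (1 - 1 / (p : ℂ)))
    R.primeFactors (by
      intro p hp
      have hpp : p.Prime := Nat.prime_of_mem_primeFactors hp
      have hp1 : (1 : ℝ) < p := by exact_mod_cast hpp.one_lt
      have hp2 : (1 : ℝ) - 1 / p ≠ 0 := by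
        have : (1 : ℝ) / p < 1 := by
          rw [div_lt_one (by linarith)]
          exact hp1
        linarith
      refine ⟨1 / (1 - 1 / (p : ℝ)), -(1 / (p : ℝ)) / (1 - 1 / (p : ℝ)), 0, (p : ℝ) ^ 2,
        ?_, by nlinarith, fun z => ?_⟩
      · rw [add_zero, ← add_div, ← sub_eq_add_neg, div_self hp2]
      · rw [bcw_sq hpp.pos]
        push_cast
        ring)
  refine ⟨B₂, ?_⟩
  have e : (fun z => β z * WP P Q R z) = fun z => β z * (∏ p ∈ P.primeFactors.filter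
      (fun p => ¬ p ∣ R), (1 + (if p ∣ Q then -1 else 1) *
      (((p : ℂ) ^ z - (p : ℂ) ^ (-z)) / ((√(p : ℝ) : ℂ) * (1 - 1 / (p : ℂ)))))) *
      ∏ p ∈ R.primeFactors, ((1 - (p : ℂ) ^ (2 * z - 1)) / (1 - 1 / (p : ℂ))) := by
    funext z
    rw [WP]
    ring
  rw [e]
  exact hB₂

end Pool.Agent.MP0016c7.Rz
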