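import Mathlib
import Pool.Agent.Lib.MP_0016c7_nt.PS.DefsM

set_option autoImplicit false

/-!
Simple consequences of the bounds for the correction factors.
-/

open Finset MeasureTheory Filter Topology
open scoped Real ContDiff

namespace Pool.Agent.MP0016c7.Rz

private lemma bcl_re (L t : ℝ) : ((1 + Complex.I * t) / (L : ℂ)).re = 1 / L := by
  rw [Complex.div_ofReal_re]
  simp

private lemma bcl_norm {L : ℝ} (hL : 0 < L) (t : ℝ) :
    ‖(1 + Complex.I * t) / (L : ℂ)‖ = ‖(1 : ℂ) + Complex.I * t‖ / L := by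
  rw [norm_div, Complex.norm_real, Real.norm_of_nonneg hL.le]

private lemma bcl_abs_re {L : ℝ} (hL : 0 < L) (t : ℝ) :
    |((1 + Complex.I * t) / (L : ℂ)).re| ≤ 4 / L := by
  rw [bcl_re, abs_of_pos (by positivity)]
  exact div_le_div_of_nonneg_right (by norm_num) hL.le

private lemma bcl_norm_le (t : ℝ) : ‖(1 : ℂ) + Complex.I * t‖ ≤ 1 + |t| := by
  refine (norm_add_le _ _).trans ?_
  rw [norm_one, norm_mul, Complex.norm_I, one_mul, Complex.norm_real, Real.norm_eq_abs]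

private lemma bcl_log {X : ℕ → ℝ} (hX : Tendsto X atTop atTop) :
    Tendsto (fun n => Real.log (X n)) atTop atTop := Real.tendsto_log_atTop.comp hX

theorem WBd_line_lim {X : ℕ → ℝ} {W : ℕ → ℂ → ℂ} (hX : Tendsto X atTop atTop) (hW : WBd X W)
    (t : ℝ) :
    Tendsto (fun n => W n ((1 + Complex.I * t) / (Real.log (X n) : ℂ))) atTop (𝓝 1) := by
  obtain ⟨C, hC, hnear⟩ := hW.near
  have hL := bcl_log hX
  rw [tendsto_iff_norm_sub_tendsto_zero]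
  have hlim : Tendsto (fun n => C * ‖(1 : ℂ) + Complex.I * t‖ * (Real.log (X n)) ^ (-(3 / 8) : ℝ))
      atTop (𝓝 0) := by
    have h1 : Tendsto (fun x : ℝ => x ^ (-(3 / 8) : ℝ)) atTop (𝓝 0) :=
      tendsto_rpow_neg_atTop (by norm_num)
    have h2 := (h1.comp hL).const_mul (C * ‖(1 : ℂ) + Complex.I * t‖)
    rw [mul_zero] at h2
    exact h2
  refine squeeze_zero' (Eventually.of_forall fun n => norm_nonneg _) ?_ hlim
  have h3 : ∀ᶠ n in atTop, ‖(1 : ℂ) + Complex.I * t‖ ≤ (Real.log (X n)) ^ (1 / 4 : ℝ) := by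
    have h4 : Tendsto (fun x : ℝ => x ^ (1 / 4 : ℝ)) atTop atTop :=
      tendsto_rpow_atTop (by norm_num)
    exact (h4.comp hL).eventually_ge_atTop _
  filter_upwards [hnear, h3, hL.eventually_gt_atTop 0] with n hn h3 hpos
  have h5 := hn ((1 + Complex.I * t) / (Real.log (X n) : ℂ)) (bcl_abs_re hpos t)
    (by rw [bcl_norm hpos, div_mul_cancel₀ _ hpos.ne']; exact h3)
  refine h5.trans (le_of_eq ?_)
  rw [bcl_norm hpos]
  have h6 : (Real.log (X n)) ^ (-(3 / 8) : ℝ) = (Real.log (X n)) ^ (5 / 8 : ℝ) / Real.log (X n) := by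
    have h7 := Real.rpow_sub hpos (5 / 8) 1
    rw [Real.rpow_one] at h7
    rw [← h7]
    norm_num
  rw [h6]
  ring

theorem WBd_line_bound {X : ℕ → ℝ} {W : ℕ → ℂ → ℂ} (hX : Tendsto X atTop atTop) (hW : WBd X W) :
    ∃ C : ℝ, 0 < C ∧ ∀ᶠ n in atTop, ∀ t : ℝ,
      ‖W n ((1 + Complex.I * t) / (Real.log (X n) : ℂ))‖ ≤ C * (1 + |t|) ^ (1 / 4 : ℝ) := by
  obtain ⟨C, hC, hnear⟩ := hW.near
  obtain ⟨C', hC', hmid⟩ := hW.mid
  have hL := bcl_log hX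
  refine ⟨1 + C + C', by positivity, ?_⟩
  filter_upwards [hnear, hmid, hL.eventually_ge_atTop 1] with n hn hm h1 t
  have hpos : 0 < Real.log (X n) := lt_of_lt_of_le one_pos h1
  set L := Real.log (X n) with hLdef
  have ht1 : 1 ≤ (1 + |t|) ^ (1 / 4 : ℝ) :=
    Real.one_le_rpow (by linarith only [abs_nonneg t]) (by norm_num)
  by_cases hc : ‖(1 : ℂ) + Complex.I * t‖ ≤ L ^ (1 / 4 : ℝ)
  · have h5 := hn ((1 + Complex.I * t) / (L : ℂ)) (bcl_abs_re hpos t)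
      (by rw [bcl_norm hpos, div_mul_cancel₀ _ hpos.ne']; exact hc)
    rw [bcl_norm hpos] at h5
    have h6 : C * (‖(1 : ℂ) + Complex.I * t‖ / L) * L ^ (5 / 8 : ℝ) ≤ C := by
      have h7 : ‖(1 : ℂ) + Complex.I * t‖ / L * L ^ (5 / 8 : ℝ) ≤ 1 := by
        have h8 : L ^ (1 / 4 : ℝ) / L * L ^ (5 / 8 : ℝ) = L ^ (-(1 / 8) : ℝ) := by
          have e1 := Real.rpow_sub hpos (1 / 4) 1
          rw [Real.rpow_one] at e1
          rw [← e1, ← Real.rpow_add hpos]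
          norm_num
        have h9 : L ^ (-(1 / 8) : ℝ) ≤ 1 :=
          Real.rpow_le_one_of_one_le_of_nonpos h1 (by norm_num)
        calc ‖(1 : ℂ) + Complex.I * t‖ / L * L ^ (5 / 8 : ℝ)
            ≤ L ^ (1 / 4 : ℝ) / L * L ^ (5 / 8 : ℝ) :=
              mul_le_mul_of_nonneg_right (div_le_div_of_nonneg_right hc hpos.le)
                (Real.rpow_nonneg hpos.le _)
          _ = L ^ (-(1 / 8) : ℝ) := h8
          _ ≤ 1 := h9
      calc C * (‖(1 : ℂ) + Complex.I * t‖ / L) * L ^ (5 / 8 : ℝ)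
          = C * (‖(1 : ℂ) + Complex.I * t‖ / L * L ^ (5 / 8 : ℝ)) := by ring
        _ ≤ C * 1 := mul_le_mul_of_nonneg_left h7 hC.le
        _ = C := mul_one C
    have h10 : ‖W n ((1 + Complex.I * t) / (L : ℂ))‖ ≤ 1 + C := by
      have h11 := norm_add_le (W n ((1 + Complex.I * t) / (L : ℂ)) - 1) 1
      rw [sub_add_cancel, norm_one] at h11
      linarith only [h11, h5, h6]
    nlinarith only [h10, ht1, hC, hC']
  · rw [not_le] at hc
    have h5 := hm ((1 + Complex.I * t) / (L : ℂ)) (bcl_abs_re hpos t)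
    have h6 : L ^ (1 / 16 : ℝ) ≤ (1 + |t|) ^ (1 / 4 : ℝ) := by
      have h7 : L ^ (1 / 16 : ℝ) = (L ^ (1 / 4 : ℝ)) ^ (1 / 4 : ℝ) := by
        rw [← Real.rpow_mul hpos.le]
        norm_num
      rw [h7]
      exact Real.rpow_le_rpow (Real.rpow_nonneg hpos.le _) (hc.le.trans (bcl_norm_le t))
        (by norm_num)
    have h8 : C' * L ^ (1 / 16 : ℝ) ≤ C' * (1 + |t|) ^ (1 / 4 : ℝ) :=
      mul_le_mul_of_nonneg_left h6 hC'.le
    nlinarith only [h5, h8, ht1, hC, hC']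

private lemma bcl_le {β W : ℂ → ℂ} {B' : ℝ → ℝ} {C M : ℝ} (hC : 0 < C) (hM : 0 ≤ M)
    (hb : ∀ z : ℂ, |z.re| ≤ 1 / 8 → ‖β z‖ * (1 + ‖z‖) ^ (2 : ℝ) ≤ C ∧ ‖β z - 1‖ ≤ C * ‖z‖)
    (hW : ∀ z : ℂ, |z.re| ≤ 1 / 8 → ‖W z‖ ≤ M) (hB' : BC (fun z => β z * W z) B')
    (y : ℝ) (hy : 0 < y) : |B' y| ≤ 4 * C * M * y ^ (-(1 / 8) : ℝ) := by
  have hinv := hB'.inv (1 / 8) (by norm_num) le_rfl y hy
  have h1 : |B' y| = ‖(B' y : ℂ)‖ := by rw [Complex.norm_real, Real.norm_eq_abs]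
  rw [h1, hinv, norm_mul]
  have hyc : 0 < y ^ (-(1 / 8) : ℝ) := Real.rpow_pos_of_pos hy _
  have hpt : ∀ t : ℝ, ‖β (((1 / 8 : ℝ) : ℂ) + Complex.I * t) *
      W (((1 / 8 : ℝ) : ℂ) + Complex.I * t) *
      (y : ℂ) ^ (-(((1 / 8 : ℝ) : ℂ) + Complex.I * t : ℂ)) / (((1 / 8 : ℝ) : ℂ) + Complex.I * t)‖ ≤
      (8 * C * M * y ^ (-(1 / 8) : ℝ)) * (1 + t ^ 2)⁻¹ := by
    intro t
    have hre : (((1 / 8 : ℝ) : ℂ) + Complex.I * t).re = 1 / 8 := by simp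
    have him : (((1 / 8 : ℝ) : ℂ) + Complex.I * t).im = t := by simp
    have habs : |(((1 / 8 : ℝ) : ℂ) + Complex.I * t).re| ≤ 1 / 8 := by
      rw [hre, abs_of_pos (by norm_num)]
    have h2 := (hb (((1 / 8 : ℝ) : ℂ) + Complex.I * t) habs).1
    have hw := hW (((1 / 8 : ℝ) : ℂ) + Complex.I * t) habs
    have h3 : |t| ≤ ‖((1 / 8 : ℝ) : ℂ) + Complex.I * t‖ := by
      have := Complex.abs_im_le_norm (((1 / 8 : ℝ) : ℂ) + Complex.I * t)
      rwa [him] at this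
    have h4 : 1 / 8 ≤ ‖((1 / 8 : ℝ) : ℂ) + Complex.I * t‖ := by
      have := Complex.re_le_norm (((1 / 8 : ℝ) : ℂ) + Complex.I * t)
      rwa [hre] at this
    have h5 : ‖β (((1 / 8 : ℝ) : ℂ) + Complex.I * t)‖ ≤ C * (1 + t ^ 2)⁻¹ := by
      rw [← div_eq_mul_inv, le_div_iff₀ (by positivity)]
      refine le_trans ?_ h2
      apply mul_le_mul_of_nonneg_left _ (norm_nonneg _)
      rw [Real.rpow_two]
      have h6 : t ^ 2 ≤ ‖((1 / 8 : ℝ) : ℂ) + Complex.I * t‖ ^ 2 := by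
        rw [← sq_abs t]
        exact pow_le_pow_left₀ (abs_nonneg t) h3 2
      nlinarith only [h4, h6, norm_nonneg (((1 / 8 : ℝ) : ℂ) + Complex.I * t)]
    have h7 : ‖(y : ℂ) ^ (-(((1 / 8 : ℝ) : ℂ) + Complex.I * t : ℂ))‖ = y ^ (-(1 / 8) : ℝ) := by
      rw [Complex.norm_cpow_eq_rpow_re_of_pos hy, Complex.neg_re, hre]
    have h5' : ‖β (((1 / 8 : ℝ) : ℂ) + Complex.I * t)‖ * ‖W (((1 / 8 : ℝ) : ℂ) + Complex.I * t)‖ ≤
        C * (1 + t ^ 2)⁻¹ * M :=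
      mul_le_mul h5 hw (norm_nonneg _) (by positivity)
    rw [norm_div, norm_mul, norm_mul, h7]
    calc ‖β (((1 / 8 : ℝ) : ℂ) + Complex.I * t)‖ * ‖W (((1 / 8 : ℝ) : ℂ) + Complex.I * t)‖ *
          y ^ (-(1 / 8) : ℝ) / ‖((1 / 8 : ℝ) : ℂ) + Complex.I * t‖
        ≤ (C * (1 + t ^ 2)⁻¹ * M) * y ^ (-(1 / 8) : ℝ) / (1 / 8) := by
          apply div_le_div₀ (by positivity) (mul_le_mul_of_nonneg_right h5' hyc.le) (by norm_num) h4
      _ = _ := by ring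
  have h8 := norm_integral_le_of_norm_le (integrable_inv_one_add_sq.const_mul _)
    (Eventually.of_forall hpt)
  rw [integral_const_mul, integral_univ_inv_one_add_sq] at h8
  have hpi : ‖(1 / (2 * π) : ℂ)‖ = 1 / (2 * π) := by
    have : (1 / (2 * π) : ℂ) = ((1 / (2 * π) : ℝ) : ℂ) := by push_cast; ring
    rw [this, Complex.norm_real, Real.norm_of_nonneg (by positivity)]
  rw [hpi]
  calc _ ≤ 1 / (2 * π) * (8 * C * M * y ^ (-(1 / 8) : ℝ) * π) :=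
        mul_le_mul_of_nonneg_left h8 (by positivity)
    _ = _ := by
        have := Real.pi_pos
        field_simp
        ring

theorem BCW_tendsto {β : ℂ → ℂ} {B : ℝ → ℝ} (hβ : BC β B) {X : ℕ → ℝ} {W : ℕ → ℂ → ℂ}
    (hX : Tendsto X atTop atTop) (hW : WBd X W) {B' : ℕ → ℝ → ℝ}
    (hB' : ∀ n, BC (fun z => β z * W n z) (B' n)) :
    Tendsto (fun n => B' n (X n / 2)) atTop (𝓝 0) := by
  obtain ⟨C, hC, hb⟩ := hβ.bd 2
  have hlim : Tendsto (fun n => (4 * C * 2 ^ (1 / 8 : ℝ)) * (X n) ^ (-(1 / 16) : ℝ)) atTop (𝓝 0) := by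
    have h1 : Tendsto (fun x : ℝ => x ^ (-(1 / 16) : ℝ)) atTop (𝓝 0) :=
      tendsto_rpow_neg_atTop (by norm_num)
    have h2 := (h1.comp hX).const_mul (4 * C * 2 ^ (1 / 8 : ℝ))
    rw [mul_zero] at h2
    exact h2
  refine squeeze_zero_norm' ?_ hlim
  filter_upwards [hW.far (1 / 16) (by norm_num), hX.eventually_gt_atTop 0] with n hn hpos
  have h1 := bcl_le hC (Real.rpow_nonneg hpos.le (1 / 16)) hb hn (hB' n) (X n / 2) (by positivity)
  rw [Real.norm_eq_abs]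
  refine h1.trans (le_of_eq ?_)
  have h2 : (X n / 2) ^ (-(1 / 8) : ℝ) = (X n) ^ (-(1 / 8) : ℝ) * 2 ^ (1 / 8 : ℝ) := by
    rw [Real.div_rpow hpos.le (by norm_num), Real.rpow_neg (by norm_num : (0 : ℝ) ≤ 2),
      div_inv_eq_mul]
  have h3 : (X n) ^ (-(1 / 16) : ℝ) = (X n) ^ (1 / 16 : ℝ) * (X n) ^ (-(1 / 8) : ℝ) := by
    rw [← Real.rpow_add hpos]
    norm_num
  rw [h2, h3]
  ring

end Pool.Agent.MP0016c7.Rz
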