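import Mathlib
import Pool.Agent.Lib.MP_0016c7_nt.PS.DefsM
import Pool.Agent.Lib.MP_0016c7_nt.Rz.BBm
import Pool.Agent.Lib.MP_0016c7_nt.Rz.BBi
import Pool.Agent.Lib.MP_0016c7_nt.Rz.MMr
import Pool.Agent.Lib.MP_0016c7_nt.Rz2.BCG
import Pool.Agent.Lib.MP_0016c7_nt.Rz2.MGr

set_option autoImplicit false

/-!
The kernels of the residue classes are admissible, and the main terms of the residue classes have
the Mellin representation.
-/

open Finset MeasureTheory Filter Topology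
open scoped Real ContDiff

namespace Pool.Agent.MP0016c7.Rz

theorem BC_bU {F : ℝ → ℝ} {a b : ℝ} (ha : 0 < a) (hF : Bump F a b) (hF0 : 0 < ∫ t, F t)
    (σ ε : ℤ) (hε : ε = 0 ∨ ε = 1 ∨ ε = -1) (κ : ℕ) : BC (bU F σ ε κ) (BU F σ ε κ) := by
  by_cases hκ : κ = 8
  · have h1 : bU F σ ε κ = bb F σ := by
      funext z
      simp [bU, hκ]
    have h2 : BU F σ ε κ = BB F σ := by
      funext z
      simp [BU, hκ]
    rw [h1, h2]
    refine ⟨fun A => ?_, fun c hc => continuous_bb ha hF hF0 σ c (by linarith),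
      fun c hc hc1 y hy => BB_inversion ha hF hF0 σ c hc (by linarith) y hy⟩
    obtain ⟨C, hC0, hC⟩ := bb_bound ha hF hF0 σ A
    exact ⟨C, hC0, fun z hz => hC z (by linarith)⟩
  · have h1 : bU F σ ε κ = bG F σ ε := by
      funext z
      simp [bU, hκ]
    have h2 : BU F σ ε κ = BG F σ ε := by
      funext z
      simp [BU, hκ]
    rw [h1, h2]
    exact BC_bG ha hF hF0 σ ε hε

theorem MRep_MU {F : ℝ → ℝ} {a b : ℝ} (ha : 0 < a) (hF : Bump F a b) (hF0 : 0 < ∫ t, F t)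
    (σ ε : ℤ) (hε : ε = 0 ∨ ε = 1 ∨ ε = -1) (κ : ℕ) (Y : ℝ) (hY : 0 < Y) :
    MRep (bU F σ ε κ) (∫ t, F t) Y (MU F σ ε κ Y) := by
  by_cases hκ : κ = 8
  · have h1 : bU F σ ε κ = bb F σ := by
      funext z
      simp [bU, hκ]
    have h2 : MU F σ ε κ Y = MM F σ Y := by
      funext z
      simp [MU, hκ]
    rw [h1, h2]
    intro N hN c hc hc1
    exact MM_repr ha hF hF0 σ N hN Y hY c hc (by linarith)
  · have h1 : bU F σ ε κ = bG F σ ε := by
      funext z
      simp [bU, hκ]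
    have h2 : MU F σ ε κ Y = MG F σ ε Y := by
      funext z
      simp [MU, hκ]
    rw [h1, h2]
    exact MG_repr ha hF hF0 σ ε hε Y hY

end Pool.Agent.MP0016c7.Rz
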