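import Mathlib
import Pool.Agent.Lib.MP_0016c7_nt.PS.DefsM
import Pool.Agent.Lib.MP_0016c7_nt.Rz.ArithA1
import Pool.Agent.Lib.MP_0016c7_nt.Rz.Eul1

set_option autoImplicit false

/-!
The arithmetic identity behind the correction factor `WP`.
-/

open Finset MeasureTheory Filter Topology
open scoped Real ContDiff

namespace Pool.Agent.MP0016c7.Rz

/-! ### values at prime powers and multiplicativity -/

private lemma bzp_sq1_pp {p : ℕ} (hp : p.Prime) (k : ℕ) :
    sq1 (p ^ k) = if Odd k then p else 1 := by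
  unfold sq1
  rcases Nat.eq_zero_or_pos k with rfl | hk
  · simp
  · rw [Nat.primeFactors_prime_pow hk.ne' hp]
    have hf : (p ^ k).factorization p = k := by
      rw [hp.factorization_pow]; simp
    by_cases h : Odd k
    · rw [if_pos h, Finset.filter_singleton, hf, if_pos h, Finset.prod_singleton]
    · rw [if_neg h, Finset.filter_singleton, hf, if_neg h, Finset.prod_empty]

private lemma bzp_sq2_pp {p : ℕ} (hp : p.Prime) (k : ℕ) : sq2 (p ^ k) = p ^ (k / 2) := by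
  unfold sq2
  rcases Nat.eq_zero_or_pos k with rfl | hk
  · simp
  · rw [Nat.primeFactors_prime_pow hk.ne' hp, Finset.prod_singleton]
    have hf : (p ^ k).factorization p = k := by
      rw [hp.factorization_pow]; simp
    rw [hf]

private lemma bzp_rho_odd {p : ℕ} (hp : p.Prime) (k : ℕ) (hk : Odd k) : rhoN (p ^ k) = 1 := by
  unfold rhoN
  rw [bzp_sq1_pp hp, bzp_sq2_pp hp, if_pos hk]
  refine Finset.prod_eq_one fun q hq => ?_
  rw [Finset.mem_filter] at hq
  exfalso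
  apply hq.2
  have h1 := Nat.dvd_of_mem_primeFactors hq.1
  exact (Nat.prime_of_mem_primeFactors hq.1).dvd_of_dvd_pow h1

private lemma bzp_rho_even {p : ℕ} (hp : p.Prime) (k : ℕ) (hk : ¬ Odd k) (hk0 : k ≠ 0) :
    rhoN (p ^ k) = 1 - 1 / (p : ℝ) := by
  unfold rhoN
  rw [bzp_sq1_pp hp, bzp_sq2_pp hp, if_neg hk]
  have h2 : k / 2 ≠ 0 := by
    rw [Nat.not_odd_iff_even] at hk
    obtain ⟨j, hj⟩ := hk
    omega
  rw [Nat.primeFactors_prime_pow h2 hp, Finset.filter_singleton,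
    if_pos (by simpa using hp.one_lt.ne'), Finset.prod_singleton]

private lemma bzp_cpow_real (t : ℝ) (ht : 0 < t) (z : ℂ) :
    (t : ℂ) ^ z = Complex.exp ((Real.log t : ℂ) * z) := by
  rw [Complex.cpow_def_of_ne_zero (by exact_mod_cast ht.ne'), Complex.ofReal_log ht.le]

private lemma bzp_S (z : ℂ) (a : ℕ) (ha : a ≠ 0) :
    ∑ e ∈ a.divisors, (ArithmeticFunction.moebius e : ℂ) *
      (((a : ℝ) / (e : ℝ) ^ 2 : ℝ) : ℂ) ^ z = (pmA z * pwA (-z)) a := by
  rw [ArithmeticFunction.mul_apply]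
  rw [Nat.sum_divisorsAntidiagonal (f := fun i j => pmA z i * pwA (-z) j)]
  refine Finset.sum_congr rfl fun e he => ?_
  have hdvd : e ∣ a := Nat.dvd_of_mem_divisors he
  have he0 : e ≠ 0 := fun h => ha (by rw [h] at hdvd; exact Nat.eq_zero_of_zero_dvd hdvd)
  obtain ⟨c, rfl⟩ := hdvd
  have hc0 : c ≠ 0 := fun h => ha (by rw [h, mul_zero])
  rw [Nat.mul_div_cancel_left c (Nat.pos_of_ne_zero he0)]
  have h1 : pmA z e = (ArithmeticFunction.moebius e : ℂ) * (e : ℂ) ^ (-z) := by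
    simp [pmA, he0]
  have h2 : pwA (-z) c = (c : ℂ) ^ z := by
    simp [pwA, hc0]
  rw [h1, h2, mul_assoc]
  congr 1
  have heR : (0 : ℝ) < e := by exact_mod_cast Nat.pos_of_ne_zero he0
  have hcR : (0 : ℝ) < c := by exact_mod_cast Nat.pos_of_ne_zero hc0
  have h3 : (((e * c : ℕ) : ℝ) / (e : ℝ) ^ 2) = c / e := by
    push_cast
    field_simp
  rw [h3, bzp_cpow_real _ (by positivity)]
  have h4 : (e : ℂ) ^ (-z) = Complex.exp ((Real.log e : ℂ) * (-z)) := by
    rw [← bzp_cpow_real _ heR]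
    norm_cast
  have h5 : (c : ℂ) ^ z = Complex.exp ((Real.log c : ℂ) * z) := by
    rw [← bzp_cpow_real _ hcR]
    norm_cast
  rw [h4, h5, ← Complex.exp_add, Real.log_div hcR.ne' heR.ne']
  congr 1
  push_cast
  ring

private lemma bzp_pwA_mult (s : ℂ) : (pwA s).IsMultiplicative := by
  rw [ArithmeticFunction.IsMultiplicative.iff_ne_zero]
  constructor
  · simp [pwA]
  · intro m n hm hn _
    simp only [pwA, ArithmeticFunction.coe_mk, hm, hn, mul_eq_zero, or_self, if_false]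
    push_cast
    exact Complex.natCast_mul_natCast_cpow m n (-s)

private lemma bzp_pmA_mult (w : ℂ) : (pmA w).IsMultiplicative := by
  rw [ArithmeticFunction.IsMultiplicative.iff_ne_zero]
  constructor
  · simp [pmA]
  · intro m n hm hn hmn
    simp only [pmA, ArithmeticFunction.coe_mk, hm, hn, mul_eq_zero, or_self, if_false]
    rw [ArithmeticFunction.isMultiplicative_moebius.map_mul_of_coprime hmn]
    push_cast
    rw [Complex.natCast_mul_natCast_cpow m n (-w)]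
    ring

private lemma bzp_sq1_ne (n : ℕ) : sq1 n ≠ 0 := by
  have := squarefree_sq1 n
  exact this.ne_zero

private lemma bzp_sq1_dvd (n : ℕ) (hn : n ≠ 0) : sq1 n ∣ n :=
  ⟨sq2 n ^ 2, (sq1_mul_sq2 n hn).symm⟩

private lemma bzp_sq2_dvd (n : ℕ) (hn : n ≠ 0) : sq2 n ∣ n :=
  ⟨sq1 n * sq2 n, by rw [← mul_assoc, mul_comm (sq2 n), mul_assoc, ← pow_two, sq1_mul_sq2 n hn]⟩

private lemma bzp_rho_mul {m n : ℕ} (h : Nat.Coprime m n) (hm : m ≠ 0) (hn : n ≠ 0) :
    rhoN (m * n) = rhoN m * rhoN n := by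
  have hcop : Nat.Coprime (sq2 m) (sq2 n) :=
    (h.coprime_dvd_left (bzp_sq2_dvd m hm)).coprime_dvd_right (bzp_sq2_dvd n hn)
  unfold rhoN
  rw [sq2_mul h, sq1_mul h, hcop.primeFactors_mul, Finset.filter_union, Finset.prod_union]
  · congr 1
    · refine Finset.prod_congr ?_ fun _ _ => rfl
      refine Finset.filter_congr fun p hp => ?_
      have hpp := Nat.prime_of_mem_primeFactors hp
      have hpm : p ∣ m := (Nat.dvd_of_mem_primeFactors hp).trans (bzp_sq2_dvd m hm)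
      have hpn : ¬ p ∣ sq1 n := by
        intro h1
        have h2 : p ∣ n := h1.trans (bzp_sq1_dvd n hn)
        exact hpp.one_lt.ne' (Nat.dvd_one.1 (h ▸ Nat.dvd_gcd hpm h2))
      rw [hpp.dvd_mul]
      tauto
    · refine Finset.prod_congr ?_ fun _ _ => rfl
      refine Finset.filter_congr fun p hp => ?_
      have hpp := Nat.prime_of_mem_primeFactors hp
      have hpn : p ∣ n := (Nat.dvd_of_mem_primeFactors hp).trans (bzp_sq2_dvd n hn)
      have hpm : ¬ p ∣ sq1 m := by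
        intro h1
        have h2 : p ∣ m := h1.trans (bzp_sq1_dvd m hm)
        exact hpp.one_lt.ne' (Nat.dvd_one.1 (h ▸ Nat.dvd_gcd h2 hpn))
      rw [hpp.dvd_mul]
      tauto
  · exact Finset.disjoint_filter_filter (hcop.disjoint_primeFactors)

private lemma bzp_bz_eq (z : ℂ) (N : ℕ) :
    bz z N = (rhoN N : ℂ) / (√(sq1 N : ℝ) : ℂ) * (pmA z * pwA (-z)) (sq1 N) := by
  unfold bz
  rw [bzp_S z _ (bzp_sq1_ne N)]

private lemma bzp_bz_mul (z : ℂ) {m n : ℕ} (h : Nat.Coprime m n) (hm : m ≠ 0) (hn : n ≠ 0) :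
    bz z (m * n) = bz z m * bz z n := by
  rw [bzp_bz_eq, bzp_bz_eq, bzp_bz_eq, bzp_rho_mul h hm hn, sq1_mul h]
  have hcop : Nat.Coprime (sq1 m) (sq1 n) :=
    (h.coprime_dvd_left (bzp_sq1_dvd m hm)).coprime_dvd_right (bzp_sq1_dvd n hn)
  rw [((bzp_pmA_mult z).mul (bzp_pwA_mult (-z))).map_mul_of_coprime hcop]
  have h1 : √((sq1 m * sq1 n : ℕ) : ℝ) = √(sq1 m : ℝ) * √(sq1 n : ℝ) := by
    push_cast
    rw [Real.sqrt_mul (by positivity)]
  rw [h1]
  push_cast
  have h2 : ((√(sq1 m : ℝ) : ℝ) : ℂ) ≠ 0 := by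
    have : (0 : ℝ) < sq1 m := by exact_mod_cast Nat.pos_of_ne_zero (bzp_sq1_ne m)
    exact_mod_cast (Real.sqrt_pos.2 this).ne'
  have h3 : ((√(sq1 n : ℝ) : ℝ) : ℂ) ≠ 0 := by
    have : (0 : ℝ) < sq1 n := by exact_mod_cast Nat.pos_of_ne_zero (bzp_sq1_ne n)
    exact_mod_cast (Real.sqrt_pos.2 this).ne'
  field_simp

private lemma bzp_bz_one (z : ℂ) : bz z 1 = 1 := by
  unfold bz rhoN sq2
  simp [sq1]

private lemma bzp_bz_two (z : ℂ) {p : ℕ} (hp : p.Prime) : bz z (p ^ 2) = 1 - 1 / (p : ℂ) := by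
  unfold bz
  rw [bzp_sq1_pp hp, if_neg (by decide), bzp_rho_even hp 2 (by decide) (by decide)]
  simp

private lemma bzp_bz_three (z : ℂ) {p : ℕ} (hp : p.Prime) :
    bz z (p ^ 3) = ((p : ℂ) ^ z - (p : ℂ) ^ (-z)) / (√(p : ℝ) : ℂ) := by
  unfold bz
  rw [bzp_sq1_pp hp, if_pos (by decide), bzp_rho_odd hp 3 (by decide), hp.sum_divisors]
  have hpR : (0 : ℝ) < p := by exact_mod_cast hp.pos
  have h2 : ArithmeticFunction.moebius p = -1 := ArithmeticFunction.moebius_apply_prime hp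
  have e1 : ((p : ℝ) / (p : ℝ) ^ 2) = (p : ℝ)⁻¹ := by field_simp
  have e2 : (((p : ℝ)⁻¹ : ℝ) : ℂ) ^ z = (p : ℂ) ^ (-z) := by
    rw [bzp_cpow_real _ (by positivity)]
    have h4 : (p : ℂ) ^ (-z) = Complex.exp ((Real.log p : ℂ) * (-z)) := by
      rw [← bzp_cpow_real _ hpR]
      norm_cast
    rw [h4, Real.log_inv]
    congr 1
    push_cast
    ring
  rw [h2, e1, e2]
  simp
  ring

/-! ### products over sets of primes -/

private lemma bzp_prod_ne {s : Finset ℕ} (hs : ∀ p ∈ s, p.Prime) (k : ℕ → ℕ) :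
    ∏ p ∈ s, p ^ k p ≠ 0 :=
  Finset.prod_ne_zero_iff.2 fun p hp => pow_ne_zero _ (hs p hp).ne_zero

private lemma bzp_bz_prod (z : ℂ) (k : ℕ → ℕ) (s : Finset ℕ) (hs : ∀ p ∈ s, p.Prime) :
    bz z (∏ p ∈ s, p ^ k p) = ∏ p ∈ s, bz z (p ^ k p) := by
  induction s using Finset.induction_on with
  | empty => simp [bzp_bz_one]
  | insert a s ha ih =>
    have hs' : ∀ p ∈ s, p.Prime := fun p hp => hs p (Finset.mem_insert_of_mem hp)
    have hap : a.Prime := hs a (Finset.mem_insert_self a s)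
    rw [Finset.prod_insert ha, Finset.prod_insert ha, bzp_bz_mul z _ (pow_ne_zero _ hap.ne_zero)
      (bzp_prod_ne hs' k), ih hs']
    refine Nat.Coprime.prod_right fun p hp => ?_
    refine Nat.Coprime.pow _ _ ((Nat.coprime_primes hap (hs' p hp)).2 ?_)
    rintro rfl
    exact ha hp

private lemma bzp_sum_divisors {M : ℕ} (hM : Squarefree M) (a b : ℕ → ℂ) :
    ∑ e ∈ M.divisors, (∏ p ∈ e.primeFactors, a p) * ∏ p ∈ M.primeFactors \ e.primeFactors, b p =
      ∏ p ∈ M.primeFactors, (a p + b p) := by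
  rw [Finset.prod_add]
  refine Finset.sum_nbij' (fun e => e.primeFactors) (fun t => ∏ p ∈ t, p) ?_ ?_ ?_ ?_ ?_
  · intro e he
    rw [Finset.mem_powerset]
    exact Nat.primeFactors_mono (Nat.dvd_of_mem_divisors he) hM.ne_zero
  · intro t ht
    rw [Finset.mem_powerset] at ht
    rw [Nat.mem_divisors]
    refine ⟨?_, hM.ne_zero⟩
    rw [← Nat.prod_primeFactors_of_squarefree hM]
    exact Finset.prod_dvd_prod_of_subset _ _ _ ht
  · intro e he
    exact Nat.prod_primeFactors_of_squarefree (hM.squarefree_of_dvd (Nat.dvd_of_mem_divisors he))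
  · intro t ht
    rw [Finset.mem_powerset] at ht
    exact Nat.primeFactors_prod fun p hp => Nat.prime_of_mem_primeFactors (ht hp)
  · intro e he
    rfl

private lemma bzp_eps {Q e : ℕ} (he : Squarefree e) :
    ((eps Q e : ℝ) : ℂ) = ∏ p ∈ e.primeFactors, (if p ∣ Q then -1 else 1) := by
  unfold eps
  have hsq : Squarefree (Nat.gcd e Q) := he.squarefree_of_dvd (Nat.gcd_dvd_left e Q)
  have h1 : Nat.gcd e Q = ∏ p ∈ (Nat.gcd e Q).primeFactors, p :=
    (Nat.prod_primeFactors_of_squarefree hsq).symm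
  have h2 : (Nat.gcd e Q).primeFactors = e.primeFactors.filter (fun p => p ∣ Q) := by
    ext p
    rw [Finset.mem_filter, Nat.mem_primeFactors, Nat.mem_primeFactors, Nat.dvd_gcd_iff]
    constructor
    · rintro ⟨a, ⟨b, c⟩, d⟩
      exact ⟨⟨a, b, he.ne_zero⟩, c⟩
    · rintro ⟨⟨a, b, c⟩, d⟩
      exact ⟨a, ⟨b, d⟩, hsq.ne_zero⟩
  rw [h1, ArithmeticFunction.isMultiplicative_moebius.map_prod_of_prime _
    (fun p hp => Nat.prime_of_mem_primeFactors hp), h2, Finset.prod_filter]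
  push_cast
  refine Finset.prod_congr rfl fun p hp => ?_
  have hpp := Nat.prime_of_mem_primeFactors hp
  by_cases h : p ∣ Q
  · rw [if_pos h, if_pos h, ArithmeticFunction.moebius_apply_prime hpp]
    simp
  · rw [if_neg h, if_neg h]
    simp

private lemma bzp_f (z : ℂ) (t : Finset ℕ) (ht : ∀ p ∈ t, p.Prime) :
    (((ArithmeticFunction.moebius (∏ p ∈ t, p) : ℝ) / ((∏ p ∈ t, p : ℕ) : ℝ) : ℝ) : ℂ) *
      (((((∏ p ∈ t, p : ℕ) : ℝ)) ^ 2 : ℝ) : ℂ) ^ z = ∏ p ∈ t, (-(p : ℂ) ^ (2 * z - 1)) := by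
  induction t using Finset.induction_on with
  | empty => simp
  | insert a s ha ih =>
    have hs' : ∀ p ∈ s, p.Prime := fun p hp => ht p (Finset.mem_insert_of_mem hp)
    have hap : a.Prime := ht a (Finset.mem_insert_self a s)
    rw [Finset.prod_insert ha, Finset.prod_insert ha, ← ih hs']
    have hco : Nat.Coprime a (∏ p ∈ s, p) := by
      refine Nat.Coprime.prod_right fun p hp => (Nat.coprime_primes hap (hs' p hp)).2 ?_
      rintro rfl
      exact ha hp
    rw [ArithmeticFunction.isMultiplicative_moebius.map_mul_of_coprime hco,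
      ArithmeticFunction.moebius_apply_prime hap]
    set f : ℕ := ∏ p ∈ s, p with hf
    have hf0 : f ≠ 0 := Finset.prod_ne_zero_iff.2 fun p hp => (hs' p hp).ne_zero
    have hfR : (0 : ℝ) < f := by exact_mod_cast Nat.pos_of_ne_zero hf0
    have haR : (0 : ℝ) < a := by exact_mod_cast hap.pos
    have e1 : (((((a * f : ℕ) : ℝ)) ^ 2 : ℝ) : ℂ) ^ z =
        (((a : ℝ) ^ 2 : ℝ) : ℂ) ^ z * (((f : ℝ) ^ 2 : ℝ) : ℂ) ^ z := by
      rw [← Complex.mul_cpow_ofReal_nonneg (by positivity) (by positivity)]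
      congr 1
      push_cast
      ring
    have e2 : (((a : ℝ) ^ 2 : ℝ) : ℂ) ^ z / (a : ℂ) = (a : ℂ) ^ (2 * z - 1) := by
      have h4 : (a : ℂ) ^ (2 * z - 1) = Complex.exp ((Real.log a : ℂ) * (2 * z - 1)) := by
        rw [← bzp_cpow_real _ haR]
        norm_cast
      have h5 : (a : ℂ) = Complex.exp (Real.log a : ℂ) := by
        rw [← Complex.ofReal_exp, Real.exp_log haR]
        norm_cast
      rw [bzp_cpow_real _ (by positivity), h4, Real.log_pow]
      rw [h5]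
      rw [← Complex.exp_sub]
      congr 1
      push_cast
      ring
    rw [e1, ← e2]
    have hf1 : (f : ℂ) ≠ 0 := by exact_mod_cast hf0
    have ha1 : (a : ℂ) ≠ 0 := by exact_mod_cast hap.ne_zero
    push_cast
    field_simp

theorem bz_pattern {y : ℝ} {P Q R : ℕ} (hP : Pat y P Q R) (z : ℂ) {N : ℕ}
    (hN : Nat.Coprime N (2 * P)) :
    ((1 / phP P : ℝ) : ℂ) * ∑ e ∈ (P / R).divisors, ∑ f ∈ R.divisors,
      ((eps Q e * ((ArithmeticFunction.moebius f : ℝ) / f) : ℝ) : ℂ) *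
        ((((f : ℝ) ^ 2 : ℝ) : ℂ) ^ z * bz z (e * (P / R) ^ 2 * N)) = WP P Q R z * bz z N := by
  have hsf := hP.sf
  have hP0 : P ≠ 0 := hsf.ne_zero
  have hN0 : N ≠ 0 := by
    rintro rfl
    rw [Nat.coprime_zero_left] at hN
    omega
  have hR0 : R ≠ 0 := fun h => hP0 (by
    have := hP.hR; rw [h] at this; exact Nat.eq_zero_of_zero_dvd this)
  have hRsf : Squarefree R := hsf.squarefree_of_dvd hP.hR
  obtain ⟨M, hM⟩ := hP.hR
  have hdiv : P / R = M := by rw [hM, Nat.mul_div_cancel_left _ (Nat.pos_of_ne_zero hR0)]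
  have hMsf : Squarefree M := hsf.squarefree_of_dvd ⟨R, by rw [hM, mul_comm]⟩
  have hM0 : M ≠ 0 := hMsf.ne_zero
  have hco : Nat.Coprime R M := by
    rw [hM] at hsf
    exact Nat.coprime_of_squarefree_mul hsf
  have hpf : P.primeFactors = R.primeFactors ∪ M.primeFactors := by
    rw [hM, hco.primeFactors_mul]
  have hfilt : P.primeFactors.filter (fun p => ¬ p ∣ R) = M.primeFactors := by
    ext p
    rw [Finset.mem_filter, hpf, Finset.mem_union]
    constructor
    · rintro ⟨h1 | h1, h2⟩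
      · exact absurd (Nat.dvd_of_mem_primeFactors h1) h2
      · exact h1
    · intro h1
      refine ⟨Or.inr h1, fun h2 => ?_⟩
      have hpp := Nat.prime_of_mem_primeFactors h1
      exact hpp.one_lt.ne' (Nat.dvd_one.1 (hco ▸ Nat.dvd_gcd h2 (Nat.dvd_of_mem_primeFactors h1)))
  rw [hdiv]
  have hcoN : ∀ e ∈ M.divisors, Nat.Coprime (e * M ^ 2) N := by
    intro e he
    have h1 : Nat.Coprime M N := by
      refine Nat.Coprime.symm (hN.coprime_dvd_right ?_)
      exact ⟨2 * R, by rw [hM]; ring⟩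
    exact Nat.Coprime.mul_left (h1.coprime_dvd_left (Nat.dvd_of_mem_divisors he)) (h1.pow_left 2)
  -- the value at `e`
  have hval : ∀ e ∈ M.divisors, ((eps Q e : ℝ) : ℂ) * bz z (e * M ^ 2 * N) =
      ((∏ p ∈ e.primeFactors, ((if p ∣ Q then -1 else 1) * bz z (p ^ 3))) *
        ∏ p ∈ M.primeFactors \ e.primeFactors, bz z (p ^ 2)) * bz z N := by
    intro e he
    have hed : e ∣ M := Nat.dvd_of_mem_divisors he
    have hesf : Squarefree e := hMsf.squarefree_of_dvd hed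
    have hsub : e.primeFactors ⊆ M.primeFactors := Nat.primeFactors_mono hed hM0
    rw [bzp_bz_mul z (hcoN e he) (mul_ne_zero hesf.ne_zero (pow_ne_zero _ hM0)) hN0,
      bzp_eps hesf]
    have h1 : e * M ^ 2 = ∏ p ∈ M.primeFactors, p ^ (if p ∈ e.primeFactors then 3 else 2) := by
      have h2 : e = ∏ p ∈ M.primeFactors, (if p ∈ e.primeFactors then p else 1) := by
        rw [← Finset.prod_filter, Finset.filter_mem_eq_inter, Finset.inter_eq_right.2 hsub]
        exact (Nat.prod_primeFactors_of_squarefree hesf).symm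
      have h3 : M ^ 2 = ∏ p ∈ M.primeFactors, p ^ 2 := by
        rw [Finset.prod_pow, Nat.prod_primeFactors_of_squarefree hMsf]
      rw [h3]
      nth_rewrite 1 [h2]
      rw [← Finset.prod_mul_distrib]
      refine Finset.prod_congr rfl fun p hp => ?_
      split_ifs
      · ring
      · ring
    rw [h1, bzp_bz_prod z _ _ (fun p hp => Nat.prime_of_mem_primeFactors hp),
      ← Finset.prod_sdiff hsub, ← mul_assoc, Finset.prod_mul_distrib]
    have h4 : ∏ p ∈ M.primeFactors \ e.primeFactors,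
        bz z (p ^ (if p ∈ e.primeFactors then 3 else 2)) =
        ∏ p ∈ M.primeFactors \ e.primeFactors, bz z (p ^ 2) := by
      refine Finset.prod_congr rfl fun p hp => ?_
      rw [Finset.mem_sdiff] at hp
      rw [if_neg hp.2]
    have h5 : ∏ p ∈ e.primeFactors, bz z (p ^ (if p ∈ e.primeFactors then 3 else 2)) =
        ∏ p ∈ e.primeFactors, bz z (p ^ 3) := by
      refine Finset.prod_congr rfl fun p hp => ?_
      rw [if_pos hp]
    rw [h4, h5]
    ring
  have hsumf : ∑ f ∈ R.divisors, (((ArithmeticFunction.moebius f : ℝ) / (f : ℝ) : ℝ) : ℂ) *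
      ((((f : ℝ) ^ 2 : ℝ) : ℂ) ^ z) = ∏ p ∈ R.primeFactors, (1 - (p : ℂ) ^ (2 * z - 1)) := by
    have h1 := bzp_sum_divisors hRsf (fun p => -(p : ℂ) ^ (2 * z - 1)) (fun _ => 1)
    have h2 : ∏ p ∈ R.primeFactors, (1 - (p : ℂ) ^ (2 * z - 1)) =
        ∏ p ∈ R.primeFactors, (-(p : ℂ) ^ (2 * z - 1) + 1) :=
      Finset.prod_congr rfl fun p _ => by ring
    rw [h2, ← h1]
    refine Finset.sum_congr rfl fun f hf => ?_
    have hfsf : Squarefree f := hRsf.squarefree_of_dvd (Nat.dvd_of_mem_divisors hf)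
    have h3 := bzp_f z f.primeFactors (fun p hp => Nat.prime_of_mem_primeFactors hp)
    rw [Nat.prod_primeFactors_of_squarefree hfsf] at h3
    rw [h3]
    simp
  have hsum : ∑ e ∈ M.divisors, ∑ f ∈ R.divisors,
      ((eps Q e * ((ArithmeticFunction.moebius f : ℝ) / f) : ℝ) : ℂ) *
        ((((f : ℝ) ^ 2 : ℝ) : ℂ) ^ z * bz z (e * M ^ 2 * N)) =
      (∏ p ∈ M.primeFactors, ((if p ∣ Q then -1 else 1) * bz z (p ^ 3) + bz z (p ^ 2))) *
        (∏ p ∈ R.primeFactors, (1 - (p : ℂ) ^ (2 * z - 1))) * bz z N := by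
    rw [← hsumf, ← bzp_sum_divisors hMsf, Finset.sum_mul_sum, Finset.sum_mul]
    refine Finset.sum_congr rfl fun e he => ?_
    rw [Finset.sum_mul]
    refine Finset.sum_congr rfl fun f hf => ?_
    have h1 := hval e he
    have h2 : ((eps Q e * ((ArithmeticFunction.moebius f : ℝ) / f) : ℝ) : ℂ) =
        ((eps Q e : ℝ) : ℂ) * (((ArithmeticFunction.moebius f : ℝ) / (f : ℝ) : ℝ) : ℂ) := by
      push_cast
      ring
    rw [h2]
    linear_combination (((ArithmeticFunction.moebius f : ℝ) / (f : ℝ) : ℝ) : ℂ) *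
      ((((f : ℝ) ^ 2 : ℝ) : ℂ) ^ z) * h1
  rw [hsum]
  have hph : phP P = (∏ p ∈ R.primeFactors, (1 - 1 / (p : ℝ))) *
      ∏ p ∈ M.primeFactors, (1 - 1 / (p : ℝ)) := by
    unfold phP
    rw [hpf, Finset.prod_union hco.disjoint_primeFactors]
  have hne : ∀ {m : ℕ}, ∀ p ∈ m.primeFactors, (1 - 1 / (p : ℂ)) ≠ 0 := by
    intro m p hp h
    have hpp := Nat.prime_of_mem_primeFactors hp
    have h1 : (p : ℂ) ≠ 0 := by exact_mod_cast hpp.ne_zero
    have h2 : (p : ℂ) ≠ 1 := by exact_mod_cast hpp.one_lt.ne'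
    apply h2
    field_simp at h
    linear_combination h
  unfold WP
  rw [hfilt, hph]
  have hA : ∏ p ∈ M.primeFactors, ((if p ∣ Q then -1 else 1) * bz z (p ^ 3) + bz z (p ^ 2)) =
      (∏ p ∈ M.primeFactors, (1 - 1 / (p : ℂ))) *
      ∏ p ∈ M.primeFactors, (1 + (if p ∣ Q then -1 else 1) *
        (((p : ℂ) ^ z - (p : ℂ) ^ (-z)) / ((√(p : ℝ) : ℂ) * (1 - 1 / (p : ℂ))))) := by
    rw [← Finset.prod_mul_distrib]
    refine Finset.prod_congr rfl fun p hp => ?_
    have hpp := Nat.prime_of_mem_primeFactors hp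
    rw [bzp_bz_two z hpp, bzp_bz_three z hpp]
    have h1 := hne p hp
    have h2 : ((√(p : ℝ) : ℝ) : ℂ) ≠ 0 := by
      have : (0 : ℝ) < p := by exact_mod_cast hpp.pos
      exact_mod_cast (Real.sqrt_pos.2 this).ne'
    set u : ℂ := 1 - 1 / (p : ℂ) with hu
    field_simp
    ring
  have hB : ∏ p ∈ R.primeFactors, (1 - (p : ℂ) ^ (2 * z - 1)) =
      (∏ p ∈ R.primeFactors, (1 - 1 / (p : ℂ))) *
        ∏ p ∈ R.primeFactors, ((1 - (p : ℂ) ^ (2 * z - 1)) / (1 - 1 / (p : ℂ))) := by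
    rw [← Finset.prod_mul_distrib]
    refine Finset.prod_congr rfl fun p hp => ?_
    have h1 := hne p hp
    rw [mul_div_cancel₀ _ h1]
  rw [hA, hB]
  have n1 : ∏ p ∈ M.primeFactors, (1 - 1 / (p : ℂ)) ≠ 0 := Finset.prod_ne_zero_iff.2 hne
  have n2 : ∏ p ∈ R.primeFactors, (1 - 1 / (p : ℂ)) ≠ 0 := Finset.prod_ne_zero_iff.2 hne
  push_cast
  set a := ∏ p ∈ M.primeFactors, (1 - 1 / (p : ℂ)) with ha
  set b := ∏ p ∈ R.primeFactors, (1 - 1 / (p : ℂ)) with hb
  field_simp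

end Pool.Agent.MP0016c7.Rz
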