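import Mathlib
import Pool.Agent.Lib.MP_0016c7_nt.PS.Defs
import Pool.Agent.Lib.MP_0016c7_nt.Rz.Fb

set_option autoImplicit false

/-!
The dyadic bound along a sequence of families.
-/

open Finset MeasureTheory Filter Topology
open scoped Real ContDiff

namespace Pool.Agent.MP0016c7.Rz

private noncomputable def DF (X : ℝ) (Q : ℕ → Prop) : Finset ℕ := by
  classical
  exact (Icc 1 ⌊2 * X⌋₊).filter (fun d : ℕ => X < d ∧ Q d)

private lemma mem_DF {X : ℝ} {Q : ℕ → Prop} {d : ℕ} (hX : 0 ≤ X) :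
    d ∈ DF X Q ↔ X < d ∧ (d : ℝ) ≤ 2 * X ∧ Q d := by
  classical
  unfold DF
  rw [Finset.mem_filter, Finset.mem_Icc]
  constructor
  · rintro ⟨⟨_, h2⟩, h3, h4⟩
    exact ⟨h3, (Nat.le_floor_iff (by linarith)).mp h2, h4⟩
  · rintro ⟨h1, h2, h3⟩
    refine ⟨⟨?_, (Nat.le_floor_iff (by linarith)).mpr h2⟩, h1, h3⟩
    have : (0 : ℝ) < d := by linarith
    exact_mod_cast this

private lemma card_DF {X : ℝ} (hX : 0 ≤ X) (Q : ℕ → Prop) :
    (Nat.card {d : ℕ | X < d ∧ (d : ℝ) ≤ 2 * X ∧ Q d} : ℝ) = ((DF X Q).card : ℝ) := by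
  rw [Nat.card_coe_set_eq]
  have : {d : ℕ | X < d ∧ (d : ℝ) ≤ 2 * X ∧ Q d} = ((DF X Q : Finset ℕ) : Set ℕ) := by
    ext d
    rw [Finset.mem_coe, mem_DF hX]
    rfl
  rw [this, Set.ncard_coe_finset]

private lemma summable_F {F : ℝ → ℝ} {a b : ℝ} (hF : Bump F a b) {X : ℝ} (hX : 0 < X)
    (G : ℕ → ℝ) (Q : ℕ → Prop) :
    Summable (fun d : ℕ => @ite ℝ (Q d) (Classical.dec _) (F (d / X) * G d) 0) := by
  refine summable_of_finite_support ?_
  refine (Set.finite_Iic ⌊b * X⌋₊).subset ?_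
  intro d hd
  rw [Function.mem_support] at hd
  have h1 : F (d / X) ≠ 0 := by
    intro h0
    apply hd
    simp [h0]
  have h2 := (hF.supp _ h1).2
  rw [div_lt_iff₀ hX] at h2
  exact Nat.le_floor h2.le

/-- upper bound of sums over a finite set of members of the class -/
private lemma sum_upS {F : ℝ → ℝ} (hF : Bump F (1 / 2) 4) (hFn : ∀ t, 0 ≤ F t)
    (hF1 : ∀ t ∈ Set.Icc (1 : ℝ) 2, 1 ≤ F t) {X : ℝ} (hX : 0 < X) (R : ℕ → Prop) (G : ℕ → ℝ)
    (hG : ∀ d, 0 ≤ G d) (B : Finset ℕ) (hB : ∀ d ∈ B, X < d ∧ (d : ℝ) ≤ 2 * X ∧ R d) :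
    ∑ d ∈ B, G d ≤ ∑' d : ℕ, (@ite ℝ (R d) (Classical.dec _) (F (d / X) * G d) 0) := by
  have hs := summable_F hF hX G R
  refine le_trans ?_ (hs.sum_le_tsum B ?_)
  · refine Finset.sum_le_sum fun d hd => ?_
    obtain ⟨h1, h2, h3⟩ := hB d hd
    rw [if_pos h3]
    have h5 : 1 ≤ F (d / X) := hF1 _ ⟨by rw [le_div_iff₀ hX]; linarith, by
      rw [div_le_iff₀ hX]; exact h2⟩
    nlinarith only [h5, hG, hG d]
  · intro d _
    split_ifs
    · exact mul_nonneg (hFn _) (hG d)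
    · exact le_rfl

/-- lower bound for the number of members of the class -/
private lemma count_loS {F : ℝ → ℝ} (hF : Bump F 1 2)
    (hF1 : ∀ t, F t ≤ 1) {X : ℝ} (hX : 0 < X) (R : ℕ → Prop) :
    ∑' d : ℕ, (@ite ℝ (R d) (Classical.dec _) (F (d / X) * 1) 0) ≤ ((DF X R).card : ℝ) := by
  rw [tsum_eq_sum (s := DF X R)]
  · rw [Finset.card_eq_sum_ones]
    push_cast
    refine Finset.sum_le_sum fun d _ => ?_
    split_ifs
    · rw [mul_one]; exact hF1 _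
    · exact zero_le_one
  · intro d hd
    split_ifs with h
    · rw [mul_one]
      by_contra h0
      have h1 := hF.supp _ h0
      apply hd
      rw [mem_DF hX.le]
      have h2 : X < d := by
        have := h1.1
        rw [lt_div_iff₀ hX] at this
        linarith
      have h3 : (d : ℝ) < 2 * X := by
        have := h1.2
        rwa [div_lt_iff₀ hX] at this
      exact ⟨h2, h3.le, h⟩
    · rfl

private lemma int_F_pos {F : ℝ → ℝ} {a b : ℝ} (hF : Bump F a b) (hFn : ∀ t, 0 ≤ F t)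
    (hF1 : ∀ t ∈ Set.Icc (1 : ℝ) 2, 1 ≤ F t) : 0 < ∫ t, F t := by
  have hi : Integrable F := by
    refine hF.smooth.continuous.integrable_of_hasCompactSupport ?_
    refine HasCompactSupport.of_support_subset_isCompact (isCompact_Icc (a := a) (b := b)) ?_
    intro t ht
    have := hF.supp t ht
    exact ⟨this.1.le, this.2.le⟩
  have h1 : ∫ t in Set.Icc (1 : ℝ) 2, (1 : ℝ) ≤ ∫ t in Set.Icc (1 : ℝ) 2, F t :=
    setIntegral_mono_on (by simp) hi.integrableOn measurableSet_Icc hF1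
  have h2 : ∫ t in Set.Icc (1 : ℝ) 2, F t ≤ ∫ t, F t :=
    setIntegral_le_integral hi (Eventually.of_forall hFn)
  have h3 : ∫ t in Set.Icc (1 : ℝ) 2, (1 : ℝ) = 1 := by
    simp
    norm_num
  linarith

private lemma fin_algS {E E' η N B a : ℝ} (hη : 0 < η) (hη1 : η ≤ 1 / 14)
    (hE : 0 ≤ E) (hη2 : η * (3 * E + 12 + 7 * E' + 1) ≤ E' - E)
    (ha : 0 < a) (hE' : 0 < E')
    (hN : (1 - 3 * η) * a ≤ N)
    (hB : B ≤ (1 + η) * (((1 + η) * E + η) * a) + (1 + 1 / η) * (η ^ 2 * a)) :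
    a / 2 ≤ N ∧ B ≤ E' * N := by
  constructor
  · refine le_trans ?_ hN
    nlinarith only [hη, hη1, ha]
  · have h1 : (1 + 1 / η) * (η ^ 2 * a) = (η + η ^ 2) * a := by
      field_simp
      ring
    rw [h1] at hB
    have h2 : E' * ((1 - 3 * η) * a) ≤ E' * N := mul_le_mul_of_nonneg_left hN hE'.le
    refine hB.trans (le_trans ?_ h2)
    have h3 : (1 + η) * ((1 + η) * E + η) + (η + η ^ 2) ≤ E' * (1 - 3 * η) := by
      nlinarith only [mul_nonneg hE hη.le, hη, hη1, hη2, hE, hE', mul_pos hη hE',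
        mul_nonneg (mul_nonneg hE hη.le) hη.le, mul_pos hη hη, mul_nonneg hE
        (mul_nonneg hη.le (sub_nonneg.mpr hη1)), mul_nonneg hη.le (sub_nonneg.mpr hη1)]
    calc (1 + η) * (((1 + η) * E + η) * a) + (η + η ^ 2) * a
        = ((1 + η) * ((1 + η) * E + η) + (η + η ^ 2)) * a := by ring
      _ ≤ (E' * (1 - 3 * η)) * a := mul_le_mul_of_nonneg_right h3 ha.le
      _ = E' * ((1 - 3 * η) * a) := by ring

theorem dyadicS {Rc NZ : ℕ → ℕ → Prop} {D X : ℕ → ℝ} (hX : ∀ n, 1 < X n) (hD : ∀ n, 0 < D n)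
    {E E' : ℝ} (hE0 : 0 ≤ E) (hE' : E < E') (A B : ℕ → ℕ → ℝ) (hA : ∀ n d, 0 ≤ A n d)
    (h1 : ∀ F : ℝ → ℝ, Bump F (1 / 2) 4 → (∀ t, 0 ≤ F t) → 0 < ∫ t, F t → ∀ ε : ℝ, 0 < ε →
      ∀ᶠ n in atTop, avS (Rc n) (D n) F (X n) (A n) ≤ (∫ t, F t) * E + ε)
    (h2 : DensS Rc D X) (h5 : SqfS Rc D X)
    (h3 : ∀ ε : ℝ, 0 < ε → ∀ᶠ n in atTop, ∀ S : Finset ℕ,
      (∀ d ∈ S, Rc n d ∧ X n < d ∧ (d : ℝ) ≤ 2 * X n) → ∑ d ∈ S, B n d ≤ ε * (D n * X n))
    (h4 : ∀ η : ℝ, 0 < η → ∀ᶠ n in atTop, ∀ d : ℕ, X n < d → (d : ℝ) ≤ 2 * X n → Rc n d →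
      Squarefree d → ¬ NZ n d → 1 ≤ (1 + η) * A n d + (1 + 1 / η) * B n d) :
    ∀ᶠ n in atTop,
      D n / 2 * X n ≤
        (Nat.card {d : ℕ | X n < d ∧ (d : ℝ) ≤ 2 * X n ∧ Rc n d ∧ Squarefree d} : ℝ) ∧
      (Nat.card {d : ℕ | X n < d ∧ (d : ℝ) ≤ 2 * X n ∧ Rc n d ∧ Squarefree d ∧ ¬ NZ n d} : ℝ) ≤
        E' * (Nat.card {d : ℕ | X n < d ∧ (d : ℝ) ≤ 2 * X n ∧ Rc n d ∧ Squarefree d} : ℝ) := by
  have hE'0 : 0 < E' := by linarith
  set η : ℝ := min (1 / 14) ((E' - E) / (3 * E + 12 + 7 * E' + 1)) with hη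
  have hDpos : 0 < 3 * E + 12 + 7 * E' + 1 := by (clear * - hE0 hE'0; positivity)
  have hη0 : 0 < η := lt_min (by norm_num) (div_pos (by linarith only [hE']) hDpos)
  have hη1 : η ≤ 1 / 14 := min_le_left _ _
  have hη2 : η * (3 * E + 12 + 7 * E' + 1) ≤ E' - E := by
    have := min_le_right (1 / 14) ((E' - E) / (3 * E + 12 + 7 * E' + 1))
    rw [← hη, le_div_iff₀ hDpos] at this
    exact this
  clear_value η
  obtain ⟨F, hF, hFn, hF1, hFi⟩ := exists_F η hη0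
  obtain ⟨Fm, hFm, hFmn, hFm1, hFmi⟩ := exists_Fm η hη0
  have hFpos := int_F_pos hF hFn hF1
  have hFm' : Bump Fm (1 / 2) 4 := ⟨hFm.smooth, fun t ht =>
    ⟨by linarith only [(hFm.supp t ht).1], by linarith only [(hFm.supp t ht).2]⟩⟩
  have hFmpos : 0 < ∫ t, Fm t := by linarith only [hFmi, hη1]
  filter_upwards [h1 F hF hFn hFpos η hη0, h2 Fm hFm' hFmn hFmpos η hη0, h5 η hη0,
    h3 (η ^ 2) (by positivity), h4 η hη0] with n g1 g2 g5 g3 g4
  have hXp : 0 < X n := by linarith only [hX n]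
  have ha : 0 < D n * X n := mul_pos (hD n) hXp
  have mulT : ∀ T : ℝ, (1 / (D n * X n) * T) * (D n * X n) = T := by
    intro T
    rw [one_div, mul_comm, ← mul_assoc, mul_inv_cancel₀ ha.ne', one_mul]
  rw [card_DF hXp.le (fun d => Rc n d ∧ Squarefree d),
    card_DF hXp.le (fun d => Rc n d ∧ Squarefree d ∧ ¬ NZ n d)]
  rw [card_DF hXp.le (fun d => Rc n d ∧ ¬ Squarefree d)] at g5
  set N : ℝ := ((DF (X n) (fun d => Rc n d ∧ Squarefree d)).card : ℝ) with hN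
  set Bd : Finset ℕ := DF (X n) (fun d => Rc n d ∧ Squarefree d ∧ ¬ NZ n d) with hBd
  -- lower bound for N
  have hNlow : (1 - 3 * η) * (D n * X n) ≤ N := by
    have k2 := count_loS hFm hFm1 hXp (Rc n)
    have k1 := (abs_le.mp g2).1
    unfold avS at k1
    set T := ∑' d : ℕ, (@ite ℝ (Rc n d) (Classical.dec _) (Fm (d / X n) * 1) 0) with hT
    have k3 : (1 - 2 * η) * (D n * X n) ≤ T := by
      have k4 : 1 - 2 * η ≤ 1 / (D n * X n) * T := by linarith only [k1, hFmi]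
      calc (1 - 2 * η) * (D n * X n) ≤ (1 / (D n * X n) * T) * (D n * X n) :=
            mul_le_mul_of_nonneg_right k4 ha.le
        _ = T := mulT T
    have k5 : ((DF (X n) (Rc n)).card : ℝ) ≤ N +
        ((DF (X n) (fun d => Rc n d ∧ ¬ Squarefree d)).card : ℝ) := by
      have k6 : (DF (X n) (Rc n)).card ≤ (DF (X n) (fun d => Rc n d ∧ Squarefree d)).card +
          (DF (X n) (fun d => Rc n d ∧ ¬ Squarefree d)).card := by
        classical
        refine (Finset.card_le_card ?_).trans (Finset.card_union_le _ _)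
        intro d hd
        rw [mem_DF hXp.le] at hd
        obtain ⟨q1, q2, q3⟩ := hd
        rw [Finset.mem_union, mem_DF hXp.le, mem_DF hXp.le]
        by_cases hs : Squarefree d
        · exact Or.inl ⟨q1, q2, q3, hs⟩
        · exact Or.inr ⟨q1, q2, q3, hs⟩
      rw [hN]
      exact_mod_cast k6
    linarith only [k2, k3, k5, g5]
  have hmemB : ∀ d ∈ Bd, X n < d ∧ (d : ℝ) ≤ 2 * X n ∧ Rc n d ∧ Squarefree d ∧ ¬ NZ n d :=
    fun d hd => (mem_DF hXp.le).mp hd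
  have hB1 : ∀ d ∈ Bd, 1 ≤ (1 + η) * A n d + (1 + 1 / η) * B n d := by
    intro d hd
    obtain ⟨k1, k2, k3, k4, k5⟩ := hmemB d hd
    exact g4 d k1 k2 k3 k4 k5
  have hB2 : (Bd.card : ℝ) ≤ (1 + η) * (((1 + η) * E + η) * (D n * X n)) +
      (1 + 1 / η) * (η ^ 2 * (D n * X n)) := by
    have k1 : (Bd.card : ℝ) = ∑ d ∈ Bd, (1 : ℝ) := by simp
    have k2 := Finset.sum_le_sum hB1
    rw [← k1, Finset.sum_add_distrib, ← Finset.mul_sum, ← Finset.mul_sum] at k2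
    have k3 := sum_upS hF hFn hF1 hXp (Rc n) (A n) (hA n) Bd
      (fun d hd => ⟨(hmemB d hd).1, (hmemB d hd).2.1, (hmemB d hd).2.2.1⟩)
    have k4 := g3 Bd (fun d hd => ⟨(hmemB d hd).2.2.1, (hmemB d hd).1, (hmemB d hd).2.1⟩)
    unfold avS at g1
    set T := ∑' d : ℕ, (@ite ℝ (Rc n d) (Classical.dec _) (F (d / X n) * A n d) 0) with hT
    have k6 : T ≤ ((1 + η) * E + η) * (D n * X n) := by
      have k7 : (∫ t, F t) * E ≤ (1 + η) * E := mul_le_mul_of_nonneg_right hFi hE0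
      have k8 : 1 / (D n * X n) * T ≤ (1 + η) * E + η := by linarith only [g1, k7]
      calc T = (1 / (D n * X n) * T) * (D n * X n) := (mulT T).symm
        _ ≤ _ := mul_le_mul_of_nonneg_right k8 ha.le
    have k9 : 0 ≤ 1 + 1 / η := by positivity
    have k10 : 0 ≤ 1 + η := by positivity
    have k11 := mul_le_mul_of_nonneg_left (k3.trans k6) k10
    have k12 := mul_le_mul_of_nonneg_left k4 k9
    linarith only [k2, k11, k12]
  have hfin := fin_algS hη0 hη1 hE0 hη2 ha hE'0 hNlow hB2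
  refine ⟨?_, hfin.2⟩
  linarith only [hfin.1]

end Pool.Agent.MP0016c7.Rz
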