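import Mathlib
import Pool.Agent.Lib.MP_0016c7_nt.PS.DefsM
import Pool.Agent.Lib.MP_0016c7_nt.Rz.Eul1
import Pool.Agent.Lib.MP_0016c7_nt.Rz.Eul2
import Pool.Agent.Lib.MP_0016c7_nt.Rz.Eul3
import Pool.Agent.Lib.MP_0016c7_nt.Rz.Eul4

set_option autoImplicit false

/-!
The Euler product of the main term, uniformly in the modulus.
-/

open Finset MeasureTheory Filter Topology
open scoped Real ContDiff

namespace Pool.Agent.MP0016c7.Rz

/-- inverse of a convergent product -/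
private lemma eu_inv {ι : Type*} {f : ι → ℂ} {a : ℂ} (h : HasProd f a) (ha : a ≠ 0) :
    HasProd (fun i => (f i)⁻¹) a⁻¹ := by
  unfold HasProd at *
  have h2 := h.inv₀ ha
  refine h2.congr fun s => ?_
  rw [Finset.prod_inv_distrib]

private lemma eu_zeta {s : ℂ} (hs : 1 < s.re) :
    HasProd (fun p : Nat.Primes => (1 - (p : ℂ) ^ (-s))⁻¹) (riemannZeta s) :=
  riemannZeta_eulerProduct_hasProd hs

private lemma eu_zeta_inv {s : ℂ} (hs : 1 < s.re) :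
    HasProd (fun p : Nat.Primes => (1 - (p : ℂ) ^ (-s))) (riemannZeta s)⁻¹ := by
  have h := eu_inv (eu_zeta hs) (riemannZeta_ne_zero_of_one_lt_re hs)
  simpa only [inv_inv] using h

/-- the general estimates for infinite products -/
private lemma eu_prod {ι : Type*} (f : ι → ℂ) (b : ι → ℝ) (B : ℝ) (hb : HasSum b B)
    (hf : ∀ i, ‖f i - 1‖ ≤ b i) :
    Multipliable f ∧ ‖∏' i, f i - 1‖ ≤ Real.exp B - 1 := by
  have h0 : ∀ i, 0 ≤ b i := fun i => (norm_nonneg _).trans (hf i)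
  have hs : Summable fun i => ‖f i - 1‖ :=
    Summable.of_nonneg_of_le (fun i => norm_nonneg _) hf hb.summable
  have hm : Multipliable f := by
    have h := multipliable_one_add_of_summable hs
    simpa only [add_sub_cancel] using h
  refine ⟨hm, ?_⟩
  have h1 : Tendsto (fun s : Finset ι => ‖∏ i ∈ s, f i - 1‖) atTop (𝓝 ‖∏' i, f i - 1‖) := by
    have h2 := hm.hasProd
    unfold HasProd at h2
    simp only [SummationFilter.unconditional_filter] at h2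
    exact (h2.sub_const 1).norm
  refine le_of_tendsto h1 (Eventually.of_forall fun s => ?_)
  have h3 := Finset.norm_prod_one_add_sub_one_le s (fun i => f i - 1)
  simp only [add_sub_cancel] at h3
  refine h3.trans ?_
  have h4 : ∑ i ∈ s, ‖f i - 1‖ ≤ B :=
    (Finset.sum_le_sum fun i _ => hf i).trans (sum_le_hasSum s (fun i _ => h0 i) hb)
  linarith [Real.exp_le_exp.2 h4]

/-- the Euler product of the zeta quotients -/
private lemma eu_locZ {s₁ w₁ s₂ w₂ z : ℂ} (h1 : |z.re| < s₁.re) (h2 : |z.re| < w₁.re)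
    (h3 : |z.re| < s₂.re) (h4 : |z.re| < w₂.re) :
    HasProd (fun p : Nat.Primes => locZ p s₁ w₁ s₂ w₂ z)
      (Z0 s₁ w₁ s₂ w₂ * VV s₁ w₁ s₂ w₂ z) := by
  have z1 := le_abs_self z.re
  have z2 := neg_abs_le z.re
  have z0 := abs_nonneg z.re
  have r0 : ∀ s : ℂ, 0 < s.re → 1 < (1 + s).re := fun s hs => by
    rw [Complex.add_re, Complex.one_re]; linarith
  have a1 := eu_zeta (r0 (2 * s₁) (by simp; linarith))
  have a2 := eu_zeta (r0 (2 * s₂) (by simp; linarith))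
  have a3 := eu_zeta (r0 (s₁ + s₂) (by simp; linarith))
  have a4 := eu_zeta (r0 (w₁ + w₂) (by simp; linarith))
  have b1 := eu_zeta_inv (r0 (s₁ + w₁) (by simp; linarith))
  have b2 := eu_zeta_inv (r0 (s₁ + w₂) (by simp; linarith))
  have b3 := eu_zeta_inv (r0 (s₂ + w₁) (by simp; linarith))
  have b4 := eu_zeta_inv (r0 (s₂ + w₂) (by simp; linarith))
  have c1 := eu_zeta (r0 (s₁ - z) (by simp; linarith))
  have c2 := eu_zeta (r0 (s₂ - z) (by simp; linarith))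
  have c3 := eu_zeta (r0 (w₁ + z) (by simp; linarith))
  have c4 := eu_zeta (r0 (w₂ + z) (by simp; linarith))
  have d1 := eu_zeta_inv (r0 (w₁ - z) (by simp; linarith))
  have d2 := eu_zeta_inv (r0 (w₂ - z) (by simp; linarith))
  have d3 := eu_zeta_inv (r0 (s₁ + z) (by simp; linarith))
  have d4 := eu_zeta_inv (r0 (s₂ + z) (by simp; linarith))
  have key := ((((a1.mul a2).mul a3).mul a4).mul (((b1.mul b2).mul b3).mul b4)).mul
    ((((c1.mul d1).mul (c2.mul d2)).mul (c3.mul d3)).mul (c4.mul d4))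
  convert key using 1
  · funext p
    have hp0 : (p : ℂ) ≠ 0 := by exact_mod_cast p.2.ne_zero
    unfold locZ locZx
    have e : ∀ s : ℂ, (p : ℂ) ^ (-(1 + s)) = (p : ℂ) ^ (-s) / p := by
      intro s
      rw [show -(1 + s) = -s - 1 by ring, Complex.cpow_sub _ _ hp0, Complex.cpow_one]
    have e2 : ∀ s t : ℂ, (p : ℂ) ^ (-(s + t)) = (p : ℂ) ^ (-s) * (p : ℂ) ^ (-t) := by
      intro s t
      rw [neg_add, Complex.cpow_add _ _ hp0]
    have e3 : ∀ s t : ℂ, (p : ℂ) ^ (-(s - t)) = (p : ℂ) ^ (-s) * (p : ℂ) ^ t := by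
      intro s t
      rw [show -(s - t) = -s + t by ring, Complex.cpow_add _ _ hp0]
    have e4 : ∀ s : ℂ, (p : ℂ) ^ (-(2 * s)) = ((p : ℂ) ^ (-s)) ^ 2 := by
      intro s
      rw [two_mul, e2, sq]
    simp only [e, e4, e2, e3]
    simp only [div_eq_mul_inv, mul_inv_rev]
    ring
  · unfold Z0 VV
    simp only [div_eq_mul_inv, mul_inv_rev]
    ring

/-- a finitely supported sum over the primes -/
private lemma eu_hasSum (r : ℕ) (hr : r ≠ 0) (g : ℕ → ℝ) :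
    HasSum (fun p : Nat.Primes => if (p : ℕ) ∣ r then g p else 0) (∑ p ∈ r.primeFactors, g p) := by
  have h1 : ∑ p ∈ r.primeFactors, g p =
      ∑ p ∈ Finset.subtype Nat.Prime r.primeFactors, (if (p : ℕ) ∣ r then g p else 0) := by
    rw [Finset.sum_subtype_eq_sum_filter (f := fun p : ℕ => if p ∣ r then g p else 0)]
    rw [Finset.filter_true_of_mem fun p hp => Nat.prime_of_mem_primeFactors hp]
    refine Finset.sum_congr rfl fun p hp => ?_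
    rw [if_pos (Nat.dvd_of_mem_primeFactors hp)]
  rw [h1]
  refine hasSum_sum_of_ne_finset_zero fun p hp => ?_
  rw [if_neg]
  intro hd
  exact hp (Finset.mem_subtype.2 (Nat.mem_primeFactors.2 ⟨p.2, hd, hr⟩))

theorem euler_u : ∃ C : ℝ, 0 < C ∧ ∀ r : ℕ, Odd r → ∃ A : ℂ → ℂ → ℂ → ℂ → ℂ → ℂ,
    (∀ s₁ w₁ s₂ w₂ z : ℂ, |s₁.re| ≤ 1 / 100 → |w₁.re| ≤ 1 / 100 → |s₂.re| ≤ 1 / 100 →
      |w₂.re| ≤ 1 / 100 → |z.re| ≤ 1 / 100 →
      ‖A s₁ w₁ s₂ w₂ z - 1‖ ≤ Real.exp (C * min 1 (‖s₁ - w₁‖ + ‖s₂ - w₂‖) +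
        ∑ p ∈ r.primeFactors, ‖1 / locZ p s₁ w₁ s₂ w₂ z - 1‖) - 1) ∧
    (∀ s₁ w₁ s₂ w₂ z : ℂ, |z.re| < s₁.re → |z.re| < w₁.re → |z.re| < s₂.re → |z.re| < w₂.re →
      s₁.re ≤ 1 / 100 → w₁.re ≤ 1 / 100 → s₂.re ≤ 1 / 100 → w₂.re ≤ 1 / 100 →
      OO r s₁ w₁ s₂ w₂ z = Z0 s₁ w₁ s₂ w₂ * VV s₁ w₁ s₂ w₂ z * A s₁ w₁ s₂ w₂ z) := by
  obtain ⟨C0, c0, hc0, hcr⟩ := loc_crude
  obtain ⟨C1, hC1, hlip⟩ := loc_lipschitz
  set S : ℝ := ∑' p : Nat.Primes, (p : ℝ) ^ (-(3 / 2) : ℝ) with hS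
  have hsum : HasSum (fun p : Nat.Primes => (p : ℝ) ^ (-(3 / 2) : ℝ)) S :=
    (Nat.Primes.summable_rpow.2 (by norm_num)).hasSum
  have hS0 : 0 ≤ S := tsum_nonneg fun p => by positivity
  set K : ℝ := (2 : ℝ) ^ (3 / 2 : ℝ) with hK
  have hK1 : 1 ≤ K := Real.one_le_rpow (by norm_num) (by norm_num)
  have hC00 : 0 ≤ C0 := by
    have := hcr 2 Nat.prime_two 0 0 0 0 0 (by norm_num) (by norm_num) (by norm_num)
      (by norm_num) (by norm_num)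
    exact (norm_nonneg _).trans this.2.1
  set M : ℝ := K * (C0 / c0 + 1 / c0 + 1 + C1) with hM
  have hM0 : 0 ≤ M := by positivity
  refine ⟨M * S + 1, by positivity, ?_⟩
  intro r hr
  have hr0 : 0 < r := hr.pos
  have hp3 : ∀ p : Nat.Primes, ¬ (p : ℕ) ∣ 2 * r → 3 ≤ (p : ℕ) := by
    intro p hp
    have h2 := p.2.two_le
    rcases h2.lt_or_eq with h | h
    · exact h
    · exact absurd (h ▸ Dvd.intro r rfl) hp
  set a : ℂ → ℂ → ℂ → ℂ → ℂ → Nat.Primes → ℂ := fun s₁ w₁ s₂ w₂ z p =>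
    if (p : ℕ) ∣ 2 * r then 1 / locZ p s₁ w₁ s₂ w₂ z
    else locO p s₁ w₁ s₂ w₂ z / locZ p s₁ w₁ s₂ w₂ z with ha
  -- the bound
  have hb : ∀ s₁ w₁ s₂ w₂ z : ℂ, |s₁.re| ≤ 1 / 100 → |w₁.re| ≤ 1 / 100 → |s₂.re| ≤ 1 / 100 →
      |w₂.re| ≤ 1 / 100 → |z.re| ≤ 1 / 100 → ∀ p : Nat.Primes,
      0 < ‖locZ p s₁ w₁ s₂ w₂ z‖ ∧
      ‖a s₁ w₁ s₂ w₂ z p - 1‖ ≤ M * min 1 (‖s₁ - w₁‖ + ‖s₂ - w₂‖) * (p : ℝ) ^ (-(3 / 2) : ℝ) +
        (if (p : ℕ) ∣ r then ‖1 / locZ p s₁ w₁ s₂ w₂ z - 1‖ else 0) := by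
    intro s₁ w₁ s₂ w₂ z h1 h2 h3 h4 h5 p
    obtain ⟨g1, g2, g3⟩ := hcr p p.2 s₁ w₁ s₂ w₂ z (h1.trans (by norm_num))
      (h2.trans (by norm_num)) (h3.trans (by norm_num)) (h4.trans (by norm_num))
      (h5.trans (by norm_num))
    obtain ⟨k1, k2⟩ := hlip p p.2 s₁ w₁ s₂ w₂ z h1 h2 h3 h4 h5
    have hZ : 0 < ‖locZ p s₁ w₁ s₂ w₂ z‖ := hc0.trans_le g1
    have hZ0 : locZ p s₁ w₁ s₂ w₂ z ≠ 0 := norm_pos_iff.1 hZ
    have hP : 0 < (p : ℝ) ^ (-(3 / 2) : ℝ) := Real.rpow_pos_of_pos (by exact_mod_cast p.2.pos) _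
    set η := ‖s₁ - w₁‖ + ‖s₂ - w₂‖ with hη
    have hη0 : 0 ≤ η := by positivity
    have hm0 : 0 ≤ min 1 η := le_min zero_le_one hη0
    refine ⟨hZ, ?_⟩
    -- from two bounds `X ≤ a`, `X ≤ b * η` to `X ≤ (a + b) * min 1 η`
    have hcomb : ∀ X a b : ℝ, 0 ≤ a → 0 ≤ b → X ≤ a → X ≤ b * η → X ≤ (a + b) * min 1 η := by
      intro X a b ha0 hb0 hXa hXb
      rcases le_total 1 η with h | h
      · rw [min_eq_left h]; linarith
      · rw [min_eq_right h]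
        have : 0 ≤ a * η := by positivity
        linarith
    by_cases hpr : (p : ℕ) ∣ r
    · have e : a s₁ w₁ s₂ w₂ z p = 1 / locZ p s₁ w₁ s₂ w₂ z := if_pos (hpr.mul_left 2)
      rw [e, if_pos hpr]
      have : 0 ≤ M * min 1 η * (p : ℝ) ^ (-(3 / 2) : ℝ) := by positivity
      linarith
    rw [if_neg hpr, add_zero]
    by_cases hp : (p : ℕ) ∣ 2 * r
    · have e : a s₁ w₁ s₂ w₂ z p = 1 / locZ p s₁ w₁ s₂ w₂ z := if_pos hp
      have hp2 : (p : ℕ) = 2 := by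
        rcases (p.2.dvd_mul).1 hp with h | h
        · exact (Nat.prime_dvd_prime_iff_eq p.2 Nat.prime_two).1 h
        · exact absurd h hpr
      have hKP : K * (p : ℝ) ^ (-(3 / 2) : ℝ) = 1 := by
        rw [hp2, hK]
        push_cast
        rw [← Real.rpow_add (by norm_num)]
        norm_num
      rw [e]
      have h6 : ‖1 / locZ p s₁ w₁ s₂ w₂ z - 1‖ ≤ 1 / c0 + 1 := by
        refine (norm_sub_le _ _).trans ?_
        rw [norm_div, norm_one]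
        have := one_div_le_one_div_of_le hc0 g1
        linarith
      have h7 := hcomb _ _ _ (by positivity) hC1.le h6 k1
      have h8 : 0 ≤ C0 / c0 := by positivity
      calc _ ≤ (1 / c0 + 1 + C1) * min 1 η := h7
        _ ≤ (C0 / c0 + 1 / c0 + 1 + C1) * min 1 η :=
            mul_le_mul_of_nonneg_right (by linarith) hm0
        _ = (C0 / c0 + 1 / c0 + 1 + C1) * min 1 η * (K * (p : ℝ) ^ (-(3 / 2) : ℝ)) := by
            rw [hKP, mul_one]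
        _ = _ := by rw [hM]; ring
    · have e : a s₁ w₁ s₂ w₂ z p = locO p s₁ w₁ s₂ w₂ z / locZ p s₁ w₁ s₂ w₂ z := if_neg hp
      rw [e]
      have hp3' := hp3 p hp
      set P : ℝ := (p : ℝ) ^ (-(3 / 2) : ℝ) with hPd
      have hX1 : ‖locO p s₁ w₁ s₂ w₂ z / locZ p s₁ w₁ s₂ w₂ z - 1‖ ≤ (C0 * P) / c0 := by
        have h6 : locO p s₁ w₁ s₂ w₂ z / locZ p s₁ w₁ s₂ w₂ z - 1 =
            (locO p s₁ w₁ s₂ w₂ z - locZ p s₁ w₁ s₂ w₂ z) / locZ p s₁ w₁ s₂ w₂ z := by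
          rw [sub_div, div_self hZ0]
        rw [h6, norm_div]
        exact div_le_div₀ (by positivity) (g3 hp3') hc0 g1
      have h7 := hcomb _ _ _ (by positivity) (by positivity) hX1 (k2 hp3')
      have h8 : 0 ≤ 1 / c0 := by positivity
      have h9 : 0 ≤ C0 / c0 := by positivity
      have h10 : C0 / c0 + C1 ≤ M := by
        calc C0 / c0 + C1 ≤ 1 * (C0 / c0 + 1 / c0 + 1 + C1) := by linarith
          _ ≤ M := mul_le_mul_of_nonneg_right hK1 (by positivity)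
      calc _ ≤ (C0 * P / c0 + C1 * P) * min 1 η := h7
        _ = (C0 / c0 + C1) * (min 1 η * P) := by ring
        _ ≤ M * (min 1 η * P) := mul_le_mul_of_nonneg_right h10 (by positivity)
        _ = _ := by ring
  refine ⟨fun s₁ w₁ s₂ w₂ z => ∏' p : Nat.Primes, a s₁ w₁ s₂ w₂ z p, ?_, ?_⟩
  · intro s₁ w₁ s₂ w₂ z h1 h2 h3 h4 h5
    have hB := hb s₁ w₁ s₂ w₂ z h1 h2 h3 h4 h5
    set η := ‖s₁ - w₁‖ + ‖s₂ - w₂‖ with hη
    have hη0 : 0 ≤ η := by positivity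
    have hm0 : 0 ≤ min 1 η := le_min zero_le_one hη0
    have hH := (hsum.mul_left (M * min 1 η)).add
      (eu_hasSum r hr0.ne' fun p => ‖1 / locZ p s₁ w₁ s₂ w₂ z - 1‖)
    have p1 := (eu_prod (a s₁ w₁ s₂ w₂ z) _ _ hH fun p => (hB p).2).2
    show ‖∏' p : Nat.Primes, a s₁ w₁ s₂ w₂ z p - 1‖ ≤ _
    refine p1.trans ?_
    have h6 : M * min 1 η * S + ∑ p ∈ r.primeFactors, ‖1 / locZ p s₁ w₁ s₂ w₂ z - 1‖ ≤
        (M * S + 1) * min 1 η + ∑ p ∈ r.primeFactors, ‖1 / locZ p s₁ w₁ s₂ w₂ z - 1‖ := by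
      linarith
    linarith [Real.exp_le_exp.2 h6]
  · intro s₁ w₁ s₂ w₂ z h1 h2 h3 h4 g1 g2 g3 g4
    obtain ⟨o1, o2⟩ := OO_euler r hr s₁ w₁ s₂ w₂ z h1 h2 h3 h4
    have z0 := abs_nonneg z.re
    have hB := hb s₁ w₁ s₂ w₂ z (by rw [abs_of_pos (by linarith)]; exact g1)
      (by rw [abs_of_pos (by linarith)]; exact g2) (by rw [abs_of_pos (by linarith)]; exact g3)
      (by rw [abs_of_pos (by linarith)]; exact g4) (by linarith)
    have hH := (hsum.mul_left (M * min 1 (‖s₁ - w₁‖ + ‖s₂ - w₂‖))).add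
      (eu_hasSum r hr0.ne' fun p => ‖1 / locZ p s₁ w₁ s₂ w₂ z - 1‖)
    have hm := (eu_prod (a s₁ w₁ s₂ w₂ z) _ _ hH fun p => (hB p).2).1
    have hz := eu_locZ h1 h2 h3 h4
    have h5 := hz.mul hm.hasProd
    refine o2.unique ?_
    have hfun : (fun p : Nat.Primes => if (p : ℕ) ∣ 2 * r then 1 else locO p s₁ w₁ s₂ w₂ z) =
        fun p : Nat.Primes => locZ p s₁ w₁ s₂ w₂ z * a s₁ w₁ s₂ w₂ z p := by
      funext p
      have hZ0 : locZ p s₁ w₁ s₂ w₂ z ≠ 0 := norm_pos_iff.1 (hB p).1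
      by_cases hp : (p : ℕ) ∣ 2 * r
      · have e : a s₁ w₁ s₂ w₂ z p = 1 / locZ p s₁ w₁ s₂ w₂ z := if_pos hp
        rw [e, if_pos hp, mul_one_div_cancel hZ0]
      · have e : a s₁ w₁ s₂ w₂ z p = locO p s₁ w₁ s₂ w₂ z / locZ p s₁ w₁ s₂ w₂ z := if_neg hp
        rw [e, if_neg hp, mul_div_cancel₀ _ hZ0]
    rw [hfun]
    exact h5

end Pool.Agent.MP0016c7.Rz
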