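import Mathlib
import Pool.Agent.Lib.MP_0016c7_nt.PS.DefsM

set_option autoImplicit false

/-!
The local factor of the zeta quotients at the primes dividing the modulus.
-/

open Finset MeasureTheory Filter Topology
open scoped Real ContDiff

namespace Pool.Agent.MP0016c7.Rz

private lemma lz_exp : Real.exp (1 / 20) ≤ 53 / 50 := by
  have h := Real.exp_bound_div_one_sub_of_interval (x := 1 / 20) (by norm_num) (by norm_num)
  refine h.trans ?_
  norm_num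

private lemma lz_norm {p : ℕ} (hp : p.Prime) {κ : ℝ} (hκ : κ * Real.log p ≤ 1 / 20) {s : ℂ}
    (hs : |s.re| ≤ κ) : ‖(p : ℂ) ^ s‖ ≤ 53 / 50 := by
  have hp0 : 0 < p := hp.pos
  have hpR : (0 : ℝ) < p := by exact_mod_cast hp0
  rw [Complex.norm_natCast_cpow_of_pos hp0, Real.rpow_def_of_pos hpR]
  refine le_trans (Real.exp_le_exp.2 ?_) lz_exp
  have hlog : 0 ≤ Real.log p := Real.log_nonneg (by exact_mod_cast hp.one_lt.le)
  have := le_abs_self s.re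
  nlinarith [mul_le_mul_of_nonneg_right (this.trans hs) hlog]

private lemma lz_conv (κ : ℝ) : Convex ℝ {s : ℂ | |s.re| ≤ κ} := by
  have h1 : Convex ℝ {s : ℂ | s.re ≤ κ} := convex_halfSpace_re_le _
  have h2 : Convex ℝ {s : ℂ | -κ ≤ s.re} := convex_halfSpace_re_ge _
  have : {s : ℂ | |s.re| ≤ κ} = {s : ℂ | -κ ≤ s.re} ∩ {s : ℂ | s.re ≤ κ} := by
    ext s
    simp only [Set.mem_ofPred_eq, Set.mem_inter_iff, abs_le]
  rw [this]
  exact h2.inter h1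

private lemma lz_lip {p : ℕ} (hp : p.Prime) {κ : ℝ} (hκ : κ * Real.log p ≤ 1 / 20) {s w : ℂ}
    (hs : |s.re| ≤ κ) (hw : |w.re| ≤ κ) :
    ‖(p : ℂ) ^ (-s) - (p : ℂ) ^ (-w)‖ ≤ 53 / 50 * Real.log p * ‖s - w‖ := by
  have hp0 : (p : ℂ) ≠ 0 := by exact_mod_cast hp.ne_zero
  have hlog : 0 ≤ Real.log p := Real.log_nonneg (by exact_mod_cast hp.one_lt.le)
  have hder : ∀ t ∈ {s : ℂ | |s.re| ≤ κ}, HasDerivWithinAt (fun z : ℂ => (p : ℂ) ^ z)
      ((p : ℂ) ^ t * Complex.log p) {s : ℂ | |s.re| ≤ κ} t := by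
    intro t _
    have := (hasDerivAt_id t).const_cpow (c := (p : ℂ)) (Or.inl hp0)
    simpa using this.hasDerivWithinAt
  have hb : ∀ t ∈ {s : ℂ | |s.re| ≤ κ}, ‖(p : ℂ) ^ t * Complex.log p‖ ≤ 53 / 50 * Real.log p := by
    intro t ht
    rw [norm_mul]
    have h1 := lz_norm hp hκ (s := t) ht
    have h2 : ‖Complex.log p‖ = Real.log p := by
      rw [Complex.natCast_log.symm, Complex.norm_real, Real.norm_of_nonneg hlog]
    rw [h2]
    exact mul_le_mul_of_nonneg_right h1 hlog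
  have hs' : (-s) ∈ {s : ℂ | |s.re| ≤ κ} := by
    simpa using hs
  have hw' : (-w) ∈ {s : ℂ | |s.re| ≤ κ} := by
    simpa using hw
  have := (lz_conv κ).norm_image_sub_le_of_norm_hasDerivWithin_le hder hb hw' hs'
  refine this.trans (le_of_eq ?_)
  have : -s - -w = -(s - w) := by ring
  rw [this, norm_neg]

private lemma lz_ratio {P : ℝ} {q a b t : ℂ} {D : ℝ} (hP : 3 ≤ P) (hq : ‖q‖ = P)
    (hb : ‖b‖ ≤ 53 / 50) (ht : ‖t‖ ≤ 53 / 50) (hab : ‖a - b‖ ≤ 3 * D) :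
    ‖(1 - a * t / q) * (1 - b * t / q)⁻¹ - 1‖ ≤ 6 * D / P := by
  have hP0 : 0 < P := by linarith
  have hD : 0 ≤ D := by
    have := (norm_nonneg _).trans hab
    linarith
  have hbt : ‖b * t / q‖ ≤ 3 / 8 := by
    rw [norm_div, norm_mul, hq, div_le_iff₀ hP0]
    have := mul_le_mul hb ht (norm_nonneg _) (by norm_num)
    nlinarith
  have hlow : 5 / 8 ≤ ‖1 - b * t / q‖ := by
    have := norm_sub_norm_le (1 : ℂ) (b * t / q)
    rw [norm_one] at this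
    linarith
  have hne : 1 - b * t / q ≠ 0 := by
    intro h
    rw [h, norm_zero] at hlow
    norm_num at hlow
  have e : (1 - a * t / q) * (1 - b * t / q)⁻¹ - 1 = (-(a - b) * t / q) * (1 - b * t / q)⁻¹ := by
    have h1 : (1 - b * t / q) * (1 - b * t / q)⁻¹ = 1 := mul_inv_cancel₀ hne
    calc (1 - a * t / q) * (1 - b * t / q)⁻¹ - 1
        = (1 - a * t / q) * (1 - b * t / q)⁻¹ - (1 - b * t / q) * (1 - b * t / q)⁻¹ := by rw [h1]
      _ = _ := by ring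
  rw [e, norm_mul, norm_div, norm_mul, norm_neg, norm_inv, hq]
  have h1 : ‖1 - b * t / q‖⁻¹ ≤ 8 / 5 := by
    rw [inv_le_comm₀ (by linarith) (by norm_num)]
    norm_num
    linarith
  have h2 : ‖a - b‖ * ‖t‖ ≤ 3 * D * (53 / 50) := mul_le_mul hab ht (norm_nonneg _) (by linarith)
  calc ‖a - b‖ * ‖t‖ / P * ‖1 - b * t / q‖⁻¹ ≤ (3 * D * (53 / 50)) / P * (8 / 5) := by
        gcongr
    _ = (3 * (53 / 50) * (8 / 5) * D) / P := by ring
    _ ≤ 6 * D / P := by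
        apply div_le_div_of_nonneg_right _ hP0.le
        nlinarith

private lemma lz_mul {a K : ℝ} {f g : ℂ} (h0 : 0 ≤ a) (h2 : a ≤ 2) (hK : 0 ≤ K)
    (hf : ‖f - 1‖ ≤ K * a) (hg : ‖g - 1‖ ≤ K * a) : ‖f * g - 1‖ ≤ (2 * K + 2 * K ^ 2) * a := by
  have e : f * g - 1 = (f - 1) + (g - 1) + (f - 1) * (g - 1) := by ring
  rw [e]
  have t1 := norm_add_le ((f - 1) + (g - 1)) ((f - 1) * (g - 1))
  have t2 := norm_add_le (f - 1) (g - 1)
  have t3 : ‖(f - 1) * (g - 1)‖ ≤ K * a * (K * a) := by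
    rw [norm_mul]
    exact mul_le_mul hf hg (norm_nonneg _) (by positivity)
  have t4 : K * a * (K * a) ≤ 2 * K ^ 2 * a := by
    have : 0 ≤ K ^ 2 * a := by positivity
    nlinarith
  linarith

theorem locZ_inv : ∃ C : ℝ, 0 < C ∧ ∀ p : ℕ, p.Prime → 3 ≤ p → ∀ κ : ℝ, κ * Real.log p ≤ 1 / 20 →
    ∀ s₁ w₁ s₂ w₂ z : ℂ, |s₁.re| ≤ κ → |w₁.re| ≤ κ → |s₂.re| ≤ κ → |w₂.re| ≤ κ → |z.re| ≤ κ →
    ‖1 / locZ p s₁ w₁ s₂ w₂ z - 1‖ ≤
      C * min 1 ((‖s₁ - w₁‖ + ‖s₂ - w₂‖) * Real.log p) / p := by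
  refine ⟨3280 * 6, by norm_num, ?_⟩
  intro p hp hp3 κ hκ s₁ w₁ s₂ w₂ z h1 h2 h3 h4 h5
  have hP : (3 : ℝ) ≤ p := by exact_mod_cast hp3
  have hq : ‖(p : ℂ)‖ = (p : ℝ) := Complex.norm_natCast p
  have hlog : 0 ≤ Real.log p := Real.log_nonneg (by linarith)
  have n : ∀ s : ℂ, |s.re| ≤ κ → |(-s).re| ≤ κ := by
    intro s hs
    simpa using hs
  have hx := lz_norm hp hκ (n _ h1)
  have hy := lz_norm hp hκ (n _ h2)
  have hx' := lz_norm hp hκ (n _ h3)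
  have hy' := lz_norm hp hκ (n _ h4)
  have hu := lz_norm hp hκ h5
  have hv := lz_norm hp hκ (n _ h5)
  have hxy := lz_lip hp hκ h1 h2
  have hxy' := lz_lip hp hκ h3 h4
  unfold locZ
  set x : ℂ := (p : ℂ) ^ (-s₁)
  set y : ℂ := (p : ℂ) ^ (-w₁)
  set x' : ℂ := (p : ℂ) ^ (-s₂)
  set y' : ℂ := (p : ℂ) ^ (-w₂)
  set u : ℂ := (p : ℂ) ^ z
  set v : ℂ := (p : ℂ) ^ (-z)
  set q : ℂ := (p : ℂ)
  set D : ℝ := min 1 ((‖s₁ - w₁‖ + ‖s₂ - w₂‖) * Real.log p) with hD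
  have hD0 : 0 ≤ D := le_min zero_le_one (by positivity)
  have hD1 : D ≤ 1 := min_le_left _ _
  have hm : 3 * D = min 3 (3 * ((‖s₁ - w₁‖ + ‖s₂ - w₂‖) * Real.log p)) := by
    rw [hD, mul_min_of_nonneg _ _ (by norm_num : (0 : ℝ) ≤ 3), mul_one]
  have a1 : ‖x - y‖ ≤ 3 * D := by
    rw [hm]
    refine le_min ?_ ?_
    · have := norm_sub_le x y
      linarith
    · have hh : 0 ≤ Real.log p * ‖s₂ - w₂‖ := by positivity
      have hh' : 0 ≤ Real.log p * ‖s₁ - w₁‖ := by positivity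
      nlinarith
  have a2 : ‖x' - y'‖ ≤ 3 * D := by
    rw [hm]
    refine le_min ?_ ?_
    · have := norm_sub_le x' y'
      linarith
    · have hh : 0 ≤ Real.log p * ‖s₂ - w₂‖ := by positivity
      have hh' : 0 ≤ Real.log p * ‖s₁ - w₁‖ := by positivity
      nlinarith
  have a1' : ‖y - x‖ ≤ 3 * D := by rw [norm_sub_rev]; exact a1
  have a2' : ‖y' - x'‖ ≤ 3 * D := by rw [norm_sub_rev]; exact a2
  -- the eight ratios
  have r1 := lz_ratio hP hq hy hx a1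
  have r2 := lz_ratio hP hq hy' hx' a2
  have r3 := lz_ratio hP hq hy' hx a2
  have r4 := lz_ratio hP hq hx' hy a2'
  have r5 := lz_ratio hP hq hy hu a1
  have r6 := lz_ratio hP hq hy' hu a2
  have r7 := lz_ratio hP hq hx hv a1'
  have r8 := lz_ratio hP hq hx' hv a2'
  have e : 1 / locZx q x y x' y' u v =
      ((((1 - x * x / q) * (1 - y * x / q)⁻¹) * ((1 - x' * x' / q) * (1 - y' * x' / q)⁻¹)) *
        (((1 - x' * x / q) * (1 - y' * x / q)⁻¹) * ((1 - y' * y / q) * (1 - x' * y / q)⁻¹))) *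
      ((((1 - x * u / q) * (1 - y * u / q)⁻¹) * ((1 - x' * u / q) * (1 - y' * u / q)⁻¹)) *
        (((1 - y * v / q) * (1 - x * v / q)⁻¹) * ((1 - y' * v / q) * (1 - x' * v / q)⁻¹))) := by
    unfold locZx
    simp only [one_div, mul_inv, inv_inv, div_eq_mul_inv _ ((1 - x * u / q) * _ * _ * _), inv_div]
    rw [mul_comm y x, mul_comm y' x', mul_comm x' x, mul_comm y' x, mul_comm y' y, mul_comm x' y,
      ← sq x, ← sq x']
    simp only [div_eq_mul_inv, mul_inv, inv_inv]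
    ring
  rw [e]
  set a : ℝ := 6 * D / p with ha
  have ha0 : 0 ≤ a := by positivity
  have ha2 : a ≤ 2 := by
    rw [ha, div_le_iff₀ (by linarith)]
    linarith
  have one : ∀ f : ℂ, ‖f - 1‖ ≤ a → ‖f - 1‖ ≤ 1 * a := fun f hf => by rw [one_mul]; exact hf
  have p1 := lz_mul ha0 ha2 zero_le_one (one _ r1) (one _ r2)
  have p2 := lz_mul ha0 ha2 zero_le_one (one _ r3) (one _ r4)
  have p3 := lz_mul ha0 ha2 zero_le_one (one _ r5) (one _ r6)
  have p4 := lz_mul ha0 ha2 zero_le_one (one _ r7) (one _ r8)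
  have q1 := lz_mul ha0 ha2 (by norm_num) p1 p2
  have q2 := lz_mul ha0 ha2 (by norm_num) p3 p4
  have z1 := lz_mul ha0 ha2 (by norm_num) q1 q2
  refine z1.trans (le_of_eq ?_)
  rw [ha]
  ring

end Pool.Agent.MP0016c7.Rz
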