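import Mathlib
import Pool.Agent.Lib.MP_bca3e5_nt.Gf3

set_option autoImplicit false

/-!
Sums over primes.
-/

open Finset MeasureTheory Filter Topology
open scoped Real ContDiff

namespace Pool.Agent.MP0016c7.Rz

theorem sum_log_prime_le (s : Finset ℕ) (y : ℝ) (hy : 1 ≤ y)
    (hs : ∀ p ∈ s, p.Prime ∧ (p : ℝ) ≤ y) : ∑ p ∈ s, Real.log p / p ≤ Real.log y + 6 := by
  have hN : 1 ≤ ⌊y⌋₊ := Nat.le_floor (by simpa using hy)
  have h1 := Pool.Agent.MPbca.mertens_upper ⌊y⌋₊ hN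
  have h2 : ∑ p ∈ s, Real.log p / p ≤
      ∑ d ∈ Icc 1 ⌊y⌋₊, ArithmeticFunction.vonMangoldt d / d := by
    have h3 : ∑ p ∈ s, Real.log p / p = ∑ p ∈ s, ArithmeticFunction.vonMangoldt p / p := by
      refine Finset.sum_congr rfl fun p hp => ?_
      rw [ArithmeticFunction.vonMangoldt_apply_prime (hs p hp).1]
    rw [h3]
    refine Finset.sum_le_sum_of_subset_of_nonneg ?_ fun d _ _ => ?_
    · intro p hp
      rw [Finset.mem_Icc]
      exact ⟨(hs p hp).1.one_le, Nat.le_floor (hs p hp).2⟩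
    · exact div_nonneg ArithmeticFunction.vonMangoldt_nonneg (Nat.cast_nonneg _)
  have h4 : Real.log (⌊y⌋₊ : ℝ) ≤ Real.log y :=
    Real.log_le_log (by exact_mod_cast hN) (Nat.floor_le (by linarith))
  linarith

theorem sum_inv_prime_le (κ : ℝ) (hκ : 0 < κ) : ∃ C : ℝ, 0 ≤ C ∧ ∀ (s : Finset ℕ) (y : ℝ), 1 ≤ y →
    (∀ p ∈ s, p.Prime ∧ (p : ℝ) ≤ y) → ∑ p ∈ s, (1 : ℝ) / p ≤ κ * Real.log y + C := by
  set D : ℕ := ⌈Real.exp (1 / κ)⌉₊ with hD
  have hDe : Real.exp (1 / κ) ≤ D := Nat.le_ceil _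
  refine ⟨(D : ℝ) + 1 + κ * 6, by positivity, fun s y hy hs => ?_⟩
  have hsplit := Finset.sum_filter_add_sum_filter_not s (fun p => p ≤ D) (fun p => (1 : ℝ) / p)
  have h1 : ∑ p ∈ s.filter (fun p => p ≤ D), (1 : ℝ) / p ≤ D + 1 := by
    have hc : (s.filter (fun p => p ≤ D)).card ≤ D + 1 := by
      have : s.filter (fun p => p ≤ D) ⊆ Finset.range (D + 1) := by
        intro p hp
        rw [Finset.mem_filter] at hp
        rw [Finset.mem_range]
        omega
      exact (Finset.card_le_card this).trans (by rw [Finset.card_range])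
    calc ∑ p ∈ s.filter (fun p => p ≤ D), (1 : ℝ) / p
        ≤ ∑ p ∈ s.filter (fun p => p ≤ D), (1 : ℝ) := by
          refine Finset.sum_le_sum fun p hp => ?_
          have hp1 : (1 : ℝ) ≤ p := by
            exact_mod_cast (hs p (Finset.mem_filter.1 hp).1).1.one_le
          rw [div_le_one (by linarith)]
          exact hp1
      _ = ((s.filter (fun p => p ≤ D)).card : ℝ) := by simp
      _ ≤ D + 1 := by exact_mod_cast hc
  have h2 : ∑ p ∈ s.filter (fun p => ¬ p ≤ D), (1 : ℝ) / p ≤ κ * (Real.log y + 6) := by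
    calc ∑ p ∈ s.filter (fun p => ¬ p ≤ D), (1 : ℝ) / p
        ≤ ∑ p ∈ s.filter (fun p => ¬ p ≤ D), κ * (Real.log p / p) := by
          refine Finset.sum_le_sum fun p hp => ?_
          rw [Finset.mem_filter] at hp
          have hp0 : (0 : ℝ) < p := by exact_mod_cast (hs p hp.1).1.pos
          have hpD : (D : ℝ) ≤ p := by exact_mod_cast (not_le.1 hp.2).le
          have hl : 1 / κ ≤ Real.log p := by
            rw [Real.le_log_iff_exp_le hp0]
            exact hDe.trans hpD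
          have hl2 : 1 ≤ κ * Real.log p := by
            rw [div_le_iff₀ hκ] at hl
            linarith
          calc (1 : ℝ) / p ≤ (κ * Real.log p) / p := div_le_div_of_nonneg_right hl2 hp0.le
            _ = κ * (Real.log p / p) := by ring
      _ = κ * ∑ p ∈ s.filter (fun p => ¬ p ≤ D), Real.log p / p := by rw [Finset.mul_sum]
      _ ≤ κ * (Real.log y + 6) := by
          refine mul_le_mul_of_nonneg_left ?_ hκ.le
          exact sum_log_prime_le _ y hy fun p hp => hs p (Finset.mem_filter.1 hp).1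
  calc ∑ p ∈ s, (1 : ℝ) / p = _ := hsplit.symm
    _ ≤ (D + 1) + κ * (Real.log y + 6) := add_le_add h1 h2
    _ = _ := by ring

theorem sum_log_pf_le {r : ℕ} (hr : 0 < r) : ∑ p ∈ r.primeFactors, Real.log p ≤ Real.log r := by
  have h1 : (∏ p ∈ r.primeFactors, p) ≤ r := Nat.le_of_dvd hr (Nat.prod_primeFactors_dvd r)
  have h2 : ∑ p ∈ r.primeFactors, Real.log p = Real.log ((∏ p ∈ r.primeFactors, p : ℕ) : ℝ) := by
    rw [Nat.cast_prod, Real.log_prod]
    intro p hp
    exact_mod_cast (Nat.prime_of_mem_primeFactors hp).ne_zero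
  rw [h2]
  have h3 : 0 < ∏ p ∈ r.primeFactors, p :=
    Finset.prod_pos fun p hp => (Nat.prime_of_mem_primeFactors hp).pos
  exact Real.log_le_log (by exact_mod_cast h3) (by exact_mod_cast h1)

/-- Sums over the primes dividing `r`: the primes larger than `L` contribute little if
`∑ log p ≤ 2 L`. -/
theorem sum_pf_split {r : ℕ} {L : ℝ} (hL : 1 ≤ L) (hrL : ∑ p ∈ r.primeFactors, Real.log p ≤ 2 * L)
    (g : ℕ → ℝ) (hg : ∀ p ∈ r.primeFactors, L < p → g p * L ≤ Real.log p) :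
    ∑ p ∈ r.primeFactors, g p ≤ ∑ p ∈ r.primeFactors.filter (fun p : ℕ => (p : ℝ) ≤ L), g p + 2 := by
  have hsplit := Finset.sum_filter_add_sum_filter_not r.primeFactors (fun p : ℕ => (p : ℝ) ≤ L) g
  rw [← hsplit]
  refine add_le_add le_rfl ?_
  have hL0 : 0 < L := by linarith
  have h1 : (∑ p ∈ r.primeFactors.filter (fun p : ℕ => ¬ (p : ℝ) ≤ L), g p) * L ≤ 2 * L := by
    rw [Finset.sum_mul]
    refine le_trans (Finset.sum_le_sum (g := fun p : ℕ => Real.log p) fun p hp => ?_) ?_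
    · rw [Finset.mem_filter] at hp
      exact hg p hp.1 (not_le.1 hp.2)
    · exact le_trans (Finset.sum_le_sum_of_subset_of_nonneg (Finset.filter_subset _ _)
        fun p _ _ => Real.log_natCast_nonneg p) hrL
  exact le_of_mul_le_mul_right h1 hL0

theorem sum_log_prime_le2 {r : ℕ} {L : ℝ} (hL : 1 ≤ L)
    (hrL : ∑ p ∈ r.primeFactors, Real.log p ≤ 2 * L) :
    ∑ p ∈ r.primeFactors, Real.log p / p ≤ Real.log L + 8 := by
  refine (sum_pf_split hL hrL (fun p => Real.log p / p) fun p hp hpL => ?_).trans ?_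
  · have hp0 : (0 : ℝ) < p := by exact_mod_cast (Nat.prime_of_mem_primeFactors hp).pos
    rw [div_mul_eq_mul_div, div_le_iff₀ hp0]
    exact mul_le_mul_of_nonneg_left hpL.le (Real.log_natCast_nonneg p)
  · have := sum_log_prime_le (r.primeFactors.filter (fun p : ℕ => (p : ℝ) ≤ L)) L hL fun p hp => by
      rw [Finset.mem_filter] at hp
      exact ⟨Nat.prime_of_mem_primeFactors hp.1, hp.2⟩
    linarith

theorem one_le_log_pf {r : ℕ} (hr : Odd r) {p : ℕ} (hp : p ∈ r.primeFactors) :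
    3 ≤ p ∧ 1 ≤ Real.log p := by
  have h3 : 3 ≤ p := by
    have h2 : p ≠ 2 := by
      rintro rfl
      have h3 := Nat.dvd_of_mem_primeFactors hp
      rw [Nat.odd_iff] at hr
      omega
    have := (Nat.prime_of_mem_primeFactors hp).two_le
    omega
  have hp3 : (3 : ℝ) ≤ p := by exact_mod_cast h3
  refine ⟨h3, ?_⟩
  rw [Real.le_log_iff_exp_le (by linarith)]
  have := Real.exp_one_lt_d9
  linarith

theorem sum_inv_prime_le2 (κ : ℝ) (hκ : 0 < κ) : ∃ C : ℝ, 0 ≤ C ∧ ∀ (r : ℕ) (L : ℝ), Odd r →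
    1 ≤ L → ∑ p ∈ r.primeFactors, Real.log p ≤ 2 * L →
    ∑ p ∈ r.primeFactors, (1 : ℝ) / p ≤ κ * Real.log L + C := by
  obtain ⟨C, hC, h⟩ := sum_inv_prime_le κ hκ
  refine ⟨C + 2, by linarith, fun r L hr hL hrL => ?_⟩
  refine (sum_pf_split hL hrL (fun p => (1 : ℝ) / p) fun p hp hpL => ?_).trans ?_
  · obtain ⟨-, hl⟩ := one_le_log_pf hr hp
    have hp0 : (0 : ℝ) < p := by exact_mod_cast (Nat.prime_of_mem_primeFactors hp).pos
    refine le_trans ?_ hl
    rw [div_mul_eq_mul_div, one_mul, div_le_one hp0]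
    exact hpL.le
  · have := h (r.primeFactors.filter (fun p : ℕ => (p : ℝ) ≤ L)) L hL fun p hp => by
      rw [Finset.mem_filter] at hp
      exact ⟨Nat.prime_of_mem_primeFactors hp.1, hp.2⟩
    linarith

end Pool.Agent.MP0016c7.Rz
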