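import Mathlib
import Pool.Agent.Lib.MP_0016c7_nt.PS.DefsM
import Pool.Agent.Lib.MP_0016c7_nt.PS.EulU
import Pool.Agent.Lib.MP_0016c7_nt.PS.LocZ
import Pool.Agent.Lib.MP_0016c7_nt.PS.Mert

set_option autoImplicit false

/-!
The correction factor of the Euler product for small moduli (`SmM L r`).
-/

open Finset MeasureTheory Filter Topology
open scoped Real ContDiff

namespace Pool.Agent.MP0016c7.Rz

/-- `exp x - 1 ≤ x exp K` for `0 ≤ x ≤ K`. -/
private theorem eulV_exp (x K : ℝ) (hx : 0 ≤ x) (hK : x ≤ K) :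
    Real.exp x - 1 ≤ x * Real.exp K := by
  have h1 : 1 - x ≤ Real.exp (-x) := by
    have := Real.add_one_le_exp (-x)
    linarith
  have h2 : (1 - x) * Real.exp x ≤ Real.exp (-x) * Real.exp x :=
    mul_le_mul_of_nonneg_right h1 (Real.exp_pos _).le
  rw [← Real.exp_add, neg_add_cancel, Real.exp_zero] at h2
  have h3 : x * Real.exp x ≤ x * Real.exp K :=
    mul_le_mul_of_nonneg_left (Real.exp_le_exp.2 hK) hx
  nlinarith

theorem euler_unif : ∃ C A L₀ : ℝ, 0 < C ∧ 0 < A ∧ 500 ≤ L₀ ∧ ∀ L : ℝ, L₀ ≤ L → ∀ r : ℕ, Odd r →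
    SmM L r → ∀ s₁ w₁ s₂ w₂ z : ℂ,
    |z.re| < s₁.re → |z.re| < w₁.re → |z.re| < s₂.re → |z.re| < w₂.re →
    s₁.re ≤ 3 / L → w₁.re ≤ 3 / L → s₂.re ≤ 3 / L → w₂.re ≤ 3 / L →
    ∃ F : ℂ, OO r s₁ w₁ s₂ w₂ z = Z0 s₁ w₁ s₂ w₂ * VV s₁ w₁ s₂ w₂ z * F ∧
      ‖F‖ ≤ C * (1 + L * (‖s₁ - w₁‖ + ‖s₂ - w₂‖)) ^ A ∧
      ‖F - 1‖ ≤ C * (1 + L * (‖s₁ - w₁‖ + ‖s₂ - w₂‖)) ^ A * (Real.log L / L) := by
  obtain ⟨C₁, hC₁, hE⟩ := euler_u
  obtain ⟨C₂, hC₂, hZ⟩ := locZ_inv
  obtain ⟨C₃, hC₃, hI⟩ := sum_inv_prime_le2 (1 / (2 * C₂)) (by positivity)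
  -- the threshold
  have hlog : ∀ᶠ L : ℝ in atTop, 60 * Real.log L ≤ L ∧ Real.log L ^ 2 ≤ L := by
    have h1 : ∀ᶠ L : ℝ in atTop, Real.log L ≤ (1 / 60) * L := by
      have := Real.isLittleO_log_id_atTop.bound (show (0 : ℝ) < 1 / 60 by norm_num)
      filter_upwards [this, eventually_ge_atTop (1 : ℝ)] with L hL h1
      simp only [Real.norm_eq_abs, id_eq] at hL
      rw [abs_of_nonneg (Real.log_nonneg h1), abs_of_nonneg (by linarith)] at hL
      exact hL
    have h2 : ∀ᶠ L : ℝ in atTop, Real.log L ^ 2 ≤ L := by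
      have := (Real.isLittleO_pow_log_id_atTop (n := 2)).bound (show (0 : ℝ) < 1 by norm_num)
      filter_upwards [this, eventually_ge_atTop (1 : ℝ)] with L hL h1
      simp only [Real.norm_eq_abs, id_eq, one_mul] at hL
      rw [abs_of_nonneg (sq_nonneg _), abs_of_nonneg (by linarith)] at hL
      exact hL
    filter_upwards [h1, h2] with L h1 h2
    exact ⟨by linarith, h2⟩
  obtain ⟨L₁, hL₁⟩ := eventually_atTop.1 hlog
  set K : ℝ := C₁ + 9 * C₂ with hK
  have hKpos : 0 < K := by positivity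
  set D₁ : ℝ := K * Real.exp K with hD₁
  have hD₁pos : 0 < D₁ := by positivity
  set D₂ : ℝ := Real.exp (C₁ + C₂ * C₃) with hD₂
  have hD₂pos : 0 < D₂ := Real.exp_pos _
  refine ⟨1 + D₁ + D₂, 2, max 500 L₁, by positivity, by norm_num, le_max_left _ _, ?_⟩
  intro L hL r hr hrL s₁ w₁ s₂ w₂ z hzs₁ hzw₁ hzs₂ hzw₂ hs₁ hw₁ hs₂ hw₂
  have hL500 : 500 ≤ L := (le_max_left _ _).trans hL
  obtain ⟨hl60, hlsq⟩ := hL₁ L ((le_max_right _ _).trans hL)
  have hLpos : 0 < L := by linarith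
  have hl1 : 1 ≤ Real.log L := by
    rw [Real.le_log_iff_exp_le hLpos]
    have := Real.exp_one_lt_d9
    linarith
  have hlpos : 0 < Real.log L := by linarith
  have hLinv : 3 / L ≤ 1 / 100 := by
    rw [div_le_div_iff₀ hLpos (by norm_num)]
    linarith
  have hz0 : 0 ≤ |z.re| := abs_nonneg _
  have hκ1 : |s₁.re| ≤ 3 / L := by rw [abs_of_pos (by linarith)]; exact hs₁
  have hκ2 : |w₁.re| ≤ 3 / L := by rw [abs_of_pos (by linarith)]; exact hw₁
  have hκ3 : |s₂.re| ≤ 3 / L := by rw [abs_of_pos (by linarith)]; exact hs₂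
  have hκ4 : |w₂.re| ≤ 3 / L := by rw [abs_of_pos (by linarith)]; exact hw₂
  have hκ5 : |z.re| ≤ 3 / L := by linarith
  obtain ⟨A, hA1, hA2⟩ := hE r hr
  set η : ℝ := ‖s₁ - w₁‖ + ‖s₂ - w₂‖ with hη
  have hη0 : 0 ≤ η := add_nonneg (norm_nonneg _) (norm_nonneg _)
  set T : ℝ := 1 + L * η with hT
  have hT1 : 1 ≤ T := by
    have : 0 ≤ L * η := mul_nonneg hLpos.le hη0
    linarith
  have hηT : η ≤ T / L := by
    rw [le_div_iff₀ hLpos, hT]
    linarith
  refine ⟨A s₁ w₁ s₂ w₂ z, ?_, ?_⟩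
  · exact hA2 s₁ w₁ s₂ w₂ z hzs₁ hzw₁ hzs₂ hzw₂ (hs₁.trans hLinv) (hw₁.trans hLinv)
      (hs₂.trans hLinv) (hw₂.trans hLinv)
  have hF := hA1 s₁ w₁ s₂ w₂ z (hκ1.trans hLinv) (hκ2.trans hLinv) (hκ3.trans hLinv)
    (hκ4.trans hLinv) (hκ5.trans hLinv)
  set F : ℂ := A s₁ w₁ s₂ w₂ z with hFdef
  set S : ℝ := ∑ p ∈ r.primeFactors, ‖1 / locZ p s₁ w₁ s₂ w₂ z - 1‖ with hS
  have hS0 : 0 ≤ S := sum_nonneg fun _ _ => norm_nonneg _
  have hterm : ∀ p ∈ r.primeFactors, ‖1 / locZ p s₁ w₁ s₂ w₂ z - 1‖ ≤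
      C₂ * min 1 (η * Real.log p) / p := by
    intro p hp
    have hpr := Nat.prime_of_mem_primeFactors hp
    have hp3 : 3 ≤ p := by
      have h2 : p ≠ 2 := by
        rintro rfl
        have h3 := Nat.dvd_of_mem_primeFactors hp
        rw [Nat.odd_iff] at hr
        omega
      have := hpr.two_le
      omega
    have hp0 : (0 : ℝ) < p := by exact_mod_cast hpr.pos
    have hlp : Real.log p ≤ L / 60 := hrL.1 p hp
    refine hZ p hpr hp3 (3 / L) ?_ s₁ w₁ s₂ w₂ z hκ1 hκ2 hκ3 hκ4 hκ5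
    rw [div_mul_eq_mul_div, div_le_iff₀ hLpos]
    linarith
  -- the norm of `F`
  have hFn : ‖F‖ ≤ 1 + ‖F - 1‖ := by
    have h1 : ‖(1 : ℂ) + (F - 1)‖ ≤ ‖(1 : ℂ)‖ + ‖F - 1‖ := norm_add_le _ _
    rw [norm_one] at h1
    have h2 : (1 : ℂ) + (F - 1) = F := by ring
    rwa [h2] at h1
  have hTT : T ≤ T ^ 2 := by nlinarith
  have hT2 : 1 ≤ T ^ 2 := hT1.trans hTT
  have hrp : T ^ (2 : ℝ) = T ^ 2 := by
    rw [← Real.rpow_natCast]
    norm_num
  rw [hrp]
  have hlL : 0 < Real.log L / L := div_pos hlpos hLpos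
  by_cases hcase : T * Real.log L ≤ L
  · -- `T` small
    have hTl : T * (Real.log L / L) ≤ 1 := by
      rw [← mul_div_assoc, div_le_one hLpos]
      exact hcase
    have hS1 : S ≤ 9 * C₂ * (T * (Real.log L / L)) := by
      have h1 : S ≤ ∑ p ∈ r.primeFactors, C₂ * η * (Real.log p / p) := by
        refine sum_le_sum fun p hp => (hterm p hp).trans ?_
        have hp0 : (0 : ℝ) < p := by
          exact_mod_cast (Nat.prime_of_mem_primeFactors hp).pos
        have h2 : C₂ * min 1 (η * Real.log p) ≤ C₂ * (η * Real.log p) :=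
          mul_le_mul_of_nonneg_left (min_le_right _ _) hC₂.le
        calc C₂ * min 1 (η * Real.log p) / p ≤ C₂ * (η * Real.log p) / p :=
              div_le_div_of_nonneg_right h2 hp0.le
          _ = C₂ * η * (Real.log p / p) := by ring
      rw [← mul_sum] at h1
      have h3 := sum_log_prime_le2 (r := r) (L := L) (by linarith) hrL.2
      have h4 : C₂ * η * ∑ p ∈ r.primeFactors, Real.log p / p ≤ C₂ * η * (9 * Real.log L) :=
        mul_le_mul_of_nonneg_left (by linarith) (by positivity)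
      have h5 : C₂ * η * (9 * Real.log L) ≤ C₂ * (T / L) * (9 * Real.log L) :=
        mul_le_mul_of_nonneg_right (mul_le_mul_of_nonneg_left hηT hC₂.le) (by positivity)
      have h6 : C₂ * (T / L) * (9 * Real.log L) = 9 * C₂ * (T * (Real.log L / L)) := by
        field_simp
      linarith
    have hmin : C₁ * min 1 η ≤ C₁ * (T * (Real.log L / L)) := by
      refine mul_le_mul_of_nonneg_left ?_ hC₁.le
      refine (min_le_right _ _).trans (hηT.trans ?_)
      rw [div_eq_mul_one_div]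
      refine mul_le_mul_of_nonneg_left ?_ (by linarith)
      exact div_le_div_of_nonneg_right hl1 hLpos.le
    have hx0 : 0 ≤ C₁ * min 1 η + S :=
      add_nonneg (mul_nonneg hC₁.le (le_min zero_le_one hη0)) hS0
    have hx1 : C₁ * min 1 η + S ≤ K * (T * (Real.log L / L)) := by
      rw [hK]
      linarith
    have hx2 : C₁ * min 1 η + S ≤ K := hx1.trans (by
      have := mul_le_mul_of_nonneg_left hTl hKpos.le
      linarith)
    have hF1 : ‖F - 1‖ ≤ D₁ * (T * (Real.log L / L)) := by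
      refine hF.trans ((eulV_exp _ _ hx0 hx2).trans ?_)
      calc (C₁ * min 1 η + S) * Real.exp K ≤ K * (T * (Real.log L / L)) * Real.exp K :=
            mul_le_mul_of_nonneg_right hx1 (Real.exp_pos _).le
        _ = D₁ * (T * (Real.log L / L)) := by rw [hD₁]; ring
    constructor
    · have h1 : D₁ * (T * (Real.log L / L)) ≤ D₁ := by
        have := mul_le_mul_of_nonneg_left hTl hD₁pos.le
        linarith
      have h2 : (1 + D₁ + D₂) * 1 ≤ (1 + D₁ + D₂) * T ^ 2 :=
        mul_le_mul_of_nonneg_left hT2 (by positivity)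
      linarith
    · refine hF1.trans ?_
      have h1 : D₁ * (T * (Real.log L / L)) ≤ D₁ * (T ^ 2 * (Real.log L / L)) :=
        mul_le_mul_of_nonneg_left (mul_le_mul_of_nonneg_right hTT hlL.le) hD₁pos.le
      have h2 : D₁ * (T ^ 2 * (Real.log L / L)) ≤
          (1 + D₁ + D₂) * (T ^ 2 * (Real.log L / L)) :=
        mul_le_mul_of_nonneg_right (by linarith) (by positivity)
      have h3 : (1 + D₁ + D₂) * (T ^ 2 * (Real.log L / L)) =
          (1 + D₁ + D₂) * T ^ 2 * (Real.log L / L) := by ring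
      linarith
  · -- `T` large
    push Not at hcase
    have hTl : 1 ≤ T * (Real.log L / L) := by
      rw [← mul_div_assoc, one_le_div hLpos]
      exact hcase.le
    have hS1 : S ≤ 1 / 2 * Real.log L + C₂ * C₃ := by
      have h1 : S ≤ ∑ p ∈ r.primeFactors, C₂ * ((1 : ℝ) / p) := by
        refine sum_le_sum fun p hp => (hterm p hp).trans ?_
        have hp0 : (0 : ℝ) < p := by
          exact_mod_cast (Nat.prime_of_mem_primeFactors hp).pos
        have h2 : C₂ * min 1 (η * Real.log p) ≤ C₂ * 1 :=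
          mul_le_mul_of_nonneg_left (min_le_left _ _) hC₂.le
        calc C₂ * min 1 (η * Real.log p) / p ≤ C₂ * 1 / p :=
              div_le_div_of_nonneg_right h2 hp0.le
          _ = C₂ * (1 / p) := by ring
      rw [← mul_sum] at h1
      have h3 := mul_le_mul_of_nonneg_left (hI r L hr (by linarith) hrL.2) hC₂.le
      have h4 : C₂ * (1 / (2 * C₂) * Real.log L + C₃) = 1 / 2 * Real.log L + C₂ * C₃ := by
        field_simp
      linarith
    have hmin : C₁ * min 1 η ≤ C₁ := by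
      have := mul_le_mul_of_nonneg_left (min_le_left 1 η) hC₁.le
      linarith
    have hF1 : ‖F - 1‖ ≤ D₂ * T := by
      have h1 : Real.exp (C₁ * min 1 η + S) ≤
          Real.exp (C₁ + C₂ * C₃) * Real.exp (1 / 2 * Real.log L) := by
        rw [← Real.exp_add]
        exact Real.exp_le_exp.2 (by linarith)
      have h2 : Real.exp (1 / 2 * Real.log L) ≤ T := by
        -- `exp (log L / 2) = √L ≤ L / log L < T`
        have h3 : Real.exp (1 / 2 * Real.log L) ^ 2 = L := by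
          rw [← Real.exp_nat_mul]
          have : ((2 : ℕ) : ℝ) * (1 / 2 * Real.log L) = Real.log L := by push_cast; ring
          rw [this, Real.exp_log hLpos]
        have h4 : Real.log L ≤ Real.exp (1 / 2 * Real.log L) := by
          refine abs_le_of_sq_le_sq' ?_ (Real.exp_pos _).le |>.2
          rw [h3]
          exact hlsq
        have h5 : 0 < Real.exp (1 / 2 * Real.log L) := Real.exp_pos _
        by_contra hcon
        push Not at hcon
        have h6 : T * Real.log L ≤ T * Real.exp (1 / 2 * Real.log L) :=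
          mul_le_mul_of_nonneg_left h4 (by linarith)
        have h7 : T * Real.exp (1 / 2 * Real.log L) <
            Real.exp (1 / 2 * Real.log L) * Real.exp (1 / 2 * Real.log L) :=
          mul_lt_mul_of_pos_right hcon h5
        rw [← sq, h3] at h7
        linarith
      calc ‖F - 1‖ ≤ Real.exp (C₁ * min 1 η + S) := by linarith
        _ ≤ D₂ * Real.exp (1 / 2 * Real.log L) := h1
        _ ≤ D₂ * T := mul_le_mul_of_nonneg_left h2 hD₂pos.le
    constructor
    · have h1 : D₂ * T ≤ D₂ * T ^ 2 := mul_le_mul_of_nonneg_left hTT hD₂pos.le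
      have h2 : 0 ≤ D₁ * T ^ 2 := by positivity
      have h3 : (1 + D₁ + D₂) * T ^ 2 = T ^ 2 + D₁ * T ^ 2 + D₂ * T ^ 2 := by ring
      linarith
    · refine hF1.trans ?_
      have h1 : D₂ * T * 1 ≤ D₂ * T * (T * (Real.log L / L)) :=
        mul_le_mul_of_nonneg_left hTl (by positivity)
      have h2 : D₂ * (T ^ 2 * (Real.log L / L)) ≤
          (1 + D₁ + D₂) * (T ^ 2 * (Real.log L / L)) :=
        mul_le_mul_of_nonneg_right (by linarith) (by positivity)
      have h3 : (1 + D₁ + D₂) * (T ^ 2 * (Real.log L / L)) =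
          (1 + D₁ + D₂) * T ^ 2 * (Real.log L / L) := by ring
      have h4 : D₂ * T * (T * (Real.log L / L)) = D₂ * (T ^ 2 * (Real.log L / L)) := by ring
      linarith

end Pool.Agent.MP0016c7.Rz
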