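import Mathlib
import Pool.Agent.Lib.MP_0016c7_nt.PS.Defs
import Pool.Agent.Lib.MP_0016c7_nt.PS.GavS
import Pool.Agent.Lib.MP_0016c7_nt.PS.DyS
import Pool.Agent.Lib.MP_0016c7_nt.Rz.Gen2

set_option autoImplicit false

/-!
The bound for the number of discriminants with a zero, sequences of families.
-/

open Finset MeasureTheory Filter Topology
open scoped Real ContDiff

namespace Pool.Agent.MP0016c7.Rz

private lemma h_Hid_eq {θ₀ x : ℝ} (h : 0 < θ₀) : Hid θ₀ x =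
    (θ₀ - min (max x 0) θ₀) / 2 + (θ₀ ^ 2 - (min (max x 0) θ₀) ^ 2) / 2 := by
  unfold Hid
  split_ifs with h1
  · rw [min_eq_right (h1.trans (le_max_left _ _))]
    ring
  · push Not at h1
    rw [min_eq_left (max_le h1.le h.le)]

private lemma h_Hid_nonneg {θ₀ x : ℝ} (h : 0 < θ₀) : 0 ≤ Hid θ₀ x := by
  rw [h_Hid_eq h]
  have h1 : 0 ≤ min (max x 0) θ₀ := le_min (le_max_right _ _) h.le
  have h2 : min (max x 0) θ₀ ≤ θ₀ := min_le_right _ _
  nlinarith only [h2, h, h1]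

private lemma h_Hid_zero_pos {θ₀ : ℝ} (h : 0 < θ₀) : 0 < Hid θ₀ 0 := by
  unfold Hid
  rw [if_neg (by linarith)]
  simp
  positivity

private lemma h_ii {V : ℝ} (hV : 0 ≤ V) {f : ℝ → ℝ} (hf : ContinuousOn f (Set.Icc 0 V)) :
    IntervalIntegrable f volume 0 V := hf.intervalIntegrable_of_Icc hV

/-- Cauchy-Schwarz -/
private lemma h_cs {V : ℝ} (hV : 0 < V) {f : ℝ → ℝ} (hf : ContinuousOn f (Set.Icc 0 V)) :
    (∫ v in (0 : ℝ)..V, f v) ^ 2 ≤ V * ∫ v in (0 : ℝ)..V, f v ^ 2 := by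
  set J := ∫ v in (0 : ℝ)..V, f v with hJ
  have h0 : 0 ≤ ∫ v in (0 : ℝ)..V, (V * f v - J) ^ 2 :=
    intervalIntegral.integral_nonneg hV.le (fun u _ => sq_nonneg _)
  have h1 : ∫ v in (0 : ℝ)..V, (V * f v - J) ^ 2 =
      V ^ 2 * (∫ v in (0 : ℝ)..V, f v ^ 2) - 2 * V * J * J + V * J ^ 2 := by
    have e : ∀ u, (V * f u - J) ^ 2 = V ^ 2 * f u ^ 2 - 2 * V * J * f u + J ^ 2 := fun u => by ring
    simp_rw [e]
    have i1 : IntervalIntegrable (fun u => V ^ 2 * f u ^ 2) volume 0 V :=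
      h_ii hV.le (continuousOn_const.mul (hf.pow 2))
    have i2 : IntervalIntegrable (fun u => 2 * V * J * f u) volume 0 V :=
      h_ii hV.le (continuousOn_const.mul hf)
    rw [intervalIntegral.integral_add (i1.sub i2) intervalIntegrable_const,
      intervalIntegral.integral_sub i1 i2,
      intervalIntegral.integral_const_mul, intervalIntegral.integral_const_mul,
      intervalIntegral.integral_const, ← hJ]
    simp only [smul_eq_mul]
    ring
  rw [h1] at h0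
  have h2 : 0 ≤ V * (V * (∫ v in (0 : ℝ)..V, f v ^ 2) - J ^ 2) := by nlinarith only [h0]
  have := nonneg_of_mul_nonneg_right h2 hV
  linarith

private lemma h_qu_nonneg {V g₀ : ℝ} (hV : 0 < V) (hg : 0 < g₀) {w u f : ℝ → ℝ}
    (hwp : ∀ v, 0 < w v) : 0 ≤ qu w u g₀ V f := by
  unfold qu
  have h1 : 0 ≤ ∫ v in (0 : ℝ)..V, w v * f v ^ 2 := by
    refine intervalIntegral.integral_nonneg hV.le fun v _ => ?_
    have := hwp v
    positivity
  positivity

private lemma h_qu_add {V g₀ η : ℝ} (hV : 0 < V) (hg : 0 < g₀) (hη : 0 < η) {w u f g : ℝ → ℝ}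
    (hw : Continuous w) (hwp : ∀ v, 0 < w v) (hu : Continuous u)
    (hf : ContinuousOn f (Set.Icc 0 V)) (hg' : ContinuousOn g (Set.Icc 0 V)) :
    qu w u g₀ V (fun v => f v + g v) ≤ (1 + η) * qu w u g₀ V f + (1 + 1 / η) * qu w u g₀ V g := by
  have pt : ∀ x y : ℝ, (x + y) ^ 2 ≤ (1 + η) * x ^ 2 + (1 + 1 / η) * y ^ 2 := by
    intro x y
    have h1 : 0 ≤ (η * x - y) ^ 2 / η := by positivity
    have h2 : (1 + η) * x ^ 2 + (1 + 1 / η) * y ^ 2 - (x + y) ^ 2 = (η * x - y) ^ 2 / η := by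
      field_simp
      ring
    linarith only [h1, h2]
  have hwc := hw.continuousOn (s := Set.Icc 0 V)
  have huc := hu.continuousOn (s := Set.Icc 0 V)
  have i1 : IntervalIntegrable (fun v => w v * f v ^ 2) volume 0 V := h_ii hV.le (hwc.mul (hf.pow 2))
  have i2 : IntervalIntegrable (fun v => w v * g v ^ 2) volume 0 V := h_ii hV.le (hwc.mul (hg'.pow 2))
  have i3 : IntervalIntegrable (fun v => u v * f v) volume 0 V := h_ii hV.le (huc.mul hf)
  have i4 : IntervalIntegrable (fun v => u v * g v) volume 0 V := h_ii hV.le (huc.mul hg')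
  have h1 : ∫ v in (0 : ℝ)..V, w v * (f v + g v) ^ 2 ≤
      (1 + η) * (∫ v in (0 : ℝ)..V, w v * f v ^ 2) +
        (1 + 1 / η) * ∫ v in (0 : ℝ)..V, w v * g v ^ 2 := by
    rw [← intervalIntegral.integral_const_mul, ← intervalIntegral.integral_const_mul,
      ← intervalIntegral.integral_add (i1.const_mul _) (i2.const_mul _)]
    refine intervalIntegral.integral_mono_on hV.le (h_ii hV.le (hwc.mul ((hf.add hg').pow 2)))
      ((i1.const_mul _).add (i2.const_mul _)) fun v _ => ?_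
    have := mul_le_mul_of_nonneg_left (pt (f v) (g v)) (hwp v).le
    linarith only [this]
  have h2 : ∫ v in (0 : ℝ)..V, u v * (f v + g v) =
      (∫ v in (0 : ℝ)..V, u v * f v) + ∫ v in (0 : ℝ)..V, u v * g v := by
    rw [← intervalIntegral.integral_add i3 i4]
    refine intervalIntegral.integral_congr fun v _ => ?_
    show u v * (f v + g v) = u v * f v + u v * g v
    ring
  unfold qu
  rw [h2]
  have h3 := mul_le_mul_of_nonneg_left
    (pt (∫ v in (0 : ℝ)..V, u v * f v) (∫ v in (0 : ℝ)..V, u v * g v)) hg.le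
  linarith only [h1, h3]

private lemma h_qu_le {V g₀ : ℝ} (hV : 0 < V) (hg : 0 < g₀) {w u : ℝ → ℝ}
    (hw : Continuous w) (hwp : ∀ v, 0 < w v) (hu : Continuous u) :
    ∃ K : ℝ, 0 < K ∧ ∀ f : ℝ → ℝ, ContinuousOn f (Set.Icc 0 V) →
      qu w u g₀ V f ≤ K * ∫ v in (0 : ℝ)..V, f v ^ 2 := by
  obtain ⟨W, hW⟩ := (isCompact_Icc (a := (0 : ℝ)) (b := V)).exists_bound_of_continuousOn
    hw.continuousOn
  have hW0 : 0 ≤ W := (norm_nonneg _).trans (hW 0 ⟨le_rfl, hV.le⟩)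
  obtain ⟨U, hU⟩ := (isCompact_Icc (a := (0 : ℝ)) (b := V)).exists_bound_of_continuousOn
    hu.continuousOn
  have hU0 : 0 ≤ U := (norm_nonneg _).trans (hU 0 ⟨le_rfl, hV.le⟩)
  refine ⟨W + g₀ * (V * U ^ 2) + 1, by positivity, fun f hf => ?_⟩
  have hnn : 0 ≤ ∫ v in (0 : ℝ)..V, f v ^ 2 :=
    intervalIntegral.integral_nonneg hV.le fun v _ => sq_nonneg _
  have h1 : ∫ v in (0 : ℝ)..V, w v * f v ^ 2 ≤ W * ∫ v in (0 : ℝ)..V, f v ^ 2 := by
    rw [← intervalIntegral.integral_const_mul]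
    refine intervalIntegral.integral_mono_on hV.le (h_ii hV.le (hw.continuousOn.mul (hf.pow 2)))
      (h_ii hV.le (continuousOn_const.mul (hf.pow 2))) fun v hv => ?_
    have h2 := hW v hv
    rw [Real.norm_eq_abs] at h2
    exact mul_le_mul_of_nonneg_right ((le_abs_self _).trans h2) (sq_nonneg _)
  have h2 : (∫ v in (0 : ℝ)..V, u v * f v) ^ 2 ≤ V * U ^ 2 * ∫ v in (0 : ℝ)..V, f v ^ 2 := by
    have huf : ContinuousOn (fun v => u v * f v) (Set.Icc 0 V) := hu.continuousOn.mul hf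
    refine (h_cs hV huf).trans ?_
    rw [mul_assoc]
    refine mul_le_mul_of_nonneg_left ?_ hV.le
    rw [← intervalIntegral.integral_const_mul]
    refine intervalIntegral.integral_mono_on hV.le (h_ii hV.le (huf.pow 2))
      (h_ii hV.le (continuousOn_const.mul (hf.pow 2))) fun v hv => ?_
    have h3 := hU v hv
    rw [Real.norm_eq_abs] at h3
    have h4 : u v ^ 2 ≤ U ^ 2 := by
      rw [← sq_abs (u v)]
      exact pow_le_pow_left₀ (abs_nonneg _) h3 2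
    calc (u v * f v) ^ 2 = u v ^ 2 * f v ^ 2 := by ring
      _ ≤ U ^ 2 * f v ^ 2 := mul_le_mul_of_nonneg_right h4 (sq_nonneg _)
  unfold qu
  have h3 := mul_le_mul_of_nonneg_left h2 hg.le
  nlinarith only [hnn, h1, h3]

private lemma h_mm_cont {V : ℝ} (hV : 0 < V) {u : ℝ → ℝ} (hu : Continuous u) :
    ContinuousOn (fun v : ℝ => ∫ v' in (0 : ℝ)..V, u v' * min (V - v) (V - v')) (Set.Icc 0 V) := by
  obtain ⟨U, hU⟩ := (isCompact_Icc (a := (0 : ℝ)) (b := V)).exists_bound_of_continuousOn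
    hu.continuousOn
  have hU0 : 0 ≤ U := (norm_nonneg _).trans (hU 0 ⟨le_rfl, hV.le⟩)
  refine Continuous.continuousOn ?_
  have hmc : ∀ v : ℝ, Continuous fun v' : ℝ => u v' * min (V - v) (V - v') := fun v => by fun_prop
  have hlip : ∀ v₁ v₂ : ℝ, |(∫ v' in (0 : ℝ)..V, u v' * min (V - v₁) (V - v')) -
      ∫ v' in (0 : ℝ)..V, u v' * min (V - v₂) (V - v')| ≤ V * (U * |v₁ - v₂|) := by
    intro v₁ v₂
    rw [← intervalIntegral.integral_sub ((hmc v₁).intervalIntegrable _ _)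
      ((hmc v₂).intervalIntegrable _ _)]
    have h1 := intervalIntegral.norm_integral_le_of_norm_le_const (a := 0) (b := V)
      (C := U * |v₁ - v₂|)
      (f := fun v' => u v' * min (V - v₁) (V - v') - u v' * min (V - v₂) (V - v')) fun v' hv' => by
        rw [Set.uIoc_of_le hV.le] at hv'
        rw [Real.norm_eq_abs, ← mul_sub, abs_mul]
        have h3 := hU v' ⟨hv'.1.le, hv'.2⟩
        rw [Real.norm_eq_abs] at h3
        refine mul_le_mul h3 ?_ (abs_nonneg _) hU0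
        have h4 := abs_min_sub_min_le_max (V - v₁) (V - v') (V - v₂) (V - v')
        rw [sub_self, abs_zero] at h4
        refine h4.trans (max_le ?_ (abs_nonneg _))
        rw [show V - v₁ - (V - v₂) = -(v₁ - v₂) by ring, abs_neg]
    rw [Real.norm_eq_abs, sub_zero, abs_of_nonneg hV.le] at h1
    linarith
  refine (LipschitzWith.of_dist_le_mul (K := ⟨V * U, by positivity⟩) fun v₁ v₂ => ?_).continuous
  rw [Real.dist_eq, Real.dist_eq]
  refine (hlip v₁ v₂).trans (le_of_eq ?_)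
  show V * (U * |v₁ - v₂|) = (V * U) * |v₁ - v₂|
  ring

private lemma h_mm_nonneg {V : ℝ} (hV : 0 < V) {u : ℝ → ℝ}
    (hup : ∀ v ∈ Set.Icc 0 V, 0 ≤ u v) :
    0 ≤ ∫ v in (0 : ℝ)..V, u v * ∫ v' in (0 : ℝ)..V, u v' * min (V - v) (V - v') := by
  refine intervalIntegral.integral_nonneg hV.le fun v hv => ?_
  refine mul_nonneg (hup v hv) (intervalIntegral.integral_nonneg hV.le fun v' hv' => ?_)
  exact mul_nonneg (hup v' hv') (le_min (by linarith [hv.2]) (by linarith [hv'.2]))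

private lemma h_qbu_mono {w u : ℝ → ℝ} {g₀ V s s' : ℝ} {e : ℝ → ℝ} (hV : 0 < V) (hg : 0 < g₀)
    (hw : Continuous w) (hwp : ∀ v, 0 < w v) (he : Continuous e)
    (hup : ∀ v ∈ Set.Icc 0 V, 0 ≤ u v)
    (hs : s ≤ s') : qbu w u g₀ V s e ≤ qbu w u g₀ V s' e := by
  unfold qbu
  have hi : ∀ t : ℝ, IntervalIntegrable (fun v => w v * (t * (V - v) + e v ^ 2)) volume 0 V :=
    fun t => Continuous.intervalIntegrable (by fun_prop) _ _
  have h1 : ∫ v in (0 : ℝ)..V, w v * (s * (V - v) + e v ^ 2) ≤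
      ∫ v in (0 : ℝ)..V, w v * (s' * (V - v) + e v ^ 2) := by
    refine intervalIntegral.integral_mono_on hV.le (hi s) (hi s') ?_
    intro v hv
    have h3 : s * (V - v) ≤ s' * (V - v) := mul_le_mul_of_nonneg_right hs (by linarith [hv.2])
    have h4 : s * (V - v) + e v ^ 2 ≤ s' * (V - v) + e v ^ 2 := by linarith
    exact mul_le_mul_of_nonneg_left h4 (hwp v).le
  have h5 := mul_le_mul_of_nonneg_right hs (h_mm_nonneg hV hup)
  have h6 := mul_le_mul_of_nonneg_left (add_le_add_left h5 ((∫ v in (0 : ℝ)..V, u v * e v) ^ 2)) hg.le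
  linarith

private lemma h_qbu_nonneg {w u : ℝ → ℝ} {g₀ V s : ℝ} {e : ℝ → ℝ} (hV : 0 < V) (hg : 0 < g₀)
    (hwp : ∀ v, 0 < w v) (hup : ∀ v ∈ Set.Icc 0 V, 0 ≤ u v) (hs : 0 ≤ s) :
    0 ≤ qbu w u g₀ V s e := by
  unfold qbu
  have h1 : 0 ≤ ∫ v in (0 : ℝ)..V, w v * (s * (V - v) + e v ^ 2) := by
    refine intervalIntegral.integral_nonneg hV.le ?_
    intro v hv
    have h2 := hwp v
    have h3 : 0 ≤ s * (V - v) := mul_nonneg hs (by linarith [hv.2])
    positivity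
  have h2 := mul_nonneg hs (h_mm_nonneg hV hup)
  positivity

private lemma h_PP_ge {θ₀ V : ℝ} {y : ℝ → ℝ} (h : 0 < θ₀) (hV : 0 < V) (hy : Continuous y)
    (hyp : ∀ v ∈ Set.Icc 0 V, Hid θ₀ 0 ≤ y v) (a : ℝ) :
    Hid θ₀ 0 * V ≤ PP2 θ₀ V y a := by
  unfold PP2
  have h1 : 0 ≤ ∫ v in V..(V + θ₀), Real.cosh (a * v) * Hid θ₀ (v - V) := by
    refine intervalIntegral.integral_nonneg (by linarith) ?_
    intro v _
    exact mul_nonneg (Real.cosh_pos _).le (h_Hid_nonneg h)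
  have h2 : ∫ v in (0 : ℝ)..V, Hid θ₀ 0 ≤ ∫ v in (0 : ℝ)..V, Real.cosh (a * v) * y v := by
    refine intervalIntegral.integral_mono_on hV.le (by simp) ?_ ?_
    · exact (Continuous.intervalIntegrable (by fun_prop) _ _)
    · intro v hv
      have h3 := hyp v hv
      have h4 := Real.one_le_cosh (a * v)
      have h5 := h_Hid_zero_pos h
      nlinarith only [h3, h4, h5]
  rw [intervalIntegral.integral_const, smul_eq_mul] at h2
  linarith

private lemma h_key {P ε μ P0 S q : ℝ} (hμ : 0 < μ) (hP0 : 0 < P0) (hP : P0 ≤ P)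
    (hε : ε = μ / (4 * (1 + μ)) * (P0 / (1 + P0))) (hS : (1 - ε) * P - ε ≤ S)
    (hK : (1 + μ) * S ^ 2 ≤ q * P ^ 2) : 1 ≤ q := by
  set η : ℝ := μ / (4 * (1 + μ)) with hη
  have hη0 : 0 < η := by positivity
  have hη1 : η < 1 / 4 := by
    rw [hη, div_lt_iff₀ (by positivity)]
    linarith
  have h1 : ε * (1 + P0) = η * P0 := by
    rw [hε]
    field_simp
  have hε0 : 0 < ε := by rw [hε]; positivity
  have h2 : (1 - η) * P ≤ S := by
    refine le_trans ?_ hS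
    have h3 : ε * (1 + P0) * (P / P0) = η * P := by
      rw [h1]
      field_simp
    have h4 : 1 ≤ P / P0 := by rw [le_div_iff₀ hP0]; linarith
    have h5 : ε * (1 + P0) * (P / P0) = ε * (P / P0) + ε * P := by field_simp
    nlinarith only [h1, h5, hP0, h3, hP, hη0]
  have hPpos : 0 < P := hP0.trans_le hP
  have h6 : (1 - 2 * η) * P ^ 2 ≤ S ^ 2 := by
    have h7 : 0 ≤ (1 - η) * P := by nlinarith only [hP, h1, hε0, hP0, hη1]
    have h8 : ((1 - η) * P) ^ 2 ≤ S ^ 2 := by gcongr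
    nlinarith only [h8, sq_nonneg (η * P)]
  have h9 : (1 - 2 * η) * (1 + μ) = 1 + μ / 2 := by
    rw [hη]
    field_simp
    ring
  have h10 : 1 * P ^ 2 ≤ q * P ^ 2 := by
    calc 1 * P ^ 2 ≤ (1 + μ / 2) * P ^ 2 := by
          have := sq_nonneg P
          nlinarith only [hμ]
      _ = (1 + μ) * ((1 - 2 * η) * P ^ 2) := by rw [← h9]; ring
      _ ≤ (1 + μ) * S ^ 2 := mul_le_mul_of_nonneg_left h6 (by linarith)
      _ ≤ _ := hK
  exact le_of_mul_le_mul_right h10 (by positivity)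

/-- the lower bound of the quadratic functional for bad discriminants -/
private lemma h_badS {Rc NZ : ℕ → ℕ → Prop} {X : ℕ → ℝ} {θ₀ δ μ E : ℝ} {w u₁ u₂ y : ℝ → ℝ}
    {g₁ g₂ : ℝ} (hC : Cert2 θ₀ δ μ E w u₁ u₂ y g₁ g₂) {τ : ℕ → ℕ → ℝ → ℝ}
    (hτc : ∀ n d, Continuous (τ n d)) (hB : BadP Rc NZ X θ₀ δ τ) :
    ∀ᶠ n in atTop, ∀ d : ℕ, X n < d → (d : ℝ) ≤ 2 * X n → Rc n d → Squarefree d → ¬ NZ n d →
      1 ≤ qu w u₁ g₁ (1 / 2 + δ) (fun v => y v - τ n d v) +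
        qu w u₂ g₂ (1 / 2 + δ) (fun v => y v - τ n d v) := by
  set V : ℝ := 1 / 2 + δ with hV
  have hV0 : 0 < V := by have := hC.hδ; positivity
  have hθ₀ := hC.hθ₀
  have hμ := hC.hμ
  set P0 : ℝ := Hid θ₀ 0 * V with hP0
  have hP0pos : 0 < P0 := mul_pos (h_Hid_zero_pos hθ₀) hV0
  set ε : ℝ := μ / (4 * (1 + μ)) * (P0 / (1 + P0)) with hε
  have hε0 : 0 < ε := by positivity
  filter_upwards [hB ε hε0] with n hn d hd1 hd2 hR hsf hbad
  obtain ⟨a, hint, hzero, hdet⟩ := hn d hd1 hd2 hR hsf hbad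
  have hcont := hτc n d
  have hy := hC.hy
  have hf : Continuous (fun v : ℝ => y v - τ n d v) := hy.sub hcont
  have hcosh : Continuous (fun v : ℝ => Real.cosh (a * v)) := by fun_prop
  have hm := hC.main a (fun v : ℝ => y v - τ n d v) hf.continuousOn
  rw [← hV] at hm
  have hsplit : (∫ v in (0 : ℝ)..V, Real.cosh (a * v) * τ n d v) +
      ∫ v in Set.Ioi V, Real.cosh (a * v) * τ n d v = 0 := by
    have hu := setIntegral_union (μ := volume)
      (f := fun v => Real.cosh (a * v) * τ n d v)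
      (Set.Ioc_disjoint_Ioi (a := (0 : ℝ)) (le_refl V)) measurableSet_Ioi
      (hint.mono_set Set.Ioc_subset_Ioi_self) (hint.mono_set (Set.Ioi_subset_Ioi hV0.le))
    rw [Set.Ioc_union_Ioi_eq_Ioi hV0.le, hzero] at hu
    rw [intervalIntegral.integral_of_le hV0.le]
    exact hu.symm
  have hlin : (∫ v in (0 : ℝ)..V, Real.cosh (a * v) * (y v - τ n d v)) =
      (∫ v in (0 : ℝ)..V, Real.cosh (a * v) * y v) -
        ∫ v in (0 : ℝ)..V, Real.cosh (a * v) * τ n d v := by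
    rw [← intervalIntegral.integral_sub]
    · congr 1
      ext v
      ring
    · exact (hcosh.mul hy).intervalIntegrable _ _
    · exact (hcosh.mul hcont).intervalIntegrable _ _
  have hBn : 0 ≤ ∫ v in (0 : ℝ)..V, Real.cosh (a * v) * y v := by
    refine intervalIntegral.integral_nonneg hV0.le ?_
    intro v hv
    exact mul_nonneg (Real.cosh_pos _).le ((h_Hid_zero_pos hθ₀).le.trans (hC.hyp v hv))
  have hT : (∫ v in Set.Ioc V (V + θ₀), Real.cosh (a * v) * Hid θ₀ (v - V)) =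
      ∫ v in V..(V + θ₀), Real.cosh (a * v) * Hid θ₀ (v - V) := by
    rw [intervalIntegral.integral_of_le (by linarith)]
  rw [← hV, hT] at hdet
  refine h_key (P := PP2 θ₀ V y a) hμ hP0pos (h_PP_ge hθ₀ hV0 hy hC.hyp a) hε ?_ hm
  rw [hlin]
  unfold PP2
  nlinarith only [hdet, hsplit, hε0, hBn]

private lemma h_avS_eq (Rc : ℕ → Prop) (D : ℝ) (F : ℝ → ℝ) (X : ℝ) (g : ℕ → ℝ) :
    avS Rc D F X g = avR Rc D F 1 X g := by
  unfold avS avR
  simp

private lemma h_avS_add {Rc : ℕ → Prop} {D : ℝ} {F : ℝ → ℝ} {a b : ℝ} (hF : Bump F a b)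
    {X : ℝ} (hX : 0 < X) (f g : ℕ → ℝ) :
    avS Rc D F X (fun d => f d + g d) = avS Rc D F X f + avS Rc D F X g := by
  obtain ⟨N, cf, hN⟩ := avR_fin (R := Rc) (D := D) hF one_pos hX
  rw [h_avS_eq, h_avS_eq, h_avS_eq, hN, hN, hN, ← Finset.sum_add_distrib]
  exact Finset.sum_congr rfl fun d _ => by ring

theorem fam_boundS {Rc NZ : ℕ → ℕ → Prop} {D X : ℕ → ℝ} {θ₀ δ μ E : ℝ} {w u₁ u₂ y : ℝ → ℝ}
    {g₁ g₂ : ℝ} (hC : Cert2 θ₀ δ μ E w u₁ u₂ y g₁ g₂) (hf : FamS Rc NZ D X θ₀ δ) (E' : ℝ)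
    (hE' : E < E') :
    ∀ᶠ n in atTop,
      D n / 2 * X n ≤
        (Nat.card {d : ℕ | X n < d ∧ (d : ℝ) ≤ 2 * X n ∧ Rc n d ∧ Squarefree d} : ℝ) ∧
      (Nat.card {d : ℕ | X n < d ∧ (d : ℝ) ≤ 2 * X n ∧ Rc n d ∧ Squarefree d ∧ ¬ NZ n d} : ℝ) ≤
        E' * (Nat.card {d : ℕ | X n < d ∧ (d : ℝ) ≤ 2 * X n ∧ Rc n d ∧ Squarefree d} : ℝ) := by
  have hθ₀ := hC.hθ₀
  have hδ := hC.hδ
  have hδ' := hC.hδ'
  obtain ⟨h, hh, hhn, hh0, hL2, hHle⟩ := exists_h θ₀ δ hθ₀ hδ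
  obtain ⟨ρ, hρ, hρn, hρe, hρ1⟩ := exists_rho δ hδ
  have hHpos : 0 < HH h 0 := by rw [hh0]; exact h_Hid_zero_pos hθ₀
  obtain ⟨T, τ, hTc, hτc, hM1, hM2, hPer, hBad⟩ :=
    hf.data ρ h hρ hρn hρe hρ1 hh hhn hHpos hHle
  set V : ℝ := 1 / 2 + δ with hV
  have hV0 : 0 < V := by positivity
  have hw := hC.hw
  have hwp := hC.hwp
  have hy := hC.hy
  have hup1 := hC.hu₁p
  have hup2 := hC.hu₂p
  rw [← hV] at hup1 hup2
  set s2 : ℝ := ((θ₀ + 1 / 2) ^ 3 - 1 / 8) / 3 with hs2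
  have hs2n : 0 ≤ s2 := by
    rw [hs2]
    have : 0 ≤ (θ₀ + 1 / 2) ^ 3 - 1 / 8 := by nlinarith only [hθ₀, sq_nonneg θ₀, pow_pos hθ₀ 3]
    positivity
  have hen := hC.en
  rw [← hV, ← hs2] at hen
  have hE0 : 0 ≤ E := by
    have h1 := h_qbu_nonneg (e := fun v => y v - Hid θ₀ 0) hV0 hC.hg₁ hwp hup1 hs2n
    have h2 := h_qbu_nonneg (e := fun v => y v - Hid θ₀ 0) hV0 hC.hg₂ hwp hup2 hs2n
    linarith
  have hec : Continuous (fun v : ℝ => y v - Hid θ₀ 0) := by fun_prop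
  refine dyadicS hf.one hf.hD hE0 hE'
    (fun n d => qu w u₁ g₁ V (fun v => y v - T n d (1 / 2 - v)) +
      qu w u₂ g₂ V (fun v => y v - T n d (1 / 2 - v)))
    (fun n d => qu w u₁ g₁ V (fun v => T n d (1 / 2 - v) - τ n d v) +
      qu w u₂ g₂ V (fun v => T n d (1 / 2 - v) - τ n d v)) ?_ ?_ hf.dens hf.sqf ?_ ?_
  · intro n d
    exact add_nonneg (h_qu_nonneg hV0 hC.hg₁ hwp) (h_qu_nonneg hV0 hC.hg₂ hwp)
  · intro F hF hFn hF0 ε hε
    obtain ⟨Es₁, hEs₁, hl₁⟩ := gavgS hδ (by linarith) hf.one hf.dens hF hFn hF0 hρ hρn hρ1 hh hTc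
      hM1 hM2 (w := w) (u := u₁) hC.hg₁ hw.continuousOn (fun v _ => hwp v) hC.hu₁.continuousOn
      hC.hu₁p (y := y) hy.continuousOn
    obtain ⟨Es₂, hEs₂, hl₂⟩ := gavgS hδ (by linarith only [hδ, hδ']) hf.one hf.dens hF hFn hF0 hρ
      hρn hρ1 hh hTc hM1 hM2 (w := w) (u := u₂) hC.hg₂ hw.continuousOn (fun v _ => hwp v)
      hC.hu₂.continuousOn hC.hu₂p (y := y) hy.continuousOn
    rw [hh0, ← hV] at hEs₁ hEs₂
    have hEs : Es₁ + Es₂ ≤ E := by
      have h1 := h_qbu_mono (u := u₁) hV0 hC.hg₁ hw hwp hec hup1 hL2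
      have h2 := h_qbu_mono (u := u₂) hV0 hC.hg₂ hw hwp hec hup2 hL2
      linarith
    have hlim := hl₁.add hl₂
    rw [← mul_add] at hlim
    have hle : (∫ t, F t) * (Es₁ + Es₂) < (∫ t, F t) * E + ε := by
      have := mul_le_mul_of_nonneg_left hEs hF0.le
      linarith
    filter_upwards [hlim.eventually (gt_mem_nhds hle)] with n hn
    have hXn : 0 < X n := one_pos.trans (hf.one n)
    have e := h_avS_add (Rc := Rc n) (D := D n) hF hXn
      (fun d => qu w u₁ g₁ V (fun v => y v - T n d (1 / 2 - v)))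
      (fun d => qu w u₂ g₂ V (fun v => y v - T n d (1 / 2 - v)))
    exact (le_of_eq e).trans hn.le
  · obtain ⟨K₁, hK₁, hq₁⟩ := h_qu_le hV0 hC.hg₁ hw hwp hC.hu₁
    obtain ⟨K₂, hK₂, hq₂⟩ := h_qu_le hV0 hC.hg₂ hw hwp hC.hu₂
    intro ε hε
    filter_upwards [hPer (ε / (K₁ + K₂)) (by positivity)] with n hn S hS
    have h1 := hn S hS
    rw [← hV] at h1
    have hfc : ∀ d, ContinuousOn (fun v => T n d (1 / 2 - v) - τ n d v) (Set.Icc 0 V) := fun d =>
      (((hTc n d).comp (continuous_const.sub continuous_id)).sub (hτc n d)).continuousOn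
    calc ∑ d ∈ S, (qu w u₁ g₁ V (fun v => T n d (1 / 2 - v) - τ n d v) +
          qu w u₂ g₂ V (fun v => T n d (1 / 2 - v) - τ n d v))
        ≤ ∑ d ∈ S, (K₁ + K₂) * ∫ v in (0 : ℝ)..V, (T n d (1 / 2 - v) - τ n d v) ^ 2 := by
          refine Finset.sum_le_sum fun d _ => ?_
          have h2 := hq₁ _ (hfc d)
          have h3 := hq₂ _ (hfc d)
          linarith only [h2, h3]
      _ = (K₁ + K₂) * ∑ d ∈ S, ∫ v in (0 : ℝ)..V, (T n d (1 / 2 - v) - τ n d v) ^ 2 := by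
          rw [Finset.mul_sum]
      _ ≤ (K₁ + K₂) * (ε / (K₁ + K₂) * (D n * X n)) := mul_le_mul_of_nonneg_left h1 (by positivity)
      _ = ε * (D n * X n) := by field_simp
  · intro η hη
    filter_upwards [h_badS hC hτc hBad] with n hn d k1 k2 k3 k4 k5
    have h1 := hn d k1 k2 k3 k4 k5
    rw [← hV] at h1
    have c1 : ContinuousOn (fun v => y v - T n d (1 / 2 - v)) (Set.Icc 0 V) :=
      (hy.sub ((hTc n d).comp (continuous_const.sub continuous_id))).continuousOn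
    have c2 : ContinuousOn (fun v => T n d (1 / 2 - v) - τ n d v) (Set.Icc 0 V) :=
      (((hTc n d).comp (continuous_const.sub continuous_id)).sub (hτc n d)).continuousOn
    have e : (fun v => y v - T n d (1 / 2 - v) + (T n d (1 / 2 - v) - τ n d v)) =
        fun v => y v - τ n d v := by
      funext v
      ring
    have h2 := h_qu_add hV0 hC.hg₁ hη hw hwp hC.hu₁ c1 c2
    have h3 := h_qu_add hV0 hC.hg₂ hη hw hwp hC.hu₂ c1 c2
    rw [e] at h2 h3
    linarith only [h1, h2, h3]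

end Pool.Agent.MP0016c7.Rz
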