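import Mathlib
import Pool.Agent.Lib.MP_0016c7_nt.PS.Defs
import Pool.Agent.Lib.MP_0016c7_nt.Theta
import Pool.Agent.Lib.MP_0016c7_nt.Rz.DefsE
import Pool.Agent.Lib.MP_0016c7_nt.Rz2.QDefs
import Pool.Agent.Lib.MP_0016c7_nt.Rz2.QlsH

set_option autoImplicit false

/-!
Prescribed splitting: the STATEMENTS of the pieces as propositions `D_x`, with proofs in words.
The piece `x` is the theorem `p_x (dependencies) : D_x` in the file `PS/P_x.lean`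
(`import ...PS.Stm`, plus the existing `Rz`, `Rz2` files it needs). Dependencies are hypotheses.
-/

open Finset MeasureTheory Filter Topology
open scoped Real ContDiff

namespace Pool.Agent.MP0016c7.Rz

/-! ## F1. Poisson summation with divisibility -/

/-- [PS poi2] `theorem p_poi2  : D_poi2`.
Poisson summation over odd multiples of `q`. Write `d = q d₁`, `d₁` odd; `jr (2 σ q d₁) N = jr q N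
* jr (2 σ d₁) N` (`jacobiSym.mul_left`). Apply `poisson_odd` (Rz/Poisson2) to `d₁` with the height
`Y / q`. Then use `jr q N * gg k N = gg (q k) N` for `(q, N) = 1` [from the definition of `gg`:
`sq2 N` and `q` are coprime, so `sq2 N ^ 2 ∣ k e ↔ sq2 N ^ 2 ∣ q k e`; `jr (q k e² / b²) (sq1 N) =
jr q (sq1 N) * jr (k e² / b²) (sq1 N)`; `jr q N = jr q (sq1 N)` since `N = sq1 N * (sq2 N)²`
(`sq1_mul_sq2`)], and re-index `k' = q k` (`Function.Injective.tsum_eq`, support in the multiples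
of `q`); `(-1) ^ |k| = (-1) ^ |q k|` (`q` odd), `k (Y / q) / (2 N) = (q k) (Y / q²) / (2 N)`.
Please state the lemma `jr q N * gg k N = gg (q k) N` as a public theorem `gg_twist` in this file
(piece poi8 needs it too; name it `gg_twist8` there or import this file if it is already on main). -/
def D_poi2 : Prop :=
  ∀ (F : ℝ → ℝ) (a b : ℝ) (ha : 0 < a) (hF : Bump F a b) (σ : ℤ)
    (hσ : σ = 1 ∨ σ = -1) (q N : ℕ) (hq : Odd q) (hN : Odd N) (hqN : Nat.Coprime q N)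
    (Y : ℝ) (hY : 0 < Y),
  ∑' d : ℕ, (if Odd d ∧ q ∣ d then F (d / Y) * jr (2 * σ * d) N else 0) =
      Y / (2 * q) * ∑' k : ℤ, (if (q : ℤ) ∣ k then
        (-1 : ℝ) ^ k.natAbs * gg k N * Ft F σ ((k : ℝ) * (Y / (q : ℝ) ^ 2) / (2 * N)) else 0)

/-- [PS poi8] `theorem p_poi8  : D_poi8`.
Poisson summation over the multiples of `q` in a class modulo `8`. Write `d = q d₁`; `(σ q d₁) % 8
= c ↔ (σ d₁) % 8 = (c q) % 8` (`q² ≡ 1` modulo `8`). Apply `poisson8c` (Rz2/Pois8c) with the class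
`(c q) % 8` and the height `Y / q`; `jr (σ q d₁) N = jr q N * jr (σ d₁) N`, `jr q N * gg k N = gg
(q k) N` for `(q, N) = 1` (see piece poi2), re-index `k' = q k`; `t8 ((c q % 8) k) = t8 (c (q k))`
and `t4 (c q % 8) k = t4 c (q k)` (both depend only on residues modulo `8`; `k % 4 = 2 ↔ (q k) % 4
= 2`), `k (Y / q) / (8 N) = (q k) (Y / q²) / (8 N)`. -/
def D_poi8 : Prop :=
  ∀ (F : ℝ → ℝ) (a b : ℝ) (ha : 0 < a) (hF : Bump F a b) (σ : ℤ)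
    (hσ : σ = 1 ∨ σ = -1) (q N : ℕ) (hq : Odd q) (hN : Odd N) (hqN : Nat.Coprime q N) (c : ℤ)
    (hc : c % 8 = c) (hc2 : c % 2 = 1) (Y : ℝ) (hY : 0 < Y),
  ∑' d : ℕ, (if (σ * d) % 8 = c ∧ q ∣ d then F (d / Y) * jr (σ * d) N else 0) =
      Y / (8 * q) * ∑' k : ℤ, (if (q : ℤ) ∣ k then gg k N *
        (√2 * t8 (c * k) * Ft F σ ((k : ℝ) * (Y / (q : ℝ) ^ 2) / (8 * N)) +
        t4 c k * Ft F σ ((k : ℝ) * (Y / (q : ℝ) ^ 2) / (4 * N)) +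
        Ft F σ ((k : ℝ) * (Y / (q : ℝ) ^ 2) / N)) else 0)

/-- [PS split] `theorem p_split (h2 : D_poi2) (h8 : D_poi8) : D_split`.
Decomposition of the sum over the multiples of `q = R f` in a class: port of Rz2/PSplit
(`psplit8`) and Rz2/PRs (`PR_split`) with divisibility. `sy σ 1 d = jr (2 σ d)`, `sy σ 2 d = jr (4
σ d) = jr (σ d)` (as `jr_fourS` in Rz2/VanS). Poisson: `D_poi2` if `m = 2` (then `RU` is `Odd d`: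
`2 σ d` is never a square), `D_poi8` if `m = 8`. In the sum over `k`, `q ∣ k`: the nonsquares are
the four `NSc` terms (coefficients `c₁ = √2 t8 (c k)`, `c₂ = t4 c k`, `c₃ = 1`, `c₄ = 0` if `m =
8`; `c₁ = c₂ = c₃ = 0`, `c₄ = (-1) ^ |k|` if `m = 2`). The squares `k = j²`: `R f ∣ j² ↔ R ∣ j`
(`R` squarefree, `f ∣ R`), `j = R i`, `gg ((R i)²) N = gg (i²) N` for `(R, N) = 1` (all other
entries likewise: `(-1)^(R i) = (-1)^i`, `t8 (c R² i²) = t8 (c i²)`, `t4 c (R² i²) = t4 c (i²)` as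
`R² ≡ 1` modulo `8`), and the frequency is `R² i² Y / (R f)² = i² Y / f²`: exactly the main part
of `psplit8` / `poisson_split` at the height `Y / f²`: `MM F σ (Y/f²) N` for `κ = 8`; `√2 ε (AR
(Y/f²/4) - AR (Y/f²)) + AR (Y/f²/2)` for `c = 1, 5`; for `c = 3, 7`: `t8 (c j²) = 0`, `t4 c (j²) =
-1` (`j` odd), `0` (`j` even): `2 AR (2 Y') - AR (Y'/2) = MM (Y'/2)` with `Y' = Y/f²` by `AR_step`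
(Rz2/ARlim) `= MG F σ 0 Y' N`. For `ε ≠ 0`: `AR = AA + pol` (`AR_eq`), the `pol` terms are the
perfect squares `σ d` excluded in `RU` (only `c = 1`, `σ = 1`: `d = g²`, `R f ∣ g² ↔ R ∣ g`, `g =
R g'`, all odd squares are `1` modulo `8`, `jr (R² g'²) N = jr (g'²) N`: `sq_sum` (Rz2/SqSum) at
the height `Y / R² ≥ 1`, error `m R f / Y * C d(N)`), as in Rz2/PRs. -/
def D_split : Prop :=
  ∀ (F : ℝ → ℝ) (a b : ℝ) (ha : 0 < a) (hF : Bump F a b) (hF0 : 0 < ∫ t, F t) (σ : ℤ)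
    (hσ : σ = 1 ∨ σ = -1) (m c ε : ℤ) (κ u : ℕ) (hf : FamP m c ε κ u),
  ∃ (c₁ c₂ c₃ c₄ : ℤ → ℝ) (C : ℝ), 0 ≤ C ∧ (∀ k, |c₁ k| ≤ 2) ∧ (∀ k, |c₂ k| ≤ 2) ∧
      (∀ k, |c₃ k| ≤ 2) ∧ (∀ k, |c₄ k| ≤ 2) ∧ ∀ R f N : ℕ, Odd R → Squarefree R → f ∣ R →
      Odd N → Nat.Coprime R N → ∀ Y : ℝ, (R : ℝ) ^ 2 ≤ Y →
      |PRq F m c σ u (R * f) Y N - (MU F σ ε κ (Y / (f : ℝ) ^ 2) N +
        NSc F σ (fun k => if ((R * f : ℕ) : ℤ) ∣ k then c₁ k else 0)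
          (Y / ((R * f : ℕ) : ℝ) ^ 2 / 4) N +
        NSc F σ (fun k => if ((R * f : ℕ) : ℤ) ∣ k then c₂ k else 0)
          (Y / ((R * f : ℕ) : ℝ) ^ 2 / 2) N +
        NSc F σ (fun k => if ((R * f : ℕ) : ℤ) ∣ k then c₃ k else 0)
          (2 * (Y / ((R * f : ℕ) : ℝ) ^ 2)) N +
        NSc F σ (fun k => if ((R * f : ℕ) : ℤ) ∣ k then c₄ k else 0)
          (Y / ((R * f : ℕ) : ℝ) ^ 2) N)| ≤ C * (R * f) * N.divisors.card / Y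

/-! ## F2. The pattern -/

/-- [PS size] `theorem p_size  : D_size`.
Sizes. `P` is odd since `2 ∤ P` (`pr`). `P ∣ primorial ⌊y⌋₊ ≤ 4 ^ ⌊y⌋₊` (`primorial_le_4_pow`; if
`y < 3` then `P = 1`), `4 ^ y ≤ X ^ (c₀ log 4)`, `log 4 ≤ 2`. `P.divisors.card = 2 ^ ω(P)`, `ω(P)
≤ y`, `2 ^ y ≤ X ^ (c₀ log 2) ≤ X ^ c₀`; `1 / phP P = ∏ p / (p - 1) ≤ 2 ^ ω(P)`. `1 / DP = m (1 /
phP) ∏_{p ∣ R} p ∏ 2 ≤ 8 X ^ c₀ P ≤ 8 X ^ (3 c₀)` (every factor `2` or `p` is `≤ p`). -/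
def D_size : Prop :=
  ∀ (c₀ X y : ℝ) (P Q R : ℕ) (hc : 0 < c₀) (hX : 1 < X)
    (hy : y ≤ c₀ * Real.log X) (hp : Pat y P Q R),
  Odd P ∧ (P : ℝ) ≤ X ^ (2 * c₀) ∧ (P.divisors.card : ℝ) ≤ X ^ c₀ ∧
      1 / phP P ≤ X ^ c₀ ∧ 0 < phP P ∧ (∀ m : ℤ, (m = 2 ∨ m = 8) → 0 < DP m P R ∧
      1 / DP m P R ≤ 8 * X ^ (4 * c₀))

open Classical in
/-- [PS ind] `theorem p_ind  : D_ind`.
Indicator of the pattern. Let `P₁ = P / R` (squarefree, coprime to `R`, `P.primeFactors.filter (¬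
· ∣ R) = P₁.primeFactors`). For `d ∈ RU`: (1) `∏_{p ∣ R} 1[p ∣ d ∧ ¬ p² ∣ d] = ∑_{f ∣ R} μ(f) 1[R
f ∣ d]` (if `R ∤ d` both sides are `0`; if `d = R d₁` then `R f ∣ d ↔ f ∣ d₁`, and `∑_{f ∣ gcd(R,
d₁)} μ(f) = 1[gcd = 1]`). (2) for `p ∣ P₁`, `s(p) = sy σ u d p ∈ {-1, 0, 1}`, `η = ±1`: `1[s(p) =
η] = (s(p)² + η s(p)) / 2`; the product over `p ∣ P₁` expands to `2 ^ (-ω) ∑_{e ∣ P₁} eps(e) s(e)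
s(P₁/e)²` (`Finset.prod_add` / induction over the primes), and `s(e) s(P₁/e)² = s(e) s(P₁)² = s(e
P₁²)` since `s(e)³ = s(e)`; `s` is completely multiplicative in `n` (`jacobiSym.mul_right`, `jr`
is `0` for even `n`; all arguments are odd here), `eps Q e = ∏_{p ∣ e} (if p ∣ Q then -1 else 1)`
(`μ (gcd e Q)`, `e` squarefree). -/
def D_ind : Prop :=
  ∀ (m c ε σ : ℤ) (κ u : ℕ) (hf : FamP m c ε κ u) (hσ : σ = 1 ∨ σ = -1)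
    (y : ℝ) (P Q R : ℕ) (hp : Pat y P Q R) (d : ℕ) (hd : RU m c σ u d),
  (if RP m c σ u P Q R d then (1 : ℝ) else 0) =
      1 / 2 ^ (P / R).primeFactors.card * ∑ e ∈ (P / R).divisors, ∑ f ∈ R.divisors,
        eps Q e * (ArithmeticFunction.moebius f : ℝ) *
          (if R * f ∣ d then sy σ u d (e * (P / R) ^ 2) else 0)

/-- [PS avsy] `theorem p_avsy (hi : D_ind) : D_avsy`.
Average of the symbol. `avP` is `1 / (DP X)` times the sum over `d` of `1[RU] 1[RP] F(d/X) s(N)`;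
insert `D_ind`, interchange the finite sums over `e, f` with the sum over `d` (finitely supported
as `F` has compact support), `s(e P₁²) s(N) = s(e P₁² N)`, and `1 / (DP X) * 2 ^ (-ω(P₁)) * (X /
(m R f)) = (1 / phP P) / f` (definition of `DP`; `∏_{p ∣ R} p = R`). -/
def D_avsy : Prop :=
  ∀ (F : ℝ → ℝ) (a b : ℝ) (ha : 0 < a) (hF : Bump F a b) (m c ε σ : ℤ) (κ u : ℕ)
    (hf : FamP m c ε κ u) (hσ : σ = 1 ∨ σ = -1) (y : ℝ) (P Q R : ℕ) (hp : Pat y P Q R)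
    (X : ℝ) (hX : 0 < X) (N : ℕ) (hN : Nat.Coprime N (2 * P)),
  avP m c σ u P Q R F X (fun d => sy σ u d N) =
      1 / phP P * ∑ e ∈ (P / R).divisors, ∑ f ∈ R.divisors,
        eps Q e * ((ArithmeticFunction.moebius f : ℝ) / f) *
          PRq F m c σ u (R * f) X (e * (P / R) ^ 2 * N)

/-- [PS bz] `theorem p_bz  : D_bz`.
`bz z` is multiplicative on coprime arguments (see Rz/Eul1, private lemma, or prove it from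
`sq1_mul`, `sq2_mul`), `bz z (p²) = 1 - 1/p`, `bz z (p³) = (p^z - p^(-z)) / √p`. With `P₁ = P /
R`, `e ∣ P₁`: `e P₁² = ∏_{p ∣ P₁} p^(2 or 3)`, so the sum over `e` is `bz z N ∏_{p ∣ P₁} ((1 -
1/p) ± (p^z - p^(-z)) / √p)` (`eps Q e = ∏_{p ∣ e} (if p ∣ Q then -1 else 1)`). -/
def D_bz : Prop :=
  ∀ (y : ℝ) (P Q R : ℕ) (hp : Pat y P Q R) (z : ℂ) (N : ℕ)
    (hN : Nat.Coprime N (2 * P)),
  ∑ e ∈ (P / R).divisors, (eps Q e : ℂ) * bz z (e * (P / R) ^ 2 * N) =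
      (∏ p ∈ P.primeFactors.filter (fun p => ¬ p ∣ R), ((1 - 1 / (p : ℂ)) *
        (1 + (if p ∣ Q then -1 else 1) *
        (((p : ℂ) ^ z - (p : ℂ) ^ (-z)) / ((√(p : ℝ) : ℂ) * (1 - 1 / (p : ℂ))))))) * bz z N

/-- [PS rep] `theorem p_rep (hb : D_bz) : D_rep`.
Mellin representation of the main term. `MU F σ ε κ (Y/f²)` has the representation with `bU` at
the height `Y / f²` (`MM_repr`, `MG_repr`). Insert `e P₁² N` (odd), sum over `e` and `f`; finite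
sums and integrals interchange since the integrands are integrable (`bU` decays: `BC_bG`,
`bb_bound`, `continuous_bb`; `bz` is a finite sum of exponentials in `z`). `(Y/f²/2)^(-z) =
(Y/2)^(-z) f^(2z)`, `∑_{f ∣ R} μ(f)/f f^(2z) = ∏_{p ∣ R} (1 - p^(2z-1))`, `D_bz`, and at `z = 0`:
`∏_{p ∣ P₁}(1-1/p) ∏_{p ∣ R} (1-1/p) = phP P`, factors `1 + 0`. -/
def D_rep : Prop :=
  ∀ (F : ℝ → ℝ) (a b : ℝ) (ha : 0 < a) (hF : Bump F a b) (hF0 : 0 < ∫ t, F t)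
    (m c ε : ℤ) (σ : ℤ) (κ u : ℕ) (hf : FamP m c ε κ u) (y : ℝ) (P Q R : ℕ) (hp : Pat y P Q R)
    (Y : ℝ) (hY : 0 < Y),
  MRepC P (fun z => bU F σ ε κ z * WP P Q R z) (∫ t, F t) Y (MP F σ ε κ P Q R Y)

/-- [PS mple] `theorem p_mple (hs : D_size) : D_mple`.
`|MU F σ ε κ Y' N'| ≤ C N'` for `Y' ≥ 1` and odd `N'` (`abs_MM_le`, `abs_MG_le`), heights `X / f²
≥ 1` as `f ≤ P`, `P² ≤ X`; number of `(e, f)`: `≤ X^(c₀)` each (divisors), `e P₁² ≤ P³`, `1 / phP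
P ≤ X^(c₀)`, `|eps| ≤ 1`, `|μ(f)/f| ≤ 1`: total exponent `c₀ + 2 c₀ + 6 c₀ = 9 c₀`. -/
def D_mple : Prop :=
  ∀ (F : ℝ → ℝ) (a b : ℝ) (ha : 0 < a) (hF : Bump F a b) (hF0 : 0 < ∫ t, F t)
    (m c ε : ℤ) (σ : ℤ) (κ u : ℕ) (hf : FamP m c ε κ u),
  ∃ C : ℝ, 0 < C ∧ ∀ (c₀ X y : ℝ) (P Q R : ℕ), 0 < c₀ → 1 < X → y ≤ c₀ * Real.log X →
      Pat y P Q R → (P : ℝ) ^ 2 ≤ X → ∀ N : ℕ, Nat.Coprime N (2 * P) →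
      |MP F σ ε κ P Q R X N| ≤ C * X ^ (9 * c₀) * N

/-- [PS nsc] `theorem p_nsc  : D_nsc`.
`gg k (M N) = gg k M * gg k N` (`gg_mul`) and `k Y / (2 M N) = k (Y / M) / (2 N)`; termwise. -/
def D_nsc : Prop :=
  ∀ (F : ℝ → ℝ) (σ : ℤ) (c : ℤ → ℝ) (Y : ℝ) (M N : ℕ) (hM : Odd M) (hN : Odd N)
    (h : Nat.Coprime M N),
  NSc F σ c Y (M * N) = NSc F σ (fun k => c k * gg k M) (Y / M) N

/-- [PS dec] `theorem p_dec (hsp : D_split) (ha : D_avsy) (hn : D_nsc) (hs : D_size) : D_dec`.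
The average of the symbol is the main term plus few error terms. `D_avsy`; for every `e ∣ P₁ =
P/R`, `f ∣ R` insert `D_split` at `Y = X`, `N' = e P₁² N` (odd, coprime to `R`), then `D_nsc` with
`M = e P₁²`: index set `T = (P₁.divisors ×ˢ R.divisors) ×ˢ {1,2,3,4}` (as triples), `γ` = `1/phP P
* eps * μ(f)/f * 1[R f ∣ k] c_i(k) gg k M`, `H = X/(R f)² {1/4, 1/2, 2, 1} / M`. Bounds: `|gg k M|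
≤ d(M)` (`abs_gg_le`: the gcd is `≤ M`), `d(M) ≤ d(P)³...`: `M ∣ P³`, `d(e P₁²) ≤ (d(P))²`
(`d(p²), d(p³) ≤ 4`), so `|γ| ≤ 2 X^(c₀ + 2 c₀)`; `M ≤ P³ ≤ X^(6c₀)`, `(R f)² ≤ P⁴ ≤ X^(8c₀)`: `4
H ≥ X^(1-14c₀)`; the error: `1/phP ∑_{e,f} (1/f) C R f d(M N) / X ≤ C X^(c₀ + 2c₀ + 2c₀ + 2c₀ - 1)
d(N)`, `d(M N) ≤ d(M) d(N)`. -/
def D_dec : Prop :=
  ∀ (F : ℝ → ℝ) (a b : ℝ) (ha : 0 < a) (hF : Bump F a b) (hF0 : 0 < ∫ t, F t)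
    (m c ε σ : ℤ) (κ u : ℕ) (hf : FamP m c ε κ u) (hσ : σ = 1 ∨ σ = -1),
  ∃ C : ℝ, 0 ≤ C ∧ ∀ (c₀ X y : ℝ) (P Q R : ℕ), 0 < c₀ → 1 < X → y ≤ c₀ * Real.log X →
      Pat y P Q R → (P : ℝ) ^ 2 ≤ X →
      ∃ (T : Finset (ℕ × ℕ × ℕ)) (γ : ℕ × ℕ × ℕ → ℤ → ℝ) (H : ℕ × ℕ × ℕ → ℝ),
        (T.card : ℝ) ≤ 4 * X ^ (2 * c₀) ∧
        (∀ t ∈ T, (∀ k, |γ t k| ≤ 2 * X ^ (4 * c₀)) ∧ X ^ (1 - 17 * c₀) ≤ 4 * H t ∧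
          H t ≤ 2 * X) ∧
        ∀ N : ℕ, Nat.Coprime N (2 * P) →
        |avP m c σ u P Q R F X (fun d => sy σ u d N) - (MP F σ ε κ P Q R X N +
          ∑ t ∈ T, NSc F σ (γ t) (H t) N)| ≤ C * X ^ (12 * c₀ - 1) * N.divisors.card

/-! ## F3. The error term, uniformly in `r` -/

/-- [PS sumkU] `theorem p_sumkU  : D_sumkU`.
Mechanical: `SS_n_fourth` (Rz2/SSmom) and `sumk` (Rz2/SumK) with `r` quantified after the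
constants (the constants come from `fourth_SA'`, `SS_l_fourth`, the divisor bound, and do not
depend on `r`): copy the two files into the new one, move `(r) (hr : Odd r)` behind the
existential in the theorem statements and private lemmas (rename them), adapt the proofs. -/
def D_sumkU : Prop :=
  ∀ [QlsHyp] (ε : ℝ) (hε : 0 < ε),
  ∃ (C : ℝ) (B : ℕ), 0 < C ∧
    ∀ r : ℕ, Odd r → ∀ X : ℝ, 2 ≤ X → (r : ℝ) ≤ X → ∀ K Z M : ℕ, 1 ≤ K → (K : ℝ) ≤ X ^ 4 → 1 ≤ Z →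
    (Z : ℝ) ≤ X ^ 4 → (M : ℝ) ≤ X ^ 4 → ∀ x : ℝ, 0 < x → 2 * x ≤ M →
    ∀ a₁ a₂ : ℕ → ℂ, (∀ n : ℕ, 1 ≤ n → ‖a₁ n‖ ≤ 1 / √(n : ℝ)) →
    (∀ n : ℕ, 1 ≤ n → ‖a₂ n‖ ≤ 1 / √(n : ℝ)) → (∀ n, a₁ n ≠ 0 → Odd n) →
    (∀ n, a₂ n ≠ 0 → Odd n) → ∀ s₁ s₂ : ℂ, 0 ≤ s₁.re → s₁.re ≤ 1 → 0 ≤ s₂.re → s₂.re ≤ 1 →
    ∑ k ∈ (Icc (-(K : ℤ)) K).filter (fun k => ¬ IsSquare k),
      |(k : ℝ)| ^ (-(1 / 2) : ℝ) * ‖T4 k Z M a₁ a₂ (an r s₁ x) (an r s₂ x)‖ ≤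
      C * X ^ ε * ((1 + ‖s₁‖) * (1 + ‖s₂‖)) ^ B * (√(K : ℝ) + Z)

/-- [PS sumkWU] `theorem p_sumkWU (h : D_sumkU) : D_sumkWU`.
Mechanical: `sumk_W` (Rz2/SumKW) with `r ≤ X` quantified after the constants, from `D_sumkU`. -/
def D_sumkWU : Prop :=
  ∀ [QlsHyp] (ε : ℝ) (hε : 0 < ε) (θ : ℝ) (hθ : 0 < θ) (hθ' : θ < 1 / 2),
  ∃ B : ℕ, ∀ C : ℝ, 0 < C → ∃ C' X₀ : ℝ, 0 < C' ∧ ∀ X : ℝ, X₀ ≤ X → ∀ r : ℕ, Odd r →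
    (r : ℝ) ≤ X → ∀ W₁ W₂ : ℕ → ℕ → ℝ,
    LipW θ X C W₁ → LipW θ X C W₂ → SepW B C W₁ → SepW B C W₂ → ∀ K : ℕ, 1 ≤ K →
    (K : ℝ) ≤ X ^ 2 → ∀ τ : ℝ,
    ∑ k ∈ (Icc (-(K : ℤ)) K).filter (fun k => ¬ IsSquare k), |(k : ℝ)| ^ (-(1 / 2) : ℝ) *
    ‖∑ n₁ ∈ Icc 1 ⌊X ^ 2⌋₊, ∑ l₁ ∈ Icc 1 ⌊X ^ 2⌋₊, ∑ n₂ ∈ Icc 1 ⌊X ^ 2⌋₊, ∑ l₂ ∈ Icc 1 ⌊X ^ 2⌋₊,
      if Nat.Coprime (n₁ * l₁ * n₂ * l₂) (2 * r) then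
        (ArithmeticFunction.moebius l₁ : ℂ) * (ArithmeticFunction.moebius l₂ : ℂ) *
          (W₁ l₁ n₁ : ℂ) * (W₂ l₂ n₂ : ℂ) * (gg k (n₁ * l₁ * n₂ * l₂) : ℂ) *
          ((n₁ * l₁ * n₂ * l₂ : ℕ) : ℂ) ^ (Complex.I * τ) else 0‖ ≤
      C' * X ^ ε * (1 + |τ|) ^ (2 * B) * (√(K : ℝ) + X ^ θ)

/-- [PS tail] `theorem p_tail  : D_tail`.
`NSc_tail` (Rz2/NSc) for the heights `Y ≥ X^(1-κ₀)`: same proof (rapid decay of `Ft`), the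
frequencies `k Y / (2 N) ≥ X^(ε) / 2` for `|k| > X^(2θ+κ₀+ε)`. -/
def D_tail : Prop :=
  ∀ (F : ℝ → ℝ) (a b : ℝ) (ha : 0 < a) (hF : Bump F a b) (σ : ℤ) (θ κ₀ ε A : ℝ)
    (hθ : 0 < θ) (hθ' : θ < 1 / 2) (hκ : 0 < κ₀) (hκ' : κ₀ < 1) (hε : 0 < ε),
  ∃ X₀ : ℝ, ∀ X : ℝ, X₀ ≤ X → ∀ c : ℤ → ℝ, (∀ k, |c k| ≤ 2) → ∀ N : ℕ, 1 ≤ N →
      (N : ℝ) ≤ X ^ (1 + 2 * θ) → ∀ Y : ℝ, X ^ (1 - κ₀) ≤ Y →
      |NSc F σ c Y N - ∑ k ∈ Icc (-(⌊X ^ (2 * θ + κ₀ + ε)⌋₊ : ℤ)) ⌊X ^ (2 * θ + κ₀ + ε)⌋₊,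
        (if IsSquare k then 0 else
          c k * gg k N * Ft F σ ((k : ℝ) * Y / (2 * N)))| ≤ X ^ (-A)

/-- [PS errU] `theorem p_errU (h : D_sumkWU) (ht : D_tail) : D_errU`.
`err_general2` (Rz2/ErrG2) uniformly in `r ≤ X` and for heights `Y ≥ X^(1-κ₀)`: same proof with
`D_tail` (`K = X^(2θ+κ₀+ε)`) and `D_sumkWU`: the bound is `Y^(-1/2) X^ε (√K + X^θ) ≤ X^(-1/2+κ₀/2)
X^(ε+θ+κ₀/2+ε/2)`; take `κ₀ = η = ε = (1/2 - θ)/8`. -/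
def D_errU : Prop :=
  ∀ [QlsHyp] (θ : ℝ) (hθ : 0 < θ) (hθ' : θ < 1 / 2),
  ∃ κ₀ η : ℝ, 0 < κ₀ ∧ 0 < η ∧
    ∀ (F : ℝ → ℝ) (a b : ℝ), 0 < a → Bump F a b → ∀ σ : ℤ, (σ = 1 ∨ σ = -1) →
    ∃ B : ℕ, ∀ C : ℝ, 0 < C → ∃ X₀ : ℝ, ∀ X : ℝ, X₀ ≤ X → ∀ r : ℕ, Odd r → (r : ℝ) ≤ X →
    ∀ Y : ℝ, X ^ (1 - κ₀) ≤ Y → Y ≤ 2 * X →
    ∀ W₁ W₂ : ℕ → ℕ → ℝ, LipW θ X C W₁ → LipW θ X C W₂ →
    SepW B C W₁ → SepW B C W₂ → ∀ c : ℤ → ℝ, (∀ k, |c k| ≤ 2) →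
    |quad W₁ W₂ r ⌊X ^ 2⌋₊ (NSc F σ c Y)| ≤ X ^ (-η)

/-- [PS errW] `theorem p_errW (h : D_errU) : D_errW`.
As `errSc_of_lt2` (Rz2/ErrG2): `lipW_Wt`, `sepW_Wt`, with the exponent `θ = θ₁ + 3 δ`. -/
def D_errW : Prop :=
  ∀ [QlsHyp] (θ₁ δ : ℝ) (hθ₁ : 0 < θ₁) (hδ : 0 < δ) (hθ : θ₁ + 3 * δ < 1 / 2),
  ∃ κ₀ η : ℝ, 0 < κ₀ ∧ 0 < η ∧
    ∀ (F : ℝ → ℝ) (a b : ℝ), 0 < a → Bump F a b → ∀ σ : ℤ, (σ = 1 ∨ σ = -1) →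
    ∀ c₀ : ℝ, (c₀ = 0 ∨ c₀ = 1) → ∀ ρ₁ ρ₂ h : ℝ → ℝ, Bump ρ₁ (-(δ / 2)) (δ / 2) →
    Bump ρ₂ (-(δ / 2)) (δ / 2) → Bump h 0 θ₁ → ∃ X₀ : ℝ, ∀ X : ℝ, X₀ ≤ X →
    ∀ r : ℕ, Odd r → (r : ℝ) ≤ X →
    ∀ Y₁ ∈ Set.Icc (-1 : ℝ) (1 / 2 + δ), ∀ Y₂ ∈ Set.Icc (-1 : ℝ) (1 / 2 + δ), ∀ c : ℤ → ℝ,
    (∀ k, |c k| ≤ 2) → ∀ Y : ℝ, X ^ (1 - κ₀) ≤ Y → Y ≤ 2 * X →
    |quad (Wt c₀ ρ₁ h X θ₁ δ Y₁) (Wt c₀ ρ₂ h X θ₁ δ Y₂) r ⌊X ^ 2⌋₊ (NSc F σ c Y)| ≤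
      X ^ (-η)

/-- [PS qerr] `theorem p_qerr  : D_qerr`.
`quad_err` (Rz2/QErr) uniformly in `r`, with a power saving depending only on `θ, δ`: `|quad| ≤ C
∑_{n₁ l₁ n₂ l₂ ≤ X^(1+2θ')} d(N) N^(-1/2) X^(η-1)`, `θ' = θ + 3δ < 1/2`, `≤ X^(θ' - 1/2 + η +
small)`; `η = (1/2 - θ')/4`. Only `N` coprime to `2 r` occur in `quad`. -/
def D_qerr : Prop :=
  ∀ (δ θ : ℝ) (hδ : 0 < δ) (hθ : 0 < θ) (hθ1 : θ + 3 * δ < 1 / 2),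
  ∃ η : ℝ, 0 < η ∧ ∀ c : ℝ, (c = 0 ∨ c = 1) →
    ∀ ρ₁ ρ₂ h : ℝ → ℝ, Bump ρ₁ (-(δ / 2)) (δ / 2) → Bump ρ₂ (-(δ / 2)) (δ / 2) →
    Bump h 0 θ → ∃ X₀ : ℝ, ∀ X : ℝ, X₀ ≤ X → ∀ r : ℕ, Odd r → ∀ E : ℕ → ℝ,
      (∀ N : ℕ, Nat.Coprime N (2 * r) → |E N| ≤ N.divisors.card * X ^ (η - 1)) →
      ∀ Y₁ ∈ Set.Icc (-1 : ℝ) (1 / 2 + δ), ∀ Y₂ ∈ Set.Icc (-1 : ℝ) (1 / 2 + δ),
      |quad (Wt c ρ₁ h X θ δ Y₁) (Wt c ρ₂ h X θ δ Y₂) r ⌊X ^ 2⌋₊ E| ≤ X ^ (-η)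

/-- [PS qav] `theorem p_qav (hd : D_dec) (hw : D_errW) (he : D_qerr) (hs : D_size) : D_qav`.
`quad` is linear in its last argument and sees only `N` coprime to `2 P`. By `D_dec` with `c₀ =
c₁` the difference is `∑_{t ∈ T} quad (NSc (γ t) (H t)) + quad E`. `NSc` is linear in the
coefficients: `γ = X^(4c₁) * c`, `|c| ≤ 2`; `D_errW` with `17 c₁ < κ₀` (then `4 H ≥ X^(1-17c₁)`
gives `H ≥ X^(1-κ₀)` for large `X`) and `P ≤ X`: total `4 X^(2c₁+4c₁-η)`; `D_qerr` with `C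
X^(12c₁-1) ≤ X^(η-1)`. `c₁` small in terms of `κ₀, η` (and `≤ 1/100`, so `P² ≤ X`). -/
def D_qav : Prop :=
  ∀ [QlsHyp] (δ θ : ℝ) (hδ : 0 < δ) (hθ : 0 < θ) (hθ1 : θ + 3 * δ < 1 / 2),
  ∃ c₁ : ℝ, 0 < c₁ ∧ c₁ ≤ 1 / 100 ∧ ∀ (F : ℝ → ℝ) (a b : ℝ), 0 < a → Bump F a b →
    0 < ∫ t, F t → ∀ σ : ℤ, (σ = 1 ∨ σ = -1) → ∀ (m c ε : ℤ) (κ u : ℕ), FamP m c ε κ u →
    ∀ c' : ℝ, (c' = 0 ∨ c' = 1) → ∀ ρ₁ ρ₂ h : ℝ → ℝ, Bump ρ₁ (-(δ / 2)) (δ / 2) →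
    Bump ρ₂ (-(δ / 2)) (δ / 2) → Bump h 0 θ → ∀ ε' : ℝ, 0 < ε' → ∃ X₀ : ℝ, ∀ X : ℝ, X₀ ≤ X →
    ∀ (y : ℝ) (P Q R : ℕ), y ≤ c₁ * Real.log X → Pat y P Q R →
    ∀ Y₁ ∈ Set.Icc (-1 : ℝ) (1 / 2 + δ), ∀ Y₂ ∈ Set.Icc (-1 : ℝ) (1 / 2 + δ),
    |quad (Wt c' ρ₁ h X θ δ Y₁) (Wt c' ρ₂ h X θ δ Y₂) P ⌊X ^ 2⌋₊
        (fun N => avP m c σ u P Q R F X (fun d => sy σ u d N)) -
      quad (Wt c' ρ₁ h X θ δ Y₁) (Wt c' ρ₂ h X θ δ Y₂) P ⌊X ^ 2⌋₊ (MP F σ ε κ P Q R X)| ≤ ε'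

/-! ## F4. Moments of the base process -/

/-- [PS tt] `theorem p_tt  : D_tt`.
As `TT_averageR` (Rz2/TTavg): expand the product of two `TT`, interchange with the finite sum over
`d`; `jr (2 σ u P² d) (n₁ l₁) * jr (2 σ u P² d) (n₂ l₂) = 1[(n₁ l₁ n₂ l₂, 2 P) = 1] sy σ u d (n₁
l₁ n₂ l₂)`. -/
def D_tt : Prop :=
  ∀ (F : ℝ → ℝ) (a b : ℝ) (ha : 0 < a) (hF : Bump F a b)
    (σ : ℤ) (hσ : σ = 1 ∨ σ = -1) (m c ε : ℤ) (κ u : ℕ) (hf : FamP m c ε κ u) (P Q R : ℕ)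
    (hP : Odd P) (c' : ℝ) (ρ₁ ρ₂ h : ℝ → ℝ) (X θ δ : ℝ) (hX : 1 ≤ X) (Y₁ Y₂ : ℝ),
  avP m c σ u P Q R F X (fun d => TT c' σ ρ₁ h X θ δ (u * (P ^ 2 * d)) Y₁ *
        TT c' σ ρ₂ h X θ δ (u * (P ^ 2 * d)) Y₂) =
    quad (Wt c' ρ₁ h X θ δ Y₁) (Wt c' ρ₂ h X θ δ Y₂) P ⌊X ^ 2⌋₊
      (fun N => avP m c σ u P Q R F X (fun d => sy σ u d N))

/-- [PS zero] `theorem p_zero (h2 : D_poi2) (h8 : D_poi8) (ha : D_avsy) (hs : D_size) : D_zero`.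
Number of members of the family. Take `c₀ = 1/100` in `D_size`. `D_avsy` with `N = 1` (`sy _ 1 =
1`) at the height `Y`: `avP = 1/phP ∑ eps(e) μ(f)/f PRq (R f) Y (e P₁²)`. For odd coprime `q, N'`
with `q² N' ≤ X^(1/5)`: `PRq q Y N' = (∫ F) gg 0 N' + O(X^(-1/10))`: by `D_poi2`/`D_poi8`
(Poisson) the term `k = 0` is `gg 0 N' * Ft F σ 0 = gg 0 N' ∫ F` (`t8 0 = 0`, `t4 c 0 = 0`), the
others are bounded by `|gg| ≤ d(N') ≤ N'` and `|Ft ξ| ≤ C ξ^(-2)` (`Ft_schwartz`), `∑_k ≤ C N' (q²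
N' / Y)²`, `Y ≥ X^(1/2)`; the perfect squares excluded by `RU` contribute at most `(8 q / Y) √(b
Y)`. `gg 0 (e P₁²) = 1[e = 1] ∏_{p ∣ P₁} (1 - 1/p)` (`jr 0 n = 0` for `n > 1`). Sum: main term
`(1/phP) ∏_{P₁}(1-1/p) ∑_{f ∣ R} μ(f)/f ∫ F = ∫ F`; error `≤ X^(2/100) X^(1/100) X^(-1/10)`. (`q =
R f ≤ P² ≤ X^(4/100)`, `N' ≤ P³ ≤ X^(6/100)`.) -/
def D_zero : Prop :=
  ∀ (F : ℝ → ℝ) (a b : ℝ) (ha : 0 < a) (hF : Bump F a b) (hF0 : 0 < ∫ t, F t) (σ : ℤ)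
    (hσ : σ = 1 ∨ σ = -1) (m c ε : ℤ) (κ u : ℕ) (hf : FamP m c ε κ u) (ε' : ℝ) (hε' : 0 < ε'),
  ∃ X₀ : ℝ, ∀ X : ℝ, X₀ ≤ X → ∀ (y : ℝ) (P Q R : ℕ), y ≤ 1 / 100 * Real.log X → Pat y P Q R →
    ∀ Y : ℝ, X ^ (1 / 2 : ℝ) ≤ Y → |avP m c σ u P Q R F Y (fun _ => 1) - ∫ t, F t| ≤ ε'

/-- [PS sqf] `theorem p_sqf (hz : D_zero) (hs : D_size) : D_sqf`.
Squarefree: if `d` is in `RP` and not squarefree then `p² ∣ d` for a prime `p > y` (`d` is odd;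
for `p ∣ P` the pattern excludes `p² ∣ d`). For `y n < p ≤ X^(1/4)`: `d = p² d'`, and `d'` is in
the same class `RP` (`p² ≡ 1` modulo `8`, symbols unchanged, `IsSquare` unchanged), `X/p² < d' ≤
2X/p²`: number `≤ C DP X / p²` by `D_zero` at the height `X/p² ≥ X^(1/2)` with a nonnegative bump
`F` on `(1/2, 4)` with `F ≥ 1` on `[1, 2]`. Sum over `p > y n`: `≤ C DP X / (y n) · 2`, and `y n →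
∞`. For `p > X^(1/4)`: trivially `∑ 2X/p² ≤ 8 X^(3/4)`, and `DP X ≥ X^(1-4/100)/8` (`D_size`). -/
def D_sqf : Prop :=
  ∀ (c₀ : ℝ) (X y : ℕ → ℝ) (P Q R : ℕ → ℕ) (hs : PSq c₀ X y P Q R) (hc₀ : c₀ ≤ 1 / 100)
    (σ : ℤ) (hσ : σ = 1 ∨ σ = -1) (m c ε : ℤ) (κ u : ℕ) (hf : FamP m c ε κ u),
  SqfS (fun n => RP m c σ u (P n) (Q n) (R n)) (fun n => DP m (P n) (R n)) X


/-! ## M. Interface of section M (helper52) -/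

/-- [PS wbd] (helper52) -/
def D_wbd : Prop :=
  ∀ (c₀ : ℝ) (X y : ℕ → ℝ) (P Q R : ℕ → ℕ), PSq c₀ X y P Q R →
    WBd X (fun n => WP (P n) (Q n) (R n))

/-- [PS bc] (helper52) -/
def D_bc : Prop :=
  ∀ (F : ℝ → ℝ) (a b : ℝ), 0 < a → Bump F a b → 0 < ∫ t, F t → ∀ (m c ε σ : ℤ) (κ u : ℕ),
    FamP m c ε κ u → BC (bU F σ ε κ) (BU F σ ε κ)

/-- [PS ccp] (helper52) -/
def D_ccp : Prop :=
  ∀ (c₀ : ℝ) (X y : ℕ → ℝ) (P Q R : ℕ → ℕ), PSq c₀ X y P Q R → ∀ W : ℕ → ℂ → ℂ, WBd X W →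
    ∀ (β : ℂ → ℂ) (B : ℝ → ℝ), BC β B → ∀ (I₀ δ θ : ℝ), 0 < δ → δ ≤ 1 / 4 → 0 < θ →
    θ + 3 * δ < 1 / 2 → ∀ c : ℝ, (c = 0 ∨ c = 1) → ∀ ρ₁ ρ₂ h : ℝ → ℝ,
    Bump ρ₁ (-(δ / 2)) (δ / 2) → Bump ρ₂ (-(δ / 2)) (δ / 2) → Bump h 0 θ →
    ∀ ε : ℝ, 0 < ε → ∀ᶠ n in atTop, ∀ M : ℕ → ℝ,
      MRepC (P n) (fun z => β z * W n z) I₀ (X n) M →
      (∀ N : ℕ, Nat.Coprime N (2 * P n) → |M N| ≤ X n ^ 3 * N) →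
      ∀ Y₁ ∈ Set.Icc (-1 : ℝ) (1 / 2 + δ), ∀ Y₂ ∈ Set.Icc (-1 : ℝ) (1 / 2 + δ),
      |quad (Wt c ρ₁ h (X n) θ δ Y₁) (Wt c ρ₂ h (X n) θ δ Y₂) (P n) ⌊X n ^ 2⌋₊ M -
        I₀ * CC ρ₁ ρ₂ h Y₁ Y₂| ≤ ε

/-! ## D1. The weights of the shifts -/

/-- [PS wS] `theorem p_wS  : D_wS`.
Weights: `∑_{n ∈ factoredNumbers A} n^(-1/2) = ∏_{p ∈ A} (1 - p^(-1/2))^(-1)`
(`EulerProduct.summable_and_hasSum_factoredNumbers_prod_filter_prime_geometric` for the completely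
multiplicative `n ↦ n^(-1/2)`), `∑_{b ∣ ∏ B} b^(-1/2) = ∏_{p ∈ B} (1 + p^(-1/2))`
(`Finset.prod_add`/`Nat.Coprime` induction), product of the two (`HasSum.mul_of_nonneg` or
`Summable.tsum_mul_tsum`). Third part: `sS ≥ -log q.2 / L`, `q.2 ≤ ∏ B`. -/
def D_wS : Prop :=
  ∀ (A B : Finset ℕ) (hA : ∀ p ∈ A, p.Prime) (hB : ∀ p ∈ B, p.Prime),
  (∀ q, 0 ≤ wS A B q) ∧ HasSum (wS A B) 1 ∧
    ∀ (L : ℝ) (q : ℕ × ℕ), 0 < L → wS A B q ≠ 0 → -(Real.log (∏ p ∈ B, (p : ℝ)) / L) ≤ sS L q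

/-- [PS wSm] `theorem p_wSm (h : D_wS) : D_wSm`.
Mean shift: `|sS| ≤ (log q.1 + log q.2)/L` on the support (`q.1, q.2 ≥ 1`). With the product
structure it is enough: `E log n = ∑_{p ∈ A} log p (p^(-1/2) + p^(-1) + ...) = ∑ log p / (√p - 1)
≤ 4 ∑ log p / √p` (e.g. from `log n = ∑_{d ∣ n} Λ(d)`, or by induction on `A`: adding a prime `p`,
`n = p^k n'`), `E log b = ∑_{p ∈ B} log p p^(-1/2)/(1+p^(-1/2))`. -/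
def D_wSm : Prop :=
  ∀ (A B : Finset ℕ) (hA : ∀ p ∈ A, p.Prime) (hB : ∀ p ∈ B, p.Prime) (L : ℝ)
    (hL : 0 < L),
  Summable (fun q => wS A B q * |sS L q|) ∧
    ∑' q, wS A B q * |sS L q| ≤
      4 / L * ((∑ p ∈ A, Real.log p / √(p : ℝ)) + ∑ p ∈ B, Real.log p / √(p : ℝ))

/-- [PS wSl] `theorem p_wSl (hm : D_wSm) (hw : D_wS) (hs : D_size) : D_wSl`.
`setA`, `setB` consist of primes `≤ y n` and possibly `2`: `∑ log p/√p ≤ 2 + ∑_{k ≤ y} log k/√k ≤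
2 + 2 √y log y` roughly, times `8/L` with `y ≤ L`: tends to `0`. Last part: `sS ≥ -(log 2 + log
Q)/L`, `Q ∣ P`, `P ≤ X^(2c₀)` (`D_size`), and `log 2 / L ≤ c₀` eventually. -/
def D_wSl : Prop :=
  ∀ (c₀ : ℝ) (X y : ℕ → ℝ) (P Q R : ℕ → ℕ) (hs : PSq c₀ X y P Q R) (ε : ℤ),
  Tendsto (fun n => ∑' q, wS (setA ε (P n) (Q n) (R n)) (setB ε (Q n)) q *
      |sS (Real.log (X n)) q|) atTop (𝓝 0) ∧
    (∀ n, ∀ p ∈ setA ε (P n) (Q n) (R n), p.Prime) ∧ (∀ n, ∀ p ∈ setB ε (Q n), p.Prime) ∧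
    ∀ᶠ n in atTop, ∀ q, wS (setA ε (P n) (Q n) (R n)) (setB ε (Q n)) q ≠ 0 →
      -(3 * c₀) ≤ sS (Real.log (X n)) q

/-! ## D2. Moments of the base process -/

/-- [PS m2b] `theorem p_m2b (hq : D_qav) (ht : D_tt) (hz : D_zero) (hr : D_rep) (hm : D_mple) (hs : D_size) (hc : D_ccp) (hw : D_wbd) (hb : D_bc) : D_m2b`.
The second moment of the base process, as in Rz2/SmG (`second_momentG`): (1) replace `ytil` by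
`TT` (`ytil_trunc`, Rz/Sm4: error `X^20 X^(-30)`, number of `d ≤ b X`, `1/DP ≤ 8 X^(4c₀)`), (2)
`D_tt`, (3) `D_qav`: `quad avP → quad MP`, (4) `D_ccp` with `W n = WP (P n) (Q n) (R n)`, `β =
bU`, `M = MP ... (X n)` (`D_rep`, `D_mple`, `D_wbd`, `D_bc`). The constant `c₁` is that of `D_qav`
for `δ, θ` (and `≤ 1/100`). -/
def D_m2b : Prop :=
  ∀ [QlsHyp] (δ θ : ℝ) (hδ : 0 < δ) (hδ4 : δ ≤ 1 / 4) (hθ : 0 < θ)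
    (hθ1 : θ + 3 * δ < 1 / 2),
  ∃ c₁ : ℝ, 0 < c₁ ∧ c₁ ≤ 1 / 100 ∧ ∀ (c₀ : ℝ) (X y : ℕ → ℝ) (P Q R : ℕ → ℕ),
    PSq c₀ X y P Q R → c₀ ≤ c₁ → ∀ (F : ℝ → ℝ) (a b : ℝ), 0 < a → Bump F a b →
    0 < ∫ t, F t → ∀ σ : ℤ, (σ = 1 ∨ σ = -1) → ∀ (m c ε : ℤ) (κ u : ℕ), FamP m c ε κ u →
    ∀ c' : ℝ, (c' = 0 ∨ c' = 1) → ∀ ρ₁ ρ₂ h : ℝ → ℝ, Bump ρ₁ (-(δ / 2)) (δ / 2) →
    Bump ρ₂ (-(δ / 2)) (δ / 2) → Bump h 0 θ → ∀ ε' : ℝ, 0 < ε' → ∀ᶠ n in atTop,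
    ∀ Y₁ ∈ Set.Icc (-1 : ℝ) (1 / 2 + δ), ∀ Y₂ ∈ Set.Icc (-1 : ℝ) (1 / 2 + δ),
    |avP m c σ u (P n) (Q n) (R n) F (X n) (fun d => yB c' σ u (P n) ρ₁ h (X n) d Y₁ *
        yB c' σ u (P n) ρ₂ h (X n) d Y₂) - (∫ t, F t) * CC ρ₁ ρ₂ h Y₁ Y₂| ≤ ε'

/-- [PS m1b] `theorem p_m1b (hs : D_size) : D_m1b`.
The first moment of the base process from the second moment, as in Rz2/FmG (`first_momentG`),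
Rz/Sm5: take `Y₂ = -(3δ/4)`: `ytil(Y₂) = μ₂ + O(ε)` uniformly in `d` (`ytil_det`, Rz/Ker5), `μ₂ =
∫ ρ HH(y - Y₂) = HH 0` by `hconst` (`y - Y₂ ≤ 5δ/4`), `CC ρ ρ h Y Y₂ = μ₂ ∫ ρ HH(y - Y)` (`Y₂ - y
< 0`), `|avP(T(Y)(T(Y₂) - μ₂))| ≤ ε avP|T(Y)| ≤ ε (avP 1 + avP T(Y)²)/2` (`F ≥ 0`, `DP > 0` by
`D_size`). -/
def D_m1b : Prop :=
  ∀ (δ θ : ℝ) (hδ : 0 < δ) (hδ4 : δ ≤ 1 / 4) (hθ : 0 < θ) (hθ1 : θ + 3 * δ < 1 / 2)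
    (c₀ : ℝ) (X y : ℕ → ℝ) (P Q R : ℕ → ℕ) (hs : PSq c₀ X y P Q R)
    (F : ℝ → ℝ) (a b : ℝ) (ha : 0 < a) (hF : Bump F a b) (hFn : ∀ t, 0 ≤ F t) (hF0 : 0 < ∫ t, F t)
    (σ : ℤ) (m c ε : ℤ) (κ u : ℕ) (hf : FamP m c ε κ u) (c' : ℝ) (hc' : c' = 0 ∨ c' = 1)
    (ρ h : ℝ → ℝ) (hρ : Bump ρ (-(δ / 2)) (δ / 2)) (hρ1 : ∫ y, ρ y = 1) (hh : Bump h 0 θ)
    (hconst : ∀ t ≤ 3 * δ / 2, HH h t = HH h 0) (hpos : 0 < HH h 0)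
    (hz : ∀ ε' : ℝ, 0 < ε' → ∀ᶠ n in atTop,
      |avP m c σ u (P n) (Q n) (R n) F (X n) (fun _ => 1) - ∫ t, F t| ≤ ε')
    (h2 : ∀ ε' : ℝ, 0 < ε' → ∀ᶠ n in atTop,
      ∀ Y₁ ∈ Set.Icc (-1 : ℝ) (1 / 2 + δ), ∀ Y₂ ∈ Set.Icc (-1 : ℝ) (1 / 2 + δ),
      |avP m c σ u (P n) (Q n) (R n) F (X n) (fun d => yB c' σ u (P n) ρ h (X n) d Y₁ *
        yB c' σ u (P n) ρ h (X n) d Y₂) - (∫ t, F t) * CC ρ ρ h Y₁ Y₂| ≤ ε')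
    (ε' : ℝ) (hε' : 0 < ε'),
  ∀ᶠ n in atTop, ∀ Y ∈ Set.Icc (-1 : ℝ) (1 / 2 + δ),
    |avP m c σ u (P n) (Q n) (R n) F (X n) (fun d => yB c' σ u (P n) ρ h (X n) d Y) -
      (∫ t, F t) * ∫ y, ρ y * HH h (y - Y)| ≤ ε'

/-! ## D3. Averaging over the shifts -/

/-- [PS shc] `theorem p_shc (h : D_wS) : D_shc`.
On the support `sS ≥ -s₁`, `s₁ = log ∏B / L`, so `|T(Y - sS)| ≤ C` for `Y ≤ Y₀` with the constant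
of `Y₀ + s₁`; summable by comparison with `wS`; `continuous_tsum`-type argument locally (`Y <
Y₀`). -/
def D_shc : Prop :=
  ∀ (A B : Finset ℕ) (hA : ∀ p ∈ A, p.Prime) (hB : ∀ p ∈ B, p.Prime) (L : ℝ)
    (hL : 0 < L) (T : ℝ → ℝ) (hT : Continuous T) (hb : ∀ Y₀ : ℝ, ∃ C : ℝ, ∀ Y ≤ Y₀, |T Y| ≤ C),
  (∀ Y, Summable (fun q => wS A B q * T (Y - sS L q))) ∧ Continuous (shf A B L T) ∧
    ∀ Y₀ : ℝ, ∃ C : ℝ, ∀ Y ≤ Y₀, |shf A B L T Y| ≤ C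

/-- [PS ybc] `theorem p_ybc  : D_ybc`.
`yB` is `ytil` at `u (P² d)`. Derivative: `hasDerivAt_ytil` (Rz/Ker4); bound: `ytil_eq_kpF`,
`abs_kpF_le`, `integrable_kp_majorant` (Rz/KerPhi), uniformly in `d` (constant depends on `X, ρ,
h`); `0 ≤ c'`. -/
def D_ybc : Prop :=
  ∀ (δ θ : ℝ) (hδ : 0 < δ) (ρ h : ℝ → ℝ) (hρ : Bump ρ (-(δ / 2)) (δ / 2))
    (hh : Bump h 0 θ) (c' : ℝ) (hc' : c' = 0 ∨ c' = 1) (σ : ℤ) (u P : ℕ) (X : ℝ) (hX : 1 < X),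
  (∀ d, Continuous (yB c' σ u P ρ h X d)) ∧
    (∀ d Y, HasDerivAt (yB c' σ u P ρ h X d) (yB c' σ u P (deriv ρ) h X d Y) Y) ∧
    ∃ C : ℝ, ∀ d Y, |yB c' σ u P ρ h X d Y| ≤ C * Real.exp (2 * Real.log X * Y)

/-- [PS shd] `theorem p_shd (h : D_wS) (hc : D_shc) : D_shd`.
`hasDerivAt_tsum_of_isPreconnected` on `(-∞, Y₀)` (an open convex set) with the majorant `wS * C`. -/
def D_shd : Prop :=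
  ∀ (A B : Finset ℕ) (hA : ∀ p ∈ A, p.Prime) (hB : ∀ p ∈ B, p.Prime) (L : ℝ)
    (hL : 0 < L) (T T' : ℝ → ℝ) (hT' : Continuous T') (hd : ∀ Y, HasDerivAt T (T' Y) Y)
    (hb : ∀ Y₀ : ℝ, ∃ C : ℝ, ∀ Y ≤ Y₀, |T Y| ≤ C)
    (hb' : ∀ Y₀ : ℝ, ∃ C : ℝ, ∀ Y ≤ Y₀, |T' Y| ≤ C) (Y : ℝ),
  HasDerivAt (shf A B L T) (shf A B L T' Y) Y

/-- Mean values over the shifts: hypotheses on the weights (sequence). -/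
structure ShQ (X : ℕ → ℝ) (s₀ : ℝ) (A B : ℕ → Finset ℕ) : Prop where
  pA : ∀ n, ∀ p ∈ A n, p.Prime
  pB : ∀ n, ∀ p ∈ B n, p.Prime
  lim : Tendsto (fun n => ∑' q, wS (A n) (B n) q * |sS (Real.log (X n)) q|) atTop (𝓝 0)
  low : ∀ᶠ n in atTop, ∀ q, wS (A n) (B n) q ≠ 0 → -s₀ ≤ sS (Real.log (X n)) q

/-- [PS m2s] `theorem p_m2s (hw : D_wS) (hc : D_shc) : D_m2s`.
Transfer of the second moment. `avS` is a finite sum over `d` (compact support of `F`; cf.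
`avR_fin` in Rz/Gen1), so `avS (shf T₁ Y₁ * shf T₂ Y₂) = ∑_{q,q'} w w' avS (T₁(Y₁ - s) T₂(Y₂ -
s'))` (absolutely convergent). If both arguments are `≥ -1` (they are `≤ 1/2 + δ + s₀`): `hm` and
the Lipschitz bound `|CC(Y₁-s, Y₂-s') - CC(Y₁, Y₂)| ≤ C(|s|+|s'|)` on `[-1, 1]²` (`HH` is
Lipschitz and bounded, `max, min` Lipschitz). If one argument is `< -1` (then `s > 1/2`): `|T₁ T₂|
≤ X^(-9)`, `|avS g| ≤ sup|g| avS 1` (`DensS`), and `|CC| ≤ C`, total weight of these pairs `≤ 2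
(E|s| + E|s'|) · 2`. Everything tends to `0` by `hq.lim`. -/
def D_m2s : Prop :=
  ∀ (Rc : ℕ → ℕ → Prop) (D X : ℕ → ℝ) (one : ∀ n, 1 < X n)
    (lim : Tendsto X atTop atTop) (hD : ∀ n, 0 < D n) (hDs : DensS Rc D X)
    (δ s₀ : ℝ) (hδ : 0 < δ) (hδ4 : δ + s₀ ≤ 1 / 4) (hs₀ : 0 ≤ s₀) (A B : ℕ → Finset ℕ)
    (hq : ShQ X s₀ A B)
    (ρ₁ ρ₂ h : ℝ → ℝ) (hρ₁ : Bump ρ₁ (-(δ / 2)) (δ / 2)) (hρ₂ : Bump ρ₂ (-(δ / 2)) (δ / 2))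
    (θ : ℝ) (hh : Bump h 0 θ) (T₁ T₂ : ℕ → ℕ → ℝ → ℝ)
    (hc₁ : ∀ n d, Continuous (T₁ n d)) (hc₂ : ∀ n d, Continuous (T₂ n d))
    (hb₁ : ∀ n, ∀ Y₀ : ℝ, ∃ C : ℝ, ∀ d, ∀ Y ≤ Y₀, |T₁ n d Y| ≤ C)
    (hb₂ : ∀ n, ∀ Y₀ : ℝ, ∃ C : ℝ, ∀ d, ∀ Y ≤ Y₀, |T₂ n d Y| ≤ C)
    (hs₁ : ∀ᶠ n in atTop, ∀ d, ∀ Y ≤ -1, |T₁ n d Y| ≤ X n ^ (-30 : ℝ))
    (hs₂ : ∀ᶠ n in atTop, ∀ d, ∀ Y ≤ -1, |T₂ n d Y| ≤ X n ^ (-30 : ℝ))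
    (hl₁ : ∀ᶠ n in atTop, ∀ d, ∀ Y ∈ Set.Icc (-1 : ℝ) (1 / 2 + δ + s₀), |T₁ n d Y| ≤ X n ^ 21)
    (hl₂ : ∀ᶠ n in atTop, ∀ d, ∀ Y ∈ Set.Icc (-1 : ℝ) (1 / 2 + δ + s₀), |T₂ n d Y| ≤ X n ^ 21)
    (hm : ∀ F : ℝ → ℝ, Bump F (1 / 2) 4 → (∀ t, 0 ≤ F t) → 0 < ∫ t, F t →
      ∀ ε : ℝ, 0 < ε → ∀ᶠ n in atTop,
      ∀ Y₁ ∈ Set.Icc (-1 : ℝ) (1 / 2 + δ + s₀), ∀ Y₂ ∈ Set.Icc (-1 : ℝ) (1 / 2 + δ + s₀),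
      |avS (Rc n) (D n) F (X n) (fun d => T₁ n d Y₁ * T₂ n d Y₂) -
        (∫ t, F t) * CC ρ₁ ρ₂ h Y₁ Y₂| ≤ ε),
  Mom2S Rc D X δ ρ₁ ρ₂ h (fun n d => shf (A n) (B n) (Real.log (X n)) (T₁ n d))
      (fun n d => shf (A n) (B n) (Real.log (X n)) (T₂ n d))

/-- [PS m1s] `theorem p_m1s (hw : D_wS) (hc : D_shc) : D_m1s`.
Transfer of the first moment: same as piece m2s with one factor: `avS (shf T Y) = ∑ w avS (T (Y -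
s))`, `Y ↦ ∫ ρ(y) HH(y - Y)` is bounded and Lipschitz. -/
def D_m1s : Prop :=
  ∀ (Rc : ℕ → ℕ → Prop) (D X : ℕ → ℝ) (one : ∀ n, 1 < X n)
    (lim : Tendsto X atTop atTop) (hD : ∀ n, 0 < D n) (hDs : DensS Rc D X)
    (δ s₀ : ℝ) (hδ : 0 < δ) (hδ4 : δ + s₀ ≤ 1 / 4) (hs₀ : 0 ≤ s₀) (A B : ℕ → Finset ℕ)
    (hq : ShQ X s₀ A B) (ρ h : ℝ → ℝ) (hρ : Bump ρ (-(δ / 2)) (δ / 2))
    (θ : ℝ) (hh : Bump h 0 θ) (T : ℕ → ℕ → ℝ → ℝ) (hc : ∀ n d, Continuous (T n d))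
    (hb : ∀ n, ∀ Y₀ : ℝ, ∃ C : ℝ, ∀ d, ∀ Y ≤ Y₀, |T n d Y| ≤ C)
    (hs : ∀ᶠ n in atTop, ∀ d, ∀ Y ≤ -1, |T n d Y| ≤ X n ^ (-30 : ℝ))
    (hm : ∀ F : ℝ → ℝ, Bump F (1 / 2) 4 → (∀ t, 0 ≤ F t) → 0 < ∫ t, F t →
      ∀ ε : ℝ, 0 < ε → ∀ᶠ n in atTop, ∀ Y ∈ Set.Icc (-1 : ℝ) (1 / 2 + δ + s₀),
      |avS (Rc n) (D n) F (X n) (fun d => T n d Y) - (∫ t, F t) * ∫ y, ρ y * HH h (y - Y)| ≤ ε),
  Mom1S Rc D X δ ρ h (fun n d => shf (A n) (B n) (Real.log (X n)) (T n d))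

/-- [PS per] `theorem p_per  : D_per`.
The shift `b = log(κ d)/(2 log X)` instead of `1/2`: `0 ≤ b - 1/2 ≤ η = log 16/(2 log X)` for `X <
d ≤ 2X`. `T(1/2 - v) - T(b - v) = -∫_{1/2-v}^{b-v} T'`, so the square is `≤ η ∫_{1/2-v}^{1/2-v+η}
T'(t)² dt` (Cauchy-Schwarz). For `v ∈ [0, 1/2+δ]`, `t ∈ [-δ, 1/2 + η] ⊆ [-1/2, 1/2+δ]` eventually,
and `∑_{d ∈ S} T'(t)² ≤ D X avS(T'(t)²) ≤ C D X` by `hm` (diagonal `Y₁ = Y₂ = t`) with a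
nonnegative bump `F` on `(1/2, 4)`, `F ≥ 1` on `[1, 2]` (Rz/TestR); `CC (deriv ρ) (deriv ρ) h t t`
is bounded. Total `≤ η² C D X`. As in Rz2/AvgS, Rz/Fa4. -/
def D_per : Prop :=
  ∀ (Rc : ℕ → ℕ → Prop) (D X : ℕ → ℝ) (one : ∀ n, 1 < X n)
    (lim : Tendsto X atTop atTop) (hD : ∀ n, 0 < D n) (δ : ℝ) (hδ : 0 < δ) (hδ4 : δ ≤ 1 / 4)
    (ρ h : ℝ → ℝ) (hρ : Bump ρ (-(δ / 2)) (δ / 2)) (θ : ℝ) (hh : Bump h 0 θ)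
    (T T' : ℕ → ℕ → ℝ → ℝ) (hc : ∀ n d, Continuous (T' n d))
    (hd : ∀ n d Y, HasDerivAt (T n d) (T' n d Y) Y)
    (hm : Mom2S Rc D X δ (deriv ρ) (deriv ρ) h T' T') (κ : ℕ) (hκ : κ = 1 ∨ κ = 4 ∨ κ = 8),
  PerS Rc D X δ T (fun n d v => T n d (Real.log (κ * d) / (2 * Real.log (X n)) - v))

/-! ## D4. The lower bound of the tail -/

/-- [PS det] `theorem p_det (hw : D_wS) : D_det`.
Lower bound of the tail. As `det_lowerS` (Rz2/DetS) from `ds_core`. Let `Φ(t) = ∑_q wS q * kpPhi σ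
(u P² d) h L (t + sS q)`: `shf (yB) Y = dsT c' ρ Φ L Y` (`ytil_eq_kpF`, Fubini, as `yS_eq_dsT`).
Put `P(t) = Φ(t + s₀)`: `dsT Φ (b' - v) = dsT P (b' + s₀ - v)`, `b = b' + s₀ ≤ 1/2 + δ/8`. Since
`s₀ + sS ≥ 0` on the support: `|P t| ≤ 2 ∫|h| e^(3θL) e^(-2tL)` (`abs_kpPhi_le`); for `t ≥ 0`
`kpPhi (t + s₀ + s) = HH h (t + s₀ + s)` (`kpPhi_of_nonneg`), so `P t ≥ ∑_{s ≤ δ/8} w HH(t + s₀ +
δ/8) ≥ (1 - ε/2) HH(t + s)`, `s = s₀ + δ/8 ≤ 3δ/8` (HH is nonnegative and decreasing; Markov: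
`∑_{sS > δ/8} w ≤ (8/δ) ∑ w|sS| → 0` by `hq.lim`). -/
def D_det : Prop :=
  ∀ (ρ h : ℝ → ℝ) (δ θ θ₀ : ℝ) (hδ : 0 < δ) (hδ4 : δ ≤ 1 / 100) (hθ₀ : 0 < θ₀)
    (hθ : θ₀ ≤ θ) (hθ2 : θ < 1 / 2) (hρ : Bump ρ (-(δ / 2)) (δ / 2)) (hρn : ∀ y, 0 ≤ ρ y)
    (hρ1 : ∫ y, ρ y = 1) (hh : Bump h 0 θ) (hhn : ∀ t, 0 ≤ h t)
    (hH : ∀ t, Hid θ₀ (t - 2 * δ) ≤ HH h t) (c' : ℝ) (hc' : c' = 0 ∨ c' = 1) (σ : ℤ)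
    (κ u : ℕ) (hκ : κ = 1 ∨ κ = 4 ∨ κ = 8) (X : ℕ → ℝ) (one : ∀ n, 1 < X n)
    (lim : Tendsto X atTop atTop) (A B : ℕ → Finset ℕ) (s₀ : ℝ) (hs₀ : 0 ≤ s₀)
    (hs₁ : s₀ ≤ δ / 32) (hq : ShQ X s₀ A B) (P : ℕ → ℕ) (ε' : ℝ) (hε' : 0 < ε'),
  ∀ᶠ n in atTop, ∀ d : ℕ, X n < d → (d : ℝ) ≤ 2 * X n → ∀ α : ℝ, |α| ≤ 1 / 2 →
      (1 - ε') * (∫ v in Set.Ioc (1 / 2 + δ) (1 / 2 + δ + θ₀),
        Real.cosh (α * Real.log (X n) * v) * Hid θ₀ (v - (1 / 2 + δ))) - ε' ≤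
      ∫ v in Set.Ioi (1 / 2 + δ), Real.cosh (α * Real.log (X n) * v) *
        shf (A n) (B n) (Real.log (X n)) (yB c' σ u (P n) ρ h (X n) d)
          (Real.log (κ * d) / (2 * Real.log (X n)) - v)

/-! ## D5. The relation at a zero -/

/-- The full mollified theta process of the character `χ`; the mollifier has only terms coprime
to `W`. -/
noncomputable def zF {q : ℕ} [NeZero q] (χ : DirichletCharacter ℂ q) (W : ℕ) (ρ h : ℝ → ℝ)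
    (X : ℝ) (Y : ℝ) : ℝ :=
  ∑' p : ℕ × ℕ, (if Nat.Coprime p.2 W then (ArithmeticFunction.moebius p.2 : ℝ) else 0) *
    cR χ (p.1 * p.2) / √((p.1 : ℝ) * p.2) *
      kL (par χ) ρ h (Real.log X) (Y - Real.log p.1 / Real.log X) (Real.log p.2 / Real.log X)

/-- [PS ser] `theorem p_ser  : D_ser`.
The full process. Exactly `van_seriesS` and `vanishS` of Rz2/VanS without the sum over `j` (here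
`n` runs over all naturals): `zF(log q/(2L) - v) = e^(-log q/4)/Gam0 ∫ gth χ u (∑_{l < M} cf(l)
vK(log l/L)(u/L - v)) du`, then evenness (`hsym`, `vK_even`), convolution, `gth_integral`.
`(iii)`: the full Laplace transform vanishes at a zero. -/
def D_ser : Prop :=
  ∀ (q : ℕ) [NeZero q] (hq1 : q ≠ 1) (χ : DirichletCharacter ℂ q)
    (hp : χ.IsPrimitive) (h2 : χ ^ 2 = 1) (hsym : ∀ t : ℝ, gth χ (-t) = gth χ t) (W : ℕ)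
    (ρ h : ℝ → ℝ) (δ θ : ℝ) (hδ : 0 < δ) (hρ : Bump ρ (-(δ / 2)) (δ / 2)) (hρe : ∀ y, ρ (-y) = ρ y)
    (hh : Bump h 0 θ) (X : ℝ) (hX : 1 < X),
  (∀ v, zF χ W ρ h X (Real.log q / (2 * Real.log X) + v) =
      zF χ W ρ h X (Real.log q / (2 * Real.log X) - v)) ∧
    (∀ β : ℝ, Integrable (fun v : ℝ => Real.exp (β * v) *
      zF χ W ρ h X (Real.log q / (2 * Real.log X) - v))) ∧
    ∀ s : ℝ, 0 < s → s < 1 → χ.LFunction s = 0 →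
      ∫ v : ℝ, Real.exp ((s - 1 / 2) * Real.log X * v) *
        zF χ W ρ h X (Real.log q / (2 * Real.log X) - v) = 0

/-- [PS dir] `theorem p_dir (hw : D_wS) : D_dir`.
Dirichlet convolution. Put `(a ⋆ g)(Y) = ∑_n a(n) g(Y - log n/L)` for `a : ℕ → ℝ` with `|a(n)| ≤
n^(-1/2) d(n)^c`; `(a * b) ⋆ g = a ⋆ (b ⋆ g)` (absolute convergence by `|g(Y)| ≤ C e^(2LY)`: terms
`≤ n^(-5/2)`). For fixed `b₂` put `Y' = Y + log b₂/L`. (1) `∑_{b₁ ∣ ∏B} b₁^(-1/2) ∑_n χ(n)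
n^(-1/2) g(Y' - log(b₁ n)/L) = ∑_{(m, ∏B) = 1} χ(m) m^(-1/2) g(Y' - log m/L)`, since `1 =
μ(b)χ(b)` for `b ∣ ∏B` (`χ(p) = -1`), and `∑_{b ∣ m, b ∣ ∏B} μ(b) = 1[(m, ∏B) = 1]`. (2) every `m`
coprime to `∏B` is uniquely `n₁ n` with `n₁ ∈ factoredNumbers A`, `n` coprime to `∏A ∏B`; `χ(n₁) =
1`. (3) `n` coprime to `∏A∏B` but not to `W` has `χ(n) = 0` (`hWp`). So the right side is `c
∑_{b₂} b₂^(-1/2) ∑_{n₁} n₁^(-1/2) Z(Y + log b₂/L - log n₁/L)` = left side. -/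
def D_dir : Prop :=
  ∀ (A B : Finset ℕ) (hA : ∀ p ∈ A, p.Prime) (hB : ∀ p ∈ B, p.Prime)
    (hAB : Disjoint A B) (χ : ℕ → ℝ) (hχ1 : χ 1 = 1) (hχm : ∀ m n, χ (m * n) = χ m * χ n)
    (hχb : ∀ n, |χ n| ≤ 1) (hχA : ∀ p ∈ A, χ p = 1) (hχB : ∀ p ∈ B, χ p = -1) (W : ℕ) (hW : W ≠ 0)
    (hWp : ∀ p : ℕ, p.Prime → (p ∣ W ↔ p ∈ A ∨ p ∈ B ∨ (p ∣ W ∧ χ p = 0))) (L C : ℝ) (hL : 0 < L)
    (g : ℝ → ℝ) (hg : ∀ Y, |g Y| ≤ C * Real.exp (2 * L * Y)) (Y : ℝ),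
  shf A B L (fun Y => ∑' n : ℕ, if Nat.Coprime n W then
        χ n / √(n : ℝ) * g (Y - Real.log n / L) else 0) Y =
      (∏ p ∈ A, (1 - 1 / √(p : ℝ))) / (∏ p ∈ B, (1 + 1 / √(p : ℝ))) *
      ∑ b₁ ∈ (∏ p ∈ B, p).divisors, ∑ b₂ ∈ (∏ p ∈ B, p).divisors, 1 / √((b₁ * b₂ : ℕ) : ℝ) *
        ∑' n : ℕ, χ n / √(n : ℝ) *
          g (Y - (Real.log b₁ - Real.log b₂) / L - Real.log n / L)

/-- [PS van] `theorem p_van (hz : D_ser) (hd : D_dir) (hy : D_ybc) : D_van`.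
Combine: `yB (par χ) σ u P ρ h X d Y = ∑_{(n, 2P) = 1} cR χ n /√n g(Y - log n/L)` with `g(Y) =
∑_{(l, 2P) = 1} μ(l) cR χ l/√l kL (par χ) ρ h L Y (log l/L)` (finite sum, `kL = 0` for `log l ≥ θ
L`; `|g Y| ≤ C e^(2LY)`), since `jr (2 σ u P² d) m = cR χ m` if `(m, 2P) = 1`, `0` otherwise.
`D_dir`: `shf (yB) Y = c ∑_{b₁,b₂} (b₁b₂)^(-1/2) zF(Y - (log b₁ - log b₂)/L)`, `zF = zF χ (2P)`.
With `D_ser`: `v ↦ shf(yB)(b - v)` is even (exchange `b₁, b₂`), `e^(βv)` times it is integrable,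
and the integrals with `β = ±(s - 1/2)L` vanish (translation); finish as in `vanishS`. -/
def D_van : Prop :=
  ∀ (q : ℕ) [NeZero q] (hq1 : q ≠ 1) (χ : DirichletCharacter ℂ q)
    (hp : χ.IsPrimitive) (h2 : χ ^ 2 = 1) (hsym : ∀ t : ℝ, gth χ (-t) = gth χ t)
    (A B : Finset ℕ) (hA : ∀ p ∈ A, p.Prime) (hB : ∀ p ∈ B, p.Prime) (hAB : Disjoint A B)
    (hχA : ∀ p ∈ A, cR χ p = 1) (hχB : ∀ p ∈ B, cR χ p = -1) (σ : ℤ) (u P d : ℕ) (hP : Odd P)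
    (hval : ∀ n : ℕ, Odd n → χ n = (sy σ u d n : ℂ))
    (hWp : ∀ p : ℕ, p.Prime → (p ∣ 2 * P ↔ p ∈ A ∨ p ∈ B ∨ (p ∣ 2 * P ∧ cR χ p = 0)))
    (ρ h : ℝ → ℝ) (δ θ : ℝ) (hδ : 0 < δ) (hρ : Bump ρ (-(δ / 2)) (δ / 2)) (hρe : ∀ y, ρ (-y) = ρ y)
    (hh : Bump h 0 θ) (X : ℝ) (hX : 1 < X) (s : ℝ) (hs0 : 0 < s) (hs1 : s < 1)
    (hz : χ.LFunction s = 0),
  IntegrableOn (fun v : ℝ => Real.cosh ((s - 1 / 2) * Real.log X * v) *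
      shf A B (Real.log X) (yB (par χ) σ u P ρ h X d)
        (Real.log q / (2 * Real.log X) - v)) (Set.Ioi 0) ∧
    ∫ v in Set.Ioi (0 : ℝ), Real.cosh ((s - 1 / 2) * Real.log X * v) *
      shf A B (Real.log X) (yB (par χ) σ u P ρ h X d)
        (Real.log q / (2 * Real.log X) - v) = 0

/-! ## D6. Characters -/

/-- [PS char] `theorem p_char  : D_char`.
Characters: `κ = 8`: `char_eq_jr` (Rz/Rt0), `κ = 1, 4`: `char_eqG` (Rz2/CharG) with `Fam 8 1 1 1`,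
`Fam 8 5 (-1) 1`, `Fam 4 3 0 4` (`c = 3, 7` modulo `8`), `sy σ 2 d = jr (σ d)`; `d` is odd by the
class; `κ d ≠ 1`: for `κ = 1`, `d = 1` the number `2 σ u d = 4 σ` is a square or `σ d ≡ 7`;
symmetry: `gth_symm_all` (Rz/WPos); `par_even`, `par_odd`. -/
def D_char : Prop :=
  ∀ (m c ε : ℤ) (κ u : ℕ) (hf : FamP m c ε κ u) (σ : ℤ) (hσ : σ = 1 ∨ σ = -1) (d : ℕ)
    (hs : Squarefree d) (hR : RU m c σ u d) [NeZero (κ * d)]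
    (χ : DirichletCharacter ℂ (κ * d)) (hp : χ.IsPrimitive) (h2 : χ ^ 2 = 1)
    (hpar : (σ = 1 ∧ χ.Even) ∨ (σ = -1 ∧ χ.Odd)),
  κ * d ≠ 1 ∧ (∀ n : ℕ, Odd n → χ n = (sy σ u d n : ℂ)) ∧ χ 2 = (ε : ℂ) ∧
      (∀ t : ℝ, gth χ (-t) = gth χ t) ∧ par χ = (if σ = 1 then 0 else 1)

/-- [PS bad] `theorem p_bad (hd : D_det) (hv : D_van) (hc : D_char) (hl : D_wSl) : D_bad`.
If `¬ NZP κ σ d` take the character `χ` and its zero `s`, `α = s - 1/2`, `a = α log X`. `D_char`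
gives the values of `χ`; `par χ = if σ = 1 then 0 else 1`. On `setA` the value is `1`, on `setB`
it is `-1` (pattern and `χ 2 = ε`), primes of `R` divide `d` (value `0`), `χ 2 = 0` if `ε = 0`.
`ShQ X (3c₀) (setA ..) (setB ..)` from `D_wSl`. `D_van` (with `q = κ d`) and `D_det` (with `θ = θ₀
+ 3δ`, `Bump h 0 θ` from `Bump h (2δ) θ`). -/
def D_bad : Prop :=
  ∀ (c₀ : ℝ) (X y : ℕ → ℝ) (P Q R : ℕ → ℕ) (hs : PSq c₀ X y P Q R)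
    (σ : ℤ) (hσ : σ = 1 ∨ σ = -1) (m c ε : ℤ) (κ u : ℕ) (hf : FamP m c ε κ u)
    (ρ h : ℝ → ℝ) (δ θ₀ : ℝ) (hδ : 0 < δ) (hδ4 : δ ≤ 1 / 100) (hc₀ : 3 * c₀ ≤ δ / 32)
    (hθ₀ : 0 < θ₀) (hθ1 : θ₀ + 3 * δ < 1 / 2) (hρ : Bump ρ (-(δ / 2)) (δ / 2))
    (hρn : ∀ y, 0 ≤ ρ y) (hρe : ∀ y, ρ (-y) = ρ y) (hρ1 : ∫ y, ρ y = 1)
    (hh : Bump h (2 * δ) (θ₀ + 3 * δ)) (hhn : ∀ t, 0 ≤ h t)
    (hH : ∀ t, Hid θ₀ (t - 2 * δ) ≤ HH h t),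
  BadP (fun n => RP m c σ u (P n) (Q n) (R n)) (fun _ d => NZP κ σ d) X θ₀ δ
      (fun n d v => yP (if σ = 1 then 0 else 1) ε σ u (P n) (Q n) (R n) ρ h (X n) d
        (Real.log (κ * d) / (2 * Real.log (X n)) - v))

end Pool.Agent.MP0016c7.Rz
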