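import Mathlib
import Pool.Agent.Lib.MP_0016c7_nt.PS.Stm

set_option autoImplicit false

/-!
Prescribed splitting, [PS avsy]: average of the symbol over the pattern family.
-/

open Finset MeasureTheory Filter Topology
open scoped Real ContDiff

namespace Pool.Agent.MP0016c7.Rz

private theorem avsy_odd {y : ℝ} {P Q R : ℕ} (hp : Pat y P Q R) : Odd P := hp.odd

private theorem avsy_pf {y : ℝ} {P Q R : ℕ} (hp : Pat y P Q R) :
    P.primeFactors.filter (fun p => ¬ p ∣ R) = (P / R).primeFactors := by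
  have hP0 : P ≠ 0 := hp.sf.ne_zero
  have hPR : R * (P / R) = P := Nat.mul_div_cancel' hp.hR
  have hco : Nat.Coprime R (P / R) := by
    have h := hp.sf
    rw [← hPR] at h
    exact Nat.coprime_of_squarefree_mul h
  have h0 : P / R ≠ 0 := by
    intro h
    rw [h, mul_zero] at hPR
    exact hP0 hPR.symm
  ext p
  rw [Finset.mem_filter, Nat.mem_primeFactors, Nat.mem_primeFactors]
  constructor
  · rintro ⟨⟨h1, h2, -⟩, h3⟩
    refine ⟨h1, ?_, h0⟩
    rw [← hPR] at h2
    exact (h1.dvd_mul.1 h2).resolve_left h3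
  · rintro ⟨h1, h2, -⟩
    refine ⟨⟨h1, h2.trans (Nat.div_dvd_of_dvd hp.hR), hP0⟩, ?_⟩
    intro h3
    have := Nat.Coprime.eq_one_of_dvd (Nat.Coprime.coprime_dvd_left h3 hco) h2
    exact h1.one_lt.ne' this

private theorem avsy_DP {y : ℝ} {P Q R : ℕ} (hp : Pat y P Q R) (m : ℤ) :
    DP m P R = 1 / m * (phP P * (1 / (R : ℝ) * (1 / 2) ^ (P / R).primeFactors.card)) := by
  unfold DP
  have hR : Squarefree R := hp.sf.squarefree_of_dvd hp.hR
  have h1 : ∏ p ∈ R.primeFactors, (1 / (p : ℝ)) = 1 / (R : ℝ) := by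
    conv_rhs => rw [← Nat.prod_primeFactors_of_squarefree hR]
    push_cast
    rw [Finset.prod_div_distrib, Finset.prod_const_one]
  rw [h1, Finset.prod_const, avsy_pf hp]

private theorem avsy_summable {F : ℝ → ℝ} {a b : ℝ} (hF : Bump F a b) {X : ℝ} (hX : 0 < X)
    (g : ℕ → ℝ) (hg : ∀ d : ℕ, F (d / X) = 0 → g d = 0) : Summable g := by
  refine summable_of_ne_finset_zero (s := Finset.range (⌈b * X⌉₊ + 1)) fun d hd => ?_
  refine hg d ?_
  by_contra h
  have h1 := (hF.supp _ h).2
  rw [div_lt_iff₀ hX] at h1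
  have h2 : d < ⌈b * X⌉₊ := by
    exact_mod_cast h1.trans_le (Nat.le_ceil _)
  rw [Finset.mem_range] at hd
  omega

theorem p_avsy (hi : D_ind) : D_avsy := by
  classical
  intro F a b ha hF m c ε σ κ u hf hσ y P Q R hp X hX N hN
  have hPodd : Odd P := avsy_odd hp
  have hNodd : Odd N := by
    rw [← Nat.not_even_iff_odd, even_iff_two_dvd]
    intro h
    have h2 : 2 ∣ Nat.gcd N (2 * P) := Nat.dvd_gcd h (Dvd.intro _ rfl)
    rw [hN] at h2
    omega
  have hP1 : Odd (P / R) := hPodd.of_dvd_nat (Nat.div_dvd_of_dvd hp.hR)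
  have hm : (m : ℝ) ≠ 0 := by
    rcases hf with h | h | h | h | h <;> · rw [h.1]; norm_num
  have hR0 : (R : ℝ) ≠ 0 := by
    have : R ≠ 0 := (hp.sf.squarefree_of_dvd hp.hR).ne_zero
    exact_mod_cast this
  -- multiplicativity
  have hmul : ∀ d : ℕ, ∀ e ∈ (P / R).divisors,
      sy σ u d (e * (P / R) ^ 2) * sy σ u d N = sy σ u d (e * (P / R) ^ 2 * N) := by
    intro d e he
    have he' : Odd e := hP1.of_dvd_nat (Nat.dvd_of_mem_divisors he)
    have h1 : Odd (e * (P / R) ^ 2) := he'.mul hP1.pow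
    have h2 : Odd (e * (P / R) ^ 2 * N) := h1.mul hNodd
    unfold sy jr
    rw [if_pos h1, if_pos hNodd, if_pos h2]
    have i1 : NeZero (e * (P / R) ^ 2) := ⟨h1.pos.ne'⟩
    have i2 : NeZero N := ⟨hNodd.pos.ne'⟩
    rw [jacobiSym.mul_right _ (e * (P / R) ^ 2) N, Int.cast_mul]
  -- the terms
  set G : ℕ → ℕ → ℕ → ℝ := fun e f d =>
    if RU m c σ u d ∧ R * f ∣ d then F (d / X) * sy σ u d (e * (P / R) ^ 2 * N) else 0 with hG
  set K : ℕ → ℕ → ℝ := fun e f => 1 / 2 ^ (P / R).primeFactors.card *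
    (eps Q e * (ArithmeticFunction.moebius f : ℝ)) with hK
  have hterm : ∀ d : ℕ, (@ite ℝ (RP m c σ u P Q R d) (Classical.dec _)
      (F (d / X) * sy σ u d N) 0) =
      ∑ e ∈ (P / R).divisors, ∑ f ∈ R.divisors, K e f * G e f d := by
    intro d
    by_cases hd : RU m c σ u d
    · have h1 := hi m c ε σ κ u hf hσ y P Q R hp d hd
      have h2 : (@ite ℝ (RP m c σ u P Q R d) (Classical.dec _) (F (d / X) * sy σ u d N) 0) =
          (F (d / X) * sy σ u d N) * (if RP m c σ u P Q R d then (1 : ℝ) else 0) := by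
        by_cases h : RP m c σ u P Q R d
        · rw [if_pos h, if_pos h, mul_one]
        · rw [if_neg h, if_neg h, mul_zero]
      rw [h2]
      have h3 : (if RP m c σ u P Q R d then (1 : ℝ) else 0) =
          1 / 2 ^ (P / R).primeFactors.card * ∑ e ∈ (P / R).divisors, ∑ f ∈ R.divisors,
            eps Q e * (ArithmeticFunction.moebius f : ℝ) *
              (if R * f ∣ d then sy σ u d (e * (P / R) ^ 2) else 0) := by
        rw [← h1]
      rw [h3, Finset.mul_sum, Finset.mul_sum]
      refine Finset.sum_congr rfl fun e he => ?_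
      rw [Finset.mul_sum, Finset.mul_sum]
      refine Finset.sum_congr rfl fun f _ => ?_
      rw [hK, hG]
      by_cases hfd : R * f ∣ d
      · rw [if_pos hfd]
        simp only []
        rw [if_pos ⟨hd, hfd⟩, ← hmul d e he]
        ring
      · rw [if_neg hfd]
        simp only []
        rw [if_neg (fun h => hfd h.2)]
        ring
    · have h1 : ¬ RP m c σ u P Q R d := fun h => hd h.1
      rw [if_neg h1]
      symm
      refine Finset.sum_eq_zero fun e _ => Finset.sum_eq_zero fun f _ => ?_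
      rw [hG]
      simp only []
      rw [if_neg (fun h => hd h.1), mul_zero]
  have hsum : ∀ e f : ℕ, Summable (fun d => K e f * G e f d) := by
    intro e f
    refine avsy_summable hF hX _ fun d hd => ?_
    rw [hG]
    simp only []
    rw [hd, zero_mul, ite_self, mul_zero]
  have htsum : ∑' d : ℕ, (@ite ℝ (RP m c σ u P Q R d) (Classical.dec _)
      (F (d / X) * sy σ u d N) 0) =
      ∑ e ∈ (P / R).divisors, ∑ f ∈ R.divisors, K e f * ∑' d, G e f d := by
    rw [tsum_congr hterm, Summable.tsum_finsetSum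
      (fun e _ => summable_sum fun f _ => hsum e f)]
    refine Finset.sum_congr rfl fun e _ => ?_
    rw [Summable.tsum_finsetSum (fun f _ => hsum e f)]
    refine Finset.sum_congr rfl fun f _ => ?_
    rw [tsum_mul_left]
  have hPR : ∀ e f : ℕ, PRq F m c σ u (R * f) X (e * (P / R) ^ 2 * N) =
      m * ((R * f : ℕ) : ℝ) / X * ∑' d, G e f d := by
    intro e f
    unfold PRq
    congr 1
  unfold avP avS
  rw [htsum, Finset.mul_sum, Finset.mul_sum]
  refine Finset.sum_congr rfl fun e _ => ?_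
  rw [Finset.mul_sum, Finset.mul_sum]
  refine Finset.sum_congr rfl fun f hfm => ?_
  have hf0 : (f : ℝ) ≠ 0 := by
    have : f ≠ 0 := (Nat.pos_of_mem_divisors hfm).ne'
    exact_mod_cast this
  rw [hPR, avsy_DP hp m, hK]
  simp only []
  push_cast
  have h2 : (2 : ℝ) ^ (P / R).primeFactors.card ≠ 0 := by positivity
  rw [one_div_pow]
  by_cases hph : phP P = 0
  · rw [hph]
    simp
  · field_simp

end Pool.Agent.MP0016c7.Rz
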