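import Mathlib
import Pool.Agent.Lib.MP_0016c7_nt.PS.Stm

set_option autoImplicit false

/-!
Prescribed splitting, piece bad: the linear relation for the discriminants with a zero.
-/

open Finset MeasureTheory Filter Topology
open scoped Real ContDiff

namespace Pool.Agent.MP0016c7.Rz

private lemma bad_odd {y : ℝ} {P Q R : ℕ} (hp : Pat y P Q R) : Odd P := hp.odd

private lemma bad_cR {q : ℕ} [NeZero q] (χ : DirichletCharacter ℂ q) (n : ℕ) (r : ℝ)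
    (h : χ (n : ZMod q) = (r : ℂ)) : cR χ n = r := by
  rw [cR, h, Complex.ofReal_re]

theorem p_bad (hd : D_det) (hv : D_van) (hc : D_char) (hl : D_wSl) : D_bad := by
  intro c₀ X y P Q R hs σ hσ m c ε κ u hf ρ h δ θ₀ hδ hδ4 hc₀ hθ₀ hθ1 hρ hρn hρe hρ1 hh hhn hH ε' hε'
  obtain ⟨l1, l2, l3, l4⟩ := hl c₀ X y P Q R hs ε
  have hq : ShQ X (3 * c₀) (fun n => setA ε (P n) (Q n) (R n)) (fun n => setB ε (Q n)) :=
    ⟨l2, l3, l1, l4⟩
  have hh0 : Bump h 0 (θ₀ + 3 * δ) :=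
    ⟨hh.smooth, fun t ht => ⟨by linarith [(hh.supp t ht).1], (hh.supp t ht).2⟩⟩
  have hκ : κ = 1 ∨ κ = 4 ∨ κ = 8 := by
    rcases hf with ⟨-, -, -, h, -⟩ | ⟨-, -, -, h, -⟩ | ⟨-, -, -, h, -⟩ | ⟨-, -, -, h, -⟩ |
      ⟨-, -, -, h, -⟩ <;> simp [h]
  have hε : ε = 0 ∨ ε = 1 ∨ ε = -1 := by
    rcases hf with ⟨-, -, h, -, -⟩ | ⟨-, -, h, -, -⟩ | ⟨-, -, h, -, -⟩ | ⟨-, -, h, -, -⟩ |
      ⟨-, -, h, -, -⟩ <;> simp [h]
  have hc' : (if σ = 1 then (0 : ℝ) else 1) = 0 ∨ (if σ = 1 then (0 : ℝ) else 1) = 1 := by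
    split_ifs <;> simp
  have hdet := hd ρ h δ (θ₀ + 3 * δ) θ₀ hδ hδ4 hθ₀ (by linarith) hθ1 hρ hρn hρ1 hh0 hhn hH
    (if σ = 1 then (0 : ℝ) else 1) hc' σ κ u hκ X hs.one hs.lim _ _ (3 * c₀)
    (by linarith [hs.c0]) hc₀ hq P ε' hε'
  filter_upwards [hdet] with n hn
  intro d hd1 hd2 hRP hsf hNZ
  have hpat := hs.pat n
  have hPodd : Odd (P n) := bad_odd hpat
  have hP0 : P n ≠ 0 := hpat.sf.ne_zero
  have hQ0 : Q n ≠ 0 := fun h0 => hP0 (Nat.eq_zero_of_zero_dvd (h0 ▸ hpat.hQ))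
  obtain ⟨iNe, χ, hp, h2, hpar, s, hs0, hs1, hz⟩ : ∃ (_ : NeZero (κ * d))
      (χ : DirichletCharacter ℂ (κ * d)), χ.IsPrimitive ∧ χ ^ 2 = 1 ∧
      ((σ = 1 ∧ χ.Even) ∨ (σ = -1 ∧ χ.Odd)) ∧ ∃ s : ℝ, 0 < s ∧ s < 1 ∧ χ.LFunction s = 0 := by
    by_contra hno
    apply hNZ
    intro i χ hp h2 hpar s hs0 hs1 hz
    exact hno ⟨i, χ, hp, h2, hpar, s, hs0, hs1, hz⟩
  obtain ⟨hq1, hval, hval2, hsym, hparv⟩ := hc m c ε κ u hf σ hσ d hsf hRP.1 χ hp h2 hpar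
  -- the values of the character
  have hodd : ∀ p : ℕ, p.Prime → p ∣ P n → Odd p := by
    intro p hp1 hp2
    exact hPodd.of_dvd_nat hp2
  have hvA : ∀ p : ℕ, p.Prime → p ∣ P n → ¬ p ∣ Q n → ¬ p ∣ R n → cR χ p = 1 := by
    intro p hp1 hp2 hp3 hp4
    have h1 := (hRP.2 p (Nat.mem_primeFactors.2 ⟨hp1, hp2, hP0⟩)).2 hp4
    rw [if_neg hp3] at h1
    apply bad_cR
    rw [hval p (hodd p hp1 hp2), h1]
  have hvB : ∀ p : ℕ, p.Prime → p ∣ Q n → cR χ p = -1 := by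
    intro p hp1 hp2
    have hpP : p ∣ P n := hp2.trans hpat.hQ
    have hpR : ¬ p ∣ R n := fun hpR => Nat.not_coprime_of_dvd_of_dvd hp1.one_lt hp2 hpR hpat.co
    have h1 := (hRP.2 p (Nat.mem_primeFactors.2 ⟨hp1, hpP, hP0⟩)).2 hpR
    rw [if_pos hp2] at h1
    apply bad_cR
    rw [hval p (hodd p hp1 hpP), h1]
  have hv0 : ∀ p : ℕ, p.Prime → p ∣ P n → p ∣ R n → cR χ p = 0 := by
    intro p hp1 hp2 hp3
    have h1 := ((hRP.2 p (Nat.mem_primeFactors.2 ⟨hp1, hp2, hP0⟩)).1 hp3).1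
    apply bad_cR
    rw [Complex.ofReal_zero]
    apply χ.map_nonunit
    rw [ZMod.isUnit_iff_coprime]
    intro hco
    exact Nat.not_coprime_of_dvd_of_dvd hp1.one_lt (dvd_refl p) (h1.mul_left κ) hco
  have hv2 : cR χ 2 = (ε : ℝ) := by
    apply bad_cR
    rw [Nat.cast_ofNat, hval2]
    simp
  have h2P : ¬ 2 ∣ P n := by
    intro h
    exact (Nat.not_even_iff_odd.2 hPodd) (even_iff_two_dvd.2 h)
  have memA : ∀ p : ℕ, p ∈ setA ε (P n) (Q n) (R n) ↔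
      (p.Prime ∧ p ∣ P n ∧ ¬ p ∣ Q n ∧ ¬ p ∣ R n) ∨ (ε = 1 ∧ p = 2) := by
    intro p
    unfold setA
    rw [mem_union, mem_filter, Nat.mem_primeFactors]
    constructor
    · rintro (⟨⟨a1, a2, -⟩, a3, a4⟩ | a)
      · exact Or.inl ⟨a1, a2, a3, a4⟩
      · right
        split_ifs at a with h1
        · exact ⟨h1, mem_singleton.1 a⟩
        · exact absurd a (notMem_empty _)
    · rintro (⟨a1, a2, a3, a4⟩ | ⟨a1, a2⟩)
      · exact Or.inl ⟨⟨a1, a2, hP0⟩, a3, a4⟩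
      · right
        rw [if_pos a1, a2]
        exact mem_singleton_self _
  have memB : ∀ p : ℕ, p ∈ setB ε (Q n) ↔ (p.Prime ∧ p ∣ Q n) ∨ (ε = -1 ∧ p = 2) := by
    intro p
    unfold setB
    rw [mem_union, Nat.mem_primeFactors]
    constructor
    · rintro (⟨a1, a2, -⟩ | a)
      · exact Or.inl ⟨a1, a2⟩
      · right
        split_ifs at a with h1
        · exact ⟨h1, mem_singleton.1 a⟩
        · exact absurd a (notMem_empty _)
    · rintro (⟨a1, a2⟩ | ⟨a1, a2⟩)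
      · exact Or.inl ⟨a1, a2, hQ0⟩
      · right
        rw [if_pos a1, a2]
        exact mem_singleton_self _
  have hAB : Disjoint (setA ε (P n) (Q n) (R n)) (setB ε (Q n)) := by
    rw [disjoint_left]
    intro p hpA hpB
    rcases (memA p).1 hpA with ⟨a1, a2, a3, a4⟩ | ⟨a1, a2⟩
    · rcases (memB p).1 hpB with ⟨b1, b2⟩ | ⟨b1, b2⟩
      · exact a3 b2
      · exact h2P (b2 ▸ a2)
    · rcases (memB p).1 hpB with ⟨b1, b2⟩ | ⟨b1, b2⟩
      · exact h2P ((a2 ▸ b2).trans hpat.hQ)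
      · rw [a1] at b1
        exact absurd b1 (by norm_num)
  have hχA : ∀ p ∈ setA ε (P n) (Q n) (R n), cR χ p = 1 := by
    intro p hpA
    rcases (memA p).1 hpA with ⟨a1, a2, a3, a4⟩ | ⟨a1, a2⟩
    · exact hvA p a1 a2 a3 a4
    · rw [a2, hv2, a1]
      norm_num
  have hχB : ∀ p ∈ setB ε (Q n), cR χ p = -1 := by
    intro p hpB
    rcases (memB p).1 hpB with ⟨b1, b2⟩ | ⟨b1, b2⟩
    · exact hvB p b1 b2
    · rw [b2, hv2, b1]
      norm_num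
  have hWp : ∀ p : ℕ, p.Prime → (p ∣ 2 * P n ↔ p ∈ setA ε (P n) (Q n) (R n) ∨ p ∈ setB ε (Q n) ∨
      (p ∣ 2 * P n ∧ cR χ p = 0)) := by
    intro p hp1
    constructor
    · intro hp2
      rcases (Nat.Prime.dvd_mul hp1).1 hp2 with h3 | h3
      · have h4 : p = 2 := (Nat.prime_dvd_prime_iff_eq hp1 Nat.prime_two).1 h3
        rcases hε with h5 | h5 | h5
        · right; right
          refine ⟨hp2, ?_⟩
          rw [h4, hv2, h5]
          norm_num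
        · exact Or.inl ((memA p).2 (Or.inr ⟨h5, h4⟩))
        · exact Or.inr (Or.inl ((memB p).2 (Or.inr ⟨h5, h4⟩)))
      · by_cases h5 : p ∣ Q n
        · exact Or.inr (Or.inl ((memB p).2 (Or.inl ⟨hp1, h5⟩)))
        · by_cases h6 : p ∣ R n
          · exact Or.inr (Or.inr ⟨hp2, hv0 p hp1 h3 h6⟩)
          · exact Or.inl ((memA p).2 (Or.inl ⟨hp1, h3, h5, h6⟩))
    · rintro (h3 | h3 | h3)
      · rcases (memA p).1 h3 with ⟨a1, a2, a3, a4⟩ | ⟨a1, a2⟩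
        · exact a2.mul_left 2
        · rw [a2]
          exact dvd_mul_right 2 _
      · rcases (memB p).1 h3 with ⟨b1, b2⟩ | ⟨b1, b2⟩
        · exact (b2.trans hpat.hQ).mul_left 2
        · rw [b2]
          exact dvd_mul_right 2 _
      · exact h3.1
  have hvan := hv (κ * d) hq1 χ hp h2 hsym _ _ (l2 n) (l3 n) hAB hχA hχB σ u (P n) d hPodd hval
    hWp ρ h δ (θ₀ + 3 * δ) hδ hρ hρe hh0 (X n) (hs.one n) s hs0 hs1 hz
  rw [hparv, Nat.cast_mul] at hvan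
  refine ⟨(s - 1 / 2) * Real.log (X n), hvan.1, hvan.2, ?_⟩
  exact hn d hd1 hd2 (s - 1 / 2) (by rw [abs_le]; constructor <;> linarith)

end Pool.Agent.MP0016c7.Rz
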