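import Mathlib
import Pool.Agent.Lib.MP_0016c7_nt.PS.Stm
import Pool.Agent.Lib.MP_0016c7_nt.Rz.ArithA1

set_option autoImplicit false

open Finset MeasureTheory Filter Topology
open scoped Real ContDiff

namespace Pool.Agent.MP0016c7.Rz

/-! ### values at prime powers -/

private lemma bzz_sq1_pp {p : ℕ} (hp : p.Prime) (k : ℕ) :
    sq1 (p ^ k) = if Odd k then p else 1 := by
  unfold sq1
  rcases Nat.eq_zero_or_pos k with rfl | hk
  · simp
  · rw [Nat.primeFactors_prime_pow hk.ne' hp]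
    have hf : (p ^ k).factorization p = k := by
      rw [hp.factorization_pow]; simp
    by_cases h : Odd k
    · rw [if_pos h, Finset.filter_singleton, hf, if_pos h, Finset.prod_singleton]
    · rw [if_neg h, Finset.filter_singleton, hf, if_neg h, Finset.prod_empty]

private lemma bzz_sq2_pp {p : ℕ} (hp : p.Prime) (k : ℕ) : sq2 (p ^ k) = p ^ (k / 2) := by
  unfold sq2
  rcases Nat.eq_zero_or_pos k with rfl | hk
  · simp
  · rw [Nat.primeFactors_prime_pow hk.ne' hp, Finset.prod_singleton]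
    have hf : (p ^ k).factorization p = k := by
      rw [hp.factorization_pow]; simp
    rw [hf]

private lemma bzz_rho_odd {p : ℕ} (hp : p.Prime) (k : ℕ) (hk : Odd k) : rhoN (p ^ k) = 1 := by
  unfold rhoN
  rw [bzz_sq1_pp hp, bzz_sq2_pp hp, if_pos hk]
  refine Finset.prod_eq_one fun q hq => ?_
  rw [Finset.mem_filter] at hq
  exfalso
  apply hq.2
  have h1 := Nat.dvd_of_mem_primeFactors hq.1
  exact (Nat.prime_of_mem_primeFactors hq.1).dvd_of_dvd_pow h1

private lemma bzz_rho_even {p : ℕ} (hp : p.Prime) (k : ℕ) (hk : ¬ Odd k) (hk0 : k ≠ 0) :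
    rhoN (p ^ k) = 1 - 1 / (p : ℝ) := by
  unfold rhoN
  rw [bzz_sq1_pp hp, bzz_sq2_pp hp, if_neg hk]
  have h2 : k / 2 ≠ 0 := by
    rw [Nat.not_odd_iff_even] at hk
    obtain ⟨j, hj⟩ := hk
    omega
  rw [Nat.primeFactors_prime_pow h2 hp, Finset.filter_singleton,
    if_pos (by simpa using hp.one_lt.ne'), Finset.prod_singleton]

private lemma bzz_rho_one : rhoN 1 = 1 := by
  unfold rhoN sq2
  simp

/-! ### the sum over divisors as a Dirichlet convolution -/

private lemma bzz_cpow_real (t : ℝ) (ht : 0 < t) (z : ℂ) :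
    (t : ℂ) ^ z = Complex.exp ((Real.log t : ℂ) * z) := by
  rw [Complex.cpow_def_of_ne_zero (by exact_mod_cast ht.ne'), Complex.ofReal_log ht.le]

private lemma bzz_S (z : ℂ) (a : ℕ) (ha : a ≠ 0) :
    ∑ e ∈ a.divisors, (ArithmeticFunction.moebius e : ℂ) *
      (((a : ℝ) / (e : ℝ) ^ 2 : ℝ) : ℂ) ^ z = (pmA z * pwA (-z)) a := by
  rw [ArithmeticFunction.mul_apply]
  rw [Nat.sum_divisorsAntidiagonal (f := fun i j => pmA z i * pwA (-z) j)]
  refine Finset.sum_congr rfl fun e he => ?_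
  have hdvd : e ∣ a := Nat.dvd_of_mem_divisors he
  have he0 : e ≠ 0 := fun h => ha (by rw [h] at hdvd; exact Nat.eq_zero_of_zero_dvd hdvd)
  obtain ⟨c, rfl⟩ := hdvd
  have hc0 : c ≠ 0 := fun h => ha (by rw [h, mul_zero])
  rw [Nat.mul_div_cancel_left c (Nat.pos_of_ne_zero he0)]
  have h1 : pmA z e = (ArithmeticFunction.moebius e : ℂ) * (e : ℂ) ^ (-z) := by
    simp [pmA, he0]
  have h2 : pwA (-z) c = (c : ℂ) ^ z := by
    simp [pwA, hc0]
  rw [h1, h2, mul_assoc]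
  congr 1
  have heR : (0 : ℝ) < e := by exact_mod_cast Nat.pos_of_ne_zero he0
  have hcR : (0 : ℝ) < c := by exact_mod_cast Nat.pos_of_ne_zero hc0
  have h3 : (((e * c : ℕ) : ℝ) / (e : ℝ) ^ 2) = c / e := by
    push_cast
    field_simp
  rw [h3, bzz_cpow_real _ (by positivity)]
  have h4 : (e : ℂ) ^ (-z) = Complex.exp ((Real.log e : ℂ) * (-z)) := by
    rw [← bzz_cpow_real _ heR]
    norm_cast
  have h5 : (c : ℂ) ^ z = Complex.exp ((Real.log c : ℂ) * z) := by
    rw [← bzz_cpow_real _ hcR]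
    norm_cast
  rw [h4, h5, ← Complex.exp_add, Real.log_div hcR.ne' heR.ne']
  congr 1
  push_cast
  ring

private lemma bzz_pwA_mult (s : ℂ) : (pwA s).IsMultiplicative := by
  rw [ArithmeticFunction.IsMultiplicative.iff_ne_zero]
  constructor
  · simp [pwA]
  · intro m n hm hn _
    simp only [pwA, ArithmeticFunction.coe_mk, hm, hn, mul_eq_zero, or_self, if_false]
    push_cast
    exact Complex.natCast_mul_natCast_cpow m n (-s)

private lemma bzz_pmA_mult (w : ℂ) : (pmA w).IsMultiplicative := by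
  rw [ArithmeticFunction.IsMultiplicative.iff_ne_zero]
  constructor
  · simp [pmA]
  · intro m n hm hn hmn
    simp only [pmA, ArithmeticFunction.coe_mk, hm, hn, mul_eq_zero, or_self, if_false]
    rw [ArithmeticFunction.isMultiplicative_moebius.map_mul_of_coprime hmn]
    push_cast
    rw [Complex.natCast_mul_natCast_cpow m n (-w)]
    ring

private lemma bzz_sq1_ne (n : ℕ) : sq1 n ≠ 0 := by
  have := squarefree_sq1 n
  exact this.ne_zero

private lemma bzz_sq1_dvd (n : ℕ) (hn : n ≠ 0) : sq1 n ∣ n :=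
  ⟨sq2 n ^ 2, (sq1_mul_sq2 n hn).symm⟩

private lemma bzz_sq2_dvd (n : ℕ) (hn : n ≠ 0) : sq2 n ∣ n :=
  ⟨sq1 n * sq2 n, by rw [← mul_assoc, mul_comm (sq2 n), mul_assoc, ← pow_two, sq1_mul_sq2 n hn]⟩

private lemma bzz_rho_mul {m n : ℕ} (h : Nat.Coprime m n) (hm : m ≠ 0) (hn : n ≠ 0) :
    rhoN (m * n) = rhoN m * rhoN n := by
  have hcop : Nat.Coprime (sq2 m) (sq2 n) :=
    (h.coprime_dvd_left (bzz_sq2_dvd m hm)).coprime_dvd_right (bzz_sq2_dvd n hn)
  unfold rhoN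
  rw [sq2_mul h, sq1_mul h, hcop.primeFactors_mul, Finset.filter_union, Finset.prod_union]
  · congr 1
    · refine Finset.prod_congr ?_ fun _ _ => rfl
      refine Finset.filter_congr fun p hp => ?_
      have hpp := Nat.prime_of_mem_primeFactors hp
      have hpm : p ∣ m := (Nat.dvd_of_mem_primeFactors hp).trans (bzz_sq2_dvd m hm)
      have hpn : ¬ p ∣ sq1 n := by
        intro h1
        have h2 : p ∣ n := h1.trans (bzz_sq1_dvd n hn)
        exact hpp.one_lt.ne' (Nat.dvd_one.1 (h ▸ Nat.dvd_gcd hpm h2))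
      rw [hpp.dvd_mul]
      tauto
    · refine Finset.prod_congr ?_ fun _ _ => rfl
      refine Finset.filter_congr fun p hp => ?_
      have hpp := Nat.prime_of_mem_primeFactors hp
      have hpn : p ∣ n := (Nat.dvd_of_mem_primeFactors hp).trans (bzz_sq2_dvd n hn)
      have hpm : ¬ p ∣ sq1 m := by
        intro h1
        have h2 : p ∣ m := h1.trans (bzz_sq1_dvd m hm)
        exact hpp.one_lt.ne' (Nat.dvd_one.1 (h ▸ Nat.dvd_gcd h2 hpn))
      rw [hpp.dvd_mul]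
      tauto
  · exact Finset.disjoint_filter_filter (hcop.disjoint_primeFactors)

private lemma bzz_bz_eq (z : ℂ) (N : ℕ) :
    bz z N = (rhoN N : ℂ) / (√(sq1 N : ℝ) : ℂ) * (pmA z * pwA (-z)) (sq1 N) := by
  unfold bz
  rw [bzz_S z _ (bzz_sq1_ne N)]

private lemma bzz_bz_mul (z : ℂ) {m n : ℕ} (h : Nat.Coprime m n) (hm : m ≠ 0) (hn : n ≠ 0) :
    bz z (m * n) = bz z m * bz z n := by
  rw [bzz_bz_eq, bzz_bz_eq, bzz_bz_eq, bzz_rho_mul h hm hn, sq1_mul h]
  have hcop : Nat.Coprime (sq1 m) (sq1 n) :=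
    (h.coprime_dvd_left (bzz_sq1_dvd m hm)).coprime_dvd_right (bzz_sq1_dvd n hn)
  rw [((bzz_pmA_mult z).mul (bzz_pwA_mult (-z))).map_mul_of_coprime hcop]
  have h1 : √((sq1 m * sq1 n : ℕ) : ℝ) = √(sq1 m : ℝ) * √(sq1 n : ℝ) := by
    push_cast
    rw [Real.sqrt_mul (by positivity)]
  rw [h1]
  push_cast
  have h2 : ((√(sq1 m : ℝ) : ℝ) : ℂ) ≠ 0 := by
    have : (0 : ℝ) < sq1 m := by exact_mod_cast Nat.pos_of_ne_zero (bzz_sq1_ne m)
    exact_mod_cast (Real.sqrt_pos.2 this).ne'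
  have h3 : ((√(sq1 n : ℝ) : ℝ) : ℂ) ≠ 0 := by
    have : (0 : ℝ) < sq1 n := by exact_mod_cast Nat.pos_of_ne_zero (bzz_sq1_ne n)
    exact_mod_cast (Real.sqrt_pos.2 this).ne'
  field_simp

private lemma bzz_bz_one (z : ℂ) : bz z 1 = 1 := by
  unfold bz
  rw [bzz_rho_one]
  simp [sq1]

/-! ### local series -/

private lemma bzz_conv {F G : ArithmeticFunction ℂ} {p : ℕ} (hp : p.Prime) (k : ℕ) :
    (F * G) (p ^ k) = ∑ ij ∈ HasAntidiagonal.antidiagonal k, F (p ^ ij.1) * G (p ^ ij.2) := by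
  rw [ArithmeticFunction.mul_apply]
  rw [Nat.sum_divisorsAntidiagonal (f := fun i j => F i * G j)]
  rw [Nat.sum_divisors_prime_pow hp,
    Finset.Nat.sum_antidiagonal_eq_sum_range_succ (fun i j => F (p ^ i) * G (p ^ j))]
  refine Finset.sum_congr rfl fun i hi => ?_
  rw [Finset.mem_range] at hi
  rw [Nat.pow_div (by omega) hp.pos]

private lemma bzz_bz_odd (z : ℂ) {p : ℕ} (hp : p.Prime) (k : ℕ) (hk : Odd k) :
    bz z (p ^ k) = ((√(p : ℝ) : ℝ) : ℂ)⁻¹ * ((p : ℂ) ^ z - (p : ℂ) ^ (-z)) := by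
  rw [bzz_bz_eq, bzz_rho_odd hp k hk, bzz_sq1_pp hp, if_pos hk]
  have h1 : (pmA z * pwA (-z)) p = (p : ℂ) ^ z - (p : ℂ) ^ (-z) := by
    have h2 := bzz_conv (F := pmA z) (G := pwA (-z)) hp 1
    rw [pow_one] at h2
    rw [h2, Finset.Nat.sum_antidiagonal_eq_sum_range_succ
      (fun i j => pmA z (p ^ i) * pwA (-z) (p ^ j)), Finset.sum_range_succ, Finset.sum_range_one]
    have h3 : ArithmeticFunction.moebius p = -1 := ArithmeticFunction.moebius_apply_prime hp
    simp [pmA, pwA, h3, hp.ne_zero]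
    ring
  rw [h1]
  simp

private lemma bzz_bz_even (z : ℂ) {p : ℕ} (hp : p.Prime) (k : ℕ) (hk : ¬ Odd k) (hk0 : k ≠ 0) :
    bz z (p ^ k) = 1 - 1 / (p : ℂ) := by
  rw [bzz_bz_eq, bzz_rho_even hp k hk hk0, bzz_sq1_pp hp, if_neg hk,
    ((bzz_pmA_mult z).mul (bzz_pwA_mult (-z))).map_one]
  simp

/-! ### the sum over the divisors -/

private lemma bzz_div {p M : ℕ} (hp : p.Prime) (hM : M ≠ 0) :
    (p * M).divisors = M.divisors ∪ M.divisors.image (fun e => p * e) := by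
  ext d
  rw [mem_union, mem_image, Nat.mem_divisors, Nat.mem_divisors]
  constructor
  · rintro ⟨h1, h2⟩
    by_cases h : p ∣ d
    · obtain ⟨e, rfl⟩ := h
      right
      refine ⟨e, ?_, rfl⟩
      rw [Nat.mem_divisors]
      exact ⟨Nat.dvd_of_mul_dvd_mul_left hp.pos h1, hM⟩
    · left
      have hc : Nat.Coprime d p := ((Nat.Prime.coprime_iff_not_dvd hp).2 h).symm
      exact ⟨hc.dvd_of_dvd_mul_left h1, hM⟩
  · rintro (⟨h1, -⟩ | ⟨e, he, rfl⟩)
    · exact ⟨h1.mul_left p, mul_ne_zero hp.ne_zero hM⟩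
    · rw [Nat.mem_divisors] at he
      exact ⟨Nat.mul_dvd_mul_left p he.1, mul_ne_zero hp.ne_zero hM⟩

private lemma bzz_eps {p e Q : ℕ} (hp : p.Prime) (he : ¬ p ∣ e) :
    eps Q (p * e) = (if p ∣ Q then -1 else 1) * eps Q e := by
  have hc : Nat.Coprime p e := (Nat.Prime.coprime_iff_not_dvd hp).2 he
  unfold eps
  have h1 : Nat.gcd (p * e) Q = Nat.gcd p Q * Nat.gcd e Q := by
    rw [Nat.gcd_comm, hc.gcd_mul Q, Nat.gcd_comm Q p, Nat.gcd_comm Q e]
  rw [h1]
  by_cases h : p ∣ Q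
  · rw [if_pos h, Nat.gcd_eq_left h]
    have h2 : Nat.Coprime p (Nat.gcd e Q) := hc.coprime_dvd_right (Nat.gcd_dvd_left e Q)
    rw [ArithmeticFunction.isMultiplicative_moebius.map_mul_of_coprime h2,
      ArithmeticFunction.moebius_apply_prime hp]
    push_cast
    ring
  · rw [if_neg h]
    have h2 : Nat.gcd p Q = 1 := (Nat.Prime.coprime_iff_not_dvd hp).2 h
    rw [h2, one_mul, one_mul]

private lemma bzz_sum (z : ℂ) (Q : ℕ) (S : Finset ℕ) (hS : ∀ p ∈ S, p.Prime) (N : ℕ)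
    (hN0 : N ≠ 0) (hN : ∀ p ∈ S, Nat.Coprime p N) :
    ∑ e ∈ (∏ p ∈ S, p).divisors, (eps Q e : ℂ) * bz z (e * (∏ p ∈ S, p) ^ 2 * N) =
      (∏ p ∈ S, ((1 - 1 / (p : ℂ)) * (1 + (if p ∣ Q then -1 else 1) *
        (((p : ℂ) ^ z - (p : ℂ) ^ (-z)) / ((√(p : ℝ) : ℂ) * (1 - 1 / (p : ℂ))))))) * bz z N := by
  induction S using Finset.induction_on with
  | empty => simp [eps]
  | insert p S hpS ih =>
    have hp : p.Prime := hS p (mem_insert_self p S)
    have hS' : ∀ q ∈ S, q.Prime := fun q hq => hS q (mem_insert_of_mem hq)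
    have hN' : ∀ q ∈ S, Nat.Coprime q N := fun q hq => hN q (mem_insert_of_mem hq)
    have ih' := ih hS' hN'
    rw [prod_insert hpS, prod_insert hpS]
    set M : ℕ := ∏ q ∈ S, q with hMdef
    have hM0 : M ≠ 0 := prod_ne_zero_iff.2 fun q hq => (hS' q hq).ne_zero
    have hpM : ¬ p ∣ M := by
      intro h
      obtain ⟨q, hq, hpq⟩ := (Prime.dvd_finset_prod_iff hp.prime _).1 h
      have := (Nat.prime_dvd_prime_iff_eq hp (hS' q hq)).1 hpq
      rw [this] at hpS
      exact hpS hq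
    have hcM : Nat.Coprime p M := (Nat.Prime.coprime_iff_not_dvd hp).2 hpM
    have hcN : Nat.Coprime p N := hN p (mem_insert_self p S)
    have hdisj : Disjoint M.divisors (M.divisors.image (fun e => p * e)) := by
      rw [Finset.disjoint_left]
      intro d hd hd'
      rw [mem_image] at hd'
      obtain ⟨e, he, rfl⟩ := hd'
      exact hpM ((Dvd.intro e rfl).trans (Nat.dvd_of_mem_divisors hd))
    rw [bzz_div hp hM0, sum_union hdisj, sum_image (fun a _ b _ h =>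
      Nat.eq_of_mul_eq_mul_left hp.pos h), ← sum_add_distrib]
    have key : ∀ e ∈ M.divisors, (eps Q e : ℂ) * bz z (e * (p * M) ^ 2 * N) +
        (eps Q (p * e) : ℂ) * bz z (p * e * (p * M) ^ 2 * N) =
        ((1 - 1 / (p : ℂ)) + (if p ∣ Q then -1 else 1) *
          (((√(p : ℝ) : ℝ) : ℂ)⁻¹ * ((p : ℂ) ^ z - (p : ℂ) ^ (-z)))) *
        ((eps Q e : ℂ) * bz z (e * M ^ 2 * N)) := by
      intro e he
      have hed : e ∣ M := Nat.dvd_of_mem_divisors he
      have he0 : e ≠ 0 := fun h => hM0 (by rw [h] at hed; exact Nat.eq_zero_of_zero_dvd hed)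
      have hpe : ¬ p ∣ e := fun h => hpM (h.trans hed)
      have hce : Nat.Coprime p e := (Nat.Prime.coprime_iff_not_dvd hp).2 hpe
      have hK0 : e * M ^ 2 * N ≠ 0 := mul_ne_zero (mul_ne_zero he0 (pow_ne_zero _ hM0)) hN0
      have hcK : Nat.Coprime p (e * M ^ 2 * N) :=
        (hce.mul_right (hcM.pow_right 2)).mul_right hcN
      have e1 : e * (p * M) ^ 2 * N = p ^ 2 * (e * M ^ 2 * N) := by ring
      have e2 : p * e * (p * M) ^ 2 * N = p ^ 3 * (e * M ^ 2 * N) := by ring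
      rw [e1, e2, bzz_bz_mul z (hcK.pow_left 2) (pow_ne_zero _ hp.ne_zero) hK0,
        bzz_bz_mul z (hcK.pow_left 3) (pow_ne_zero _ hp.ne_zero) hK0,
        bzz_bz_even z hp 2 (by decide) (by norm_num), bzz_bz_odd z hp 3 (by decide),
        bzz_eps hp hpe]
      push_cast
      split_ifs <;> push_cast <;> ring
    rw [sum_congr rfl key, ← mul_sum, ih', ← mul_assoc]
    congr 2
    have hpc : (1 : ℂ) - 1 / (p : ℂ) ≠ 0 := by
      have h1 : (p : ℂ) ≠ 0 := by exact_mod_cast hp.ne_zero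
      intro h
      have h2 : (p : ℂ) = 1 := by
        field_simp at h
        linear_combination h
      have h3 : p = 1 := by exact_mod_cast h2
      exact hp.one_lt.ne' h3
    have hsq : ((√(p : ℝ) : ℝ) : ℂ) ≠ 0 := by
      have : (0 : ℝ) < p := by exact_mod_cast hp.pos
      exact_mod_cast (Real.sqrt_pos.2 this).ne'
    have e3 : (1 - 1 / (p : ℂ)) * (1 + (if p ∣ Q then -1 else 1) *
        (((p : ℂ) ^ z - (p : ℂ) ^ (-z)) / ((√(p : ℝ) : ℂ) * (1 - 1 / (p : ℂ))))) =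
        (1 - 1 / (p : ℂ)) + (if p ∣ Q then -1 else 1) *
        ((1 - 1 / (p : ℂ)) * (((p : ℂ) ^ z - (p : ℂ) ^ (-z)) /
          ((√(p : ℝ) : ℂ) * (1 - 1 / (p : ℂ))))) := by ring
    have e4 : (1 - 1 / (p : ℂ)) * (((p : ℂ) ^ z - (p : ℂ) ^ (-z)) /
          ((√(p : ℝ) : ℂ) * (1 - 1 / (p : ℂ)))) =
        ((√(p : ℝ) : ℝ) : ℂ)⁻¹ * ((p : ℂ) ^ z - (p : ℂ) ^ (-z)) := by
      field_simp
    rw [e3, e4]

theorem p_bz : D_bz := by
  intro y P Q R hp z N hN
  have hP0 : P ≠ 0 := hp.sf.ne_zero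
  have hR0 : R ≠ 0 := fun h => hP0 (by
    have := hp.hR
    rw [h] at this
    exact Nat.eq_zero_of_zero_dvd this)
  obtain ⟨M, hM⟩ := hp.hR
  have hMe : P / R = M := by
    rw [hM]
    exact Nat.mul_div_cancel_left M (Nat.pos_of_ne_zero hR0)
  have hM0 : M ≠ 0 := fun h => hP0 (by rw [hM, h, mul_zero])
  have hsf := hp.sf
  rw [hM, Nat.squarefree_mul_iff] at hsf
  obtain ⟨hcRM, hsR, hsM⟩ := hsf
  have hPf : P.primeFactors.filter (fun p => ¬ p ∣ R) = M.primeFactors := by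
    ext q
    rw [mem_filter, Nat.mem_primeFactors, Nat.mem_primeFactors]
    constructor
    · rintro ⟨⟨h1, h2, -⟩, h3⟩
      rw [hM] at h2
      exact ⟨h1, (h1.dvd_mul.1 h2).resolve_left h3, hM0⟩
    · rintro ⟨h1, h2, -⟩
      refine ⟨⟨h1, by rw [hM]; exact h2.mul_left R, hP0⟩, fun h3 => ?_⟩
      have := Nat.dvd_gcd h3 h2
      rw [hcRM] at this
      exact h1.one_lt.ne' (Nat.dvd_one.1 this)
  have hprod : ∏ p ∈ M.primeFactors, p = M := Nat.prod_primeFactors_of_squarefree hsM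
  have hN0 : N ≠ 0 := by
    intro h
    rw [h] at hN
    have h1 : 2 * P = 1 := by simpa using hN
    omega
  have key := bzz_sum z Q M.primeFactors (fun p h => Nat.prime_of_mem_primeFactors h) N hN0
    (fun p h => by
      have h1 : p ∣ 2 * P := by
        rw [hM]
        exact ((Nat.dvd_of_mem_primeFactors h).mul_left R).mul_left 2
      exact (hN.coprime_dvd_right h1).symm)
  rw [hprod] at key
  rw [hMe, hPf]
  exact key

end Pool.Agent.MP0016c7.Rz
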