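import Mathlib
import Pool.Agent.Lib.MP_0016c7_nt.PS.DefsM
import Pool.Agent.Lib.MP_0016c7_nt.PS.HQXh
import Pool.Agent.Lib.MP_0016c7_nt.Rz2.MTeg

set_option autoImplicit false

/-!
The integral representation of the main term, with a threshold independent of the modulus and of
the kernel.
-/

open Finset MeasureTheory Filter Topology
open scoped Real ContDiff

namespace Pool.Agent.MP0016c7.Rz

private lemma mteh_double {ι : Type*} [Countable ι] (f : ι → ℝ → ℝ → ℂ) (M : ι → ℝ) (b : ℝ → ℝ)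
    (hb : Integrable b) (hM : Summable M)
    (hf : ∀ q, StronglyMeasurable (Function.uncurry (f q)))
    (hle : ∀ q x y, ‖f q x y‖ ≤ M q * b x * b y) :
    ∫ x, ∫ y, ∑' q, f q x y = ∑' q, ∫ x, ∫ y, f q x y := by
  have hin : ∀ q x, Integrable (fun y => f q x y) := by
    intro q x
    refine Integrable.mono' (hb.const_mul (M q * b x)) ?_ ?_
    · exact ((hf q).comp_measurable (measurable_const.prodMk measurable_id)).aestronglyMeasurable
    · exact Filter.Eventually.of_forall fun y => hle q x y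
  have hinb : ∀ q x, ∫ y, ‖f q x y‖ ≤ M q * b x * ∫ y, b y := by
    intro q x
    rw [← integral_const_mul]
    exact integral_mono (hin q x).norm (hb.const_mul _) (fun y => hle q x y)
  have h1 : ∀ x, ∫ y, ∑' q, f q x y = ∑' q, ∫ y, f q x y := by
    intro x
    have := hasSum_integral_of_summable_integral_norm (μ := (volume : Measure ℝ))
      (F := fun q y => f q x y) (fun q => hin q x) ?_
    · exact this.tsum_eq.symm
    · refine Summable.of_nonneg_of_le (fun q => integral_nonneg fun y => norm_nonneg _)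
        (fun q => hinb q x) ?_
      exact (hM.mul_right (b x)).mul_right _
  have hout : ∀ q, Integrable (fun x => ∫ y, f q x y) := by
    intro q
    refine Integrable.mono' ((hb.const_mul (M q)).mul_const (∫ y, b y)) ?_ ?_
    · exact (StronglyMeasurable.integral_prod_right (hf q)).aestronglyMeasurable
    · exact Filter.Eventually.of_forall fun x => (norm_integral_le_integral_norm _).trans (hinb q x)
  have houtb : ∀ q, ∫ x, ‖∫ y, f q x y‖ ≤ M q * (∫ x, b x) * ∫ y, b y := by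
    intro q
    have e : M q * (∫ x, b x) * ∫ y, b y = ∫ x, M q * b x * ∫ y, b y := by
      rw [integral_mul_const, integral_const_mul]
    rw [e]
    exact integral_mono (hout q).norm ((hb.const_mul (M q)).mul_const _)
      (fun x => (norm_integral_le_integral_norm _).trans (hinb q x))
  simp_rw [h1]
  have := hasSum_integral_of_summable_integral_norm (μ := (volume : Measure ℝ))
      (F := fun q x => ∫ y, f q x y) (fun q => hout q) ?_
  · exact this.tsum_eq.symm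
  · refine Summable.of_nonneg_of_le (fun q => integral_nonneg fun y => norm_nonneg _)
        (fun q => houtb q) ?_
    exact (hM.mul_right _).mul_right _

private lemma mteh_meas_rhat {ρ : ℝ → ℝ} (hρ : Continuous ρ) (c : ℝ) :
    StronglyMeasurable (fun x : ℝ => rhat ρ (c + Complex.I * x)) := by
  unfold rhat
  refine StronglyMeasurable.integral_prod_right (f := fun x y : ℝ =>
    (ρ y : ℂ) * Complex.exp (-((c : ℂ) + Complex.I * x) * y)) ?_
  refine Continuous.stronglyMeasurable ?_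
  unfold Function.uncurry
  fun_prop

private lemma mteh_meas_hhat {h : ℝ → ℝ} (hh : Continuous h) (c : ℝ) :
    StronglyMeasurable (fun x : ℝ => hhat h (c + Complex.I * x)) := by
  unfold hhat
  refine StronglyMeasurable.integral_prod_right (f := fun x y : ℝ =>
    (h y : ℂ) * Complex.exp (((c : ℂ) + Complex.I * x) * y)) ?_
  refine Continuous.stronglyMeasurable ?_
  unfold Function.uncurry
  fun_prop

private lemma mteh_meas_Gh (a L c : ℝ) :
    StronglyMeasurable (fun x : ℝ => Gh a L (c + Complex.I * x)) := by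
  unfold Gh
  refine StronglyMeasurable.div ?_ stronglyMeasurable_const
  refine StronglyMeasurable.integral_prod_right (f := fun x y : ℝ =>
    (kap a y : ℂ) * Complex.exp (((c : ℂ) + Complex.I * x) * ((y / L : ℝ) : ℂ))) ?_
  refine Continuous.stronglyMeasurable ?_
  unfold Function.uncurry kap
  fun_prop

private lemma mteh_meas_wtc {ρ h : ℝ → ℝ} (hρ : Continuous ρ) (hh : Continuous h) (a L c : ℝ) :
    StronglyMeasurable (Function.uncurry fun x y : ℝ =>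
      wtc a L ρ h (c + Complex.I * x) (3 + Complex.I * y)) := by
  unfold Function.uncurry wtc
  refine StronglyMeasurable.mul (StronglyMeasurable.mul ?_ ?_) ?_
  · exact (mteh_meas_rhat hρ c).comp_measurable measurable_fst
  · exact (mteh_meas_Gh a L c).comp_measurable measurable_fst
  · refine StronglyMeasurable.div (StronglyMeasurable.mul stronglyMeasurable_const ?_) ?_
    · have h1 : StronglyMeasurable (fun p : ℝ × ℝ => hhat h (((3 : ℝ) : ℂ) + Complex.I * p.2)) :=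
        (mteh_meas_hhat hh 3).comp_measurable measurable_snd
      simpa using h1
    · refine Continuous.stronglyMeasurable ?_
      fun_prop

private lemma mteh_den (c : ℝ) (hc0 : 0 < c) (hc : c ≤ 5 / 2) (x y : ℝ) :
    1 ≤ ‖((3 : ℂ) + Complex.I * y) ^ 2 - (c + Complex.I * x) ^ 2‖ := by
  have h1 : ((3 : ℂ) + Complex.I * y) ^ 2 - (c + Complex.I * x) ^ 2 =
      ((3 + Complex.I * y) - (c + Complex.I * x)) * ((3 + Complex.I * y) + (c + Complex.I * x)) := by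
    ring
  rw [h1, norm_mul]
  have h2 : (1 / 2 : ℝ) ≤ ‖((3 + Complex.I * y) - (c + Complex.I * x) : ℂ)‖ := by
    refine le_trans ?_ (Complex.abs_re_le_norm _)
    refine le_trans ?_ (le_abs_self _)
    simp
    linarith
  have h3 : (3 : ℝ) ≤ ‖((3 + Complex.I * y) + (c + Complex.I * x) : ℂ)‖ := by
    refine le_trans ?_ (Complex.abs_re_le_norm _)
    refine le_trans ?_ (le_abs_self _)
    simp
    linarith
  nlinarith only [h2, h3, norm_nonneg ((3 + Complex.I * y) - (c + Complex.I * x) : ℂ)]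

private lemma mteh_wtc_bound (a : ℝ) (ha : a = 0 ∨ a = 1) {ρ h : ℝ → ℝ} {b₁ b₂ θ : ℝ}
    (hρ : Bump ρ b₁ b₂) (hh : Bump h 0 θ) (c : ℝ) (hc0 : 0 < c) (hc : c ≤ 5 / 2) :
    ∃ C L₀ : ℝ, 0 < C ∧ ∀ L : ℝ, L₀ ≤ L → ∀ x y : ℝ,
      ‖wtc a L ρ h (c + Complex.I * x) (3 + Complex.I * y)‖ ≤
        C * (1 + ‖x‖) ^ (-2 : ℝ) * (1 + ‖y‖) ^ (-2 : ℝ) := by
  obtain ⟨C₁, hC₁, h1⟩ := rhat_decay hρ c 2
  obtain ⟨C₂, hC₂, h2⟩ := hhat_decay hh 3 2
  obtain ⟨C₃, L₀, hC₃, h3⟩ := Gh_bound a ha c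
  refine ⟨C₁ * C₃ * (2 * C₂), L₀, by positivity, fun L hL x y => ?_⟩
  unfold wtc
  have e1 : ‖rhat ρ (c + Complex.I * x)‖ ≤ C₁ * (1 + ‖x‖) ^ (-2 : ℝ) := by
    rw [Real.rpow_neg (by positivity), ← div_eq_mul_inv, le_div_iff₀ (by positivity)]
    exact h1 x
  have e2 : ‖hhat h (3 + Complex.I * y)‖ ≤ C₂ * (1 + ‖y‖) ^ (-2 : ℝ) := by
    rw [Real.rpow_neg (by positivity), ← div_eq_mul_inv, le_div_iff₀ (by positivity)]
    have := h2 y
    simpa using this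
  have e3 := h3 L hL x
  have e4 : ‖2 * hhat h (3 + Complex.I * y) / ((3 + Complex.I * y) ^ 2 - (c + Complex.I * x) ^ 2)‖ ≤
      2 * (C₂ * (1 + ‖y‖) ^ (-2 : ℝ)) := by
    rw [norm_div, norm_mul]
    have := mteh_den c hc0 hc x y
    rw [div_le_iff₀ (by linarith)]
    have h5 : ‖(2 : ℂ)‖ = 2 := by simp
    rw [h5]
    have h6 : 0 ≤ C₂ * (1 + ‖y‖) ^ (-2 : ℝ) := by positivity
    nlinarith only [e2, this, h6, mul_le_mul_of_nonneg_left this (by linarith : 0 ≤ 2 * (C₂ * (1 + ‖y‖) ^ (-2 : ℝ)))]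
  rw [norm_mul, norm_mul]
  calc _ ≤ (C₁ * (1 + ‖x‖) ^ (-2 : ℝ)) * C₃ * (2 * (C₂ * (1 + ‖y‖) ^ (-2 : ℝ))) := by (clear * - e1 e3 hC₁ e4 hC₃; gcongr)
    _ = _ := by ring

private lemma mteh_cpow (n : ℕ) (hn : 1 ≤ n) (s : ℂ) (L : ℝ) :
    (n : ℂ) ^ (-(s / L)) = Complex.exp (-(s * ((Real.log n / L : ℝ) : ℂ))) := by
  have h0 : (n : ℂ) ≠ 0 := by exact_mod_cast (by omega : n ≠ 0)
  rw [Complex.cpow_def_of_ne_zero h0]
  congr 1
  rw [← Complex.natCast_log]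
  push_cast
  ring

private lemma mteh_cpow_norm (n : ℕ) (s : ℂ) (L : ℝ) (hL : 0 < L) (hs : 2 ≤ s.re) :
    ‖(n : ℂ) ^ (-(s / L))‖ ≤ (n : ℝ) ^ (-(2 / L)) := by
  rcases Nat.eq_zero_or_pos n with rfl | hn
  · have h1 : -(s / (L : ℂ)) ≠ 0 := by
      intro h
      have h2 : s = 0 := by
        have : (L : ℂ) ≠ 0 := by exact_mod_cast hL.ne'
        field_simp at h
        simpa using h
      rw [h2] at hs
      simp at hs
      linarith
    have h2 : -(2 / L) ≠ 0 := by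
      have : 0 < 2 / L := by positivity
      linarith
    rw [Nat.cast_zero, Complex.zero_cpow h1, norm_zero, Nat.cast_zero, Real.zero_rpow h2]
  · rw [Complex.norm_natCast_cpow_of_pos hn]
    refine Real.rpow_le_rpow_of_exponent_le (by exact_mod_cast hn) ?_
    have : (-(s / (L : ℂ))).re = -(s.re / L) := by
      simp [Complex.div_re, Complex.normSq_ofReal]
      field_simp
    rw [this]
    have : 2 / L ≤ s.re / L := by gcongr
    linarith


/-- one factor of the integrand -/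
private noncomputable def mtehG (a L : ℝ) (ρ h : ℝ → ℝ) (c Y : ℝ) (n l : ℕ) (x y : ℝ) : ℂ :=
  wtc a L ρ h (c + Complex.I * x) (3 + Complex.I * y) *
    Complex.exp ((c + Complex.I * x) * Y) *
    ((n : ℂ) ^ (-((c + Complex.I * x) / L)) * (l : ℂ) ^ (-((3 + Complex.I * y) / L)))

private lemma mtehG_meas {ρ h : ℝ → ℝ} (hρ : Continuous ρ) (hh : Continuous h) (a L c Y : ℝ)
    (n l : ℕ) : StronglyMeasurable (Function.uncurry (mtehG a L ρ h c Y n l)) := by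
  unfold Function.uncurry mtehG
  refine StronglyMeasurable.mul (StronglyMeasurable.mul (mteh_meas_wtc hρ hh a L c) ?_) ?_
  · refine Continuous.stronglyMeasurable ?_
    fun_prop
  · refine (StronglyMeasurable.mul ?_ ?_)
    · refine Measurable.stronglyMeasurable ?_
      fun_prop
    · refine Measurable.stronglyMeasurable ?_
      fun_prop

private lemma mtehG_int (a : ℝ) (ha : a = 0 ∨ a = 1) {ρ h : ℝ → ℝ} {b₁ b₂ θ : ℝ}
    (hρ : Bump ρ b₁ b₂) (hh : Bump h 0 θ) (c : ℝ) (hc : 0 < c) (hc3 : c < 3) (L : ℝ) (hL : 100 ≤ L)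
    (Y : ℝ) (n l : ℕ) (hn : 1 ≤ n) (hl : 1 ≤ l) :
    ∫ x : ℝ, ∫ y : ℝ, mtehG a L ρ h c Y n l x y =
      (2 * π) ^ 2 * (kL a ρ h L (Y - Real.log n / L) (Real.log l / L) : ℂ) := by
  rw [kL_repr a ha hρ hh c hc hc3 L hL]
  have hpi : ((2 * π : ℂ)) ^ 2 ≠ 0 := by
    have : (π : ℂ) ≠ 0 := by exact_mod_cast Real.pi_ne_zero
    exact pow_ne_zero _ (mul_ne_zero two_ne_zero this)
  rw [← mul_assoc, mul_one_div_cancel hpi, one_mul]
  congr 1
  funext x
  congr 1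
  funext y
  unfold mtehG
  rw [mteh_cpow n hn, mteh_cpow l hl, mul_assoc, ← Complex.exp_add, ← Complex.exp_add]
  congr 2
  push_cast
  ring

private lemma mtehG_bound {a L C : ℝ} {ρ h : ℝ → ℝ} {c : ℝ} (hc : 2 ≤ c) (hL : 0 < L) (hC0 : 0 < C)
    (hC : ∀ x y : ℝ, ‖wtc a L ρ h (c + Complex.I * x) (3 + Complex.I * y)‖ ≤
        C * (1 + ‖x‖) ^ (-2 : ℝ) * (1 + ‖y‖) ^ (-2 : ℝ)) (Y : ℝ) (n l : ℕ) (x y : ℝ) :
    ‖mtehG a L ρ h c Y n l x y‖ ≤ (C * Real.exp (c * Y) * ((n : ℝ) ^ (-(2 / L)) * (l : ℝ) ^ (-(2 / L)))) *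
      (1 + ‖x‖) ^ (-2 : ℝ) * (1 + ‖y‖) ^ (-2 : ℝ) := by
  unfold mtehG
  rw [norm_mul, norm_mul, norm_mul]
  have h1 := hC x y
  have h2 : ‖Complex.exp ((c + Complex.I * x) * Y)‖ = Real.exp (c * Y) := by
    rw [Complex.norm_exp]
    congr 1
    simp
  have h3 := mteh_cpow_norm n (c + Complex.I * x) L hL (by simpa using hc)
  have h4 := mteh_cpow_norm l (3 + Complex.I * y) L hL (by simp; norm_num)
  rw [h2]
  calc _ ≤ (C * (1 + ‖x‖) ^ (-2 : ℝ) * (1 + ‖y‖) ^ (-2 : ℝ)) * Real.exp (c * Y) *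
      ((n : ℝ) ^ (-(2 / L)) * (l : ℝ) ^ (-(2 / L))) := by (clear * - h1 h3 h4 hC0; gcongr)
    _ = _ := by ring

private lemma mteh_double_bound (g : ℝ → ℝ → ℂ) (K : ℝ) (b : ℝ → ℝ) (hb : Integrable b)
    (h : ∀ x y, ‖g x y‖ ≤ K * b x * b y) : ‖∫ x, ∫ y, g x y‖ ≤ K * (∫ x, b x) * ∫ y, b y := by
  have e : K * (∫ x, b x) * ∫ y, b y = ∫ x, K * b x * ∫ y, b y := by
    rw [integral_mul_const, integral_const_mul]
  rw [e]
  refine norm_integral_le_of_norm_le ((hb.const_mul K).mul_const _) ?_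
  refine Filter.Eventually.of_forall fun x => ?_
  rw [← integral_const_mul]
  exact norm_integral_le_of_norm_le (hb.const_mul _) (Filter.Eventually.of_forall fun y => h x y)

private lemma mteh_cop {r n₁ l₁ n₂ l₂ : ℕ} (h : Nat.Coprime (n₁ * l₁ * n₂ * l₂) (2 * r)) :
    1 ≤ n₁ ∧ 1 ≤ l₁ ∧ 1 ≤ n₂ ∧ 1 ≤ l₂ := by
  have h0 : n₁ * l₁ * n₂ * l₂ ≠ 0 := by
    intro h0
    rw [h0, Nat.coprime_zero_left] at h
    omega
  have h1 : n₁ ≠ 0 := by rintro rfl; simp at h0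
  have h2 : l₁ ≠ 0 := by rintro rfl; simp at h0
  have h3 : n₂ ≠ 0 := by rintro rfl; simp at h0
  have h4 : l₂ ≠ 0 := by rintro rfl; simp at h0
  omega

private lemma mteh_mu (n : ℕ) : ‖(ArithmeticFunction.moebius n : ℂ)‖ ≤ 1 := by
  have h := ArithmeticFunction.abs_moebius_le_one (n := n)
  rw [Complex.norm_intCast]
  exact_mod_cast h

theorem MT_eqh (a : ℝ) (ha' : a = 0 ∨ a = 1)
    {ρ₁ ρ₂ h : ℝ → ℝ} {b₁ b₂ θ : ℝ} (hρ₁ : Bump ρ₁ b₁ b₂) (hρ₂ : Bump ρ₂ b₁ b₂) (hh : Bump h 0 θ) :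
    ∃ X₀ : ℝ, ∀ (β : ℂ → ℂ) (B : ℝ → ℝ), BC β B → ∀ (I₀ : ℝ) (r : ℕ), Odd r →
    ∀ X : ℝ, X₀ ≤ X → ∀ M : ℕ → ℝ, MRepC r β I₀ X M → ∀ Y₁ Y₂ : ℝ,
    (MTg a ρ₁ ρ₂ h M X r Y₁ Y₂ : ℂ) = (I₀ : ℂ) / (2 * π) ^ 4 *
      ∫ x₁ : ℝ, ∫ y₁ : ℝ, ∫ x₂ : ℝ, ∫ y₂ : ℝ,
        wtc a (Real.log X) ρ₁ h (2 + Complex.I * x₁) (3 + Complex.I * y₁) *
        wtc a (Real.log X) ρ₂ h (5 / 2 + Complex.I * x₂) (3 + Complex.I * y₂) *
        Complex.exp ((2 + Complex.I * x₁) * Y₁ + (5 / 2 + Complex.I * x₂) * Y₂) *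
        QXp β r X X (2 + Complex.I * x₁) (3 + Complex.I * y₁) (5 / 2 + Complex.I * x₂)
          (3 + Complex.I * y₂) := by
  obtain ⟨C₁, L₁, hC₁, h1⟩ := mteh_wtc_bound a ha' hρ₁ hh 2 (by norm_num) (by norm_num)
  obtain ⟨C₂, L₂, hC₂, h2⟩ := mteh_wtc_bound a ha' hρ₂ hh (5 / 2) (by norm_num) (by norm_num)
  have hlog : ∀ᶠ X : ℝ in atTop, max 100 (max L₁ L₂) ≤ Real.log X :=
    Real.tendsto_log_atTop.eventually_ge_atTop _
  obtain ⟨X₁, hX₁⟩ := Filter.eventually_atTop.1 hlog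
  refine ⟨max (Real.exp 8) X₁, fun β B hβ I₀ r hr X hX M hM Y₁ Y₂ => ?_⟩
  by_cases hI0 : I₀ = 0
  · have hM0 : ∀ N : ℕ, Nat.Coprime N (2 * r) → M N = 0 := by
      intro N hN
      have := hM N hN (1 / 8) (by norm_num) le_rfl
      rw [hI0, Complex.ofReal_zero, zero_mul] at this
      exact_mod_cast this
    rw [hI0, Complex.ofReal_zero, zero_div, zero_mul]
    have : MTg a ρ₁ ρ₂ h M X r Y₁ Y₂ = 0 := by
      unfold MTg
      have : ∀ q : (ℕ × ℕ) × (ℕ × ℕ),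
        (if Nat.Coprime (q.1.1 * q.1.2 * q.2.1 * q.2.2) (2 * r) then
          (ArithmeticFunction.moebius q.1.2 : ℝ) * (ArithmeticFunction.moebius q.2.2 : ℝ) *
            kL a ρ₁ h (Real.log X) (Y₁ - Real.log q.1.1 / Real.log X) (Real.log q.1.2 / Real.log X) *
            kL a ρ₂ h (Real.log X) (Y₂ - Real.log q.2.1 / Real.log X) (Real.log q.2.2 / Real.log X) /
            √((q.1.1 * q.1.2 * q.2.1 * q.2.2 : ℕ) : ℝ) *
            M (q.1.1 * q.1.2 * q.2.1 * q.2.2)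
        else 0) = 0 := by
        intro q
        split_ifs with hco
        · rw [hM0 _ hco, mul_zero]
        · rfl
      rw [tsum_congr this, tsum_zero]
    rw [this, Complex.ofReal_zero]
  have hXa := fun s₁ w₁ s₂ w₂ e1 e2 e3 e4 =>
    hasSum_QXh hβ I₀ hr ((le_max_left _ _).trans hX) hM s₁ w₁ s₂ w₂ e1 e2 e3 e4
  have hXb := hX₁ X ((le_max_right _ _).trans hX)
  set L := Real.log X with hLdef
  have hL100 : 100 ≤ L := (le_max_left _ _).trans hXb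
  have hL1 : L₁ ≤ L := (le_max_left _ _).trans ((le_max_right _ _).trans hXb)
  have hL2 : L₂ ≤ L := (le_max_right _ _).trans ((le_max_right _ _).trans hXb)
  have hLpos : 0 < L := by linarith
  -- summability
  have hsum := (hXa 2 2 2 2 (by norm_num) (by norm_num) (by norm_num) (by norm_num)).1
  -- coefficients
  set cq : (ℕ × ℕ) × (ℕ × ℕ) → ℂ := fun q =>
    if Nat.Coprime (q.1.1 * q.1.2 * q.2.1 * q.2.2) (2 * r) then
      (ArithmeticFunction.moebius q.1.2 : ℂ) * (ArithmeticFunction.moebius q.2.2 : ℂ) /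
        (√((q.1.1 * q.1.2 * q.2.1 * q.2.2 : ℕ) : ℝ) : ℂ) *
        (M (q.1.1 * q.1.2 * q.2.1 * q.2.2) : ℂ) else 0 with hcq
  set m : (ℕ × ℕ) × (ℕ × ℕ) → ℝ := fun q =>
      if Nat.Coprime (q.1.1 * q.1.2 * q.2.1 * q.2.2) (2 * r) then
        ((q.1.1 * q.1.2 * q.2.1 * q.2.2 : ℕ) : ℝ) ^ (-(1 / 2) - 2 / L : ℝ) *
          |M (q.1.1 * q.1.2 * q.2.1 * q.2.2)| else 0 with hm
  have hcb : ∀ q : (ℕ × ℕ) × (ℕ × ℕ), ‖cq q‖ * (((q.1.1 : ℝ) ^ (-(2 / L)) * (q.1.2 : ℝ) ^ (-(2 / L))) *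
      ((q.2.1 : ℝ) ^ (-(2 / L)) * (q.2.2 : ℝ) ^ (-(2 / L)))) ≤ m q := by
    intro q
    simp only [hcq, hm]
    split_ifs with hco
    · obtain ⟨e1, e2, e3, e4⟩ := mteh_cop hco
      have hN : (1 : ℝ) ≤ ((q.1.1 * q.1.2 * q.2.1 * q.2.2 : ℕ) : ℝ) := by
        have : 1 ≤ q.1.1 * q.1.2 * q.2.1 * q.2.2 := by
          apply Nat.succ_le_of_lt
          positivity
        exact_mod_cast this
      have hprod : (((q.1.1 : ℝ) ^ (-(2 / L)) * (q.1.2 : ℝ) ^ (-(2 / L))) *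
          ((q.2.1 : ℝ) ^ (-(2 / L)) * (q.2.2 : ℝ) ^ (-(2 / L)))) =
          ((q.1.1 * q.1.2 * q.2.1 * q.2.2 : ℕ) : ℝ) ^ (-(2 / L)) := by
        push_cast
        rw [Real.mul_rpow (by positivity) (by positivity), Real.mul_rpow (by positivity) (by positivity),
          Real.mul_rpow (by positivity) (by positivity)]
        ring
      rw [hprod]
      have hn1 : ‖(ArithmeticFunction.moebius q.1.2 : ℂ) * (ArithmeticFunction.moebius q.2.2 : ℂ) /
        (√((q.1.1 * q.1.2 * q.2.1 * q.2.2 : ℕ) : ℝ) : ℂ) *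
        (M (q.1.1 * q.1.2 * q.2.1 * q.2.2) : ℂ)‖ ≤
          ((q.1.1 * q.1.2 * q.2.1 * q.2.2 : ℕ) : ℝ) ^ (-(1 / 2) : ℝ) *
          |M (q.1.1 * q.1.2 * q.2.1 * q.2.2)| := by
        rw [norm_mul, Complex.norm_real, Real.norm_eq_abs]
        refine mul_le_mul_of_nonneg_right ?_ (abs_nonneg _)
        rw [norm_div, Complex.norm_real, Real.norm_eq_abs, abs_of_nonneg (Real.sqrt_nonneg _),
          Real.rpow_neg (by positivity), ← Real.sqrt_eq_rpow, ← one_div]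
        refine div_le_div_of_nonneg_right ?_ (Real.sqrt_nonneg _)
        rw [norm_mul]
        calc _ ≤ (1 : ℝ) * 1 := by
              gcongr
              · exact mteh_mu _
              · exact mteh_mu _
          _ = 1 := one_mul _
      calc _ ≤ (((q.1.1 * q.1.2 * q.2.1 * q.2.2 : ℕ) : ℝ) ^ (-(1 / 2) : ℝ) *
          |M (q.1.1 * q.1.2 * q.2.1 * q.2.2)|) *
          ((q.1.1 * q.1.2 * q.2.1 * q.2.2 : ℕ) : ℝ) ^ (-(2 / L)) :=
            mul_le_mul_of_nonneg_right hn1 (by positivity)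
        _ = _ := by
            rw [show (-(1 / 2) - 2 / L : ℝ) = -(1 / 2) + -(2 / L) by ring,
              Real.rpow_add (by linarith only [hN])]
            ring
    · simp
  have hm0 : ∀ q, 0 ≤ m q := by
    intro q
    simp only [hm]
    split_ifs
    · (clear * -; positivity)
    · exact le_rfl
  set b : ℝ → ℝ := fun x => (1 + ‖x‖) ^ (-2 : ℝ) with hb
  have hbint : Integrable b :=
    integrable_one_add_norm (E := ℝ) (μ := volume) (r := 2) (by simp)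
  have hb0 : ∀ x, 0 ≤ b x := fun x => by positivity
  have hF0' : (I₀ : ℂ) ≠ 0 := by exact_mod_cast hI0
  set I : ℂ := (I₀ : ℂ) with hI
  set G₁ : (ℕ × ℕ) × (ℕ × ℕ) → ℝ → ℝ → ℂ := fun q => mtehG a L ρ₁ h 2 Y₁ q.1.1 q.1.2 with hG₁
  set G₂ : (ℕ × ℕ) × (ℕ × ℕ) → ℝ → ℝ → ℂ := fun q => mtehG a L ρ₂ h (5 / 2) Y₂ q.2.1 q.2.2 with hG₂
  have hG₁b : ∀ q x y, ‖G₁ q x y‖ ≤ (C₁ * Real.exp (2 * Y₁) * ((q.1.1 : ℝ) ^ (-(2 / L)) *
      (q.1.2 : ℝ) ^ (-(2 / L)))) * b x * b y := fun q x y =>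
    mtehG_bound (le_refl 2) hLpos hC₁ (h1 L hL1) Y₁ _ _ x y
  have hG₂b : ∀ q x y, ‖G₂ q x y‖ ≤ (C₂ * Real.exp (5 / 2 * Y₂) * ((q.2.1 : ℝ) ^ (-(2 / L)) *
      (q.2.2 : ℝ) ^ (-(2 / L)))) * b x * b y := fun q x y =>
    mtehG_bound (by norm_num) hLpos hC₂ (h2 L hL2) Y₂ _ _ x y
  set J₁ : (ℕ × ℕ) × (ℕ × ℕ) → ℂ := fun q => ∫ x, ∫ y, G₁ q x y with hJ₁
  set J₂ : (ℕ × ℕ) × (ℕ × ℕ) → ℂ := fun q => ∫ x, ∫ y, G₂ q x y with hJ₂
  have hJ₂b : ∀ q, ‖J₂ q‖ ≤ (C₂ * Real.exp (5 / 2 * Y₂) * ((q.2.1 : ℝ) ^ (-(2 / L)) *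
      (q.2.2 : ℝ) ^ (-(2 / L)))) * (∫ x, b x) * ∫ y, b y := fun q =>
    mteh_double_bound _ _ b hbint (hG₂b q)
  have hbI : 0 ≤ ∫ x, b x := integral_nonneg hb0
  -- pointwise
  have hpt : ∀ x₁ y₁ x₂ y₂ : ℝ,
        wtc a L ρ₁ h (2 + Complex.I * x₁) (3 + Complex.I * y₁) *
        wtc a L ρ₂ h (5 / 2 + Complex.I * x₂) (3 + Complex.I * y₂) *
        Complex.exp ((2 + Complex.I * x₁) * Y₁ + (5 / 2 + Complex.I * x₂) * Y₂) *
        QXp β r X X (2 + Complex.I * x₁) (3 + Complex.I * y₁) (5 / 2 + Complex.I * x₂)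
          (3 + Complex.I * y₂) = ∑' q, I⁻¹ * cq q * G₁ q x₁ y₁ * G₂ q x₂ y₂ := by
    intro x₁ y₁ x₂ y₂
    have h3 := (hXa (2 + Complex.I * x₁) (3 + Complex.I * y₁) (5 / 2 + Complex.I * x₂)
          (3 + Complex.I * y₂) (by simp) (by simp; norm_num) (by simp; norm_num)
          (by simp; norm_num)).2
    have h4 : QXp β r X X (2 + Complex.I * x₁) (3 + Complex.I * y₁) (5 / 2 + Complex.I * x₂)
          (3 + Complex.I * y₂) = I⁻¹ * (I * QXp β r X X (2 + Complex.I * x₁) (3 + Complex.I * y₁)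
          (5 / 2 + Complex.I * x₂) (3 + Complex.I * y₂)) := by
      rw [← mul_assoc, inv_mul_cancel₀ hF0', one_mul]
    rw [h4, ← h3, ← mul_assoc, ← tsum_mul_left]
    congr 1
    funext q
    simp only [hcq]
    split_ifs with hco
    · simp only [hG₁, hG₂, mtehG]
      rw [Complex.exp_add]
      push_cast
      ring
    · simp
  -- first interchange
  have hρ₁c := hρ₁.smooth.continuous
  have hρ₂c := hρ₂.smooth.continuous
  have hhc := hh.smooth.continuous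
  have hin : ∀ x₁ y₁ : ℝ, (∫ x₂ : ℝ, ∫ y₂ : ℝ, ∑' q, I⁻¹ * cq q * G₁ q x₁ y₁ * G₂ q x₂ y₂) =
      ∑' q, I⁻¹ * cq q * G₁ q x₁ y₁ * J₂ q := by
    intro x₁ y₁
    rw [mteh_double (fun q x₂ y₂ => I⁻¹ * cq q * G₁ q x₁ y₁ * G₂ q x₂ y₂)
      (fun q => ‖I⁻¹‖ * m q * (C₁ * Real.exp (2 * Y₁) * (b x₁ * b y₁) * (C₂ * Real.exp (5 / 2 * Y₂))))
      b hbint]
    · congr 1
      funext q
      simp_rw [integral_const_mul]
      rfl
    · exact (hsum.mul_left _).mul_right _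
    · intro q
      exact (mtehG_meas hρ₂c hhc a L (5 / 2) Y₂ _ _).const_mul _
    · intro q x y
      rw [norm_mul, norm_mul, norm_mul]
      calc _ ≤ ‖I⁻¹‖ * ‖cq q‖ * ((C₁ * Real.exp (2 * Y₁) * ((q.1.1 : ℝ) ^ (-(2 / L)) *
            (q.1.2 : ℝ) ^ (-(2 / L)))) * b x₁ * b y₁) * ((C₂ * Real.exp (5 / 2 * Y₂) *
            ((q.2.1 : ℝ) ^ (-(2 / L)) * (q.2.2 : ℝ) ^ (-(2 / L)))) * b x * b y) := by
            gcongr
            · exact hG₁b q x₁ y₁
            · exact hG₂b q x y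
        _ = ‖I⁻¹‖ * (‖cq q‖ * (((q.1.1 : ℝ) ^ (-(2 / L)) * (q.1.2 : ℝ) ^ (-(2 / L))) *
            ((q.2.1 : ℝ) ^ (-(2 / L)) * (q.2.2 : ℝ) ^ (-(2 / L))))) *
            (C₁ * Real.exp (2 * Y₁) * (b x₁ * b y₁) * (C₂ * Real.exp (5 / 2 * Y₂))) * b x * b y := by
            ring
        _ ≤ _ := by
            have := hcb q
            have e1 := hb0 x₁
            have e2 := hb0 y₁
            have e3 := hb0 x
            have e4 := hb0 y
            (clear * - this hC₁ hC₂; gcongr)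
  have hout : (∫ x₁ : ℝ, ∫ y₁ : ℝ, ∑' q, I⁻¹ * cq q * G₁ q x₁ y₁ * J₂ q) =
      ∑' q, I⁻¹ * cq q * J₂ q * J₁ q := by
    have e0 : ∀ x₁ y₁ q, I⁻¹ * cq q * G₁ q x₁ y₁ * J₂ q = I⁻¹ * cq q * J₂ q * G₁ q x₁ y₁ := by
      intro x₁ y₁ q
      ring
    simp_rw [e0]
    rw [mteh_double (fun q x₁ y₁ => I⁻¹ * cq q * J₂ q * G₁ q x₁ y₁)
      (fun q => ‖I⁻¹‖ * m q * (C₁ * Real.exp (2 * Y₁) * (C₂ * Real.exp (5 / 2 * Y₂)) *
        (∫ x, b x) * ∫ x, b x)) b hbint]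
    · congr 1
      funext q
      simp_rw [integral_const_mul]
      rfl
    · exact (hsum.mul_left _).mul_right _
    · intro q
      exact (mtehG_meas hρ₁c hhc a L 2 Y₁ _ _).const_mul _
    · intro q x y
      rw [norm_mul, norm_mul, norm_mul]
      calc _ ≤ ‖I⁻¹‖ * ‖cq q‖ * ((C₂ * Real.exp (5 / 2 * Y₂) * ((q.2.1 : ℝ) ^ (-(2 / L)) *
            (q.2.2 : ℝ) ^ (-(2 / L)))) * (∫ x, b x) * ∫ y, b y) *
            ((C₁ * Real.exp (2 * Y₁) * ((q.1.1 : ℝ) ^ (-(2 / L)) *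
            (q.1.2 : ℝ) ^ (-(2 / L)))) * b x * b y) := by
            gcongr
            · exact hJ₂b q
            · exact hG₁b q x y
        _ = ‖I⁻¹‖ * (‖cq q‖ * (((q.1.1 : ℝ) ^ (-(2 / L)) * (q.1.2 : ℝ) ^ (-(2 / L))) *
            ((q.2.1 : ℝ) ^ (-(2 / L)) * (q.2.2 : ℝ) ^ (-(2 / L))))) *
            (C₁ * Real.exp (2 * Y₁) * (C₂ * Real.exp (5 / 2 * Y₂)) *
        (∫ x, b x) * ∫ x, b x) * b x * b y := by
            ring
        _ ≤ _ := by
            have := hcb q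
            have e3 := hb0 x
            have e4 := hb0 y
            (clear * - this hC₁ hC₂; gcongr)
  simp_rw [hpt, hin]
  rw [hout]
  unfold MTg
  rw [Complex.ofReal_tsum, ← tsum_mul_left]
  congr 1
  funext q
  have hpi : (2 * (π : ℂ)) ≠ 0 := by
    have : (π : ℂ) ≠ 0 := by exact_mod_cast Real.pi_ne_zero
    exact mul_ne_zero two_ne_zero this
  by_cases hco : Nat.Coprime (q.1.1 * q.1.2 * q.2.1 * q.2.2) (2 * r)
  · obtain ⟨e1, e2, e3, e4⟩ := mteh_cop hco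
    have hj1 : J₁ q = (2 * π) ^ 2 *
        (kL a ρ₁ h L (Y₁ - Real.log q.1.1 / L) (Real.log q.1.2 / L) : ℂ) :=
      mtehG_int a ha' hρ₁ hh 2 (by norm_num) (by norm_num) L hL100 Y₁ _ _ e1 e2
    have hj2 : J₂ q = (2 * π) ^ 2 *
        (kL a ρ₂ h L (Y₂ - Real.log q.2.1 / L) (Real.log q.2.2 / L) : ℂ) :=
      mtehG_int a ha' hρ₂ hh (5 / 2) (by norm_num) (by norm_num) L hL100 Y₂ _ _ e3 e4
    rw [hj1, hj2]
    simp only [hcq, if_pos hco, ← hLdef]
    generalize kL a ρ₁ h L (Y₁ - Real.log q.1.1 / L) (Real.log q.1.2 / L) = k₁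
    generalize kL a ρ₂ h L (Y₂ - Real.log q.2.1 / L) (Real.log q.2.2 / L) = k₂
    push_cast
    field_simp
  · simp only [hcq, if_neg hco]
    simp

end Pool.Agent.MP0016c7.Rz
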