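import Mathlib
import Pool.Agent.Lib.MP_0016c7_nt.PS.DefsM
import Pool.Agent.Lib.MP_0016c7_nt.PS.EulV
import Pool.Agent.Lib.MP_0016c7_nt.Rz.Qa
import Pool.Agent.Lib.MP_0016c7_nt.Rz.Qb
import Pool.Agent.Lib.MP_0016c7_nt.Rz.Qc
import Pool.Agent.Lib.MP_0016c7_nt.Rz.ZetaRat
import Pool.Agent.Lib.MP_0016c7_nt.Rz.ZetaUp
import Pool.Agent.Lib.MP_0016c7_nt.Rz.ZetaLow

set_option autoImplicit false

/-!
Bounds of the Dirichlet series, uniformly in the modulus.
-/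

open Finset MeasureTheory Filter Topology
open scoped Real ContDiff

namespace Pool.Agent.MP0016c7.Rz

/-- zeta in terms of kz -/
private lemma ou_zeta {x : ℂ} (hx : x ≠ 0) : riemannZeta (1 + x) = kz x / x := by
  unfold kz
  rw [if_neg hx, mul_div_cancel_left₀ _ hx]

private lemma ou_ne {x : ℂ} (h : 0 < x.re) : x ≠ 0 := by
  intro h0
  rw [h0, Complex.zero_re] at h
  exact lt_irrefl _ h

/-- bounds for the zeta quotient in terms of the scaled arguments -/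
private lemma ou_upper {C A Q L : ℝ} (hC : 0 < C) (hA : 0 < A) (hL : 0 < L) (hL1 : 1 ≤ L)
    (hk : ∀ x : ℂ, 0 ≤ x.re → x.re ≤ 1 → ‖kz x‖ ≤ C * (1 + ‖x‖) ^ A)
    {u : ℂ} (h0 : 1 ≤ u.re) (h1 : u.re ≤ L) (hQ : 1 + ‖u‖ ≤ Q) :
    ‖riemannZeta (1 + u / L)‖ ≤ C * Q ^ A * L := by
  have hre : (u / L).re = u.re / L := Complex.div_ofReal_re _ _
  have hpos : 0 < (u / L).re := by rw [hre]; positivity
  have hle : (u / L).re ≤ 1 := by rw [hre, div_le_one hL]; exact h1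
  have hne := ou_ne hpos
  have hn : ‖u / (L : ℂ)‖ = ‖u‖ / L := by
    rw [norm_div, Complex.norm_real, Real.norm_of_nonneg hL.le]
  have hu : 1 ≤ ‖u‖ := h0.trans (Complex.re_le_norm u)
  rw [ou_zeta hne, norm_div, hn]
  have h2 := hk _ hpos.le hle
  have h3 : 1 + ‖u / (L : ℂ)‖ ≤ Q := by
    rw [hn]
    have : ‖u‖ / L ≤ ‖u‖ := div_le_self (norm_nonneg _) hL1
    linarith only [hQ, this]
  have h4 : (1 + ‖u / (L : ℂ)‖) ^ A ≤ Q ^ A := Real.rpow_le_rpow (by positivity) h3 hA.le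
  have hQ0 : 0 ≤ Q := by linarith only [hQ, hu, norm_nonneg u]
  calc ‖kz (u / L)‖ / (‖u‖ / L) ≤ (C * Q ^ A) / (‖u‖ / L) := by
        refine div_le_div_of_nonneg_right (h2.trans ?_) (by positivity)
        exact mul_le_mul_of_nonneg_left h4 hC.le
    _ ≤ (C * Q ^ A) / (1 / L) := by
        refine div_le_div_of_nonneg_left (by (clear * - hC hQ0; positivity)) (by positivity) ?_
        exact div_le_div_of_nonneg_right hu hL.le
    _ = _ := by field_simp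

private lemma ou_lower {c A Q L : ℝ} (hc : 0 < c) (hA : 0 < A) (hL : 0 < L) (hL1 : 1 ≤ L)
    (hk : ∀ x : ℂ, 0 ≤ x.re → x.re ≤ 1 → c ≤ ‖kz x‖ * (1 + ‖x‖) ^ A)
    {u : ℂ} (h0 : 1 ≤ u.re) (h1 : u.re ≤ L) (hQ : 1 + ‖u‖ ≤ Q) :
    ‖riemannZeta (1 + u / L)‖⁻¹ ≤ c⁻¹ * Q ^ (A + 1) / L := by
  have hre : (u / L).re = u.re / L := Complex.div_ofReal_re _ _
  have hpos : 0 < (u / L).re := by rw [hre]; positivity
  have hle : (u / L).re ≤ 1 := by rw [hre, div_le_one hL]; exact h1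
  have hne := ou_ne hpos
  have hn : ‖u / (L : ℂ)‖ = ‖u‖ / L := by
    rw [norm_div, Complex.norm_real, Real.norm_of_nonneg hL.le]
  have hu : 1 ≤ ‖u‖ := h0.trans (Complex.re_le_norm u)
  have hQ1 : 1 ≤ Q := by linarith
  rw [ou_zeta hne, norm_div, hn]
  have h2 := hk _ hpos.le hle
  have h3 : 1 + ‖u / (L : ℂ)‖ ≤ Q := by
    rw [hn]
    have : ‖u‖ / L ≤ ‖u‖ := div_le_self (norm_nonneg _) hL1
    linarith only [hQ, this]
  have h4 : (1 + ‖u / (L : ℂ)‖) ^ A ≤ Q ^ A := Real.rpow_le_rpow (by positivity) h3 hA.le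
  have hQA : 0 < Q ^ A := Real.rpow_pos_of_pos (by linarith only [hQ, hu]) _
  have h5 : c ≤ ‖kz (u / L)‖ * Q ^ A := h2.trans (mul_le_mul_of_nonneg_left h4 (norm_nonneg _))
  have h6 : 0 < ‖kz (u / L)‖ := by
    by_contra h
    have h7 : ‖kz (u / L)‖ = 0 := le_antisymm (not_lt.mp h) (norm_nonneg _)
    rw [h7, zero_mul] at h5
    linarith
  have e : Q ^ (A + 1) = Q ^ A * Q := by
    rw [Real.rpow_add (by linarith only [hQ, hu]), Real.rpow_one]
  rw [inv_div, e, div_le_div_iff₀ h6 hL, div_mul_cancel₀ _ hL.ne']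
  have h8 : ‖u‖ ≤ Q := by linarith only [hQ]
  calc ‖u‖ ≤ Q := h8
    _ = c⁻¹ * c * Q := by rw [inv_mul_cancel₀ hc.ne', one_mul]
    _ ≤ c⁻¹ * (‖kz (u / L)‖ * Q ^ A) * Q := by (clear * - h5 hc hQ1; gcongr)
    _ = _ := by ring

private lemma ou_four {r : Fin 4 → ℂ} {δ : ℝ} (hδ : 0 ≤ δ) (h : ∀ i, ‖r i - 1‖ ≤ δ) :
    ‖r 0 * r 1 * r 2 * r 3 - 1‖ ≤ 4 * δ * (1 + δ) ^ 3 := by
  have hn : ∀ i, ‖r i‖ ≤ 1 + δ := by
    intro i
    calc ‖r i‖ = ‖1 + (r i - 1)‖ := by congr 1; ring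
      _ ≤ ‖(1 : ℂ)‖ + ‖r i - 1‖ := norm_add_le _ _
      _ ≤ 1 + δ := by rw [norm_one]; linarith [h i]
  have e : r 0 * r 1 * r 2 * r 3 - 1 = (r 0 - 1) * (r 1 * r 2 * r 3) + (r 1 - 1) * (r 2 * r 3) +
      (r 2 - 1) * r 3 + (r 3 - 1) := by ring
  have h1 : 1 ≤ 1 + δ := by linarith
  rw [e]
  have b3 : ‖r 1 * r 2 * r 3‖ ≤ (1 + δ) ^ 3 := by
    rw [norm_mul, norm_mul]
    calc ‖r 1‖ * ‖r 2‖ * ‖r 3‖ ≤ (1 + δ) * (1 + δ) * (1 + δ) := by
          (clear * - hn hδ; gcongr) <;> exact hn _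
      _ = _ := by ring
  have b2 : ‖r 2 * r 3‖ ≤ (1 + δ) ^ 3 := by
    rw [norm_mul]
    calc ‖r 2‖ * ‖r 3‖ ≤ (1 + δ) * (1 + δ) := by
          (clear * - hn hδ; gcongr) <;> exact hn _
      _ = (1 + δ) ^ 2 := by ring
      _ ≤ _ := pow_le_pow_right₀ h1 (by norm_num)
  have b1 : ‖r 3‖ ≤ (1 + δ) ^ 3 := by
    calc ‖r 3‖ ≤ (1 + δ) ^ 1 := by rw [pow_one]; exact hn _
      _ ≤ _ := pow_le_pow_right₀ h1 (by norm_num)
  have b0 : 1 ≤ (1 + δ) ^ 3 := one_le_pow₀ h1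
  calc _ ≤ ‖(r 0 - 1) * (r 1 * r 2 * r 3)‖ + ‖(r 1 - 1) * (r 2 * r 3)‖ + ‖(r 2 - 1) * r 3‖ +
        ‖r 3 - 1‖ := (norm_add_le _ _).trans (add_le_add (norm_add₃_le) le_rfl)
    _ ≤ δ * (1 + δ) ^ 3 + δ * (1 + δ) ^ 3 + δ * (1 + δ) ^ 3 + δ * (1 + δ) ^ 3 := by
        refine add_le_add (add_le_add (add_le_add ?_ ?_) ?_) ?_
        · exact (norm_mul_le _ _).trans (mul_le_mul (h 0) b3 (norm_nonneg _) hδ)
        · exact (norm_mul_le _ _).trans (mul_le_mul (h 1) b2 (norm_nonneg _) hδ)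
        · exact (norm_mul_le _ _).trans (mul_le_mul (h 2) b1 (norm_nonneg _) hδ)
        · calc ‖r 3 - 1‖ ≤ δ * 1 := by rw [mul_one]; exact h 3
            _ ≤ _ := mul_le_mul_of_nonneg_left b0 hδ
    _ = _ := by ring

/-- the ratio bound in scaled arguments -/
private lemma ou_ratio {C A L Q : ℝ} (hC : 0 < C) (hA : 0 < A) (hL : 100 ≤ L)
    (hz : ∀ x y : ℂ, 1 / L ≤ x.re → x.re ≤ 1 → 1 / L ≤ y.re → y.re ≤ 1 →
      ‖riemannZeta (1 + x) / riemannZeta (1 + y) - 1‖ ≤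
      C * (1 + L * ‖x - y‖) ^ 2 * (1 / (L * ‖x‖) + 1 / L * (1 + ‖x‖ + ‖y‖) ^ A))
    {u v : ℂ} {t : ℝ} (hu1 : 1 ≤ u.re) (hu2 : u.re ≤ 10) (hv1 : 1 ≤ v.re) (hv2 : v.re ≤ 10)
    (hQ : 1 ≤ Q) (h1 : 1 + ‖u - v‖ ≤ Q) (h2 : 1 + |t| ≤ Q * ‖u‖)
    (h3 : 1 + ‖u‖ / L + ‖v‖ / L ≤ Q) {x y : ℂ} (hx : x = u / L) (hy : y = v / L) :
    ‖riemannZeta (1 + x) / riemannZeta (1 + y) - 1‖ ≤
      2 * C * Q ^ (A + 3) * (1 / (1 + |t|) + 1 / L) := by
  have hL0 : 0 < L := by linarith only [hL]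
  subst hx hy
  have hre : ∀ u : ℂ, (u / (L : ℂ)).re = u.re / L := fun u => Complex.div_ofReal_re _ _
  have hn : ∀ u : ℂ, ‖u / (L : ℂ)‖ = ‖u‖ / L := fun u => by
    rw [norm_div, Complex.norm_real, Real.norm_of_nonneg hL0.le]
  have hb1 : ∀ u : ℂ, 1 ≤ u.re → 1 / L ≤ (u / (L : ℂ)).re := fun u h => by
    rw [hre]; exact div_le_div_of_nonneg_right h hL0.le
  have hb2 : ∀ u : ℂ, u.re ≤ 10 → (u / (L : ℂ)).re ≤ 1 := fun u h => by
    rw [hre, div_le_one hL0]; linarith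
  have h := hz (u / L) (v / L) (hb1 u hu1) (hb2 u hu2) (hb1 v hv1) (hb2 v hv2)
  have hunorm : 1 ≤ ‖u‖ := hu1.trans (Complex.re_le_norm u)
  have e1 : L * ‖u / (L : ℂ) - v / L‖ = ‖u - v‖ := by
    rw [← sub_div, hn]; field_simp
  have e2 : L * ‖u / (L : ℂ)‖ = ‖u‖ := by
    rw [hn]; field_simp
  rw [e1, e2, hn, hn] at h
  have ht : 0 < 1 + |t| := by positivity
  have a1 : 1 / ‖u‖ ≤ Q * (1 / (1 + |t|)) := by
    rw [mul_one_div, div_le_div_iff₀ (by linarith only [hunorm]) ht]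
    linarith only [h2]
  have a2 : (1 + ‖u‖ / L + ‖v‖ / L) ^ A ≤ Q ^ A := Real.rpow_le_rpow (by (clear * - hunorm hL; positivity)) h3 hA.le
  have a3 : Q ≤ Q ^ (A + 1) := by
    calc Q = Q ^ (1 : ℝ) := (Real.rpow_one Q).symm
      _ ≤ Q ^ (A + 1) := Real.rpow_le_rpow_of_exponent_le hQ (by linarith only [hA])
  have a4 : Q ^ A ≤ Q ^ (A + 1) := Real.rpow_le_rpow_of_exponent_le hQ (by linarith)
  have a5 : (1 + ‖u - v‖) ^ 2 ≤ Q ^ 2 := pow_le_pow_left₀ (by positivity) h1 2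
  have a6 : Q ^ (A + 3) = Q ^ 2 * Q ^ (A + 1) := by
    rw [← Real.rpow_natCast Q 2, ← Real.rpow_add (by linarith only [hQ])]
    congr 1
    push_cast
    ring
  have hEt : 0 < 1 / (1 + |t|) := by (clear * -; positivity)
  have hEL : 0 < 1 / L := by positivity
  have hQA : 0 < Q ^ (A + 1) := Real.rpow_pos_of_pos (by linarith only [hQ]) _
  refine h.trans ?_
  have a7 : 1 / ‖u‖ + 1 / L * (1 + ‖u‖ / L + ‖v‖ / L) ^ A ≤
      Q ^ (A + 1) * (1 / (1 + |t|) + 1 / L) := by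
    calc _ ≤ Q * (1 / (1 + |t|)) + 1 / L * Q ^ A := by (clear * - a1 a2 hL; gcongr)
      _ ≤ Q ^ (A + 1) * (1 / (1 + |t|)) + 1 / L * Q ^ (A + 1) := by (clear * - a3 a4 hL; gcongr)
      _ = _ := by ring
  calc C * (1 + ‖u - v‖) ^ 2 * (1 / ‖u‖ + 1 / L * (1 + ‖u‖ / L + ‖v‖ / L) ^ A)
      ≤ C * Q ^ 2 * (Q ^ (A + 1) * (1 / (1 + |t|) + 1 / L)) := by (clear * - a5 hC a7 hunorm hL hQ; gcongr)
    _ = C * Q ^ (A + 3) * (1 / (1 + |t|) + 1 / L) := by rw [a6]; ring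
    _ ≤ _ := by
        have : 0 < Q ^ (A + 3) := Real.rpow_pos_of_pos (by linarith only [hQ]) _
        have h9 : 0 < C * Q ^ (A + 3) * (1 / (1 + |t|) + 1 / L) := by (clear * - hC hQ hL; positivity)
        linarith only [h9]


private lemma ou_norm_le (p α : ℝ) (hp : 0 ≤ p) : ‖(p : ℂ) + Complex.I * α‖ ≤ p + |α| := by
  refine (norm_add_le _ _).trans (le_of_eq ?_)
  rw [norm_mul, Complex.norm_I, one_mul, Complex.norm_real, Complex.norm_real, Real.norm_eq_abs,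
    Real.norm_eq_abs, abs_of_nonneg hp]

private lemma ou_re (p α : ℝ) : ((p : ℂ) + Complex.I * α).re = p := by simp

private lemma ou_im_le (p α : ℝ) : |α| ≤ ‖(p : ℂ) + Complex.I * α‖ := by
  have h := Complex.abs_im_le_norm ((p : ℂ) + Complex.I * α)
  have e : ((p : ℂ) + Complex.I * α).im = α := by simp
  rwa [e] at h

/-- the ratio bound for explicit arguments -/
private lemma ou_ratio' {C A L P : ℝ} (hC : 0 < C) (hA : 0 < A) (hL : 100 ≤ L)
    (hz : ∀ x y : ℂ, 1 / L ≤ x.re → x.re ≤ 1 → 1 / L ≤ y.re → y.re ≤ 1 →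
      ‖riemannZeta (1 + x) / riemannZeta (1 + y) - 1‖ ≤
      C * (1 + L * ‖x - y‖) ^ 2 * (1 / (L * ‖x‖) + 1 / L * (1 + ‖x‖ + ‖y‖) ^ A))
    (p q α β e t : ℝ) (hp1 : 1 ≤ p) (hp2 : p ≤ 4) (hq1 : 1 ≤ q) (hq2 : q ≤ 4)
    (he : |e| = 1) (hP : 1 + |α| + |β| ≤ P) {x y : ℂ}
    (hx : x = ((p : ℂ) + Complex.I * ((α + e * t : ℝ) : ℂ)) / L)
    (hy : y = ((q : ℂ) + Complex.I * ((β + e * t : ℝ) : ℂ)) / L) :
    ‖riemannZeta (1 + x) / riemannZeta (1 + y) - 1‖ ≤
      2 * C * (8 * P * (1 + |t| / L)) ^ (A + 3) * (1 / (1 + |t|) + 1 / L) := by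
  have hL0 : 0 < L := by linarith only [hL]
  have hα := abs_nonneg α
  have hβ := abs_nonneg β
  have htn := abs_nonneg t
  have hP1 : 1 ≤ P := by linarith only [hP, hα, hβ]
  have hT : 1 ≤ 1 + |t| / L := by
    have : 0 ≤ |t| / L := by (clear * - hL; positivity)
    linarith only [this]
  have hPT : P ≤ P * (1 + |t| / L) := le_mul_of_one_le_right (by linarith only [hP, hα, hβ]) hT
  have het : |e * t| = |t| := by rw [abs_mul, he, one_mul]
  have hun : ‖(p : ℂ) + Complex.I * ((α + e * t : ℝ) : ℂ)‖ ≤ 4 + |α| + |t| := by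
    refine (ou_norm_le p _ (by linarith only [hp1])).trans ?_
    have := abs_add_le α (e * t)
    rw [het] at this
    linarith only [hp2, this]
  have hvn : ‖(q : ℂ) + Complex.I * ((β + e * t : ℝ) : ℂ)‖ ≤ 4 + |β| + |t| := by
    refine (ou_norm_le q _ (by linarith only [hq1])).trans ?_
    have := abs_add_le β (e * t)
    rw [het] at this
    linarith only [hq2, this]
  have hu1 : 1 ≤ ‖(p : ℂ) + Complex.I * ((α + e * t : ℝ) : ℂ)‖ := by
    have h := Complex.re_le_norm ((p : ℂ) + Complex.I * ((α + e * t : ℝ) : ℂ))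
    rw [ou_re] at h
    linarith only [hp1, h]
  have hu2 := ou_im_le p (α + e * t)
  refine ou_ratio (Q := 8 * P * (1 + |t| / L)) hC hA hL hz
    (u := (p : ℂ) + Complex.I * ((α + e * t : ℝ) : ℂ))
    (v := (q : ℂ) + Complex.I * ((β + e * t : ℝ) : ℂ)) (t := t)
    (by rw [ou_re]; exact hp1) (by rw [ou_re]; linarith only [hp2]) (by rw [ou_re]; exact hq1)
    (by rw [ou_re]; linarith only [hq2]) ?_ ?_ ?_ ?_ hx hy
  · linarith only [hP, hα, hβ, hPT]
  · have e1 : (p : ℂ) + Complex.I * ((α + e * t : ℝ) : ℂ) -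
        ((q : ℂ) + Complex.I * ((β + e * t : ℝ) : ℂ)) =
        ((p - q : ℝ) : ℂ) + Complex.I * ((α - β : ℝ) : ℂ) := by
      push_cast; ring
    rw [e1]
    have h1 : ‖((p - q : ℝ) : ℂ) + Complex.I * ((α - β : ℝ) : ℂ)‖ ≤ |p - q| + |α - β| := by
      refine (norm_add_le _ _).trans (le_of_eq ?_)
      rw [norm_mul, Complex.norm_I, one_mul, Complex.norm_real, Complex.norm_real,
        Real.norm_eq_abs, Real.norm_eq_abs]
    have h2 : |p - q| ≤ 3 := by rw [abs_le]; constructor <;> linarith only [hp1, hq2, hp2, hq1]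
    have h3 : |α - β| ≤ |α| + |β| := abs_sub _ _
    linarith only [hP, hα, hβ, hPT, h1, h2, h3]
  · have h1 : |t| ≤ |α| + |α + e * t| := by
      have h2 := abs_sub_abs_le_abs_sub (e * t) (-α)
      rw [abs_neg, het] at h2
      have e2 : e * t - -α = α + e * t := by ring
      rw [e2] at h2
      linarith only [h2]
    set U := ‖(p : ℂ) + Complex.I * ((α + e * t : ℝ) : ℂ)‖ with hU
    have h3 : 1 + |t| ≤ (1 + |α|) * U + U := by
      have : (1 + |α|) * 1 ≤ (1 + |α|) * U := mul_le_mul_of_nonneg_left hu1 (by linarith only [hα])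
      linarith only [h1, hu2, this]
    have h4 : (1 + |α|) * U + U ≤ 8 * P * (1 + |t| / L) * U := by
      have h5 : (2 + |α|) ≤ 8 * P * (1 + |t| / L) := by linarith only [hP, hα, hβ, hPT]
      have := mul_le_mul_of_nonneg_right h5 (by linarith only [hu1] : (0 : ℝ) ≤ U)
      linarith only [this]
    linarith only [h3, h4]
  · have h1 : ‖(p : ℂ) + Complex.I * ((α + e * t : ℝ) : ℂ)‖ / L ≤ (4 + |α| + |t|) / L :=
      div_le_div_of_nonneg_right hun hL0.le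
    have h2 : ‖(q : ℂ) + Complex.I * ((β + e * t : ℝ) : ℂ)‖ / L ≤ (4 + |β| + |t|) / L :=
      div_le_div_of_nonneg_right hvn hL0.le
    have h3 : (4 + |α| + |t|) / L + (4 + |β| + |t|) / L = (8 + |α| + |β|) / L + 2 * (|t| / L) := by
      ring
    have h4 : (8 + |α| + |β|) / L ≤ 1 * P := by
      rw [div_le_iff₀ hL0]
      nlinarith only [hL, hP, hα, hβ]
    have h5 : 0 ≤ |t| / L := by (clear * - hL; positivity)
    have h6 : |t| / L ≤ P * (|t| / L) := le_mul_of_one_le_left h5 hP1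
    have h7 : 8 * P * (1 + |t| / L) = 8 * P + 8 * (P * (|t| / L)) := by ring
    linarith only [hP, hα, hβ, hPT, h1, h2, h3, h4, h6]

private lemma ou_P {a b c d : ℝ} :
    1 + |a| + |b| + |c| + |d| ≤ (1 + |a|) * (1 + |b|) * (1 + |c|) * (1 + |d|) := by
  have ha := abs_nonneg a
  have hb := abs_nonneg b
  have hc := abs_nonneg c
  have hd := abs_nonneg d
  have h1 : 1 + |a| + |b| ≤ (1 + |a|) * (1 + |b|) := by nlinarith only [ha, hb]
  have h2 : 1 + |a| + |b| + |c| ≤ (1 + |a|) * (1 + |b|) * (1 + |c|) := by nlinarith only [h1, ha, hc, hb]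
  nlinarith only [h2, ha, hd, hb, hc]

private lemma ou_Z0 : ∃ K B : ℝ, 0 < K ∧ 0 < B ∧ ∀ L : ℝ, 300 ≤ L → ∀ a b c d Q : ℝ,
    8 * ((1 + |a|) * (1 + |b|) * (1 + |c|) * (1 + |d|)) ≤ Q →
    ‖Z0 ((2 + Complex.I * a) / L) ((3 + Complex.I * b) / L) ((5 / 2 + Complex.I * c) / L)
      ((3 + Complex.I * d) / L)‖ ≤ K * Q ^ B := by
  obtain ⟨C, A, hC, hA, hk⟩ := kz_upper
  obtain ⟨c0, A', hc0, hA', hk'⟩ := kz_lower
  refine ⟨C ^ 4 * c0⁻¹ ^ 4, 4 * A + 4 * (A' + 1), by positivity, by positivity,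
    fun L hL a b c d Q hQ => ?_⟩
  have hL0 : 0 < L := by linarith
  have hL1 : 1 ≤ L := by linarith
  have hku : ∀ x : ℂ, 0 ≤ x.re → x.re ≤ 1 → ‖kz x‖ ≤ C * (1 + ‖x‖) ^ A := fun x h1 h2 =>
    (hk x x h1 h2 h1 h2).1
  have hP := @ou_P a b c d
  have ha := abs_nonneg a
  have hb := abs_nonneg b
  have hc := abs_nonneg c
  have hd := abs_nonneg d
  have hQ1 : 1 ≤ Q := by linarith only [hQ, hP, ha, hb, hc, hd]
  have hQ0 : 0 < Q := by linarith only [hQ, hP, ha, hb, hc, hd]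
  have up : ∀ (p α : ℝ), 1 ≤ p → p ≤ 6 → |α| ≤ 2 * |a| + 2 * |b| + 2 * |c| + 2 * |d| →
      ‖riemannZeta (1 + ((p : ℂ) + Complex.I * α) / L)‖ ≤ C * Q ^ A * L := by
    intro p α h1 h2 h3
    refine ou_upper hC hA hL0 hL1 hku (by rw [ou_re]; exact h1) (by rw [ou_re]; linarith) ?_
    have := ou_norm_le p α (by linarith)
    linarith only [hQ, hP, ha, hb, hc, hd, h2, h3, this]
  have lo : ∀ (p α : ℝ), 1 ≤ p → p ≤ 6 → |α| ≤ 2 * |a| + 2 * |b| + 2 * |c| + 2 * |d| →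
      ‖riemannZeta (1 + ((p : ℂ) + Complex.I * α) / L)‖⁻¹ ≤ c0⁻¹ * Q ^ (A' + 1) / L := by
    intro p α h1 h2 h3
    refine ou_lower hc0 hA' hL0 hL1 hk' (by rw [ou_re]; exact h1) (by rw [ou_re]; linarith) ?_
    have := ou_norm_le p α (by linarith)
    linarith only [hQ, hP, ha, hb, hc, hd, h2, h3, this]
  have n1 := up 4 (2 * a) (by norm_num) (by norm_num) (by rw [abs_mul, abs_two]; linarith only [hb, hc, hd])
  have n2 := up 5 (2 * c) (by norm_num) (by norm_num) (by rw [abs_mul, abs_two]; linarith only [ha, hb, hd])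
  have n3 := up (9 / 2) (a + c) (by norm_num) (by norm_num)
    (by have := abs_add_le a c; linarith only [ha, hb, hc, hd, this])
  have n4 := up 6 (b + d) (by norm_num) (by norm_num) (by have := abs_add_le b d; linarith only [ha, hb, hc, hd, this])
  have d1 := lo 5 (a + b) (by norm_num) (by norm_num) (by have := abs_add_le a b; linarith only [ha, hb, hc, hd, this])
  have d2 := lo 5 (a + d) (by norm_num) (by norm_num) (by have := abs_add_le a d; linarith only [ha, hb, hc, hd, this])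
  have d3 := lo (11 / 2) (c + b) (by norm_num) (by norm_num)
    (by have := abs_add_le c b; linarith only [ha, hb, hc, hd, this])
  have d4 := lo (11 / 2) (c + d) (by norm_num) (by norm_num)
    (by have := abs_add_le c d; linarith only [ha, hb, hc, hd, this])
  have E1 : 2 * ((2 + Complex.I * a) / L) = (((4 : ℝ) : ℂ) + Complex.I * ((2 * a : ℝ) : ℂ)) / L := by
    push_cast; ring
  have E2 : 2 * ((5 / 2 + Complex.I * c) / L) = (((5 : ℝ) : ℂ) + Complex.I * ((2 * c : ℝ) : ℂ)) / L := by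
    push_cast; ring
  have E3 : (2 + Complex.I * a) / L + (5 / 2 + Complex.I * c) / L =
      (((9 / 2 : ℝ) : ℂ) + Complex.I * ((a + c : ℝ) : ℂ)) / L := by
    push_cast; ring
  have E4 : (3 + Complex.I * b) / L + (3 + Complex.I * d) / L =
      (((6 : ℝ) : ℂ) + Complex.I * ((b + d : ℝ) : ℂ)) / L := by
    push_cast; ring
  have F1 : (2 + Complex.I * a) / L + (3 + Complex.I * b) / L =
      (((5 : ℝ) : ℂ) + Complex.I * ((a + b : ℝ) : ℂ)) / L := by
    push_cast; ring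
  have F2 : (2 + Complex.I * a) / L + (3 + Complex.I * d) / L =
      (((5 : ℝ) : ℂ) + Complex.I * ((a + d : ℝ) : ℂ)) / L := by
    push_cast; ring
  have F3 : (5 / 2 + Complex.I * c) / L + (3 + Complex.I * b) / L =
      (((11 / 2 : ℝ) : ℂ) + Complex.I * ((c + b : ℝ) : ℂ)) / L := by
    push_cast; ring
  have F4 : (5 / 2 + Complex.I * c) / L + (3 + Complex.I * d) / L =
      (((11 / 2 : ℝ) : ℂ) + Complex.I * ((c + d : ℝ) : ℂ)) / L := by
    push_cast; ring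
  unfold Z0
  rw [E1, E2, E3, E4, F1, F2, F3, F4]
  rw [div_eq_mul_inv, norm_mul, norm_inv, norm_mul, norm_mul, norm_mul, norm_mul, norm_mul,
    norm_mul, mul_inv, mul_inv, mul_inv]
  have hQA : 0 < Q ^ A := Real.rpow_pos_of_pos hQ0 _
  have hQA' : 0 < Q ^ (A' + 1) := Real.rpow_pos_of_pos hQ0 _
  calc _ ≤ (C * Q ^ A * L) * (C * Q ^ A * L) * (C * Q ^ A * L) * (C * Q ^ A * L) *
        ((c0⁻¹ * Q ^ (A' + 1) / L) * (c0⁻¹ * Q ^ (A' + 1) / L) * (c0⁻¹ * Q ^ (A' + 1) / L) *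
          (c0⁻¹ * Q ^ (A' + 1) / L)) := by
        (clear * - n1 n2 hC hQ1 hL n3 n4 d1 d2 hc0 d3 d4; gcongr)
    _ = C ^ 4 * c0⁻¹ ^ 4 * ((Q ^ A) ^ 4 * (Q ^ (A' + 1)) ^ 4) := by
        field_simp
    _ = _ := by
        rw [← Real.rpow_natCast (Q ^ A) 4, ← Real.rpow_natCast (Q ^ (A' + 1)) 4,
          ← Real.rpow_mul hQ0.le, ← Real.rpow_mul hQ0.le, ← Real.rpow_add hQ0]
        congr 2
        push_cast
        ring

/-- the differences of the arguments -/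
private lemma ou_sw {L a b c d : ℝ} (hL0 : 0 < L) :
    ‖(2 + Complex.I * a) / (L : ℂ) - (3 + Complex.I * b) / L‖ +
      ‖(5 / 2 + Complex.I * c) / (L : ℂ) - (3 + Complex.I * d) / L‖ ≤
      4 * ((1 + |a|) * (1 + |b|) * (1 + |c|) * (1 + |d|)) / L := by
  have hP := @ou_P a b c d
  have ha := abs_nonneg a
  have hb := abs_nonneg b
  have hc := abs_nonneg c
  have hd := abs_nonneg d
  have e1 : (2 + Complex.I * a) / (L : ℂ) - (3 + Complex.I * b) / L =
      (((-1 : ℝ) : ℂ) + Complex.I * ((a - b : ℝ) : ℂ)) / L := by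
    push_cast; ring
  have e2 : (5 / 2 + Complex.I * c) / (L : ℂ) - (3 + Complex.I * d) / L =
      (((-1 / 2 : ℝ) : ℂ) + Complex.I * ((c - d : ℝ) : ℂ)) / L := by
    push_cast; ring
  have f : ∀ p α : ℝ, ‖((p : ℂ) + Complex.I * α) / (L : ℂ)‖ ≤ (|p| + |α|) / L := by
    intro p α
    rw [norm_div, Complex.norm_real, Real.norm_of_nonneg hL0.le]
    refine div_le_div_of_nonneg_right ((norm_add_le _ _).trans (le_of_eq ?_)) hL0.le
    rw [norm_mul, Complex.norm_I, one_mul, Complex.norm_real, Complex.norm_real,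
      Real.norm_eq_abs, Real.norm_eq_abs]
  have f1 := f (-1) (a - b)
  have f2 := f (-1 / 2) (c - d)
  rw [e1, e2]
  refine (add_le_add f1 f2).trans ?_
  rw [← add_div]
  refine div_le_div_of_nonneg_right ?_ hL0.le
  have g1 : |a - b| ≤ |a| + |b| := abs_sub _ _
  have g2 : |c - d| ≤ |c| + |d| := abs_sub _ _
  have g3 : |(-1 : ℝ)| = 1 := by norm_num
  have g4 : |(-1 / 2 : ℝ)| = 1 / 2 := by rw [abs_of_neg] <;> norm_num
  rw [g3, g4]
  linarith only [hP, ha, hb, hc, hd, g1, g2]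

/-- the factorisation with explicit arguments -/
private lemma ou_F : ∃ C A L₀ : ℝ, 0 < C ∧ 0 < A ∧ 500 ≤ L₀ ∧ ∀ L : ℝ, L₀ ≤ L → ∀ r : ℕ, Odd r →
    SmM L r → ∀ a b c d : ℝ, ∀ z : ℂ, |z.re| ≤ 1 / L →
    ∃ F : ℂ, OO r ((2 + Complex.I * a) / L) ((3 + Complex.I * b) / L)
        ((5 / 2 + Complex.I * c) / L) ((3 + Complex.I * d) / L) z =
      Z0 ((2 + Complex.I * a) / L) ((3 + Complex.I * b) / L)
        ((5 / 2 + Complex.I * c) / L) ((3 + Complex.I * d) / L) *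
      VV ((2 + Complex.I * a) / L) ((3 + Complex.I * b) / L)
        ((5 / 2 + Complex.I * c) / L) ((3 + Complex.I * d) / L) z * F ∧
      ‖F‖ ≤ C * (8 * ((1 + |a|) * (1 + |b|) * (1 + |c|) * (1 + |d|))) ^ A ∧
      ‖F - 1‖ ≤ C * (8 * ((1 + |a|) * (1 + |b|) * (1 + |c|) * (1 + |d|))) ^ A *
        (Real.log L / L) := by
  obtain ⟨C, A, L₀, hC, hA, hL₀, hEU⟩ := euler_unif
  refine ⟨C, A, L₀, hC, hA, hL₀, fun L hL r hr hrL a b c d z hz => ?_⟩
  have hL500 : 500 ≤ L := hL₀.trans hL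
  have hL0 : 0 < L := by linarith only [hL500]
  have hLi : 0 < 1 / L := by positivity
  have re1 : ((2 + Complex.I * a) / (L : ℂ)).re = 2 * (1 / L) := by
    rw [Complex.div_ofReal_re]; simp; ring
  have re2 : ((3 + Complex.I * b) / (L : ℂ)).re = 3 * (1 / L) := by
    rw [Complex.div_ofReal_re]; simp; ring
  have re3 : ((5 / 2 + Complex.I * c) / (L : ℂ)).re = 5 / 2 * (1 / L) := by
    rw [Complex.div_ofReal_re]; simp; ring
  have re4 : ((3 + Complex.I * d) / (L : ℂ)).re = 3 * (1 / L) := by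
    rw [Complex.div_ofReal_re]; simp; ring
  have q2 : (3 : ℝ) / L = 3 * (1 / L) := by ring
  obtain ⟨F, hF1, hF2, hF3⟩ := hEU L hL r hr hrL ((2 + Complex.I * a) / L) ((3 + Complex.I * b) / L)
    ((5 / 2 + Complex.I * c) / L) ((3 + Complex.I * d) / L) z
    (by rw [re1]; linarith only [hLi, hz]) (by rw [re2]; linarith only [hLi, hz])
    (by rw [re3]; linarith only [hLi, hz]) (by rw [re4]; linarith only [hLi, hz])
    (by rw [re1, q2]; linarith only [hLi]) (by rw [re2, q2])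
    (by rw [re3, q2]; linarith only [hLi]) (by rw [re4, q2])
  have hP := @ou_P a b c d
  have ha := abs_nonneg a
  have hb := abs_nonneg b
  have hc := abs_nonneg c
  have hd := abs_nonneg d
  have hsw := @ou_sw L a b c d hL0
  have hT : (1 + L * (‖(2 + Complex.I * a) / (L : ℂ) - (3 + Complex.I * b) / L‖ +
      ‖(5 / 2 + Complex.I * c) / (L : ℂ) - (3 + Complex.I * d) / L‖)) ≤
      8 * ((1 + |a|) * (1 + |b|) * (1 + |c|) * (1 + |d|)) := by
    have h1 := mul_le_mul_of_nonneg_left hsw hL0.le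
    have h2 : L * (4 * ((1 + |a|) * (1 + |b|) * (1 + |c|) * (1 + |d|)) / L) =
        4 * ((1 + |a|) * (1 + |b|) * (1 + |c|) * (1 + |d|)) := by
      field_simp
    rw [h2] at h1
    linarith only [h1, hP, ha, hb, hc, hd]
  have hT0 : 0 ≤ (1 + L * (‖(2 + Complex.I * a) / (L : ℂ) - (3 + Complex.I * b) / L‖ +
      ‖(5 / 2 + Complex.I * c) / (L : ℂ) - (3 + Complex.I * d) / L‖)) := by positivity
  have hTA := Real.rpow_le_rpow hT0 hT hA.le
  have hlog : 0 ≤ Real.log L / L := by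
    refine div_nonneg (Real.log_nonneg ?_) hL0.le
    linarith only [hL500]
  refine ⟨F, hF1, hF2.trans (mul_le_mul_of_nonneg_left hTA hC.le), hF3.trans ?_⟩
  exact mul_le_mul_of_nonneg_right (mul_le_mul_of_nonneg_left hTA hC.le) hlog

theorem OO_zero_bound_u : ∃ C A L₀ : ℝ, 0 < C ∧ 0 < A ∧ ∀ L : ℝ, L₀ ≤ L → ∀ r : ℕ, Odd r →
    SmM L r → ∀ a b c d : ℝ,
    ‖OO r ((2 + Complex.I * a) / L) ((3 + Complex.I * b) / L) ((5 / 2 + Complex.I * c) / L)
      ((3 + Complex.I * d) / L) 0‖ ≤ C * ((1 + |a|) * (1 + |b|) * (1 + |c|) * (1 + |d|)) ^ A := by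
  obtain ⟨CF, AF, LF, hCF, hAF, hLF, hEU⟩ := ou_F
  obtain ⟨K, B, hK, hB, hZ⟩ := ou_Z0
  refine ⟨K * CF * 8 ^ (B + AF), B + AF, LF, by positivity, by positivity,
    fun L hL r hr hrL a b c d => ?_⟩
  have hL500 : 500 ≤ L := hLF.trans hL
  have hL0 : 0 < L := by linarith only [hL500]
  have hLi : 0 < 1 / L := by positivity
  obtain ⟨F, hF1, hF2, -⟩ := hEU L hL r hr hrL a b c d 0 (by simp; exact hL0.le)
  set P : ℝ := (1 + |a|) * (1 + |b|) * (1 + |c|) * (1 + |d|) with hPdef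
  have hP : 1 + |a| + |b| + |c| + |d| ≤ P := ou_P
  have ha := abs_nonneg a
  have hb := abs_nonneg b
  have hc := abs_nonneg c
  have hd := abs_nonneg d
  have hP0 : 0 < P := by linarith only [hP, ha, hb, hc, hd]
  set s₁ : ℂ := (2 + Complex.I * a) / L with hs₁
  set w₁ : ℂ := (3 + Complex.I * b) / L with hw₁
  set s₂ : ℂ := (5 / 2 + Complex.I * c) / L with hs₂
  set w₂ : ℂ := (3 + Complex.I * d) / L with hw₂
  have re1 : s₁.re = 2 * (1 / L) := by
    rw [hs₁, Complex.div_ofReal_re]; simp; ring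
  have re2 : w₁.re = 3 * (1 / L) := by
    rw [hw₁, Complex.div_ofReal_re]; simp; ring
  have re3 : s₂.re = 5 / 2 * (1 / L) := by
    rw [hs₂, Complex.div_ofReal_re]; simp; ring
  have re4 : w₂.re = 3 * (1 / L) := by
    rw [hw₂, Complex.div_ofReal_re]; simp; ring
  have nz : ∀ x : ℂ, 0 < x.re → riemannZeta (1 + x) ≠ 0 := by
    intro x hx
    apply riemannZeta_ne_zero_of_one_lt_re
    simp [hx]
  have V0 : VV s₁ w₁ s₂ w₂ 0 = 1 := by
    unfold VV
    simp only [sub_zero, add_zero]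
    have e1 := nz s₁ (by rw [re1]; linarith only [hLi])
    have e2 := nz w₁ (by rw [re2]; linarith only [hLi])
    have e3 := nz s₂ (by rw [re3]; linarith only [hLi])
    have e4 := nz w₂ (by rw [re4]; linarith only [hLi])
    field_simp
  have hZb := hZ L (by linarith only [hL500]) a b c d (8 * P) le_rfl
  rw [← hs₁, ← hw₁, ← hs₂, ← hw₂] at hZb
  rw [hF1, V0, mul_one, norm_mul]
  have h8P : 0 < 8 * P := by linarith only [hP0]
  calc ‖Z0 s₁ w₁ s₂ w₂‖ * ‖F‖ ≤ (K * (8 * P) ^ B) * (CF * (8 * P) ^ AF) :=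
        mul_le_mul hZb hF2 (norm_nonneg _) (by (clear * - hK h8P; positivity))
    _ = K * CF * ((8 * P) ^ B * (8 * P) ^ AF) := by ring
    _ = K * CF * (8 * P) ^ (B + AF) := by rw [← Real.rpow_add h8P]
    _ = K * CF * 8 ^ (B + AF) * P ^ (B + AF) := by
        rw [Real.mul_rpow (by norm_num) hP0.le]
        ring

theorem OO_diff_bound_u : ∃ C A L₀ : ℝ, 0 < C ∧ 0 < A ∧ ∀ L : ℝ, L₀ ≤ L → ∀ r : ℕ, Odd r →
    SmM L r → ∀ a b c d t : ℝ,
    ‖OO r ((2 + Complex.I * a) / L) ((3 + Complex.I * b) / L) ((5 / 2 + Complex.I * c) / L)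
      ((3 + Complex.I * d) / L) ((1 + Complex.I * t) / L) -
     OO r ((2 + Complex.I * a) / L) ((3 + Complex.I * b) / L) ((5 / 2 + Complex.I * c) / L)
      ((3 + Complex.I * d) / L) 0‖ ≤
      C * ((1 + |a|) * (1 + |b|) * (1 + |c|) * (1 + |d|)) ^ A * (1 + |t| / L) ^ A *
        (1 / (1 + |t|) + Real.log L / L) := by
  obtain ⟨CF, AF, LF, hCF, hAF, hLF, hEU⟩ := ou_F
  obtain ⟨K, B, hK, hB, hZ⟩ := ou_Z0
  obtain ⟨C, A, hC, hA, hz⟩ := zeta_ratio 1 one_pos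
  -- total exponent
  set B' : ℝ := B + (4 * (A + 3) + AF) with hB'
  set K' : ℝ := K * (4 * (2 * C) * (1 + 4 * C) ^ 3 * CF + 2 * CF) with hK'
  have hK'0 : 0 < K' := by positivity
  have hB'0 : 0 < B' := by positivity
  refine ⟨K' * 8 ^ B', B', LF, by positivity, hB'0, fun L hL r hr hrL a b c d t => ?_⟩
  have hL500 : 500 ≤ L := hLF.trans hL
  have hL0 : 0 < L := by linarith only [hL500]
  have hLc : (L : ℂ) ≠ 0 := by exact_mod_cast hL0.ne'
  have hLi : 0 < 1 / L := by positivity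
  have hLi2 : 1 / L ≤ 1 / 300 := one_div_le_one_div_of_le (by norm_num) (by linarith only [hL500])
  have hlog1 : 1 ≤ Real.log L := by
    rw [Real.le_log_iff_exp_le hL0]
    have := Real.exp_one_lt_d9
    linarith only [this, hL500]
  have hlogL : 1 / L ≤ Real.log L / L := div_le_div_of_nonneg_right hlog1 hL0.le
  have hlogL0 : 0 < Real.log L / L := by linarith only [hLi, hlogL]
  have hlogL1 : Real.log L / L ≤ 1 := by
    rw [div_le_one hL0]
    have := Real.log_le_sub_one_of_pos hL0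
    linarith only [this]
  set P : ℝ := (1 + |a|) * (1 + |b|) * (1 + |c|) * (1 + |d|) with hPdef
  have hP : 1 + |a| + |b| + |c| + |d| ≤ P := ou_P
  have ha := abs_nonneg a
  have hb := abs_nonneg b
  have hc := abs_nonneg c
  have hd := abs_nonneg d
  have htn := abs_nonneg t
  have hP1 : 1 ≤ P := by linarith only [hP, ha, hb, hc, hd]
  set T : ℝ := 1 + |t| / L with hT
  have hT1 : 1 ≤ T := by
    have : 0 ≤ |t| / L := by (clear * - hL0; positivity)
    linarith only [this, hT]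
  set Q : ℝ := 8 * P * T with hQ
  have hPT : P ≤ P * T := le_mul_of_one_le_right (by linarith only [hP, ha, hb, hc, hd]) hT1
  have hQP : 8 * P ≤ Q := by rw [hQ]; linarith only [hPT]
  have hQ1 : 1 ≤ Q := by linarith only [hP, ha, hb, hc, hd, hQP]
  have hQ0 : 0 < Q := by linarith only [hP, ha, hb, hc, hd, hQP]
  set E0 : ℝ := 1 / (1 + |t|) + 1 / L with hE0d
  set E : ℝ := 1 / (1 + |t|) + Real.log L / L with hE
  have hE0E : E0 ≤ E := by rw [hE0d, hE]; linarith only [hlogL]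
  have hE0pos : 0 < E0 := by rw [hE0d]; (clear * - hL0; positivity)
  have hE0 : 0 < E := by linarith only [hE0E, hE0pos]
  have hE2 : E ≤ 2 := by
    have h1 : 1 / (1 + |t|) ≤ 1 := by rw [div_le_one (by (clear * -; positivity))]; linarith only [htn]
    rw [hE]
    linarith only [h1, hlogL1]
  have hlE : Real.log L / L ≤ E := by
    rw [hE]
    have : 0 < 1 / (1 + |t|) := by positivity
    linarith only [this]
  obtain ⟨Fz, hFz1, hFz2, hFz3⟩ := hEU L hL r hr hrL a b c d ((1 + Complex.I * t) / L)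
    (by
      have : ((1 + Complex.I * t) / (L : ℂ)).re = 1 / L := by
        rw [Complex.div_ofReal_re]; simp
      rw [this, abs_of_pos hLi])
  obtain ⟨F0, hF01, hF02, hF03⟩ := hEU L hL r hr hrL a b c d 0 (by simp; exact hL0.le)
  rw [← hPdef] at hFz2 hFz3 hF02 hF03
  set s₁ : ℂ := (2 + Complex.I * a) / L with hs₁
  set w₁ : ℂ := (3 + Complex.I * b) / L with hw₁
  set s₂ : ℂ := (5 / 2 + Complex.I * c) / L with hs₂
  set w₂ : ℂ := (3 + Complex.I * d) / L with hw₂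
  set z : ℂ := (1 + Complex.I * t) / L with hzd
  have re1 : s₁.re = 2 * (1 / L) := by
    rw [hs₁, Complex.div_ofReal_re]; simp; ring
  have re2 : w₁.re = 3 * (1 / L) := by
    rw [hw₁, Complex.div_ofReal_re]; simp; ring
  have re3 : s₂.re = 5 / 2 * (1 / L) := by
    rw [hs₂, Complex.div_ofReal_re]; simp; ring
  have re4 : w₂.re = 3 * (1 / L) := by
    rw [hw₂, Complex.div_ofReal_re]; simp; ring
  have nz : ∀ x : ℂ, 0 < x.re → riemannZeta (1 + x) ≠ 0 := by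
    intro x hx
    apply riemannZeta_ne_zero_of_one_lt_re
    simp [hx]
  have V0 : VV s₁ w₁ s₂ w₂ 0 = 1 := by
    unfold VV
    simp only [sub_zero, add_zero]
    have e1 := nz s₁ (by rw [re1]; linarith only [hLi])
    have e2 := nz w₁ (by rw [re2]; linarith only [hLi])
    have e3 := nz s₂ (by rw [re3]; linarith only [hLi])
    have e4 := nz w₂ (by rw [re4]; linarith only [hLi])
    field_simp
  have hzL := hz L (by linarith only [hL500])
  have r0 : ‖riemannZeta (1 + (s₁ - z)) / riemannZeta (1 + (w₁ - z)) - 1‖ ≤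
      2 * C * Q ^ (A + 3) * E0 :=
    ou_ratio' hC hA (by linarith only [hL500]) hzL 1 2 a b (-1) t (by norm_num) (by norm_num) (by norm_num)
      (by norm_num) (by simp) (by linarith only [hP, hc, hd]) (by rw [hs₁, hzd]; push_cast; ring)
      (by rw [hw₁, hzd]; push_cast; ring)
  have r1 : ‖riemannZeta (1 + (s₂ - z)) / riemannZeta (1 + (w₂ - z)) - 1‖ ≤
      2 * C * Q ^ (A + 3) * E0 :=
    ou_ratio' hC hA (by linarith only [hL500]) hzL (3 / 2) 2 c d (-1) t (by norm_num) (by norm_num)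
      (by norm_num) (by norm_num) (by simp) (by linarith only [hP, ha, hb])
      (by rw [hs₂, hzd]; push_cast; ring) (by rw [hw₂, hzd]; push_cast; ring)
  have r2 : ‖riemannZeta (1 + (w₁ + z)) / riemannZeta (1 + (s₁ + z)) - 1‖ ≤
      2 * C * Q ^ (A + 3) * E0 :=
    ou_ratio' hC hA (by linarith only [hL500]) hzL 4 3 b a 1 t (by norm_num) (by norm_num)
      (by norm_num) (by norm_num) (by simp) (by linarith only [hP, hc, hd])
      (by rw [hw₁, hzd]; push_cast; ring) (by rw [hs₁, hzd]; push_cast; ring)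
  have r3 : ‖riemannZeta (1 + (w₂ + z)) / riemannZeta (1 + (s₂ + z)) - 1‖ ≤
      2 * C * Q ^ (A + 3) * E0 :=
    ou_ratio' hC hA (by linarith only [hL500]) hzL 4 (7 / 2) d c 1 t (by norm_num) (by norm_num)
      (by norm_num) (by norm_num) (by simp) (by linarith only [hP, ha, hb])
      (by rw [hw₂, hzd]; push_cast; ring) (by rw [hs₂, hzd]; push_cast; ring)
  set D : ℝ := 2 * C * Q ^ (A + 3) with hD
  have hQA3 : 1 ≤ Q ^ (A + 3) := Real.one_le_rpow hQ1 (by linarith only [hA])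
  have hD0 : 0 < D := by rw [hD]; (clear * - hC hQA3; positivity)
  have up : D * E0 ≤ D * E := mul_le_mul_of_nonneg_left hE0E hD0.le
  have hVz : ‖VV s₁ w₁ s₂ w₂ z - 1‖ ≤ 4 * (2 * C) * (1 + 4 * C) ^ 3 * Q ^ (4 * (A + 3)) * E := by
    have h1 := ou_four (r := ![riemannZeta (1 + (s₁ - z)) / riemannZeta (1 + (w₁ - z)),
      riemannZeta (1 + (s₂ - z)) / riemannZeta (1 + (w₂ - z)),
      riemannZeta (1 + (w₁ + z)) / riemannZeta (1 + (s₁ + z)),
      riemannZeta (1 + (w₂ + z)) / riemannZeta (1 + (s₂ + z))]) (δ := D * E)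
      (by (clear * - hD0 hE0; positivity))
      (by
        intro i
        fin_cases i
        · exact r0.trans up
        · exact r1.trans up
        · exact r2.trans up
        · exact r3.trans up)
    have e1 : VV s₁ w₁ s₂ w₂ z = riemannZeta (1 + (s₁ - z)) / riemannZeta (1 + (w₁ - z)) *
      (riemannZeta (1 + (s₂ - z)) / riemannZeta (1 + (w₂ - z))) *
      (riemannZeta (1 + (w₁ + z)) / riemannZeta (1 + (s₁ + z))) *
      (riemannZeta (1 + (w₂ + z)) / riemannZeta (1 + (s₂ + z))) := rfl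
    rw [e1]
    refine h1.trans ?_
    have h2 : 1 + D * E ≤ (1 + 4 * C) * Q ^ (A + 3) := by
      have h3 : D * E ≤ D * 2 := mul_le_mul_of_nonneg_left hE2 hD0.le
      rw [hD] at h3 ⊢
      have h4 : (1 + 4 * C) * Q ^ (A + 3) = Q ^ (A + 3) + 4 * C * Q ^ (A + 3) := by ring
      rw [h4]
      linarith only [hQA3, h3]
    have h5 : (1 + D * E) ^ 3 ≤ ((1 + 4 * C) * Q ^ (A + 3)) ^ 3 :=
      pow_le_pow_left₀ (by (clear * - hD0 hE0; positivity)) h2 3
    calc 4 * (D * E) * (1 + D * E) ^ 3 ≤ 4 * (D * E) * ((1 + 4 * C) * Q ^ (A + 3)) ^ 3 :=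
          mul_le_mul_of_nonneg_left h5 (by (clear * - hD0 hE0; positivity))
      _ = 4 * (2 * C) * (1 + 4 * C) ^ 3 * (Q ^ (A + 3)) ^ 4 * E := by rw [hD]; ring
      _ = _ := by
          rw [← Real.rpow_natCast (Q ^ (A + 3)) 4, ← Real.rpow_mul hQ0.le]
          congr 3
          push_cast
          ring
  -- the correction factors
  have hQAF : (8 * P) ^ AF ≤ Q ^ AF :=
    Real.rpow_le_rpow (by linarith only [hP1]) hQP hAF.le
  have hQAFp : 0 < Q ^ AF := Real.rpow_pos_of_pos hQ0 _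
  have hFz : ‖Fz‖ ≤ CF * Q ^ AF := hFz2.trans (mul_le_mul_of_nonneg_left hQAF hCF.le)
  have hAd : ‖Fz - F0‖ ≤ 2 * CF * Q ^ AF * E := by
    have e1 : Fz - F0 = (Fz - 1) - (F0 - 1) := by ring
    rw [e1]
    refine (norm_sub_le _ _).trans ((add_le_add hFz3 hF03).trans ?_)
    have h1 : CF * (8 * P) ^ AF * (Real.log L / L) ≤ CF * Q ^ AF * E := by
      refine mul_le_mul (mul_le_mul_of_nonneg_left hQAF hCF.le) hlE hlogL0.le ?_
      (clear * - hCF hQAFp; positivity)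
    linarith only [h1]
  have hZb := hZ L (by linarith only [hL500]) a b c d Q (by rw [← hPdef]; exact hQP)
  rw [← hs₁, ← hw₁, ← hs₂, ← hw₂] at hZb
  rw [hFz1, hF01, V0]
  have e9 : Z0 s₁ w₁ s₂ w₂ * VV s₁ w₁ s₂ w₂ z * Fz -
      Z0 s₁ w₁ s₂ w₂ * 1 * F0 = Z0 s₁ w₁ s₂ w₂ *
      ((VV s₁ w₁ s₂ w₂ z - 1) * Fz + (Fz - F0)) := by
    ring
  rw [e9, norm_mul]
  have hQ4p : 0 < Q ^ (4 * (A + 3)) := Real.rpow_pos_of_pos hQ0 _
  have hQ41 : 1 ≤ Q ^ (4 * (A + 3)) := Real.one_le_rpow hQ1 (by linarith only [hA])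
  have hin : ‖(VV s₁ w₁ s₂ w₂ z - 1) * Fz + (Fz - F0)‖ ≤
      (4 * (2 * C) * (1 + 4 * C) ^ 3 * CF + 2 * CF) * (Q ^ (4 * (A + 3)) * Q ^ AF) * E := by
    refine (norm_add_le _ _).trans ?_
    rw [norm_mul]
    calc _ ≤ (4 * (2 * C) * (1 + 4 * C) ^ 3 * Q ^ (4 * (A + 3)) * E) * (CF * Q ^ AF) +
          2 * CF * Q ^ AF * E :=
          add_le_add (mul_le_mul hVz hFz (norm_nonneg _)
            (by (clear * - hC hQ4p hE0; positivity))) hAd
      _ ≤ (4 * (2 * C) * (1 + 4 * C) ^ 3 * Q ^ (4 * (A + 3)) * E) * (CF * Q ^ AF) +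
          2 * CF * (Q ^ (4 * (A + 3)) * Q ^ AF) * E := by
          have h1 : Q ^ AF ≤ Q ^ (4 * (A + 3)) * Q ^ AF :=
            le_mul_of_one_le_left hQAFp.le hQ41
          have h2 : 2 * CF * Q ^ AF * E ≤ 2 * CF * (Q ^ (4 * (A + 3)) * Q ^ AF) * E :=
            mul_le_mul_of_nonneg_right (mul_le_mul_of_nonneg_left h1
              (by (clear * - hCF; positivity))) hE0.le
          exact add_le_add le_rfl h2
      _ = _ := by ring
  calc ‖Z0 s₁ w₁ s₂ w₂‖ * _ ≤ (K * Q ^ B) *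
        ((4 * (2 * C) * (1 + 4 * C) ^ 3 * CF + 2 * CF) * (Q ^ (4 * (A + 3)) * Q ^ AF) * E) :=
        mul_le_mul hZb hin (norm_nonneg _) (by (clear * - hK hQ0; positivity))
    _ = K' * (Q ^ B * (Q ^ (4 * (A + 3)) * Q ^ AF)) * E := by rw [hK']; ring
    _ = K' * Q ^ B' * E := by rw [← Real.rpow_add hQ0, ← Real.rpow_add hQ0]
    _ = K' * 8 ^ B' * P ^ B' * T ^ B' * E := by
        rw [hQ, Real.mul_rpow (by linarith only [hP1]) (by linarith only [hT1]),
          Real.mul_rpow (by norm_num) (by linarith only [hP1])]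
        ring

end Pool.Agent.MP0016c7.Rz
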