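import Mathlib
import Pool.Agent.Lib.MP_0016c7_nt.PS.DefsM
import Pool.Agent.Lib.MP_0016c7_nt.Rz.Qe
import Pool.Agent.Lib.MP_0016c7_nt.Rz2.Qeg

set_option autoImplicit false

/-!
The decomposition of the Dirichlet series `QXp`.
-/

open Finset MeasureTheory Filter Topology
open scoped Real ContDiff

namespace Pool.Agent.MP0016c7.Rz

private theorem qep_line_eq (L t : ℝ) :
    (1 + Complex.I * t) / (L : ℂ) = ((1 / L : ℝ) : ℂ) + Complex.I * ((t / L : ℝ) : ℂ) := by
  push_cast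
  ring

private theorem qep_line_re (L t : ℝ) : ((1 + Complex.I * t) / (L : ℂ)).re = 1 / L := by
  rw [qep_line_eq]
  simp

private theorem qep_line_im (L t : ℝ) : ((1 + Complex.I * t) / (L : ℂ)).im = t / L := by
  rw [qep_line_eq]
  simp

/-- the power is bounded on the line -/
private theorem qep_pow_bound (X : ℝ) (hX : 0 < X) (hL : 1 ≤ Real.log X)
    (z : ℂ) (hz : z.re = 1 / Real.log X) :
    ‖(((X / 2 : ℝ)) : ℂ) ^ (-z)‖ ≤ 2 := by
  have hY : 0 < X / 2 := by positivity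
  have h2 : (0 : ℝ) < 2 := by norm_num
  rw [Complex.norm_cpow_eq_rpow_re_of_pos hY, Complex.neg_re, hz, Real.rpow_def_of_pos hY,
    Real.log_div hX.ne' h2.ne']
  have h0 : 0 ≤ Real.log 2 := Real.log_nonneg (by norm_num)
  have h1 : (Real.log X - Real.log 2) * -(1 / Real.log X) ≤ Real.log 2 := by
    have hL0 : 0 < Real.log X := by linarith
    have e : (Real.log X - Real.log 2) * -(1 / Real.log X) =
        -1 + Real.log 2 / Real.log X := by
      field_simp
      ring
    rw [e]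
    have := div_le_self h0 hL
    linarith only [this]
  calc Real.exp ((Real.log X - Real.log 2) * -(1 / Real.log X))
      ≤ Real.exp (Real.log 2) := Real.exp_le_exp.2 h1
    _ = 2 := Real.exp_log h2

private theorem qep_measurable_bb_line {β : ℂ → ℂ} {B : ℝ → ℝ} (hβ : BC β B) (L : ℝ)
    (hL : 8 ≤ L) : Measurable fun t : ℝ => β ((1 + Complex.I * t) / (L : ℂ)) := by
  have h1 := hβ.ct (1 / L)
    (by rw [abs_of_pos (by positivity)]; exact one_div_le_one_div_of_le (by norm_num) hL)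
  have h2 : (fun t : ℝ => β ((1 + Complex.I * t) / (L : ℂ))) =
      (fun t : ℝ => β (((1 / L : ℝ) : ℂ) + Complex.I * t)) ∘ fun t : ℝ => t / L := by
    funext t
    simp only [Function.comp]
    rw [qep_line_eq]
  rw [h2]
  exact (h1.comp (by fun_prop)).measurable

private theorem qep_measurable_pow_line (Y L : ℝ) :
    Measurable fun t : ℝ => ((Y : ℝ) : ℂ) ^ (-((1 + Complex.I * t) / (L : ℂ))) := by
  refine measurable_const.pow ?_
  fun_prop

theorem measurable_QeGp {β : ℂ → ℂ} {B : ℝ → ℝ} (hβ : BC β B) (r : ℕ) (X : ℝ)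
    (hL : 8 ≤ Real.log X) (s₁ w₁ s₂ w₂ : ℂ) :
    Measurable (QeGp β r X s₁ w₁ s₂ w₂) := by
  unfold QeGp
  refine Measurable.div ?_ (by fun_prop)
  refine Measurable.mul (Measurable.mul (qep_measurable_bb_line hβ _ hL)
    (qep_measurable_pow_line _ _)) ?_
  refine Measurable.sub_const ?_ _
  exact (measurable_OO_z r _ _ _ _).comp (by fun_prop)

theorem integrable_maj54 : Integrable fun t : ℝ => (1 + |t|) ^ (-(5 / 4) : ℝ) := by
  have h : (Module.finrank ℝ ℝ : ℝ) < 5 / 4 := by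
    rw [Module.finrank_self]
    norm_num
  exact integrable_one_add_norm h

private theorem qep_g_integrable {β : ℂ → ℂ} {B : ℝ → ℝ} (hβ : BC β B) (X : ℝ) (hX : 0 < X)
    (hL : 8 ≤ Real.log X) :
    Integrable fun t : ℝ => β ((1 + Complex.I * t) / Real.log X) *
      (((X / 2 : ℝ)) : ℂ) ^ (-((1 + Complex.I * t) / Real.log X)) /
      (1 + Complex.I * t) := by
  obtain ⟨C₂, hC₂, h2⟩ := hβ.bd 2
  have hL0 : 0 < Real.log X := by linarith
  set L := Real.log X with hLdef
  have hm : Integrable fun t : ℝ => (C₂ * 2) * (1 + (t / L) ^ 2)⁻¹ := by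
    refine Integrable.const_mul ?_ _
    have := integrable_inv_one_add_sq.comp_mul_left' (R := 1 / L) (by positivity)
    refine this.congr (Eventually.of_forall fun t => ?_)
    simp only
    congr 3
    ring
  refine hm.mono' ?_ (Eventually.of_forall fun t => ?_)
  · refine Measurable.aestronglyMeasurable ?_
    exact Measurable.div (Measurable.mul (qep_measurable_bb_line hβ _ hL)
      (qep_measurable_pow_line _ _)) (by fun_prop)
  · set z : ℂ := (1 + Complex.I * t) / (L : ℂ) with hz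
    have hzre : z.re = 1 / L := qep_line_re _ _
    have hzn : |t / L| ≤ ‖z‖ := by
      have := Complex.abs_im_le_norm z
      rwa [hz, qep_line_im] at this
    have hb := (h2 z (by rw [hzre, abs_of_pos (by positivity)]; exact one_div_le_one_div_of_le (by norm_num) hL)).1
    have hp := qep_pow_bound X hX (by linarith) z hzre
    have hn : 1 ≤ ‖(1 : ℂ) + Complex.I * t‖ := by
      have h1 : |((1 : ℂ) + Complex.I * t).re| ≤ ‖(1 : ℂ) + Complex.I * t‖ :=
        Complex.abs_re_le_norm _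
      simpa using h1
    rw [norm_div, norm_mul]
    have hb2 : ‖β z‖ * (1 + (t / L) ^ 2) ≤ C₂ := by
      refine le_trans (mul_le_mul_of_nonneg_left ?_ (norm_nonneg _)) hb
      have e : (1 + ‖z‖) ^ (2 : ℝ) = (1 + ‖z‖) ^ 2 := by norm_num
      rw [e, ← sq_abs (t / L)]
      nlinarith only [hzn, norm_nonneg z, abs_nonneg (t / L)]
    have hb3 : ‖β z‖ ≤ C₂ * (1 + (t / L) ^ 2)⁻¹ := by
      rw [← div_eq_mul_inv, le_div_iff₀ (by positivity)]
      exact hb2
    calc ‖β z‖ * ‖(((X / 2 : ℝ)) : ℂ) ^ (-z)‖ / ‖(1 : ℂ) + Complex.I * t‖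
        ≤ ‖β z‖ * ‖(((X / 2 : ℝ)) : ℂ) ^ (-z)‖ :=
          div_le_self (by positivity) hn
      _ ≤ (C₂ * (1 + (t / L) ^ 2)⁻¹) * 2 :=
          mul_le_mul hb3 hp (norm_nonneg _) (by positivity)
      _ = C₂ * 2 * (1 + (t / L) ^ 2)⁻¹ := by ring

/-- substitution `t = L ζ` on the line `1 / L` -/
private theorem qep_line_subst (L : ℝ) (hL : 0 < L) (f : ℂ → ℂ) :
    ∫ ζ : ℝ, f (1 / (L : ℂ) + Complex.I * ζ) / (1 / (L : ℂ) + Complex.I * ζ) =
      ∫ t : ℝ, f ((1 + Complex.I * t) / (L : ℂ)) / (1 + Complex.I * t) := by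
  have hLc : (L : ℂ) ≠ 0 := by exact_mod_cast hL.ne'
  have h1 : ∀ ζ : ℝ, f (1 / (L : ℂ) + Complex.I * ζ) / (1 / (L : ℂ) + Complex.I * ζ) =
      (fun t : ℝ => (L : ℂ) * (f ((1 + Complex.I * t) / (L : ℂ)) / (1 + Complex.I * t)))
        (L * ζ) := by
    intro ζ
    simp only
    have e1 : (1 + Complex.I * ((L * ζ : ℝ) : ℂ)) / (L : ℂ) = 1 / (L : ℂ) + Complex.I * ζ := by
      push_cast
      field_simp
    have e2 : (1 + Complex.I * ((L * ζ : ℝ) : ℂ)) = (L : ℂ) * (1 / (L : ℂ) + Complex.I * ζ) := by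
      push_cast
      field_simp
    rw [e1, e2, ← mul_div_assoc, mul_div_mul_left _ _ hLc]
  rw [integral_congr_ae (Eventually.of_forall h1), MeasureTheory.Measure.integral_comp_mul_left
    (fun t : ℝ => (L : ℂ) * (f ((1 + Complex.I * t) / (L : ℂ)) / (1 + Complex.I * t))) L,
    integral_const_mul, abs_of_pos (by positivity), Complex.real_smul, ← mul_assoc]
  push_cast
  rw [inv_mul_cancel₀ hLc, one_mul]

/-- the decomposition of `QXp` -/
theorem QXp_split {β : ℂ → ℂ} {B : ℝ → ℝ} (hβ : BC β B) {r : ℕ} {X : ℝ} (hX : Real.exp 8 ≤ X)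
    (s₁ w₁ s₂ w₂ : ℂ) (hI : Integrable (QeGp β r X s₁ w₁ s₂ w₂)) :
    QXp β r X X s₁ w₁ s₂ w₂ =
    OO r (s₁ / Real.log X) (w₁ / Real.log X) (s₂ / Real.log X) (w₂ / Real.log X) 0 *
      (1 - (B (X / 2) : ℂ) / 2) -
    1 / (4 * π) * ∫ t : ℝ, QeGp β r X s₁ w₁ s₂ w₂ t := by
  have hX0 : 0 < X := (Real.exp_pos 8).trans_le hX
  have hL : 8 ≤ Real.log X := (Real.le_log_iff_exp_le hX0).2 hX
  have hL0 : 0 < Real.log X := by linarith
  have hg := qep_g_integrable hβ X hX0 hL
  have hY : 0 < X / 2 := by positivity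
  have hinv := hβ.inv (1 / Real.log X) (by positivity)
    (one_div_le_one_div_of_le (by norm_num) hL) _ hY
  have hcast : ((1 / Real.log X : ℝ) : ℂ) = 1 / (Real.log X : ℂ) := by push_cast; ring
  rw [hcast, qep_line_subst (Real.log X) hL0 (fun z => β z *
    (((X / 2 : ℝ)) : ℂ) ^ (-z))] at hinv
  unfold QXp
  rw [qep_line_subst (Real.log X) hL0 (fun z => β z *
    (((X / 2 : ℝ)) : ℂ) ^ (-z) *
    OO r (s₁ / Real.log X) (w₁ / Real.log X) (s₂ / Real.log X) (w₂ / Real.log X) z)]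
  set O0 := OO r (s₁ / Real.log X) (w₁ / Real.log X) (s₂ / Real.log X) (w₂ / Real.log X) 0
    with hO0
  have hpt : ∀ t : ℝ, β ((1 + Complex.I * t) / Real.log X) *
      (((X / 2 : ℝ)) : ℂ) ^ (-((1 + Complex.I * t) / Real.log X)) *
      OO r (s₁ / Real.log X) (w₁ / Real.log X) (s₂ / Real.log X) (w₂ / Real.log X)
        ((1 + Complex.I * t) / Real.log X) / (1 + Complex.I * t) =
      O0 * (β ((1 + Complex.I * t) / Real.log X) *
      (((X / 2 : ℝ)) : ℂ) ^ (-((1 + Complex.I * t) / Real.log X)) /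
      (1 + Complex.I * t)) + QeGp β r X s₁ w₁ s₂ w₂ t := by
    intro t
    unfold QeGp
    rw [← hO0]
    ring
  rw [integral_congr_ae (Eventually.of_forall hpt), integral_add (hg.const_mul O0) hI,
    integral_const_mul]
  rw [hinv]
  have hpi : (π : ℂ) ≠ 0 := by exact_mod_cast Real.pi_ne_zero
  field_simp
  ring

end Pool.Agent.MP0016c7.Rz
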