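import Mathlib
import Pool.Agent.Lib.MP_0016c7_nt.PS.DefsM
import Pool.Agent.Lib.MP_0016c7_nt.PS.BCl
import Pool.Agent.Lib.MP_0016c7_nt.PS.OOu
import Pool.Agent.Lib.MP_0016c7_nt.PS.Qeh1
import Pool.Agent.Lib.MP_0016c7_nt.Rz.Qe
import Pool.Agent.Lib.MP_0016c7_nt.Rz2.Qeg

set_option autoImplicit false

/-!
Bounds of the Dirichlet series `QXp`, kernels with a growing pattern.
-/

open Finset MeasureTheory Filter Topology
open scoped Real ContDiff

namespace Pool.Agent.MP0016c7.Rz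

private theorem qeh2_line_eq (L t : ℝ) :
    (1 + Complex.I * t) / (L : ℂ) = ((1 / L : ℝ) : ℂ) + Complex.I * ((t / L : ℝ) : ℂ) := by
  push_cast
  ring

private theorem qeh2_line_re (L t : ℝ) : ((1 + Complex.I * t) / (L : ℂ)).re = 1 / L := by
  rw [qeh2_line_eq]
  simp

private theorem qeh2_line_im (L t : ℝ) : ((1 + Complex.I * t) / (L : ℂ)).im = t / L := by
  rw [qeh2_line_eq]
  simp

private theorem qeh2_norm_line (t : ℝ) : (1 + |t|) / 2 ≤ ‖(1 : ℂ) + Complex.I * t‖ := by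
  have h1 : |((1 : ℂ) + Complex.I * t).re| ≤ ‖(1 : ℂ) + Complex.I * t‖ :=
    Complex.abs_re_le_norm _
  have h2 : |((1 : ℂ) + Complex.I * t).im| ≤ ‖(1 : ℂ) + Complex.I * t‖ :=
    Complex.abs_im_le_norm _
  simp at h1 h2
  linarith

private theorem qeh2_pow_bound (X : ℝ) (hX : 0 < X) (hL : 1 ≤ Real.log X)
    (z : ℂ) (hz : z.re = 1 / Real.log X) :
    ‖(((X / 2 : ℝ)) : ℂ) ^ (-z)‖ ≤ 2 := by
  have hY : 0 < X / 2 := by positivity
  have hL0 : 0 < Real.log X := by linarith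
  rw [Complex.norm_cpow_eq_rpow_re_of_pos hY, Complex.neg_re, hz, Real.rpow_def_of_pos hY,
    Real.log_div hX.ne' two_ne_zero]
  have h0 : 0 ≤ Real.log 2 := Real.log_nonneg (by norm_num)
  have h1 : (Real.log X - Real.log 2) * -(1 / Real.log X) ≤ Real.log 2 := by
    have e : (Real.log X - Real.log 2) * -(1 / Real.log X) =
        -1 + Real.log 2 / Real.log X := by
      field_simp
      ring
    rw [e]
    have := div_le_self h0 hL
    linarith only [this]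
  calc Real.exp ((Real.log X - Real.log 2) * -(1 / Real.log X))
      ≤ Real.exp (Real.log 2) := Real.exp_le_exp.2 h1
    _ = 2 := Real.exp_log (by norm_num)

/-- the elementary inequality behind the majorant -/
private theorem qeh2_weight (L t : ℝ) (hL : 1 ≤ L) :
    (1 + |t| / L)⁻¹ * (1 / (1 + |t|) + Real.log L / L) ≤ 3 * (1 + |t|) ^ (-(1 / 2) : ℝ) := by
  have hL0 : 0 < L := by linarith
  set T : ℝ := 1 + |t| with hT
  set u : ℝ := 1 + |t| / L with hu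
  have hT1 : 1 ≤ T := by rw [hT]; linarith [abs_nonneg t]
  have hT0 : 0 < T := by linarith
  have hu1 : 1 ≤ u := by
    have : 0 ≤ |t| / L := by positivity
    rw [hu]; linarith
  have hu0 : 0 < u := by linarith
  have hTu : T ≤ L * u := by
    have : L * u = L + |t| := by rw [hu]; field_simp
    rw [this, hT]; linarith
  have hTh : 0 < T ^ (-(1 / 2) : ℝ) := Real.rpow_pos_of_pos hT0 _
  have h1 : u⁻¹ * (1 / T) ≤ T ^ (-(1 / 2) : ℝ) := by
    have e1 : u⁻¹ ≤ 1 := inv_le_one_of_one_le₀ hu1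
    have e2 : 1 / T ≤ T ^ (-(1 / 2) : ℝ) := by
      rw [one_div, ← Real.rpow_neg_one]
      exact Real.rpow_le_rpow_of_exponent_le hT1 (by norm_num)
    have e3 : 0 ≤ 1 / T := by positivity
    calc u⁻¹ * (1 / T) ≤ 1 * (1 / T) := mul_le_mul_of_nonneg_right e1 e3
      _ = 1 / T := one_mul _
      _ ≤ _ := e2
  have hlog : Real.log L ≤ 2 * L ^ (1 / 2 : ℝ) := by
    have := Real.log_le_rpow_div hL0.le (show (0 : ℝ) < 1 / 2 by norm_num)
    calc Real.log L ≤ L ^ (1 / 2 : ℝ) / (1 / 2) := this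
      _ = _ := by ring
  have hlog0 : 0 ≤ Real.log L := Real.log_nonneg hL
  have h2 : u⁻¹ * (Real.log L / L) ≤ 2 * T ^ (-(1 / 2) : ℝ) := by
    -- `L ^ (1/2) / L = L ^ (-1/2)`, `(L u) ^ (-1/2) ≤ T ^ (-1/2)`
    have e1 : L ^ (1 / 2 : ℝ) / L = L ^ (-(1 / 2) : ℝ) := by
      rw [div_eq_mul_inv, ← Real.rpow_neg_one, ← Real.rpow_add hL0]
      norm_num
    have e2 : Real.log L / L ≤ 2 * L ^ (-(1 / 2) : ℝ) := by
      rw [← e1, ← mul_div_assoc]
      exact div_le_div_of_nonneg_right hlog hL0.le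
    have e3 : u⁻¹ ≤ u ^ (-(1 / 2) : ℝ) := by
      rw [← Real.rpow_neg_one]
      exact Real.rpow_le_rpow_of_exponent_le hu1 (by norm_num)
    have e4 : (L * u) ^ (-(1 / 2) : ℝ) ≤ T ^ (-(1 / 2) : ℝ) :=
      Real.rpow_le_rpow_of_nonpos hT0 hTu (by norm_num)
    have e5 : (0 : ℝ) ≤ 2 * L ^ (-(1 / 2) : ℝ) := by positivity
    calc u⁻¹ * (Real.log L / L) ≤ u ^ (-(1 / 2) : ℝ) * (2 * L ^ (-(1 / 2) : ℝ)) :=
          mul_le_mul e3 e2 (by positivity) (by positivity)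
      _ = 2 * (L * u) ^ (-(1 / 2) : ℝ) := by
          rw [Real.mul_rpow hL0.le hu0.le]
          ring
      _ ≤ 2 * T ^ (-(1 / 2) : ℝ) := by linarith
  rw [mul_add]
  linarith

/-- the majorant of the integrand, for one scale -/
private theorem qeh2_point {βz Wz Pz O N C₁ C₂ CW P A₁ L t zn : ℝ} (hL : 1 ≤ L) (hA₁ : 0 < A₁)
    (hC₁ : 0 < C₁) (hC₂ : 0 < C₂) (hCW : 0 < CW) (hP : 0 ≤ P) (hβ0 : 0 ≤ βz) (hW0 : 0 ≤ Wz)
    (hPz0 : 0 ≤ Pz) (hO0 : 0 ≤ O) (hzn : |t| / L ≤ zn)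
    (hb : βz * (1 + zn) ^ (A₁ + 1) ≤ C₂) (hw : Wz ≤ CW * (1 + |t|) ^ (1 / 4 : ℝ)) (hp : Pz ≤ 2)
    (ho : O ≤ C₁ * P * (1 + |t| / L) ^ A₁ * (1 / (1 + |t|) + Real.log L / L))
    (hN : (1 + |t|) / 2 ≤ N) :
    βz * Wz * Pz * O / N ≤ 12 * C₁ * C₂ * CW * P * (1 + |t|) ^ (-(5 / 4) : ℝ) := by
  have hL0 : 0 < L := by linarith
  have hlog0 : 0 ≤ Real.log L := Real.log_nonneg hL
  have hT0 : 0 < 1 + |t| := by positivity
  have hu0 : 0 < 1 + |t| / L := by positivity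
  have hN0 : 0 < N := lt_of_lt_of_le (by positivity) hN
  have hz0 : 0 ≤ zn := le_trans (by positivity) hzn
  set u : ℝ := 1 + |t| / L with hu
  set T : ℝ := 1 + |t| with hT
  have hbu : βz * u ^ A₁ ≤ C₂ * u⁻¹ := by
    have h1 : βz * u ^ (A₁ + 1) ≤ C₂ := by
      refine le_trans (mul_le_mul_of_nonneg_left ?_ hβ0) hb
      exact Real.rpow_le_rpow hu0.le (by rw [hu]; linarith) (by linarith)
    rw [Real.rpow_add hu0, Real.rpow_one, ← mul_assoc] at h1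
    rw [← div_eq_mul_inv, le_div_iff₀ hu0]
    exact h1
  have hwt := qeh2_weight L t hL
  rw [← hu, ← hT] at hwt
  have hs0 : 0 ≤ 1 / T + Real.log L / L := by positivity
  have hβO : βz * O ≤ C₁ * P * C₂ * (3 * T ^ (-(1 / 2) : ℝ)) := by
    calc βz * O ≤ βz * (C₁ * P * u ^ A₁ * (1 / T + Real.log L / L)) :=
          mul_le_mul_of_nonneg_left ho hβ0
      _ = C₁ * P * (βz * u ^ A₁) * (1 / T + Real.log L / L) := by ring
      _ ≤ C₁ * P * (C₂ * u⁻¹) * (1 / T + Real.log L / L) := by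
          refine mul_le_mul_of_nonneg_right ?_ hs0
          exact mul_le_mul_of_nonneg_left hbu (by positivity)
      _ = C₁ * P * C₂ * (u⁻¹ * (1 / T + Real.log L / L)) := by ring
      _ ≤ C₁ * P * C₂ * (3 * T ^ (-(1 / 2) : ℝ)) :=
          mul_le_mul_of_nonneg_left hwt (by positivity)
  have hβO0 : 0 ≤ βz * O := mul_nonneg hβ0 hO0
  have hWP : Wz * Pz ≤ CW * T ^ (1 / 4 : ℝ) * 2 := mul_le_mul hw hp hPz0 (by positivity)
  have hall : βz * Wz * Pz * O ≤ (CW * T ^ (1 / 4 : ℝ) * 2) *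
      (C₁ * P * C₂ * (3 * T ^ (-(1 / 2) : ℝ))) := by
    calc βz * Wz * Pz * O = (Wz * Pz) * (βz * O) := by ring
      _ ≤ _ := mul_le_mul hWP hβO hβO0 (by positivity)
  have hinv : 1 / N ≤ 2 * T ^ (-1 : ℝ) := by
    rw [Real.rpow_neg_one]
    have : 1 / N ≤ 1 / (T / 2) := one_div_le_one_div_of_le (by positivity) hN
    refine this.trans (le_of_eq ?_)
    field_simp
  have hexp : T ^ (1 / 4 : ℝ) * T ^ (-(1 / 2) : ℝ) * T ^ (-1 : ℝ) = T ^ (-(5 / 4) : ℝ) := by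
    rw [← Real.rpow_add hT0, ← Real.rpow_add hT0]
    norm_num
  calc βz * Wz * Pz * O / N = βz * Wz * Pz * O * (1 / N) := by ring
    _ ≤ ((CW * T ^ (1 / 4 : ℝ) * 2) * (C₁ * P * C₂ * (3 * T ^ (-(1 / 2) : ℝ)))) *
        (2 * T ^ (-1 : ℝ)) := mul_le_mul hall hinv (by positivity) (by positivity)
    _ = 12 * C₁ * C₂ * CW * P * (T ^ (1 / 4 : ℝ) * T ^ (-(1 / 2) : ℝ) * T ^ (-1 : ℝ)) := by ring
    _ = 12 * C₁ * C₂ * CW * P * T ^ (-(5 / 4) : ℝ) := by rw [hexp]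

theorem QeGp_bound {β : ℂ → ℂ} {B : ℝ → ℝ} (hβ : BC β B) {X : ℕ → ℝ} {r : ℕ → ℕ} {W : ℕ → ℂ → ℂ}
    (hM : MSq X r W) :
    ∃ C A : ℝ, 0 < C ∧ 0 < A ∧ ∀ᶠ n in atTop, ∀ a' b' c' d' t : ℝ,
    ‖QeGp (fun z => β z * W n z) (r n) (X n) (2 + Complex.I * a')
      (3 + Complex.I * b') (5 / 2 + Complex.I * c') (3 + Complex.I * d') t‖ ≤
      C * ((1 + |a'|) * (1 + |b'|) * (1 + |c'|) * (1 + |d'|)) ^ A * (1 + |t|) ^ (-(5 / 4) : ℝ) := by
  obtain ⟨C₁, A₁, L₁, hC₁, hA₁, h1⟩ := OO_diff_bound_u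
  obtain ⟨C₂, hC₂, h2⟩ := hβ.bd (A₁ + 1)
  obtain ⟨CW, hCW, hW⟩ := WBd_line_bound hM.lim hM.wb
  refine ⟨12 * C₁ * C₂ * CW, A₁, by positivity, hA₁, ?_⟩
  have hev : ∀ᶠ n in atTop, Real.exp (max L₁ 8) ≤ X n := hM.lim.eventually_ge_atTop _
  filter_upwards [hev, hW, hM.small] with n hn hWn hsm a' b' c' d' t
  have hX0 : 0 < X n := (Real.exp_pos _).trans_le hn
  have hLm : max L₁ 8 ≤ Real.log (X n) := (Real.le_log_iff_exp_le hX0).2 hn
  have hL1 : L₁ ≤ Real.log (X n) := (le_max_left _ _).trans hLm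
  have hL8 : 8 ≤ Real.log (X n) := (le_max_right _ _).trans hLm
  have hL : 1 ≤ Real.log (X n) := by linarith
  have hL0 : 0 < Real.log (X n) := by linarith
  set z : ℂ := (1 + Complex.I * t) / Real.log (X n) with hz
  have hzre : z.re = 1 / Real.log (X n) := qeh2_line_re _ _
  have hzn : |t| / Real.log (X n) ≤ ‖z‖ := by
    have := Complex.abs_im_le_norm z
    rw [hz, qeh2_line_im, abs_div, abs_of_pos hL0] at this
    exact this
  have hb := (h2 z (by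
    rw [hzre, abs_of_pos (by positivity)]
    exact one_div_le_one_div_of_le (by norm_num) hL8)).1
  have hp := qeh2_pow_bound (X n) hX0 hL z hzre
  have ho := h1 (Real.log (X n)) hL1 (r n) (hM.odd n) hsm a' b' c' d' t
  have hw := hWn t
  have hN := qeh2_norm_line t
  have key := qeh2_point (P := ((1 + |a'|) * (1 + |b'|) * (1 + |c'|) * (1 + |d'|)) ^ A₁)
    hL hA₁ hC₁ hC₂ hCW (by positivity) (norm_nonneg (β z)) (norm_nonneg (W n z))
    (norm_nonneg _) (norm_nonneg _) hzn hb hw hp ho hN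
  unfold QeGp
  rw [norm_div, norm_mul, norm_mul, norm_mul]
  exact key

theorem QXp_bound {β : ℂ → ℂ} {B : ℝ → ℝ} (hβ : BC β B) {X : ℕ → ℝ} {r : ℕ → ℕ} {W : ℕ → ℂ → ℂ}
    (hM : MSq X r W) :
    ∃ C A : ℝ, 0 < C ∧ 0 < A ∧ ∀ᶠ n in atTop, ∀ a' b' c' d' : ℝ,
    ‖QXp (fun z => β z * W n z) (r n) (X n) (X n) (2 + Complex.I * a')
      (3 + Complex.I * b') (5 / 2 + Complex.I * c') (3 + Complex.I * d')‖ ≤
      C * ((1 + |a'|) * (1 + |b'|) * (1 + |c'|) * (1 + |d'|)) ^ A := by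
  obtain ⟨C₁, A₁, hC₁, hA₁, h1⟩ := QeGp_bound hβ hM
  obtain ⟨C₃, A₃, L₃, hC₃, hA₃, h3⟩ := OO_zero_bound_u
  choose B' hB' using fun n => hM.wb.bc β B hβ n
  have hBt := BCW_tendsto hβ hM.lim hM.wb hB'
  have hB1 : ∀ᶠ n in atTop, |B' n (X n / 2)| ≤ 1 := by
    have h5 := hBt.abs
    rw [abs_zero] at h5
    exact (h5.eventually_lt_const (show (0 : ℝ) < 1 by norm_num)).mono fun n hn => hn.le
  set J : ℝ := ∫ t : ℝ, (1 + |t|) ^ (-(5 / 4) : ℝ) with hJ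
  have hJ0 : 0 ≤ J := integral_nonneg fun t => by positivity
  refine ⟨C₃ * (3 / 2) + 1 / (4 * π) * (C₁ * J), max A₁ A₃,
    by positivity, lt_max_of_lt_left hA₁, ?_⟩
  have hev : ∀ᶠ n in atTop, Real.exp (max L₃ 8) ≤ X n := hM.lim.eventually_ge_atTop _
  filter_upwards [hev, h1, hB1, hM.small] with n hn h1n hBn hsm a' b' c' d'
  have hX0 : 0 < X n := (Real.exp_pos _).trans_le hn
  have hLm : max L₃ 8 ≤ Real.log (X n) := (Real.le_log_iff_exp_le hX0).2 hn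
  have hL3 : L₃ ≤ Real.log (X n) := (le_max_left _ _).trans hLm
  have hL8 : 8 ≤ Real.log (X n) := (le_max_right _ _).trans hLm
  have hX8 : Real.exp 8 ≤ X n := (Real.exp_le_exp.2 (le_max_right _ _)).trans hn
  set P : ℝ := (1 + |a'|) * (1 + |b'|) * (1 + |c'|) * (1 + |d'|) with hP
  have hP1 : 1 ≤ P := by
    have e1 : 1 ≤ 1 + |a'| := by linarith [abs_nonneg a']
    have e2 : 1 ≤ 1 + |b'| := by linarith [abs_nonneg b']
    have e3 : 1 ≤ 1 + |c'| := by linarith [abs_nonneg c']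
    have e4 : 1 ≤ 1 + |d'| := by linarith [abs_nonneg d']
    exact one_le_mul_of_one_le_of_one_le (one_le_mul_of_one_le_of_one_le
      (one_le_mul_of_one_le_of_one_le e1 e2) e3) e4
  have hPA : P ^ A₁ ≤ P ^ max A₁ A₃ := Real.rpow_le_rpow_of_exponent_le hP1 (le_max_left _ _)
  have hPB : P ^ A₃ ≤ P ^ max A₁ A₃ := Real.rpow_le_rpow_of_exponent_le hP1 (le_max_right _ _)
  have hmaj : Integrable fun t : ℝ => C₁ * P ^ A₁ * (1 + |t|) ^ (-(5 / 4) : ℝ) :=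
    integrable_maj54.const_mul _
  have hI : Integrable (QeGp (fun z => β z * W n z) (r n) (X n) (2 + Complex.I * a')
      (3 + Complex.I * b') (5 / 2 + Complex.I * c') (3 + Complex.I * d')) :=
    hmaj.mono' (measurable_QeGp (hB' n) (r n) (X n) hL8 _ _ _ _).aestronglyMeasurable
      (Eventually.of_forall fun t => h1n a' b' c' d' t)
  rw [QXp_split (hB' n) hX8 _ _ _ _ hI]
  have hint : ‖∫ t : ℝ, QeGp (fun z => β z * W n z) (r n) (X n) (2 + Complex.I * a')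
      (3 + Complex.I * b') (5 / 2 + Complex.I * c') (3 + Complex.I * d') t‖ ≤
      C₁ * P ^ A₁ * J := by
    refine (norm_integral_le_of_norm_le hmaj
      (Eventually.of_forall fun t => h1n a' b' c' d' t)).trans ?_
    rw [integral_const_mul]
  have hO := h3 (Real.log (X n)) hL3 (r n) (hM.odd n) hsm a' b' c' d'
  have hB2 : ‖1 - (B' n (X n / 2) : ℂ) / 2‖ ≤ 3 / 2 := by
    refine (norm_sub_le _ _).trans ?_
    rw [norm_one, norm_div, Complex.norm_real, Real.norm_eq_abs]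
    have : ‖(2 : ℂ)‖ = 2 := by norm_num
    rw [this]
    linarith only [hBn]
  refine (norm_sub_le _ _).trans ?_
  rw [norm_mul, norm_mul]
  have hpi : ‖(1 / (4 * π) : ℂ)‖ = 1 / (4 * π) := by
    have : (1 / (4 * π) : ℂ) = ((1 / (4 * π) : ℝ) : ℂ) := by push_cast; ring
    rw [this, Complex.norm_real, Real.norm_of_nonneg (by positivity)]
  rw [hpi]
  have hPm : 0 ≤ P ^ max A₁ A₃ := Real.rpow_nonneg (by linarith) _
  have t1 : ‖OO (r n) ((2 + Complex.I * a') / Real.log (X n)) ((3 + Complex.I * b') / Real.log (X n))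
      ((5 / 2 + Complex.I * c') / Real.log (X n)) ((3 + Complex.I * d') / Real.log (X n)) 0‖ *
      ‖1 - (B' n (X n / 2) : ℂ) / 2‖ ≤ (C₃ * P ^ max A₁ A₃) * (3 / 2) :=
    mul_le_mul (hO.trans (mul_le_mul_of_nonneg_left hPB hC₃.le)) hB2 (norm_nonneg _)
      (mul_nonneg hC₃.le hPm)
  have t2 : 1 / (4 * π) * ‖∫ t : ℝ, QeGp (fun z => β z * W n z) (r n) (X n) (2 + Complex.I * a')
      (3 + Complex.I * b') (5 / 2 + Complex.I * c') (3 + Complex.I * d') t‖ ≤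
      1 / (4 * π) * (C₁ * P ^ max A₁ A₃ * J) := by
    refine mul_le_mul_of_nonneg_left (hint.trans ?_) (by positivity)
    exact mul_le_mul_of_nonneg_right (mul_le_mul_of_nonneg_left hPA hC₁.le) hJ0
  calc _ ≤ (C₃ * P ^ max A₁ A₃) * (3 / 2) + 1 / (4 * π) * (C₁ * P ^ max A₁ A₃ * J) :=
        add_le_add t1 t2
    _ = (C₃ * (3 / 2) + 1 / (4 * π) * (C₁ * J)) * P ^ max A₁ A₃ := by ring

end Pool.Agent.MP0016c7.Rz
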