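import Mathlib
import Pool.Agent.Lib.MP_0016c7_nt.PS.DefsM
import Pool.Agent.Lib.MP_0016c7_nt.PS.EulV
import Pool.Agent.Lib.MP_0016c7_nt.Rz.Qa
import Pool.Agent.Lib.MP_0016c7_nt.Rz.Qb
import Pool.Agent.Lib.MP_0016c7_nt.Rz.Qc

set_option autoImplicit false

/-!
The limit of the Dirichlet series, uniformly in the modulus.
-/

open Finset MeasureTheory Filter Topology
open scoped Real ContDiff

namespace Pool.Agent.MP0016c7.Rz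

private lemma key_u {ι : Type*} {l : Filter ι} {L : ι → ℝ} (hL : Tendsto L l atTop) {r : ι → ℕ}
    (hr : ∀ i, Odd (r i)) (hs : ∀ᶠ i in l, SmM (L i) (r i))
    (s₁ w₁ s₂ w₂ z : ℂ) (h1 : |z.re| < s₁.re) (h2 : |z.re| < w₁.re)
    (h3 : |z.re| < s₂.re) (h4 : |z.re| < w₂.re) (k1 : s₁.re ≤ 3) (k2 : w₁.re ≤ 3)
    (k3 : s₂.re ≤ 3) (k4 : w₂.re ≤ 3) :
    ∃ F : ι → ℂ, Tendsto F l (𝓝 1) ∧ ∀ᶠ i in l,
      OO (r i) (s₁ / (L i : ℂ)) (w₁ / (L i : ℂ)) (s₂ / (L i : ℂ))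
        (w₂ / (L i : ℂ)) (z / (L i : ℂ)) =
      Z0 (s₁ / (L i : ℂ)) (w₁ / (L i : ℂ)) (s₂ / (L i : ℂ)) (w₂ / (L i : ℂ)) *
        VV (s₁ / (L i : ℂ)) (w₁ / (L i : ℂ)) (s₂ / (L i : ℂ)) (w₂ / (L i : ℂ))
          (z / (L i : ℂ)) * F i := by
  obtain ⟨C, A, L₀, hC, hA, hL0, hE⟩ := euler_unif
  have hlt : ∀ u : ℂ, |z.re| < u.re → ∀ M : ℝ, 0 < M →
      |(z / (M : ℂ)).re| < (u / (M : ℂ)).re := by
    intro u hu M hM
    rw [Complex.div_ofReal_re, Complex.div_ofReal_re, abs_div, abs_of_pos hM]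
    exact div_lt_div_of_pos_right hu hM
  have hre : ∀ u : ℂ, u.re ≤ 3 → ∀ M : ℝ, 0 < M → (u / (M : ℂ)).re ≤ 3 / M := by
    intro u hu M hM
    rw [Complex.div_ofReal_re]
    exact div_le_div_of_nonneg_right hu hM.le
  have hex : ∀ i, ∃ F : ℂ, (L₀ ≤ L i ∧ SmM (L i) (r i)) →
      (OO (r i) (s₁ / (L i : ℂ)) (w₁ / (L i : ℂ)) (s₂ / (L i : ℂ))
        (w₂ / (L i : ℂ)) (z / (L i : ℂ)) =
      Z0 (s₁ / (L i : ℂ)) (w₁ / (L i : ℂ)) (s₂ / (L i : ℂ)) (w₂ / (L i : ℂ)) *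
        VV (s₁ / (L i : ℂ)) (w₁ / (L i : ℂ)) (s₂ / (L i : ℂ)) (w₂ / (L i : ℂ))
          (z / (L i : ℂ)) * F ∧
      ‖F - 1‖ ≤ C * (1 + (‖s₁ - w₁‖ + ‖s₂ - w₂‖)) ^ A * (Real.log (L i) / L i)) := by
    intro i
    by_cases hi : L₀ ≤ L i ∧ SmM (L i) (r i)
    · have hpos : 0 < L i := by linarith [hi.1]
      obtain ⟨F, e1, -, e3⟩ := hE (L i) hi.1 (r i) (hr i) hi.2 (s₁ / (L i : ℂ)) (w₁ / (L i : ℂ))
        (s₂ / (L i : ℂ)) (w₂ / (L i : ℂ)) (z / (L i : ℂ)) (hlt _ h1 _ hpos) (hlt _ h2 _ hpos)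
        (hlt _ h3 _ hpos) (hlt _ h4 _ hpos) (hre _ k1 _ hpos) (hre _ k2 _ hpos) (hre _ k3 _ hpos)
        (hre _ k4 _ hpos)
      refine ⟨F, fun _ => ⟨e1, ?_⟩⟩
      have hn : ‖(L i : ℂ)‖ = L i := by rw [Complex.norm_real, Real.norm_eq_abs, abs_of_pos hpos]
      have e4 : L i * (‖s₁ / (L i : ℂ) - w₁ / (L i : ℂ)‖ + ‖s₂ / (L i : ℂ) - w₂ / (L i : ℂ)‖) =
          ‖s₁ - w₁‖ + ‖s₂ - w₂‖ := by
        rw [← sub_div, ← sub_div, norm_div, norm_div, hn]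
        field_simp
      rw [e4] at e3
      exact e3
    · exact ⟨0, fun h => absurd h hi⟩
  choose F hF using hex
  refine ⟨F, ?_, ?_⟩
  · rw [tendsto_iff_norm_sub_tendsto_zero]
    have hb : Tendsto (fun i => C * (1 + (‖s₁ - w₁‖ + ‖s₂ - w₂‖)) ^ A *
        (Real.log (L i) / L i)) l (𝓝 0) := by
      have h5 : Tendsto (fun x : ℝ => Real.log x / x) atTop (𝓝 0) := by
        have h6 := Real.isLittleO_log_id_atTop.tendsto_div_nhds_zero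
        exact h6
      have h7 := (h5.comp hL).const_mul (C * (1 + (‖s₁ - w₁‖ + ‖s₂ - w₂‖)) ^ A)
      rw [mul_zero] at h7
      exact h7
    refine squeeze_zero' (Eventually.of_forall fun i => norm_nonneg _) ?_ hb
    filter_upwards [hL.eventually_ge_atTop L₀, hs] with i hi hi2
    exact (hF i ⟨hi, hi2⟩).2
  · filter_upwards [hL.eventually_ge_atTop L₀, hs] with i hi hi2
    exact (hF i ⟨hi, hi2⟩).1

theorem OO_lim_u {ι : Type*} {l : Filter ι} {L : ι → ℝ} (hL : Tendsto L l atTop) {r : ι → ℕ}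
    (hr : ∀ i, Odd (r i)) (hs : ∀ᶠ i in l, SmM (L i) (r i))
    (s₁ w₁ s₂ w₂ z : ℂ) (h1 : |z.re| < s₁.re) (h2 : |z.re| < w₁.re)
    (h3 : |z.re| < s₂.re) (h4 : |z.re| < w₂.re) (k1 : s₁.re ≤ 3) (k2 : w₁.re ≤ 3)
    (k3 : s₂.re ≤ 3) (k4 : w₂.re ≤ 3) :
    Tendsto (fun i => OO (r i) (s₁ / (L i : ℂ)) (w₁ / (L i : ℂ)) (s₂ / (L i : ℂ))
      (w₂ / (L i : ℂ)) (z / (L i : ℂ))) l
      (𝓝 (R0 s₁ w₁ s₂ w₂ * Vr s₁ w₁ s₂ w₂ z)) := by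
  obtain ⟨F, hF1, hF⟩ := key_u hL hr hs s₁ w₁ s₂ w₂ z h1 h2 h3 h4 k1 k2 k3 k4
  obtain ⟨G, hG1, hG⟩ := key_u (r := fun _ => 1) hL (fun _ => odd_one)
    (by
      filter_upwards [hL.eventually_ge_atTop 0] with i hi
      exact ⟨by simp, by simpa using hi⟩) s₁ w₁ s₂ w₂ z h1 h2 h3 h4 k1 k2 k3 k4
  have h5 := (OO_lim 1 odd_one s₁ w₁ s₂ w₂ z h1 h2 h3 h4).comp hL
  have h6 := h5.mul (hF1.div hG1 one_ne_zero)
  rw [div_one, mul_one] at h6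
  refine h6.congr' ?_
  filter_upwards [hG1.eventually_ne one_ne_zero, hF, hG] with i hi e1 e2
  simp only [Function.comp_apply, Pi.div_apply]
  rw [e1, e2]
  field_simp

end Pool.Agent.MP0016c7.Rz
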