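import Mathlib
import Pool.Agent.Lib.MP_0016c7_nt.PS.DefsM
import Pool.Agent.Lib.MP_0016c7_nt.PS.BCl
import Pool.Agent.Lib.MP_0016c7_nt.PS.OOl
import Pool.Agent.Lib.MP_0016c7_nt.PS.Qeh2
import Pool.Agent.Lib.MP_0016c7_nt.Rz2.Qfg

set_option autoImplicit false

/-!
Limit of the Dirichlet series, kernels with a growing pattern.
-/

open Finset MeasureTheory Filter Topology
open scoped Real ContDiff

namespace Pool.Agent.MP0016c7.Rz

private theorem qfh_bb_tendsto {β : ℂ → ℂ} {B : ℝ → ℝ} (hβ : BC β B) (w : ℂ) :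
    Tendsto (fun L : ℝ => β (w / (L : ℂ))) atTop (𝓝 1) := by
  obtain ⟨C, hC, h⟩ := hβ.bd 0
  have hz : Tendsto (fun L : ℝ => ‖w / (L : ℂ)‖) atTop (𝓝 0) := by
    have : (fun L : ℝ => ‖w / (L : ℂ)‖) = fun L : ℝ => ‖w‖ * |L|⁻¹ := by
      funext L
      rw [norm_div, Complex.norm_real, Real.norm_eq_abs, div_eq_mul_inv]
    rw [this]
    have h1 : Tendsto (fun L : ℝ => |L|⁻¹) atTop (𝓝 0) :=
      tendsto_inv_atTop_zero.comp tendsto_abs_atTop_atTop
    simpa using h1.const_mul ‖w‖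
  rw [tendsto_iff_norm_sub_tendsto_zero]
  have h2 : Tendsto (fun L : ℝ => C * ‖w / (L : ℂ)‖) atTop (𝓝 0) := by
    simpa using hz.const_mul C
  refine squeeze_zero' (Eventually.of_forall fun L => norm_nonneg _) ?_ h2
  have h3 : ∀ᶠ L : ℝ in atTop, ‖w / (L : ℂ)‖ < 1 / 8 := hz.eventually (gt_mem_nhds (by norm_num))
  filter_upwards [h3] with L hL
  exact (h _ ((Complex.abs_re_le_norm _).trans hL.le)).2

private theorem qfh_pow_tendsto (w : ℂ) :
    Tendsto (fun X : ℝ => (((X / 2 : ℝ)) : ℂ) ^ (-(w / (Real.log X : ℂ)))) atTop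
      (𝓝 (Complex.exp (-w))) := by
  have h1 : Tendsto (fun X : ℝ => Real.log (X / 2) / Real.log X) atTop (𝓝 1) := by
    have h2 : Tendsto (fun X : ℝ => 1 - Real.log 2 * (Real.log X)⁻¹) atTop
        (𝓝 (1 - Real.log 2 * 0)) :=
      ((tendsto_inv_atTop_zero.comp Real.tendsto_log_atTop).const_mul _).const_sub 1
    rw [mul_zero, sub_zero] at h2
    refine h2.congr' ?_
    filter_upwards [eventually_gt_atTop 1] with X hX
    have hL : 0 < Real.log X := Real.log_pos hX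
    rw [Real.log_div (by linarith) (by norm_num)]
    field_simp
  have h3 : Tendsto (fun X : ℝ => Complex.exp (-w *
      ((Real.log (X / 2) / Real.log X : ℝ) : ℂ))) atTop
      (𝓝 (Complex.exp (-w * ((1 : ℝ) : ℂ)))) := by
    refine (Complex.continuous_exp.tendsto _).comp ?_
    exact ((Complex.continuous_ofReal.tendsto _).comp h1).const_mul (-w)
  rw [Complex.ofReal_one, mul_one] at h3
  refine h3.congr' ?_
  filter_upwards [eventually_gt_atTop 1] with X hX
  have hY : 0 < X / 2 := by positivity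
  rw [Complex.cpow_def_of_ne_zero (by exact_mod_cast hY.ne'), ← Complex.ofReal_log hY.le]
  congr 1
  push_cast
  ring

private theorem qfh_Vr_zero {s₁ w₁ s₂ w₂ : ℂ} (n1 : s₁ ≠ 0) (n2 : w₁ ≠ 0) (n3 : s₂ ≠ 0)
    (n4 : w₂ ≠ 0) : Vr s₁ w₁ s₂ w₂ 0 = 1 := by
  unfold Vr
  rw [sub_zero, sub_zero, sub_zero, sub_zero, add_zero, add_zero, add_zero, add_zero]
  field_simp

theorem QXp_lim {β : ℂ → ℂ} {B : ℝ → ℝ} (hβ : BC β B) {X : ℕ → ℝ} {r : ℕ → ℕ} {W : ℕ → ℂ → ℂ}
    (hM : MSq X r W) (a' b' c' d' : ℝ) (hbd : b' ≠ d') :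
    Tendsto (fun n => QXp (fun z => β z * W n z) (r n) (X n) (X n) (2 + Complex.I * a')
      (3 + Complex.I * b') (5 / 2 + Complex.I * c') (3 + Complex.I * d')) atTop
      (𝓝 (Qinf (2 + Complex.I * a') (3 + Complex.I * b') (5 / 2 + Complex.I * c')
        (3 + Complex.I * d'))) := by
  choose B' hB' using hM.wb.bc β B hβ
  obtain ⟨C₁, A₁, hC₁, hA₁, h1⟩ := QeGp_bound hβ hM
  have hs₁ : (2 + Complex.I * a' : ℂ).re = 2 := by simp
  have hw₁ : (3 + Complex.I * b' : ℂ).re = 3 := by simp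
  have hs₂ : (5 / 2 + Complex.I * c' : ℂ).re = 5 / 2 := by simp
  have hw₂ : (3 + Complex.I * d' : ℂ).re = 3 := by simp
  have hne : (2 + Complex.I * a' : ℂ) ≠ 5 / 2 + Complex.I * c' := by
    intro h
    have := congrArg Complex.re h
    rw [hs₁, hs₂] at this
    norm_num at this
  have hne' : (3 + Complex.I * b' : ℂ) ≠ 3 + Complex.I * d' := by
    intro h
    have := congrArg Complex.im h
    simp at this
    exact hbd this
  have hZ := z_integral (2 + Complex.I * a') (3 + Complex.I * b') (5 / 2 + Complex.I * c')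
    (3 + Complex.I * d') (by rw [hs₁]; norm_num) (by rw [hs₂]; norm_num) (by rw [hw₁]; norm_num)
    (by rw [hw₂]; norm_num) hne hne'
  have hV0 : Vr (2 + Complex.I * a') (3 + Complex.I * b') (5 / 2 + Complex.I * c')
      (3 + Complex.I * d') 0 = 1 := by
    have n1 : (2 + Complex.I * a' : ℂ) ≠ 0 := fun h => by
      have := congrArg Complex.re h; rw [hs₁] at this; norm_num at this
    have n2 : (3 + Complex.I * b' : ℂ) ≠ 0 := fun h => by
      have := congrArg Complex.re h; rw [hw₁] at this; norm_num at this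
    have n3 : (5 / 2 + Complex.I * c' : ℂ) ≠ 0 := fun h => by
      have := congrArg Complex.re h; rw [hs₂] at this; norm_num at this
    have n4 : (3 + Complex.I * d' : ℂ) ≠ 0 := fun h => by
      have := congrArg Complex.re h; rw [hw₂] at this; norm_num at this
    exact qfh_Vr_zero n1 n2 n3 n4
  have h1' : ∀ᶠ n in atTop, ∀ t : ℝ,
      ‖QeGp (fun z => β z * W n z) (r n) (X n) (2 + Complex.I * a')
        (3 + Complex.I * b') (5 / 2 + Complex.I * c') (3 + Complex.I * d') t‖ ≤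
      C₁ * ((1 + |a'|) * (1 + |b'|) * (1 + |c'|) * (1 + |d'|)) ^ A₁ *
        (1 + |t|) ^ (-(5 / 4) : ℝ) := by
    filter_upwards [h1] with n hn t
    exact hn a' b' c' d' t
  set s₁ : ℂ := 2 + Complex.I * a' with hs₁d
  set w₁ : ℂ := 3 + Complex.I * b' with hw₁d
  set s₂ : ℂ := 5 / 2 + Complex.I * c' with hs₂d
  set w₂ : ℂ := 3 + Complex.I * d' with hw₂d
  have hL : Tendsto (fun n => Real.log (X n)) atTop atTop := Real.tendsto_log_atTop.comp hM.lim
  have hOO : ∀ z : ℂ, |z.re| < 2 → Tendsto (fun n => OO (r n) (s₁ / Real.log (X n))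
      (w₁ / Real.log (X n)) (s₂ / Real.log (X n)) (w₂ / Real.log (X n)) (z / Real.log (X n))) atTop
      (𝓝 (R0 s₁ w₁ s₂ w₂ * Vr s₁ w₁ s₂ w₂ z)) := by
    intro z hz
    exact OO_lim_u hL hM.odd hM.small s₁ w₁ s₂ w₂ z (by rw [hs₁]; exact hz) (by rw [hw₁]; linarith)
      (by rw [hs₂]; linarith) (by rw [hw₂]; linarith) (by rw [hs₁]; norm_num)
      (by rw [hw₁]) (by rw [hs₂]; norm_num) (by rw [hw₂])
  have hO0 : Tendsto (fun n => OO (r n) (s₁ / Real.log (X n))
      (w₁ / Real.log (X n)) (s₂ / Real.log (X n)) (w₂ / Real.log (X n)) 0) atTop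
      (𝓝 (R0 s₁ w₁ s₂ w₂)) := by
    have := hOO 0 (by simp)
    rw [hV0, mul_one] at this
    refine this.congr fun n => ?_
    rw [zero_div]
  have hmeas : ∀ᶠ n in atTop, AEStronglyMeasurable
      (QeGp (fun z => β z * W n z) (r n) (X n) s₁ w₁ s₂ w₂) volume := by
    filter_upwards [hM.lim.eventually_ge_atTop (Real.exp 8)] with n hn
    exact (measurable_QeGp (hB' n) (r n) (X n) ((Real.le_log_iff_exp_le
      ((Real.exp_pos 8).trans_le hn)).2 hn) _ _ _ _).aestronglyMeasurable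
  have hInt : Tendsto (fun n => ∫ t : ℝ, QeGp (fun z => β z * W n z) (r n) (X n) s₁ w₁ s₂ w₂ t)
      atTop
      (𝓝 (∫ t : ℝ, 1 * 1 * Complex.exp (-(1 + Complex.I * t)) *
        (R0 s₁ w₁ s₂ w₂ * Vr s₁ w₁ s₂ w₂ (1 + Complex.I * t) - R0 s₁ w₁ s₂ w₂) /
        (1 + Complex.I * t))) := by
    refine tendsto_integral_filter_of_dominated_convergence
      (fun t => C₁ * ((1 + |a'|) * (1 + |b'|) * (1 + |c'|) * (1 + |d'|)) ^ A₁ *
        (1 + |t|) ^ (-(5 / 4) : ℝ))
      hmeas ?_ (integrable_maj54.const_mul _) ?_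
    · filter_upwards [h1'] with n hn
      exact Eventually.of_forall hn
    · refine Eventually.of_forall fun t => ?_
      have e1 : Tendsto (fun n => β ((1 + Complex.I * t) / (Real.log (X n) : ℂ))) atTop
          (𝓝 1) := (qfh_bb_tendsto hβ (1 + Complex.I * t)).comp hL
      have e1' : Tendsto (fun n => W n ((1 + Complex.I * t) / (Real.log (X n) : ℂ))) atTop
          (𝓝 1) := WBd_line_lim hM.lim hM.wb t
      have e2 := (qfh_pow_tendsto (1 + Complex.I * t)).comp hM.lim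
      have e3 := hOO (1 + Complex.I * t) (by simp)
      unfold QeGp
      exact ((((e1.mul e1').mul e2).mul (e3.sub hO0)).div_const _)
  have hB : Tendsto (fun n => 1 - (B' n (X n / 2) : ℂ) / 2) atTop
      (𝓝 (1 - ((0 : ℝ) : ℂ) / 2)) :=
    (((Complex.continuous_ofReal.tendsto _).comp (BCW_tendsto hβ hM.lim hM.wb hB')).div_const
      2).const_sub 1
  have hfin := (hO0.mul hB).sub (hInt.const_mul (1 / (4 * π) : ℂ))
  have hval : R0 s₁ w₁ s₂ w₂ * (1 - ((0 : ℝ) : ℂ) / 2) - 1 / (4 * π) *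
      (∫ t : ℝ, 1 * 1 * Complex.exp (-(1 + Complex.I * t)) *
        (R0 s₁ w₁ s₂ w₂ * Vr s₁ w₁ s₂ w₂ (1 + Complex.I * t) - R0 s₁ w₁ s₂ w₂) /
        (1 + Complex.I * t)) = Qinf s₁ w₁ s₂ w₂ := by
    have e : ∀ t : ℝ, 1 * 1 * Complex.exp (-(1 + Complex.I * t)) *
        (R0 s₁ w₁ s₂ w₂ * Vr s₁ w₁ s₂ w₂ (1 + Complex.I * t) - R0 s₁ w₁ s₂ w₂) /
        (1 + Complex.I * t) = R0 s₁ w₁ s₂ w₂ * ((Vr s₁ w₁ s₂ w₂ (1 + Complex.I * t) - 1) *
        Complex.exp (-(1 + Complex.I * t)) / (1 + Complex.I * t)) := by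
      intro t
      ring
    rw [integral_congr_ae (Eventually.of_forall e), integral_const_mul]
    unfold Qinf
    rw [← hZ]
    have hpi : (π : ℂ) ≠ 0 := by exact_mod_cast Real.pi_ne_zero
    rw [Complex.ofReal_zero]
    field_simp
    ring
  rw [← hval]
  refine hfin.congr' ?_
  filter_upwards [hM.lim.eventually_ge_atTop (Real.exp 8), hmeas, h1'] with n hn hn2 hn3
  have hI : Integrable (QeGp (fun z => β z * W n z) (r n) (X n) s₁ w₁ s₂ w₂) :=
    Integrable.mono' (integrable_maj54.const_mul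
      (C₁ * ((1 + |a'|) * (1 + |b'|) * (1 + |c'|) * (1 + |d'|)) ^ A₁)) hn2
      (Eventually.of_forall hn3)
  exact (QXp_split (hB' n) hn s₁ w₁ s₂ w₂ hI).symm

end Pool.Agent.MP0016c7.Rz
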