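import Mathlib
import Pool.Agent.Lib.MP_0016c7_nt.PS.DefsM
import Pool.Agent.Lib.MP_0016c7_nt.PS.MTlh
import Pool.Agent.Lib.MP_0016c7_nt.PS.Sm3h
import Pool.Agent.Lib.MP_0016c7_nt.Rz.VLim

set_option autoImplicit false

/-!
The limit of the quadruple sums of the main term, growing patterns.
-/

open Finset MeasureTheory Filter Topology
open scoped Real ContDiff

namespace Pool.Agent.MP0016c7.Rz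

private theorem bump_monoQh {F : ℝ → ℝ} {a b a' b' : ℝ} (hF : Bump F a b) (h1 : a' ≤ a)
    (h2 : b ≤ b') : Bump F a' b' :=
  ⟨hF.smooth, fun t ht => ⟨lt_of_le_of_lt h1 (hF.supp t ht).1, lt_of_lt_of_le (hF.supp t ht).2 h2⟩⟩

theorem quad_CCp {β : ℂ → ℂ} {B : ℝ → ℝ} (hβ : BC β B) (I₀ : ℝ) {δ θ : ℝ} (hδ : 0 < δ)
    (hδ4 : δ ≤ 1 / 4) (hθ : 0 < θ) (hθ1 : θ + 3 * δ < 1 / 2) (c : ℝ) (hc : c = 0 ∨ c = 1)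
    {ρ₁ ρ₂ h : ℝ → ℝ} (hρ₁ : Bump ρ₁ (-(δ / 2)) (δ / 2)) (hρ₂ : Bump ρ₂ (-(δ / 2)) (δ / 2))
    (hh : Bump h 0 θ) {X : ℕ → ℝ} {r : ℕ → ℕ} {W : ℕ → ℂ → ℂ} (hM : MSq X r W)
    (ε : ℝ) (hε : 0 < ε) :
    ∀ᶠ n in atTop, ∀ M : ℕ → ℝ, MRepC (r n) (fun z => β z * W n z) I₀ (X n) M →
      (∀ N : ℕ, Nat.Coprime N (2 * r n) → |M N| ≤ X n ^ 3 * N) →
      ∀ Y₁ ∈ Set.Icc (-1 : ℝ) (1 / 2 + δ), ∀ Y₂ ∈ Set.Icc (-1 : ℝ) (1 / 2 + δ),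
      |quad (Wt c ρ₁ h (X n) θ δ Y₁) (Wt c ρ₂ h (X n) θ δ Y₂) (r n) ⌊X n ^ 2⌋₊ M -
        I₀ * CC ρ₁ ρ₂ h Y₁ Y₂| ≤ ε := by
  obtain ⟨X₃, hX₃⟩ := quad_MTh hδ hθ hθ1 c hc hρ₁ hρ₂ hh (ε / 2) (by linarith)
  have hX₅ := MT_limh c hc hβ I₀ hρ₁ hρ₂ hh hM (ε / 2) (by linarith)
  filter_upwards [hM.lim.eventually_ge_atTop X₃, hX₅] with n hXn hLn
  intro M hMr hMC Y₁ hY₁ Y₂ hY₂
  have hr0 : 0 < r n := (hM.odd n).pos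
  have s3 := hX₃ (X n) hXn (r n) hr0 M hMC Y₁ hY₁ Y₂ hY₂
  have hI1 : Y₁ ∈ Set.Icc (-1 : ℝ) 1 := ⟨hY₁.1, by linarith [hY₁.2]⟩
  have hI2 : Y₂ ∈ Set.Icc (-1 : ℝ) 1 := ⟨hY₂.1, by linarith [hY₂.2]⟩
  have s5 := hLn M hMr Y₁ hI1 Y₂ hI2
  have s6 := limit_eq (ρ₁ := ρ₁) (ρ₂ := ρ₂) (h := h) (θ := θ) (by linarith)
    (bump_monoQh hρ₁ (by linarith) (by linarith)) (bump_monoQh hρ₂ (by linarith) (by linarith)) hh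
    Y₁ Y₂ (by linarith [hY₁.2]) (by linarith [hY₂.2])
  have s7 : |MTg c ρ₁ ρ₂ h M (X n) (r n) Y₁ Y₂ - I₀ * CC ρ₁ ρ₂ h Y₁ Y₂| ≤ ε / 2 := by
    refine le_trans (le_of_eq ?_) s5
    rw [div_eq_mul_one_div, mul_assoc, s6, ← Complex.ofReal_mul, ← Complex.ofReal_sub,
      Complex.norm_real, Real.norm_eq_abs]
  rw [abs_le] at s3 s7 ⊢
  constructor <;> linarith [s3.1, s3.2, s7.1, s7.2]

end Pool.Agent.MP0016c7.Rz
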