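import Mathlib
import Pool.Agent.Lib.MP_0016c7_nt.PS.DefsM
import Pool.Agent.Lib.MP_0016c7_nt.PS.Mert

set_option autoImplicit false

/-!
Bounds for the correction factor `WP`, part 1.
-/

open Finset MeasureTheory Filter Topology
open scoped Real ContDiff

namespace Pool.Agent.MP0016c7.Rz

private theorem w1_step (α : ℝ) (h0 : 0 < α) (h1 : α < 1) (N : ℕ) :
    α * ((N + 1 : ℕ) : ℝ) ^ (α - 1) ≤ ((N + 1 : ℕ) : ℝ) ^ α - (N : ℝ) ^ α := by
  set x : ℝ := ((N + 1 : ℕ) : ℝ) with hx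
  have hx1 : 1 ≤ x := by rw [hx]; push_cast; linarith [Nat.cast_nonneg (α := ℝ) N]
  have hx0 : 0 < x := by linarith
  have hinv : 1 / x ≤ 1 := by rw [div_le_one hx0]; exact hx1
  have hN : (N : ℝ) = x * (1 + (-(1 / x))) := by
    rw [mul_add, mul_neg, mul_one_div_cancel hx0.ne', hx]
    push_cast
    ring
  have hb : (1 + (-(1 / x))) ^ α ≤ 1 + α * (-(1 / x)) :=
    rpow_one_add_le_one_add_mul_self (by linarith) h0.le h1.le
  have hb2 := mul_le_mul_of_nonneg_left hb (Real.rpow_nonneg hx0.le α)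
  rw [hN, Real.mul_rpow hx0.le (by linarith), Real.rpow_sub_one hx0.ne']
  have h3 : x ^ α * (1 + α * (-(1 / x))) = x ^ α - α * (x ^ α / x) := by ring
  linarith

private theorem w1_sum (α : ℝ) (h0 : 0 < α) (h1 : α < 1) (N : ℕ) :
    ∑ n ∈ Finset.Icc 1 N, (n : ℝ) ^ (α - 1) ≤ (N : ℝ) ^ α / α := by
  induction N with
  | zero => simp [Real.zero_rpow h0.ne']
  | succ N ih =>
    rw [Finset.sum_Icc_succ_top (by omega)]
    have h2 := w1_step α h0 h1 N
    rw [le_div_iff₀ h0] at ih ⊢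
    rw [add_mul]
    linarith

/-- the sum over the primes of the pattern -/
private theorem w1_psum (α : ℝ) (h0 : 0 < α) (h1 : α < 1) {L : ℝ} (hL : 1 ≤ L) {P : ℕ} :
    ∑ p ∈ P.primeFactors.filter (fun p : ℕ => (p : ℝ) ≤ L), (p : ℝ) ^ (α - 1) ≤ L ^ α / α := by
  have h2 : P.primeFactors.filter (fun p : ℕ => (p : ℝ) ≤ L) ⊆ Finset.Icc 1 ⌊L⌋₊ := by
    intro p hp
    rw [Finset.mem_filter] at hp
    have hpp := Nat.prime_of_mem_primeFactors hp.1
    rw [Finset.mem_Icc]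
    exact ⟨hpp.one_lt.le, Nat.le_floor hp.2⟩
  refine (Finset.sum_le_sum_of_subset_of_nonneg h2 fun n _ _ =>
    Real.rpow_nonneg (Nat.cast_nonneg n) _).trans ?_
  refine (w1_sum α h0 h1 _).trans ?_
  apply div_le_div_of_nonneg_right _ h0.le
  exact Real.rpow_le_rpow (Nat.cast_nonneg _) (Nat.floor_le (by linarith)) h0.le

/-- the large primes of the pattern -/
private theorem w1_large (α : ℝ) (h1 : α < 1) {L : ℝ} (hL : 1 ≤ L) {P : ℕ}
    (hP : ∑ p ∈ P.primeFactors, Real.log p ≤ 2 * L) :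
    ∑ p ∈ P.primeFactors.filter (fun p : ℕ => ¬ (p : ℝ) ≤ L), Real.log p * (p : ℝ) ^ (α - 1) ≤
      2 * L ^ α := by
  have hL0 : 0 < L := by linarith
  have h2 : ∀ p ∈ P.primeFactors.filter (fun p : ℕ => ¬ (p : ℝ) ≤ L),
      Real.log p * (p : ℝ) ^ (α - 1) ≤ Real.log p * L ^ (α - 1) := by
    intro p hp
    rw [Finset.mem_filter] at hp
    refine mul_le_mul_of_nonneg_left ?_ (Real.log_natCast_nonneg p)
    exact Real.rpow_le_rpow_of_nonpos hL0 (not_le.1 hp.2).le (by linarith)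
  refine (Finset.sum_le_sum h2).trans ?_
  rw [← Finset.sum_mul]
  have h3 : ∑ p ∈ P.primeFactors.filter (fun p : ℕ => ¬ (p : ℝ) ≤ L), Real.log p ≤ 2 * L :=
    le_trans (Finset.sum_le_sum_of_subset_of_nonneg (Finset.filter_subset _ _)
        fun p _ _ => Real.log_natCast_nonneg p) hP
  have h4 : L ^ (α - 1) * L = L ^ α := by
    nth_rewrite 2 [← Real.rpow_one L]
    rw [← Real.rpow_add hL0, sub_add_cancel]
  have h5 : 0 ≤ L ^ (α - 1) := by positivity
  calc _ ≤ 2 * L * L ^ (α - 1) := mul_le_mul_of_nonneg_right h3 h5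
    _ = 2 * (L ^ (α - 1) * L) := by ring
    _ = 2 * L ^ α := by rw [h4]

/-- the factor `WP` minus one at a prime -/
private noncomputable def w1_c (Q R : ℕ) (z : ℂ) (p : ℕ) : ℂ :=
  if p ∣ R then (1 - (p : ℂ) ^ (2 * z)) / ((p : ℂ) - 1)
  else (if p ∣ Q then -1 else 1) *
      (((p : ℂ) ^ z - (p : ℂ) ^ (-z)) / ((√(p : ℝ) : ℂ) * (1 - 1 / (p : ℂ))))

private theorem w1_eq {L : ℝ} {P Q R : ℕ} (hP : PatL L P Q R) (z : ℂ) :
    WP P Q R z = ∏ p ∈ P.primeFactors, (1 + w1_c Q R z p) := by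
  have hP0 : P ≠ 0 := hP.sf.ne_zero
  have hR : R.primeFactors = P.primeFactors.filter (fun p => p ∣ R) := by
    ext p
    rw [Finset.mem_filter, Nat.mem_primeFactors, Nat.mem_primeFactors]
    constructor
    · rintro ⟨h1, h2, h3⟩
      exact ⟨⟨h1, h2.trans hP.hR, hP0⟩, h2⟩
    · rintro ⟨⟨h1, _, _⟩, h2⟩
      exact ⟨h1, h2, fun h => hP0 (by
        have := hP.hR
        rw [h] at this
        exact Nat.eq_zero_of_zero_dvd this)⟩
  rw [WP, hR, mul_comm, ← Finset.prod_filter_mul_prod_filter_not P.primeFactors (fun p => p ∣ R)]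
  congr 1
  · apply Finset.prod_congr rfl
    intro p hp
    rw [Finset.mem_filter] at hp
    have hpp := Nat.prime_of_mem_primeFactors hp.1
    have hp0 : (p : ℂ) ≠ 0 := by exact_mod_cast hpp.ne_zero
    have hp1 : (p : ℂ) - 1 ≠ 0 := by
      intro h
      have : (p : ℂ) = ((1 : ℕ) : ℂ) := by rw [Nat.cast_one]; linear_combination h
      exact hpp.one_lt.ne' (by exact_mod_cast this)
    rw [w1_c, if_pos hp.2, Complex.cpow_sub _ _ hp0, Complex.cpow_one]
    have h3 : (1 - 1 / (p : ℂ)) = ((p : ℂ) - 1) / p := by field_simp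
    rw [h3]
    field_simp
    ring
  · apply Finset.prod_congr rfl
    intro p hp
    rw [Finset.mem_filter] at hp
    rw [w1_c, if_neg hp.2]

private theorem w1_exp (w : ℂ) :
    ‖Complex.exp w - Complex.exp (-w)‖ ≤ 2 * ‖w‖ * Real.exp |w.re| := by
  have hderiv : ∀ t ∈ Set.Icc (0 : ℝ) 1,
      HasDerivWithinAt (fun t : ℝ => Complex.exp (t * w) - Complex.exp (-(t * w)))
        (w * Complex.exp (t * w) + w * Complex.exp (-(t * w))) (Set.Icc 0 1) t := by
    intro t _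
    have h1 : HasDerivAt (fun t : ℝ => (t : ℂ) * w) w t := by
      simpa using (Complex.ofRealCLM.hasDerivAt (x := t)).mul_const w
    have h2 := h1.cexp
    have h3 := (h1.neg).cexp
    have h4 := (h2.sub h3).hasDerivWithinAt (s := Set.Icc (0 : ℝ) 1)
    refine h4.congr_deriv ?_
    simp only [Pi.neg_apply]
    ring
  have hbound : ∀ t ∈ Set.Ico (0 : ℝ) 1,
      ‖w * Complex.exp (t * w) + w * Complex.exp (-(t * w))‖ ≤ 2 * ‖w‖ * Real.exp |w.re| := by
    intro t ht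
    have hle : ∀ v : ℂ, |v.re| ≤ |w.re| → ‖w * Complex.exp v‖ ≤ ‖w‖ * Real.exp |w.re| := by
      intro v hv
      rw [norm_mul, Complex.norm_exp]
      apply mul_le_mul_of_nonneg_left _ (norm_nonneg _)
      exact Real.exp_le_exp.mpr ((le_abs_self _).trans hv)
    have h1 : |((t : ℂ) * w).re| ≤ |w.re| := by
      rw [Complex.re_ofReal_mul, abs_mul, abs_of_nonneg ht.1]
      exact mul_le_of_le_one_left (abs_nonneg _) ht.2.le
    have h2 : |(-((t : ℂ) * w)).re| ≤ |w.re| := by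
      rw [Complex.neg_re, abs_neg]
      exact h1
    refine (norm_add_le _ _).trans ?_
    have := add_le_add (hle _ h1) (hle _ h2)
    linarith
  have := norm_image_sub_le_of_norm_deriv_le_segment_01' hderiv hbound
  simpa using this

private theorem w1_pow {p : ℕ} (hp : 0 < p) (z : ℂ) :
    ‖(p : ℂ) ^ z - (p : ℂ) ^ (-z)‖ ≤ 2 * (‖z‖ * Real.log p) * Real.exp (|z.re| * Real.log p) := by
  have hp0 : (p : ℂ) ≠ 0 := by exact_mod_cast hp.ne'
  have hlog : 0 ≤ Real.log p := Real.log_natCast_nonneg p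
  rw [Complex.cpow_def_of_ne_zero hp0, Complex.cpow_def_of_ne_zero hp0, mul_neg,
    ← Complex.natCast_log]
  refine (w1_exp _).trans (le_of_eq ?_)
  rw [norm_mul, Complex.norm_real, Real.norm_of_nonneg hlog, Complex.re_ofReal_mul, abs_mul,
    abs_of_nonneg hlog]
  ring_nf

theorem WP_strip {L : ℝ} (hL : 1 ≤ L) {P Q R : ℕ} (hP : PatL L P Q R) (z : ℂ)
    (hz : |z.re| ≤ 1 / 8) :
    ‖WP P Q R z‖ ≤ Real.exp (11 * L ^ (5 / 8 : ℝ)) := by
  rw [w1_eq hP z]
  have h1 := Finset.norm_prod_one_add_sub_one_le P.primeFactors (w1_c Q R z)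
  have h2 : ‖∏ p ∈ P.primeFactors, (1 + w1_c Q R z p)‖ ≤
      Real.exp (∑ p ∈ P.primeFactors, ‖w1_c Q R z p‖) := by
    have h3 := norm_add_le (∏ p ∈ P.primeFactors, (1 + w1_c Q R z p) - 1) 1
    rw [sub_add_cancel, norm_one] at h3
    linarith
  refine h2.trans (Real.exp_le_exp.mpr ?_)
  have h4 : ∀ p ∈ P.primeFactors, ‖w1_c Q R z p‖ ≤ 3 * (p : ℝ) ^ ((5 / 8 : ℝ) - 1) := by
    intro p hp
    have hpp := Nat.prime_of_mem_primeFactors hp
    have h3 := (one_le_log_pf hP.odd hp).1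
    have hp3 : (3 : ℝ) ≤ p := by exact_mod_cast h3
    have hp0 : (0 : ℝ) < p := by linarith
    have hp1 : (1 : ℝ) ≤ p := by linarith
    have hnorm : ∀ w : ℂ, |w.re| ≤ 1 / 8 → ‖(p : ℂ) ^ w‖ ≤ (p : ℝ) ^ (1 / 8 : ℝ) := by
      intro w hw
      rw [Complex.norm_natCast_cpow_of_pos hpp.pos]
      exact Real.rpow_le_rpow_of_exponent_le hp1 ((le_abs_self _).trans hw)
    have hden : 2 / 3 ≤ 1 - 1 / (p : ℝ) := by
      have : 1 / (p : ℝ) ≤ 1 / 3 := one_div_le_one_div_of_le (by norm_num) hp3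
      linarith
    unfold w1_c
    split_ifs with hR hQ
    · -- ramified
      have h5 : ‖(1 : ℂ) - (p : ℂ) ^ (2 * z)‖ ≤ 2 * (p : ℝ) ^ (1 / 4 : ℝ) := by
        refine (norm_sub_le _ _).trans ?_
        rw [norm_one, Complex.norm_natCast_cpow_of_pos hpp.pos]
        have h6 : (2 * z).re ≤ 1 / 4 := by
          have h7 : (2 * z).re = 2 * z.re := by simp
          rw [h7]
          have := (le_abs_self z.re).trans hz
          linarith
        have h7 := Real.rpow_le_rpow_of_exponent_le hp1 h6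
        have h8 : (1 : ℝ) ≤ (p : ℝ) ^ (1 / 4 : ℝ) := Real.one_le_rpow hp1 (by norm_num)
        linarith
      have h6 : ‖(p : ℂ) - 1‖ = (p : ℝ) - 1 := by
        have : (p : ℂ) - 1 = (((p : ℝ) - 1 : ℝ) : ℂ) := by push_cast; ring
        rw [this, Complex.norm_real, Real.norm_of_nonneg (by linarith)]
      rw [norm_div, h6, div_le_iff₀ (by linarith)]
      refine h5.trans ?_
      have h7 : (p : ℝ) ^ (1 / 4 : ℝ) ≤ (p : ℝ) ^ ((5 / 8 : ℝ) - 1) * p := by
        nth_rewrite 3 [← Real.rpow_one (p : ℝ)]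
        rw [← Real.rpow_add hp0]
        exact Real.rpow_le_rpow_of_exponent_le hp1 (by norm_num)
      have h8 : (2 / 3 : ℝ) * p ≤ p - 1 := by linarith
      have h9 : (0 : ℝ) ≤ (p : ℝ) ^ ((5 / 8 : ℝ) - 1) := by positivity
      nlinarith
    all_goals
      have h5 : ‖(p : ℂ) ^ z - (p : ℂ) ^ (-z)‖ ≤ 2 * (p : ℝ) ^ (1 / 8 : ℝ) := by
        refine (norm_sub_le _ _).trans ?_
        have h6 := hnorm z hz
        have h7 := hnorm (-z) (by rw [Complex.neg_re, abs_neg]; exact hz)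
        linarith
      have h6 : ‖(√(p : ℝ) : ℂ) * (1 - 1 / (p : ℂ))‖ = √(p : ℝ) * (1 - 1 / (p : ℝ)) := by
        have : (√(p : ℝ) : ℂ) * (1 - 1 / (p : ℂ)) = ((√(p : ℝ) * (1 - 1 / (p : ℝ)) : ℝ) : ℂ) := by
          push_cast; ring
        rw [this, Complex.norm_real, Real.norm_of_nonneg]
        exact mul_nonneg (Real.sqrt_nonneg _) (by linarith)
      have h7 : 0 < √(p : ℝ) := Real.sqrt_pos.mpr hp0
      have h8 : ‖((p : ℂ) ^ z - (p : ℂ) ^ (-z)) / ((√(p : ℝ) : ℂ) * (1 - 1 / (p : ℂ)))‖ ≤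
          3 * (p : ℝ) ^ ((5 / 8 : ℝ) - 1) := by
        rw [norm_div, h6, div_le_iff₀ (mul_pos h7 (by linarith))]
        refine h5.trans ?_
        have h9 : (p : ℝ) ^ (1 / 8 : ℝ) = (p : ℝ) ^ ((5 / 8 : ℝ) - 1) * √(p : ℝ) := by
          rw [Real.sqrt_eq_rpow, ← Real.rpow_add hp0]
          norm_num
        rw [h9]
        have h10 : (0 : ℝ) ≤ (p : ℝ) ^ ((5 / 8 : ℝ) - 1) * √(p : ℝ) := by positivity
        nlinarith
      first
        | (rw [neg_one_mul, norm_neg]; exact h8)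
        | (rw [one_mul]; exact h8)
  refine (Finset.sum_le_sum h4).trans ?_
  rw [← Finset.mul_sum, ← Finset.sum_filter_add_sum_filter_not P.primeFactors
    (fun p : ℕ => (p : ℝ) ≤ L)]
  have h5 := w1_psum (5 / 8) (by norm_num) (by norm_num) hL (P := P)
  have h6 : (0 : ℝ) ≤ L ^ (5 / 8 : ℝ) := Real.rpow_nonneg (by linarith) _
  have h7 : L ^ (5 / 8 : ℝ) / (5 / 8) = 8 / 5 * L ^ (5 / 8 : ℝ) := by ring
  rw [h7] at h5
  have h8 : ∑ p ∈ P.primeFactors.filter (fun p : ℕ => ¬ (p : ℝ) ≤ L), (p : ℝ) ^ ((5 / 8 : ℝ) - 1) ≤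
      2 * L ^ (5 / 8 : ℝ) := by
    refine le_trans (Finset.sum_le_sum fun p hp => ?_)
      (w1_large (5 / 8) (by norm_num) hL hP.sm.2)
    rw [Finset.mem_filter] at hp
    have h9 := (one_le_log_pf hP.odd hp.1).2
    have h10 : (0 : ℝ) ≤ (p : ℝ) ^ ((5 / 8 : ℝ) - 1) := by positivity
    nlinarith
  linarith

theorem WP_sub_one {L : ℝ} (hL : 1 ≤ L) {P Q R : ℕ} (hP : PatL L P Q R) (z : ℂ)
    (hz : |z.re| ≤ 4 / L) :
    ‖WP P Q R z - 1‖ ≤ Real.exp (14 * ‖z‖ * (√L * (Real.log L + 1))) - 1 := by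
  rw [w1_eq hP z]
  refine (Finset.norm_prod_one_add_sub_one_le P.primeFactors (w1_c Q R z)).trans ?_
  apply sub_le_sub_right
  apply Real.exp_le_exp.mpr
  have hlL : 0 ≤ Real.log L := Real.log_nonneg hL
  have hL0 : 0 < L := by linarith
  have h4 : ∀ p ∈ P.primeFactors, ‖w1_c Q R z p‖ ≤
      7 * ‖z‖ * Real.log p * (p : ℝ) ^ ((1 / 2 : ℝ) - 1) := by
    intro p hp
    have hpp := Nat.prime_of_mem_primeFactors hp
    have h3 := (one_le_log_pf hP.odd hp).1
    have hly : 0 ≤ Real.log p := Real.log_natCast_nonneg p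
    have hp3 : (3 : ℝ) ≤ p := by exact_mod_cast h3
    have hp0 : (0 : ℝ) < p := by linarith
    have hp1 : (1 : ℝ) ≤ p := by linarith
    have hlp : 0 ≤ Real.log p := Real.log_nonneg hp1
    have hden : 2 / 3 ≤ 1 - 1 / (p : ℝ) := by
      have : 1 / (p : ℝ) ≤ 1 / 3 := one_div_le_one_div_of_le (by norm_num) hp3
      linarith
    have h7 : 0 < √(p : ℝ) := Real.sqrt_pos.mpr hp0
    have hsq : √(p : ℝ) * √(p : ℝ) = p := Real.mul_self_sqrt hp0.le
    have hexp : Real.exp (|z.re| * Real.log p) ≤ 2 := by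
      have h5 : |z.re| * Real.log p ≤ Real.log 2 := by
        have h6 : |z.re| * Real.log p ≤ 4 / L * (L / 60) :=
          mul_le_mul hz (hP.sm.1 p hp) hlp (by positivity)
        have h7 : 4 / L * (L / 60) = 1 / 15 := by field_simp; norm_num
        have h8 := Real.log_two_gt_d9
        linarith
      exact (Real.exp_le_exp.mpr h5).trans (by rw [Real.exp_log (by norm_num)])
    have hzl : 0 ≤ ‖z‖ * Real.log p := mul_nonneg (norm_nonneg _) hlp
    have h5 : ‖(p : ℂ) ^ z - (p : ℂ) ^ (-z)‖ ≤ 4 * (‖z‖ * Real.log p) := by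
      refine (w1_pow hpp.pos z).trans ?_
      have := mul_le_mul_of_nonneg_left hexp hzl
      linarith
    have hrp : (p : ℝ) ^ ((1 / 2 : ℝ) - 1) * √(p : ℝ) = 1 := by
      rw [Real.sqrt_eq_rpow, ← Real.rpow_add hp0]
      norm_num
    have hr0 : (0 : ℝ) ≤ (p : ℝ) ^ ((1 / 2 : ℝ) - 1) := by positivity
    have hzy : 0 ≤ ‖z‖ * Real.log p := mul_nonneg (norm_nonneg _) hly
    unfold w1_c
    split_ifs with hR hQ
    · have h8 : (1 : ℂ) - (p : ℂ) ^ (2 * z) = -((p : ℂ) ^ z * ((p : ℂ) ^ z - (p : ℂ) ^ (-z))) := by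
        have hpc : (p : ℂ) ≠ 0 := by exact_mod_cast hpp.ne_zero
        rw [mul_sub, ← Complex.cpow_add _ _ hpc, ← Complex.cpow_add _ _ hpc, add_neg_cancel,
          Complex.cpow_zero, two_mul]
        ring
      have h9 : ‖(p : ℂ) ^ z‖ ≤ 2 := by
        rw [Complex.norm_natCast_cpow_of_pos hpp.pos, Real.rpow_def_of_pos hp0]
        refine le_trans (Real.exp_le_exp.mpr ?_) hexp
        rw [mul_comm]
        exact mul_le_mul_of_nonneg_right (le_abs_self _) hlp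
      have h6 : ‖(p : ℂ) - 1‖ = (p : ℝ) - 1 := by
        have : (p : ℂ) - 1 = (((p : ℝ) - 1 : ℝ) : ℂ) := by push_cast; ring
        rw [this, Complex.norm_real, Real.norm_of_nonneg (by linarith)]
      rw [norm_div, h6, h8, norm_neg, norm_mul, div_le_iff₀ (by linarith)]
      have h10 : ‖(p : ℂ) ^ z‖ * ‖(p : ℂ) ^ z - (p : ℂ) ^ (-z)‖ ≤ 2 * (4 * (‖z‖ * Real.log p)) :=
        mul_le_mul h9 h5 (norm_nonneg _) (by norm_num)
      refine h10.trans ?_
      -- `√p ≥ 12 / 7`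
      have h11 : 12 / 7 ≤ √(p : ℝ) := by
        rw [Real.le_sqrt' (by norm_num)]
        norm_num
        linarith
      have h12 : (8 / 7 : ℝ) ≤ (p : ℝ) ^ ((1 / 2 : ℝ) - 1) * (p - 1) := by
        have h13 : (2 / 3 : ℝ) * p ≤ p - 1 := by linarith
        have h14 : (p : ℝ) ^ ((1 / 2 : ℝ) - 1) * p = √(p : ℝ) := by
          calc (p : ℝ) ^ ((1 / 2 : ℝ) - 1) * p
              = ((p : ℝ) ^ ((1 / 2 : ℝ) - 1) * √(p : ℝ)) * √(p : ℝ) := by
                rw [mul_assoc, hsq]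
            _ = √(p : ℝ) := by rw [hrp, one_mul]
        have h15 := mul_le_mul_of_nonneg_left h13 hr0
        have h16 : (p : ℝ) ^ ((1 / 2 : ℝ) - 1) * (2 / 3 * p) = 2 / 3 * √(p : ℝ) := by
          rw [← h14]; ring
        rw [h16] at h15
        linarith
      have h13 := mul_le_mul_of_nonneg_left h12 hzy
      nlinarith
    all_goals
      have h6 : ‖(√(p : ℝ) : ℂ) * (1 - 1 / (p : ℂ))‖ = √(p : ℝ) * (1 - 1 / (p : ℝ)) := by
        have : (√(p : ℝ) : ℂ) * (1 - 1 / (p : ℂ)) = ((√(p : ℝ) * (1 - 1 / (p : ℝ)) : ℝ) : ℂ) := by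
          push_cast; ring
        rw [this, Complex.norm_real, Real.norm_of_nonneg]
        exact mul_nonneg (Real.sqrt_nonneg _) (by linarith)
      have h8 : ‖((p : ℂ) ^ z - (p : ℂ) ^ (-z)) / ((√(p : ℝ) : ℂ) * (1 - 1 / (p : ℂ)))‖ ≤
          7 * ‖z‖ * Real.log p * (p : ℝ) ^ ((1 / 2 : ℝ) - 1) := by
        rw [norm_div, h6, div_le_iff₀ (mul_pos h7 (by linarith))]
        refine h5.trans ?_
        have h9 : 7 * ‖z‖ * Real.log p * (p : ℝ) ^ ((1 / 2 : ℝ) - 1) *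
            (√(p : ℝ) * (1 - 1 / (p : ℝ))) = 7 * (‖z‖ * Real.log p) * (1 - 1 / (p : ℝ)) := by
          calc _ = 7 * (‖z‖ * Real.log p) * ((p : ℝ) ^ ((1 / 2 : ℝ) - 1) * √(p : ℝ)) *
                (1 - 1 / (p : ℝ)) := by ring
            _ = _ := by rw [hrp, mul_one]
        rw [h9]
        nlinarith
      first
        | (rw [neg_one_mul, norm_neg]; exact h8)
        | (rw [one_mul]; exact h8)
  refine (Finset.sum_le_sum h4).trans ?_
  have h5 := w1_psum (1 / 2) (by norm_num) (by norm_num) hL (P := P)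
  have h6 := w1_large (1 / 2) (by norm_num) hL hP.sm.2
  rw [← Real.sqrt_eq_rpow] at h5 h6
  rw [← Finset.sum_filter_add_sum_filter_not P.primeFactors (fun p : ℕ => (p : ℝ) ≤ L)]
  have h7 : ∑ p ∈ P.primeFactors.filter (fun p : ℕ => (p : ℝ) ≤ L),
      7 * ‖z‖ * Real.log p * (p : ℝ) ^ ((1 / 2 : ℝ) - 1) ≤
      7 * ‖z‖ * Real.log L * (√L / (1 / 2)) := by
    refine le_trans (Finset.sum_le_sum (g := fun p : ℕ =>
      7 * ‖z‖ * Real.log L * (p : ℝ) ^ ((1 / 2 : ℝ) - 1)) fun p hp => ?_) ?_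
    · rw [Finset.mem_filter] at hp
      have hp0 : (0 : ℝ) < p := by exact_mod_cast (Nat.prime_of_mem_primeFactors hp.1).pos
      refine mul_le_mul_of_nonneg_right ?_ (by positivity)
      exact mul_le_mul_of_nonneg_left (Real.log_le_log hp0 hp.2) (by positivity)
    · rw [← Finset.mul_sum]
      exact mul_le_mul_of_nonneg_left h5 (by positivity)
  have h8 : ∑ p ∈ P.primeFactors.filter (fun p : ℕ => ¬ (p : ℝ) ≤ L),
      7 * ‖z‖ * Real.log p * (p : ℝ) ^ ((1 / 2 : ℝ) - 1) ≤ 7 * ‖z‖ * (2 * √L) := by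
    have h9 := mul_le_mul_of_nonneg_left h6 (by positivity : (0 : ℝ) ≤ 7 * ‖z‖)
    rw [Finset.mul_sum] at h9
    refine le_trans (le_of_eq (Finset.sum_congr rfl fun p _ => ?_)) h9
    ring
  refine (add_le_add h7 h8).trans (le_of_eq ?_)
  ring

end Pool.Agent.MP0016c7.Rz
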