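import Mathlib
import Pool.Agent.Lib.MP_0016c7_nt.PS.DefsM
import Pool.Agent.Lib.MP_0016c7_nt.PS.Mert

set_option autoImplicit false

/-!
Bounds for the correction factor `WP`, part 2: near the imaginary axis.
-/

open Finset MeasureTheory Filter Topology
open scoped Real ContDiff

namespace Pool.Agent.MP0016c7.Rz

private lemma w2_norm_one_add (w : ℂ) : ‖1 + w‖ ≤ Real.exp (w.re + ‖w‖ ^ 2 / 2) := by
  have h1 : ‖1 + w‖ ^ 2 = 1 + 2 * w.re + ‖w‖ ^ 2 := by
    rw [← Complex.normSq_eq_norm_sq, ← Complex.normSq_eq_norm_sq, Complex.normSq_add]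
    simp
    ring
  have h2 : ‖1 + w‖ ^ 2 ≤ (Real.exp (w.re + ‖w‖ ^ 2 / 2)) ^ 2 := by
    rw [h1, ← Real.exp_nat_mul]
    have := Real.add_one_le_exp (((2 : ℕ) : ℝ) * (w.re + ‖w‖ ^ 2 / 2))
    push_cast at this ⊢
    linarith
  exact (pow_le_pow_iff_left₀ (norm_nonneg _) (Real.exp_pos _).le two_ne_zero).1 h2

private lemma w2_cpow (p : ℕ) (hp : 0 < p) (z : ℂ) :
    (p : ℂ) ^ z = Complex.exp (((Real.log p : ℝ) : ℂ) * z) := by
  rw [Complex.cpow_def_of_ne_zero (by exact_mod_cast hp.ne'), ← Complex.natCast_log]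

private lemma w2_re (p : ℕ) (hp : 0 < p) (z : ℂ) :
    ((p : ℂ) ^ z).re = Real.exp (z.re * Real.log p) * Real.cos (z.im * Real.log p) := by
  rw [w2_cpow p hp, Complex.exp_re, Complex.re_ofReal_mul, Complex.im_ofReal_mul,
    mul_comm z.re, mul_comm z.im]

private lemma w2_norm (p : ℕ) (hp : 0 < p) (z : ℂ) :
    ‖(p : ℂ) ^ z‖ = Real.exp (z.re * Real.log p) := by
  rw [w2_cpow p hp, Complex.norm_exp, Complex.re_ofReal_mul, mul_comm]

private lemma w2_sinh (a : ℝ) (ha0 : 0 ≤ a) (ha : a ≤ Real.log 2) :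
    Real.exp a - Real.exp (-a) ≤ 4 * a := by
  have h1 : Real.exp a ≤ 2 := by
    calc Real.exp a ≤ Real.exp (Real.log 2) := Real.exp_le_exp.2 ha
      _ = 2 := Real.exp_log (by norm_num)
  have h2 : 1 - a ≤ Real.exp (-a) := by
    have := Real.add_one_le_exp (-a)
    linarith
  have h3 : Real.exp a * Real.exp (-a) = 1 := by
    rw [← Real.exp_add]; simp
  have h4 : 0 < Real.exp a := Real.exp_pos a
  nlinarith [mul_le_mul_of_nonneg_left h2 h4.le]

private lemma w2_abs (x l : ℝ) (hl : 0 ≤ l) (h : |x| * l ≤ Real.log 2) :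
    |Real.exp (x * l) - Real.exp (-x * l)| ≤ 4 * (|x| * l) ∧
      Real.exp (x * l) ≤ 2 ∧ Real.exp (-x * l) ≤ 2 ∧
      Real.exp (x * l) + Real.exp (-x * l) ≤ 3 := by
  have ha0 : 0 ≤ |x| * l := mul_nonneg (abs_nonneg _) hl
  have h2 : ∀ b : ℝ, b ≤ Real.log 2 → Real.exp b ≤ 2 := by
    intro b hb
    calc Real.exp b ≤ Real.exp (Real.log 2) := Real.exp_le_exp.2 hb
      _ = 2 := Real.exp_log (by norm_num)
  have h3 : ∀ b : ℝ, b ≤ 0 → Real.exp b ≤ 1 := fun b hb => Real.exp_le_one_iff.2 hb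
  have hs := w2_sinh (|x| * l) ha0 h
  rcases abs_cases x with ⟨hx, hx0⟩ | ⟨hx, hx0⟩
  · rw [hx] at h hs ha0 ⊢
    have e1 : -x * l = -(x * l) := by ring
    rw [e1]
    have h5 : Real.exp (-(x * l)) ≤ Real.exp (x * l) := Real.exp_le_exp.2 (by linarith)
    rw [abs_of_nonneg (by linarith)]
    have h6 := h2 _ h
    have h7 := h3 (-(x * l)) (by linarith)
    exact ⟨hs, h6, by linarith, by linarith⟩
  · rw [hx] at h hs ha0 ⊢
    have e1 : x * l = -(-x * l) := by ring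
    rw [e1]
    have h5 : Real.exp (-(-x * l)) ≤ Real.exp (-x * l) := Real.exp_le_exp.2 (by linarith)
    rw [abs_of_nonpos (by linarith)]
    have h6 := h2 _ h
    have h7 := h3 (-(-x * l)) (by linarith)
    exact ⟨by linarith, by linarith, h6, by linarith⟩

private lemma w2_fac1 (p : ℕ) (hp : 3 ≤ p) (z : ℂ) (h : |z.re| * Real.log p ≤ Real.log 2) (s : ℂ)
    (hs : s = -1 ∨ s = 1) :
    ‖1 + s * (((p : ℂ) ^ z - (p : ℂ) ^ (-z)) / ((√(p : ℝ) : ℂ) * (1 - 1 / (p : ℂ))))‖ ≤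
      Real.exp (6 * |z.re| * (Real.log p / √(p : ℝ)) + 51 / 5 * (1 / (p : ℝ))) := by
  have hp0 : 0 < p := by omega
  have hpr : (3 : ℝ) ≤ p := by exact_mod_cast hp
  have hpr0 : (0 : ℝ) < p := by linarith
  have hl : 0 ≤ Real.log p := Real.log_nonneg (by linarith)
  have hsq : 0 < √(p : ℝ) := Real.sqrt_pos.2 hpr0
  set D : ℝ := √(p : ℝ) * (1 - 1 / (p : ℝ)) with hD
  have hDe : (√(p : ℝ) : ℂ) * (1 - 1 / (p : ℂ)) = ((D : ℝ) : ℂ) := by
    rw [hD]; push_cast; rfl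
  have h23 : 2 / 3 ≤ 1 - 1 / (p : ℝ) := by
    have : 1 / (p : ℝ) ≤ 1 / 3 := one_div_le_one_div_of_le (by norm_num) hpr
    linarith
  have hDl : 2 / 3 * √(p : ℝ) ≤ D := by
    rw [hD, mul_comm]
    exact mul_le_mul_of_nonneg_left h23 hsq.le
  have hD0 : 0 < D := lt_of_lt_of_le (by positivity) hDl
  obtain ⟨hab, -, -, hsum⟩ := w2_abs z.re (Real.log p) hl h
  set w : ℂ := s * (((p : ℂ) ^ z - (p : ℂ) ^ (-z)) / ((D : ℝ) : ℂ)) with hw
  rw [hDe]
  refine (w2_norm_one_add w).trans (Real.exp_le_exp.2 ?_)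
  have hsn : ‖s‖ = 1 := by rcases hs with rfl | rfl <;> simp
  -- the norm
  have hn : ‖w‖ ≤ 9 / 2 / √(p : ℝ) := by
    rw [hw, norm_mul, hsn, one_mul, norm_div, Complex.norm_real, Real.norm_eq_abs,
      abs_of_pos hD0]
    have h1 : ‖(p : ℂ) ^ z - (p : ℂ) ^ (-z)‖ ≤ 3 := by
      refine (norm_sub_le _ _).trans ?_
      rw [w2_norm p hp0, w2_norm p hp0, Complex.neg_re]
      exact hsum
    rw [div_le_div_iff₀ hD0 hsq]
    nlinarith [norm_nonneg ((p : ℂ) ^ z - (p : ℂ) ^ (-z))]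
  have hn2 : ‖w‖ ^ 2 / 2 ≤ 51 / 5 * (1 / (p : ℝ)) := by
    have h1 : ‖w‖ ^ 2 ≤ (9 / 2 / √(p : ℝ)) ^ 2 := pow_le_pow_left₀ (norm_nonneg _) hn 2
    rw [div_pow, Real.sq_sqrt hpr0.le] at h1
    have h2 : (9 / 2 : ℝ) ^ 2 / (p : ℝ) = 81 / 4 * (1 / (p : ℝ)) := by ring
    rw [h2] at h1
    have h3 : 0 < 1 / (p : ℝ) := by positivity
    linarith
  -- the real part
  have hr : w.re ≤ 6 * |z.re| * (Real.log p / √(p : ℝ)) := by
    have h1 : |w.re| = |((p : ℂ) ^ z - (p : ℂ) ^ (-z)).re| / D := by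
      have h2 : (((p : ℂ) ^ z - (p : ℂ) ^ (-z)) / ((D : ℝ) : ℂ)).re =
          ((p : ℂ) ^ z - (p : ℂ) ^ (-z)).re / D := by
        rw [Complex.div_ofReal_re]
      rcases hs with rfl | rfl
      · rw [hw, neg_one_mul, Complex.neg_re, abs_neg, h2, abs_div, abs_of_pos hD0]
      · rw [hw, one_mul, h2, abs_div, abs_of_pos hD0]
    have h3 : |((p : ℂ) ^ z - (p : ℂ) ^ (-z)).re| ≤ 4 * (|z.re| * Real.log p) := by
      rw [Complex.sub_re, w2_re p hp0, w2_re p hp0, Complex.neg_re, Complex.neg_im, neg_mul z.im,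
        Real.cos_neg, ← sub_mul, abs_mul]
      calc _ ≤ |Real.exp (z.re * Real.log p) - Real.exp (-z.re * Real.log p)| * 1 :=
            mul_le_mul_of_nonneg_left (Real.abs_cos_le_one _) (abs_nonneg _)
        _ ≤ _ := by rw [mul_one]; exact hab
    refine (le_abs_self _).trans ?_
    rw [h1]
    calc _ ≤ 4 * (|z.re| * Real.log p) / (2 / 3 * √(p : ℝ)) := by
          refine div_le_div₀ ?_ h3 (by positivity) hDl
          have := mul_nonneg (abs_nonneg z.re) hl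
          positivity
      _ = _ := by field_simp; ring
  linarith

private lemma w2_fac2 (p : ℕ) (hp : 3 ≤ p) (z : ℂ) (h : |z.re| * Real.log p ≤ Real.log 2) :
    ‖(1 - (p : ℂ) ^ (2 * z - 1)) / (1 - 1 / (p : ℂ))‖ ≤
      Real.exp (6 * |z.re| * (Real.log p / √(p : ℝ)) + 51 / 5 * (1 / (p : ℝ))) := by
  have hp0 : 0 < p := by omega
  have hpr : (3 : ℝ) ≤ p := by exact_mod_cast hp
  have hpr0 : (0 : ℝ) < p := by linarith
  have hl : 0 ≤ Real.log p := Real.log_nonneg (by linarith)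
  have hpc : (p : ℂ) ≠ 0 := by exact_mod_cast hp0.ne'
  have hpc1 : (p : ℂ) - 1 ≠ 0 := by
    intro h0
    have h1 : (p : ℂ) = ((1 : ℕ) : ℂ) := by push_cast; linear_combination h0
    have h2 : p = 1 := by exact_mod_cast h1
    omega
  have he : (1 - (p : ℂ) ^ (2 * z - 1)) / (1 - 1 / (p : ℂ)) =
      1 + (1 - (p : ℂ) ^ (2 * z)) / ((p : ℂ) - 1) := by
    rw [Complex.cpow_sub _ _ hpc, Complex.cpow_one]
    field_simp
    ring
  obtain ⟨-, h2, h2', -⟩ := w2_abs z.re (Real.log p) hl h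
  have h4 : ‖(p : ℂ) ^ (2 * z)‖ ≤ 4 := by
    rw [w2_norm p hp0]
    have : (2 * z).re * Real.log p = z.re * Real.log p + z.re * Real.log p := by
      simp; ring
    rw [this, Real.exp_add]
    nlinarith [Real.exp_pos (z.re * Real.log p)]
  have h5 : ‖(p : ℂ) - 1‖ = (p : ℝ) - 1 := by
    have : (p : ℂ) - 1 = (((p : ℝ) - 1 : ℝ) : ℂ) := by push_cast; rfl
    rw [this, Complex.norm_real, Real.norm_eq_abs, abs_of_pos (by linarith)]
  have h6 : ‖(1 - (p : ℂ) ^ (2 * z)) / ((p : ℂ) - 1)‖ ≤ 51 / 5 * (1 / (p : ℝ)) := by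
    rw [norm_div, h5]
    have h7 : ‖1 - (p : ℂ) ^ (2 * z)‖ ≤ 5 := by
      refine (norm_sub_le _ _).trans ?_
      rw [norm_one]; linarith
    rw [mul_one_div, div_le_div_iff₀ (by linarith) hpr0]
    nlinarith
  rw [he]
  have h8 : 0 ≤ 6 * |z.re| * (Real.log p / √(p : ℝ)) := by positivity
  calc ‖1 + (1 - (p : ℂ) ^ (2 * z)) / ((p : ℂ) - 1)‖ ≤ 1 + 51 / 5 * (1 / (p : ℝ)) := by
        refine (norm_add_le _ _).trans ?_
        rw [norm_one]; linarith
    _ ≤ Real.exp (51 / 5 * (1 / (p : ℝ))) := by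
        have := Real.add_one_le_exp (51 / 5 * (1 / (p : ℝ)))
        linarith
    _ ≤ _ := Real.exp_le_exp.2 (by linarith)

private lemma w2_sqrt_sum (N : ℕ) : ∑ n ∈ Finset.Icc 1 N, 1 / √(n : ℝ) ≤ 2 * √(N : ℝ) := by
  induction N with
  | zero => simp
  | succ N ih =>
    rw [Finset.sum_Icc_succ_top (by omega)]
    have h1 : √((N + 1 : ℕ) : ℝ) ^ 2 = N + 1 := by
      rw [Real.sq_sqrt (by positivity)]; push_cast; ring
    have h2 : √(N : ℝ) ^ 2 = N := Real.sq_sqrt (by positivity)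
    have h3 : 0 < √((N + 1 : ℕ) : ℝ) := Real.sqrt_pos.2 (by positivity)
    have h4 : 0 ≤ √(N : ℝ) := Real.sqrt_nonneg _
    have h5 : 1 / √((N + 1 : ℕ) : ℝ) ≤ 2 * √((N + 1 : ℕ) : ℝ) - 2 * √(N : ℝ) := by
      rw [div_le_iff₀ h3]
      nlinarith [sq_nonneg (√((N + 1 : ℕ) : ℝ) - √(N : ℝ))]
    linarith

private lemma w2_log_sum (s : Finset ℕ) (y : ℝ) (hy : 1 ≤ y)
    (hs : ∀ p ∈ s, p.Prime ∧ (p : ℝ) ≤ y) :
    ∑ p ∈ s, Real.log p / √(p : ℝ) ≤ 2 * (√y * Real.log y) := by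
  have hly : 0 ≤ Real.log y := Real.log_nonneg hy
  calc ∑ p ∈ s, Real.log p / √(p : ℝ) ≤ ∑ p ∈ s, Real.log y * (1 / √(p : ℝ)) := by
        refine Finset.sum_le_sum fun p hp => ?_
        have hp0 : (0 : ℝ) < p := by exact_mod_cast (hs p hp).1.pos
        rw [mul_one_div]
        exact div_le_div_of_nonneg_right (Real.log_le_log hp0 (hs p hp).2) (Real.sqrt_nonneg _)
    _ = Real.log y * ∑ p ∈ s, 1 / √(p : ℝ) := by rw [Finset.mul_sum]
    _ ≤ Real.log y * (2 * √y) := by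
        refine mul_le_mul_of_nonneg_left ?_ hly
        calc ∑ p ∈ s, 1 / √(p : ℝ) ≤ ∑ n ∈ Finset.Icc 1 ⌊y⌋₊, 1 / √(n : ℝ) := by
              refine Finset.sum_le_sum_of_subset_of_nonneg ?_ fun n _ _ => by positivity
              intro p hp
              rw [Finset.mem_Icc]
              exact ⟨(hs p hp).1.one_le, Nat.le_floor (hs p hp).2⟩
          _ ≤ 2 * √(⌊y⌋₊ : ℝ) := w2_sqrt_sum _
          _ ≤ 2 * √y := by
              refine mul_le_mul_of_nonneg_left ?_ (by norm_num)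
              exact Real.sqrt_le_sqrt (Nat.floor_le (by linarith))
    _ = _ := by ring

/-- the sum of `log p / √p` over the primes of a small modulus -/
private lemma w2_log_sum2 {P : ℕ} {L : ℝ} (hL : 1 ≤ L)
    (hP : ∑ p ∈ P.primeFactors, Real.log p ≤ 2 * L) :
    ∑ p ∈ P.primeFactors, Real.log p / √(p : ℝ) ≤ 2 * (√L * (Real.log L + 1)) := by
  have hL0 : 0 < L := by linarith
  rw [← Finset.sum_filter_add_sum_filter_not P.primeFactors (fun p : ℕ => (p : ℝ) ≤ L)]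
  have h1 := w2_log_sum (P.primeFactors.filter (fun p : ℕ => (p : ℝ) ≤ L)) L hL fun p hp => by
    rw [Finset.mem_filter] at hp
    exact ⟨Nat.prime_of_mem_primeFactors hp.1, hp.2⟩
  have h2 : ∑ p ∈ P.primeFactors.filter (fun p : ℕ => ¬ (p : ℝ) ≤ L), Real.log p / √(p : ℝ) ≤
      2 * √L := by
    have hs : 0 < √L := Real.sqrt_pos.2 hL0
    have h3 : ∀ p ∈ P.primeFactors.filter (fun p : ℕ => ¬ (p : ℝ) ≤ L),
        Real.log p / √(p : ℝ) ≤ Real.log p * (1 / √L) := by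
      intro p hp
      rw [Finset.mem_filter] at hp
      rw [mul_one_div]
      exact div_le_div_of_nonneg_left (Real.log_natCast_nonneg p) hs
        (Real.sqrt_le_sqrt (not_le.1 hp.2).le)
    refine (Finset.sum_le_sum h3).trans ?_
    rw [← Finset.sum_mul]
    have h4 : ∑ p ∈ P.primeFactors.filter (fun p : ℕ => ¬ (p : ℝ) ≤ L), Real.log p ≤ 2 * L :=
      le_trans (Finset.sum_le_sum_of_subset_of_nonneg (Finset.filter_subset _ _)
        fun p _ _ => Real.log_natCast_nonneg p) hP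
    have h5 : √L * √L = L := Real.mul_self_sqrt hL0.le
    calc _ ≤ 2 * L * (1 / √L) := mul_le_mul_of_nonneg_right h4 (by positivity)
      _ = 2 * √L := by
          rw [mul_one_div, div_eq_iff hs.ne', mul_assoc, h5]
  linarith

theorem WP_mid : ∃ C : ℝ, 0 < C ∧ ∀ (L : ℝ) (P Q R : ℕ), 1 ≤ L → PatL L P Q R → ∀ z : ℂ,
    |z.re| ≤ 4 / L →
    ‖WP P Q R z‖ ≤ C * L ^ (1 / 16 : ℝ) * Real.exp (12 * |z.re| * (√L * (Real.log L + 1))) := by
  obtain ⟨C, hC, hinv⟩ := sum_inv_prime_le2 (1 / 200) (by norm_num)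
  refine ⟨Real.exp (51 / 5 * C), Real.exp_pos _, ?_⟩
  intro L P Q R hL hP z hz
  have hP0 : P ≠ 0 := hP.sf.ne_zero
  have hR0 : R ≠ 0 := fun h => hP0 (by have := hP.hR; rw [h] at this; exact zero_dvd_iff.1 this)
  have hlL : 0 ≤ Real.log L := Real.log_nonneg hL
  have hL0 : 0 < L := by linarith
  have hzp : ∀ p ∈ P.primeFactors, |z.re| * Real.log p ≤ Real.log 2 := by
    intro p hp
    have h6 : |z.re| * Real.log p ≤ 4 / L * (L / 60) :=
      mul_le_mul hz (hP.sm.1 p hp) (Real.log_natCast_nonneg p) (by positivity)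
    have h7 : 4 / L * (L / 60) = 1 / 15 := by field_simp; norm_num
    have h8 := Real.log_two_gt_d9
    linarith
  have hpr : ∀ p ∈ P.primeFactors, 3 ≤ p := fun p hp => (one_le_log_pf hP.odd hp).1
  set f : ℕ → ℝ := fun p => 6 * |z.re| * (Real.log p / √(p : ℝ)) + 51 / 5 * (1 / (p : ℝ)) with hf
  have hRf : R.primeFactors = P.primeFactors.filter (fun p => ¬ ¬ p ∣ R) := by
    ext p
    rw [Finset.mem_filter, Nat.mem_primeFactors, Nat.mem_primeFactors]
    constructor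
    · rintro ⟨h1, h2, -⟩
      exact ⟨⟨h1, h2.trans hP.hR, hP0⟩, not_not.2 h2⟩
    · rintro ⟨⟨h1, -, -⟩, h2⟩
      exact ⟨h1, not_not.1 h2, hR0⟩
  have hW : ‖WP P Q R z‖ ≤ Real.exp (∑ p ∈ P.primeFactors, f p) := by
    unfold WP
    rw [norm_mul, norm_prod, norm_prod,
      ← Finset.sum_filter_add_sum_filter_not P.primeFactors (fun p => ¬ p ∣ R) f, Real.exp_add,
      Real.exp_sum, Real.exp_sum]
    refine mul_le_mul ?_ ?_ (Finset.prod_nonneg fun _ _ => norm_nonneg _)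
      (Finset.prod_nonneg fun _ _ => (Real.exp_pos _).le)
    · refine Finset.prod_le_prod (fun _ _ => norm_nonneg _) fun p hp => ?_
      have hp' := (Finset.mem_filter.1 hp).1
      refine w2_fac1 p (hpr p hp') z (hzp p hp') _ ?_
      split_ifs
      · exact Or.inl rfl
      · exact Or.inr rfl
    · rw [hRf]
      refine Finset.prod_le_prod (fun _ _ => norm_nonneg _) fun p hp => ?_
      have hp' := (Finset.mem_filter.1 hp).1
      exact w2_fac2 p (hpr p hp') z (hzp p hp')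
  refine hW.trans ?_
  have hs1 := w2_log_sum2 hL hP.sm.2
  have hs2 := hinv P L hP.odd hL hP.sm.2
  have hsum : ∑ p ∈ P.primeFactors, f p ≤
      51 / 5 * C + 1 / 16 * Real.log L + 12 * |z.re| * (√L * (Real.log L + 1)) := by
    rw [hf, Finset.sum_add_distrib, ← Finset.mul_sum, ← Finset.mul_sum]
    have h1 : 6 * |z.re| * ∑ p ∈ P.primeFactors, Real.log p / √(p : ℝ) ≤
        6 * |z.re| * (2 * (√L * (Real.log L + 1))) :=
      mul_le_mul_of_nonneg_left hs1 (by positivity)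
    have h2 : (51 / 5 : ℝ) * ∑ p ∈ P.primeFactors, 1 / (p : ℝ) ≤
        51 / 5 * (1 / 200 * Real.log L + C) :=
      mul_le_mul_of_nonneg_left hs2 (by norm_num)
    linarith
  refine (Real.exp_le_exp.2 hsum).trans (le_of_eq ?_)
  rw [Real.exp_add, Real.exp_add, Real.rpow_def_of_pos (by linarith), mul_comm (Real.log L)]

end Pool.Agent.MP0016c7.Rz
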