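import Mathlib
import Pool.Agent.Lib.MP_0016c7_nt.PS.DefsM
import Pool.Agent.Lib.MP_0016c7_nt.PS.W1
import Pool.Agent.Lib.MP_0016c7_nt.PS.W2
import Pool.Agent.Lib.MP_0016c7_nt.PS.BCW

set_option autoImplicit false

/-!
The correction factors of the patterns satisfy the hypotheses of the main term.
-/

open Finset MeasureTheory Filter Topology
open scoped Real ContDiff

namespace Pool.Agent.MP0016c7.Rz

private theorem wbdp_ct (P Q R : ℕ) : Continuous (WP P Q R) := by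
  unfold WP
  refine Continuous.mul (continuous_finsetProd _ ?_) (continuous_finsetProd _ ?_)
  · intro p hp
    have hp0 : (p : ℂ) ≠ 0 := by
      have := (Nat.prime_of_mem_primeFactors (Finset.mem_filter.mp hp).1).ne_zero
      exact_mod_cast this
    have h1 : Continuous fun z : ℂ => (p : ℂ) ^ z := continuous_id.const_cpow (Or.inl hp0)
    have h2 : Continuous fun z : ℂ => (p : ℂ) ^ (-z) := continuous_neg.const_cpow (Or.inl hp0)
    exact continuous_const.add (continuous_const.mul ((h1.sub h2).div_const _))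
  · intro p hp
    have hp0 : (p : ℂ) ≠ 0 := by
      have := (Nat.prime_of_mem_primeFactors hp).ne_zero
      exact_mod_cast this
    have h1 : Continuous fun z : ℂ => (p : ℂ) ^ (2 * z - 1) :=
      ((continuous_const.mul continuous_id).sub continuous_const).const_cpow (Or.inl hp0)
    exact (continuous_const.sub h1).div_const _

/-- `√L log L ≤ 8 L^(5/8)`. -/
private theorem wbdp_log {L : ℝ} (hL : 1 ≤ L) : √L * Real.log L ≤ 8 * L ^ (5 / 8 : ℝ) := by
  have h0 : 0 < L := by linarith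
  have h1 : Real.log L ≤ L ^ (1 / 8 : ℝ) / (1 / 8) :=
    Real.log_le_rpow_div h0.le (by norm_num)
  have h2 : √L = L ^ (1 / 2 : ℝ) := Real.sqrt_eq_rpow L
  have h3 : L ^ (1 / 2 : ℝ) * L ^ (1 / 8 : ℝ) = L ^ (5 / 8 : ℝ) := by
    rw [← Real.rpow_add h0]; norm_num
  rw [h2]
  calc L ^ (1 / 2 : ℝ) * Real.log L ≤ L ^ (1 / 2 : ℝ) * (L ^ (1 / 8 : ℝ) / (1 / 8)) :=
        mul_le_mul_of_nonneg_left h1 (Real.rpow_nonneg h0.le _)
    _ = 8 * (L ^ (1 / 2 : ℝ) * L ^ (1 / 8 : ℝ)) := by ring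
    _ = 8 * L ^ (5 / 8 : ℝ) := by rw [h3]

/-- `√L (log L + 1) ≤ 9 L^(5/8)`. -/
private theorem wbdp_y {L : ℝ} (hL : 1 ≤ L) :
    0 ≤ √L * (Real.log L + 1) ∧ √L * (Real.log L + 1) ≤ 9 * L ^ (5 / 8 : ℝ) := by
  have h1 : 0 ≤ Real.log L := Real.log_nonneg hL
  refine ⟨mul_nonneg (Real.sqrt_nonneg _) (by linarith), ?_⟩
  have h2 := wbdp_log hL
  have h3 : √L ≤ L ^ (5 / 8 : ℝ) := by
    rw [Real.sqrt_eq_rpow]
    exact Real.rpow_le_rpow_of_exponent_le hL (by norm_num)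
  linarith

private theorem wbdp_small {f : ℕ → ℝ} (hf : Tendsto f atTop atTop) (a : ℝ) (ha : 0 < a)
    (c : ℝ) (hc : 0 < c) : ∀ᶠ n in atTop, (f n) ^ (-a) ≤ c := by
  have h := (tendsto_rpow_neg_atTop ha).comp hf
  exact (h.eventually (eventually_le_nhds hc))

theorem WBd_WPL {X : ℕ → ℝ} {P Q R : ℕ → ℕ} (one : ∀ n, 1 < X n) (lim : Tendsto X atTop atTop)
    (hP : ∀ᶠ n in atTop, PatL (Real.log (X n)) (P n) (Q n) (R n)) :
    WBd X (fun n => WP (P n) (Q n) (R n)) := by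
  have hL : Tendsto (fun n => Real.log (X n)) atTop atTop := Real.tendsto_log_atTop.comp lim
  have eL : ∀ᶠ n in atTop, 1 ≤ Real.log (X n) := hL.eventually_ge_atTop 1
  refine ⟨fun n => wbdp_ct _ _ _, ⟨252, by norm_num, ?_⟩, ?_, ?_,
    fun β B hβ n => BC_WP hβ _ _ _⟩
  · have e1 := wbdp_small hL (1 / 8) (by norm_num) (1 / 126) (by norm_num)
    filter_upwards [hP, eL, e1] with n hp h2 h4 z hz hzL
    have h0 : 0 < Real.log (X n) := by linarith
    obtain ⟨hy0, hy1⟩ := wbdp_y h2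
    have h5 := WP_sub_one h2 hp z hz
    have hz0 := norm_nonneg z
    have ht0 : 0 ≤ 14 * ‖z‖ * (√(Real.log (X n)) * (Real.log (Real.log (X n)) + 1)) := by
      positivity
    have ht1 : 14 * ‖z‖ * (√(Real.log (X n)) * (Real.log (Real.log (X n)) + 1)) ≤
        126 * ‖z‖ * (Real.log (X n)) ^ (5 / 8 : ℝ) := by
      have := mul_le_mul_of_nonneg_left hy1 (by positivity : (0 : ℝ) ≤ 14 * ‖z‖)
      linarith
    have h6 : ‖z‖ ≤ (Real.log (X n)) ^ (-(3 / 4) : ℝ) := by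
      have h7 : (Real.log (X n)) ^ (1 / 4 : ℝ) = (Real.log (X n)) ^ (-(3 / 4) : ℝ) *
          Real.log (X n) := by
        nth_rewrite 3 [← Real.rpow_one (Real.log (X n))]
        rw [← Real.rpow_add h0]; norm_num
      rw [h7] at hzL
      exact le_of_mul_le_mul_right hzL h0
    have h8 : (Real.log (X n)) ^ (-(3 / 4) : ℝ) * (Real.log (X n)) ^ (5 / 8 : ℝ) =
        (Real.log (X n)) ^ (-(1 / 8) : ℝ) := by
      rw [← Real.rpow_add h0]; norm_num
    have h9 : 126 * ‖z‖ * (Real.log (X n)) ^ (5 / 8 : ℝ) ≤ 1 := by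
      have h10 := mul_le_mul_of_nonneg_right h6 (Real.rpow_nonneg h0.le (5 / 8 : ℝ))
      rw [h8] at h10
      linarith
    have h11 := Real.abs_exp_sub_one_le
      (x := 14 * ‖z‖ * (√(Real.log (X n)) * (Real.log (Real.log (X n)) + 1)))
      (by rw [abs_of_nonneg ht0]; exact ht1.trans h9)
    rw [abs_of_nonneg ht0] at h11
    have h12 := le_abs_self
      (Real.exp (14 * ‖z‖ * (√(Real.log (X n)) * (Real.log (Real.log (X n)) + 1))) - 1)
    linarith
  · obtain ⟨C, hC0, hC⟩ := WP_mid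
    refine ⟨C * Real.exp 1, by positivity, ?_⟩
    have e1 := wbdp_small hL (3 / 8) (by norm_num) (1 / 432) (by norm_num)
    filter_upwards [hP, eL, e1] with n hp h2 h4 z hz
    have h0 : 0 < Real.log (X n) := by linarith
    obtain ⟨hy0, hy1⟩ := wbdp_y h2
    have h5 := hC (Real.log (X n)) (P n) (Q n) (R n) h2 hp z hz
    have h6 : 12 * |z.re| * (√(Real.log (X n)) * (Real.log (Real.log (X n)) + 1)) ≤ 1 := by
      have h7 : (Real.log (X n)) ^ (5 / 8 : ℝ) / Real.log (X n) =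
          (Real.log (X n)) ^ (-(3 / 8) : ℝ) := by
        rw [div_eq_mul_inv, ← Real.rpow_neg_one, ← Real.rpow_add h0]; norm_num
      calc 12 * |z.re| * (√(Real.log (X n)) * (Real.log (Real.log (X n)) + 1))
          ≤ 12 * (4 / Real.log (X n)) * (9 * (Real.log (X n)) ^ (5 / 8 : ℝ)) :=
            mul_le_mul (by linarith) hy1 hy0 (by positivity)
        _ = 432 * ((Real.log (X n)) ^ (5 / 8 : ℝ) / Real.log (X n)) := by ring
        _ = 432 * (Real.log (X n)) ^ (-(3 / 8) : ℝ) := by rw [h7]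
        _ ≤ 1 := by linarith
    have h9 : Real.exp (12 * |z.re| * (√(Real.log (X n)) * (Real.log (Real.log (X n)) + 1))) ≤
        Real.exp 1 := Real.exp_le_exp.mpr h6
    have hyn : 0 ≤ (Real.log (X n)) ^ (1 / 16 : ℝ) := Real.rpow_nonneg (by linarith) _
    calc ‖WP (P n) (Q n) (R n) z‖
        ≤ C * (Real.log (X n)) ^ (1 / 16 : ℝ) *
          Real.exp (12 * |z.re| * (√(Real.log (X n)) * (Real.log (Real.log (X n)) + 1))) := h5
      _ ≤ C * (Real.log (X n)) ^ (1 / 16 : ℝ) * Real.exp 1 := by gcongr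
      _ = C * Real.exp 1 * (Real.log (X n)) ^ (1 / 16 : ℝ) := by ring
  · intro η hη
    have e1 := wbdp_small hL (3 / 8) (by norm_num) (η / 11) (by positivity)
    filter_upwards [hP, eL, e1] with n hp h2 h3 z hz
    have h0 : 0 < Real.log (X n) := by linarith
    have h4 := WP_strip h2 hp z hz
    have h6 : (Real.log (X n)) ^ (5 / 8 : ℝ) =
        (Real.log (X n)) ^ (-(3 / 8) : ℝ) * Real.log (X n) := by
      nth_rewrite 3 [← Real.rpow_one (Real.log (X n))]
      rw [← Real.rpow_add h0]; norm_num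
    have h7 : 11 * (Real.log (X n)) ^ (5 / 8 : ℝ) ≤ Real.log (X n) * η := by
      have := mul_le_mul_of_nonneg_right h3 h0.le
      rw [← h6] at this
      linarith
    have hX : 0 < X n := by linarith [one n]
    rw [Real.rpow_def_of_pos hX]
    exact h4.trans (Real.exp_le_exp.mpr h7)

/-- the patterns of `PSq` are small -/
theorem PatL_of_PSq {c₀ : ℝ} {X y : ℕ → ℝ} {P Q R : ℕ → ℕ} (hP : PSq c₀ X y P Q R) :
    ∀ᶠ n in atTop, PatL (Real.log (X n)) (P n) (Q n) (R n) := by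
  refine Eventually.of_forall fun n => ?_
  have h0 : 0 < Real.log (X n) := Real.log_pos (hP.one n)
  have hp := hP.pat n
  have hP0 : 0 < P n := Nat.pos_of_ne_zero hp.sf.ne_zero
  have hP1 : (0 : ℝ) < P n := by exact_mod_cast hP0
  have hlP : Real.log (P n) ≤ Real.log (X n) / 60 := by
    have h1 : Real.log (P n) ≤ y n := by
      rw [Real.log_le_iff_le_exp hP1]
      exact hp.le
    have h2 := hP.le n
    nlinarith [hP.c1]
  refine ⟨hp.sf, hp.odd, ⟨fun p hpp => ?_, ?_⟩, hp.hQ, hp.hR, hp.co⟩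
  · have hp0 : (0 : ℝ) < p := by exact_mod_cast (Nat.prime_of_mem_primeFactors hpp).pos
    have h4 : (p : ℝ) ≤ P n := by
      exact_mod_cast Nat.le_of_dvd hP0 (Nat.dvd_of_mem_primeFactors hpp)
    exact (Real.log_le_log hp0 h4).trans hlP
  · refine (sum_log_pf_le hP0).trans ?_
    linarith

theorem WBd_WP {c₀ : ℝ} {X y : ℕ → ℝ} {P Q R : ℕ → ℕ} (hP : PSq c₀ X y P Q R) :
    WBd X (fun n => WP (P n) (Q n) (R n)) :=
  WBd_WPL hP.one hP.lim (PatL_of_PSq hP)

theorem odd_of_PSq {c₀ : ℝ} {X y : ℕ → ℝ} {P Q R : ℕ → ℕ} (hP : PSq c₀ X y P Q R) (n : ℕ) :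
    Odd (P n) := (hP.pat n).odd

/-- the hypotheses of the main term for an abstract correction factor -/
theorem MSq_of_PSq {c₀ : ℝ} {X y : ℕ → ℝ} {P Q R : ℕ → ℕ} (hP : PSq c₀ X y P Q R)
    {W : ℕ → ℂ → ℂ} (hW : WBd X W) : MSq X P W :=
  ⟨hP.lim, odd_of_PSq hP, (PatL_of_PSq hP).mono fun _ h => h.sm, hW⟩

theorem MSq_WP {c₀ : ℝ} {X y : ℕ → ℝ} {P Q R : ℕ → ℕ} (hP : PSq c₀ X y P Q R) :
    MSq X P (fun n => WP (P n) (Q n) (R n)) :=
  MSq_of_PSq hP (WBd_WP hP)

end Pool.Agent.MP0016c7.Rz
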