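import Mathlib
import Pool.Agent.Lib.MP_0016c7_nt.PS.Stm
import Pool.Agent.Lib.MP_0016c7_nt.PS.WBdP
import Pool.Agent.Lib.MP_0016c7_nt.PS.BUk
import Pool.Agent.Lib.MP_0016c7_nt.PS.QCCh

set_option autoImplicit false

/-!
Section M: the interface theorems.
-/

open Finset MeasureTheory Filter Topology
open scoped Real ContDiff

namespace Pool.Agent.MP0016c7.Rz

theorem p_wbd : D_wbd := fun _ _ _ _ _ _ hs => WBd_WP hs

theorem p_bc : D_bc := by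
  intro F a b ha hF hF0 m c ε σ κ u hf
  refine BC_bU ha hF hF0 σ ε ?_ κ
  rcases hf with h | h | h | h | h
  · exact Or.inl h.2.2.1
  · exact Or.inr (Or.inl h.2.2.1)
  · exact Or.inr (Or.inr h.2.2.1)
  · exact Or.inl h.2.2.1
  · exact Or.inl h.2.2.1

theorem p_ccp : D_ccp := by
  intro c₀ X y P Q R hs W hW β B hβ I₀ δ θ hδ hδ4 hθ hθ1 c hc ρ₁ ρ₂ h hρ₁ hρ₂ hh ε hε
  exact quad_CCp hβ I₀ hδ hδ4 hθ hθ1 c hc hρ₁ hρ₂ hh (MSq_of_PSq hs hW) ε hε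

end Pool.Agent.MP0016c7.Rz
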