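import Mathlib
import Pool.Agent.Lib.MP_0016c7_nt.PS.Stm
import Pool.Agent.Lib.MP_0016c7_nt.Rz2.CharG
import Pool.Agent.Lib.MP_0016c7_nt.Rz.Rt0
import Pool.Agent.Lib.MP_0016c7_nt.Rz.WPos

set_option autoImplicit false

/-!
Prescribed splitting, piece [PS char]: the characters of the families.
-/

open Finset MeasureTheory Filter Topology
open scoped Real ContDiff

namespace Pool.Agent.MP0016c7.Rz

private lemma char_jr4 (a : ℤ) (n : ℕ) (hn : Odd n) : jr (4 * a) n = jr a n := by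
  unfold jr
  rw [if_pos hn, if_pos hn]
  have h1 : jacobiSym (4 * a) n = jacobiSym a n := by
    rw [jacobiSym.mul_left]
    have h2 : jacobiSym 4 n = 1 := by
      have h3 : ((2 : ℤ) ^ 2) = 4 := by norm_num
      rw [← h3]
      apply jacobiSym.sq_one'
      have h4 : Nat.gcd 2 n = 1 := Nat.coprime_two_left.2 hn
      rw [show (2 : ℤ) = ((2 : ℕ) : ℤ) by norm_num, Int.gcd_natCast_natCast]
      exact h4
    rw [h2, one_mul]
  rw [h1]

private lemma char_sy1 (σ : ℤ) (d n : ℕ) : sy σ 1 d n = jr (2 * σ * d) n := by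
  unfold sy
  rw [one_mul]

private lemma char_sy2 (σ : ℤ) (d n : ℕ) (hn : Odd n) : sy σ 2 d n = jr (σ * d) n := by
  unfold sy
  rw [← char_jr4 (σ * d) n hn]
  congr 1
  push_cast
  ring

private lemma char_ne_one {q : ℕ} [NeZero q] (hq : q ≠ 1) (χ : DirichletCharacter ℂ q)
    (hp : χ.IsPrimitive) : χ ≠ 1 := by
  rintro rfl
  have h1 : (1 : DirichletCharacter ℂ q).conductor = q := hp
  rw [DirichletCharacter.conductor_one] at h1
  exact hq h1.symm

theorem p_char : D_char := by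
  intro m c ε κ u hf σ hσ d hs hR _ χ hp h2 hpar
  have hd0 : 0 < d := by
    rcases Nat.eq_zero_or_pos d with h | h
    · rw [h] at hs
      exact absurd hs not_squarefree_zero
    · exact h
  -- the level is not one
  have hq : κ * d ≠ 1 := by
    intro h
    have hκ1 : κ = 1 := Nat.eq_one_of_mul_eq_one_right h
    have hd1 : d = 1 := Nat.eq_one_of_mul_eq_one_left h
    obtain ⟨hR1, hR2⟩ := hR
    rw [hd1] at hR1 hR2
    rcases hf with ⟨rfl, rfl, rfl, rfl, rfl⟩ | ⟨rfl, rfl, rfl, rfl, rfl⟩ |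
      ⟨rfl, rfl, rfl, rfl, rfl⟩ | ⟨rfl, rfl, rfl, rfl, rfl⟩ | ⟨rfl, rfl, rfl, rfl, rfl⟩
    · omega
    · rcases hσ with rfl | rfl
      · exact hR2 ⟨2, by norm_num⟩
      · norm_num at hR1
    · rcases hσ with rfl | rfl
      · norm_num at hR1
      · norm_num at hR1
    · omega
    · omega
  have hne : χ ≠ 1 := char_ne_one hq χ hp
  have hpar' : par χ = (if σ = 1 then 0 else 1) := by
    rcases hpar with ⟨h1, he⟩ | ⟨h1, ho⟩
    · rw [par_even χ he, if_pos h1]
    · rw [par_odd χ ho, if_neg (by rw [h1]; norm_num)]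
  have hsym : ∀ t : ℝ, gth χ (-t) = gth χ t := fun t => gth_symm_all χ hp hne h2 t
  refine ⟨hq, ?_, ?_, hsym, hpar'⟩
  · intro n hn
    obtain ⟨hR1, -⟩ := hR
    rcases hf with ⟨rfl, rfl, rfl, rfl, rfl⟩ | ⟨rfl, rfl, rfl, rfl, rfl⟩ |
      ⟨rfl, rfl, rfl, rfl, rfl⟩ | ⟨rfl, rfl, rfl, rfl, rfl⟩ | ⟨rfl, rfl, rfl, rfl, rfl⟩
    · have hd : Odd d := by
        rw [Nat.odd_iff]
        rcases hσ with rfl | rfl <;> omega
      rw [char_sy1, char_eq_jr d hd hs σ χ hp h2 hpar n]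
    · have hd : Odd d := by
        rw [Nat.odd_iff]
        rcases hσ with rfl | rfl <;> omega
      rw [char_sy2 σ d n hn]
      exact (char_eqG (m := 8) (c := 1) (ε := 1) (κ := 1) (Or.inr (Or.inl ⟨rfl, rfl, rfl, rfl⟩)) σ hσ
        d hd hs hR1 χ hp h2).1 n hn
    · have hd : Odd d := by
        rw [Nat.odd_iff]
        rcases hσ with rfl | rfl <;> omega
      rw [char_sy2 σ d n hn]
      exact (char_eqG (m := 8) (c := 5) (ε := -1) (κ := 1) (Or.inr (Or.inr ⟨rfl, rfl, rfl, rfl⟩)) σ hσ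
        d hd hs hR1 χ hp h2).1 n hn
    · have hd : Odd d := by
        rw [Nat.odd_iff]
        rcases hσ with rfl | rfl <;> omega
      rw [char_sy2 σ d n hn]
      exact (char_eqG (m := 4) (c := 3) (ε := 0) (κ := 4) (Or.inl ⟨rfl, rfl, rfl, rfl⟩) σ hσ
        d hd hs (by rcases hσ with rfl | rfl <;> omega) χ hp h2).1 n hn
    · have hd : Odd d := by
        rw [Nat.odd_iff]
        rcases hσ with rfl | rfl <;> omega
      rw [char_sy2 σ d n hn]
      exact (char_eqG (m := 4) (c := 3) (ε := 0) (κ := 4) (Or.inl ⟨rfl, rfl, rfl, rfl⟩) σ hσ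
        d hd hs (by rcases hσ with rfl | rfl <;> omega) χ hp h2).1 n hn
  · obtain ⟨hR1, -⟩ := hR
    rcases hf with ⟨rfl, rfl, rfl, rfl, rfl⟩ | ⟨rfl, rfl, rfl, rfl, rfl⟩ |
      ⟨rfl, rfl, rfl, rfl, rfl⟩ | ⟨rfl, rfl, rfl, rfl, rfl⟩ | ⟨rfl, rfl, rfl, rfl, rfl⟩
    · have hd : Odd d := by
        rw [Nat.odd_iff]
        rcases hσ with rfl | rfl <;> omega
      have h3 := char_eq_jr d hd hs σ χ hp h2 hpar 2
      have h4 : jr (2 * σ * d) 2 = 0 := by
        unfold jr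
        rw [if_neg (by decide)]
      rw [h4] at h3
      simpa using h3
    · have hd : Odd d := by
        rw [Nat.odd_iff]
        rcases hσ with rfl | rfl <;> omega
      exact (char_eqG (m := 8) (c := 1) (ε := 1) (κ := 1) (Or.inr (Or.inl ⟨rfl, rfl, rfl, rfl⟩)) σ hσ
        d hd hs hR1 χ hp h2).2.1
    · have hd : Odd d := by
        rw [Nat.odd_iff]
        rcases hσ with rfl | rfl <;> omega
      exact (char_eqG (m := 8) (c := 5) (ε := -1) (κ := 1) (Or.inr (Or.inr ⟨rfl, rfl, rfl, rfl⟩)) σ hσ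
        d hd hs hR1 χ hp h2).2.1
    · have hd : Odd d := by
        rw [Nat.odd_iff]
        rcases hσ with rfl | rfl <;> omega
      exact (char_eqG (m := 4) (c := 3) (ε := 0) (κ := 4) (Or.inl ⟨rfl, rfl, rfl, rfl⟩) σ hσ
        d hd hs (by rcases hσ with rfl | rfl <;> omega) χ hp h2).2.1
    · have hd : Odd d := by
        rw [Nat.odd_iff]
        rcases hσ with rfl | rfl <;> omega
      exact (char_eqG (m := 4) (c := 3) (ε := 0) (κ := 4) (Or.inl ⟨rfl, rfl, rfl, rfl⟩) σ hσ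
        d hd hs (by rcases hσ with rfl | rfl <;> omega) χ hp h2).2.1

end Pool.Agent.MP0016c7.Rz
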