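import Mathlib
import Pool.Agent.Lib.MP_0016c7_nt.PS.Stm
import Pool.Agent.Lib.MP_0016c7_nt.Rz.DefsU
import Pool.Agent.Lib.MP_0016c7_nt.Rz.U5

set_option autoImplicit false

/-!
Prescribed splitting: the statements of the final pieces (families, counting, characters).
-/

open Finset MeasureTheory Filter Topology
open scoped Real ContDiff

namespace Pool.Agent.MP0016c7.Rz

/-- [PS fam] (helper98) -/
def D_fam : Prop :=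
  ∀ θ₀ δ : ℝ, 0 < θ₀ → 0 < δ → δ ≤ 1 / 100 → θ₀ + 7 * δ < 1 / 2 → ∃ c₁ : ℝ, 0 < c₁ ∧
    ∀ (c₀ : ℝ) (X y : ℕ → ℝ) (P Q R : ℕ → ℕ), PSq c₀ X y P Q R → c₀ ≤ c₁ →
    ∀ σ : ℤ, (σ = 1 ∨ σ = -1) → ∀ (m c ε : ℤ) (κ u : ℕ), FamP m c ε κ u →
    FamS (fun n => RP m c σ u (P n) (Q n) (R n)) (fun _ d => NZP κ σ d)
      (fun n => DP m (P n) (R n)) X θ₀ δ

/-- [PS fbs] (section G, helper52) -/
def D_fbs : Prop :=
  ∀ (Rc NZ : ℕ → ℕ → Prop) (D X : ℕ → ℝ) (θ₀ δ μ E : ℝ) (w u₁ u₂ y : ℝ → ℝ) (g₁ g₂ : ℝ),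
    Cert2 θ₀ δ μ E w u₁ u₂ y g₁ g₂ → FamS Rc NZ D X θ₀ δ → ∀ E' : ℝ, E < E' → ∀ᶠ n in atTop,
      D n / 2 * X n ≤
        (Nat.card {d : ℕ | X n < d ∧ (d : ℝ) ≤ 2 * X n ∧ Rc n d ∧ Squarefree d} : ℝ) ∧
      (Nat.card {d : ℕ | X n < d ∧ (d : ℝ) ≤ 2 * X n ∧ Rc n d ∧ Squarefree d ∧ ¬ NZ n d} : ℝ) ≤
      E' * (Nat.card {d : ℕ | X n < d ∧ (d : ℝ) ≤ 2 * X n ∧ Rc n d ∧ Squarefree d} : ℝ)

/-- [PS dya] (helper98) -/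
def D_dya : Prop :=
  ∃ c₁ : ℝ, 0 < c₁ ∧ c₁ ≤ 1 / 100 ∧ ∃ X₀ y₀ : ℝ, ∀ X : ℝ, X₀ ≤ X → ∀ y : ℝ, y₀ ≤ y →
    y ≤ c₁ * Real.log X → ∀ P Q R : ℕ, Pat y P Q R →
    ∀ σ : ℤ, (σ = 1 ∨ σ = -1) → ∀ (m c ε : ℤ) (κ u : ℕ), FamP m c ε κ u →
      DP m P R / 2 * X ≤
        (Nat.card {d : ℕ | X < d ∧ (d : ℝ) ≤ 2 * X ∧ RP m c σ u P Q R d ∧ Squarefree d} : ℝ) ∧
      (Nat.card {d : ℕ | X < d ∧ (d : ℝ) ≤ 2 * X ∧ RP m c σ u P Q R d ∧ Squarefree d ∧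
        ¬ NZP κ σ d} : ℝ) ≤
      12599 / 100000 *
        (Nat.card {d : ℕ | X < d ∧ (d : ℝ) ≤ 2 * X ∧ RP m c σ u P Q R d ∧ Squarefree d} : ℝ)

/-- [PS cum] `theorem p_cum (hd : D_dya) (hs : D_size) : D_cum`. Take `c = c₁ / 2`, `y = c log Z`.
The dyadic blocks `X_j = Z / (κ 2^(j+1))`, `j = 0, 1, ...` with `X_j ≥ √Z`: there `c log Z ≤
c₁ log X_j`, so `D_dya` applies; they are disjoint, and the `d` with `κ d ≤ Z` in no block are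
`≤ 2 √Z`. Hence `bad ≤ 12599/100000 * all + 2 √Z`, `all ≥ (block j = 0) ≥ DP/2 * Z/(2κ) ≥
Z^(1-4c₁)/(8·32) ≥ Z^(9/10)` (`D_size` with `c₀ = c₁ ≤ 1/100`, scale `X_0` or `Z`), and
`2 √Z ≤ Z^(9/10)/100000` for large `Z`. About 200 lines. -/
def D_cum : Prop :=
  ∃ c : ℝ, 0 < c ∧ ∃ Z₀ : ℕ, ∀ Z : ℕ, Z₀ ≤ Z → ∀ P Q R : ℕ, Pat (c * Real.log Z) P Q R →
    ∀ σ : ℤ, (σ = 1 ∨ σ = -1) → ∀ (m c' ε : ℤ) (κ u : ℕ), FamP m c' ε κ u →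
      (Z : ℝ) ^ (9 / 10 : ℝ) ≤
        (Nat.card {d : ℕ | κ * d ≤ Z ∧ RP m c' σ u P Q R d ∧ Squarefree d} : ℝ) ∧
      (Nat.card {d : ℕ | κ * d ≤ Z ∧ RP m c' σ u P Q R d ∧ Squarefree d ∧ ¬ NZP κ σ d} : ℝ) ≤
      126 / 1000 * (Nat.card {d : ℕ | κ * d ≤ Z ∧ RP m c' σ u P Q R d ∧ Squarefree d} : ℝ)

/-- The characters of the conductor `κ d`, `σ d ≡ c` modulo `m`, of parity `σ` and with the
splitting pattern. -/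
def TPx (m c σ : ℤ) (κ P Q R : ℕ) (x : (q : ℕ) × DirichletCharacter ℂ q) : Prop :=
  (∃ d : ℕ, x.1 = κ * d ∧ Odd d ∧ (σ * d) % m = c) ∧ x.2 (-1) = (σ : ℂ) ∧
    ∀ p ∈ P.primeFactors, x.2 p = if p ∣ R then 0 else if p ∣ Q then -1 else 1

/-- [PS cls] `theorem p_cls (hc : D_char) : D_cls`. As `class_count`, `classA_tot`, `classB_tot`,
`classC_tot` in Rz/U7. First part: injection `x ↦ x.1 / κ` (`prim_quad_unique`, Rz/U2): for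
`x ∈ PQ Z` with `TPx`, `x.1 = κ d`, `d` is odd, `prim_quad_level` (Rz/U1) gives that `d` is
squarefree and `d > 1` if `κ = 1`; `RU` holds (`2 σ u d` is not a square: `u = 1`: exactly divisible
by `2`; `u = 2`: `4 σ d` square implies `σ = 1`, `d = 1` (squarefree), `c = 1`, `κ = 1`);
the values at `p ∣ P` are those of `sy` by `D_char` (value `0` means `p ∣ d`, and `p² ∤ d` as `d` is
squarefree); `NZP κ σ d` implies `NZx x`. Second part: `exists_prim_A/B/C` (Rz/U3) for `κ = 8, 4, 1`,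
parity for `κ = 4, 1` from `char_eqG` (Rz2/CharG; `Fam 4 3 0 4`, `Fam 8 1 1 1`, `Fam 8 5 (-1) 1`), values by
`D_char`. About 250 lines. -/
def D_cls : Prop :=
  ∀ (Z : ℕ) (y : ℝ) (P Q R : ℕ), Pat y P Q R → ∀ σ : ℤ, (σ = 1 ∨ σ = -1) →
    ∀ (m c ε : ℤ) (κ u : ℕ), FamP m c ε κ u →
    Nat.card {x | x ∈ PQ Z ∧ TPx m c σ κ P Q R x ∧ ¬ NZx x} ≤
      Nat.card {d : ℕ | κ * d ≤ Z ∧ RP m c σ u P Q R d ∧ Squarefree d ∧ ¬ NZP κ σ d} ∧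
    Nat.card {d : ℕ | κ * d ≤ Z ∧ RP m c σ u P Q R d ∧ Squarefree d} ≤
      Nat.card {x | x ∈ PQ Z ∧ TPx m c σ κ P Q R x}

/-- The values at the primes of `T`. -/
noncomputable def valT (T : Finset ℕ) (x : (q : ℕ) × DirichletCharacter ℂ q) (p : ℕ) : ℂ :=
  if p ∈ T then x.2 p else 0

/-- [PS fin] (general form) For ALL finite sets `T` of primes with product `≤ Z^c`: for every set `S`
of triples (gcd of the conductor with `8`, parity, values at the primes of `T`), of the primitive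
quadratic characters of conductor `≤ Z` with data in `S` at least `87.4 %` have no real zero; and
each single pattern has `≥ Z^(9/10)` members. Proof: `P` is the product of the odd primes in `T` or
`≤ log y`, `y = 2 c log Z`; the key (data at `2` and at the primes of `P`, residue modulo `8`) splits
`PQ Z` in classes `TPx`; `D_cls`, `D_cum` for each, then sum. -/
def D_fin : Prop :=
  ∃ c : ℝ, 0 < c ∧ ∃ Z₀ : ℕ, ∀ Z : ℕ, Z₀ ≤ Z → ∀ T : Finset ℕ, (∀ p ∈ T, p.Prime) →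
    (∏ p ∈ T, (p : ℝ)) ≤ (Z : ℝ) ^ c →
    (∀ S : Set (ℕ × ℂ × (ℕ → ℂ)),
      (874 / 1000 : ℝ) * Nat.card {x : (q : ℕ) × DirichletCharacter ℂ q |
        x ∈ PQ Z ∧ (Nat.gcd x.1 8, x.2 (-1), valT T x) ∈ S} ≤
      Nat.card {x : (q : ℕ) × DirichletCharacter ℂ q |
        (x ∈ PQ Z ∧ (Nat.gcd x.1 8, x.2 (-1), valT T x) ∈ S) ∧ NZx x}) ∧
    ∀ e : ℕ → ℤ, (∀ p, e p = 0 ∨ e p = 1 ∨ e p = -1) → ∀ σ : ℤ, (σ = 1 ∨ σ = -1) →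
      (Z : ℝ) ^ (9 / 10 : ℝ) ≤ Nat.card {x : (q : ℕ) × DirichletCharacter ℂ q |
        x ∈ PQ Z ∧ x.2 (-1) = (σ : ℂ) ∧ ∀ p ∈ T, x.2 p = (e p : ℂ)}

end Pool.Agent.MP0016c7.Rz
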