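import Mathlib
import Pool.Agent.Lib.MP_0016c7_nt.PS.Stm2
import Pool.Agent.Lib.MP_0016c7_nt.Rz.U1
import Pool.Agent.Lib.MP_0016c7_nt.Rz.U2
import Pool.Agent.Lib.MP_0016c7_nt.Rz.U3
import Pool.Agent.Lib.MP_0016c7_nt.Rz.U7
import Pool.Agent.Lib.MP_0016c7_nt.Rz2.CharG

set_option autoImplicit false

/-!
Prescribed splitting: the classes of characters and the classes of the `d`.
-/

open Finset MeasureTheory Filter Topology
open scoped Real ContDiff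

namespace Pool.Agent.MP0016c7.Rz

private lemma cls_eq {Q : ℕ} {x y : (q : ℕ) × DirichletCharacter ℂ q} (hx : x ∈ PQ Q)
    (hy : y ∈ PQ Q) (h : x.1 = y.1) (h' : x.2 (-1) = y.2 (-1)) : x = y := by
  have h0 := hx.1.1.ne'
  obtain ⟨q, χ⟩ := x
  obtain ⟨q', χ'⟩ := y
  simp only at h h' h0
  subst h
  have : NeZero q := ⟨h0⟩
  have := prim_quad_unique χ χ' hx.2.1 hx.2.2.1 hy.2.1 hy.2.2.1 (Or.inl h')
  rw [this]

private lemma cls_par {q : ℕ} {χ : DirichletCharacter ℂ q} {σ : ℤ}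
    (h : (σ = 1 ∧ χ.Even) ∨ (σ = -1 ∧ χ.Odd)) : χ (-1) = (σ : ℂ) := by
  rcases h with ⟨h, h'⟩ | ⟨h, h'⟩
  · rw [h, h']; simp
  · rw [h, h']; simp

private lemma cls_signs {σ : ℤ} (hσ : σ = 1 ∨ σ = -1) {q : ℕ} {χ : DirichletCharacter ℂ q}
    (h : χ (-1) = (σ : ℂ)) : (σ = 1 ∧ χ.Even) ∨ (σ = -1 ∧ χ.Odd) := by
  rcases hσ with rfl | rfl
  · exact Or.inl ⟨rfl, by unfold DirichletCharacter.Even; rw [h]; simp⟩
  · exact Or.inr ⟨rfl, by unfold DirichletCharacter.Odd; rw [h]; simp⟩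

private lemma cls_sqf {d : ℕ} (hd : 1 < d) (hs : Squarefree d) {σ : ℤ} (hσ : σ = 1 ∨ σ = -1) :
    ¬ IsSquare (σ * (d : ℤ)) := by
  rintro ⟨k, hk⟩
  rcases hσ with rfl | rfl
  · rw [one_mul] at hk
    have h1 : d = k.natAbs * k.natAbs := by
      have := congrArg Int.natAbs hk
      rwa [Int.natAbs_mul, Int.natAbs_natCast] at this
    have h2 := hs k.natAbs ⟨1, by rw [mul_one]; exact h1⟩
    rw [Nat.isUnit_iff] at h2
    rw [h2] at h1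
    omega
  · have := mul_self_nonneg k
    have h2 : (0 : ℤ) < d := by exact_mod_cast (by omega : 0 < d)
    linarith

private lemma cls_odd {m c ε : ℤ} {κ u : ℕ} (hf : FamP m c ε κ u) {σ : ℤ}
    (hσ : σ = 1 ∨ σ = -1) {d : ℕ} (h : (σ * d) % m = c) : Odd d := by
  rw [Nat.odd_iff]
  rcases hf with ⟨rfl, rfl, _, _, _⟩ | ⟨rfl, rfl, _, _, _⟩ | ⟨rfl, rfl, _, _, _⟩ |
    ⟨rfl, rfl, _, _, _⟩ | ⟨rfl, rfl, _, _, _⟩ <;> rcases hσ with rfl | rfl <;> omega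

private lemma cls_kap {m c ε : ℤ} {κ u : ℕ} (hf : FamP m c ε κ u) :
    κ = 8 ∨ κ = 4 ∨ κ = 1 := by
  rcases hf with ⟨_, _, _, h, _⟩ | ⟨_, _, _, h, _⟩ | ⟨_, _, _, h, _⟩ | ⟨_, _, _, h, _⟩ |
    ⟨_, _, _, h, _⟩ <;> simp [h]

/-- The level of the characters of a class. -/
private lemma cls_lev {Q : ℕ} {x : (q : ℕ) × DirichletCharacter ℂ q} (hx : x ∈ PQ Q)
    {κ : ℕ} (hκ : κ = 8 ∨ κ = 4 ∨ κ = 1) {d : ℕ} (hd : Odd d) (hq : x.1 = κ * d) :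
    Squarefree d ∧ (κ = 1 → 1 < d) := by
  have : NeZero x.1 := ⟨hx.1.1.ne'⟩
  have hd2 := Nat.odd_iff.1 hd
  rcases prim_quad_level x.2 hx.2.1 hx.2.2.1 hx.2.2.2 with h1 | ⟨e, h1, h2, h3⟩ | ⟨e, h1, h2, h3⟩
  · obtain ⟨h1, h2, h3⟩ := h1
    have h1' := Nat.odd_iff.1 h1
    rcases hκ with rfl | rfl | rfl
    · omega
    · omega
    · have : x.1 = d := by omega
      rw [this] at h2 h3
      exact ⟨h2, fun _ => h3⟩
  · have h1' := Nat.odd_iff.1 h1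
    rcases hκ with rfl | rfl | rfl
    · omega
    · have : e = d := by omega
      rw [this] at h2
      exact ⟨h2, fun h => absurd h (by norm_num)⟩
    · omega
  · have h1' := Nat.odd_iff.1 h1
    rcases hκ with rfl | rfl | rfl
    · have : e = d := by omega
      rw [this] at h2
      exact ⟨h2, fun h => absurd h (by norm_num)⟩
    · omega
    · omega

private lemma cls_sq4 {a : ℤ} (h : IsSquare (2 * (2 * a))) : IsSquare a := by
  obtain ⟨k, hk⟩ := h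
  have h2 : Even k := by
    by_contra hne
    rw [Int.not_even_iff_odd] at hne
    have : Odd (k * k) := hne.mul hne
    rw [← hk] at this
    rw [Int.odd_iff] at this
    omega
  obtain ⟨j, hj⟩ := h2
  refine ⟨j, ?_⟩
  subst hj
  have : 4 * a = 4 * (j * j) := by linarith [hk, (by ring : (j + j) * (j + j) = 4 * (j * j))]
  linarith

private lemma cls_sq8 {k : ℤ} : (k * k) % 8 = 0 ∨ (k * k) % 8 = 1 ∨ (k * k) % 8 = 4 := by
  have h : k % 8 = 0 ∨ k % 8 = 1 ∨ k % 8 = 2 ∨ k % 8 = 3 ∨ k % 8 = 4 ∨ k % 8 = 5 ∨ k % 8 = 6 ∨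
    k % 8 = 7 := by omega
  rcases h with h | h | h | h | h | h | h | h <;> simp [Int.mul_emod, h]

private lemma cls_RU {m c ε : ℤ} {κ u : ℕ} (hf : FamP m c ε κ u) {σ : ℤ}
    (hσ : σ = 1 ∨ σ = -1) {d : ℕ} (hs : Squarefree d) (h : (σ * d) % m = c)
    (h1 : κ = 1 → 1 < d) : RU m c σ u d := by
  refine ⟨h, ?_⟩
  have key : u = 2 → IsSquare (2 * σ * ((u * d : ℕ) : ℤ)) → IsSquare (σ * (d : ℤ)) := by
    rintro rfl h2
    apply cls_sq4
    have e : 2 * σ * ((2 * d : ℕ) : ℤ) = 2 * (2 * (σ * (d : ℤ))) := by push_cast; ring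
    rwa [e] at h2
  rcases hf with ⟨rfl, rfl, _, _, rfl⟩ | ⟨rfl, rfl, _, hk, hu⟩ | ⟨rfl, rfl, _, hk, hu⟩ |
    ⟨rfl, rfl, _, _, hu⟩ | ⟨rfl, rfl, _, _, hu⟩
  · rintro ⟨k, hk⟩
    have e : 2 * σ * ((1 * d : ℕ) : ℤ) = 2 * (σ * (d : ℤ)) := by push_cast; ring
    rw [e] at hk
    have := cls_sq8 (k := k)
    omega
  · exact fun h2 => cls_sqf (h1 hk) hs hσ (key hu h2)
  · exact fun h2 => cls_sqf (h1 hk) hs hσ (key hu h2)
  · intro h2
    obtain ⟨k, hk⟩ := key hu h2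
    have := cls_sq8 (k := k)
    omega
  · intro h2
    obtain ⟨k, hk⟩ := key hu h2
    have := cls_sq8 (k := k)
    omega

private lemma cls_zero {q p : ℕ} (hp : p.Prime) (χ : DirichletCharacter ℂ q) :
    χ p = 0 ↔ p ∣ q := by
  constructor
  · intro h
    by_contra hn
    have hu : IsUnit ((p : ℕ) : ZMod q) := by
      rw [ZMod.isUnit_iff_coprime]
      exact (Nat.Prime.coprime_iff_not_dvd hp).2 hn
    obtain ⟨v, hv⟩ := hu
    rw [← hv] at h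
    exact (v.isUnit.map χ).ne_zero h
  · intro h
    apply χ.map_nonunit
    rw [ZMod.isUnit_iff_coprime, Nat.Prime.coprime_iff_not_dvd hp]
    exact fun hn => hn h

private lemma cls_dvd {κ : ℕ} (hκ : κ = 8 ∨ κ = 4 ∨ κ = 1) {p d : ℕ} (hp : p.Prime)
    (h3 : 3 ≤ p) : p ∣ κ * d ↔ p ∣ d := by
  constructor
  · intro h
    rcases (Nat.Prime.dvd_mul hp).1 h with h | h
    · exfalso
      have h8 : p ∣ 2 ^ 3 := by
        rcases hκ with rfl | rfl | rfl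
        · exact h
        · exact h.trans (by norm_num)
        · exact h.trans (by norm_num)
      have := Nat.le_of_dvd (by norm_num) (hp.dvd_of_dvd_pow h8)
      omega
    · exact h
  · exact fun h => h.mul_left κ

/-- The values at the primes of the pattern. -/
private lemma cls_val (hc : D_char) {y : ℝ} {P Q R : ℕ} (hP : Pat y P Q R) {m c ε : ℤ} {κ u : ℕ}
    (hf : FamP m c ε κ u) {σ : ℤ} (hσ : σ = 1 ∨ σ = -1) {d : ℕ} (hs : Squarefree d)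
    (hR : RU m c σ u d) [NeZero (κ * d)] (χ : DirichletCharacter ℂ (κ * d)) (hp : χ.IsPrimitive)
    (h2 : χ ^ 2 = 1) (hpar : (σ = 1 ∧ χ.Even) ∨ (σ = -1 ∧ χ.Odd)) {p : ℕ}
    (hpP : p ∈ P.primeFactors) :
    (χ p = if p ∣ R then 0 else if p ∣ Q then -1 else 1) ↔
      ((p ∣ R → p ∣ d ∧ ¬ p ^ 2 ∣ d) ∧ (¬ p ∣ R → sy σ u d p = if p ∣ Q then -1 else 1)) := by
  have hpp := Nat.prime_of_mem_primeFactors hpP
  have h3 : 3 ≤ p := by
    have h20 : p ≠ 2 := by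
      rintro rfl
      have h21 := Nat.dvd_of_mem_primeFactors hpP
      have h22 := hP.odd
      rw [Nat.odd_iff] at h22
      omega
    have := hpp.two_le
    omega
  have hodd : Odd p := by
    rcases hpp.eq_two_or_odd' with h | h
    · omega
    · exact h
  have hκ := cls_kap hf
  have hval := (hc m c ε κ u hf σ hσ d hs hR χ hp h2 hpar).2.1 p hodd
  by_cases hR' : p ∣ R
  · rw [if_pos hR', cls_zero hpp, cls_dvd hκ hpp h3]
    constructor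
    · intro h
      refine ⟨fun _ => ⟨h, fun h' => ?_⟩, fun h' => absurd hR' h'⟩
      have := hs p (by rwa [← pow_two])
      rw [Nat.isUnit_iff] at this
      omega
    · exact fun h => (h.1 hR').1
  · rw [if_neg hR', hval]
    have e : (((if p ∣ Q then -1 else 1 : ℝ)) : ℂ) = if p ∣ Q then -1 else 1 := by
      split_ifs <;> simp
    rw [← e, Complex.ofReal_inj]
    exact ⟨fun h => ⟨fun h' => absurd h' hR', fun _ => h⟩, fun h => h.2 hR'⟩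

private lemma cls_f41 : Fam 4 3 0 4 := Or.inl ⟨rfl, rfl, rfl, rfl⟩
private lemma cls_f42 : Fam 8 1 1 1 := Or.inr (Or.inl ⟨rfl, rfl, rfl, rfl⟩)
private lemma cls_f43 : Fam 8 5 (-1) 1 := Or.inr (Or.inr ⟨rfl, rfl, rfl, rfl⟩)

private lemma cls_exB {σ : ℤ} (hσ : σ = 1 ∨ σ = -1) {d : ℕ} (hd : Odd d) (hs : Squarefree d)
    (h : (σ * d) % 4 = 3) : ∃ χ : DirichletCharacter ℂ (4 * d), χ.IsPrimitive ∧ χ ^ 2 = 1 ∧
      χ ≠ 1 ∧ ((σ = 1 ∧ χ.Even) ∨ (σ = -1 ∧ χ.Odd)) := by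
  obtain ⟨χ, p1, p2, p3⟩ := exists_prim_B d hd hs
  have : NeZero (4 * d) := ⟨by have := hd.pos; omega⟩
  exact ⟨χ, p1, p2, p3, (char_eqG cls_f41 σ hσ d hd hs h χ p1 p2).2.2⟩

private lemma cls_exC {m c ε : ℤ} (hF : Fam m c ε 1) {σ : ℤ} (hσ : σ = 1 ∨ σ = -1) {d : ℕ}
    (hd : Odd d) (hs : Squarefree d) (hd1 : 1 < d) (h : (σ * d) % m = c) :
    ∃ χ : DirichletCharacter ℂ (1 * d), χ.IsPrimitive ∧ χ ^ 2 = 1 ∧
      χ ≠ 1 ∧ ((σ = 1 ∧ χ.Even) ∨ (σ = -1 ∧ χ.Odd)) := by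
  have key : ∀ q : ℕ, q = d → ∃ χ : DirichletCharacter ℂ q,
      χ.IsPrimitive ∧ χ ^ 2 = 1 ∧ χ ≠ 1 := by
    rintro q rfl
    exact exists_prim_C q hd hs hd1
  obtain ⟨χ, p1, p2, p3⟩ := key (1 * d) (one_mul d)
  have : NeZero (1 * d) := ⟨by omega⟩
  exact ⟨χ, p1, p2, p3, (char_eqG hF σ hσ d hd hs h χ p1 p2).2.2⟩

/-- The existence of the character. -/
private lemma cls_ex {m c ε : ℤ} {κ u : ℕ} (hf : FamP m c ε κ u) {σ : ℤ}
    (hσ : σ = 1 ∨ σ = -1) {d : ℕ} (hs : Squarefree d) (hR : RU m c σ u d) :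
    ∃ χ : DirichletCharacter ℂ (κ * d), χ.IsPrimitive ∧ χ ^ 2 = 1 ∧ χ ≠ 1 ∧
      ((σ = 1 ∧ χ.Even) ∨ (σ = -1 ∧ χ.Odd)) := by
  have hd := cls_odd hf hσ hR.1
  obtain ⟨h, hn⟩ := hR
  have hd1 : u = 2 → (c = 1 ∨ c = 5) → m = 8 → 1 < d := by
    intro hu hc' hm
    by_contra hlt
    have h1 : d = 1 := by have := hd.pos; omega
    subst h1 hu hm
    rcases hσ with rfl | rfl
    · exact hn ⟨2, by norm_num⟩
    · rcases hc' with rfl | rfl <;> norm_num at h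
  rcases hf with ⟨rfl, rfl, rfl, rfl, rfl⟩ | ⟨rfl, rfl, rfl, rfl, rfl⟩ |
    ⟨rfl, rfl, rfl, rfl, rfl⟩ | ⟨rfl, rfl, rfl, rfl, rfl⟩ | ⟨rfl, rfl, rfl, rfl, rfl⟩
  · exact exists_prim_A d hd hs σ hσ
  · exact cls_exC cls_f42 hσ hd hs (hd1 rfl (Or.inl rfl) rfl) h
  · exact cls_exC cls_f43 hσ hd hs (hd1 rfl (Or.inr rfl) rfl) h
  · exact cls_exB hσ hd hs (by omega)
  · exact cls_exB hσ hd hs (by omega)

private lemma cls_one (hc : D_char) {Z : ℕ} {y : ℝ} {P Q R : ℕ} (hP : Pat y P Q R)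
    {m c ε : ℤ} {κ u : ℕ} (hf : FamP m c ε κ u) {σ : ℤ} (hσ : σ = 1 ∨ σ = -1)
    {x : (q : ℕ) × DirichletCharacter ℂ q} (hx : x ∈ PQ Z) (hT : TPx m c σ κ P Q R x) :
    ∃ d : ℕ, x.1 = κ * d ∧ RP m c σ u P Q R d ∧ Squarefree d ∧ (NZP κ σ d → NZx x) := by
  obtain ⟨⟨d, e1, e2, e3⟩, hpar, hv⟩ := hT
  have hl := cls_lev hx (cls_kap hf) e2 e1
  have hR := cls_RU hf hσ hl.1 e3 hl.2
  obtain ⟨q, χ⟩ := x
  simp only at e1 hpar hv
  subst e1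
  have : NeZero (κ * d) := ⟨hx.1.1.ne'⟩
  refine ⟨d, rfl, ⟨hR, fun p hp => ?_⟩, hl.1, fun h => ?_⟩
  · exact (cls_val hc hP hf hσ hl.1 hR χ hx.2.1 hx.2.2.1 (cls_signs hσ hpar) hp).1 (hv p hp)
  · exact fun hN s hs0 hs1 => h hN χ hx.2.1 hx.2.2.1 (cls_signs hσ hpar) s hs0 hs1

private lemma cls_two (hc : D_char) {y : ℝ} {P Q R : ℕ} (hP : Pat y P Q R)
    {m c ε : ℤ} {κ u : ℕ} (hf : FamP m c ε κ u) {σ : ℤ} (hσ : σ = 1 ∨ σ = -1)
    {d : ℕ} (hR : RP m c σ u P Q R d) (hs : Squarefree d) :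
    ∃ χ : DirichletCharacter ℂ (κ * d), (χ.IsPrimitive ∧ χ ^ 2 = 1 ∧ χ ≠ 1) ∧
      TPx m c σ κ P Q R ⟨κ * d, χ⟩ := by
  have hd := cls_odd hf hσ hR.1.1
  obtain ⟨χ, p1, p2, p3, p4⟩ := cls_ex hf hσ hs hR.1
  have : NeZero (κ * d) := ⟨by
    have h1 := hd.pos
    rcases cls_kap hf with rfl | rfl | rfl <;> omega⟩
  refine ⟨χ, ⟨p1, p2, p3⟩, ⟨d, rfl, hd, hR.1.1⟩, cls_par p4, fun p hp => ?_⟩
  exact (cls_val hc hP hf hσ hs hR.1 χ p1 p2 p4 hp).2 (hR.2 p hp)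

theorem p_cls (hc : D_char) : D_cls := by
  intro Z y P Q R hP σ hσ m c ε κ u hf
  have hκ : 0 < κ := by rcases cls_kap hf with rfl | rfl | rfl <;> norm_num
  simp only [Nat.card_coe_set_eq]
  have hfin : ∀ S : ((q : ℕ) × DirichletCharacter ℂ q) → Prop, {x | x ∈ PQ Z ∧ S x}.Finite :=
    fun S => (PQ_finite Z).subset fun _ h => h.1
  constructor
  · refine Set.ncard_le_ncard_of_injOn (fun x => x.1 / κ) ?_ ?_
      ((Set.finite_Iic Z).subset fun d hd => ?_)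
    · rintro x ⟨hx, hT, hz⟩
      obtain ⟨d, e1, e2, e3, e4⟩ := cls_one hc hP hf hσ hx hT
      have e5 : x.1 / κ = d := by rw [e1, Nat.mul_div_cancel_left d hκ]
      simp only [Set.mem_ofPred_eq]
      rw [e5]
      exact ⟨by rw [← e1]; exact hx.1.2, e2, e3, fun h => hz (e4 h)⟩
    · rintro x ⟨hx, hT, _⟩ x' ⟨hx', hT', _⟩ hxy
      obtain ⟨d, e1, _⟩ := cls_one hc hP hf hσ hx hT
      obtain ⟨d', e1', _⟩ := cls_one hc hP hf hσ hx' hT'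
      simp only at hxy
      rw [e1, e1', Nat.mul_div_cancel_left d hκ, Nat.mul_div_cancel_left d' hκ] at hxy
      exact cls_eq hx hx' (by rw [e1, e1', hxy]) (by rw [hT.2.1, hT'.2.1])
    · exact (Nat.le_mul_of_pos_left d hκ).trans hd.1
  · choose f hf1 hf2 using fun (d : {d : ℕ | κ * d ≤ Z ∧ RP m c σ u P Q R d ∧ Squarefree d}) =>
      cls_two hc hP hf hσ d.2.2.1 d.2.2.2
    rw [← Nat.card_coe_set_eq, ← Nat.card_coe_set_eq]
    have hfin' : Finite {x | x ∈ PQ Z ∧ TPx m c σ κ P Q R x} := (hfin _).to_subtype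
    refine Nat.card_le_card_of_injective
      (fun d => ⟨⟨κ * d.1, f d⟩, ⟨⟨?_, d.2.1⟩, hf1 d⟩, hf2 d⟩) ?_
    · have := Nat.pos_of_ne_zero d.2.2.2.ne_zero
      positivity
    · intro d e hde
      have h3 := congrArg (fun z : {x | x ∈ PQ Z ∧ TPx m c σ κ P Q R x} => z.1.1) hde
      simp only at h3
      exact Subtype.ext (Nat.eq_of_mul_eq_mul_left hκ h3)

end Pool.Agent.MP0016c7.Rz
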