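import Mathlib
import Pool.Agent.Lib.MP_0016c7_nt.PS.Stm2

set_option autoImplicit false

/-!
[PS cum] From dyadic blocks to all members of the families.
-/

open Finset MeasureTheory Filter Topology
open scoped Real ContDiff

namespace Pool.Agent.MP0016c7.Rz

private lemma cum_fin (T : ℝ) (Q : ℕ → Prop) : {d : ℕ | (d : ℝ) ≤ T ∧ Q d}.Finite := by
  refine (Set.finite_Iic ⌊T⌋₊).subset ?_
  rintro d ⟨h, -⟩
  exact Nat.le_floor h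

private lemma cum_split (T : ℝ) (hT : 0 ≤ T) (Q : ℕ → Prop) :
    (Nat.card {d : ℕ | (d : ℝ) ≤ T ∧ Q d} : ℝ) =
      (Nat.card {d : ℕ | (d : ℝ) ≤ T / 2 ∧ Q d} : ℝ) +
      (Nat.card {d : ℕ | T / 2 < (d : ℝ) ∧ (d : ℝ) ≤ 2 * (T / 2) ∧ Q d} : ℝ) := by
  rw [Nat.card_coe_set_eq, Nat.card_coe_set_eq, Nat.card_coe_set_eq]
  have h1 : {d : ℕ | (d : ℝ) ≤ T ∧ Q d} = {d : ℕ | (d : ℝ) ≤ T / 2 ∧ Q d} ∪
      {d : ℕ | T / 2 < (d : ℝ) ∧ (d : ℝ) ≤ 2 * (T / 2) ∧ Q d} := by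
    ext d
    simp only [Set.mem_union, Set.mem_ofPred_eq]
    have e : 2 * (T / 2) = T := by ring
    rw [e]
    constructor
    · rintro ⟨a, b⟩
      rcases le_or_gt (d : ℝ) (T / 2) with h | h
      · exact Or.inl ⟨h, b⟩
      · exact Or.inr ⟨h, a, b⟩
    · rintro (⟨a, b⟩ | ⟨-, a, b⟩)
      · exact ⟨by linarith, b⟩
      · exact ⟨a, b⟩
  have h2 : {d : ℕ | T / 2 < (d : ℝ) ∧ (d : ℝ) ≤ 2 * (T / 2) ∧ Q d}.Finite := by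
    refine (cum_fin (2 * (T / 2)) Q).subset ?_
    rintro d ⟨-, a, b⟩
    exact ⟨a, b⟩
  rw [h1, Set.ncard_union_eq ?_ (cum_fin _ _) h2]
  · push_cast
    rfl
  · rw [Set.disjoint_left]
    rintro d ⟨a, -⟩ ⟨b, -⟩
    linarith

private lemma cum_base (T : ℝ) (hT : 0 ≤ T) (Q : ℕ → Prop) (hQ : ∀ d, Q d → d ≠ 0) :
    (Nat.card {d : ℕ | (d : ℝ) ≤ T ∧ Q d} : ℝ) ≤ T := by
  rw [Nat.card_coe_set_eq]
  have h1 : {d : ℕ | (d : ℝ) ≤ T ∧ Q d} ⊆ ((Icc 1 ⌊T⌋₊ : Finset ℕ) : Set ℕ) := by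
    rintro d ⟨a, b⟩
    rw [Finset.coe_Icc, Set.mem_Icc]
    exact ⟨Nat.one_le_iff_ne_zero.mpr (hQ d b), Nat.le_floor a⟩
  have h2 := Set.ncard_le_ncard h1 (Finset.finite_toSet _)
  rw [Set.ncard_coe_finset, Nat.card_Icc, Nat.add_sub_cancel] at h2
  exact (Nat.le_floor_iff hT).mp h2

private lemma cum_ind (A B : ℕ → Prop) (hB : ∀ d, B d → d ≠ 0) (W α Z : ℝ) (hW : 0 ≤ W)
    (hα : 0 ≤ α)
    (hblk : ∀ X : ℝ, W ≤ X → 2 * X ≤ Z →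
      (Nat.card {d : ℕ | X < (d : ℝ) ∧ (d : ℝ) ≤ 2 * X ∧ B d} : ℝ) ≤
        α * (Nat.card {d : ℕ | X < (d : ℝ) ∧ (d : ℝ) ≤ 2 * X ∧ A d} : ℝ)) (n : ℕ) :
    ∀ T : ℝ, 0 ≤ T → T ≤ 2 ^ n * (2 * W) → T ≤ Z →
      (Nat.card {d : ℕ | (d : ℝ) ≤ T ∧ B d} : ℝ) ≤
        α * (Nat.card {d : ℕ | (d : ℝ) ≤ T ∧ A d} : ℝ) + 2 * W := by
  induction n with
  | zero =>
    intro T hT h1 _
    have h2 := cum_base T hT B hB
    have h3 : 0 ≤ α * (Nat.card {d : ℕ | (d : ℝ) ≤ T ∧ A d} : ℝ) :=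
      mul_nonneg hα (Nat.cast_nonneg _)
    rw [pow_zero, one_mul] at h1
    linarith
  | succ n ih =>
    intro T hT h1 h2
    rcases le_or_gt T (2 * W) with h | h
    · have h2 := cum_base T hT B hB
      have h3 : 0 ≤ α * (Nat.card {d : ℕ | (d : ℝ) ≤ T ∧ A d} : ℝ) :=
        mul_nonneg hα (Nat.cast_nonneg _)
      linarith
    · have h3 := ih (T / 2) (by linarith) (by rw [pow_succ] at h1; linarith) (by linarith)
      have h4 := hblk (T / 2) (by linarith) (by linarith)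
      rw [cum_split T hT B, cum_split T hT A]
      rw [mul_add]
      linarith

private lemma cum_kap {m c ε : ℤ} {κ u : ℕ} (hf : FamP m c ε κ u) : 1 ≤ κ ∧ κ ≤ 8 := by
  rcases hf with h | h | h | h | h <;> obtain ⟨-, -, -, h, -⟩ := h <;> omega

private lemma cum_m {m c ε : ℤ} {κ u : ℕ} (hf : FamP m c ε κ u) : m = 2 ∨ m = 8 := by
  rcases hf with h | h | h | h | h
  · exact Or.inl h.1
  all_goals exact Or.inr h.1

private lemma cum_set (κ Z : ℕ) (hκ : 1 ≤ κ) (A : ℕ → Prop) :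
    {d : ℕ | κ * d ≤ Z ∧ A d} = {d : ℕ | (d : ℝ) ≤ (Z : ℝ) / κ ∧ A d} := by
  ext d
  simp only [Set.mem_ofPred_eq]
  have hκ0 : (0 : ℝ) < κ := by exact_mod_cast hκ
  rw [le_div_iff₀ hκ0]
  constructor
  · rintro ⟨a, b⟩
    refine ⟨?_, b⟩
    rw [mul_comm]
    exact_mod_cast a
  · rintro ⟨a, b⟩
    refine ⟨?_, b⟩
    rw [mul_comm] at a
    exact_mod_cast a

theorem p_cum (hd : D_dya) (hs : D_size) : D_cum := by
  obtain ⟨c₁, hc₁, hc₁', X₀, y₀, hd⟩ := hd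
  -- the eventual conditions
  have hcast : Tendsto (fun Z : ℕ => (Z : ℝ)) atTop atTop := tendsto_natCast_atTop_atTop
  have e1 : ∀ᶠ Z : ℕ in atTop, max X₀ 16 ≤ √(Z : ℝ) :=
    (Real.tendsto_sqrt_atTop.comp hcast).eventually_ge_atTop _
  have e2 : ∀ᶠ Z : ℕ in atTop, 2 * y₀ / c₁ ≤ Real.log (Z : ℝ) :=
    (Real.tendsto_log_atTop.comp hcast).eventually_ge_atTop _
  have e3 : ∀ᶠ Z : ℕ in atTop, 256 ≤ (Z : ℝ) ^ (6 / 100 : ℝ) :=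
    ((tendsto_rpow_atTop (by norm_num)).comp hcast).eventually_ge_atTop _
  have e4 : ∀ᶠ Z : ℕ in atTop, 200000 ≤ (Z : ℝ) ^ (4 / 10 : ℝ) :=
    ((tendsto_rpow_atTop (by norm_num)).comp hcast).eventually_ge_atTop _
  obtain ⟨Z₀, hZ₀⟩ := eventually_atTop.mp (e1.and (e2.and (e3.and e4)))
  refine ⟨c₁ / 2, by positivity, Z₀, ?_⟩
  intro Z hZ P Q R hpat σ hσ m c' ε κ u hf
  obtain ⟨h1, h2, h3, h4⟩ := hZ₀ Z hZ
  have h1a : X₀ ≤ √(Z : ℝ) := (le_max_left _ _).trans h1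
  have h1b : 16 ≤ √(Z : ℝ) := (le_max_right _ _).trans h1
  obtain ⟨hκ1, hκ8⟩ := cum_kap hf
  have hκ0 : (0 : ℝ) < κ := by exact_mod_cast hκ1
  have hκ8r : (κ : ℝ) ≤ 8 := by exact_mod_cast hκ8
  have hZr : √(Z : ℝ) * √(Z : ℝ) = Z := Real.mul_self_sqrt (Nat.cast_nonneg Z)
  have hW0 : 0 < √(Z : ℝ) := by linarith
  have hZ0 : (0 : ℝ) < Z := by rw [← hZr]; positivity
  have hZ256 : (256 : ℝ) ≤ Z := by nlinarith
  have hZ1 : (1 : ℝ) < Z := by linarith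
  have hy0 : y₀ ≤ c₁ / 2 * Real.log Z := by
    rw [div_le_iff₀ hc₁] at h2
    linarith
  have hlogs : Real.log (√(Z : ℝ)) = Real.log Z / 2 := by
    rw [Real.log_sqrt hZ0.le]
  have hyX : ∀ X : ℝ, √(Z : ℝ) ≤ X → c₁ / 2 * Real.log Z ≤ c₁ * Real.log X := by
    intro X hX
    have h5 : Real.log (√(Z : ℝ)) ≤ Real.log X := Real.log_le_log hW0 hX
    rw [hlogs] at h5
    have h6 := mul_le_mul_of_nonneg_left h5 hc₁.le
    linarith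
  have hblk := fun X (hX : √(Z : ℝ) ≤ X) =>
    hd X (h1a.trans hX) (c₁ / 2 * Real.log Z) hy0 (hyX X hX) P Q R hpat σ hσ m c' ε κ u hf
  rw [cum_set κ Z hκ1 (fun d => RP m c' σ u P Q R d ∧ Squarefree d),
    cum_set κ Z hκ1 (fun d => RP m c' σ u P Q R d ∧ Squarefree d ∧ ¬ NZP κ σ d)]
  have hT0 : (0 : ℝ) ≤ (Z : ℝ) / κ := by positivity
  have hTZ : (Z : ℝ) / κ ≤ Z := div_le_self hZ0.le (by exact_mod_cast hκ1)
  -- the number of all members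
  have hall : (Z : ℝ) ^ (9 / 10 : ℝ) ≤
      (Nat.card {d : ℕ | (d : ℝ) ≤ (Z : ℝ) / κ ∧ RP m c' σ u P Q R d ∧ Squarefree d} : ℝ) := by
    have hX : √(Z : ℝ) ≤ (Z : ℝ) / κ / 2 := by
      rw [div_div, le_div_iff₀ (by positivity)]
      rw [← hZr]
      have h7 : (κ : ℝ) * 2 ≤ √(Z : ℝ) := by linarith
      calc √(√(Z : ℝ) * √(Z : ℝ)) * (κ * 2) = √(Z : ℝ) * (κ * 2) := by rw [hZr]
        _ ≤ √(Z : ℝ) * √(Z : ℝ) := mul_le_mul_of_nonneg_left h7 hW0.le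
    have h5 := (hblk _ hX).1
    rw [cum_split ((Z : ℝ) / κ) hT0 (fun d => RP m c' σ u P Q R d ∧ Squarefree d)]
    have hy100 : c₁ / 2 * Real.log Z ≤ 1 / 100 * Real.log Z :=
      mul_le_mul_of_nonneg_right (by linarith) (Real.log_nonneg hZ1.le)
    obtain ⟨-, -, -, -, -, hs6⟩ := hs (1 / 100) Z (c₁ / 2 * Real.log Z) P Q R (by norm_num) hZ1 hy100
      hpat
    obtain ⟨hD, hDi⟩ := hs6 m (cum_m hf)
    have hXe : (Z : ℝ) ^ (4 * (1 / 100) : ℝ) = (Z : ℝ) ^ (4 / 100 : ℝ) := by norm_num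
    rw [hXe, div_le_iff₀ hD] at hDi
    have hp4 : 0 < (Z : ℝ) ^ (4 / 100 : ℝ) := Real.rpow_pos_of_pos hZ0 _
    have hp9 : 0 < (Z : ℝ) ^ (9 / 10 : ℝ) := Real.rpow_pos_of_pos hZ0 _
    have hprod : (Z : ℝ) ^ (9 / 10 : ℝ) * (Z : ℝ) ^ (6 / 100 : ℝ) * (Z : ℝ) ^ (4 / 100 : ℝ) = Z := by
      rw [← Real.rpow_add hZ0, ← Real.rpow_add hZ0]
      norm_num
    have h6 : (Z : ℝ) ^ (9 / 10 : ℝ) ≤ DP m P R / 2 * ((Z : ℝ) / κ / 2) := by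
      have h7 : DP m P R / 2 * ((Z : ℝ) / κ / 2) = DP m P R * Z / (κ * 4) := by
        field_simp
        ring
      rw [h7, le_div_iff₀ (by positivity)]
      -- Z^(9/10) * (κ * 4) ≤ DP * Z
      have h8 : (Z : ℝ) ^ (9 / 10 : ℝ) * (κ * 4) ≤ (Z : ℝ) ^ (9 / 10 : ℝ) * 32 :=
        mul_le_mul_of_nonneg_left (by linarith) hp9.le
      have h9 : (Z : ℝ) ^ (9 / 10 : ℝ) * 32 ≤ DP m P R * Z := by
        have h10 : (256 : ℝ) * 1 ≤ (Z : ℝ) ^ (6 / 100 : ℝ) * (8 * (Z : ℝ) ^ (4 / 100 : ℝ) * DP m P R) :=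
          mul_le_mul h3 hDi zero_le_one (by positivity)
        have h11 := mul_le_mul_of_nonneg_left h10 hp9.le
        have h12 : (Z : ℝ) ^ (9 / 10 : ℝ) * ((Z : ℝ) ^ (6 / 100 : ℝ) *
            (8 * (Z : ℝ) ^ (4 / 100 : ℝ) * DP m P R)) =
            8 * (DP m P R * ((Z : ℝ) ^ (9 / 10 : ℝ) * (Z : ℝ) ^ (6 / 100 : ℝ) *
              (Z : ℝ) ^ (4 / 100 : ℝ))) := by ring
        rw [h12, hprod] at h11
        linarith
      exact h8.trans h9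
    have h7 : (0 : ℝ) ≤ (Nat.card {d : ℕ | (d : ℝ) ≤ (Z : ℝ) / κ / 2 ∧
      RP m c' σ u P Q R d ∧ Squarefree d} : ℝ) := Nat.cast_nonneg _
    have h8 := h6.trans h5
    linarith
  refine ⟨hall, ?_⟩
  -- the bad ones
  obtain ⟨n, hn⟩ : ∃ n : ℕ, (Z : ℝ) / κ ≤ 2 ^ n * (2 * √(Z : ℝ)) := by
    obtain ⟨n, hn⟩ := pow_unbounded_of_one_lt ((Z : ℝ) / κ) one_lt_two
    refine ⟨n, hn.le.trans ?_⟩
    have : (1 : ℝ) ≤ 2 * √(Z : ℝ) := by linarith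
    exact le_mul_of_one_le_right (by positivity) this
  have hbad := cum_ind (fun d => RP m c' σ u P Q R d ∧ Squarefree d)
    (fun d => RP m c' σ u P Q R d ∧ Squarefree d ∧ ¬ NZP κ σ d)
    (fun d hd' => hd'.2.1.ne_zero) (√(Z : ℝ)) (12599 / 100000) Z hW0.le (by norm_num)
    (fun X hX _ => (hblk X hX).2) n ((Z : ℝ) / κ) hT0 hn hTZ
  refine hbad.trans ?_
  have hsq : 2 * √(Z : ℝ) ≤ 1 / 100000 * (Z : ℝ) ^ (9 / 10 : ℝ) := by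
    have h5 : √(Z : ℝ) = (Z : ℝ) ^ (1 / 2 : ℝ) := Real.sqrt_eq_rpow _
    have h6 : (Z : ℝ) ^ (1 / 2 : ℝ) * (Z : ℝ) ^ (4 / 10 : ℝ) = (Z : ℝ) ^ (9 / 10 : ℝ) := by
      rw [← Real.rpow_add hZ0]
      norm_num
    rw [← h6, h5]
    have h7 := mul_le_mul_of_nonneg_left h4 (Real.rpow_nonneg hZ0.le (1 / 2 : ℝ))
    linarith
  have hall' : (Z : ℝ) ^ (9 / 10 : ℝ) ≤ (Nat.card {d : ℕ | (d : ℝ) ≤ (Z : ℝ) / κ ∧
    (fun d => RP m c' σ u P Q R d ∧ Squarefree d) d} : ℝ) := hall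
  linarith

end Pool.Agent.MP0016c7.Rz
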