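import Mathlib
import Pool.Agent.Lib.MP_0016c7_nt.PS.Stm
import Pool.Agent.Lib.MP_0016c7_nt.Rz.ArithA4

set_option autoImplicit false

/-!
Prescribed splitting, piece dec: the average of the symbol is the main term plus few error terms.
-/

open Finset MeasureTheory Filter Topology
open scoped Real ContDiff

namespace Pool.Agent.MP0016c7.Rz

private lemma dec_sub (m n : ℕ) : ((m * n).divisors.card : ℝ) ≤ m.divisors.card * n.divisors.card := by
  rw [Nat.divisors_mul]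
  exact_mod_cast Finset.card_mul_le

private lemma dec_gg (k : ℤ) (N : ℕ) (hN : 1 ≤ N) : |gg k N| ≤ N.divisors.card := by
  have h1 := abs_gg_le k N hN
  have hN0 : (0 : ℝ) < N := by exact_mod_cast hN
  have h3 : √((Nat.gcd k.natAbs N : ℝ) / N) ≤ 1 := by
    rw [Real.sqrt_le_one, div_le_one hN0]
    exact_mod_cast Nat.gcd_le_right _ hN
  calc _ ≤ (N.divisors.card : ℝ) * √((Nat.gcd k.natAbs N : ℝ) / N) := h1
    _ ≤ N.divisors.card * 1 := by gcongr
    _ = _ := mul_one _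

private lemma dec_mu (e : ℕ) : |(ArithmeticFunction.moebius e : ℝ)| ≤ 1 := by
  have h := ArithmeticFunction.abs_moebius_le_one (n := e)
  exact_mod_cast h

private lemma dec_smul (F : ℝ → ℝ) (σ : ℤ) (α : ℝ) (c : ℤ → ℝ) (Y : ℝ) (N : ℕ) :
    NSc F σ (fun k => α * c k) Y N = α * NSc F σ c Y N := by
  unfold NSc
  rw [← tsum_mul_left]
  refine tsum_congr fun k => ?_
  split_ifs <;> ring

private lemma dec_congr (F : ℝ → ℝ) (σ : ℤ) (c c' : ℤ → ℝ) (Y : ℝ) (N : ℕ) (h : ∀ k, c k = c' k) :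
    NSc F σ c Y N = NSc F σ c' Y N := by
  rw [funext h]

/-- the four coefficient functions as one function of the index -/
private def cI (c₁ c₂ c₃ c₄ : ℤ → ℝ) (i : ℕ) : ℤ → ℝ :=
  if i = 1 then c₁ else if i = 2 then c₂ else if i = 3 then c₃ else c₄

private noncomputable def yI (i : ℕ) (z : ℝ) : ℝ :=
  if i = 1 then z / 4 else if i = 2 then z / 2 else if i = 3 then 2 * z else z

private lemma cI_le (c₁ c₂ c₃ c₄ : ℤ → ℝ) (h1 : ∀ k, |c₁ k| ≤ 2) (h2 : ∀ k, |c₂ k| ≤ 2)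
    (h3 : ∀ k, |c₃ k| ≤ 2) (h4 : ∀ k, |c₄ k| ≤ 2) (i : ℕ) (k : ℤ) :
    |cI c₁ c₂ c₃ c₄ i k| ≤ 2 := by
  unfold cI
  split_ifs
  · exact h1 k
  · exact h2 k
  · exact h3 k
  · exact h4 k

private lemma yI_ge (i : ℕ) (z : ℝ) (hz : 0 ≤ z) : z ≤ 4 * yI i z := by
  unfold yI
  split_ifs <;> linarith

private lemma yI_le (i : ℕ) (z : ℝ) (hz : 0 ≤ z) : yI i z ≤ 2 * z := by
  unfold yI
  split_ifs <;> linarith

private lemma yI_nonneg (i : ℕ) (z : ℝ) (hz : 0 ≤ z) : 0 ≤ yI i z := by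
  unfold yI
  split_ifs <;> linarith

/-- the facts about the pattern which are used -/
private lemma dec_pat {y : ℝ} {P Q R : ℕ} (hp : Pat y P Q R) :
    P ≠ 0 ∧ R ≠ 0 ∧ Squarefree R ∧ Nat.Coprime (P / R) R ∧ (P / R) ∣ P ∧ P / R ≠ 0 := by
  have hP0 : P ≠ 0 := hp.sf.ne_zero
  obtain ⟨S, hS⟩ := hp.hR
  have hR0 : R ≠ 0 := by
    rintro rfl
    simp at hS
    exact hP0 hS
  have hdiv : P / R = S := by
    rw [hS]
    exact Nat.mul_div_cancel_left S (Nat.pos_of_ne_zero hR0)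
  have hS0 : S ≠ 0 := by
    rintro rfl
    simp at hS
    exact hP0 hS
  refine ⟨hP0, hR0, hp.sf.squarefree_of_dvd hp.hR, ?_, ?_, by rw [hdiv]; exact hS0⟩
  · rw [hdiv]
    have := hp.sf
    rw [hS] at this
    exact (Nat.squarefree_mul_iff.1 this).1.symm
  · rw [hdiv, hS]
    exact Dvd.intro_left R rfl

private lemma dec_le {a P : ℕ} (h : a ∣ P) (hP : P ≠ 0) : (a : ℝ) ≤ P := by
  exact_mod_cast Nat.le_of_dvd (Nat.pos_of_ne_zero hP) h

private lemma dec_dcard {a P : ℕ} (h : a ∣ P) (hP : P ≠ 0) :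
    (a.divisors.card : ℝ) ≤ P.divisors.card := by
  exact_mod_cast Finset.card_le_card (Nat.divisors_subset_of_dvd hP h)

set_option maxHeartbeats 1000000 in
theorem p_dec (hsp : D_split) (ha : D_avsy) (hn : D_nsc) (hs : D_size) : D_dec := by
  intro F a b ha0 hF hF0 m c ε σ κ u hf hσ
  obtain ⟨c₁, c₂, c₃, c₄, C, hC, h1, h2, h3, h4, hsplit⟩ := hsp F a b ha0 hF hF0 σ hσ m c ε κ u hf
  refine ⟨C, hC, ?_⟩
  intro c₀ X y P Q R hc0 hX hy hp hPX
  obtain ⟨hPodd, hPle, hPd, hφ, hφ0, -⟩ := hs c₀ X y P Q R hc0 hX hy hp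
  obtain ⟨hP0, hR0, hRsf, hcop, hPRP, hPR0⟩ := dec_pat hp
  have hX0 : 0 < X := by linarith
  have hRodd : Odd R := hPodd.of_dvd_nat hp.hR
  set P₁ : ℕ := P / R with hP₁
  have hP₁odd : Odd P₁ := hPodd.of_dvd_nat hPRP
  set α : ℕ → ℕ → ℝ := fun e f => 1 / phP P * (eps Q e * ((ArithmeticFunction.moebius f : ℝ) / f))
    with hα
  set γ : ℕ × ℕ × ℕ → ℤ → ℝ := fun t k => α t.1 t.2.1 *
    ((if ((R * t.2.1 : ℕ) : ℤ) ∣ k then cI c₁ c₂ c₃ c₄ t.2.2 k else 0) * gg k (t.1 * P₁ ^ 2)) with hγ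
  set H : ℕ × ℕ × ℕ → ℝ := fun t => yI t.2.2 (X / ((R * t.2.1 : ℕ) : ℝ) ^ 2) /
    ((t.1 * P₁ ^ 2 : ℕ) : ℝ) with hH
  set T : Finset (ℕ × ℕ × ℕ) := P₁.divisors ×ˢ (R.divisors ×ˢ ({1, 2, 3, 4} : Finset ℕ)) with hT
  have hXc : 1 ≤ X ^ c₀ := Real.one_le_rpow hX.le hc0.le
  have hXc0 : 0 < X ^ c₀ := by linarith
  have hdP₁ : (P₁.divisors.card : ℝ) ≤ X ^ c₀ := (dec_dcard hPRP hP0).trans hPd
  have hdR : (R.divisors.card : ℝ) ≤ X ^ c₀ := (dec_dcard hp.hR hP0).trans hPd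
  -- bounds for one pair
  have hfacts : ∀ e ∈ P₁.divisors, ∀ f ∈ R.divisors,
      e ∣ P₁ ∧ f ∣ R ∧ 1 ≤ e ∧ 1 ≤ f ∧ Odd e ∧ (e.divisors.card : ℝ) ≤ X ^ c₀ := by
    intro e he f hf'
    have he' := Nat.dvd_of_mem_divisors he
    have hf'' := Nat.dvd_of_mem_divisors hf'
    refine ⟨he', hf'', Nat.pos_of_mem_divisors he, Nat.pos_of_mem_divisors hf',
      hP₁odd.of_dvd_nat he', ?_⟩
    exact (dec_dcard (he'.trans hPRP) hP0).trans hPd
  have hα1 : ∀ e f : ℕ, |α e f| ≤ X ^ c₀ := by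
    intro e f
    rw [hα]
    simp only
    rw [abs_mul, abs_mul, abs_div, abs_one, abs_of_pos hφ0, abs_div]
    have q1 : |eps Q e| ≤ 1 := by
      unfold eps
      exact dec_mu _
    have q2 : |(ArithmeticFunction.moebius f : ℝ)| / |(f : ℝ)| ≤ 1 := by
      rcases Nat.eq_zero_or_pos f with h0 | h0
      · subst h0; simp
      · have hf1 : (1 : ℝ) ≤ f := by exact_mod_cast h0
        rw [abs_of_pos (by linarith : (0 : ℝ) < f), div_le_one (by linarith)]
        exact (dec_mu f).trans hf1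
    calc 1 / phP P * (|eps Q e| * (|(ArithmeticFunction.moebius f : ℝ)| / |(f : ℝ)|))
        ≤ X ^ c₀ * (1 * 1) := by gcongr
      _ = _ := by ring
  have hdM : ∀ e ∈ P₁.divisors, ((e * P₁ ^ 2).divisors.card : ℝ) ≤ X ^ (3 * c₀) := by
    intro e he
    have he' := Nat.dvd_of_mem_divisors he
    have q1 : (e.divisors.card : ℝ) ≤ X ^ c₀ := (dec_dcard (he'.trans hPRP) hP0).trans hPd
    calc ((e * P₁ ^ 2).divisors.card : ℝ) ≤ e.divisors.card * (P₁ ^ 2).divisors.card := dec_sub _ _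
      _ ≤ e.divisors.card * (P₁.divisors.card * P₁.divisors.card) := by
          gcongr
          rw [sq]
          exact dec_sub _ _
      _ ≤ X ^ c₀ * (X ^ c₀ * X ^ c₀) := by gcongr
      _ = X ^ (3 * c₀) := by
          rw [← Real.rpow_add hX0, ← Real.rpow_add hX0]; congr 1; ring
  have hRf : ∀ f ∈ R.divisors, ((R * f : ℕ) : ℝ) ≤ X ^ (4 * c₀) ∧ (1 : ℝ) ≤ ((R * f : ℕ) : ℝ) := by
    intro f hf'
    have hf'' := Nat.dvd_of_mem_divisors hf'
    have q1 : (R : ℝ) ≤ X ^ (2 * c₀) := (dec_le hp.hR hP0).trans hPle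
    have q2 : (f : ℝ) ≤ X ^ (2 * c₀) := (dec_le (hf''.trans hp.hR) hP0).trans hPle
    constructor
    · push_cast
      calc (R : ℝ) * f ≤ X ^ (2 * c₀) * X ^ (2 * c₀) := by gcongr
        _ = _ := by rw [← Real.rpow_add hX0]; congr 1; ring
    · have : 1 ≤ R * f := Nat.mul_pos (Nat.pos_of_ne_zero hR0) (Nat.pos_of_mem_divisors hf')
      exact_mod_cast this
  have hM : ∀ e ∈ P₁.divisors, ((e * P₁ ^ 2 : ℕ) : ℝ) ≤ X ^ (6 * c₀) ∧
      (1 : ℝ) ≤ ((e * P₁ ^ 2 : ℕ) : ℝ) := by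
    intro e he
    have he' := Nat.dvd_of_mem_divisors he
    have q1 : (e : ℝ) ≤ X ^ (2 * c₀) := (dec_le (he'.trans hPRP) hP0).trans hPle
    have q2 : (P₁ : ℝ) ≤ X ^ (2 * c₀) := (dec_le hPRP hP0).trans hPle
    constructor
    · push_cast
      calc (e : ℝ) * P₁ ^ 2 ≤ X ^ (2 * c₀) * (X ^ (2 * c₀)) ^ 2 := by gcongr
        _ = _ := by
          rw [sq, ← Real.rpow_add hX0, ← Real.rpow_add hX0]; congr 1; ring
    · have : 1 ≤ e * P₁ ^ 2 := Nat.mul_pos (Nat.pos_of_mem_divisors he)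
        (Nat.pow_pos (Nat.pos_of_ne_zero hPR0))
      exact_mod_cast this
  refine ⟨T, γ, H, ?_, ?_, ?_⟩
  · rw [hT, card_product, card_product]
    have q : ({1, 2, 3, 4} : Finset ℕ).card = 4 := by decide
    rw [q]
    push_cast
    calc (P₁.divisors.card : ℝ) * (R.divisors.card * 4) ≤ X ^ c₀ * (X ^ c₀ * 4) := by gcongr
      _ = 4 * X ^ (2 * c₀) := by
        rw [two_mul, Real.rpow_add hX0]; ring
  · rintro ⟨e, f, i⟩ ht
    rw [hT, mem_product, mem_product] at ht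
    obtain ⟨he, hf', -⟩ := ht
    simp only at he hf'
    obtain ⟨q1, q2⟩ := hRf f hf'
    obtain ⟨q3, q4⟩ := hM e he
    have hz : 0 ≤ X / ((R * f : ℕ) : ℝ) ^ 2 := by positivity
    refine ⟨fun k => ?_, ?_, ?_⟩
    · show |α e f * ((if ((R * f : ℕ) : ℤ) ∣ k then cI c₁ c₂ c₃ c₄ i k else 0) *
        gg k (e * P₁ ^ 2))| ≤ _
      rw [abs_mul (α e f), abs_mul (ite _ _ _)]
      have q5 : |(if ((R * f : ℕ) : ℤ) ∣ k then cI c₁ c₂ c₃ c₄ i k else 0)| ≤ 2 := by
        split_ifs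
        · exact cI_le c₁ c₂ c₃ c₄ h1 h2 h3 h4 i k
        · norm_num
      have q6 : |gg k (e * P₁ ^ 2)| ≤ X ^ (3 * c₀) :=
        (dec_gg k _ (by exact_mod_cast q4)).trans (hdM e he)
      calc |α e f| * (|(if ((R * f : ℕ) : ℤ) ∣ k then cI c₁ c₂ c₃ c₄ i k else 0)| *
            |gg k (e * P₁ ^ 2)|) ≤ X ^ c₀ * (2 * X ^ (3 * c₀)) := by
            gcongr
            exact hα1 e f
        _ = 2 * X ^ (4 * c₀) := by
            have : X ^ (4 * c₀) = X ^ c₀ * X ^ (3 * c₀) := by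
              rw [← Real.rpow_add hX0]; congr 1; ring
            rw [this]; ring
    · rw [hH]
      simp only
      rw [← mul_div_assoc, le_div_iff₀ (by linarith)]
      have q7 : X / X ^ (8 * c₀) ≤ X / ((R * f : ℕ) : ℝ) ^ 2 := by
        have : ((R * f : ℕ) : ℝ) ^ 2 ≤ X ^ (8 * c₀) := by
          calc ((R * f : ℕ) : ℝ) ^ 2 ≤ (X ^ (4 * c₀)) ^ 2 := by gcongr
            _ = X ^ (8 * c₀) := by rw [sq, ← Real.rpow_add hX0]; congr 1; ring
        gcongr
      have q8 : X / X ^ (8 * c₀) = X ^ (1 - 8 * c₀) := by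
        rw [Real.rpow_sub hX0, Real.rpow_one]
      calc X ^ (1 - 17 * c₀) * ((e * P₁ ^ 2 : ℕ) : ℝ) ≤ X ^ (1 - 17 * c₀) * X ^ (6 * c₀) := by
            gcongr
        _ = X ^ (1 - 11 * c₀) := by rw [← Real.rpow_add hX0]; congr 1; ring
        _ ≤ X ^ (1 - 8 * c₀) := Real.rpow_le_rpow_of_exponent_le hX.le (by linarith)
        _ = X / X ^ (8 * c₀) := q8.symm
        _ ≤ X / ((R * f : ℕ) : ℝ) ^ 2 := q7
        _ ≤ _ := yI_ge i _ hz
    · rw [hH]
      simp only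
      have q9 : X / ((R * f : ℕ) : ℝ) ^ 2 ≤ X := div_le_self hX0.le (one_le_pow₀ q2)
      calc yI i (X / ((R * f : ℕ) : ℝ) ^ 2) / ((e * P₁ ^ 2 : ℕ) : ℝ)
          ≤ yI i (X / ((R * f : ℕ) : ℝ) ^ 2) := div_le_self (yI_nonneg i _ hz) q4
        _ ≤ 2 * (X / ((R * f : ℕ) : ℝ) ^ 2) := yI_le i _ hz
        _ ≤ 2 * X := by linarith
  · intro N hN
    have hN2 : Nat.Coprime N 2 := Nat.Coprime.coprime_dvd_right (Dvd.intro _ rfl) hN
    have hNP : Nat.Coprime N P := Nat.Coprime.coprime_dvd_right (Dvd.intro_left _ rfl) hN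
    have hNodd : Odd N := Nat.coprime_two_right.1 hN2
    have hN1 : 1 ≤ N := hNodd.pos
    have hNP₁ : Nat.Coprime N P₁ := Nat.Coprime.coprime_dvd_right hPRP hNP
    rw [ha F a b ha0 hF m c ε σ κ u hf hσ y P Q R hp X hX0 N hN]
    have e1 : 1 / phP P * ∑ e ∈ (P / R).divisors, ∑ f ∈ R.divisors,
        eps Q e * ((ArithmeticFunction.moebius f : ℝ) / f) *
          PRq F m c σ u (R * f) X (e * (P / R) ^ 2 * N) =
        ∑ e ∈ P₁.divisors, ∑ f ∈ R.divisors, α e f *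
          PRq F m c σ u (R * f) X (e * P₁ ^ 2 * N) := by
      rw [mul_sum]
      refine sum_congr rfl fun e _ => ?_
      rw [mul_sum]
      refine sum_congr rfl fun f _ => ?_
      rw [hα]; ring
    have e2 : MP F σ ε κ P Q R X N = ∑ e ∈ P₁.divisors, ∑ f ∈ R.divisors, α e f *
          MU F σ ε κ (X / (f : ℝ) ^ 2) (e * P₁ ^ 2 * N) := by
      unfold MP
      rw [mul_sum]
      refine sum_congr rfl fun e _ => ?_
      rw [mul_sum]
      refine sum_congr rfl fun f _ => ?_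
      rw [hα]; ring
    have e3 : ∑ t ∈ T, NSc F σ (γ t) (H t) N = ∑ e ∈ P₁.divisors, ∑ f ∈ R.divisors, α e f *
        (NSc F σ (fun k => if ((R * f : ℕ) : ℤ) ∣ k then c₁ k else 0)
          (X / ((R * f : ℕ) : ℝ) ^ 2 / 4) (e * P₁ ^ 2 * N) +
        NSc F σ (fun k => if ((R * f : ℕ) : ℤ) ∣ k then c₂ k else 0)
          (X / ((R * f : ℕ) : ℝ) ^ 2 / 2) (e * P₁ ^ 2 * N) +
        NSc F σ (fun k => if ((R * f : ℕ) : ℤ) ∣ k then c₃ k else 0)
          (2 * (X / ((R * f : ℕ) : ℝ) ^ 2)) (e * P₁ ^ 2 * N) +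
        NSc F σ (fun k => if ((R * f : ℕ) : ℤ) ∣ k then c₄ k else 0)
          (X / ((R * f : ℕ) : ℝ) ^ 2) (e * P₁ ^ 2 * N)) := by
      rw [hT, sum_product]
      refine sum_congr rfl fun e he => ?_
      rw [sum_product]
      refine sum_congr rfl fun f hf' => ?_
      obtain ⟨he', hf'', he1, hf1, heo, -⟩ := hfacts e he f hf'
      have hMo : Odd (e * P₁ ^ 2) := heo.mul hP₁odd.pow
      have hMN : Nat.Coprime (e * P₁ ^ 2) N :=
        Nat.Coprime.mul_left (Nat.Coprime.coprime_dvd_left he' hNP₁.symm)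
          (Nat.Coprime.pow_left 2 hNP₁.symm)
      have hterm : ∀ i : ℕ, NSc F σ (γ (e, f, i)) (H (e, f, i)) N = α e f *
          NSc F σ (fun k => if ((R * f : ℕ) : ℤ) ∣ k then cI c₁ c₂ c₃ c₄ i k else 0)
            (yI i (X / ((R * f : ℕ) : ℝ) ^ 2)) (e * P₁ ^ 2 * N) := by
        intro i
        rw [hn F σ _ _ (e * P₁ ^ 2) N hMo hNodd hMN]
        exact dec_smul F σ (α e f) (fun k =>
          (if ((R * f : ℕ) : ℤ) ∣ k then cI c₁ c₂ c₃ c₄ i k else 0) * gg k (e * P₁ ^ 2)) _ N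
      rw [sum_insert (by decide), sum_insert (by decide), sum_insert (by decide), sum_singleton,
        hterm, hterm, hterm, hterm]
      simp only [cI, yI, if_true, if_false, show (2 : ℕ) ≠ 1 from by norm_num,
        show (3 : ℕ) ≠ 1 from by norm_num, show (4 : ℕ) ≠ 1 from by norm_num,
        show (3 : ℕ) ≠ 2 from by norm_num, show (4 : ℕ) ≠ 2 from by norm_num,
        show (4 : ℕ) ≠ 3 from by norm_num]
      ring
    rw [e1, e2, e3, ← sum_add_distrib, ← sum_sub_distrib]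
    have hterm2 : ∀ e ∈ P₁.divisors, |(∑ f ∈ R.divisors, α e f *
          PRq F m c σ u (R * f) X (e * P₁ ^ 2 * N)) -
        ((∑ f ∈ R.divisors, α e f * MU F σ ε κ (X / (f : ℝ) ^ 2) (e * P₁ ^ 2 * N)) +
          ∑ f ∈ R.divisors, α e f *
        (NSc F σ (fun k => if ((R * f : ℕ) : ℤ) ∣ k then c₁ k else 0)
          (X / ((R * f : ℕ) : ℝ) ^ 2 / 4) (e * P₁ ^ 2 * N) +
        NSc F σ (fun k => if ((R * f : ℕ) : ℤ) ∣ k then c₂ k else 0)
          (X / ((R * f : ℕ) : ℝ) ^ 2 / 2) (e * P₁ ^ 2 * N) +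
        NSc F σ (fun k => if ((R * f : ℕ) : ℤ) ∣ k then c₃ k else 0)
          (2 * (X / ((R * f : ℕ) : ℝ) ^ 2)) (e * P₁ ^ 2 * N) +
        NSc F σ (fun k => if ((R * f : ℕ) : ℤ) ∣ k then c₄ k else 0)
          (X / ((R * f : ℕ) : ℝ) ^ 2) (e * P₁ ^ 2 * N)))| ≤
        X ^ c₀ * (X ^ c₀ * (C * X ^ (4 * c₀) * (X ^ (3 * c₀) * N.divisors.card) / X)) := by
      intro e he
      rw [← sum_add_distrib, ← sum_sub_distrib]
      refine (abs_sum_le_sum_abs _ _).trans ?_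
      calc _ ≤ ∑ f ∈ R.divisors, X ^ c₀ * (C * X ^ (4 * c₀) * (X ^ (3 * c₀) * N.divisors.card) / X) := by
            refine sum_le_sum fun f hf' => ?_
            obtain ⟨he', hf'', he1, hf1, heo, -⟩ := hfacts e he f hf'
            have hMNo : Odd (e * P₁ ^ 2 * N) := (heo.mul hP₁odd.pow).mul hNodd
            have hRM : Nat.Coprime R (e * P₁ ^ 2 * N) := by
              refine Nat.Coprime.mul_right (Nat.Coprime.mul_right ?_ ?_) ?_
              · exact Nat.Coprime.coprime_dvd_right he' hcop.symm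
              · exact Nat.Coprime.pow_right 2 hcop.symm
              · exact (Nat.Coprime.coprime_dvd_right hp.hR hNP).symm
            have hRX : (R : ℝ) ^ 2 ≤ X := by
              refine le_trans ?_ hPX
              have := dec_le hp.hR hP0
              gcongr
            have hb := hsplit R f (e * P₁ ^ 2 * N) hRodd hRsf hf'' hMNo hRM X hRX
            have hd : ((e * P₁ ^ 2 * N).divisors.card : ℝ) ≤ X ^ (3 * c₀) * N.divisors.card := by
              refine (dec_sub _ _).trans ?_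
              have := hdM e he
              gcongr
            have hRf' := (hRf f hf').1
            push_cast at hRf'
            rw [← mul_add, ← mul_sub, abs_mul]
            refine mul_le_mul (hα1 e f) ?_ (abs_nonneg _) hXc0.le
            refine le_trans (le_of_eq ?_) (hb.trans ?_)
            · congr 1
              ring
            · gcongr
        _ ≤ _ := by
            rw [sum_const, nsmul_eq_mul]
            gcongr
    refine (abs_sum_le_sum_abs _ _).trans ((sum_le_sum hterm2).trans ?_)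
    rw [sum_const, nsmul_eq_mul]
    have hpos : 0 ≤ X ^ c₀ * (X ^ c₀ * (C * X ^ (4 * c₀) * (X ^ (3 * c₀) * N.divisors.card) / X)) := by
      positivity
    calc (P₁.divisors.card : ℝ) *
          (X ^ c₀ * (X ^ c₀ * (C * X ^ (4 * c₀) * (X ^ (3 * c₀) * N.divisors.card) / X)))
        ≤ X ^ c₀ * (X ^ c₀ * (X ^ c₀ * (C * X ^ (4 * c₀) * (X ^ (3 * c₀) * N.divisors.card) / X))) := by
          gcongr
      _ = C * X ^ (10 * c₀ - 1) * N.divisors.card := by
          have q : X ^ (10 * c₀ - 1) = X ^ c₀ * X ^ c₀ * X ^ c₀ * X ^ (4 * c₀) * X ^ (3 * c₀) / X := by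
            rw [Real.rpow_sub hX0, Real.rpow_one, ← Real.rpow_add hX0, ← Real.rpow_add hX0,
              ← Real.rpow_add hX0, ← Real.rpow_add hX0]
            congr 2; ring
          rw [q]; ring
      _ ≤ _ := by
          have q : X ^ (10 * c₀ - 1) ≤ X ^ (12 * c₀ - 1) :=
            Real.rpow_le_rpow_of_exponent_le hX.le (by linarith)
          exact mul_le_mul_of_nonneg_right (mul_le_mul_of_nonneg_left q hC) (Nat.cast_nonneg _)

end Pool.Agent.MP0016c7.Rz
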