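import Mathlib
import Pool.Agent.Lib.MP_0016c7_nt.PS.Stm

set_option autoImplicit false

/-!
Dirichlet convolution and the shifts.
-/

open Finset MeasureTheory Filter Topology
open scoped Real ContDiff

namespace Pool.Agent.MP0016c7.Rz

private theorem dir_sum2 : Summable (fun m : ℕ => 1 / (m : ℝ) ^ 2) :=
  Real.summable_one_div_nat_pow.2 (by norm_num)

private theorem dir_summ {G : ℕ → ℝ} {K : ℝ} (hG : ∀ m, |G m| ≤ K * (1 / (m : ℝ) ^ 2))
    {c : ℕ → ℝ} (hc : ∀ n, |c n| ≤ 1) : Summable (fun m => c m * G m) := by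
  refine Summable.of_norm_bounded (dir_sum2.mul_left K) (fun m => ?_)
  rw [Real.norm_eq_abs, abs_mul]
  calc |c m| * |G m| ≤ 1 * (K * (1 / (m : ℝ) ^ 2)) :=
        mul_le_mul (hc m) (hG m) (abs_nonneg _) zero_le_one
    _ = _ := one_mul _

private theorem dir_G0 {G : ℕ → ℝ} {K : ℝ} (hG : ∀ m, |G m| ≤ K * (1 / (m : ℝ) ^ 2)) : G 0 = 0 := by
  have h := hG 0
  have e : K * (1 / ((0 : ℕ) : ℝ) ^ 2) = 0 := by simp
  rw [e] at h
  exact abs_eq_zero.1 (le_antisymm h (abs_nonneg _))

private theorem dir_mu (n : ℕ) : ∑ d ∈ n.divisors, (ArithmeticFunction.moebius d : ℝ) =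
    if n = 1 then 1 else 0 := by
  have h := congrArg (fun f : ArithmeticFunction ℤ => f n) ArithmeticFunction.moebius_mul_coe_zeta
  simp only [ArithmeticFunction.coe_mul_zeta_apply, ArithmeticFunction.one_apply] at h
  have h2 : ((∑ d ∈ n.divisors, ArithmeticFunction.moebius d : ℤ) : ℝ) =
      ((if n = 1 then 1 else 0 : ℤ) : ℝ) := by rw [h]
  push_cast at h2
  exact h2

private theorem dir_chi (χ : ℕ → ℝ) (hχ1 : χ 1 = 1) (hχm : ∀ m n, χ (m * n) = χ m * χ n)
    (B : Finset ℕ) (hB : ∀ p ∈ B, p.Prime) (hχB : ∀ p ∈ B, χ p = -1) :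
    ∀ b, b ∣ ∏ p ∈ B, p → χ b = (ArithmeticFunction.moebius b : ℝ) := by
  induction B using Finset.induction_on with
  | empty =>
    intro b hb
    rw [prod_empty, Nat.dvd_one] at hb
    rw [hb, hχ1]
    simp
  | insert p B hpB ih =>
    intro b hb
    have ih' := ih (fun q hq => hB q (mem_insert_of_mem hq)) (fun q hq => hχB q (mem_insert_of_mem hq))
    have hp := hB p (mem_insert_self p B)
    have hχp := hχB p (mem_insert_self p B)
    rw [prod_insert hpB] at hb
    by_cases hpb : p ∣ b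
    · obtain ⟨c, rfl⟩ := hpb
      have hc : c ∣ ∏ p ∈ B, p := Nat.dvd_of_mul_dvd_mul_left hp.pos hb
      have hpc : Nat.Coprime p c := by
        rw [Nat.Prime.coprime_iff_not_dvd hp]
        intro hd
        obtain ⟨q, hq, hpq⟩ := (Prime.dvd_finsetProd_iff hp.prime _).1 (hd.trans hc)
        have := (Nat.prime_dvd_prime_iff_eq hp (hB q (mem_insert_of_mem hq))).1 hpq
        exact hpB (this ▸ hq)
      rw [hχm, hχp, ih' c hc,
        ArithmeticFunction.isMultiplicative_moebius.map_mul_of_coprime hpc,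
        ArithmeticFunction.moebius_apply_prime hp]
      push_cast
      ring
    · have hcop : Nat.Coprime b p := ((Nat.Prime.coprime_iff_not_dvd hp).2 hpb).symm
      exact ih' b (hcop.dvd_of_dvd_mul_left hb)

private theorem dir_R {G : ℕ → ℝ} {K : ℝ} (hG : ∀ m, |G m| ≤ K * (1 / (m : ℝ) ^ 2))
    (χ : ℕ → ℝ) (hχm : ∀ m n, χ (m * n) = χ m * χ n) (hχb : ∀ n, |χ n| ≤ 1) (M : ℕ)
    (hM : Squarefree M) (hμ : ∀ b, b ∣ M → χ b = (ArithmeticFunction.moebius b : ℝ)) :
    ∑ b ∈ M.divisors, ∑' n : ℕ, χ n * G (b * n) =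
      ∑' m : ℕ, if Nat.Coprime m M then χ m * G m else 0 := by
  have hM0 : M ≠ 0 := hM.ne_zero
  have hG0 := dir_G0 hG
  have hs := dir_summ hG hχb
  have s1 : ∀ b ∈ M.divisors, ∑' n : ℕ, χ n * G (b * n) =
      ∑' m : ℕ, if b ∣ m then (ArithmeticFunction.moebius b : ℝ) * (χ m * G m) else 0 := by
    intro b hb
    have hbM := Nat.dvd_of_mem_divisors hb
    have hb0 : b ≠ 0 := by
      rintro rfl
      exact hM0 (zero_dvd_iff.1 hbM)
    have hsq : (ArithmeticFunction.moebius b : ℝ) * (ArithmeticFunction.moebius b : ℝ) = 1 := by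
      have h1 : Squarefree b := hM.squarefree_of_dvd hbM
      have h2 := ArithmeticFunction.moebius_sq_eq_one_of_squarefree h1
      have h3 : ((ArithmeticFunction.moebius b ^ 2 : ℤ) : ℝ) = 1 := by rw [h2]; norm_num
      push_cast at h3
      rw [← h3]; ring
    have hinj : Function.Injective (fun n : ℕ => b * n) := fun x y h =>
      Nat.eq_of_mul_eq_mul_left (Nat.pos_of_ne_zero hb0) h
    rw [← hinj.tsum_eq (f := fun m : ℕ => if b ∣ m then
      (ArithmeticFunction.moebius b : ℝ) * (χ m * G m) else 0)]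
    · refine tsum_congr fun n => ?_
      rw [if_pos (Dvd.intro n rfl), hχm, hμ b hbM]
      rw [show (ArithmeticFunction.moebius b : ℝ) * ((ArithmeticFunction.moebius b : ℝ) * χ n *
        G (b * n)) = ((ArithmeticFunction.moebius b : ℝ) * (ArithmeticFunction.moebius b : ℝ)) *
          (χ n * G (b * n)) by ring, hsq, one_mul]
    · intro m hm
      rw [Function.mem_support] at hm
      by_cases hd : b ∣ m
      · obtain ⟨n, rfl⟩ := hd
        exact ⟨n, rfl⟩
      · rw [if_neg hd] at hm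
        exact absurd rfl hm
  rw [sum_congr rfl s1, ← Summable.tsum_finsetSum]
  · refine tsum_congr fun m => ?_
    by_cases hm : m = 0
    · subst hm
      rw [hG0]
      simp
    · have e1 : ∑ b ∈ M.divisors, (if b ∣ m then (ArithmeticFunction.moebius b : ℝ) * (χ m * G m)
          else 0) = (∑ b ∈ (Nat.gcd m M).divisors, (ArithmeticFunction.moebius b : ℝ)) *
            (χ m * G m) := by
        rw [← sum_filter, sum_mul]
        refine sum_congr ?_ fun _ _ => rfl
        ext b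
        rw [mem_filter, Nat.mem_divisors, Nat.mem_divisors, Nat.dvd_gcd_iff]
        constructor
        · rintro ⟨⟨h1, _⟩, h2⟩
          exact ⟨⟨h2, h1⟩, fun h => hM0 (Nat.eq_zero_of_gcd_eq_zero_right h)⟩
        · rintro ⟨⟨h1, h2⟩, _⟩
          exact ⟨⟨h2, hM0⟩, h1⟩
      rw [e1, dir_mu]
      by_cases hc : Nat.Coprime m M
      · rw [if_pos hc, if_pos hc, one_mul]
      · rw [if_neg hc, if_neg hc, zero_mul]
  · intro b _
    refine Summable.of_norm_bounded hs.norm (fun m => ?_)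
    split_ifs
    · rw [norm_mul, Real.norm_eq_abs]
      have : |(ArithmeticFunction.moebius b : ℝ)| ≤ 1 := by
        have := ArithmeticFunction.abs_moebius_le_one (n := b)
        exact_mod_cast this
      calc |(ArithmeticFunction.moebius b : ℝ)| * ‖χ m * G m‖ ≤ 1 * ‖χ m * G m‖ :=
            mul_le_mul_of_nonneg_right this (norm_nonneg _)
        _ = _ := one_mul _
    · rw [norm_zero]; exact norm_nonneg _

private theorem dir_one (A : Finset ℕ) (χ : ℕ → ℝ) (hχ1 : χ 1 = 1)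
    (hχm : ∀ m n, χ (m * n) = χ m * χ n) (hχA : ∀ p ∈ A, χ p = 1) :
    ∀ m : ℕ, m ∈ Nat.factoredNumbers A → χ m = 1 := by
  intro m
  induction m using Nat.strong_induction_on with
  | _ m ih =>
    intro hm
    by_cases h1 : m = 1
    · rw [h1, hχ1]
    · have hp := Nat.minFac_prime h1
      obtain ⟨c, hc⟩ := Nat.minFac_dvd m
      have hm0 : m ≠ 0 := Nat.ne_zero_of_mem_factoredNumbers hm
      have hc0 : c ≠ 0 := by
        rintro rfl
        rw [mul_zero] at hc
        exact hm0 hc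
      have hcl : c < m := by
        rw [hc]
        exact lt_mul_of_one_lt_left (Nat.pos_of_ne_zero hc0) hp.one_lt
      have hpA : m.minFac ∈ A := Nat.mem_factoredNumbers'.1 hm _ hp (Nat.minFac_dvd m)
      have hcA : c ∈ Nat.factoredNumbers A :=
        Nat.mem_factoredNumbers_of_dvd hm ⟨m.minFac, by rw [mul_comm]; exact hc⟩
      rw [hc, hχm, hχA _ hpA, ih c hcl hcA, one_mul]

private theorem dir_L {G : ℕ → ℝ} {K : ℝ} (hG : ∀ m, |G m| ≤ K * (1 / (m : ℝ) ^ 2))
    (A : Finset ℕ) (χ : ℕ → ℝ) (hχ1 : χ 1 = 1) (hχm : ∀ m n, χ (m * n) = χ m * χ n)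
    (hχA : ∀ p ∈ A, χ p = 1) (W M : ℕ) (hAW : ∀ p ∈ A, p ∣ W) (hMW : ∀ p, p.Prime → p ∣ M → p ∣ W)
    (hAM : ∀ p ∈ A, ¬ p ∣ M)
    (hWp : ∀ p : ℕ, p.Prime → p ∣ W → p ∈ A ∨ p ∣ M ∨ χ p = 0) :
    ∑' q : ℕ × ℕ, (if q.1 ∈ Nat.factoredNumbers A ∧ Nat.Coprime q.2 W then
      χ q.2 * G (q.1 * q.2) else 0) = ∑' m : ℕ, if Nat.Coprime m M then χ m * G m else 0 := by
  have hG0 := dir_G0 hG
  have hone := dir_one A χ hχ1 hχm hχA
  symm
  have hmem : ∀ x : Function.support (fun q : ℕ × ℕ => if q.1 ∈ Nat.factoredNumbers A ∧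
      Nat.Coprime q.2 W then χ q.2 * G (q.1 * q.2) else 0),
      x.1.1 ∈ Nat.factoredNumbers A ∧ Nat.Coprime x.1.2 W ∧ x.1.2 ≠ 0 := by
    intro x
    have hx := x.2
    rw [Function.mem_support] at hx
    by_cases h : x.1.1 ∈ Nat.factoredNumbers A ∧ Nat.Coprime x.1.2 W
    · refine ⟨h.1, h.2, ?_⟩
      intro h0
      rw [if_pos h, h0, mul_zero, hG0, mul_zero] at hx
      exact hx rfl
    · rw [if_neg h] at hx
      exact absurd rfl hx
  have hcopA : ∀ a n : ℕ, a ∈ Nat.factoredNumbers A → Nat.Coprime n W → Nat.Coprime a n := by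
    intro a n ha hn
    refine Nat.coprime_of_dvd fun p hp hpa hpn => ?_
    have hpA := Nat.mem_factoredNumbers'.1 ha p hp hpa
    exact Nat.not_coprime_of_dvd_of_dvd hp.one_lt hpn (hAW p hpA) hn
  refine tsum_eq_tsum_of_ne_zero_bij (fun x => x.1.1 * x.1.2) ?_ ?_ ?_
  · intro x y hxy
    obtain ⟨hx1, hx2, hx0⟩ := hmem x
    obtain ⟨hy1, hy2, hy0⟩ := hmem y
    have hxy' : x.1.1 * x.1.2 = y.1.1 * y.1.2 := hxy
    have d1 : x.1.1 ∣ y.1.1 :=
      (hcopA _ _ hx1 hy2).dvd_of_dvd_mul_right (hxy' ▸ Dvd.intro _ rfl)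
    have d2 : y.1.1 ∣ x.1.1 :=
      (hcopA _ _ hy1 hx2).dvd_of_dvd_mul_right (hxy' ▸ Dvd.intro _ rfl)
    have e1 : x.1.1 = y.1.1 := Nat.dvd_antisymm d1 d2
    have e2 : x.1.2 = y.1.2 := by
      rw [e1] at hxy'
      exact Nat.eq_of_mul_eq_mul_left
        (Nat.pos_of_ne_zero (Nat.ne_zero_of_mem_factoredNumbers hy1)) hxy'
    exact Subtype.ext (Prod.ext e1 e2)
  · intro m hm
    rw [Function.mem_support] at hm
    by_cases hc : Nat.Coprime m M
    · rw [if_pos hc] at hm
      have hχ0 : χ m ≠ 0 := left_ne_zero_of_mul hm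
      have hGm : G m ≠ 0 := right_ne_zero_of_mul hm
      have hm0 : m ≠ 0 := by
        rintro rfl
        exact hGm hG0
      set n1 := (m.primeFactorsList.filter (· ∈ A)).prod with hn1
      set n2 := (m.primeFactorsList.filter (fun p => ¬ p ∈ A)).prod with hn2
      have hmul : n1 * n2 = m := by
        have h1 : m.primeFactorsList.prod = m := Nat.prod_primeFactorsList hm0
        rw [hn1, hn2, ← List.prod_append]
        have h2 : (m.primeFactorsList.filter (fun p => decide (p ∈ A)) ++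
            m.primeFactorsList.filter (fun p => !decide (p ∈ A))).Perm m.primeFactorsList :=
          List.filter_append_perm _ _
        have h3 := h2.prod_eq
        rw [h1] at h3
        have h4 : m.primeFactorsList.filter (fun p => decide (¬ p ∈ A)) =
            m.primeFactorsList.filter (fun p => !decide (p ∈ A)) := by
          apply List.filter_congr
          intro p _
          simp
        rw [h4]
        exact h3
      have hn1A : n1 ∈ Nat.factoredNumbers A := Nat.prod_mem_factoredNumbers A m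
      have hn2W : Nat.Coprime n2 W := by
        refine Nat.coprime_of_dvd fun p hp hpn hpW => ?_
        have hpl : p ∈ m.primeFactorsList.filter (fun p => ¬ p ∈ A) := by
          apply mem_list_primes_of_dvd_prod hp.prime _ hpn
          intro q hq
          exact (Nat.prime_of_mem_primeFactorsList (List.mem_of_mem_filter hq)).prime
        have hpA : p ∉ A := by
          have := List.of_mem_filter hpl
          simpa using this
        have hpm : p ∣ m := Nat.dvd_of_mem_primeFactorsList (List.mem_of_mem_filter hpl)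
        rcases hWp p hp hpW with h | h | h
        · exact hpA h
        · exact Nat.not_coprime_of_dvd_of_dvd hp.one_lt hpm h hc
        · obtain ⟨c, hc'⟩ := hpm
          rw [hc', hχm, h, zero_mul] at hχ0
          exact hχ0 rfl
      have hχn2 : χ n2 ≠ 0 := by
        intro h0
        rw [← hmul, hχm, h0, mul_zero] at hχ0
        exact hχ0 rfl
      refine ⟨⟨(n1, n2), ?_⟩, hmul⟩
      rw [Function.mem_support]
      show (if n1 ∈ Nat.factoredNumbers A ∧ Nat.Coprime n2 W then χ n2 * G (n1 * n2) else 0) ≠ 0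
      rw [if_pos ⟨hn1A, hn2W⟩, hmul]
      exact mul_ne_zero hχn2 hGm
    · rw [if_neg hc] at hm
      exact absurd rfl hm
  · intro x
    obtain ⟨hx1, hx2, hx0⟩ := hmem x
    have hcop : Nat.Coprime (x.1.1 * x.1.2) M := by
      refine Nat.Coprime.mul_left ?_ ?_
      · refine Nat.coprime_of_dvd fun p hp hpa hpM => ?_
        exact hAM p (Nat.mem_factoredNumbers'.1 hx1 p hp hpa) hpM
      · refine Nat.coprime_of_dvd fun p hp hpa hpM => ?_
        exact Nat.not_coprime_of_dvd_of_dvd hp.one_lt hpa (hMW p hp hpM) hx2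
    show (if Nat.Coprime (x.1.1 * x.1.2) M then χ (x.1.1 * x.1.2) * G (x.1.1 * x.1.2) else 0) =
      if x.1.1 ∈ Nat.factoredNumbers A ∧ Nat.Coprime x.1.2 W then
        χ x.1.2 * G (x.1.1 * x.1.2) else 0
    rw [if_pos hcop, if_pos ⟨hx1, hx2⟩, hχm, hone _ hx1, one_mul]

private theorem dir_summ2 {G : ℕ → ℝ} {K : ℝ} (hG : ∀ m, |G m| ≤ K * (1 / (m : ℝ) ^ 2))
    (hK : 0 ≤ K) (A : Finset ℕ) (χ : ℕ → ℝ) (hχb : ∀ n, |χ n| ≤ 1) (W : ℕ) :
    Summable (fun q : ℕ × ℕ => if q.1 ∈ Nat.factoredNumbers A ∧ Nat.Coprime q.2 W then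
      χ q.2 * G (q.1 * q.2) else 0) := by
  have h1 : Summable (fun q : ℕ × ℕ => (1 / (q.1 : ℝ) ^ 2) * (1 / (q.2 : ℝ) ^ 2)) :=
    dir_sum2.mul_of_nonneg dir_sum2 (fun _ => by positivity) (fun _ => by positivity)
  refine Summable.of_norm_bounded (h1.mul_left K) (fun q => ?_)
  have e : (1 / (q.1 : ℝ) ^ 2) * (1 / (q.2 : ℝ) ^ 2) = 1 / ((q.1 * q.2 : ℕ) : ℝ) ^ 2 := by
    push_cast
    rw [mul_pow, one_div_mul_one_div]
  rw [e]
  split_ifs
  · rw [Real.norm_eq_abs, abs_mul]
    calc |χ q.2| * |G (q.1 * q.2)| ≤ 1 * (K * (1 / ((q.1 * q.2 : ℕ) : ℝ) ^ 2)) :=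
          mul_le_mul (hχb _) (hG _) (abs_nonneg _) zero_le_one
      _ = _ := one_mul _
  · rw [norm_zero]
    positivity

private noncomputable def dirG (g : ℝ → ℝ) (L Y : ℝ) (m : ℕ) : ℝ :=
  1 / √(m : ℝ) * g (Y - Real.log m / L)

private theorem dir_bd (g : ℝ → ℝ) (L C Y : ℝ) (hL : 0 < L)
    (hg : ∀ Y, |g Y| ≤ C * Real.exp (2 * L * Y)) (m : ℕ) :
    |dirG g L Y m| ≤ C * Real.exp (2 * L * Y) * (1 / (m : ℝ) ^ 2) := by
  unfold dirG
  by_cases hm : m = 0
  · subst hm
    simp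
  · have hm1 : (1 : ℝ) ≤ m := by exact_mod_cast Nat.one_le_iff_ne_zero.2 hm
    have hmp : (0 : ℝ) < m := by linarith
    rw [abs_mul, abs_of_nonneg (by positivity)]
    have h1 : 1 / √(m : ℝ) ≤ 1 := by
      rw [div_le_one (Real.sqrt_pos.2 hmp)]
      exact Real.one_le_sqrt.2 hm1
    have h2 : Real.exp (2 * L * (Y - Real.log m / L)) = Real.exp (2 * L * Y) * (1 / (m : ℝ) ^ 2) := by
      have e1 : 2 * L * (Y - Real.log m / L) = 2 * L * Y - (2 : ℕ) * Real.log m := by
        push_cast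
        field_simp
      rw [e1, Real.exp_sub, Real.exp_nat_mul, Real.exp_log hmp, div_eq_mul_one_div]
    calc 1 / √(m : ℝ) * |g (Y - Real.log m / L)|
        ≤ 1 * (C * Real.exp (2 * L * (Y - Real.log m / L))) :=
          mul_le_mul h1 (hg _) (abs_nonneg _) zero_le_one
      _ = C * Real.exp (2 * L * Y) * (1 / (m : ℝ) ^ 2) := by rw [h2]; ring

/-- the terms, for `a, b ≠ 0` -/
private theorem dir_term (g : ℝ → ℝ) (L Y x : ℝ) (a b n : ℕ) (ha : a ≠ 0) :
    1 / √((a * b : ℕ) : ℝ) * (x / √(n : ℝ) *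
      g (Y - (Real.log a - Real.log b) / L - Real.log n / L)) =
    1 / √(b : ℝ) * (x * dirG g L (Y + Real.log b / L) (a * n)) := by
  unfold dirG
  by_cases hn : n = 0
  · subst hn
    simp
  · have hal : (a : ℝ) ≠ 0 := by exact_mod_cast ha
    have hnl : (n : ℝ) ≠ 0 := by exact_mod_cast hn
    have e1 : Y - (Real.log a - Real.log b) / L - Real.log n / L =
        Y + Real.log b / L - Real.log ((a * n : ℕ) : ℝ) / L := by
      push_cast
      rw [Real.log_mul hal hnl]
      ring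
    rw [e1]
    push_cast
    rw [Real.sqrt_mul (Nat.cast_nonneg a), Real.sqrt_mul (Nat.cast_nonneg a)]
    have k1 : √(a : ℝ) ≠ 0 := by
      rw [Real.sqrt_ne_zero']
      exact_mod_cast Nat.pos_of_ne_zero ha
    have k2 : √(n : ℝ) ≠ 0 := by
      rw [Real.sqrt_ne_zero']
      exact_mod_cast Nat.pos_of_ne_zero hn
    ring

theorem p_dir (hw : D_wS) : D_dir := by
  intro A B hA hB hAB χ hχ1 hχm hχb hχA hχB W hW hWp L C hL g hg Y
  set M := ∏ p ∈ B, p with hMdef
  have hMsf : Squarefree M := by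
    refine Finset.squarefree_prod_of_pairwise_isCoprime (fun p hp q hq hpq ↦ ?_)
      fun p hp ↦ (hB p hp).squarefree
    exact Nat.coprime_iff_isRelPrime.1 ((Nat.coprime_primes (hB p hp) (hB q hq)).2 hpq)
  have hM0 : M ≠ 0 := hMsf.ne_zero
  have hpM : ∀ p : ℕ, p.Prime → (p ∣ M ↔ p ∈ B) := by
    intro p hp
    constructor
    · intro h
      obtain ⟨q, hq, hpq⟩ := (Prime.dvd_finsetProd_iff hp.prime _).1 h
      rw [(Nat.prime_dvd_prime_iff_eq hp (hB q hq)).1 hpq]
      exact hq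
    · intro h
      exact dvd_prod_of_mem _ h
  have hC : 0 ≤ C := by
    have h1 := hg 0
    have h2 : 0 ≤ C * Real.exp (2 * L * 0) := (abs_nonneg _).trans h1
    rw [mul_zero, Real.exp_zero, mul_one] at h2
    exact h2
  have hμ := dir_chi χ hχ1 hχm B hB hχB
  set c : ℝ := (∏ p ∈ A, (1 - 1 / √(p : ℝ))) / (∏ p ∈ B, (1 + 1 / √(p : ℝ))) with hc
  -- the pair sums
  have hbd : ∀ b : ℕ, ∀ m : ℕ, |dirG g L (Y + Real.log b / L) m| ≤
      C * Real.exp (2 * L * (Y + Real.log b / L)) * (1 / (m : ℝ) ^ 2) :=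
    fun b m => dir_bd g L C _ hL hg m
  have hS2 : ∀ b : ℕ, Summable (fun q : ℕ × ℕ => if q.1 ∈ Nat.factoredNumbers A ∧
      Nat.Coprime q.2 W then χ q.2 * dirG g L (Y + Real.log b / L) (q.1 * q.2) else 0) :=
    fun b => dir_summ2 (hbd b) (by positivity) A χ hχb W
  have hLb : ∀ b : ℕ, ∑' q : ℕ × ℕ, (if q.1 ∈ Nat.factoredNumbers A ∧
      Nat.Coprime q.2 W then χ q.2 * dirG g L (Y + Real.log b / L) (q.1 * q.2) else 0) =
      ∑ b₁ ∈ M.divisors, ∑' n : ℕ, χ n * dirG g L (Y + Real.log b / L) (b₁ * n) := by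
    intro b
    rw [dir_R (hbd b) χ hχm hχb M hMsf hμ]
    refine dir_L (hbd b) A χ hχ1 hχm hχA W M ?_ ?_ ?_ ?_
    · intro p hp
      exact (hWp p (hA p hp)).2 (Or.inl hp)
    · intro p hp hpd
      exact (hWp p hp).2 (Or.inr (Or.inl ((hpM p hp).1 hpd)))
    · intro p hp hpd
      exact Finset.disjoint_left.1 hAB hp ((hpM p (hA p hp)).1 hpd)
    · intro p hp hpW
      rcases (hWp p hp).1 hpW with h | h | h
      · exact Or.inl h
      · exact Or.inr (Or.inl ((hpM p hp).2 h))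
      · exact Or.inr (Or.inr h.2)
  -- the left side
  unfold shf
  have hΦ : ∀ q : ℕ × ℕ, wS A B q * (∑' n : ℕ, if Nat.Coprime n W then
        χ n / √(n : ℝ) * g (Y - sS L q - Real.log n / L) else 0) =
      ∑ b ∈ M.divisors, if q.2 = b then c / √(b : ℝ) * ∑' n : ℕ,
        (if q.1 ∈ Nat.factoredNumbers A ∧ Nat.Coprime n W then
          χ n * dirG g L (Y + Real.log b / L) (q.1 * n) else 0) else 0 := by
    intro q
    rw [sum_ite_eq]
    unfold wS
    rw [← hc, ← hMdef]
    by_cases hq2 : q.2 ∣ M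
    · rw [if_pos (Nat.mem_divisors.2 ⟨hq2, hM0⟩)]
      by_cases hq1 : q.1 ∈ Nat.factoredNumbers A
      · rw [if_pos ⟨hq1, hq2⟩]
        have key : 1 / √((q.1 * q.2 : ℕ) : ℝ) * ∑' n : ℕ, (if Nat.Coprime n W then
              χ n / √(n : ℝ) * g (Y - sS L q - Real.log n / L) else 0) =
            1 / √(q.2 : ℝ) * ∑' n : ℕ, (if q.1 ∈ Nat.factoredNumbers A ∧ Nat.Coprime n W then
              χ n * dirG g L (Y + Real.log q.2 / L) (q.1 * n) else 0) := by
          rw [← tsum_mul_left, ← tsum_mul_left]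
          refine tsum_congr fun n => ?_
          by_cases hn : Nat.Coprime n W
          · rw [if_pos hn, if_pos ⟨hq1, hn⟩]
            unfold sS
            exact dir_term g L Y (χ n) q.1 q.2 n (Nat.ne_zero_of_mem_factoredNumbers hq1)
          · rw [if_neg hn, if_neg (fun h => hn h.2), mul_zero, mul_zero]
        rw [mul_assoc, key]
        ring
      · rw [if_neg (fun h => hq1 h.1), mul_zero, zero_mul]
        have : (fun n : ℕ => if q.1 ∈ Nat.factoredNumbers A ∧ Nat.Coprime n W then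
          χ n * dirG g L (Y + Real.log q.2 / L) (q.1 * n) else 0) = fun _ => 0 := by
          funext n
          exact if_neg (fun h => hq1 h.1)
        rw [this, tsum_zero, mul_zero]
    · rw [if_neg (fun h => hq2 (Nat.dvd_of_mem_divisors h)), if_neg (fun h => hq2 h.2), mul_zero,
        zero_mul]
  rw [tsum_congr hΦ]
  have hinj : ∀ b : ℕ, Function.Injective (fun a : ℕ => ((a, b) : ℕ × ℕ)) := fun b x y h =>
    (Prod.ext_iff.1 h).1
  have hΨs : ∀ b : ℕ, Summable (fun a : ℕ => c / √(b : ℝ) * ∑' n : ℕ,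
      (if a ∈ Nat.factoredNumbers A ∧ Nat.Coprime n W then
          χ n * dirG g L (Y + Real.log b / L) (a * n) else 0)) := fun b => (hS2 b).prod.mul_left (c / √(b : ℝ))
  have hΨ : ∀ b : ℕ, ∑' q : ℕ × ℕ, (if q.2 = b then c / √(b : ℝ) * ∑' n : ℕ,
        (if q.1 ∈ Nat.factoredNumbers A ∧ Nat.Coprime n W then
          χ n * dirG g L (Y + Real.log b / L) (q.1 * n) else 0) else 0) =
      c / √(b : ℝ) * ∑ b₁ ∈ M.divisors, ∑' n : ℕ,
        χ n * dirG g L (Y + Real.log b / L) (b₁ * n) := by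
    intro b
    refine ((hinj b).tsum_eq (f := fun q : ℕ × ℕ => if q.2 = b then c / √(b : ℝ) * ∑' n : ℕ,
        (if q.1 ∈ Nat.factoredNumbers A ∧ Nat.Coprime n W then
          χ n * dirG g L (Y + Real.log b / L) (q.1 * n) else 0) else 0) ?_).symm.trans ?_
    rotate_left
    · simp only [if_true]
      rw [tsum_mul_left, ← hLb b, (hS2 b).tsum_prod]
    · intro q hq
      rw [Function.mem_support] at hq
      by_cases h : q.2 = b
      · exact ⟨q.1, by rw [← h]⟩
      · rw [if_neg h] at hq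
        exact absurd rfl hq
  rw [Summable.tsum_finsetSum]
  · rw [sum_congr rfl fun b _ => hΨ b, sum_comm, mul_sum]
    refine sum_congr rfl fun b _ => ?_
    rw [mul_sum, mul_sum]
    refine sum_congr rfl fun b₁ hb₁ => ?_
    have hb0 : b₁ ≠ 0 := by
      rintro rfl
      exact hM0 (zero_dvd_iff.1 (Nat.dvd_of_mem_divisors hb₁))
    have key : 1 / √((b₁ * b : ℕ) : ℝ) * ∑' n : ℕ, χ n / √(n : ℝ) *
          g (Y - (Real.log b₁ - Real.log b) / L - Real.log n / L) =
        1 / √(b : ℝ) * ∑' n : ℕ, χ n * dirG g L (Y + Real.log b / L) (b₁ * n) := by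
      rw [← tsum_mul_left, ← tsum_mul_left]
      exact tsum_congr fun n => dir_term g L Y (χ n) b₁ b n hb0
    rw [key]
    ring
  · intro b _
    refine ((hinj b).summable_iff ?_).1 ?_
    · intro q hq
      by_cases h : q.2 = b
      · exact absurd ⟨q.1, by rw [← h]⟩ hq
      · exact if_neg h
    · have : ((fun q : ℕ × ℕ => if q.2 = b then c / √(b : ℝ) * ∑' n : ℕ,
        (if q.1 ∈ Nat.factoredNumbers A ∧ Nat.Coprime n W then
          χ n * dirG g L (Y + Real.log b / L) (q.1 * n) else 0) else 0) ∘ fun a : ℕ => (a, b)) =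
          fun a : ℕ => c / √(b : ℝ) * ∑' n : ℕ,
            (if a ∈ Nat.factoredNumbers A ∧ Nat.Coprime n W then
              χ n * dirG g L (Y + Real.log b / L) (a * n) else 0) := by
        funext a
        simp only [Function.comp_apply, if_true]
      rw [this]
      exact hΨs b

end Pool.Agent.MP0016c7.Rz
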