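import Mathlib
import Pool.Agent.Lib.MP_0016c7_nt.PS.Stm2
import Pool.Agent.Lib.MP_0016c7_nt.Rz.Nd6

set_option autoImplicit false

/-!
Prescribed splitting: uniform bounds for dyadic blocks, from the statements for sequences.
-/

open Finset MeasureTheory Filter Topology
open scoped Real ContDiff

namespace Pool.Agent.MP0016c7.Rz

private lemma dya_one (hfbs : D_fbs) {c₁ : ℝ} (hc₁ : 0 < c₁) (hc1 : c₁ ≤ 1 / 100)
    (H : ∀ (c₀ : ℝ) (X y : ℕ → ℝ) (P Q R : ℕ → ℕ), PSq c₀ X y P Q R → c₀ ≤ c₁ →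
    ∀ σ : ℤ, (σ = 1 ∨ σ = -1) → ∀ (m c ε : ℤ) (κ u : ℕ), FamP m c ε κ u →
    FamS (fun n => RP m c σ u (P n) (Q n) (R n)) (fun _ d => NZP κ σ d)
      (fun n => DP m (P n) (R n)) X (4999 / 10000) (1 / 100000))
    (σ : ℤ) (hσ : σ = 1 ∨ σ = -1) (m c ε : ℤ) (κ u : ℕ) (hf : FamP m c ε κ u) :
    ∃ T : ℝ, ∀ X : ℝ, T ≤ X → ∀ y : ℝ, T ≤ y → y ≤ c₁ * Real.log X → ∀ P Q R : ℕ, Pat y P Q R →
      DP m P R / 2 * X ≤
        (Nat.card {d : ℕ | X < d ∧ (d : ℝ) ≤ 2 * X ∧ RP m c σ u P Q R d ∧ Squarefree d} : ℝ) ∧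
      (Nat.card {d : ℕ | X < d ∧ (d : ℝ) ≤ 2 * X ∧ RP m c σ u P Q R d ∧ Squarefree d ∧
        ¬ NZP κ σ d} : ℝ) ≤
      12599 / 100000 *
        (Nat.card {d : ℕ | X < d ∧ (d : ℝ) ≤ 2 * X ∧ RP m c σ u P Q R d ∧ Squarefree d} : ℝ) := by
  by_contra hcon
  push Not at hcon
  have h1 : ∀ n : ℕ, ∃ (X y : ℝ) (P Q R : ℕ), ((n : ℝ) + 2 ≤ X ∧ (n : ℝ) + 2 ≤ y ∧
      y ≤ c₁ * Real.log X ∧ Pat y P Q R) ∧ ¬ (DP m P R / 2 * X ≤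
        (Nat.card {d : ℕ | X < d ∧ (d : ℝ) ≤ 2 * X ∧ RP m c σ u P Q R d ∧ Squarefree d} : ℝ) ∧
      (Nat.card {d : ℕ | X < d ∧ (d : ℝ) ≤ 2 * X ∧ RP m c σ u P Q R d ∧ Squarefree d ∧
        ¬ NZP κ σ d} : ℝ) ≤
      12599 / 100000 *
        (Nat.card {d : ℕ | X < d ∧ (d : ℝ) ≤ 2 * X ∧ RP m c σ u P Q R d ∧ Squarefree d} : ℝ)) := by
    intro n
    obtain ⟨X, hX, y, hy, hyX, P, Q, R, hp, hb⟩ := hcon ((n : ℝ) + 2)
    refine ⟨X, y, P, Q, R, ⟨hX, hy, hyX, hp⟩, ?_⟩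
    rintro ⟨h2, h3⟩
    exact absurd h3 (not_le.mpr (hb h2))
  choose X y P Q R h2 h3 using h1
  have hlim : Tendsto (fun n : ℕ => (n : ℝ) + 2) atTop atTop :=
    tendsto_atTop_add_const_right _ _ tendsto_natCast_atTop_atTop
  have hs : PSq c₁ X y P Q R :=
    ⟨hc₁, by linarith, fun n => by
      have := (h2 n).1
      have h0 : (0 : ℝ) ≤ n := Nat.cast_nonneg n
      linarith, tendsto_atTop_mono (fun n => (h2 n).1) hlim,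
      tendsto_atTop_mono (fun n => (h2 n).2.1) hlim, fun n => (h2 n).2.2.1, fun n => (h2 n).2.2.2⟩
  have hF := H c₁ X y P Q R hs le_rfl σ hσ m c ε κ u hf
  have hB := hfbs _ _ _ _ _ _ _ _ _ _ _ _ _ _ cert_num2 hF (12599 / 100000) (by norm_num)
  obtain ⟨n, hn⟩ := hB.exists
  exact h3 n hn

theorem p_dya (hfam : D_fam) (hfbs : D_fbs) : D_dya := by
  obtain ⟨c₂, hc₂, H⟩ := hfam (4999 / 10000) (1 / 100000) (by norm_num) (by norm_num)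
    (by norm_num) (by norm_num)
  have hc₁ : 0 < min c₂ (1 / 100) := lt_min hc₂ (by norm_num)
  have H' : ∀ (c₀ : ℝ) (X y : ℕ → ℝ) (P Q R : ℕ → ℕ), PSq c₀ X y P Q R → c₀ ≤ min c₂ (1 / 100) →
    ∀ σ : ℤ, (σ = 1 ∨ σ = -1) → ∀ (m c ε : ℤ) (κ u : ℕ), FamP m c ε κ u →
    FamS (fun n => RP m c σ u (P n) (Q n) (R n)) (fun _ d => NZP κ σ d)
      (fun n => DP m (P n) (R n)) X (4999 / 10000) (1 / 100000) :=
    fun c₀ X y P Q R hs hc => H c₀ X y P Q R hs (hc.trans (min_le_left _ _))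
  have key := dya_one hfbs hc₁ (min_le_right _ _) H'
  obtain ⟨A1, a1⟩ := key 1 (Or.inl rfl) 2 1 0 8 1 (Or.inl ⟨rfl, rfl, rfl, rfl, rfl⟩)
  obtain ⟨A2, a2⟩ := key 1 (Or.inl rfl) 8 1 1 1 2 (Or.inr (Or.inl ⟨rfl, rfl, rfl, rfl, rfl⟩))
  obtain ⟨A3, a3⟩ := key 1 (Or.inl rfl) 8 5 (-1) 1 2
    (Or.inr (Or.inr (Or.inl ⟨rfl, rfl, rfl, rfl, rfl⟩)))
  obtain ⟨A4, a4⟩ := key 1 (Or.inl rfl) 8 3 0 4 2
    (Or.inr (Or.inr (Or.inr (Or.inl ⟨rfl, rfl, rfl, rfl, rfl⟩))))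
  obtain ⟨A5, a5⟩ := key 1 (Or.inl rfl) 8 7 0 4 2
    (Or.inr (Or.inr (Or.inr (Or.inr ⟨rfl, rfl, rfl, rfl, rfl⟩))))
  obtain ⟨B1, b1⟩ := key (-1) (Or.inr rfl) 2 1 0 8 1 (Or.inl ⟨rfl, rfl, rfl, rfl, rfl⟩)
  obtain ⟨B2, b2⟩ := key (-1) (Or.inr rfl) 8 1 1 1 2 (Or.inr (Or.inl ⟨rfl, rfl, rfl, rfl, rfl⟩))
  obtain ⟨B3, b3⟩ := key (-1) (Or.inr rfl) 8 5 (-1) 1 2
    (Or.inr (Or.inr (Or.inl ⟨rfl, rfl, rfl, rfl, rfl⟩)))
  obtain ⟨B4, b4⟩ := key (-1) (Or.inr rfl) 8 3 0 4 2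
    (Or.inr (Or.inr (Or.inr (Or.inl ⟨rfl, rfl, rfl, rfl, rfl⟩))))
  obtain ⟨B5, b5⟩ := key (-1) (Or.inr rfl) 8 7 0 4 2
    (Or.inr (Or.inr (Or.inr (Or.inr ⟨rfl, rfl, rfl, rfl, rfl⟩))))
  obtain ⟨T, hT⟩ : ∃ T : ℝ, T = |A1| + |A2| + |A3| + |A4| + |A5| + |B1| + |B2| + |B3| + |B4| +
    |B5| := ⟨_, rfl⟩
  have t1 := abs_nonneg A1
  have t2 := abs_nonneg A2
  have t3 := abs_nonneg A3
  have t4 := abs_nonneg A4
  have t5 := abs_nonneg A5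
  have s1 := abs_nonneg B1
  have s2 := abs_nonneg B2
  have s3 := abs_nonneg B3
  have s4 := abs_nonneg B4
  have s5 := abs_nonneg B5
  have u1 := le_abs_self A1
  have u2 := le_abs_self A2
  have u3 := le_abs_self A3
  have u4 := le_abs_self A4
  have u5 := le_abs_self A5
  have v1 := le_abs_self B1
  have v2 := le_abs_self B2
  have v3 := le_abs_self B3
  have v4 := le_abs_self B4
  have v5 := le_abs_self B5
  refine ⟨min c₂ (1 / 100), hc₁, min_le_right _ _, T, T, ?_⟩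
  intro X hX y hy hyX P Q R hp σ hσ m c ε κ u hf
  rcases hσ with rfl | rfl
  · rcases hf with ⟨rfl, rfl, rfl, rfl, rfl⟩ | ⟨rfl, rfl, rfl, rfl, rfl⟩ |
      ⟨rfl, rfl, rfl, rfl, rfl⟩ | ⟨rfl, rfl, rfl, rfl, rfl⟩ | ⟨rfl, rfl, rfl, rfl, rfl⟩
    · exact a1 X (by linarith) y (by linarith) hyX P Q R hp
    · exact a2 X (by linarith) y (by linarith) hyX P Q R hp
    · exact a3 X (by linarith) y (by linarith) hyX P Q R hp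
    · exact a4 X (by linarith) y (by linarith) hyX P Q R hp
    · exact a5 X (by linarith) y (by linarith) hyX P Q R hp
  · rcases hf with ⟨rfl, rfl, rfl, rfl, rfl⟩ | ⟨rfl, rfl, rfl, rfl, rfl⟩ |
      ⟨rfl, rfl, rfl, rfl, rfl⟩ | ⟨rfl, rfl, rfl, rfl, rfl⟩ | ⟨rfl, rfl, rfl, rfl, rfl⟩
    · exact b1 X (by linarith) y (by linarith) hyX P Q R hp
    · exact b2 X (by linarith) y (by linarith) hyX P Q R hp
    · exact b3 X (by linarith) y (by linarith) hyX P Q R hp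
    · exact b4 X (by linarith) y (by linarith) hyX P Q R hp
    · exact b5 X (by linarith) y (by linarith) hyX P Q R hp

end Pool.Agent.MP0016c7.Rz
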