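import Mathlib
import Pool.Agent.Lib.MP_0016c7_nt.PS.Stm
import Pool.Agent.Lib.MP_0016c7_nt.Rz.LipWt
import Pool.Agent.Lib.MP_0016c7_nt.Rz2.SepWt
import Pool.Agent.Lib.MP_0016c7_nt.Rz2.ErrG2

set_option autoImplicit false

open Finset MeasureTheory Filter Topology
open scoped Real ContDiff

namespace Pool.Agent.MP0016c7.Rz

private theorem errW_lipmono {θ X C C' : ℝ} {W : ℕ → ℕ → ℝ} (h : LipW θ X C W) (hC : C ≤ C') :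
    LipW θ X C' W where
  bd := fun l n => (h.bd l n).trans hC
  lip := fun l m n hm hn => (h.lip l m n hm hn).trans
    (mul_le_mul_of_nonneg_right hC (abs_nonneg _))
  supp₁ := h.supp₁
  supp₂ := h.supp₂

private theorem errW_sepmono {B : ℕ} {C C' : ℝ} {W : ℕ → ℕ → ℝ} (h : SepW B C W) (hC : C ≤ C') :
    SepW B C' W := by
  obtain ⟨w, u, v, h1, h2, h3, h4, h5, h6, h7, h8⟩ := h
  exact ⟨w, u, v, h1, h2, h3, h4, h5, h6, h7.trans hC, h8⟩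

theorem p_errW (h : D_errU) : D_errW := by
  intro _ θ₁ δ hθ₁ hδ hθ
  obtain ⟨κ₀, η, hκ₀, hη, H⟩ := h (θ₁ + 3 * δ) (by positivity) hθ
  refine ⟨κ₀, η, hκ₀, hη, ?_⟩
  intro F a b ha hF σ hσ c₀ hc₀ ρ₁ ρ₂ g hρ₁ hρ₂ hg
  obtain ⟨B, HB⟩ := H F a b ha hF σ hσ
  obtain ⟨C₁, X₁, hC₁, H₁⟩ := lipW_Wt θ₁ δ hθ₁ hδ hθ c₀ hc₀ hρ₁ hg
  obtain ⟨C₂, X₂, hC₂, H₂⟩ := lipW_Wt θ₁ δ hθ₁ hδ hθ c₀ hc₀ hρ₂ hg
  obtain ⟨C₃, X₃, hC₃, H₃⟩ := sepW_Wt θ₁ δ hθ₁ hδ hθ c₀ hc₀ hρ₁ hg B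
  obtain ⟨C₄, X₄, hC₄, H₄⟩ := sepW_Wt θ₁ δ hθ₁ hδ hθ c₀ hc₀ hρ₂ hg B
  obtain ⟨C, hC⟩ : ∃ C : ℝ, C = C₁ + C₂ + C₃ + C₄ := ⟨_, rfl⟩
  have hCpos : 0 < C := by rw [hC]; linarith only [hC₁, hC₂, hC₃, hC₄]
  obtain ⟨X₅, H₅⟩ := HB C hCpos
  refine ⟨max X₁ (max X₂ (max X₃ (max X₄ X₅))), fun X hX r hr hrX Y₁ hY₁ Y₂ hY₂ c hc Y hYl hYu => ?_⟩
  have h1 : X₁ ≤ X := (le_max_left _ _).trans hX
  have hX' := (le_max_right _ _).trans hX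
  have h2 : X₂ ≤ X := (le_max_left _ _).trans hX'
  have hX'' := (le_max_right _ _).trans hX'
  have h3 : X₃ ≤ X := (le_max_left _ _).trans hX''
  have hX3 := (le_max_right _ _).trans hX''
  have h4 : X₄ ≤ X := (le_max_left _ _).trans hX3
  have h5 : X₅ ≤ X := (le_max_right _ _).trans hX3
  exact H₅ X h5 r hr hrX Y hYl hYu (Wt c₀ ρ₁ g X θ₁ δ Y₁) (Wt c₀ ρ₂ g X θ₁ δ Y₂)
    (errW_lipmono (H₁ X h1 Y₁ hY₁) (by rw [hC]; linarith only [hC₂, hC₃, hC₄]))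
    (errW_lipmono (H₂ X h2 Y₂ hY₂) (by rw [hC]; linarith only [hC₁, hC₃, hC₄]))
    (errW_sepmono (H₃ X h3 Y₁ hY₁) (by rw [hC]; linarith only [hC₁, hC₂, hC₄]))
    (errW_sepmono (H₄ X h4 Y₂ hY₂) (by rw [hC]; linarith only [hC₁, hC₂, hC₃])) c hc

end Pool.Agent.MP0016c7.Rz
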