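import Mathlib
import Pool.Agent.Lib.MP_0016c7_nt.PS.Stm2
import Pool.Agent.Lib.MP_0016c7_nt.Rz.Sm1
import Pool.Agent.Lib.MP_0016c7_nt.Rz2.YS1

set_option autoImplicit false

/-!
Prescribed splitting: the pattern families satisfy the hypotheses of the general framework.
-/

open Finset MeasureTheory Filter Topology
open scoped Real ContDiff

namespace Pool.Agent.MP0016c7.Rz

private lemma fam_mono {F : ℝ → ℝ} {a b a' b' : ℝ} (hF : Bump F a b) (h1 : a' ≤ a)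
    (h2 : b ≤ b') : Bump F a' b' :=
  ⟨hF.smooth, fun t ht => ⟨lt_of_le_of_lt h1 (hF.supp t ht).1, lt_of_lt_of_le (hF.supp t ht).2 h2⟩⟩

private lemma fam_deriv {ρ : ℝ → ℝ} {a b : ℝ} (h : Bump ρ a b) : Bump (deriv ρ) a b := by
  refine ⟨?_, ?_⟩
  · have := h.smooth
    exact (contDiff_infty_iff_deriv.mp this).2
  · intro t ht
    have h1 : t ∈ tsupport ρ := by
      have := support_deriv_subset (f := ρ) (Function.mem_support.mpr ht)
      exact this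
    by_contra hcon
    apply ht
    have hz : ∀ s : ℝ, s ≤ a ∨ b ≤ s → ρ s = 0 := by
      intro s hs
      by_contra h0
      have := h.supp s h0
      rcases hs with hs | hs <;> linarith [this.1, this.2]
    have h2 : t ≤ a ∨ b ≤ t := by
      by_contra h3
      push Not at h3
      exact hcon ⟨h3.1, h3.2⟩
    rcases h2 with h2 | h2
    · have hd := (h.smooth.differentiable (by simp)).differentiableAt (x := t)
      have e : HasDerivWithinAt ρ (deriv ρ t) (Set.Iic t) t := hd.hasDerivAt.hasDerivWithinAt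
      have e2 : HasDerivWithinAt ρ 0 (Set.Iic t) t := by
        refine (hasDerivWithinAt_const t (Set.Iic t) (0 : ℝ)).congr ?_ ?_
        · intro s hs
          exact hz s (Or.inl (le_trans hs h2))
        · exact hz t (Or.inl h2)
      exact (uniqueDiffWithinAt_Iic t).eq_deriv _ e e2
    · have hd := (h.smooth.differentiable (by simp)).differentiableAt (x := t)
      have e : HasDerivWithinAt ρ (deriv ρ t) (Set.Ici t) t := hd.hasDerivAt.hasDerivWithinAt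
      have e2 : HasDerivWithinAt ρ 0 (Set.Ici t) t := by
        refine (hasDerivWithinAt_const t (Set.Ici t) (0 : ℝ)).congr ?_ ?_
        · intro s hs
          exact hz s (Or.inr (le_trans h2 hs))
        · exact hz t (Or.inr h2)
      exact (uniqueDiffWithinAt_Ici t).eq_deriv _ e e2

private lemma fam_HH {h : ℝ → ℝ} {a θ : ℝ} (hh : Bump h a θ) {t : ℝ} (ht : t ≤ a) :
    HH h t = ∫ x, h x := by
  unfold HH
  refine setIntegral_eq_integral_of_forall_compl_eq_zero fun x hx => ?_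
  by_contra hne
  have := (hh.supp x hne).1
  exact hx (lt_of_le_of_lt ht this)

private lemma fam_m {m c ε : ℤ} {κ u : ℕ} (hf : FamP m c ε κ u) : m = 2 ∨ m = 8 := by
  rcases hf with ⟨h, _⟩ | ⟨h, _⟩ | ⟨h, _⟩ | ⟨h, _⟩ | ⟨h, _⟩ <;> simp [h]

private lemma fam_κ {m c ε : ℤ} {κ u : ℕ} (hf : FamP m c ε κ u) : κ = 1 ∨ κ = 4 ∨ κ = 8 := by
  rcases hf with ⟨_, _, _, h, _⟩ | ⟨_, _, _, h, _⟩ | ⟨_, _, _, h, _⟩ | ⟨_, _, _, h, _⟩ |
    ⟨_, _, _, h, _⟩ <;> simp [h]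

/-- Transport of a bound for large `X` to a sequence. -/
private lemma fam_ev {X : ℕ → ℝ} (lim : Tendsto X atTop atTop) {S : ℝ → Prop}
    (h : ∃ X₀ : ℝ, ∀ X : ℝ, X₀ ≤ X → S X) : ∀ᶠ n in atTop, S (X n) := by
  obtain ⟨X₀, h⟩ := h
  exact (lim.eventually_ge_atTop X₀).mono fun n hn => h _ hn

theorem p_fam [QlsHyp] (h2b : D_m2b) (h1b : D_m1b) (hm2s : D_m2s) (hm1s : D_m1s) (hper : D_per)
    (hbad : D_bad) (hzero : D_zero) (hsqf : D_sqf) (hwSl : D_wSl) (hshc : D_shc) (hshd : D_shd)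
    (hybc : D_ybc) (hsize : D_size) : D_fam := by
  intro θ₀ δ hθ₀ hδ hδ1 hlen
  obtain ⟨c₁, hc₁0, hc₁1, H2⟩ := h2b (5 * δ / 4) (θ₀ + 3 * δ) (by linarith) (by linarith)
    (by linarith) (by linarith)
  refine ⟨min c₁ (δ / 96), lt_min hc₁0 (by linarith), ?_⟩
  intro c₀ X y P Q R hs hc₀ σ hσ m c ε κ u hf
  have hc₀1 : c₀ ≤ c₁ := hc₀.trans (min_le_left _ _)
  have hc₀2 : 3 * c₀ ≤ δ / 32 := by
    have := hc₀.trans (min_le_right _ _)
    linarith
  have hc₀3 : c₀ ≤ 1 / 100 := hc₀1.trans hc₁1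
  have hc₀0 := hs.c0
  have hD : ∀ n, 0 < DP m (P n) (R n) := fun n =>
    ((hsize c₀ (X n) (y n) (P n) (Q n) (R n) hs.c0 (hs.one n) (hs.le n) (hs.pat n)).2.2.2.2.2 m
      (fam_m hf)).1
  have hlog : ∀ n, 0 < Real.log (X n) := fun n => Real.log_pos (hs.one n)
  have hyz : ∀ n, y n ≤ 1 / 100 * Real.log (X n) := fun n =>
    (hs.le n).trans (mul_le_mul_of_nonneg_right hc₀3 (hlog n).le)
  -- zero moment
  have hZ : ∀ (F : ℝ → ℝ) (a b : ℝ), 0 < a → Bump F a b → 0 < ∫ t, F t → ∀ ε' : ℝ, 0 < ε' →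
      ∀ᶠ n in atTop, |avP m c σ u (P n) (Q n) (R n) F (X n) (fun _ => 1) - ∫ t, F t| ≤ ε' := by
    intro F a b ha hF hF0 ε' hε'
    obtain ⟨X₀, h⟩ := hzero F a b ha hF hF0 σ hσ m c ε κ u hf ε' hε'
    refine (hs.lim.eventually_ge_atTop X₀).mono fun n hn => ?_
    refine h (X n) hn (y n) (P n) (Q n) (R n) (hyz n) (hs.pat n) (X n) ?_
    calc (X n) ^ (1 / 2 : ℝ) ≤ (X n) ^ (1 : ℝ) :=
          Real.rpow_le_rpow_of_exponent_le (hs.one n).le (by norm_num)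
      _ = X n := Real.rpow_one _
  have hDens : DensS (fun n => RP m c σ u (P n) (Q n) (R n)) (fun n => DP m (P n) (R n)) X := by
    intro F hF hFn hF0 ε' hε'
    exact hZ F (1 / 2) 4 (by norm_num) hF hF0 ε' hε'
  obtain ⟨hwl, hpA, hpB, hlow⟩ := hwSl c₀ X y P Q R hs ε
  have hq : ShQ X (3 * c₀) (fun n => setA ε (P n) (Q n) (R n)) (fun n => setB ε (Q n)) :=
    ⟨hpA, hpB, hwl, hlow⟩
  refine ⟨hs.one, hs.lim, hD, hDens, hsqf c₀ X y P Q R hs hc₀3 σ hσ m c ε κ u hf, ?_⟩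
  intro ρ h hρ hρn hρe hρ1 hh hhn hHpos hHle
  have hh0 : Bump h 0 (θ₀ + 3 * δ) := fam_mono hh (by linarith) le_rfl
  have hρ' : Bump ρ (-(5 * δ / 4 / 2)) (5 * δ / 4 / 2) := fam_mono hρ (by linarith) (by linarith)
  have hdρ : Bump (deriv ρ) (-(δ / 2)) (δ / 2) := fam_deriv hρ
  have hdρ' : Bump (deriv ρ) (-(5 * δ / 4 / 2)) (5 * δ / 4 / 2) :=
    fam_mono hdρ (by linarith) (by linarith)
  obtain ⟨c', hc'⟩ : ∃ c' : ℝ, c' = if σ = 1 then 0 else 1 := ⟨_, rfl⟩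
  have hc01 : c' = 0 ∨ c' = 1 := by
    rw [hc']; split_ifs
    · exact Or.inl rfl
    · exact Or.inr rfl
  -- properties of the base process
  have base : ∀ η : ℝ → ℝ, Bump η (-(δ / 2)) (δ / 2) →
      (∀ n d, Continuous (yB c' σ u (P n) η h (X n) d)) ∧
      (∀ n, ∀ Y₀ : ℝ, ∃ C : ℝ, ∀ d, ∀ Y ≤ Y₀, |yB c' σ u (P n) η h (X n) d Y| ≤ C) ∧
      (∀ᶠ n in atTop, ∀ d, ∀ Y ≤ -1, |yB c' σ u (P n) η h (X n) d Y| ≤ X n ^ (-30 : ℝ)) ∧
      (∀ᶠ n in atTop, ∀ d, ∀ Y ∈ Set.Icc (-1 : ℝ) (1 / 2 + δ + 3 * c₀),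
        |yB c' σ u (P n) η h (X n) d Y| ≤ X n ^ 21) := by
    intro η hη
    refine ⟨fun n d => (hybc δ (θ₀ + 3 * δ) hδ η h hη hh0 c' hc01 σ u (P n) (X n)
      (hs.one n)).1 d, ?_, ?_, ?_⟩
    · intro n Y₀
      obtain ⟨C, hC⟩ := (hybc δ (θ₀ + 3 * δ) hδ η h hη hh0 c' hc01 σ u (P n) (X n)
        (hs.one n)).2.2
      refine ⟨|C| * Real.exp (2 * Real.log (X n) * Y₀), fun d Y hY => (hC d Y).trans ?_⟩
      have h1 : Real.exp (2 * Real.log (X n) * Y) ≤ Real.exp (2 * Real.log (X n) * Y₀) := by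
        apply Real.exp_le_exp.mpr
        exact mul_le_mul_of_nonneg_left hY (by linarith [hlog n])
      exact mul_le_mul (le_abs_self C) h1 (Real.exp_pos _).le (abs_nonneg _)
    · have h1 := ytil_small (ρ := η) (h := h) (δ := δ) (θ := θ₀ + 3 * δ) hδ (by linarith)
        (by linarith) hη hh0 c' hc01 σ
      refine (fam_ev hs.lim h1).mono fun n hn d Y hY => ?_
      exact hn Y hY _
    · have h1 := ytil_trunc (ρ := η) (h := h) (δ := 5 * δ / 4) (θ := θ₀ + 3 * δ) (by linarith)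
        (by linarith) (by linarith) (fam_mono hη (by linarith) (by linarith)) hh0 c' hc01 σ
      refine (fam_ev hs.lim h1).mono fun n hn d Y hY => ?_
      have h2 := (hn Y ⟨hY.1, by linarith [hY.2]⟩ (u * (P n ^ 2 * d))).1
      refine h2.trans ?_
      exact pow_le_pow_right₀ (hs.one n).le (by norm_num)
  -- second moments
  have M2 : ∀ η : ℝ → ℝ, Bump η (-(δ / 2)) (δ / 2) →
      Mom2S (fun n => RP m c σ u (P n) (Q n) (R n)) (fun n => DP m (P n) (R n)) X δ η η h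
        (fun n d => yP c' ε σ u (P n) (Q n) (R n) η h (X n) d)
        (fun n d => yP c' ε σ u (P n) (Q n) (R n) η h (X n) d) := by
    intro η hη
    obtain ⟨b1, b2, b3, b4⟩ := base η hη
    have hη' : Bump η (-(5 * δ / 4 / 2)) (5 * δ / 4 / 2) :=
      fam_mono hη (by linarith) (by linarith)
    refine hm2s (fun n => RP m c σ u (P n) (Q n) (R n)) (fun n => DP m (P n) (R n)) X hs.one hs.lim
      hD hDens δ (3 * c₀) hδ (by linarith) (by linarith) _ _ hq η η h hη hη (θ₀ + 3 * δ) hh0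
      (fun n d => yB c' σ u (P n) η h (X n) d) (fun n d => yB c' σ u (P n) η h (X n) d)
      b1 b1 b2 b2 b3 b3 b4 b4 ?_
    intro F hF hFn hF0 ε' hε'
    have h1 := H2 c₀ X y P Q R hs hc₀1 F (1 / 2) 4 (by norm_num) hF hF0 σ hσ m c ε κ u hf c' hc01
      η η h hη' hη' hh0 ε' hε'
    refine h1.mono fun n hn Y₁ hY₁ Y₂ hY₂ => ?_
    exact hn Y₁ ⟨hY₁.1, by linarith [hY₁.2]⟩ Y₂ ⟨hY₂.1, by linarith [hY₂.2]⟩
  obtain ⟨b1, b2, b3, b4⟩ := base ρ hρ
  obtain ⟨d1, d2, d3, d4⟩ := base (deriv ρ) hdρ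
  have hb : ∀ η : ℝ → ℝ, Bump η (-(δ / 2)) (δ / 2) → ∀ n d, ∀ Y₀ : ℝ, ∃ C : ℝ, ∀ Y ≤ Y₀,
      |yB c' σ u (P n) η h (X n) d Y| ≤ C := by
    intro η hη n d Y₀
    obtain ⟨C, hC⟩ := (base η hη).2.1 n Y₀
    exact ⟨C, fun Y hY => hC d Y hY⟩
  have hcont : ∀ n d, Continuous (yP c' ε σ u (P n) (Q n) (R n) ρ h (X n) d) := fun n d =>
    (hshc _ _ (hpA n) (hpB n) (Real.log (X n)) (hlog n) _ (b1 n d) (hb ρ hρ n d)).2.1
  have hcont' : ∀ n d, Continuous (yP c' ε σ u (P n) (Q n) (R n) (deriv ρ) h (X n) d) :=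
    fun n d => (hshc _ _ (hpA n) (hpB n) (Real.log (X n)) (hlog n) _ (d1 n d)
      (hb (deriv ρ) hdρ n d)).2.1
  refine ⟨fun n d => yP c' ε σ u (P n) (Q n) (R n) ρ h (X n) d,
    fun n d v => yP c' ε σ u (P n) (Q n) (R n) ρ h (X n) d
      (Real.log (κ * d) / (2 * Real.log (X n)) - v), hcont,
    fun n d => (hcont n d).comp (by fun_prop), ?_, M2 ρ hρ, ?_, ?_⟩
  · -- first moment
    refine hm1s (fun n => RP m c σ u (P n) (Q n) (R n)) (fun n => DP m (P n) (R n)) X hs.one hs.lim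
      hD hDens δ (3 * c₀) hδ (by linarith) (by linarith) _ _ hq ρ h hρ (θ₀ + 3 * δ) hh0
      (fun n d => yB c' σ u (P n) ρ h (X n) d) b1 b2 b3 ?_
    intro F hF hFn hF0 ε' hε'
    have h1 := h1b (5 * δ / 4) (θ₀ + 3 * δ) (by linarith) (by linarith) (by linarith)
      (by linarith) c₀ X y P Q R hs F (1 / 2) 4 (by norm_num) hF hFn hF0 σ m c ε κ u hf c' hc01
      ρ h hρ' hρ1 hh0 (fun t ht => (fam_HH hh (by linarith)).trans (fam_HH hh (by linarith)).symm)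
      hHpos (hZ F (1 / 2) 4 (by norm_num) hF hF0)
      (fun ε'' hε'' => H2 c₀ X y P Q R hs hc₀1 F (1 / 2) 4 (by norm_num) hF hF0 σ hσ m c ε κ u hf
        c' hc01 ρ ρ h hρ' hρ' hh0 ε'' hε'') ε' hε'
    refine h1.mono fun n hn Y hY => ?_
    exact hn Y ⟨hY.1, by linarith [hY.2]⟩
  · -- the shift
    refine hper (fun n => RP m c σ u (P n) (Q n) (R n)) (fun n => DP m (P n) (R n)) X hs.one hs.lim
      hD δ hδ (by linarith) ρ h hρ (θ₀ + 3 * δ) hh0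
      (fun n d => yP c' ε σ u (P n) (Q n) (R n) ρ h (X n) d)
      (fun n d => yP c' ε σ u (P n) (Q n) (R n) (deriv ρ) h (X n) d) hcont' ?_
      (M2 (deriv ρ) hdρ) κ (fam_κ hf)
    intro n d Y
    exact hshd _ _ (hpA n) (hpB n) (Real.log (X n)) (hlog n) _ _ (d1 n d)
      ((hybc δ (θ₀ + 3 * δ) hδ ρ h hρ hh0 c' hc01 σ u (P n) (X n) (hs.one n)).2.1 d)
      (hb ρ hρ n d) (hb (deriv ρ) hdρ n d) Y
  · -- the relation at a zero
    have h1 := hbad c₀ X y P Q R hs σ hσ m c ε κ u hf ρ h δ θ₀ hδ hδ1 hc₀2 hθ₀ (by linarith) hρ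
      hρn hρe hρ1 hh hhn hHle
    rw [← hc'] at h1
    exact h1

end Pool.Agent.MP0016c7.Rz
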