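import Mathlib
import Pool.Agent.Lib.MP_0016c7_nt.PS.Stm2
import Pool.Agent.Lib.MP_0016c7_nt.PS.FbS

set_option autoImplicit false

/-!
[PS fbs] The bound for a sequence of families (section G, `fam_boundS`).
-/

open Finset MeasureTheory Filter Topology
open scoped Real ContDiff

namespace Pool.Agent.MP0016c7.Rz

theorem p_fbs : D_fbs := by
  intro Rc NZ D X θ₀ δ μ E w u₁ u₂ y g₁ g₂ hC hf E' hE'
  exact fam_boundS hC hf E' hE'

end Pool.Agent.MP0016c7.Rz
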