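import Mathlib
import Pool.Agent.Lib.MP_0016c7_nt.PS.Stm2
import Pool.Agent.Lib.MP_0016c7_nt.Rz.U7

set_option autoImplicit false

/-!
Prescribed splitting: all primitive quadratic characters.
-/

open Finset MeasureTheory Filter Topology
open scoped Real ContDiff

namespace Pool.Agent.MP0016c7.Rz

private lemma fin_gcd_odd {d : ℕ} (h : Odd d) : Nat.gcd d 8 = 1 := by
  have : Nat.Coprime d (2 ^ 3) := Nat.Coprime.pow_right 3 ((Nat.coprime_two_right (n := d)).2 h)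
  exact this

private lemma fin_gcd_four {d : ℕ} (h : Odd d) : Nat.gcd (4 * d) 8 = 4 := by
  have h2 : Nat.gcd d 2 = 1 := (Nat.coprime_two_right (n := d)).2 h
  have : Nat.gcd (4 * d) (4 * 2) = 4 * Nat.gcd d 2 := Nat.gcd_mul_left 4 d 2
  rw [h2] at this
  exact this

private lemma fin_gcd_eight (d : ℕ) : Nat.gcd (8 * d) 8 = 8 := by
  have : Nat.gcd (8 * d) (8 * 1) = 8 * Nat.gcd d 1 := Nat.gcd_mul_left 8 d 1
  rw [Nat.gcd_one_right] at this
  exact this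

private lemma fin_two_nonunit {q : ℕ} (h : 2 ∣ q) (χ : DirichletCharacter ℂ q) : χ 2 = 0 := by
  apply χ.map_nonunit
  intro hu
  have h1 : ((2 : ℕ) : ZMod q) = 2 := by norm_num
  rw [← h1, ZMod.isUnit_iff_coprime] at hu
  have := Nat.dvd_gcd (dvd_refl 2) h
  rw [Nat.Coprime] at hu
  rw [hu] at this
  omega

private lemma fin_lev {Q : ℕ} {x : (q : ℕ) × DirichletCharacter ℂ q} (hx : x ∈ PQ Q) :
    (Nat.gcd x.1 8 = 1 ∧ Odd x.1 ∧ Squarefree x.1 ∧ 1 < x.1) ∨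
    (Nat.gcd x.1 8 = 4 ∧ ∃ d : ℕ, Odd d ∧ Squarefree d ∧ x.1 = 4 * d) ∨
    (Nat.gcd x.1 8 = 8 ∧ ∃ d : ℕ, Odd d ∧ Squarefree d ∧ x.1 = 8 * d) := by
  have : NeZero x.1 := ⟨hx.1.1.ne'⟩
  rcases prim_quad_level x.2 hx.2.1 hx.2.2.1 hx.2.2.2 with h1 | ⟨d, h1, h2, h3⟩ | ⟨d, h1, h2, h3⟩
  · exact Or.inl ⟨fin_gcd_odd h1.1, h1⟩
  · exact Or.inr (Or.inl ⟨by rw [h3]; exact fin_gcd_four h1, d, h1, h2, h3⟩)
  · exact Or.inr (Or.inr ⟨by rw [h3]; exact fin_gcd_eight d, d, h1, h2, h3⟩)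

private lemma fin_par_val {q : ℕ} {χ : DirichletCharacter ℂ q} {σ : ℤ}
    (h : (σ = 1 ∧ χ.Even) ∨ (σ = -1 ∧ χ.Odd)) : χ (-1) = (σ : ℂ) := by
  rcases h with ⟨h, h'⟩ | ⟨h, h'⟩
  · rw [h, h']; simp
  · rw [h, h']; simp

private lemma fin_Rf4_exists {d : ℕ} (hd : Odd d) (_hs : Squarefree d) :
    ∃ σ : ℤ, (σ = 1 ∨ σ = -1) ∧ (σ * d) % 4 = 3 := by
  obtain ⟨k, hk⟩ := hd
  have h4 : d % 4 = 1 ∨ d % 4 = 3 := by omega
  rcases h4 with h4 | h4
  · exact ⟨-1, Or.inr rfl, by omega⟩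
  · exact ⟨1, Or.inl rfl, by omega⟩

private lemma fin_f41 : Fam 4 3 0 4 := Or.inl ⟨rfl, rfl, rfl, rfl⟩
private lemma fin_f42 : Fam 8 1 1 1 := Or.inr (Or.inl ⟨rfl, rfl, rfl, rfl⟩)
private lemma fin_f43 : Fam 8 5 (-1) 1 := Or.inr (Or.inr ⟨rfl, rfl, rfl, rfl⟩)

private lemma fin_classB_info {Q : ℕ} {x : (q : ℕ) × DirichletCharacter ℂ q} (hx : x ∈ PQ Q) {d : ℕ}
    (hd : Odd d) (hs : Squarefree d) (hq : x.1 = 4 * d) :
    ∃ σ : ℤ, (σ = 1 ∨ σ = -1) ∧ (σ * d) % 4 = 3 ∧ x.2 (-1) = (σ : ℂ) ∧ x.2 2 = 0 := by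
  obtain ⟨σ, hσ, h3⟩ := fin_Rf4_exists hd hs
  obtain ⟨q, χ⟩ := x
  simp only at hq
  subst hq
  have : NeZero (4 * d) := ⟨hx.1.1.ne'⟩
  obtain ⟨_, e2, e3⟩ := char_eqG fin_f41 σ hσ d hd hs h3 χ hx.2.1 hx.2.2.1
  exact ⟨σ, hσ, h3, fin_par_val e3, by rw [e2]; simp⟩

private lemma fin_classC_info {Q : ℕ} {x : (q : ℕ) × DirichletCharacter ℂ q} (hx : x ∈ PQ Q)
    (hd : Odd x.1) (hs : Squarefree x.1) :
    ∃ σ c ε : ℤ, (σ = 1 ∨ σ = -1) ∧ ((c = 1 ∧ ε = 1) ∨ (c = 5 ∧ ε = -1)) ∧ Fam 8 c ε 1 ∧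
      (σ * x.1) % 8 = c ∧ x.2 (-1) = (σ : ℂ) ∧ x.2 2 = (ε : ℂ) := by
  obtain ⟨σ, c, ε, hσ, hcε, hF, h8⟩ : ∃ σ c ε : ℤ, (σ = 1 ∨ σ = -1) ∧
      ((c = 1 ∧ ε = 1) ∨ (c = 5 ∧ ε = -1)) ∧ Fam 8 c ε 1 ∧ (σ * x.1) % 8 = c := by
    have hd' := hd
    obtain ⟨k, hk⟩ := hd'
    have h8 : x.1 % 8 = 1 ∨ x.1 % 8 = 3 ∨ x.1 % 8 = 5 ∨ x.1 % 8 = 7 := by omega
    rcases h8 with h8 | h8 | h8 | h8
    · exact ⟨1, 1, 1, Or.inl rfl, Or.inl ⟨rfl, rfl⟩, fin_f42, by omega⟩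
    · exact ⟨-1, 5, -1, Or.inr rfl, Or.inr ⟨rfl, rfl⟩, fin_f43, by omega⟩
    · exact ⟨1, 5, -1, Or.inl rfl, Or.inr ⟨rfl, rfl⟩, fin_f43, by omega⟩
    · exact ⟨-1, 1, 1, Or.inr rfl, Or.inl ⟨rfl, rfl⟩, fin_f42, by omega⟩
  refine ⟨σ, c, ε, hσ, hcε, hF, h8, ?_⟩
  obtain ⟨q, χ⟩ := x
  simp only at hd hs h8 ⊢
  have key : ∀ (q' : ℕ) (_ : q' = q) (χ' : DirichletCharacter ℂ q') (_ : NeZero q'),
      (∀ (_ : NeZero (1 * q)) (ψ : DirichletCharacter ℂ (1 * q)), ψ.IsPrimitive → ψ ^ 2 = 1 →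
        ψ 2 = (ε : ℂ) ∧ ψ (-1) = (σ : ℂ)) → χ'.IsPrimitive → χ' ^ 2 = 1 →
        χ' 2 = (ε : ℂ) ∧ χ' (-1) = (σ : ℂ) := by
    intro q' hq' χ' hq0 h1 h2 h3
    subst hq'
    rw [one_mul] at h1
    exact h1 hq0 χ' h2 h3
  have hq0 : NeZero q := ⟨hx.1.1.ne'⟩
  have := key q rfl χ hq0 (fun hN ψ a1 a2 => by
    obtain ⟨_, e2, e3⟩ := char_eqG hF σ hσ q hd hs h8 ψ a1 a2
    exact ⟨e2, fin_par_val e3⟩) hx.2.1 hx.2.2.1
  exact ⟨this.2, this.1⟩

/-- The family of an element of `PQ Q`. -/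
private lemma fin_info {Q : ℕ} {x : (q : ℕ) × DirichletCharacter ℂ q} (hx : x ∈ PQ Q) :
    ∃ (m c ε σ : ℤ) (κ u d : ℕ), FamP m c ε κ u ∧ (σ = 1 ∨ σ = -1) ∧ x.1 = κ * d ∧ Odd d ∧
      (σ * d) % m = c ∧ x.2 (-1) = (σ : ℂ) ∧ x.2 2 = (ε : ℂ) ∧ Nat.gcd x.1 8 = κ := by
  rcases fin_lev hx with h | h | h
  · obtain ⟨h0, h1, h2, h3⟩ := h
    obtain ⟨σ, c, ε, hσ, hcε, _, e1, e2, e3⟩ := fin_classC_info hx h1 h2
    refine ⟨8, c, ε, σ, 1, 2, x.1, ?_, hσ, (one_mul _).symm, h1, e1, e2, e3, h0⟩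
    rcases hcε with ⟨rfl, rfl⟩ | ⟨rfl, rfl⟩
    · exact Or.inr (Or.inl ⟨rfl, rfl, rfl, rfl, rfl⟩)
    · exact Or.inr (Or.inr (Or.inl ⟨rfl, rfl, rfl, rfl, rfl⟩))
  · obtain ⟨h0, d, h1, h2, h3⟩ := h
    obtain ⟨σ, hσ, e1, e2, e3⟩ := fin_classB_info hx h1 h2 h3
    have h8 : (σ * d) % 8 = 3 ∨ (σ * d) % 8 = 7 := by omega
    rcases h8 with h8 | h8
    · exact ⟨8, 3, 0, σ, 4, 2, d, Or.inr (Or.inr (Or.inr (Or.inl ⟨rfl, rfl, rfl, rfl, rfl⟩))),
        hσ, h3, h1, h8, e2, by rw [e3]; simp, h0⟩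
    · exact ⟨8, 7, 0, σ, 4, 2, d, Or.inr (Or.inr (Or.inr (Or.inr ⟨rfl, rfl, rfl, rfl, rfl⟩))),
        hσ, h3, h1, h8, e2, by rw [e3]; simp, h0⟩
  · obtain ⟨h0, d, h1, h2, h3⟩ := h
    have e3 : x.2 2 = 0 := fin_two_nonunit (⟨4 * d, by rw [h3]; ring⟩) x.2
    rcases x.2.even_or_odd with he | ho
    · refine ⟨2, 1, 0, 1, 8, 1, d, Or.inl ⟨rfl, rfl, rfl, rfl, rfl⟩, Or.inl rfl, h3, h1, ?_,
        fin_par_val (Or.inl ⟨rfl, he⟩), by rw [e3]; simp, h0⟩
      obtain ⟨k, hk⟩ := h1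
      omega
    · refine ⟨2, 1, 0, -1, 8, 1, d, Or.inl ⟨rfl, rfl, rfl, rfl, rfl⟩, Or.inr rfl, h3, h1, ?_,
        fin_par_val (Or.inr ⟨rfl, ho⟩), by rw [e3]; simp, h0⟩
      obtain ⟨k, hk⟩ := h1
      omega

private lemma fin_fam_kappa {m c ε : ℤ} {κ u : ℕ} (hf : FamP m c ε κ u) :
    (κ = 8 ∨ κ = 1 ∨ κ = 4) := by
  unfold FamP at hf
  omega

private lemma fin_fam_uniq {m c ε m' c' ε' : ℤ} {κ u u' : ℕ} (hf : FamP m c ε κ u)
    (hf' : FamP m' c' ε' κ u') : m = m' ∧ u = u' ∧ (κ = 8 → c = c' ∧ ε = ε') ∧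
      (κ = 1 → (c = c' ↔ ε = ε')) ∧ (κ = 4 → ε = ε') ∧ (c = c' → ε = ε') := by
  unfold FamP at hf hf'
  omega

/-- The key of a character. -/
private noncomputable def fin_key (V : Finset ℕ) (x : (q : ℕ) × DirichletCharacter ℂ q) :
    (ℕ × ℂ × (ℕ → ℂ)) × ℕ :=
  ((Nat.gcd x.1 8, x.2 (-1), valT V x), if Nat.gcd x.1 8 = 4 then (x.1 / 4) % 8 else 0)

private lemma fin_gcd_mul {κ d : ℕ} (hκ : κ = 8 ∨ κ = 1 ∨ κ = 4) (hd : Odd d) :
    Nat.gcd (κ * d) 8 = κ := by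
  rcases hκ with rfl | rfl | rfl
  · exact fin_gcd_eight d
  · rw [one_mul]
    exact fin_gcd_odd hd
  · exact fin_gcd_four hd

private lemma fin_cast_sig {σ σ' : ℤ} (h : (σ : ℂ) = σ') : σ = σ' := by exact_mod_cast h

/-- The value at `2` of a character of a class. -/
private lemma fin_val2 {Z : ℕ} {x : (q : ℕ) × DirichletCharacter ℂ q} (hx : x ∈ PQ Z)
    {m c ε σ : ℤ} {κ u d : ℕ} (hf : FamP m c ε κ u) (hq : x.1 = κ * d)
    (hd : Odd d) (hc : (σ * d) % m = c) (hs : x.2 (-1) = (σ : ℂ)) : x.2 2 = (ε : ℂ) := by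
  obtain ⟨m', c', ε', σ', κ', u', d', hf', _, hq', hd', hc', hs', h2', hg'⟩ := fin_info hx
  have hκ := fin_fam_kappa hf
  have e1 : κ = κ' := by
    rw [← hg', hq]
    exact (fin_gcd_mul hκ hd).symm
  subst e1
  have e2 : d = d' := by
    have hpos : 0 < κ := by omega
    exact Nat.eq_of_mul_eq_mul_left hpos (hq.symm.trans hq')
  subst e2
  have e3 : σ = σ' := fin_cast_sig (hs.symm.trans hs')
  subst e3
  obtain ⟨e4, _, _, _, _, e5⟩ := fin_fam_uniq hf hf'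
  subst e4
  have e6 : ε = ε' := e5 (hc.symm.trans hc')
  rw [h2', e6]

private lemma fin_pat {y : ℝ} {P : ℕ} (sf : Squarefree P) (odd : Odd P)
    (le : (P : ℝ) ≤ Real.exp y)
    (pr : ∀ p : ℕ, p.Prime → 3 ≤ p → (p : ℝ) ≤ Real.log y → p ∣ P) (A B : ℕ → Prop)
    (hAB : ∀ p, A p → ¬ B p) :
    ∃ Q R : ℕ, Pat y P Q R ∧ ∀ p ∈ P.primeFactors, (p ∣ Q ↔ A p) ∧ (p ∣ R ↔ B p) := by
  classical
  have hp : ∀ (C : ℕ → Prop), ∀ p ∈ P.primeFactors.filter C, p.Prime := fun C p hp =>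
    Nat.prime_of_mem_primeFactors (Finset.mem_filter.mp hp).1
  have hdv : ∀ (C : ℕ → Prop), ∀ p ∈ P.primeFactors,
      (p ∣ ∏ p ∈ P.primeFactors.filter C, p ↔ C p) := by
    intro C p hpP
    have hpp := Nat.prime_of_mem_primeFactors hpP
    constructor
    · intro h
      have h1 : p ∈ (∏ p ∈ P.primeFactors.filter C, p).primeFactors :=
        (Nat.mem_primeFactors_of_ne_zero
          (Finset.prod_ne_zero_iff.2 fun q hq => (hp C q hq).ne_zero)).2 ⟨hpp, h⟩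
      rw [Nat.primeFactors_prod (hp C)] at h1
      exact (Finset.mem_filter.mp h1).2
    · intro h
      exact Finset.dvd_prod_of_mem (fun p => p) (Finset.mem_filter.mpr ⟨hpP, h⟩)
  refine ⟨∏ p ∈ P.primeFactors.filter A, p, ∏ p ∈ P.primeFactors.filter B, p,
    ⟨sf, odd, le, pr, ?_, ?_, ?_⟩, fun p hpP => ⟨hdv A p hpP, hdv B p hpP⟩⟩
  · conv_rhs => rw [← Nat.prod_primeFactors_of_squarefree sf]
    exact Finset.prod_dvd_prod_of_subset _ _ _ (Finset.filter_subset _ _)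
  · conv_rhs => rw [← Nat.prod_primeFactors_of_squarefree sf]
    exact Finset.prod_dvd_prod_of_subset _ _ _ (Finset.filter_subset _ _)
  · refine Nat.Coprime.prod_left fun p hpA => Nat.Coprime.prod_right fun q hqB => ?_
    refine (Nat.coprime_primes (hp A p hpA) (hp B q hqB)).2 ?_
    rintro rfl
    exact hAB p (Finset.mem_filter.mp hpA).2 (Finset.mem_filter.mp hqB).2

private lemma fin_exP {y : ℝ} (hy : y ^ 2 ≤ Real.exp (y / 2)) (hy1 : 1 ≤ y) (T : Finset ℕ)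
    (hT : ∀ p ∈ T, p.Prime) (hle : (∏ p ∈ T, (p : ℝ)) ≤ Real.exp (y / 2)) :
    ∃ P : ℕ, Squarefree P ∧ Odd P ∧ (P : ℝ) ≤ Real.exp y ∧
      (∀ p : ℕ, p.Prime → 3 ≤ p → (p : ℝ) ≤ Real.log y → p ∣ P) ∧
      ∀ p ∈ T, p ∈ insert 2 P.primeFactors := by
  classical
  have hl0 : 0 ≤ Real.log y := Real.log_nonneg hy1
  set n : ℕ := ⌊Real.log y⌋₊ with hn
  set U : Finset ℕ := (Finset.range (n + 1)).filter Nat.Prime with hU
  have hUp : ∀ p ∈ U, p.Prime := fun p hp => (Finset.mem_filter.mp hp).2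
  have hUle : (∏ p ∈ U, (p : ℝ)) ≤ Real.exp (y / 2) := by
    have h1 : ∏ p ∈ U, p ≤ 4 ^ n := primorial_le_four_pow n
    have h2 : (∏ p ∈ U, (p : ℝ)) ≤ 4 ^ n := by
      have h := (Nat.cast_le (α := ℝ)).mpr h1
      rw [Nat.cast_prod, Nat.cast_pow] at h
      exact h
    refine h2.trans (le_trans ?_ hy)
    have h3 : (4 : ℝ) ≤ Real.exp 2 := by
      have := Real.add_one_le_exp (1 : ℝ)
      have h5 : Real.exp 2 = Real.exp 1 * Real.exp 1 := by rw [← Real.exp_add]; norm_num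
      rw [h5]
      nlinarith
    calc (4 : ℝ) ^ n ≤ (Real.exp 2) ^ n := pow_le_pow_left₀ (by norm_num) h3 n
      _ = Real.exp (n * 2) := by rw [← Real.exp_nat_mul]
      _ ≤ Real.exp (Real.log y * 2) := by
          apply Real.exp_le_exp.mpr
          have := Nat.floor_le hl0
          linarith
      _ = y ^ 2 := by
          rw [mul_two, Real.exp_add, Real.exp_log (by linarith), sq]
  set W : Finset ℕ := (T ∪ U).filter (fun p => 3 ≤ p) with hW
  have hWp : ∀ p ∈ W, p.Prime := by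
    intro p hp
    rcases Finset.mem_union.mp (Finset.mem_filter.mp hp).1 with h | h
    · exact hT p h
    · exact hUp p h
  have hdv : ∀ p : ℕ, p.Prime → p ∈ W → p ∣ ∏ p ∈ W, p := fun p _ h =>
    Finset.dvd_prod_of_mem (fun p => p) h
  have h0 : ∏ p ∈ W, p ≠ 0 := Finset.prod_ne_zero_iff.2 fun q hq => (hWp q hq).ne_zero
  refine ⟨∏ p ∈ W, p, ?_, ?_, ?_, ?_, ?_⟩
  · refine Finset.squarefree_prod_of_pairwise_isCoprime ?_ fun p hp => (hWp p hp).prime.squarefree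
    intro p hp q hq hpq
    exact Nat.coprime_iff_isRelPrime.mp ((Nat.coprime_primes (hWp p hp) (hWp q hq)).2 hpq)
  · rw [Nat.odd_iff, ← Nat.not_even_iff, even_iff_two_dvd]
    intro h
    have h2 : 2 ∈ (∏ p ∈ W, p).primeFactors := (Nat.mem_primeFactors_of_ne_zero h0).2
      ⟨Nat.prime_two, h⟩
    rw [Nat.primeFactors_prod hWp] at h2
    have := (Finset.mem_filter.mp h2).2
    omega
  · have h1 : ∏ p ∈ W, p ≤ (∏ p ∈ T, p) * ∏ p ∈ U, p := by
      have h2 : ∏ p ∈ W, p ≤ ∏ p ∈ T ∪ U, p := by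
        refine Finset.prod_le_prod_of_subset_of_one_le' (Finset.filter_subset _ _) ?_
        intro p hp _
        rcases Finset.mem_union.mp hp with h | h
        · exact (hT p h).one_lt.le
        · exact (hUp p h).one_lt.le
      have h3 : (∏ p ∈ T ∪ U, p) * ∏ p ∈ T ∩ U, p = (∏ p ∈ T, p) * ∏ p ∈ U, p :=
        Finset.prod_union_inter
      have h4 : 1 ≤ ∏ p ∈ T ∩ U, p := Nat.one_le_iff_ne_zero.2
        (Finset.prod_ne_zero_iff.2 fun q hq => (hT q (Finset.mem_inter.mp hq).1).ne_zero)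
      calc ∏ p ∈ W, p ≤ (∏ p ∈ T ∪ U, p) * 1 := by rw [mul_one]; exact h2
        _ ≤ (∏ p ∈ T ∪ U, p) * ∏ p ∈ T ∩ U, p := Nat.mul_le_mul_left _ h4
        _ = _ := h3
    have h1' : ((∏ p ∈ W, p : ℕ) : ℝ) ≤ (∏ p ∈ T, (p : ℝ)) * ∏ p ∈ U, (p : ℝ) := by
      have h := (Nat.cast_le (α := ℝ)).mpr h1
      rw [Nat.cast_mul, Nat.cast_prod, Nat.cast_prod, Nat.cast_prod] at h
      rw [Nat.cast_prod]
      exact h
    refine h1'.trans ?_
    have hyy : Real.exp y = Real.exp (y / 2) * Real.exp (y / 2) := by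
      rw [← Real.exp_add]
      ring_nf
    rw [hyy]
    exact mul_le_mul hle hUle (Finset.prod_nonneg fun p _ => Nat.cast_nonneg p) (Real.exp_pos _).le
  · intro p hp h3 hpy
    refine hdv p hp (Finset.mem_filter.mpr ⟨Finset.mem_union_right _ ?_, h3⟩)
    refine Finset.mem_filter.mpr ⟨Finset.mem_range.mpr ?_, hp⟩
    have := (Nat.le_floor_iff' (by omega : p ≠ 0)).mpr hpy
    omega
  · intro p hp
    by_cases h3 : 3 ≤ p
    · refine Finset.mem_insert_of_mem ((Nat.mem_primeFactors_of_ne_zero h0).2 ⟨hT p hp, ?_⟩)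
      exact hdv p (hT p hp) (Finset.mem_filter.mpr ⟨Finset.mem_union_left _ hp, h3⟩)
    · have := (hT p hp).two_le
      have h2 : p = 2 := by omega
      rw [h2]
      exact Finset.mem_insert_self _ _

/-- The fiber of the key is a class. -/
private lemma fin_fiber {y : ℝ} {P : ℕ} (sf : Squarefree P) (odd : Odd P)
    (le : (P : ℝ) ≤ Real.exp y)
    (pr : ∀ p : ℕ, p.Prime → 3 ≤ p → (p : ℝ) ≤ Real.log y → p ∣ P) {Z : ℕ}
    {x₀ : (q : ℕ) × DirichletCharacter ℂ q} (hx₀ : x₀ ∈ PQ Z) :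
    ∃ (m c ε σ : ℤ) (κ u Q R : ℕ), FamP m c ε κ u ∧ (σ = 1 ∨ σ = -1) ∧ Pat y P Q R ∧
      ∀ x ∈ PQ Z, (fin_key (insert 2 P.primeFactors) x = fin_key (insert 2 P.primeFactors) x₀ ↔
        TPx m c σ κ P Q R x) := by
  classical
  obtain ⟨m, c, ε, σ, κ, u, d, hf, hσ, hq, hd, hc, hs, h2, hg⟩ := fin_info hx₀
  obtain ⟨Q, R, hpat, hQR⟩ := fin_pat sf odd le pr (fun p => x₀.2 p = -1) (fun p => x₀.2 p = 0)
    (fun p h h' => by
      have h3 : x₀.2 p = -1 := h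
      have h4 : x₀.2 p = 0 := h'
      rw [h3] at h4
      norm_num at h4)
  have hv₀ : ∀ p ∈ P.primeFactors, x₀.2 p = if p ∣ R then 0 else if p ∣ Q then -1 else 1 := by
    intro p hp
    obtain ⟨hA, hB⟩ := hQR p hp
    rcases MulChar.isQuadratic_iff_sq_eq_one.mpr hx₀.2.2.1 (p : ZMod x₀.1) with h | h | h
    · rw [if_pos (hB.2 h), h]
    · have n1 : ¬ p ∣ R := fun h' => by
        have := hB.1 h'
        rw [h] at this
        norm_num at this
      have n2 : ¬ p ∣ Q := fun h' => by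
        have := hA.1 h'
        rw [h] at this
        norm_num at this
      rw [if_neg n1, if_neg n2, h]
    · have n1 : ¬ p ∣ R := fun h' => by
        have := hB.1 h'
        rw [h] at this
        norm_num at this
      rw [if_neg n1, if_pos (hA.2 h), h]
  have hκ := fin_fam_kappa hf
  refine ⟨m, c, ε, σ, κ, u, Q, R, hf, hσ, hpat, fun x hx => ?_⟩
  constructor
  · intro hk
    obtain ⟨m', c', ε', σ', κ', u', d', hf', hσ', hq', hd', hc', hs', h2', hg'⟩ := fin_info hx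
    unfold fin_key at hk
    simp only [Prod.mk.injEq] at hk
    obtain ⟨⟨k1, k2, k3⟩, k4⟩ := hk
    have e1 : κ' = κ := by rw [← hg', ← hg, k1]
    subst e1
    have e2 : σ' = σ := fin_cast_sig (by rw [← hs', ← hs, k2])
    subst e2
    have hval : ∀ p ∈ insert 2 P.primeFactors, x.2 p = x₀.2 p := by
      intro p hp
      have h1 := congrFun k3 p
      unfold valT at h1
      rwa [if_pos hp, if_pos hp] at h1
    have e3 : x.2 2 = x₀.2 2 := by
      have := hval 2 (Finset.mem_insert_self _ _)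
      simpa using this
    have e4 : ε' = ε := fin_cast_sig (by rw [← h2', ← h2, e3])
    obtain ⟨u1, _, u2, u3, _, _⟩ := fin_fam_uniq hf' hf
    subst u1
    have e5 : c' = c := by
      rcases hκ with hκ | hκ | hκ
      · exact (u2 hκ).1
      · exact (u3 hκ).2 e4
      · rw [if_pos (by rw [hg']; exact hκ), if_pos (by rw [hg]; exact hκ)] at k4
        rw [hq, hq', hκ, Nat.mul_div_cancel_left _ (by norm_num),
          Nat.mul_div_cancel_left _ (by norm_num)] at k4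
        have hm : m' = 8 := by
          unfold FamP at hf
          omega
        rw [← hc', ← hc, hm]
        rcases hσ with rfl | rfl <;> omega
    refine ⟨⟨d', hq', hd', by rw [hc', e5]⟩, hs', fun p hp => ?_⟩
    rw [hval p (Finset.mem_insert_of_mem hp)]
    exact hv₀ p hp
  · rintro ⟨⟨d', hq', hd', hc'⟩, hs', hv'⟩
    have h2' : x.2 2 = (ε : ℂ) := fin_val2 hx hf hq' hd' hc' hs'
    have hg' : Nat.gcd x.1 8 = κ := by rw [hq']; exact fin_gcd_mul hκ hd'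
    unfold fin_key
    simp only [Prod.mk.injEq]
    refine ⟨⟨by rw [hg', hg], by rw [hs', hs], ?_⟩, ?_⟩
    · funext p
      unfold valT
      by_cases hp : p ∈ insert 2 P.primeFactors
      · rw [if_pos hp, if_pos hp]
        rcases Finset.mem_insert.mp hp with hp2 | hpP
        swap
        · rw [hv' p hpP, hv₀ p hpP]
        · subst hp2
          have a1 : x.2 ((2 : ℕ) : ZMod x.1) = (ε : ℂ) := by simpa using h2'
          have a2 : x₀.2 ((2 : ℕ) : ZMod x₀.1) = (ε : ℂ) := by simpa using h2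
          rw [a1, a2]
      · rw [if_neg hp, if_neg hp]
    · by_cases h4 : κ = 4
      · rw [if_pos (by rw [hg']; exact h4), if_pos (by rw [hg]; exact h4)]
        rw [hq, hq', h4, Nat.mul_div_cancel_left _ (by norm_num),
          Nat.mul_div_cancel_left _ (by norm_num)]
        have hm : m = 8 := by
          unfold FamP at hf
          omega
        rw [hm] at hc hc'
        rcases hσ with rfl | rfl <;> omega
      · rw [if_neg (by rw [hg']; exact h4), if_neg (by rw [hg]; exact h4)]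

theorem p_fin (hc : D_cum) (hl : D_cls) : D_fin := by
  classical
  obtain ⟨c, hc0, Z₀, H⟩ := hc
  obtain ⟨Z₁, hZ₁⟩ : ∃ Z₁ : ℕ, ∀ Z : ℕ, Z₁ ≤ Z → 1 ≤ c * Real.log Z ∧
      (c * Real.log Z) ^ 2 ≤ Real.exp (c * Real.log Z / 2) ∧ 1 ≤ Z := by
    have h1 : Tendsto (fun Z : ℕ => c * Real.log (Z : ℝ)) atTop atTop :=
      (Real.tendsto_log_atTop.comp tendsto_natCast_atTop_atTop).const_mul_atTop hc0
    have h2 := h1.eventually_ge_atTop 1
    have h3 : ∀ᶠ y : ℝ in atTop, y ^ 2 ≤ Real.exp (y / 2) := by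
      have h4 := Real.tendsto_pow_mul_exp_neg_atTop_nhds_zero 2
      have h5 : Tendsto (fun y : ℝ => y / 2) atTop atTop := tendsto_id.atTop_div_const (by norm_num)
      have h6 := (h4.comp h5).eventually (ge_mem_nhds (show (0 : ℝ) < 1 / 4 by norm_num))
      filter_upwards [h6] with y hy
      simp only [Function.comp] at hy
      rw [Real.exp_neg, ← div_eq_mul_inv, div_le_iff₀ (Real.exp_pos _)] at hy
      nlinarith
    have h4 := (h2.and (h1.eventually h3)).and (eventually_ge_atTop 1)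
    rw [eventually_atTop] at h4
    obtain ⟨Z₁, hZ₁⟩ := h4
    exact ⟨Z₁, fun Z hZ => ⟨(hZ₁ Z hZ).1.1, (hZ₁ Z hZ).1.2, (hZ₁ Z hZ).2⟩⟩
  refine ⟨c / 2, by positivity, max Z₀ Z₁, fun Z hZ T hT hTle => ?_⟩
  have hZ0 : Z₀ ≤ Z := (le_max_left _ _).trans hZ
  obtain ⟨hy1, hy2, hZ1⟩ := hZ₁ Z ((le_max_right _ _).trans hZ)
  have hTle' : (∏ p ∈ T, (p : ℝ)) ≤ Real.exp (c * Real.log Z / 2) := by
    refine hTle.trans (le_of_eq ?_)
    rw [Real.rpow_def_of_pos (by exact_mod_cast hZ1)]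
    congr 1
    ring
  set y : ℝ := c * Real.log Z with hy
  obtain ⟨P, sf, odd, le, pr, hTP⟩ := fin_exP hy2 hy1 T hT hTle'
  have hcls : ∀ (m c' ε σ : ℤ) (κ u Q R : ℕ), FamP m c' ε κ u → (σ = 1 ∨ σ = -1) → Pat y P Q R →
      ((Nat.card {x | x ∈ PQ Z ∧ TPx m c' σ κ P Q R x ∧ ¬ NZx x} : ℝ) ≤
        126 / 1000 * (Nat.card {x | x ∈ PQ Z ∧ TPx m c' σ κ P Q R x} : ℝ)) ∧
      (Z : ℝ) ^ (9 / 10 : ℝ) ≤ (Nat.card {x | x ∈ PQ Z ∧ TPx m c' σ κ P Q R x} : ℝ) := by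
    intro m c' ε σ κ u Q R hf hσ hpat
    obtain ⟨h1, h2⟩ := hl Z y P Q R hpat σ hσ m c' ε κ u hf
    obtain ⟨h3, h4⟩ := H Z hZ0 P Q R hpat σ hσ m c' ε κ u hf
    have h1' : (_ : ℝ) ≤ _ := Nat.cast_le.mpr h1
    have h2' : (_ : ℝ) ≤ _ := Nat.cast_le.mpr h2
    constructor
    · refine h1'.trans (h4.trans ?_)
      exact mul_le_mul_of_nonneg_left h2' (by norm_num)
    · exact h3.trans h2'
  constructor
  · intro S
    set data : ((q : ℕ) × DirichletCharacter ℂ q) → ℕ × ℂ × (ℕ → ℂ) :=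
      fun x => (Nat.gcd x.1 8, x.2 (-1), valT T x) with hdata
    set V : Finset ℕ := insert 2 P.primeFactors with hV
    set gg : (ℕ × ℂ × (ℕ → ℂ)) × ℕ → ℕ × ℂ × (ℕ → ℂ) :=
      fun k => (k.1.1, k.1.2.1, fun p => if p ∈ T then k.1.2.2 p else 0) with hgg
    set A : Finset ((q : ℕ) × DirichletCharacter ℂ q) := (PQ_finite Z).toFinset with hA
    have hmem : ∀ x, x ∈ A ↔ x ∈ PQ Z := fun x => (PQ_finite Z).mem_toFinset
    have hcard : ∀ (P : ((q : ℕ) × DirichletCharacter ℂ q) → Prop) [DecidablePred P],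
        Nat.card {x | x ∈ PQ Z ∧ P x} = (A.filter P).card := by
      intro P _
      rw [Nat.card_coe_set_eq, ← Set.ncard_coe_finset]
      congr 1
      ext x
      simp only [Set.mem_ofPred_eq, Finset.coe_filter, hmem]
    set KK : Finset ((ℕ × ℂ × (ℕ → ℂ)) × ℕ) := A.image (fin_key V) with hKK
    have hk : ∀ k ∈ KK, ((A.filter (fun x => fin_key V x = k ∧ ¬ NZx x)).card : ℝ) ≤
        126 / 1000 * ((A.filter (fun x => fin_key V x = k)).card : ℝ) := by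
      intro k hk
      obtain ⟨x₀, hx₀, rfl⟩ := Finset.mem_image.mp hk
      obtain ⟨m, c', ε, σ, κ, u, Q, R, hf, hσ, hpat, hfib⟩ :=
        fin_fiber sf odd le pr ((hmem x₀).mp hx₀)
      have h1 := (hcls m c' ε σ κ u Q R hf hσ hpat).1
      rw [hcard, hcard] at h1
      have e1 : A.filter (fun x => fin_key V x = fin_key V x₀ ∧ ¬ NZx x) =
          A.filter (fun x => TPx m c' σ κ P Q R x ∧ ¬ NZx x) :=
        Finset.filter_congr fun x hx => by rw [hfib x ((hmem x).mp hx)]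
      have e2 : A.filter (fun x => fin_key V x = fin_key V x₀) =
          A.filter (fun x => TPx m c' σ κ P Q R x) :=
        Finset.filter_congr fun x hx => hfib x ((hmem x).mp hx)
      rw [e1, e2]
      exact h1
    have hkey : ∀ x, gg (fin_key V x) = data x := by
      intro x
      simp only [hgg, hdata, fin_key, Prod.mk.injEq, true_and]
      funext p
      unfold valT
      by_cases hp : p ∈ T
      · rw [if_pos hp, if_pos hp, if_pos (hTP p hp)]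
      · rw [if_neg hp, if_neg hp]
    have hb : (A.filter (fun x => data x ∈ S ∧ ¬ NZx x)).card =
        ∑ k ∈ KK.filter (fun k => gg k ∈ S),
          (A.filter (fun x => fin_key V x = k ∧ ¬ NZx x)).card := by
      rw [Finset.card_eq_sum_card_fiberwise (f := fin_key V) (t := KK.filter (fun k => gg k ∈ S))]
      · refine Finset.sum_congr rfl fun k hk => ?_
        rw [Finset.filter_filter]
        congr 1
        refine Finset.filter_congr fun x _ => ?_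
        have hkS := (Finset.mem_filter.mp hk).2
        constructor
        · rintro ⟨⟨_, h2⟩, h3⟩
          exact ⟨h3, h2⟩
        · rintro ⟨h3, h2⟩
          exact ⟨⟨by rw [← hkey, h3]; exact hkS, h2⟩, h3⟩
      · intro x hx
        simp only [Finset.coe_filter, Set.mem_ofPred_eq] at hx ⊢
        exact ⟨Finset.mem_image_of_mem _ hx.1, by rw [hkey]; exact hx.2.1⟩
    have ha : (A.filter (fun x => data x ∈ S)).card =
        ∑ k ∈ KK.filter (fun k => gg k ∈ S), (A.filter (fun x => fin_key V x = k)).card := by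
      rw [Finset.card_eq_sum_card_fiberwise (f := fin_key V) (t := KK.filter (fun k => gg k ∈ S))]
      · refine Finset.sum_congr rfl fun k hk => ?_
        rw [Finset.filter_filter]
        congr 1
        refine Finset.filter_congr fun x _ => ?_
        have hkS := (Finset.mem_filter.mp hk).2
        constructor
        · rintro ⟨_, h3⟩
          exact h3
        · intro h3
          exact ⟨by rw [← hkey, h3]; exact hkS, h3⟩
      · intro x hx
        simp only [Finset.coe_filter, Set.mem_ofPred_eq] at hx ⊢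
        exact ⟨Finset.mem_image_of_mem _ hx.1, by rw [hkey]; exact hx.2⟩
    have hbound : ((A.filter (fun x => data x ∈ S ∧ ¬ NZx x)).card : ℝ) ≤
        126 / 1000 * ((A.filter (fun x => data x ∈ S)).card : ℝ) := by
      rw [hb, ha]
      push_cast
      rw [Finset.mul_sum]
      exact Finset.sum_le_sum fun k hk' => hk k (Finset.mem_filter.mp hk').1
    have hsplit : (A.filter (fun x => data x ∈ S)).card =
        (A.filter (fun x => data x ∈ S ∧ ¬ NZx x)).card +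
          (A.filter (fun x => data x ∈ S ∧ NZx x)).card := by
      rw [← Finset.card_union_of_disjoint]
      · congr 1
        ext x
        simp only [Finset.mem_union, Finset.mem_filter]
        tauto
      · rw [Finset.disjoint_filter]
        rintro x _ ⟨_, h1⟩ ⟨_, h2⟩
        exact h1 h2
    have e3 : Nat.card {x : (q : ℕ) × DirichletCharacter ℂ q | x ∈ PQ Z ∧ data x ∈ S} =
        (A.filter (fun x => data x ∈ S)).card := hcard _
    have e4 : Nat.card {x : (q : ℕ) × DirichletCharacter ℂ q |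
        (x ∈ PQ Z ∧ data x ∈ S) ∧ NZx x} = (A.filter (fun x => data x ∈ S ∧ NZx x)).card := by
      rw [← hcard]
      refine congrArg (fun T : Set ((q : ℕ) × DirichletCharacter ℂ q) => Nat.card T) ?_
      ext x
      simp only [Set.mem_ofPred_eq, and_assoc]
    show (874 / 1000 : ℝ) * (Nat.card {x : (q : ℕ) × DirichletCharacter ℂ q |
        x ∈ PQ Z ∧ data x ∈ S} : ℝ) ≤ (Nat.card {x : (q : ℕ) × DirichletCharacter ℂ q |
        (x ∈ PQ Z ∧ data x ∈ S) ∧ NZx x} : ℝ)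
    rw [e3, e4]
    have hsplit' : ((A.filter (fun x => data x ∈ S)).card : ℝ) =
        ((A.filter (fun x => data x ∈ S ∧ ¬ NZx x)).card : ℝ) +
          ((A.filter (fun x => data x ∈ S ∧ NZx x)).card : ℝ) := by exact_mod_cast hsplit
    linarith
  · intro e he σ hσ
    obtain ⟨Q, R, hpat, hQR⟩ := fin_pat sf odd le pr (fun p => e p = -1) (fun p => e p = 0)
      (fun p h h' => by
        have h3 : e p = -1 := h
        have h4 : e p = 0 := h'
        omega)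
    obtain ⟨m, c', κ, u, hf⟩ : ∃ (m c' : ℤ) (κ u : ℕ), FamP m c' (e 2) κ u := by
      rcases he 2 with h | h | h
      · exact ⟨2, 1, 8, 1, Or.inl ⟨rfl, rfl, h, rfl, rfl⟩⟩
      · exact ⟨8, 1, 1, 2, Or.inr (Or.inl ⟨rfl, rfl, h, rfl, rfl⟩)⟩
      · exact ⟨8, 5, 1, 2, Or.inr (Or.inr (Or.inl ⟨rfl, rfl, h, rfl, rfl⟩))⟩
    refine (hcls m c' (e 2) σ κ u Q R hf hσ hpat).2.trans ?_
    rw [Nat.card_coe_set_eq, Nat.card_coe_set_eq, Nat.cast_le]
    refine Set.ncard_le_ncard ?_ ((PQ_finite Z).subset fun x hx => hx.1)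
    rintro x ⟨hx, ⟨d, hq, hd, hcd⟩, hs, hv⟩
    refine ⟨hx, hs, fun p hp => ?_⟩
    rcases Finset.mem_insert.mp (hTP p hp) with hp2 | hpP
    swap
    · rw [hv p hpP]
      obtain ⟨hA, hB⟩ := hQR p hpP
      rcases he p with h | h | h
      · rw [if_pos (hB.2 h), h]
        simp
      · have n1 : ¬ p ∣ R := fun h' => by
          have := hB.1 h'
          omega
        have n2 : ¬ p ∣ Q := fun h' => by
          have := hA.1 h'
          omega
        rw [if_neg n1, if_neg n2, h]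
        simp
      · have n1 : ¬ p ∣ R := fun h' => by
          have := hB.1 h'
          omega
        rw [if_neg n1, if_pos (hA.2 h), h]
        simp
    · subst hp2
      have := fin_val2 hx hf hq hd hcd hs
      simpa using this

end Pool.Agent.MP0016c7.Rz
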