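import Mathlib
import Pool.Agent.Lib.MP_0016c7_nt.PS.Stm
import Pool.Agent.Lib.MP_0016c7_nt.Qls.QJr

set_option autoImplicit false

/-!
Prescribed splitting: the indicator of the pattern (piece ind).
-/

open Finset MeasureTheory Filter Topology
open scoped Real ContDiff

namespace Pool.Agent.MP0016c7.Rz

private lemma ind_s_mul (σ : ℤ) (u d a b : ℕ) : sy σ u d (a * b) = sy σ u d a * sy σ u d b := by
  unfold sy
  exact jr_mul _ _ _

private lemma ind_s_one (σ : ℤ) (u d : ℕ) : sy σ u d 1 = 1 := by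
  unfold sy
  exact jr_one_right _

private lemma ind_s_tri (σ : ℤ) (u d p : ℕ) :
    sy σ u d p = 0 ∨ sy σ u d p = 1 ∨ sy σ u d p = -1 := by
  unfold sy jr
  split_ifs with h
  · rcases jacobiSym.trichotomy (2 * σ * ((u * d : ℕ) : ℤ)) p with h | h | h <;> rw [h] <;> norm_num
  · left; rfl

private lemma ind_eps_mul (Q : ℕ) {m n : ℕ} (h : Nat.Coprime m n) :
    eps Q (m * n) = eps Q m * eps Q n := by
  unfold eps
  have h1 : Nat.Coprime (Nat.gcd m Q) (Nat.gcd n Q) :=
    (h.coprime_dvd_left (Nat.gcd_dvd_left m Q)).coprime_dvd_right (Nat.gcd_dvd_left n Q)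
  rw [Nat.gcd_comm (m * n) Q, Nat.Coprime.gcd_mul Q h, Nat.gcd_comm Q m, Nat.gcd_comm Q n,
    ArithmeticFunction.isMultiplicative_moebius.map_mul_of_coprime h1]
  push_cast
  ring

private lemma ind_eps_prime (Q : ℕ) {p : ℕ} (hp : p.Prime) :
    eps Q p = if p ∣ Q then -1 else 1 := by
  unfold eps
  split_ifs with h
  · rw [Nat.gcd_eq_left h, ArithmeticFunction.moebius_apply_prime hp]
    norm_num
  · rw [(Nat.Prime.coprime_iff_not_dvd hp).2 h]
    simp

private noncomputable def indF (σ : ℤ) (u d Q : ℕ) : ArithmeticFunction ℝ :=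
  ⟨fun e => if e = 0 then 0 else eps Q e * sy σ u d e, by simp⟩

private lemma indF_apply (σ : ℤ) (u d Q : ℕ) {e : ℕ} (he : e ≠ 0) :
    indF σ u d Q e = eps Q e * sy σ u d e := by
  simp [indF, he]

private lemma indF_mult (σ : ℤ) (u d Q : ℕ) : (indF σ u d Q).IsMultiplicative := by
  rw [ArithmeticFunction.IsMultiplicative.iff_ne_zero]
  constructor
  · rw [indF_apply _ _ _ _ one_ne_zero, ind_s_one]
    simp [eps]
  · intro m n hm hn h
    rw [indF_apply _ _ _ _ (mul_ne_zero hm hn), indF_apply _ _ _ _ hm, indF_apply _ _ _ _ hn,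
      ind_s_mul, ind_eps_mul Q h]
    ring

private lemma ind_s_prod (σ : ℤ) (u d : ℕ) (s : Finset ℕ) :
    sy σ u d (∏ p ∈ s, p) = ∏ p ∈ s, sy σ u d p := by
  classical
  induction s using Finset.induction_on with
  | empty => simp [ind_s_one]
  | insert a s ha ih => rw [Finset.prod_insert ha, Finset.prod_insert ha, ind_s_mul, ih]

/-- The unramified part. -/
private lemma ind_unr (σ : ℤ) (u d Q P₁ : ℕ) (hP : Squarefree P₁) :
    (∏ p ∈ P₁.primeFactors, (if sy σ u d p = (if p ∣ Q then -1 else 1) then (1 : ℝ) else 0)) =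
      1 / 2 ^ P₁.primeFactors.card *
        ∑ e ∈ P₁.divisors, eps Q e * sy σ u d (e * P₁ ^ 2) := by
  have h1 : ∀ p ∈ P₁.primeFactors,
      (if sy σ u d p = (if p ∣ Q then -1 else 1) then (1 : ℝ) else 0) =
      (1 / 2) * (sy σ u d p ^ 2 * (1 + indF σ u d Q p)) := by
    intro p hp
    have hpp := Nat.prime_of_mem_primeFactors hp
    rw [indF_apply _ _ _ _ hpp.ne_zero, ind_eps_prime Q hpp]
    rcases ind_s_tri σ u d p with h | h | h <;> rw [h] <;> split_ifs <;> norm_num at *
  rw [Finset.prod_congr rfl h1, Finset.prod_mul_distrib, Finset.prod_mul_distrib,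
    Finset.prod_const, Finset.prod_pow, ← ind_s_prod, Nat.prod_primeFactors_of_squarefree hP,
    (indF_mult σ u d Q).prodPrimeFactors_one_add_of_squarefree hP, one_div_pow, Finset.mul_sum]
  congr 1
  refine Finset.sum_congr rfl fun e he => ?_
  have he0 : e ≠ 0 := (Nat.pos_of_mem_divisors he).ne'
  rw [indF_apply _ _ _ _ he0, ind_s_mul, pow_two P₁, ind_s_mul]
  ring

private def indG (n : ℕ) (hn : n ≠ 0) : ArithmeticFunction ℝ :=
  ⟨fun e => if e ∣ n then 1 else 0, by simp [hn]⟩

private lemma indG_mult (n : ℕ) (hn : n ≠ 0) : (indG n hn).IsMultiplicative := by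
  constructor
  · simp [indG]
  · intro a b h
    simp only [indG, ArithmeticFunction.coe_mk]
    by_cases h1 : a ∣ n
    · by_cases h2 : b ∣ n
      · rw [if_pos h1, if_pos h2, if_pos (h.mul_dvd_of_dvd_of_dvd h1 h2), mul_one]
      · rw [if_neg h2, if_neg (fun h3 => h2 ((Dvd.intro_left a rfl).trans h3)), mul_zero]
    · rw [if_neg h1, if_neg (fun h3 => h1 ((Dvd.intro b rfl).trans h3)), zero_mul]

/-- The ramified part. -/
private lemma ind_ram (R d : ℕ) (hR : Squarefree R) (hd : d ≠ 0) :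
    (∏ p ∈ R.primeFactors, (if p ∣ d ∧ ¬ p ^ 2 ∣ d then (1 : ℝ) else 0)) =
      ∑ f ∈ R.divisors, (ArithmeticFunction.moebius f : ℝ) * (if R * f ∣ d then 1 else 0) := by
  have hR0 : R ≠ 0 := hR.ne_zero
  by_cases h : R ∣ d
  · obtain ⟨n, rfl⟩ := h
    have hn : n ≠ 0 := by
      rintro rfl
      exact hd (mul_zero R)
    have h1 : ∀ p ∈ R.primeFactors, (if p ∣ R * n ∧ ¬ p ^ 2 ∣ R * n then (1 : ℝ) else 0) =
        1 - indG n hn p := by
      intro p hp
      have hpp := Nat.prime_of_mem_primeFactors hp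
      obtain ⟨R', hR'⟩ := Nat.dvd_of_mem_primeFactors hp
      have hpR' : ¬ p ∣ R' := by
        intro h2
        have h3 : p * p ∣ R := by
          rw [hR']
          exact mul_dvd_mul_left p h2
        have := hR p h3
        exact hpp.one_lt.ne' (Nat.isUnit_iff.1 this)
      have h4 : p ^ 2 ∣ R * n ↔ p ∣ n := by
        rw [hR', pow_two, mul_assoc, Nat.mul_dvd_mul_iff_left hpp.pos, hpp.dvd_mul]
        constructor
        · rintro (h5 | h5)
          · exact absurd h5 hpR'
          · exact h5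
        · exact Or.inr
      have h5 : p ∣ R * n := (Nat.dvd_of_mem_primeFactors hp).mul_right n
      simp only [indG, ArithmeticFunction.coe_mk, h4, h5, true_and]
      split_ifs <;> norm_num at *
    rw [Finset.prod_congr rfl h1,
      (indG_mult n hn).prodPrimeFactors_one_sub_of_squarefree _ hR]
    refine Finset.sum_congr rfl fun f _ => ?_
    have h6 : R * f ∣ R * n ↔ f ∣ n := Nat.mul_dvd_mul_iff_left (Nat.pos_of_ne_zero hR0)
    simp only [indG, ArithmeticFunction.coe_mk, h6]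
  · have h1 : ∑ f ∈ R.divisors,
        (ArithmeticFunction.moebius f : ℝ) * (if R * f ∣ d then 1 else 0) = 0 := by
      refine Finset.sum_eq_zero fun f _ => ?_
      rw [if_neg (fun h2 => h ((Dvd.intro f rfl).trans h2)), mul_zero]
    rw [h1]
    have h2 : ∃ p ∈ R.primeFactors, ¬ p ∣ d := by
      by_contra hc
      push_neg at hc
      apply h
      rw [← Nat.prod_primeFactors_of_squarefree hR]
      refine Finset.prod_primes_dvd d ?_ hc
      intro p hp
      exact (Nat.prime_of_mem_primeFactors hp).prime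
    obtain ⟨p, hp, hpd⟩ := h2
    refine Finset.prod_eq_zero hp ?_
    rw [if_neg (fun h3 => hpd h3.1)]

theorem p_ind : D_ind := by
  classical
  intro m c ε σ κ u hf hσ y P Q R hp d hd
  have hP0 : P ≠ 0 := hp.sf.ne_zero
  have hRs : Squarefree R := hp.sf.squarefree_of_dvd hp.hR
  have hR0 : R ≠ 0 := hRs.ne_zero
  obtain ⟨P₁, hP₁⟩ := hp.hR
  have hdiv : P / R = P₁ := by
    rw [hP₁]
    exact Nat.mul_div_cancel_left P₁ (Nat.pos_of_ne_zero hR0)
  have hP₁s : Squarefree P₁ := hp.sf.squarefree_of_dvd ⟨R, by rw [hP₁, mul_comm]⟩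
  have hcop : Nat.Coprime R P₁ := by
    have := hp.sf
    rw [hP₁] at this
    exact Nat.coprime_of_squarefree_mul this
  have hd0 : d ≠ 0 := by
    rintro rfl
    apply hd.2
    exact ⟨0, by simp⟩
  have hpf : P.primeFactors = R.primeFactors ∪ P₁.primeFactors := by
    rw [hP₁, hcop.primeFactors_mul]
  rw [hdiv]
  have key : (if RP m c σ u P Q R d then (1 : ℝ) else 0) =
      (∏ p ∈ R.primeFactors, (if p ∣ d ∧ ¬ p ^ 2 ∣ d then (1 : ℝ) else 0)) *
      (∏ p ∈ P₁.primeFactors,
        (if sy σ u d p = (if p ∣ Q then -1 else 1) then (1 : ℝ) else 0)) := by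
    rw [Finset.prod_boole, Finset.prod_boole]
    have h1 : RP m c σ u P Q R d ↔ (∀ p ∈ R.primeFactors, p ∣ d ∧ ¬ p ^ 2 ∣ d) ∧
        (∀ p ∈ P₁.primeFactors, sy σ u d p = (if p ∣ Q then -1 else 1)) := by
      unfold RP
      rw [hpf]
      constructor
      · rintro ⟨-, h⟩
        refine ⟨fun p hp1 => ?_, fun p hp1 => ?_⟩
        · exact (h p (Finset.mem_union_left _ hp1)).1 (Nat.dvd_of_mem_primeFactors hp1)
        · refine (h p (Finset.mem_union_right _ hp1)).2 fun h2 => ?_
          have h3 : p ∣ 1 := by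
            rw [← Nat.Coprime.gcd_eq_one hcop]
            exact Nat.dvd_gcd h2 (Nat.dvd_of_mem_primeFactors hp1)
          exact (Nat.prime_of_mem_primeFactors hp1).one_lt.ne' (Nat.dvd_one.1 h3)
      · rintro ⟨h2, h3⟩
        refine ⟨hd, fun p hp1 => ⟨fun h4 => ?_, fun h4 => ?_⟩⟩
        · have hpp : p.Prime := by
            rcases Finset.mem_union.1 hp1 with h5 | h5 <;> exact Nat.prime_of_mem_primeFactors h5
          exact h2 p (Nat.mem_primeFactors.2 ⟨hpp, h4, hR0⟩)
        · rcases Finset.mem_union.1 hp1 with h5 | h5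
          · exact absurd (Nat.dvd_of_mem_primeFactors h5) h4
          · exact h3 p h5
    by_cases hA : RP m c σ u P Q R d
    · rw [if_pos hA, if_pos (h1.1 hA).1, if_pos (h1.1 hA).2, mul_one]
    · rw [if_neg hA]
      by_cases hB : ∀ p ∈ R.primeFactors, p ∣ d ∧ ¬ p ^ 2 ∣ d
      · have hC : ¬ (∀ p ∈ P₁.primeFactors, sy σ u d p = (if p ∣ Q then -1 else 1)) :=
          fun hC => hA (h1.2 ⟨hB, hC⟩)
        rw [if_neg hC, mul_zero]
      · rw [if_neg hB, zero_mul]
  rw [key, ind_ram R d hRs hd0, ind_unr σ u d Q P₁ hP₁s, mul_left_comm, Finset.sum_mul_sum,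
    Finset.sum_comm]
  congr 1
  refine Finset.sum_congr rfl fun e _ => Finset.sum_congr rfl fun f _ => ?_
  by_cases h : R * f ∣ d
  · rw [if_pos h, if_pos h]
    ring
  · rw [if_neg h, if_neg h]
    ring

end Pool.Agent.MP0016c7.Rz
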