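import Mathlib
import Pool.Agent.Lib.MP_0016c7_nt.PS.Stm
import Pool.Agent.Lib.MP_0016c7_nt.Rz.Ker5

set_option autoImplicit false

/-!
Prescribed splitting: the first moment of the base process from the second moment.
-/

open Finset MeasureTheory Filter Topology
open scoped Real ContDiff

namespace Pool.Agent.MP0016c7.Rz

private lemma m1b_compact {F : ℝ → ℝ} {a b : ℝ} (hF : Bump F a b) : HasCompactSupport F :=
  HasCompactSupport.intro (isCompact_Icc (a := a) (b := b)) fun t ht => by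
    by_contra h
    obtain ⟨h1, h2⟩ := hF.supp t h
    exact ht ⟨h1.le, h2.le⟩

private lemma m1b_int {F : ℝ → ℝ} {a b : ℝ} (hF : Bump F a b) : Integrable F :=
  hF.smooth.continuous.integrable_of_hasCompactSupport (m1b_compact hF)

private lemma m1b_HH {h : ℝ → ℝ} {a b : ℝ} (hh : Bump h a b) (v : ℝ) :
    |HH h v| ≤ ∫ t, |h t| := by
  unfold HH
  have hi := (m1b_int hh).norm
  have h1 : ‖∫ t in Set.Ioi v, h t‖ ≤ ∫ t in Set.Ioi v, ‖h t‖ := norm_integral_le_integral_norm _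
  have h2 : ∫ t in Set.Ioi v, ‖h t‖ ≤ ∫ t, ‖h t‖ :=
    setIntegral_le_integral hi (Filter.Eventually.of_forall fun t => norm_nonneg _)
  exact h1.trans h2

private lemma m1b_CC_bound {δ θ : ℝ} (hδ4 : δ ≤ 1 / 4) {ρ h : ℝ → ℝ}
    (hρ : Bump ρ (-(δ / 2)) (δ / 2)) (hh : Bump h 0 θ) :
    ∃ K : ℝ, 0 ≤ K ∧ ∀ Y ∈ Set.Icc (-1 : ℝ) (1 / 2 + δ), |CC ρ ρ h Y Y| ≤ K := by
  set H1 := ∫ t, |h t| with hH1
  set J := ∫ t : ℝ, h t ^ 2 with hJ
  have hJ0 : 0 ≤ J := integral_nonneg fun t => sq_nonneg _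
  have hH0 : 0 ≤ H1 := integral_nonneg fun t => abs_nonneg _
  set R := ∫ t, |ρ t| with hR
  have hRi : Integrable (fun t => |ρ t|) := (m1b_int hρ).norm
  have hR0 : 0 ≤ R := integral_nonneg fun t => abs_nonneg _
  set K0 := H1 ^ 2 + J * 2 with hK0
  have hK00 : 0 ≤ K0 := by positivity
  refine ⟨R * (R * K0), by (clear * -; positivity), fun Y hY => ?_⟩
  obtain ⟨hY1, hY2⟩ := hY
  have hpt : ∀ x y : ℝ, ‖ρ x * ρ y * (HH h (x - Y) * HH h (y - Y) +
      J * (max (min (Y - x) (Y - y)) 0 - max (Y - x + (Y - y) - 1) 0))‖ ≤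
      |ρ x| * (|ρ y| * K0) := by
    intro x y
    by_cases hx : ρ x = 0
    · simp [hx]
    by_cases hy : ρ y = 0
    · simp [hy]
    obtain ⟨hx1, hx2⟩ := hρ.supp x hx
    obtain ⟨hy1, hy2⟩ := hρ.supp y hy
    rw [norm_mul, norm_mul, Real.norm_eq_abs, Real.norm_eq_abs, mul_assoc]
    refine mul_le_mul_of_nonneg_left (mul_le_mul_of_nonneg_left ?_ (abs_nonneg _)) (abs_nonneg _)
    refine (norm_add_le _ _).trans ?_
    rw [norm_mul, norm_mul, Real.norm_eq_abs, Real.norm_eq_abs, Real.norm_eq_abs, Real.norm_eq_abs,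
      abs_of_nonneg hJ0, hK0, sq]
    refine add_le_add (mul_le_mul (m1b_HH hh _) (m1b_HH hh _) (abs_nonneg _) hH0)
      (mul_le_mul_of_nonneg_left ?_ hJ0)
    have h1 : min (Y - x) (Y - y) ≤ 2 := (min_le_left _ _).trans (by linarith)
    have h2 : max (min (Y - x) (Y - y)) 0 ≤ 2 := max_le h1 (by norm_num)
    have h3 : 0 ≤ max (min (Y - x) (Y - y)) 0 := le_max_right _ _
    have h4 : max (Y - x + (Y - y) - 1) 0 ≤ 2 := max_le (by linarith) (by norm_num)
    have h5 : 0 ≤ max (Y - x + (Y - y) - 1) 0 := le_max_right _ _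
    rw [abs_le]
    constructor <;> linarith
  unfold CC
  have h1 : ∀ x : ℝ, ‖∫ y : ℝ, ρ x * ρ y * (HH h (x - Y) * HH h (y - Y) +
      J * (max (min (Y - x) (Y - y)) 0 - max (Y - x + (Y - y) - 1) 0))‖ ≤ |ρ x| * (R * K0) := by
    intro x
    have hg : Integrable (fun y => |ρ x| * (|ρ y| * K0)) := (hRi.mul_const _).const_mul _
    refine (norm_integral_le_of_norm_le hg (Filter.Eventually.of_forall fun y => hpt x y)).trans ?_
    rw [integral_const_mul, integral_mul_const]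
  have hg : Integrable (fun x => |ρ x| * (R * K0)) := hRi.mul_const _
  refine (norm_integral_le_of_norm_le hg (Filter.Eventually.of_forall h1)).trans ?_
  rw [integral_mul_const]

private lemma m1b_HHd {δ : ℝ} {ρ h : ℝ → ℝ} (hδ : 0 < δ)
    (hρ : Bump ρ (-(δ / 2)) (δ / 2)) (hρ1 : ∫ y, ρ y = 1)
    (hconst : ∀ t ≤ 3 * δ / 2, HH h t = HH h 0) :
    ∫ y, ρ y * HH h (y - -(3 * δ / 4)) = HH h 0 := by
  have e : ∀ y, ρ y * HH h (y - -(3 * δ / 4)) = ρ y * HH h 0 := by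
    intro y
    by_cases hy : ρ y = 0
    · simp [hy]
    · obtain ⟨hy1, hy2⟩ := hρ.supp y hy
      rw [hconst _ (by linarith)]
  simp_rw [e]
  rw [integral_mul_const, hρ1, one_mul]

private lemma m1b_CC_eq {δ : ℝ} (hδ : 0 < δ) (hδ4 : δ ≤ 1 / 4) {ρ h : ℝ → ℝ}
    (hρ : Bump ρ (-(δ / 2)) (δ / 2)) (hρ1 : ∫ y, ρ y = 1)
    (hconst : ∀ t ≤ 3 * δ / 2, HH h t = HH h 0) (Y : ℝ) (hY : Y ≤ 1 / 2 + δ) :
    CC ρ ρ h Y (-(3 * δ / 4)) = HH h 0 * ∫ y, ρ y * HH h (y - Y) := by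
  unfold CC
  set J := ∫ t : ℝ, h t ^ 2 with hJ
  have hpt : ∀ x y : ℝ, ρ x * ρ y * (HH h (x - Y) * HH h (y - -(3 * δ / 4)) +
      J * (max (min (Y - x) (-(3 * δ / 4) - y)) 0 - max (Y - x + (-(3 * δ / 4) - y) - 1) 0)) =
      (ρ x * HH h (x - Y)) * (ρ y * HH h 0) := by
    intro x y
    by_cases hx : ρ x = 0
    · simp [hx]
    by_cases hy : ρ y = 0
    · simp [hy]
    obtain ⟨hx1, hx2⟩ := hρ.supp x hx
    obtain ⟨hy1, hy2⟩ := hρ.supp y hy
    have h1 : max (min (Y - x) (-(3 * δ / 4) - y)) 0 = 0 :=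
      max_eq_right ((min_le_right _ _).trans (by linarith only [hδ, hy1]))
    have h2 : max (Y - x + (-(3 * δ / 4) - y) - 1) 0 = 0 := max_eq_right (by linarith)
    rw [h1, h2, hconst (y - -(3 * δ / 4)) (by linarith)]
    ring
  simp_rw [hpt]
  simp_rw [integral_const_mul, integral_mul_const, hρ1]
  rw [one_mul]
  ring

/-- The average is a finite weighted sum with nonnegative weights. -/
private lemma m1b_avS {F : ℝ → ℝ} {a b : ℝ} (hF : Bump F a b) (hFn : ∀ t, 0 ≤ F t)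
    (Rc : ℕ → Prop) (D : ℝ) (hD : 0 < D) (X : ℝ) (hX : 0 < X) :
    ∃ (N : ℕ) (w : ℕ → ℝ), (∀ d, 0 ≤ w d) ∧
      ∀ g : ℕ → ℝ, avS Rc D F X g = ∑ d ∈ range N, w d * g d := by
  classical
  refine ⟨⌈|b| * X⌉₊, fun d => 1 / (D * X) * (@ite ℝ (Rc d) (Classical.dec _) (F (d / X)) 0),
    fun d => ?_, fun g => ?_⟩
  · refine mul_nonneg (by positivity) ?_
    split_ifs
    · exact hFn _
    · exact le_rfl
  · unfold avS
    rw [tsum_eq_sum (s := range ⌈|b| * X⌉₊)]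
    · rw [Finset.mul_sum]
      refine Finset.sum_congr rfl fun d _ => ?_
      by_cases hR : Rc d
      · simp only [hR, if_true]; ring
      · simp only [hR, if_false]; ring
    · intro d hd
      have hd' : ⌈|b| * X⌉₊ ≤ d := by simpa using hd
      have h1 : |b| * X ≤ d := (Nat.le_ceil _).trans (by exact_mod_cast hd')
      have h2 : F (d / X) = 0 := by
        by_contra h
        have h3 := (hF.supp _ h).2
        rw [div_lt_iff₀ hX] at h3
        have h4 : b * X ≤ |b| * X := mul_le_mul_of_nonneg_right (le_abs_self b) hX.le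
        linarith
      rw [h2]; simp

theorem p_m1b (hs : D_size) : D_m1b := by
  intro δ θ hδ hδ4 hθ hθ1 c₀ X y P Q R hp F a b ha hF hFn hF0 σ m c ε κ u hf c' hc' ρ h hρ hρ1 hh
    hconst hpos hz h2 ε' hε'
  obtain ⟨K, hK0, hK⟩ := m1b_CC_bound hδ4 hρ hh
  set I := ∫ t, F t with hI
  set c0 := HH h 0 with hc0
  set T := (I + 1) + (I * K + 1) with hT
  have hT0 : 0 < T := by (clear * - hF0 hK0; positivity)
  have hε₁ : 0 < ε' * c0 / 2 := by positivity
  have hε₂ : 0 < ε' * c0 / (2 * T) := by positivity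
  obtain ⟨X₄, h4⟩ := ytil_det hδ hθ hρ hh c' hc' σ _ hε₂
  filter_upwards [h2 _ hε₁, h2 1 one_pos, hz 1 one_pos, hp.lim.eventually_ge_atTop X₄]
    with n a1' a2' a3 hX4 Y hY
  have hmem : -(3 * δ / 4) ∈ Set.Icc (-1 : ℝ) (1 / 2 + δ) := ⟨by linarith, by linarith⟩
  have a1 := a1' Y hY _ hmem
  have a2 := a2' Y hY Y hY
  have a4 := fun d : ℕ => h4 (X n) hX4 d (-(3 * δ / 4)) ⟨by linarith, by linarith⟩
  rw [m1b_CC_eq hδ hδ4 hρ hρ1 hconst Y hY.2] at a1
  simp only [m1b_HHd hδ hρ hρ1 hconst] at a4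
  have hX1 := hp.one n
  have hD : 0 < DP m (P n) (R n) := by
    have hm : m = 2 ∨ m = 8 := by
      rcases hf with ⟨h, _⟩ | ⟨h, _⟩ | ⟨h, _⟩ | ⟨h, _⟩ | ⟨h, _⟩ <;> simp [h]
    exact ((hs c₀ (X n) (y n) (P n) (Q n) (R n) hp.c0 hX1 (hp.le n) (hp.pat n)).2.2.2.2.2 m hm).1
  obtain ⟨N, w, hw0, hav⟩ := m1b_avS hF hFn (RP m c σ u (P n) (Q n) (R n)) _ hD (X n)
    (by linarith)
  unfold avP at a1 a2 a3 ⊢
  rw [hav] at a1 a2 a3 ⊢
  set y : ℕ → ℝ := fun d => yB c' σ u (P n) ρ h (X n) d Y with hy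
  set z : ℕ → ℝ := fun d => yB c' σ u (P n) ρ h (X n) d (-(3 * δ / 4)) with hzd
  set S := ∫ y, ρ y * HH h (y - Y) with hR
  change |∑ d ∈ range N, w d * (y d * z d) - I * (c0 * S)| ≤ ε' * c0 / 2 at a1
  change |∑ d ∈ range N, w d * (y d * y d) - I * CC ρ ρ h Y Y| ≤ 1 at a2
  change |∑ d ∈ range N, w d * 1 - I| ≤ 1 at a3
  change |∑ d ∈ range N, w d * y d - I * S| ≤ ε'
  have b2 : ∑ d ∈ range N, w d * (y d * y d) ≤ I * K + 1 := by
    have := (abs_le.1 a2).2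
    have h5 : I * CC ρ ρ h Y Y ≤ I * K :=
      mul_le_mul_of_nonneg_left ((le_abs_self _).trans (hK Y hY)) hF0.le
    linarith
  have b3 : ∑ d ∈ range N, w d * 1 ≤ I + 1 := by
    have := (abs_le.1 a3).2
    linarith
  have b4 : |∑ d ∈ range N, w d * (y d * (z d - c0))| ≤ ε' * c0 / (2 * T) * T := by
    have h5 : |∑ d ∈ range N, w d * (y d * (z d - c0))| ≤
        ∑ d ∈ range N, ε' * c0 / (2 * T) * (w d * 1 + w d * (y d * y d)) := by
      refine (Finset.abs_sum_le_sum_abs _ _).trans (Finset.sum_le_sum fun d _ => ?_)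
      rw [abs_mul, abs_of_nonneg (hw0 d), abs_mul]
      have h6 : |z d - c0| ≤ ε' * c0 / (2 * T) := a4 (u * (P n ^ 2 * d))
      have h7 : |y d| ≤ 1 + y d * y d := by
        rw [← abs_mul_abs_self (y d)]
        nlinarith only [sq_nonneg (|y d| - 1), abs_nonneg (y d)]
      calc w d * (|y d| * |z d - c0|) ≤ w d * ((1 + y d * y d) * (ε' * c0 / (2 * T))) := by
            refine mul_le_mul_of_nonneg_left ?_ (hw0 d)
            exact mul_le_mul h7 h6 (abs_nonneg _) (by nlinarith only [mul_self_nonneg (y d)])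
        _ = ε' * c0 / (2 * T) * (w d * 1 + w d * (y d * y d)) := by ring
    calc |∑ d ∈ range N, w d * (y d * (z d - c0))|
        ≤ ∑ d ∈ range N, ε' * c0 / (2 * T) * (w d * 1 + w d * (y d * y d)) := h5
      _ = ε' * c0 / (2 * T) * (∑ d ∈ range N, w d * 1 + ∑ d ∈ range N, w d * (y d * y d)) := by
          rw [← Finset.mul_sum, Finset.sum_add_distrib]
      _ ≤ ε' * c0 / (2 * T) * T := by
          refine mul_le_mul_of_nonneg_left ?_ hε₂.le
          rw [hT]; linarith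
  have b5 : ε' * c0 / (2 * T) * T = ε' * c0 / 2 := by field_simp
  rw [b5] at b4
  have b6 : c0 * (∑ d ∈ range N, w d * y d - I * S) =
      (∑ d ∈ range N, w d * (y d * z d) - I * (c0 * S)) -
        ∑ d ∈ range N, w d * (y d * (z d - c0)) := by
    have : ∑ d ∈ range N, w d * (y d * (z d - c0)) =
        ∑ d ∈ range N, w d * (y d * z d) - c0 * ∑ d ∈ range N, w d * y d := by
      rw [Finset.mul_sum, ← Finset.sum_sub_distrib]
      exact Finset.sum_congr rfl fun d _ => by ring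
    rw [this]; ring
  have b7 : c0 * |∑ d ∈ range N, w d * y d - I * S| ≤ c0 * ε' := by
    rw [← abs_of_pos hpos, ← abs_mul, abs_of_pos hpos, b6]
    refine (abs_sub _ _).trans ?_
    linarith
  exact le_of_mul_le_mul_left b7 hpos

end Pool.Agent.MP0016c7.Rz
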