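import Mathlib
import Pool.Agent.Lib.MP_0016c7_nt.PS.Stm
import Pool.Agent.Lib.MP_0016c7_nt.Rz.Ker1

set_option autoImplicit false

/-!
[PS m1s]: transfer of the first moment.
-/

open Finset MeasureTheory Filter Topology
open scoped Real ContDiff

namespace Pool.Agent.MP0016c7.Rz

/-- `n ↦ n^(-1/4)`. -/
noncomputable def m1s_f : ℕ →* ℝ where
  toFun n := (n : ℝ) ^ (-(1 / 4) : ℝ)
  map_one' := by simp
  map_mul' a b := by
    push_cast
    exact Real.mul_rpow (Nat.cast_nonneg _) (Nat.cast_nonneg _)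

theorem m1s_sum_fac (A : Finset ℕ) :
    Summable ((Nat.factoredNumbers A).indicator (fun n : ℕ => (n : ℝ) ^ (-(1 / 4) : ℝ))) := by
  have h := (EulerProduct.summable_and_hasSum_factoredNumbers_prod_filter_prime_geometric
    (f := m1s_f) (fun {p} hp => by
      have h2 : (1 : ℝ) < p := by exact_mod_cast hp.one_lt
      show ‖(p : ℝ) ^ (-(1 / 4) : ℝ)‖ < 1
      rw [Real.norm_of_nonneg (by positivity)]
      exact Real.rpow_lt_one_of_one_lt_of_neg h2 (by norm_num)) A).2.summable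
  exact summable_subtype_iff_indicator.mp h

/-- Summability of the mean shift. -/
theorem m1s_summ (hw : D_wS) (A B : Finset ℕ) (hA : ∀ p ∈ A, p.Prime) (hB : ∀ p ∈ B, p.Prime)
    (L : ℝ) (hL : 0 < L) : Summable (fun q => wS A B q * |sS L q|) := by
  classical
  obtain ⟨hw0, -, -⟩ := hw A B hA hB
  have hP0 : (∏ p ∈ B, p) ≠ 0 := Finset.prod_ne_zero_iff.mpr fun p hp => (hB p hp).ne_zero
  have hP1 : (1 : ℝ) ≤ ((∏ p ∈ B, p : ℕ) : ℝ) := by
    exact_mod_cast Nat.one_le_iff_ne_zero.mpr hP0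
  have hg : Summable (fun b : ℕ => if b ∣ ∏ p ∈ B, p then (1 : ℝ) else 0) := by
    refine summable_of_ne_finset_zero (s := (∏ p ∈ B, p).divisors) fun b hb => ?_
    rw [if_neg]
    intro h
    exact hb (Nat.mem_divisors.mpr ⟨h, hP0⟩)
  have hfg := (m1s_sum_fac A).mul_of_nonneg hg
    (fun n => Set.indicator_nonneg (fun n _ => by positivity) n)
    (fun b => by simp only; split_ifs <;> norm_num)
  set c : ℝ := (∏ p ∈ A, (1 - 1 / √(p : ℝ))) / (∏ p ∈ B, (1 + 1 / √(p : ℝ))) with hc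
  have hc0 : 0 ≤ c := by
    refine div_nonneg (Finset.prod_nonneg fun p hp => ?_) (Finset.prod_nonneg fun p _ => by positivity)
    have h1 : (1 : ℝ) ≤ √(p : ℝ) := by
      rw [Real.one_le_sqrt]
      exact_mod_cast (hA p hp).one_le
    have : 1 / √(p : ℝ) ≤ 1 := by
      rw [div_le_one (by positivity)]
      exact h1
    linarith
  refine Summable.of_nonneg_of_le (fun q => mul_nonneg (hw0 q) (abs_nonneg _)) (fun q => ?_)
    (hfg.mul_left (c * ((4 + Real.log ((∏ p ∈ B, p : ℕ) : ℝ)) / L)))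
  by_cases hq : q.1 ∈ Nat.factoredNumbers A ∧ q.2 ∣ ∏ p ∈ B, p
  · have hn0 : q.1 ≠ 0 := Nat.ne_zero_of_mem_factoredNumbers hq.1
    have hb0 : q.2 ≠ 0 := fun h => hP0 (Nat.eq_zero_of_zero_dvd (h ▸ hq.2))
    have hn1 : (1 : ℝ) ≤ (q.1 : ℝ) := by exact_mod_cast Nat.one_le_iff_ne_zero.mpr hn0
    have hb1 : (1 : ℝ) ≤ (q.2 : ℝ) := by exact_mod_cast Nat.one_le_iff_ne_zero.mpr hb0
    have e1 : wS A B q = c * (1 / √((q.1 * q.2 : ℕ) : ℝ)) := by
      unfold wS
      rw [if_pos hq]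
    have e2 : 1 / √((q.1 * q.2 : ℕ) : ℝ) ≤ (q.1 : ℝ) ^ (-(1 / 2) : ℝ) := by
      rw [Real.rpow_neg (by linarith), ← Real.sqrt_eq_rpow, ← one_div]
      apply one_div_le_one_div_of_le (Real.sqrt_pos.mpr (by linarith))
      apply Real.sqrt_le_sqrt
      push_cast
      nlinarith
    have e3 : |sS L q| ≤ (4 + Real.log ((∏ p ∈ B, p : ℕ) : ℝ)) / L * (q.1 : ℝ) ^ (1 / 4 : ℝ) := by
      unfold sS
      rw [abs_div, abs_of_pos hL, div_mul_eq_mul_div]
      apply div_le_div_of_nonneg_right _ hL.le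
      have l1 : 0 ≤ Real.log q.1 := Real.log_nonneg hn1
      have l2 : 0 ≤ Real.log q.2 := Real.log_nonneg hb1
      have l3 : Real.log q.1 ≤ (q.1 : ℝ) ^ (1 / 4 : ℝ) / (1 / 4) :=
        Real.log_le_rpow_div (by linarith) (by norm_num)
      have l4 : Real.log q.2 ≤ Real.log ((∏ p ∈ B, p : ℕ) : ℝ) := by
        apply Real.log_le_log (by linarith)
        exact_mod_cast Nat.le_of_dvd (Nat.pos_of_ne_zero hP0) hq.2
      have l5 : (1 : ℝ) ≤ (q.1 : ℝ) ^ (1 / 4 : ℝ) := Real.one_le_rpow hn1 (by norm_num)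
      have l6 : 0 ≤ Real.log ((∏ p ∈ B, p : ℕ) : ℝ) := Real.log_nonneg hP1
      have l7 : |Real.log q.1 - Real.log q.2| ≤ Real.log q.1 + Real.log q.2 := by
        rw [abs_le]
        constructor <;> linarith
      nlinarith
    have e4 : (q.1 : ℝ) ^ (-(1 / 2) : ℝ) * (q.1 : ℝ) ^ (1 / 4 : ℝ) = (q.1 : ℝ) ^ (-(1 / 4) : ℝ) := by
      rw [← Real.rpow_add (by linarith)]
      norm_num
    rw [e1, Set.indicator_of_mem hq.1, if_pos hq.2, mul_one]
    have h0 : 0 ≤ (4 + Real.log ((∏ p ∈ B, p : ℕ) : ℝ)) / L :=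
      div_nonneg (by have := Real.log_nonneg hP1; linarith) hL.le
    calc c * (1 / √((q.1 * q.2 : ℕ) : ℝ)) * |sS L q|
        ≤ c * (q.1 : ℝ) ^ (-(1 / 2) : ℝ) *
          ((4 + Real.log ((∏ p ∈ B, p : ℕ) : ℝ)) / L * (q.1 : ℝ) ^ (1 / 4 : ℝ)) := by
          apply mul_le_mul (mul_le_mul_of_nonneg_left e2 hc0) e3 (abs_nonneg _)
          exact mul_nonneg hc0 (by positivity)
      _ = c * ((4 + Real.log ((∏ p ∈ B, p : ℕ) : ℝ)) / L) *
          ((q.1 : ℝ) ^ (-(1 / 2) : ℝ) * (q.1 : ℝ) ^ (1 / 4 : ℝ)) := by ring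
      _ = _ := by rw [e4]
  · have e1 : wS A B q = 0 := by
      unfold wS
      rw [if_neg hq, mul_zero]
    rw [e1, zero_mul]
    have h0 : 0 ≤ (4 + Real.log ((∏ p ∈ B, p : ℕ) : ℝ)) / L :=
      div_nonneg (by have := Real.log_nonneg hP1; linarith) hL.le
    refine mul_nonneg (mul_nonneg hc0 h0) (mul_nonneg ?_ ?_)
    · exact Set.indicator_nonneg (fun n _ => by positivity) _
    · split_ifs <;> norm_num

/-- The average `avS` is a finite sum with nonnegative coefficients. -/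
theorem m1s_avS_fin {Rc : ℕ → Prop} {D : ℝ} (hD : 0 < D) {F : ℝ → ℝ} {a b : ℝ} (hF : Bump F a b)
    (hFn : ∀ t, 0 ≤ F t) {X : ℝ} (hX : 0 < X) : ∃ (N : ℕ) (cf : ℕ → ℝ), (∀ d, 0 ≤ cf d) ∧
      ∀ g : ℕ → ℝ, avS Rc D F X g = ∑ d ∈ range N, cf d * g d := by
  classical
  refine ⟨⌈b * X⌉₊, fun d => 1 / (D * X) * (if Rc d then F (d / X) else 0), fun d => ?_,
    fun g => ?_⟩
  · refine mul_nonneg (by positivity) ?_
    split_ifs
    · exact hFn _
    · exact le_rfl
  · unfold avS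
    rw [tsum_eq_sum (s := range ⌈b * X⌉₊), Finset.mul_sum]
    · refine Finset.sum_congr rfl fun d _ => ?_
      by_cases hd : Rc d
      · simp only [hd, if_true]
        ring
      · simp only [hd, if_false]
        ring
    · intro d hd
      have hd' : b * X ≤ d := by
        refine (Nat.le_ceil _).trans ?_
        exact_mod_cast not_lt.mp fun h => hd (Finset.mem_range.mpr h)
      have h0 : F (d / X) = 0 := by
        by_contra hne
        have h1 := (hF.supp _ hne).2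
        rw [div_lt_iff₀ hX] at h1
        linarith
      rw [h0, zero_mul]
      split_ifs <;> rfl

theorem m1s_int {ρ h : ℝ → ℝ} {a b c d : ℝ} (hρ : Bump ρ a b) (hh : Bump h c d) (Y : ℝ) :
    Integrable fun y : ℝ => ρ y * HH h (y - Y) := by
  apply Continuous.integrable_of_hasCompactSupport
  · have h1 := K1x.HH_cont hh
    have h2 := hρ.smooth.continuous
    fun_prop
  · exact (K1x.bump_compact hρ).mul_right

theorem m1s_bd {ρ h : ℝ → ℝ} {a b c d : ℝ} (hρ : Bump ρ a b) (hh : Bump h c d) (Y : ℝ) :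
    |∫ y, ρ y * HH h (y - Y)| ≤ (∫ y, |ρ y|) * ∫ y, |h y| := by
  rw [← integral_mul_const, ← Real.norm_eq_abs]
  refine norm_integral_le_of_norm_le ((K1x.bump_int hρ).abs.mul_const _)
    (Eventually.of_forall fun y => ?_)
  rw [norm_mul, Real.norm_eq_abs, Real.norm_eq_abs]
  exact mul_le_mul_of_nonneg_left (K1x.HH_abs hh _) (abs_nonneg _)

theorem m1s_lip {ρ h : ℝ → ℝ} {a b c d S : ℝ} (hρ : Bump ρ a b) (hh : Bump h c d)
    (hS : ∀ t, |h t| ≤ S) (Y Y' : ℝ) :
    |(∫ y, ρ y * HH h (y - Y)) - ∫ y, ρ y * HH h (y - Y')| ≤ (∫ y, |ρ y|) * (S * |Y - Y'|) := by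
  rw [← integral_sub (m1s_int hρ hh Y) (m1s_int hρ hh Y'), ← integral_mul_const,
    ← Real.norm_eq_abs]
  refine norm_integral_le_of_norm_le ((K1x.bump_int hρ).abs.mul_const _)
    (Eventually.of_forall fun y => ?_)
  rw [← mul_sub, norm_mul, Real.norm_eq_abs, Real.norm_eq_abs]
  apply mul_le_mul_of_nonneg_left _ (abs_nonneg _)
  refine (K1x.HH_lip hh hS _ _).trans (le_of_eq ?_)
  rw [show y - Y - (y - Y') = -(Y - Y') by ring, abs_neg]

theorem p_m1s (hw : D_wS) (hc : D_shc) : D_m1s := by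
  intro Rc D X one lim hD hDs δ s₀ hδ hδ4 hs₀ A B hq ρ h hρ θ hh T hcT hb hs hm F hF hFn hF0 ε hε
  obtain ⟨S, hS0, hS⟩ := K1x.bump_bd hh
  set I := ∫ t, F t with hI
  set K := (∫ y, |ρ y|) * ∫ y, |h y| with hK
  set K2 := (∫ y, |ρ y|) * S with hK2
  have hρ0 : 0 ≤ ∫ y, |ρ y| := integral_nonneg fun y => abs_nonneg _
  have hK0 : 0 ≤ K := mul_nonneg hρ0 (integral_nonneg fun y => abs_nonneg _)
  have hK20 : 0 ≤ K2 := mul_nonneg hρ0 hS0
  set C := I * (K2 + 2 * K) with hC
  have hC0 : 0 ≤ C := mul_nonneg hF0.le (by linarith)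
  set G : ℝ → ℝ := fun Y => ∫ y, ρ y * HH h (y - Y) with hG
  -- the eventual conditions
  have hX30 : ∀ᶠ n in atTop, X n ^ (-30 : ℝ) * (I + 1) ≤ ε / 2 := by
    have h1 : Tendsto (fun n => X n ^ (-30 : ℝ) * (I + 1)) atTop (𝓝 (0 * (I + 1))) := by
      refine Tendsto.mul_const _ ?_
      exact (tendsto_rpow_neg_atTop (by norm_num : (0 : ℝ) < 30)).comp lim
    rw [zero_mul] at h1
    exact (h1.eventually (gt_mem_nhds (show (0 : ℝ) < ε / 2 by linarith))).mono fun n hn => hn.le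
  have hE : ∀ᶠ n in atTop, C * ∑' q, wS (A n) (B n) q * |sS (Real.log (X n)) q| ≤ ε / 2 := by
    have h1 : Tendsto (fun n => C * ∑' q, wS (A n) (B n) q * |sS (Real.log (X n)) q|) atTop
        (𝓝 (C * 0)) := Tendsto.const_mul _ hq.lim
    rw [mul_zero] at h1
    exact (h1.eventually (gt_mem_nhds (show (0 : ℝ) < ε / 2 by linarith))).mono fun n hn => hn.le
  filter_upwards [hX30, hE, hs, hm F hF hFn hF0 (ε / 2) (by linarith),
    hDs F hF hFn hF0 1 one_pos, hq.low] with n g1 g2 g3 g4 g5 g6 Y hY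
  have hX0 : 0 < X n := by linarith [one n]
  have hL : 0 < Real.log (X n) := Real.log_pos (one n)
  obtain ⟨hw0, hw1, -⟩ := hw (A n) (B n) (hq.pA n) (hq.pB n)
  have hws := m1s_summ hw (A n) (B n) (hq.pA n) (hq.pB n) _ hL
  obtain ⟨N, cf, hcf0, hcf⟩ := m1s_avS_fin (Rc := Rc n) (hD n) hF hFn hX0
  -- the sum of the coefficients
  have hcfs : ∑ d ∈ range N, cf d ≤ I + 1 := by
    have := hcf (fun _ => 1)
    simp only [mul_one] at this
    rw [← this]
    have := (abs_le.mp g5).2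
    linarith
  have hsum1 : HasSum (fun q => ∑ d ∈ range N, cf d * (wS (A n) (B n) q *
      T n d (Y - sS (Real.log (X n)) q)))
      (∑ d ∈ range N, cf d * shf (A n) (B n) (Real.log (X n)) (T n d) Y) := by
    refine hasSum_sum fun d _ => ?_
    refine HasSum.mul_left _ ?_
    have h1 := (hc (A n) (B n) (hq.pA n) (hq.pB n) (Real.log (X n)) hL (T n d) (hcT n d)
      (fun Y₀ => by
        obtain ⟨C, hC⟩ := hb n Y₀
        exact ⟨C, hC d⟩)).1 Y
    exact h1.hasSum
  have hsum2 : HasSum (fun q => wS (A n) (B n) q * (I * G Y)) (1 * (I * G Y)) :=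
    hw1.mul_right _
  have hsum3 := hsum1.sub hsum2
  have hsum4 : HasSum (fun q => wS (A n) (B n) q * (ε / 2) +
      C * (wS (A n) (B n) q * |sS (Real.log (X n)) q|))
      (1 * (ε / 2) + C * ∑' q, wS (A n) (B n) q * |sS (Real.log (X n)) q|) :=
    (hw1.mul_right _).add (hws.hasSum.mul_left _)
  have hfin : ‖(∑ d ∈ range N, cf d * shf (A n) (B n) (Real.log (X n)) (T n d) Y) -
      1 * (I * G Y)‖ ≤ 1 * (ε / 2) + C * ∑' q, wS (A n) (B n) q * |sS (Real.log (X n)) q| := by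
    refine hsum3.norm_le_of_bounded hsum4 fun q => ?_
    by_cases hq0 : wS (A n) (B n) q = 0
    · simp [hq0]
    have hlow := g6 q hq0
    set s := sS (Real.log (X n)) q with hsdef
    set w := wS (A n) (B n) q with hwdef
    have hwn : 0 ≤ w := hw0 q
    have e1 : ∑ d ∈ range N, cf d * (w * T n d (Y - s)) =
        w * ∑ d ∈ range N, cf d * T n d (Y - s) := by
      rw [Finset.mul_sum]
      exact Finset.sum_congr rfl fun d _ => by ring
    rw [e1, ← mul_sub, norm_mul, Real.norm_of_nonneg hwn, Real.norm_eq_abs]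
    have key : |∑ d ∈ range N, cf d * T n d (Y - s) - I * G Y| ≤ ε / 2 + C * |s| := by
      by_cases hYs : -1 ≤ Y - s
      · have h1 := g4 (Y - s) ⟨hYs, by linarith [hY.2]⟩
        rw [hcf] at h1
        have h2 := m1s_lip hρ hh hS (Y - s) Y
        have h3 : |(I * ∫ y, ρ y * HH h (y - (Y - s))) - I * G Y| ≤ I * (K2 * |s|) := by
          rw [← mul_sub, abs_mul, abs_of_pos hF0]
          apply mul_le_mul_of_nonneg_left _ hF0.le
          refine h2.trans (le_of_eq ?_)
          rw [show Y - s - Y = -s by ring, abs_neg, hK2]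
          ring
        calc |∑ d ∈ range N, cf d * T n d (Y - s) - I * G Y|
            = |(∑ d ∈ range N, cf d * T n d (Y - s) - I * ∫ y, ρ y * HH h (y - (Y - s))) +
              ((I * ∫ y, ρ y * HH h (y - (Y - s))) - I * G Y)| := by
              congr 1
              ring
          _ ≤ ε / 2 + I * (K2 * |s|) := (abs_add_le _ _).trans (add_le_add h1 h3)
          _ ≤ ε / 2 + C * |s| := by
              rw [hC]
              have : 0 ≤ I * (2 * K) * |s| := by positivity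
              nlinarith
      · rw [not_le] at hYs
        have h1 : |∑ d ∈ range N, cf d * T n d (Y - s)| ≤ ε / 2 := by
          calc |∑ d ∈ range N, cf d * T n d (Y - s)|
              ≤ ∑ d ∈ range N, |cf d * T n d (Y - s)| := Finset.abs_sum_le_sum_abs _ _
            _ ≤ ∑ d ∈ range N, cf d * X n ^ (-30 : ℝ) := by
                refine Finset.sum_le_sum fun d _ => ?_
                rw [abs_mul, abs_of_nonneg (hcf0 d)]
                exact mul_le_mul_of_nonneg_left (g3 d _ hYs.le) (hcf0 d)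
            _ = (∑ d ∈ range N, cf d) * X n ^ (-30 : ℝ) := by rw [Finset.sum_mul]
            _ ≤ (I + 1) * X n ^ (-30 : ℝ) :=
                mul_le_mul_of_nonneg_right hcfs (Real.rpow_nonneg hX0.le _)
            _ ≤ ε / 2 := by rw [mul_comm]; exact g1
        have h2 : |I * G Y| ≤ I * K := by
          rw [abs_mul, abs_of_pos hF0]
          exact mul_le_mul_of_nonneg_left (m1s_bd hρ hh Y) hF0.le
        have h3 : 1 ≤ 2 * |s| := by
          have : 1 / 2 ≤ s := by linarith [hY.1]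
          have := le_abs_self s
          linarith
        have h4 : |∑ d ∈ range N, cf d * T n d (Y - s) - I * G Y| ≤ ε / 2 + I * K :=
          (abs_sub _ _).trans (add_le_add h1 h2)
        refine h4.trans ?_
        have h5 : I * K ≤ C * |s| := by
          rw [hC]
          have h6 : I * K ≤ I * K * (2 * |s|) := le_mul_of_one_le_right (by positivity) h3
          have h7 : 0 ≤ I * K2 * |s| := by positivity
          nlinarith
        linarith
    calc w * |∑ d ∈ range N, cf d * T n d (Y - s) - I * G Y| ≤ w * (ε / 2 + C * |s|) :=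
          mul_le_mul_of_nonneg_left key hwn
      _ = w * (ε / 2) + C * (w * |s|) := by ring
  rw [hcf]
  rw [one_mul, one_mul, Real.norm_eq_abs] at hfin
  refine hfin.trans ?_
  linarith

end Pool.Agent.MP0016c7.Rz
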