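import Mathlib
import Pool.Agent.Lib.MP_0016c7_nt.PS.Stm
import Pool.Agent.Lib.MP_0016c7_nt.Rz.Ker1

set_option autoImplicit false

/-!
Prescribed splitting, piece m2s: transfer of the second moment to the shifted processes.
-/

open Finset MeasureTheory Filter Topology
open scoped Real ContDiff

namespace Pool.Agent.MP0016c7.Rz

/-- the completely multiplicative function `n ^ (-1/4)` -/
private noncomputable def m2s_f : ℕ →* ℝ where
  toFun n := (n : ℝ) ^ (-(1 / 4) : ℝ)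
  map_one' := by simp
  map_mul' m n := by
    push_cast
    exact Real.mul_rpow (Nat.cast_nonneg _) (Nat.cast_nonneg _)

private lemma m2s_f_apply (n : ℕ) : m2s_f n = (n : ℝ) ^ (-(1 / 4) : ℝ) := rfl

/-- the mean shift converges absolutely -/
theorem m2s_sum (A B : Finset ℕ) (hB : ∀ p ∈ B, p.Prime) (L : ℝ) :
    Summable fun q => wS A B q * |sS L q| := by
  classical
  have h1 := (EulerProduct.summable_and_hasSum_factoredNumbers_prod_filter_prime_geometric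
    (f := m2s_f) (fun {p} hp => by
      rw [m2s_f_apply, Real.norm_of_nonneg (by positivity)]
      exact Real.rpow_lt_one_of_one_lt_of_neg (by exact_mod_cast hp.one_lt) (by norm_num)) A).1
  have h2 : Summable (Set.indicator (Nat.factoredNumbers A) fun m : ℕ => ‖m2s_f m‖) :=
    summable_subtype_iff_indicator.1 h1
  set PB := ∏ p ∈ B, p with hPB
  have hPB0 : PB ≠ 0 := Finset.prod_ne_zero_iff.2 fun p hp => (hB p hp).ne_zero
  have h3 : Summable fun b : ℕ => if b ∣ PB then (1 : ℝ) else 0 := by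
    refine summable_of_ne_finset_zero (s := PB.divisors) fun b hb => ?_
    rw [if_neg fun h => hb (Nat.mem_divisors.2 ⟨h, hPB0⟩)]
  have h4 : Summable fun q : ℕ × ℕ =>
      Set.indicator (Nat.factoredNumbers A) (fun m : ℕ => ‖m2s_f m‖) q.1 *
        (if q.2 ∣ PB then (1 : ℝ) else 0) :=
    h2.mul_of_nonneg h3 (fun n => Set.indicator_nonneg (fun _ _ => norm_nonneg _) _)
      (fun b => by
        show (0 : ℝ) ≤ (if b ∣ PB then (1 : ℝ) else 0)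
        split_ifs <;> norm_num)
  set c : ℝ := |(∏ p ∈ A, (1 - 1 / √(p : ℝ))) / (∏ p ∈ B, (1 + 1 / √(p : ℝ)))| with hc
  have hc0 : 0 ≤ c := abs_nonneg _
  refine Summable.of_norm_bounded (h4.mul_left (c * ((4 + Real.log PB) / |L|))) fun q => ?_
  unfold wS
  rw [norm_mul, norm_mul, Real.norm_eq_abs, Real.norm_eq_abs, Real.norm_eq_abs, abs_abs]
  by_cases hq : q.1 ∈ Nat.factoredNumbers A ∧ q.2 ∣ PB
  · rw [if_pos hq, if_pos hq.2, Set.indicator_of_mem hq.1, mul_one, m2s_f_apply]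
    have hq1 : 1 ≤ q.1 := Nat.one_le_iff_ne_zero.2 (Nat.ne_zero_of_mem_factoredNumbers hq.1)
    have hq2 : 1 ≤ q.2 := Nat.one_le_iff_ne_zero.2 fun h => hPB0 (by
      have := hq.2; rwa [h, zero_dvd_iff] at this)
    have hq1' : (1 : ℝ) ≤ q.1 := by exact_mod_cast hq1
    have hq2' : (1 : ℝ) ≤ q.2 := by exact_mod_cast hq2
    have hl1 : 0 ≤ Real.log q.1 := Real.log_nonneg hq1'
    have hl2 : 0 ≤ Real.log q.2 := Real.log_nonneg hq2'
    have hl3 : Real.log q.2 ≤ Real.log PB :=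
      Real.log_le_log (by linarith) (by exact_mod_cast Nat.le_of_dvd (Nat.pos_of_ne_zero hPB0) hq.2)
    have hx1 : (1 : ℝ) ≤ (q.1 : ℝ) ^ (1 / 4 : ℝ) := Real.one_le_rpow hq1' (by norm_num)
    have hl4 : Real.log q.1 ≤ 4 * (q.1 : ℝ) ^ (1 / 4 : ℝ) := by
      have := Real.log_le_rpow_div (x := (q.1 : ℝ)) (by linarith) (ε := 1 / 4) (by norm_num)
      linarith
    have hs : |sS L q| ≤ (4 + Real.log PB) / |L| * (q.1 : ℝ) ^ (1 / 4 : ℝ) := by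
      unfold sS
      rw [abs_div, div_mul_eq_mul_div]
      refine div_le_div_of_nonneg_right ?_ (abs_nonneg _)
      have h5 : |Real.log q.1 - Real.log q.2| ≤ Real.log q.1 + Real.log q.2 := by
        rw [abs_le]
        constructor <;> linarith
      have h6 : Real.log PB * 1 ≤ Real.log PB * (q.1 : ℝ) ^ (1 / 4 : ℝ) :=
        mul_le_mul_of_nonneg_left hx1 (by linarith)
      nlinarith
    have hr : |1 / √((q.1 * q.2 : ℕ) : ℝ)| ≤ (q.1 : ℝ) ^ (-(1 / 2) : ℝ) := by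
      rw [abs_of_nonneg (by positivity), Real.rpow_neg (by linarith), ← Real.sqrt_eq_rpow,
        one_div]
      refine inv_anti₀ (Real.sqrt_pos.2 (by linarith)) (Real.sqrt_le_sqrt ?_)
      exact_mod_cast Nat.le_mul_of_pos_right _ hq2
    have he : (q.1 : ℝ) ^ (-(1 / 2) : ℝ) * (q.1 : ℝ) ^ (1 / 4 : ℝ) = (q.1 : ℝ) ^ (-(1 / 4) : ℝ) := by
      rw [← Real.rpow_add (by linarith)]
      norm_num
    rw [Real.norm_of_nonneg (by positivity : (0 : ℝ) ≤ (q.1 : ℝ) ^ (-(1 / 4) : ℝ))]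
    calc c * |1 / √((q.1 * q.2 : ℕ) : ℝ)| * |sS L q| ≤
        c * (q.1 : ℝ) ^ (-(1 / 2) : ℝ) *
          ((4 + Real.log PB) / |L| * (q.1 : ℝ) ^ (1 / 4 : ℝ)) :=
          mul_le_mul (mul_le_mul_of_nonneg_left hr hc0) hs (abs_nonneg _) (by positivity)
      _ = c * ((4 + Real.log PB) / |L|) *
          ((q.1 : ℝ) ^ (-(1 / 2) : ℝ) * (q.1 : ℝ) ^ (1 / 4 : ℝ)) := by ring
      _ = _ := by rw [he]
  · rw [if_neg hq, abs_zero, mul_zero, zero_mul]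
    have h5 : 0 ≤ Set.indicator (Nat.factoredNumbers A) (fun m : ℕ => ‖m2s_f m‖) q.1 :=
      Set.indicator_nonneg (fun _ _ => norm_nonneg _) _
    have h6 : (0 : ℝ) ≤ (if q.2 ∣ PB then (1 : ℝ) else 0) := by split_ifs <;> norm_num
    have h7 : 0 ≤ Real.log PB := Real.log_nonneg (by
      exact_mod_cast Nat.one_le_iff_ne_zero.2 hPB0)
    positivity

/-- the average is a finite sum -/
private lemma m2s_fin {F : ℝ → ℝ} {a b : ℝ} (hF : Bump F a b) (hF0 : ∀ t, 0 ≤ F t)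
    (Rc : ℕ → Prop) {D X : ℝ} (hD : 0 < D) (hX : 0 < X) :
    ∃ (N : ℕ) (W : ℕ → ℝ), (∀ d, 0 ≤ W d) ∧ ∀ g : ℕ → ℝ,
      avS Rc D F X g = ∑ d ∈ range N, W d * g d := by
  classical
  refine ⟨⌈|b| * X⌉₊, fun d => 1 / (D * X) * (@ite ℝ (Rc d) (Classical.dec _) (F (d / X)) 0),
    fun d => ?_, fun g => ?_⟩
  · have h : (0 : ℝ) ≤ (@ite ℝ (Rc d) (Classical.dec _) (F (d / X)) 0) := by
      split_ifs
      · exact hF0 _
      · exact le_rfl
    positivity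
  · unfold avS
    rw [tsum_eq_sum (s := range ⌈|b| * X⌉₊), Finset.mul_sum]
    · refine Finset.sum_congr rfl fun d _ => ?_
      by_cases hd : Rc d
      · simp only [hd, if_true]
        ring
      · simp only [hd, if_false]
        ring
    · intro d hd
      have hd' : ⌈|b| * X⌉₊ ≤ d := by simpa using hd
      have h1 : |b| * X ≤ d := (Nat.le_ceil _).trans (by exact_mod_cast hd')
      have h2 : F (d / X) = 0 := by
        by_contra h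
        have h3 := (hF.supp _ h).2
        rw [div_lt_iff₀ hX] at h3
        have h4 : b * X ≤ |b| * X := mul_le_mul_of_nonneg_right (le_abs_self b) hX.le
        linarith only [h1, h3, h4]
      rw [h2, zero_mul, ite_self]

/-- the double average over the shifts -/
private lemma m2s_double {ι : Type} {w s : ι → ℝ} (hw0 : ∀ q, 0 ≤ w q) (hw1 : HasSum w 1)
    (hs : Summable fun q => w q * |s q|) (N : ℕ) (T ε₁ M : ℝ) (W : ℕ → ℝ) (y₁ y₂ : ℕ → ι → ℝ)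
    (h1 : ∀ d, Summable fun q => w q * y₁ d q) (h2 : ∀ d, Summable fun q => w q * y₂ d q)
    (hb : ∀ q q', w q ≠ 0 → w q' ≠ 0 → |∑ d ∈ range N, W d * (y₁ d q * y₂ d q') - T| ≤
      ε₁ + M * (|s q| + |s q'|)) :
    |∑ d ∈ range N, W d * ((∑' q, w q * y₁ d q) * (∑' q, w q * y₂ d q)) - T| ≤
      ε₁ + M * (2 * ∑' q, w q * |s q|) := by
  set E := ∑' q, w q * |s q| with hE
  have hs1 : ∀ d, HasSum (fun p : ι × ι => (w p.1 * y₁ d p.1) * (w p.2 * y₂ d p.2))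
      ((∑' q, w q * y₁ d q) * ∑' q, w q * y₂ d q) := fun d =>
    HasSum.mul (f := fun q => w q * y₁ d q) (g := fun q => w q * y₂ d q) (h1 d).hasSum
      (h2 d).hasSum (summable_mul_of_summable_norm (f := fun q => w q * y₁ d q)
        (g := fun q => w q * y₂ d q) (h1 d).norm (h2 d).norm)
  have hs2 : HasSum (fun p : ι × ι => ∑ d ∈ range N, W d *
      ((w p.1 * y₁ d p.1) * (w p.2 * y₂ d p.2)))
      (∑ d ∈ range N, W d * ((∑' q, w q * y₁ d q) * ∑' q, w q * y₂ d q)) :=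
    hasSum_sum fun d _ => (hs1 d).mul_left _
  have hww : HasSum (fun p : ι × ι => w p.1 * w p.2) (1 * 1) :=
    hw1.mul hw1 (summable_mul_of_summable_norm hw1.summable.norm hw1.summable.norm)
  have hs3 := hs2.sub (hww.mul_left T)
  have p2 : HasSum (fun p : ι × ι => w p.1 * |s p.1| * w p.2) (E * 1) :=
    HasSum.mul (f := fun q => w q * |s q|) (g := w) hs.hasSum hw1
      (summable_mul_of_summable_norm (f := fun q => w q * |s q|) (g := w) hs.norm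
        hw1.summable.norm)
  have p3 : HasSum (fun p : ι × ι => w p.1 * (w p.2 * |s p.2|)) (1 * E) :=
    HasSum.mul (f := w) (g := fun q => w q * |s q|) hw1 hs.hasSum
      (summable_mul_of_summable_norm (f := w) (g := fun q => w q * |s q|) hw1.summable.norm
        hs.norm)
  have hb4 := (hww.mul_left ε₁).add ((p2.add p3).mul_left M)
  have h5 := hs3.norm_le_of_bounded hb4 (fun p => by
    have e1 : (∑ d ∈ range N, W d * ((w p.1 * y₁ d p.1) * (w p.2 * y₂ d p.2))) -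
        T * (w p.1 * w p.2) =
        (w p.1 * w p.2) * (∑ d ∈ range N, W d * (y₁ d p.1 * y₂ d p.2) - T) := by
      rw [mul_sub, Finset.mul_sum]
      congr 1
      · exact Finset.sum_congr rfl fun d _ => by ring
      · ring
    rw [e1, norm_mul, Real.norm_of_nonneg (mul_nonneg (hw0 _) (hw0 _)), Real.norm_eq_abs]
    have e2 : ε₁ * (w p.1 * w p.2) + M * (w p.1 * |s p.1| * w p.2 + w p.1 * (w p.2 * |s p.2|)) =
        (w p.1 * w p.2) * (ε₁ + M * (|s p.1| + |s p.2|)) := by ring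
    rw [e2]
    by_cases z1 : w p.1 = 0
    · rw [z1, zero_mul, zero_mul, zero_mul]
    by_cases z2 : w p.2 = 0
    · rw [z2, mul_zero, zero_mul, zero_mul]
    exact mul_le_mul_of_nonneg_left (hb _ _ z1 z2) (mul_nonneg (hw0 _) (hw0 _)))
  rw [Real.norm_eq_abs, one_mul, mul_one, mul_one, one_mul] at h5
  refine h5.trans (le_of_eq ?_)
  ring

private lemma m2s_CC_int {ρ₁ ρ₂ h : ℝ → ℝ} {a₁ b₁ a₂ b₂ θ : ℝ} (hρ₁ : Bump ρ₁ a₁ b₁)
    (hρ₂ : Bump ρ₂ a₂ b₂) (hh : Bump h 0 θ) (J Y₁ Y₂ : ℝ) :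
    Integrable (fun p : ℝ × ℝ => ρ₁ p.1 * ρ₂ p.2 * (HH h (p.1 - Y₁) * HH h (p.2 - Y₂) +
      J * (max (min (Y₁ - p.1) (Y₂ - p.2)) 0 - max (Y₁ - p.1 + (Y₂ - p.2) - 1) 0))) := by
  have hc := K1x.HH_cont hh
  have c1 := hρ₁.smooth.continuous
  have c2 := hρ₂.smooth.continuous
  refine Continuous.integrable_of_hasCompactSupport (by fun_prop) ?_
  refine HasCompactSupport.intro (isCompact_Icc (a := (a₁, a₂)) (b := (b₁, b₂))) fun p hp => ?_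
  by_contra hne
  apply hp
  have h1 : ρ₁ p.1 ≠ 0 := fun e => hne (by simp [e])
  have h2 : ρ₂ p.2 ≠ 0 := fun e => hne (by simp [e])
  exact ⟨⟨(hρ₁.supp _ h1).1.le, (hρ₂.supp _ h2).1.le⟩,
    ⟨(hρ₁.supp _ h1).2.le, (hρ₂.supp _ h2).2.le⟩⟩

/-- `CC` is Lipschitz -/
theorem m2s_CC_lip {ρ₁ ρ₂ h : ℝ → ℝ} {a₁ b₁ a₂ b₂ θ : ℝ} (hρ₁ : Bump ρ₁ a₁ b₁)
    (hρ₂ : Bump ρ₂ a₂ b₂) (hh : Bump h 0 θ) : ∃ C : ℝ, 0 < C ∧ ∀ Y₁ Y₂ Z₁ Z₂ : ℝ,
      |CC ρ₁ ρ₂ h Y₁ Y₂ - CC ρ₁ ρ₂ h Z₁ Z₂| ≤ C * (|Y₁ - Z₁| + |Y₂ - Z₂|) := by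
  obtain ⟨S, hS0, hS⟩ := K1x.bump_bd hh
  set H := ∫ t, |h t| with hH
  set J := ∫ t : ℝ, h t ^ 2 with hJ
  have hJ0 : 0 ≤ J := integral_nonneg fun t => sq_nonneg _
  have hH0 : 0 ≤ H := integral_nonneg fun t => abs_nonneg _
  set R₁ := ∫ t, |ρ₁ t| with hR₁
  set R₂ := ∫ t, |ρ₂ t| with hR₂
  have hR10 : 0 ≤ R₁ := integral_nonneg fun t => abs_nonneg _
  have hR20 : 0 ≤ R₂ := integral_nonneg fun t => abs_nonneg _
  set K := H * S + 2 * J with hK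
  have hK0 : 0 ≤ K := by (clear * - hS0; positivity)
  refine ⟨R₁ * R₂ * K + 1, by (clear * - hS0; positivity), fun Y₁ Y₂ Z₁ Z₂ => ?_⟩
  have e : ∀ Y₁ Y₂ : ℝ, CC ρ₁ ρ₂ h Y₁ Y₂ = ∫ p : ℝ × ℝ, ρ₁ p.1 * ρ₂ p.2 *
      (HH h (p.1 - Y₁) * HH h (p.2 - Y₂) +
      J * (max (min (Y₁ - p.1) (Y₂ - p.2)) 0 - max (Y₁ - p.1 + (Y₂ - p.2) - 1) 0)) := by
    intro Y₁ Y₂
    have h1 := m2s_CC_int hρ₁ hρ₂ hh J Y₁ Y₂
    rw [Measure.volume_eq_prod] at h1 ⊢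
    rw [integral_prod _ h1]
    rfl
  rw [e, e, ← integral_sub (m2s_CC_int hρ₁ hρ₂ hh J Y₁ Y₂) (m2s_CC_int hρ₁ hρ₂ hh J Z₁ Z₂)]
  set D := |Y₁ - Z₁| + |Y₂ - Z₂| with hD
  have hD0 : 0 ≤ D := by (clear * -; positivity)
  have hp : ∀ p : ℝ × ℝ, ‖ρ₁ p.1 * ρ₂ p.2 * (HH h (p.1 - Y₁) * HH h (p.2 - Y₂) +
      J * (max (min (Y₁ - p.1) (Y₂ - p.2)) 0 - max (Y₁ - p.1 + (Y₂ - p.2) - 1) 0)) -
      ρ₁ p.1 * ρ₂ p.2 * (HH h (p.1 - Z₁) * HH h (p.2 - Z₂) +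
      J * (max (min (Z₁ - p.1) (Z₂ - p.2)) 0 - max (Z₁ - p.1 + (Z₂ - p.2) - 1) 0))‖ ≤
      |ρ₁ p.1| * |ρ₂ p.2| * (K * D) := by
    intro p
    rw [← mul_sub, norm_mul, norm_mul, Real.norm_eq_abs, Real.norm_eq_abs, Real.norm_eq_abs]
    refine mul_le_mul_of_nonneg_left ?_ (by (clear * -; positivity))
    have h1 : |HH h (p.1 - Y₁) * HH h (p.2 - Y₂) - HH h (p.1 - Z₁) * HH h (p.2 - Z₂)| ≤
        H * S * D := by
      have a1 := K1x.HH_abs hh (p.1 - Y₁)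
      have a2 := K1x.HH_abs hh (p.2 - Z₂)
      have a3 := K1x.HH_lip hh hS (p.2 - Y₂) (p.2 - Z₂)
      have a4 := K1x.HH_lip hh hS (p.1 - Y₁) (p.1 - Z₁)
      rw [show p.2 - Y₂ - (p.2 - Z₂) = -(Y₂ - Z₂) by ring, abs_neg] at a3
      rw [show p.1 - Y₁ - (p.1 - Z₁) = -(Y₁ - Z₁) by ring, abs_neg] at a4
      rw [show HH h (p.1 - Y₁) * HH h (p.2 - Y₂) - HH h (p.1 - Z₁) * HH h (p.2 - Z₂) =
        HH h (p.1 - Y₁) * (HH h (p.2 - Y₂) - HH h (p.2 - Z₂)) +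
        (HH h (p.1 - Y₁) - HH h (p.1 - Z₁)) * HH h (p.2 - Z₂) by ring]
      refine (abs_add_le _ _).trans ?_
      rw [abs_mul, abs_mul]
      calc |HH h (p.1 - Y₁)| * |HH h (p.2 - Y₂) - HH h (p.2 - Z₂)| +
          |HH h (p.1 - Y₁) - HH h (p.1 - Z₁)| * |HH h (p.2 - Z₂)| ≤
          H * (S * |Y₂ - Z₂|) + (S * |Y₁ - Z₁|) * H :=
            add_le_add (mul_le_mul a1 a3 (abs_nonneg _) hH0)
              (mul_le_mul a4 a2 (abs_nonneg _) (by (clear * - hS0; positivity)))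
        _ = H * S * D := by rw [hD]; ring
    have h2 : |max (min (Y₁ - p.1) (Y₂ - p.2)) 0 - max (min (Z₁ - p.1) (Z₂ - p.2)) 0| ≤ D := by
      refine (abs_max_sub_max_le_abs _ _ _).trans ((abs_min_sub_min_le_max _ _ _ _).trans ?_)
      rw [show Y₁ - p.1 - (Z₁ - p.1) = Y₁ - Z₁ by ring, show Y₂ - p.2 - (Z₂ - p.2) = Y₂ - Z₂ by ring]
      exact max_le (by rw [hD]; linarith [abs_nonneg (Y₂ - Z₂)])
        (by rw [hD]; linarith [abs_nonneg (Y₁ - Z₁)])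
    have h3 : |max (Y₁ - p.1 + (Y₂ - p.2) - 1) 0 - max (Z₁ - p.1 + (Z₂ - p.2) - 1) 0| ≤ D := by
      refine (abs_max_sub_max_le_abs _ _ _).trans ?_
      rw [show Y₁ - p.1 + (Y₂ - p.2) - 1 - (Z₁ - p.1 + (Z₂ - p.2) - 1) = (Y₁ - Z₁) + (Y₂ - Z₂) by ring]
      exact abs_add_le _ _
    rw [abs_le] at h1 h2 h3 ⊢
    have h4 : J * (max (min (Y₁ - p.1) (Y₂ - p.2)) 0 - max (Y₁ - p.1 + (Y₂ - p.2) - 1) 0 -
        (max (min (Z₁ - p.1) (Z₂ - p.2)) 0 - max (Z₁ - p.1 + (Z₂ - p.2) - 1) 0)) ≤ J * (2 * D) :=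
      mul_le_mul_of_nonneg_left (by linarith [h2.2, h3.1]) hJ0
    have h5 : J * (-(2 * D)) ≤ J * (max (min (Y₁ - p.1) (Y₂ - p.2)) 0 -
        max (Y₁ - p.1 + (Y₂ - p.2) - 1) 0 -
        (max (min (Z₁ - p.1) (Z₂ - p.2)) 0 - max (Z₁ - p.1 + (Z₂ - p.2) - 1) 0)) :=
      mul_le_mul_of_nonneg_left (by linarith [h2.1, h3.2]) hJ0
    rw [hK]
    constructor <;> linarith [h1.1, h1.2]
  have hi : Integrable (fun p : ℝ × ℝ => |ρ₁ p.1| * |ρ₂ p.2| * (K * D)) := by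
    have := (K1x.bump_int hρ₁).abs.mul_prod (K1x.bump_int hρ₂).abs
    exact this.mul_const _
  have h6 := norm_integral_le_of_norm_le hi (Filter.Eventually.of_forall hp)
  rw [Real.norm_eq_abs] at h6
  refine h6.trans ?_
  rw [integral_mul_const, Measure.volume_eq_prod,
    integral_prod_mul (fun x => |ρ₁ x|) (fun y => |ρ₂ y|), ← hR₁, ← hR₂]
  nlinarith only [hD0]

/-- one small factor -/
private lemma m2s_triv {a I₁ X : ℝ} {N : ℕ} {W : ℕ → ℝ} (hW : ∀ d, 0 ≤ W d)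
    (ha : ∑ d ∈ range N, W d * 1 = a) (haI : a ≤ I₁) (hX : 1 ≤ X) (y z : ℕ → ℝ)
    (hyz : ∀ d, |y d| * |z d| ≤ X ^ 21 * X ^ (-30 : ℝ)) :
    |∑ d ∈ range N, W d * (y d * z d)| ≤ I₁ / X := by
  have hX0 : 0 < X := by linarith
  have h1 : X ^ 21 * X ^ (-30 : ℝ) ≤ 1 / X := by
    rw [show (-30 : ℝ) = -((30 : ℕ) : ℝ) by norm_num, Real.rpow_neg hX0.le, Real.rpow_natCast]
    rw [← div_eq_mul_inv, div_le_div_iff₀ (by positivity) hX0]
    calc X ^ 21 * X = X ^ 22 := by ring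
      _ ≤ X ^ 30 := pow_le_pow_right₀ hX (by norm_num)
      _ = 1 * X ^ 30 := by ring
  have h2 : |∑ d ∈ range N, W d * (y d * z d)| ≤ ∑ d ∈ range N, W d * 1 * (1 / X) := by
    refine (Finset.abs_sum_le_sum_abs _ _).trans (Finset.sum_le_sum fun d _ => ?_)
    rw [abs_mul, abs_mul, abs_of_nonneg (hW d), mul_one]
    exact mul_le_mul_of_nonneg_left ((hyz d).trans h1) (hW d)
  rw [← Finset.sum_mul, ha] at h2
  refine h2.trans ?_
  rw [mul_one_div]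
  exact div_le_div_of_nonneg_right haI hX0.le

theorem p_m2s (hw : D_wS) (hc : D_shc) : D_m2s := by
  intro Rc D X one lim hD hDs δ s₀ hδ hδ4 hs₀ A B hq ρ₁ ρ₂ h hρ₁ hρ₂ θ hh T₁ T₂ hc₁ hc₂ hb₁ hb₂
    hs₁ hs₂ hl₁ hl₂ hm F hF hF0 hFI ε hε
  obtain ⟨CL, hCL, hlip⟩ := m2s_CC_lip hρ₁ hρ₂ hh
  set I := ∫ t, F t with hI
  set MC := |CC ρ₁ ρ₂ h 0 0| + 2 * CL with hMC
  have hMC0 : 0 ≤ MC := by (clear * - hCL; positivity)
  set K := I * (CL + 2 * MC) with hK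
  have hK0 : 0 < K := by (clear * - hFI hCL; positivity)
  set ε₁ := ε / 2 with hε₁d
  have hε₁ : 0 < ε₁ := by positivity
  have hη : 0 < ε / (4 * K) := by positivity
  have hlimE := (hq.lim.eventually (gt_mem_nhds hη))
  filter_upwards [hm F hF hF0 hFI ε₁ hε₁, hDs F hF hF0 hFI 1 one_pos, hs₁, hs₂, hl₁, hl₂, hq.low,
    hlimE, lim.eventually_ge_atTop (max 1 ((I + 1) / ε₁))] with n g1 g2 g3 g4 g5 g6 g7 g8 g9
  intro Y₁ hY₁ Y₂ hY₂
  simp only [max_le_iff] at g9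
  obtain ⟨hX1, hX2⟩ := g9
  have hX0 : 0 < X n := by linarith only [hX1]
  set L := Real.log (X n) with hL
  have hL0 : 0 < L := Real.log_pos (one n)
  obtain ⟨hw0, hw1, -⟩ := hw (A n) (B n) (hq.pA n) (hq.pB n)
  have hws := m2s_sum (A n) (B n) (hq.pB n) L
  obtain ⟨N, W, hW0, hWe⟩ := m2s_fin hF hF0 (Rc n) (hD n) hX0
  rw [hWe] at g2
  have hIX : (I + 1) / X n ≤ ε₁ := by
    rw [div_le_iff₀ hε₁] at hX2
    rw [div_le_iff₀ hX0]
    linarith only [hX2]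
  have hX30 : X n ^ (-30 : ℝ) ≤ X n ^ 21 := by
    calc X n ^ (-30 : ℝ) ≤ 1 := Real.rpow_le_one_of_one_le_of_nonpos hX1 (by norm_num)
      _ ≤ X n ^ 21 := one_le_pow₀ hX1
  have hX30n : 0 ≤ X n ^ (-30 : ℝ) := by positivity
  have hX21n : 0 ≤ X n ^ 21 := by positivity
  have hsm : ∀ (k : ℕ → ℕ → ℝ → ℝ) (hk : ∀ n, ∀ Y₀ : ℝ, ∃ C : ℝ, ∀ d, ∀ Y ≤ Y₀, |k n d Y| ≤ C)
      (hkc : ∀ n d, Continuous (k n d)) (Y : ℝ) (d : ℕ),
      Summable fun q => wS (A n) (B n) q * k n d (Y - sS L q) := by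
    intro k hk hkc Y d
    refine (hc (A n) (B n) (hq.pA n) (hq.pB n) L hL0 (k n d) (hkc n d) (fun Y₀ => ?_)).1 Y
    obtain ⟨C, hC⟩ := hk n Y₀
    exact ⟨C, fun Y hY => hC d Y hY⟩
  have hCCb : |CC ρ₁ ρ₂ h Y₁ Y₂| ≤ MC := by
    have h1 := hlip Y₁ Y₂ 0 0
    rw [sub_zero, sub_zero] at h1
    have h2 : |Y₁| ≤ 1 := by
      rw [abs_le]; constructor <;> linarith only [hY₁.1, hY₁.2, hδ4, hs₀, hδ]
    have h3 : |Y₂| ≤ 1 := by
      rw [abs_le]; constructor <;> linarith only [hY₂.1, hY₂.2, hδ4, hs₀, hδ]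
    have h4 : |CC ρ₁ ρ₂ h Y₁ Y₂| ≤ |CC ρ₁ ρ₂ h 0 0| + |CC ρ₁ ρ₂ h Y₁ Y₂ - CC ρ₁ ρ₂ h 0 0| := by
      have := abs_add_le (CC ρ₁ ρ₂ h 0 0) (CC ρ₁ ρ₂ h Y₁ Y₂ - CC ρ₁ ρ₂ h 0 0)
      rwa [add_sub_cancel] at this
    rw [hMC]
    have h5 : CL * (|Y₁| + |Y₂|) ≤ CL * 2 :=
      mul_le_mul_of_nonneg_left (by linarith only [h2, h3]) hCL.le
    linarith only [h1, h4, h5]
  have hb : ∀ q q', wS (A n) (B n) q ≠ 0 → wS (A n) (B n) q' ≠ 0 →
      |∑ d ∈ range N, W d * (T₁ n d (Y₁ - sS L q) * T₂ n d (Y₂ - sS L q')) -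
        I * CC ρ₁ ρ₂ h Y₁ Y₂| ≤ ε₁ + K * (|sS L q| + |sS L q'|) := by
    intro q q' hq0 hq0'
    have s1 := g7 q hq0
    have s2 := g7 q' hq0'
    have u1 : Y₁ - sS L q ≤ 1 / 2 + δ + s₀ := by linarith only [s1, hY₁.2]
    have u2 : Y₂ - sS L q' ≤ 1 / 2 + δ + s₀ := by linarith only [s2, hY₂.2]
    have a1 := abs_nonneg (sS L q)
    have a2 := abs_nonneg (sS L q')
    -- pointwise bounds
    have t1 : ∀ d, |T₁ n d (Y₁ - sS L q)| ≤ X n ^ 21 := by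
      intro d
      rcases le_total (-1) (Y₁ - sS L q) with h6 | h6
      · exact g5 d _ ⟨h6, u1⟩
      · exact (g3 d _ h6).trans hX30
    have t2 : ∀ d, |T₂ n d (Y₂ - sS L q')| ≤ X n ^ 21 := by
      intro d
      rcases le_total (-1) (Y₂ - sS L q') with h6 | h6
      · exact g6 d _ ⟨h6, u2⟩
      · exact (g4 d _ h6).trans hX30
    have ha : ∑ d ∈ range N, W d * 1 ≤ I + 1 := by
      have := (abs_le.1 g2).2
      linarith only [this]
    have hsmall : ∀ (hx : ∀ d, |T₁ n d (Y₁ - sS L q)| * |T₂ n d (Y₂ - sS L q')| ≤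
        X n ^ 21 * X n ^ (-30 : ℝ)) (h1 : 1 ≤ 2 * (|sS L q| + |sS L q'|)),
        |∑ d ∈ range N, W d * (T₁ n d (Y₁ - sS L q) * T₂ n d (Y₂ - sS L q')) -
        I * CC ρ₁ ρ₂ h Y₁ Y₂| ≤ ε₁ + K * (|sS L q| + |sS L q'|) := by
      intro hx h1
      have h2 := m2s_triv hW0 rfl ha hX1 (fun d => T₁ n d (Y₁ - sS L q))
        (fun d => T₂ n d (Y₂ - sS L q')) hx
      refine (abs_sub _ _).trans ?_
      have h3 : |I * CC ρ₁ ρ₂ h Y₁ Y₂| ≤ I * MC * (2 * (|sS L q| + |sS L q'|)) := by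
        rw [abs_mul, abs_of_pos hFI]
        calc I * |CC ρ₁ ρ₂ h Y₁ Y₂| ≤ I * MC := mul_le_mul_of_nonneg_left hCCb hFI.le
          _ = I * MC * 1 := by ring
          _ ≤ I * MC * (2 * (|sS L q| + |sS L q'|)) :=
            mul_le_mul_of_nonneg_left h1 (mul_nonneg hFI.le hMC0)
      have h4 : I * MC * (2 * (|sS L q| + |sS L q'|)) ≤ K * (|sS L q| + |sS L q'|) := by
        rw [hK]
        have h5 : 0 ≤ I * CL * (|sS L q| + |sS L q'|) := by positivity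
        linarith only [h5]
      linarith only [h2, h3, h4, hIX]
    rcases lt_or_ge (Y₁ - sS L q) (-1) with h6 | h6
    · refine hsmall (fun d => ?_) ?_
      · rw [mul_comm]
        exact mul_le_mul (t2 d) (g3 d _ h6.le) (abs_nonneg _) hX21n
      · have h7 : 1 / 2 ≤ sS L q := by linarith only [h6, hY₁.1]
        have h8 := le_abs_self (sS L q)
        linarith only [h7, h8, a2]
    rcases lt_or_ge (Y₂ - sS L q') (-1) with h6' | h6'
    · refine hsmall (fun d => ?_) ?_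
      · exact mul_le_mul (t1 d) (g4 d _ h6'.le) (abs_nonneg _) hX21n
      · have h7 : 1 / 2 ≤ sS L q' := by linarith only [h6', hY₂.1]
        have h8 := le_abs_self (sS L q')
        linarith only [h7, h8, a1]
    have h9 := g1 _ ⟨h6, u1⟩ _ ⟨h6', u2⟩
    rw [hWe] at h9
    have h10 := hlip (Y₁ - sS L q) (Y₂ - sS L q') Y₁ Y₂
    have e1 : |Y₁ - sS L q - Y₁| = |sS L q| := by
      rw [show Y₁ - sS L q - Y₁ = -(sS L q) by ring, abs_neg]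
    have e2 : |Y₂ - sS L q' - Y₂| = |sS L q'| := by
      rw [show Y₂ - sS L q' - Y₂ = -(sS L q') by ring, abs_neg]
    rw [e1, e2] at h10
    have h11 : |I * CC ρ₁ ρ₂ h (Y₁ - sS L q) (Y₂ - sS L q') - I * CC ρ₁ ρ₂ h Y₁ Y₂| ≤
        I * (CL * (|sS L q| + |sS L q'|)) := by
      rw [← mul_sub, abs_mul, abs_of_pos hFI]
      exact mul_le_mul_of_nonneg_left h10 hFI.le
    have h12 : I * (CL * (|sS L q| + |sS L q'|)) ≤ K * (|sS L q| + |sS L q'|) := by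
      rw [hK]
      have h5 : 0 ≤ I * MC * (|sS L q| + |sS L q'|) := by positivity
      linarith only [h5]
    have h13 := abs_add_le
      (∑ d ∈ range N, W d * (T₁ n d (Y₁ - sS L q) * T₂ n d (Y₂ - sS L q')) -
        I * CC ρ₁ ρ₂ h (Y₁ - sS L q) (Y₂ - sS L q'))
      (I * CC ρ₁ ρ₂ h (Y₁ - sS L q) (Y₂ - sS L q') - I * CC ρ₁ ρ₂ h Y₁ Y₂)
    rw [sub_add_sub_cancel] at h13
    linarith only [h9, h11, h12, h13]
  have key := m2s_double hw0 hw1 hws N (I * CC ρ₁ ρ₂ h Y₁ Y₂) ε₁ K W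
    (fun d q => T₁ n d (Y₁ - sS L q)) (fun d q => T₂ n d (Y₂ - sS L q))
    (fun d => hsm T₁ hb₁ hc₁ Y₁ d) (fun d => hsm T₂ hb₂ hc₂ Y₂ d) hb
  rw [hWe]
  have e3 : ∑ d ∈ range N, W d * (shf (A n) (B n) L (T₁ n d) Y₁ *
      shf (A n) (B n) L (T₂ n d) Y₂) =
      ∑ d ∈ range N, W d * ((∑' q, wS (A n) (B n) q * T₁ n d (Y₁ - sS L q)) *
        (∑' q, wS (A n) (B n) q * T₂ n d (Y₂ - sS L q))) := rfl
  have h14 : K * (2 * ∑' q, wS (A n) (B n) q * |sS L q|) ≤ ε / 2 := by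
    have h15 : K * (2 * ∑' q, wS (A n) (B n) q * |sS L q|) ≤ K * (2 * (ε / (4 * K))) :=
      mul_le_mul_of_nonneg_left (by linarith only [g8]) hK0.le
    refine h15.trans (le_of_eq ?_)
    field_simp
    ring
  rw [e3]
  refine key.trans ?_
  rw [hε₁d]
  linarith only [h14]

end Pool.Agent.MP0016c7.Rz
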