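import Mathlib
import Pool.Agent.Lib.MP_0016c7_nt.PS.Stm
import Pool.Agent.Lib.MP_0016c7_nt.Rz2.MGr
import Pool.Agent.Lib.MP_0016c7_nt.Rz.ArithA7

set_option autoImplicit false

/-!
Prescribed splitting: size of the main term.
-/

open Finset MeasureTheory Filter Topology
open scoped Real ContDiff

namespace Pool.Agent.MP0016c7.Rz

private theorem mple_MU {F : ℝ → ℝ} {a b : ℝ} (ha : 0 < a) (hF : Bump F a b)
    (hF0 : 0 < ∫ t, F t) (σ ε : ℤ) (κ : ℕ) (hε : ε = 0 ∨ ε = 1 ∨ ε = -1) :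
    ∃ C : ℝ, 0 < C ∧ ∀ N : ℕ, Odd N → ∀ Y : ℝ, 1 ≤ Y → |MU F σ ε κ Y N| ≤ C * N := by
  obtain ⟨C₁, h1⟩ := abs_MM_le ha hF σ
  obtain ⟨C₂, h2⟩ := abs_MG_le ha hF hF0 σ ε hε
  refine ⟨max 1 (max C₁ C₂), lt_max_of_lt_left one_pos, fun N hN Y hY => ?_⟩
  have hN0 : (0 : ℝ) ≤ N := Nat.cast_nonneg N
  unfold MU
  split_ifs with hk
  · refine (h1 N hN Y hY).trans (mul_le_mul_of_nonneg_right ?_ hN0)
    exact (le_max_left _ _).trans (le_max_right _ _)
  · refine (h2 N hN Y (by linarith)).trans (mul_le_mul_of_nonneg_right ?_ hN0)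
    exact (le_max_right _ _).trans (le_max_right _ _)

private theorem mple_eps (Q e : ℕ) : |eps Q e| ≤ 1 := by
  unfold eps
  have h := ArithmeticFunction.abs_moebius_le_one (n := Nat.gcd e Q)
  have h2 : |((ArithmeticFunction.moebius (Nat.gcd e Q) : ℤ) : ℝ)| =
      ((|ArithmeticFunction.moebius (Nat.gcd e Q)| : ℤ) : ℝ) := by
    rw [Int.cast_abs]
  rw [h2]
  exact_mod_cast h

private theorem mple_mu (f : ℕ) (hf : 1 ≤ f) :
    |((ArithmeticFunction.moebius f : ℤ) : ℝ) / f| ≤ 1 := by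
  have h := ArithmeticFunction.abs_moebius_le_one (n := f)
  have h2 : |((ArithmeticFunction.moebius f : ℤ) : ℝ)| =
      ((|ArithmeticFunction.moebius f| : ℤ) : ℝ) := by
    rw [Int.cast_abs]
  have h3 : |((ArithmeticFunction.moebius f : ℤ) : ℝ)| ≤ 1 := by
    rw [h2]
    exact_mod_cast h
  have hf' : (1 : ℝ) ≤ f := by exact_mod_cast hf
  rw [abs_div, abs_of_nonneg (by linarith : (0 : ℝ) ≤ (f : ℝ)), div_le_one (by linarith)]
  linarith

theorem p_mple (hs : D_size) : D_mple := by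
  intro F a b ha hF hF0 m c ε σ κ u hf
  have hε : ε = 0 ∨ ε = 1 ∨ ε = -1 := by
    rcases hf with h | h | h | h | h
    · exact Or.inl h.2.2.1
    · exact Or.inr (Or.inl h.2.2.1)
    · exact Or.inr (Or.inr h.2.2.1)
    · exact Or.inl h.2.2.1
    · exact Or.inl h.2.2.1
  obtain ⟨C, hC0, hC⟩ := mple_MU ha hF hF0 σ ε κ hε
  refine ⟨C, hC0, ?_⟩
  intro c₀ X y P Q R hc₀ hX hy hp hPX N hN
  obtain ⟨hPodd, hPle, hPdiv, hphi, hphi0, -⟩ := hs c₀ X y P Q R hc₀ hX hy hp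
  have hX0 : 0 < X := by linarith
  have hP0 : P ≠ 0 := hp.sf.ne_zero
  have hPpos : 0 < P := Nat.pos_of_ne_zero hP0
  have hdvd1 : P / R ∣ P := Nat.div_dvd_of_dvd hp.hR
  have hNodd : Odd N := by
    have h2 : Nat.Coprime N 2 := Nat.Coprime.coprime_dvd_right (Dvd.intro P rfl) hN
    exact Nat.coprime_two_right.1 h2
  have hN0 : (0 : ℝ) ≤ N := Nat.cast_nonneg N
  set D : ℝ := (P.divisors.card : ℝ) with hD
  have hD0 : 0 ≤ D := Nat.cast_nonneg _
  -- one term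
  have hterm : ∀ e ∈ (P / R).divisors, ∀ f ∈ R.divisors,
      |eps Q e * (((ArithmeticFunction.moebius f : ℤ) : ℝ) / f) *
        MU F σ ε κ (X / (f : ℝ) ^ 2) (e * (P / R) ^ 2 * N)| ≤ C * ((P : ℝ) ^ 3 * N) := by
    intro e he f hf'
    have he1 : e ∣ P / R := Nat.dvd_of_mem_divisors he
    have he2 : e ∣ P := he1.trans hdvd1
    have hf1 : f ∣ R := Nat.dvd_of_mem_divisors hf'
    have hf2 : f ∣ P := hf1.trans hp.hR
    have hfpos : 1 ≤ f := Nat.pos_of_dvd_of_pos hf2 hPpos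
    have hfle : f ≤ P := Nat.le_of_dvd hPpos hf2
    have hele : e ≤ P := Nat.le_of_dvd hPpos he2
    have hqle : P / R ≤ P := Nat.div_le_self P R
    have heodd : Odd e := Odd.of_dvd_nat hPodd he2
    have hqodd : Odd (P / R) := Odd.of_dvd_nat hPodd hdvd1
    have hMo : Odd (e * (P / R) ^ 2 * N) := (heodd.mul (hqodd.pow)).mul hNodd
    have hf1' : (1 : ℝ) ≤ f := by exact_mod_cast hfpos
    have hfle' : (f : ℝ) ≤ P := by exact_mod_cast hfle
    have hY : 1 ≤ X / (f : ℝ) ^ 2 := by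
      rw [le_div_iff₀ (by positivity), one_mul]
      refine le_trans ?_ hPX
      exact pow_le_pow_left₀ (by linarith) hfle' 2
    have h1 := hC _ hMo _ hY
    have h2 : ((e * (P / R) ^ 2 * N : ℕ) : ℝ) ≤ (P : ℝ) ^ 3 * N := by
      have h3 : e * (P / R) ^ 2 * N ≤ P ^ 3 * N := by
        apply Nat.mul_le_mul_right
        calc e * (P / R) ^ 2 ≤ P * P ^ 2 := Nat.mul_le_mul hele (Nat.pow_le_pow_left hqle 2)
          _ = P ^ 3 := by ring
      exact_mod_cast h3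
    rw [abs_mul, abs_mul]
    have h4 : |eps Q e| * |((ArithmeticFunction.moebius f : ℤ) : ℝ) / f| ≤ 1 := by
      have := mul_le_mul (mple_eps Q e) (mple_mu f hfpos) (abs_nonneg _) zero_le_one
      linarith
    calc |eps Q e| * |((ArithmeticFunction.moebius f : ℤ) : ℝ) / f| *
          |MU F σ ε κ (X / (f : ℝ) ^ 2) (e * (P / R) ^ 2 * N)|
        ≤ 1 * |MU F σ ε κ (X / (f : ℝ) ^ 2) (e * (P / R) ^ 2 * N)| :=
          mul_le_mul_of_nonneg_right h4 (abs_nonneg _)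
      _ = |MU F σ ε κ (X / (f : ℝ) ^ 2) (e * (P / R) ^ 2 * N)| := one_mul _
      _ ≤ C * ((e * (P / R) ^ 2 * N : ℕ) : ℝ) := h1
      _ ≤ C * ((P : ℝ) ^ 3 * N) := mul_le_mul_of_nonneg_left h2 hC0.le
  set B : ℝ := C * ((P : ℝ) ^ 3 * N) with hB
  have hB0 : 0 ≤ B := by positivity
  have hc1 : ((P / R).divisors.card : ℝ) ≤ D := by
    rw [hD]
    exact_mod_cast Finset.card_le_card (Nat.divisors_subset_of_dvd hP0 hdvd1)
  have hc2 : (R.divisors.card : ℝ) ≤ D := by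
    rw [hD]
    exact_mod_cast Finset.card_le_card (Nat.divisors_subset_of_dvd hP0 hp.hR)
  have hsum : |∑ e ∈ (P / R).divisors, ∑ f ∈ R.divisors,
      eps Q e * (((ArithmeticFunction.moebius f : ℤ) : ℝ) / f) *
        MU F σ ε κ (X / (f : ℝ) ^ 2) (e * (P / R) ^ 2 * N)| ≤ D * (D * B) := by
    refine (Finset.abs_sum_le_sum_abs _ _).trans ?_
    have hin : ∀ e ∈ (P / R).divisors, |∑ f ∈ R.divisors,
        eps Q e * (((ArithmeticFunction.moebius f : ℤ) : ℝ) / f) *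
          MU F σ ε κ (X / (f : ℝ) ^ 2) (e * (P / R) ^ 2 * N)| ≤ D * B := by
      intro e he
      refine (Finset.abs_sum_le_sum_abs _ _).trans ?_
      refine (Finset.sum_le_card_nsmul _ _ B (fun f hf' => hterm e he f hf')).trans ?_
      rw [nsmul_eq_mul]
      exact mul_le_mul_of_nonneg_right hc2 hB0
    refine (Finset.sum_le_card_nsmul _ _ (D * B) hin).trans ?_
    rw [nsmul_eq_mul]
    exact mul_le_mul_of_nonneg_right hc1 (mul_nonneg hD0 hB0)
  have hXc : 0 < X ^ c₀ := Real.rpow_pos_of_pos hX0 _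
  have hP3 : (P : ℝ) ^ 3 ≤ X ^ (6 * c₀) := by
    have h1 : (P : ℝ) ^ 3 ≤ (X ^ (2 * c₀)) ^ 3 :=
      pow_le_pow_left₀ (Nat.cast_nonneg P) hPle 3
    refine h1.trans (le_of_eq ?_)
    rw [← Real.rpow_natCast, ← Real.rpow_mul hX0.le]
    congr 1
    push_cast
    ring
  have hinv0 : 0 ≤ 1 / phP P := by positivity
  unfold MP
  rw [abs_mul, abs_of_nonneg hinv0]
  calc 1 / phP P * |∑ e ∈ (P / R).divisors, ∑ f ∈ R.divisors,
      eps Q e * (((ArithmeticFunction.moebius f : ℤ) : ℝ) / f) *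
        MU F σ ε κ (X / (f : ℝ) ^ 2) (e * (P / R) ^ 2 * N)|
      ≤ X ^ c₀ * (D * (D * B)) := mul_le_mul hphi hsum (abs_nonneg _) hXc.le
    _ ≤ X ^ c₀ * (X ^ c₀ * (X ^ c₀ * (C * (X ^ (6 * c₀) * N)))) := by
        apply mul_le_mul_of_nonneg_left _ hXc.le
        apply mul_le_mul hPdiv _ (mul_nonneg hD0 hB0) hXc.le
        apply mul_le_mul hPdiv _ hB0 hXc.le
        apply mul_le_mul_of_nonneg_left _ hC0.le
        exact mul_le_mul_of_nonneg_right hP3 hN0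
    _ = C * (X ^ c₀ * X ^ c₀ * X ^ c₀ * X ^ (6 * c₀)) * N := by ring
    _ = C * X ^ (9 * c₀) * N := by
        rw [← Real.rpow_add hX0, ← Real.rpow_add hX0, ← Real.rpow_add hX0]
        congr 3
        ring

end Pool.Agent.MP0016c7.Rz
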