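import Mathlib
import Pool.Agent.Lib.MP_0016c7_nt.PS.Stm
import Pool.Agent.Lib.MP_0016c7_nt.Rz.ArithA2

set_option autoImplicit false

/-!
Prescribed splitting: the nonsquare sums are multiplicative (piece nsc).
-/

open Finset MeasureTheory Filter Topology
open scoped Real ContDiff

namespace Pool.Agent.MP0016c7.Rz

theorem p_nsc : D_nsc := by
  intro F σ c Y M N hM hN h
  have hM0 : (M : ℝ) ≠ 0 := by
    have : M ≠ 0 := by rintro rfl; simp at hM
    exact_mod_cast this
  have hN0 : (N : ℝ) ≠ 0 := by
    have : N ≠ 0 := by rintro rfl; simp at hN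
    exact_mod_cast this
  unfold NSc
  refine tsum_congr fun k => ?_
  by_cases hk : IsSquare k
  · rw [if_pos hk, if_pos hk]
  · rw [if_neg hk, if_neg hk, gg_mul k h hM hN]
    have e : (k : ℝ) * Y / (2 * ((M * N : ℕ) : ℝ)) = (k : ℝ) * (Y / M) / (2 * N) := by
      push_cast
      field_simp
    rw [e]
    ring

end Pool.Agent.MP0016c7.Rz
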