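import Mathlib
import Pool.Agent.Lib.MP_0016c7_nt.PS.Stm
import Pool.Agent.Lib.MP_0016c7_nt.Rz.TestR

set_option autoImplicit false

/-!
Prescribed splitting, piece per: the shift of the centre.
-/

open Finset MeasureTheory Filter Topology
open scoped Real ContDiff

namespace Pool.Agent.MP0016c7.Rz

private lemma per_bump_deriv {ρ : ℝ → ℝ} {a b : ℝ} (h : Bump ρ a b) : Bump (deriv ρ) a b := by
  refine ⟨(contDiff_infty_iff_deriv.1 h.smooth).2, fun t ht => ?_⟩
  have hd : DifferentiableAt ℝ ρ t := (h.smooth.differentiable (by simp)) t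
  constructor
  · by_contra hta
    rw [not_lt] at hta
    apply ht
    have h1 : HasDerivWithinAt ρ (deriv ρ t) (Set.Iic t) t := hd.hasDerivAt.hasDerivWithinAt
    have hz : ∀ x ∈ Set.Iic t, ρ x = 0 := fun x hx => by
      by_contra hne
      exact absurd (h.supp x hne).1 (not_lt.2 (le_trans hx hta))
    have h2 : HasDerivWithinAt ρ 0 (Set.Iic t) t :=
      (hasDerivWithinAt_const t (Set.Iic t) (0 : ℝ)).congr hz (hz t Set.self_mem_Iic)
    exact (uniqueDiffWithinAt_Iic t).eq_deriv _ h1 h2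
  · by_contra hta
    rw [not_lt] at hta
    apply ht
    have h1 : HasDerivWithinAt ρ (deriv ρ t) (Set.Ici t) t := hd.hasDerivAt.hasDerivWithinAt
    have hz : ∀ x ∈ Set.Ici t, ρ x = 0 := fun x hx => by
      by_contra hne
      exact absurd (h.supp x hne).2 (not_lt.2 (le_trans hta hx))
    have h2 : HasDerivWithinAt ρ 0 (Set.Ici t) t :=
      (hasDerivWithinAt_const t (Set.Ici t) (0 : ℝ)).congr hz (hz t Set.self_mem_Ici)
    exact (uniqueDiffWithinAt_Ici t).eq_deriv _ h1 h2

private lemma per_bump_integrable {ρ : ℝ → ℝ} {a b : ℝ} (h : Bump ρ a b) : Integrable ρ := by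
  refine (h.smooth.continuous).integrable_of_hasCompactSupport ?_
  refine HasCompactSupport.intro (K := Set.Icc a b) isCompact_Icc (fun x hx => ?_)
  by_contra hne
  exact hx ⟨(h.supp x hne).1.le, (h.supp x hne).2.le⟩

private lemma per_cs {f : ℝ → ℝ} (hf : Continuous f) {s β : ℝ} (hs : 0 ≤ s) (hsβ : s ≤ β) :
    (∫ u in (0 : ℝ)..s, f u) ^ 2 ≤ β * ∫ u in (0 : ℝ)..β, f u ^ 2 := by
  have hf2 : Continuous (fun u => f u ^ 2) := hf.pow 2
  have hI : ∀ a b : ℝ, IntervalIntegrable (fun u => f u ^ 2) volume a b :=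
    fun a b => hf2.intervalIntegrable a b
  have hnn : 0 ≤ ∫ u in (0 : ℝ)..s, f u ^ 2 :=
    intervalIntegral.integral_nonneg hs (fun u _ => sq_nonneg _)
  have hmono : ∫ u in (0 : ℝ)..s, f u ^ 2 ≤ ∫ u in (0 : ℝ)..β, f u ^ 2 := by
    rw [← intervalIntegral.integral_add_adjacent_intervals (hI 0 s) (hI s β)]
    have := intervalIntegral.integral_nonneg (μ := volume) hsβ (fun u _ => sq_nonneg (f u))
    linarith
  have key : (∫ u in (0 : ℝ)..s, f u) ^ 2 ≤ s * ∫ u in (0 : ℝ)..s, f u ^ 2 := by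
    set J := ∫ u in (0 : ℝ)..s, f u with hJ
    have h0 : 0 ≤ ∫ u in (0 : ℝ)..s, (s * f u - J) ^ 2 :=
      intervalIntegral.integral_nonneg hs (fun u _ => sq_nonneg _)
    have h1 : ∫ u in (0 : ℝ)..s, (s * f u - J) ^ 2 =
        s ^ 2 * (∫ u in (0 : ℝ)..s, f u ^ 2) - 2 * s * J * J + s * J ^ 2 := by
      have e : ∀ u, (s * f u - J) ^ 2 = s ^ 2 * f u ^ 2 - 2 * s * J * f u + J ^ 2 := fun u => by ring
      simp_rw [e]
      have i1 : IntervalIntegrable (fun u => s ^ 2 * f u ^ 2) volume 0 s :=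
        (continuous_const.mul hf2).intervalIntegrable _ _
      have i2 : IntervalIntegrable (fun u => 2 * s * J * f u) volume 0 s :=
        (continuous_const.mul hf).intervalIntegrable _ _
      rw [intervalIntegral.integral_add (i1.sub i2) intervalIntegrable_const,
        intervalIntegral.integral_sub i1 i2,
        intervalIntegral.integral_const_mul, intervalIntegral.integral_const_mul,
        intervalIntegral.integral_const, ← hJ]
      simp only [smul_eq_mul]
      ring
    rw [h1] at h0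
    rcases hs.eq_or_lt with h | h
    · have : J = 0 := by rw [hJ, ← h]; simp
      rw [this, ← h]; simp
    · have h2 : 0 ≤ s * (s * (∫ u in (0 : ℝ)..s, f u ^ 2) - J ^ 2) := by nlinarith only [h0]
      have := nonneg_of_mul_nonneg_right h2 h
      linarith
  calc (∫ u in (0 : ℝ)..s, f u) ^ 2 ≤ s * ∫ u in (0 : ℝ)..s, f u ^ 2 := key
    _ ≤ β * ∫ u in (0 : ℝ)..β, f u ^ 2 := by
      apply mul_le_mul hsβ hmono hnn (hs.trans hsβ)

private lemma per_HH_le {h : ℝ → ℝ} {θ : ℝ} (hh : Bump h 0 θ) (t : ℝ) : |HH h t| ≤ ∫ x, |h x| := by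
  unfold HH
  calc |∫ x in Set.Ioi t, h x| ≤ ∫ x in Set.Ioi t, |h x| := abs_integral_le_integral_abs
    _ ≤ ∫ x, |h x| := by
      apply setIntegral_le_integral (per_bump_integrable hh).abs
      exact Filter.Eventually.of_forall (fun x => abs_nonneg _)

private lemma per_CC_le {ρ h : ℝ → ℝ} {θ δ : ℝ} (hδ4 : δ ≤ 1 / 4)
    (hρ : Bump ρ (-(δ / 2)) (δ / 2)) (hh : Bump h 0 θ) :
    ∃ B : ℝ, 0 ≤ B ∧ ∀ Y ∈ Set.Icc (-1 : ℝ) (1 / 2 + δ), |CC ρ ρ h Y Y| ≤ B := by
  set A := ∫ x, |h x| with hA
  set H := ∫ t, h t ^ 2 with hH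
  have hA0 : 0 ≤ A := integral_nonneg (fun x => abs_nonneg _)
  have hH0 : 0 ≤ H := integral_nonneg (fun x => sq_nonneg _)
  set C₀ := A * A + H * 10 with hC₀
  have hC0 : 0 ≤ C₀ := by (clear * -; positivity)
  have hint := per_bump_integrable hρ
  set R := ∫ x, |ρ x| with hR
  refine ⟨R * (C₀ * R), by (clear * -; positivity), fun Y hY => ?_⟩
  unfold CC
  have hpt : ∀ x y : ℝ, |ρ x * ρ y * (HH h (x - Y) * HH h (y - Y) +
      H * (max (min (Y - x) (Y - y)) 0 - max (Y - x + (Y - y) - 1) 0))| ≤ |ρ x| * (C₀ * |ρ y|) := by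
    intro x y
    by_cases hx : ρ x = 0
    · simp [hx]
    by_cases hy : ρ y = 0
    · simp [hy]
    have hx' := hρ.supp x hx
    have hy' := hρ.supp y hy
    rw [abs_mul, abs_mul]
    have h1 : |HH h (x - Y) * HH h (y - Y) +
      H * (max (min (Y - x) (Y - y)) 0 - max (Y - x + (Y - y) - 1) 0)| ≤ C₀ := by
      refine (abs_add_le _ _).trans ?_
      rw [abs_mul, abs_mul, abs_of_nonneg hH0]
      refine add_le_add (mul_le_mul (per_HH_le hh _) (per_HH_le hh _) (abs_nonneg _) hA0) ?_
      refine mul_le_mul_of_nonneg_left ?_ hH0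
      rw [abs_le]
      have h1 : 0 ≤ max (min (Y - x) (Y - y)) 0 := le_max_right _ _
      have h2 : 0 ≤ max (Y - x + (Y - y) - 1) 0 := le_max_right _ _
      have h3 : max (min (Y - x) (Y - y)) 0 ≤ 2 :=
        max_le ((min_le_left _ _).trans (by linarith only [hδ4, hx', hY, hY.2])) (by norm_num)
      have h4 : max (Y - x + (Y - y) - 1) 0 ≤ 10 :=
        max_le (by linarith only [hδ4, hx', hy', hY, hY.2]) (by norm_num)
      constructor <;> linarith
    calc |ρ x| * |ρ y| * _ ≤ |ρ x| * |ρ y| * C₀ := by gcongr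
      _ = |ρ x| * (C₀ * |ρ y|) := by ring
  have hin : ∀ x : ℝ, |∫ y : ℝ, ρ x * ρ y * (HH h (x - Y) * HH h (y - Y) +
      H * (max (min (Y - x) (Y - y)) 0 - max (Y - x + (Y - y) - 1) 0))| ≤ |ρ x| * (C₀ * R) := by
    intro x
    have := norm_integral_le_of_norm_le (μ := volume)
      (f := fun y : ℝ => ρ x * ρ y * (HH h (x - Y) * HH h (y - Y) +
      H * (max (min (Y - x) (Y - y)) 0 - max (Y - x + (Y - y) - 1) 0)))
      (g := fun y => |ρ x| * (C₀ * |ρ y|)) ((hint.abs.const_mul C₀).const_mul |ρ x|)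
      (Filter.Eventually.of_forall (fun y => hpt x y))
    rw [integral_const_mul, integral_const_mul, ← hR] at this
    exact this
  have := norm_integral_le_of_norm_le (μ := volume)
      (f := fun x : ℝ => ∫ y : ℝ, ρ x * ρ y * (HH h (x - Y) * HH h (y - Y) +
      H * (max (min (Y - x) (Y - y)) 0 - max (Y - x + (Y - y) - 1) 0)))
      (g := fun x => |ρ x| * (C₀ * R)) (hint.abs.mul_const (C₀ * R))
      (Filter.Eventually.of_forall (fun x => hin x))
  rw [integral_mul_const, ← hR] at this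
  exact this

/-- The second moment controls the sum over a finite set of members. -/
private lemma per_sum_bound (Rn : ℕ → Prop) {D X : ℝ} (hD : 0 < D) (hX : 1 < X) {F : ℝ → ℝ}
    (hF : Bump F (1 / 2) 4) (hF0 : ∀ t, 0 ≤ F t) (hF1 : ∀ t ∈ Set.Icc (1 : ℝ) 2, 1 ≤ F t)
    (g : ℕ → ℝ) (K : ℝ) (hK : avS Rn D F X (fun d => g d * g d) ≤ K) (S : Finset ℕ)
    (hS : ∀ d ∈ S, Rn d ∧ X < d ∧ (d : ℝ) ≤ 2 * X) :
    ∑ d ∈ S, g d ^ 2 ≤ K * (D * X) := by
  classical
  have hX0 : 0 < X := by linarith
  unfold avS at hK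
  set G : ℕ → ℝ := fun d => @ite ℝ (Rn d) (Classical.dec _) (F (d / X) * (g d * g d)) 0 with hG
  have hGp : ∀ d, Rn d → G d = F (d / X) * (g d * g d) := fun d hd => by
    rw [hG]; exact if_pos hd
  have hGn : ∀ d, ¬ Rn d → G d = 0 := fun d hd => by
    rw [hG]; exact if_neg hd
  have hDX : 0 < D * X := mul_pos hD hX0
  have h5 : ∑' d, G d ≤ K * (D * X) := by
    rw [one_div, inv_mul_le_iff₀ hDX] at hK
    linarith
  refine le_trans ?_ h5
  have hnn : ∀ d : ℕ, 0 ≤ G d := by
    intro d
    by_cases hd : Rn d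
    · rw [hGp d hd]; exact mul_nonneg (hF0 _) (mul_self_nonneg _)
    · rw [hGn d hd]
  have hsum : Summable G := by
    apply summable_of_hasFiniteSupport
    refine (Set.finite_Iic ⌈4 * X⌉₊).subset (fun d hd => ?_)
    rw [Function.mem_support] at hd
    have hRd : Rn d := by
      by_contra hn
      exact hd (hGn d hn)
    rw [hGp d hRd] at hd
    have h6 : F (d / X) ≠ 0 := left_ne_zero_of_mul hd
    have h7 := (hF.supp _ h6).2
    rw [div_lt_iff₀ hX0] at h7
    rw [Set.mem_Iic]
    exact_mod_cast h7.le.trans (Nat.le_ceil _)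
  calc ∑ d ∈ S, g d ^ 2 ≤ ∑ d ∈ S, G d := by
        refine Finset.sum_le_sum (fun d hd => ?_)
        obtain ⟨ho, hl, hu⟩ := hS d hd
        rw [hGp d ho, ← sq]
        have : 1 ≤ F (d / X) := hF1 _ ⟨by rw [le_div_iff₀ hX0]; linarith, by
          rw [div_le_iff₀ hX0]; linarith⟩
        nlinarith only [this, sq_nonneg (g d)]
    _ ≤ ∑' d, G d := hsum.sum_le_tsum S (fun d _ => hnn d)

theorem p_per : D_per := by
  intro Rc D X one lim hD δ hδ hδ4 ρ h hρ θ hh T T' hc hd hm κ hκ ε hε
  have hρ' := per_bump_deriv hρ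
  have hκ1 : (1 : ℝ) ≤ κ ∧ (κ : ℝ) ≤ 8 := by
    rcases hκ with h1 | h1 | h1 <;> rw [h1] <;> norm_num
  obtain ⟨F, hF, hF0, hF1, -⟩ := exists_F 1 one_pos
  obtain ⟨B, hB, hCC⟩ := per_CC_le hδ4 hρ' hh
  have hFint : 0 < ∫ t, F t := by
    have h1 : Integrable F := per_bump_integrable hF
    have h2 : ∫ t in Set.Icc (1 : ℝ) 2, (1 : ℝ) ≤ ∫ t in Set.Icc (1 : ℝ) 2, F t := by
      apply setIntegral_mono_on _ h1.integrableOn measurableSet_Icc (fun t ht => hF1 t ht)
      simp
    have h3 : ∫ t in Set.Icc (1 : ℝ) 2, F t ≤ ∫ t, F t :=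
      setIntegral_le_integral h1 (Filter.Eventually.of_forall hF0)
    have h4 : ∫ t in Set.Icc (1 : ℝ) 2, (1 : ℝ) = 1 := by
      simp
      norm_num
    linarith only [h2, h3, h4]
  have hV : (0 : ℝ) ≤ 1 / 2 + δ := by positivity
  set V := 1 / 2 + δ with hVdef
  set C₁ := (∫ t, F t) * B + 1 with hC₁
  have hC₁0 : 0 ≤ C₁ := by (clear * - hFint hB; positivity)
  set K := V * C₁ with hK
  have hK0 : 0 ≤ K := mul_nonneg hV hC₁0
  have hlog : Tendsto (fun n => Real.log (X n)) atTop atTop := Real.tendsto_log_atTop.comp lim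
  have hlim : Tendsto (fun n => Real.log 16 / (2 * Real.log (X n))) atTop (𝓝 0) :=
    Tendsto.const_div_atTop (hlog.const_mul_atTop (by norm_num)) _
  have hlim2 : Tendsto (fun n => K * (Real.log 16 / (2 * Real.log (X n))) ^ 2) atTop (𝓝 0) := by
    have := (hlim.pow 2).const_mul K
    simpa using this
  filter_upwards [hlim.eventually_lt_const hδ, hlim2.eventually_lt_const hε,
    hm F hF hF0 hFint 1 one_pos] with n hβδ hKε hmn S hS
  have hX1 := one n
  have hX0 : 0 < X n := by linarith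
  set β := Real.log 16 / (2 * Real.log (X n)) with hβ
  have hL : 0 < Real.log (X n) := Real.log_pos hX1
  have hβ0 : 0 < β := by
    have : 0 < Real.log 16 := Real.log_pos (by norm_num)
    (clear * - hL; positivity)
  have hDX : 0 < D n * X n := mul_pos (hD n) hX0
  have hcont : ∀ d : ℕ, Continuous (T n d) := fun d =>
    continuous_iff_continuousAt.2 (fun Y => (hd n d Y).continuousAt)
  have hsb : ∀ Y ∈ Set.Icc (-(1 / 2) : ℝ) V, ∑ d ∈ S, T' n d Y ^ 2 ≤ C₁ * (D n * X n) := by
    intro Y hY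
    refine per_sum_bound (Rc n) (hD n) hX1 hF hF0 hF1 (fun d => T' n d Y) C₁ ?_ S hS
    have h1 := (abs_le.1 (hmn Y hY Y hY)).2
    have h4 : (∫ t, F t) * CC (deriv ρ) (deriv ρ) h Y Y ≤ (∫ t, F t) * B :=
      mul_le_mul_of_nonneg_left ((le_abs_self _).trans (hCC Y ⟨by linarith only [hY.1], hY.2⟩))
        hFint.le
    linarith only [h1, h4, hC₁]
  set g : ℕ → ℝ → ℝ := fun d v => T n d (1 / 2 - v) -
        T n d (Real.log (κ * d) / (2 * Real.log (X n)) - v) with hgdef
  have hgc : ∀ d, Continuous (g d) := fun d =>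
    ((hcont d).comp (continuous_const.sub continuous_id)).sub
      ((hcont d).comp (continuous_const.sub continuous_id))
  have hpt : ∀ v ∈ Set.Icc 0 V, ∑ d ∈ S, g d v ^ 2 ≤ β * (β * (C₁ * (D n * X n))) := by
    intro v hv
    have h1 : ∀ d ∈ S, g d v ^ 2 ≤ β * ∫ u in (0 : ℝ)..β, T' n d (1 / 2 - v + u) ^ 2 := by
      intro d hdS
      obtain ⟨ho, hl, hu⟩ := hS d hdS
      have hd0 : (0 : ℝ) < d := by linarith only [hX1, hl]
      set s := Real.log (κ * d) / (2 * Real.log (X n)) - 1 / 2 with hs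
      have hs1 : s = (Real.log (κ * d) - Real.log (X n)) / (2 * Real.log (X n)) := by
        rw [hs]; field_simp
      have hs0 : 0 ≤ s := by
        rw [hs1]
        apply div_nonneg _ (by positivity)
        have : Real.log (X n) ≤ Real.log (κ * d) :=
          Real.log_le_log hX0 (by nlinarith only [hl, hκ1.1, hd0])
        linarith only [this]
      have hsβ : s ≤ β := by
        rw [hs1, hβ]
        apply div_le_div_of_nonneg_right _ (by positivity)
        have : Real.log (κ * d) ≤ Real.log (16 * X n) :=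
          Real.log_le_log (mul_pos (by linarith only [hκ1.1]) hd0)
            (by nlinarith only [hu, hκ1.2, hd0, hκ1.1])
        have h16 : Real.log (16 * X n) = Real.log 16 + Real.log (X n) :=
          Real.log_mul (by norm_num) hX0.ne'
        linarith only [this, h16]
      have hcu : Continuous (fun u => T' n d (1 / 2 - v + u)) :=
        (hc n d).comp (continuous_const.add continuous_id)
      have hftc : ∫ u in (0 : ℝ)..s, T' n d (1 / 2 - v + u) =
          T n d (1 / 2 - v + s) - T n d (1 / 2 - v + 0) := by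
        apply intervalIntegral.integral_eq_sub_of_hasDerivAt
          (f := fun u => T n d (1 / 2 - v + u))
        · intro u _
          exact (hd n d (1 / 2 - v + u)).comp_const_add (1 / 2 - v) u
        · exact hcu.intervalIntegrable _ _
      have hgs : g d v ^ 2 = (∫ u in (0 : ℝ)..s, T' n d (1 / 2 - v + u)) ^ 2 := by
        rw [hftc, hgdef]
        simp only
        rw [show Real.log (κ * d) / (2 * Real.log (X n)) - v = 1 / 2 - v + s by rw [hs]; ring,
          add_zero]
        ring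
      rw [hgs]
      exact per_cs hcu hs0 hsβ
    calc ∑ d ∈ S, g d v ^ 2 ≤ ∑ d ∈ S, β * ∫ u in (0 : ℝ)..β, T' n d (1 / 2 - v + u) ^ 2 :=
            Finset.sum_le_sum h1
      _ = β * ∫ u in (0 : ℝ)..β, ∑ d ∈ S, T' n d (1 / 2 - v + u) ^ 2 := by
          rw [← Finset.mul_sum, intervalIntegral.integral_finsetSum]
          intro d _
          exact (((hc n d).comp (continuous_const.add continuous_id)).pow 2).intervalIntegrable _ _
      _ ≤ β * ∫ u in (0 : ℝ)..β, C₁ * (D n * X n) := by
          apply mul_le_mul_of_nonneg_left _ hβ0.le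
          apply intervalIntegral.integral_mono_on hβ0.le
          · apply Continuous.intervalIntegrable
            exact continuous_finsetSum _ (fun d _ =>
              ((hc n d).comp (continuous_const.add continuous_id)).pow 2)
          · exact intervalIntegrable_const
          · intro u hu
            apply hsb
            constructor
            · linarith only [hVdef, hv.2, hu.1, hδ4]
            · linarith only [hVdef, hβδ, hv.1, hu.2]
      _ = β * (β * (C₁ * (D n * X n))) := by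
          rw [intervalIntegral.integral_const]
          simp
  calc ∑ d ∈ S, ∫ v in (0 : ℝ)..V, (T n d (1 / 2 - v) -
        T n d (Real.log (κ * d) / (2 * Real.log (X n)) - v)) ^ 2
      = ∑ d ∈ S, ∫ v in (0 : ℝ)..V, g d v ^ 2 := rfl
    _ = ∫ v in (0 : ℝ)..V, ∑ d ∈ S, g d v ^ 2 := by
        rw [intervalIntegral.integral_finsetSum]
        intro d _
        exact ((hgc d).pow 2).intervalIntegrable _ _
    _ ≤ ∫ v in (0 : ℝ)..V, β * (β * (C₁ * (D n * X n))) := by
        apply intervalIntegral.integral_mono_on hV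
        · apply Continuous.intervalIntegrable
          exact continuous_finsetSum _ (fun d _ => (hgc d).pow 2)
        · exact intervalIntegrable_const
        · exact hpt
    _ = (K * β ^ 2) * (D n * X n) := by
        rw [intervalIntegral.integral_const, hK]
        simp only [smul_eq_mul, sub_zero]
        ring
    _ ≤ ε * (D n * X n) := mul_le_mul_of_nonneg_right hKε.le hDX.le

end Pool.Agent.MP0016c7.Rz
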