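import Mathlib
import Pool.Agent.Lib.MP_0016c7_nt.PS.Stm
import Pool.Agent.Lib.MP_0016c7_nt.Rz.Poisson2
import Pool.Agent.Lib.MP_0016c7_nt.Rz.ArithA1
import Pool.Agent.Lib.MP_0016c7_nt.Rz.ArithA2

set_option autoImplicit false

/-!
Poisson summation over the odd multiples of `q` (piece poi2).
-/

open Finset MeasureTheory Filter Topology
open scoped Real ContDiff

namespace Pool.Agent.MP0016c7.Rz

theorem poi2_jr_mul (a b : ℤ) (n : ℕ) : jr (a * b) n = jr a n * jr b n := by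
  unfold jr
  split_ifs
  · rw [jacobiSym.mul_left]
    push_cast
    ring
  · simp

theorem poi2_jr_split (x : ℤ) {A B : ℕ} (hA : Odd A) (hB : Odd B) (h : Int.gcd x B = 1) :
    jr x (A * B ^ 2) = jr x A := by
  have hAB : Odd (A * B ^ 2) := hA.mul hB.pow
  have : NeZero A := ⟨hA.pos.ne'⟩
  have : NeZero B := ⟨hB.pos.ne'⟩
  unfold jr
  rw [if_pos hAB, if_pos hA, jacobiSym.mul_right, jacobiSym.pow_right, jacobiSym.sq_one h, mul_one]

/-- Twisting the Gauss sums by a number coprime to the modulus. -/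
theorem gg_twist (k : ℤ) {q N : ℕ} (hN : Odd N) (h : Nat.Coprime q N) :
    jr q N * gg k N = gg (q * k) N := by
  classical
  have hN0 : N ≠ 0 := hN.pos.ne'
  have hNAB := sq1_mul_sq2 N hN0
  unfold gg
  generalize sq1 N = A at *
  generalize sq2 N = B at *
  have hA : Odd A := by
    rw [← hNAB] at hN
    exact (Nat.odd_mul.1 hN).1
  have hB : Odd B := by
    rw [← hNAB] at hN
    exact (Nat.odd_pow_iff (by norm_num)).1 (Nat.odd_mul.1 hN).2
  have hqB : Nat.Coprime q B := by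
    rw [← hNAB] at h
    exact (Nat.coprime_pow_right_iff (by norm_num) _ _).1 (Nat.Coprime.coprime_mul_left_right h)
  have hgcd : Int.gcd (q : ℤ) B = 1 := by
    rw [Int.gcd_natCast_natCast]
    exact hqB
  have h1 : jr q N = jr q A := by
    rw [← hNAB, poi2_jr_split _ hA hB hgcd]
  have hcop : IsCoprime ((B : ℤ) ^ 2) (q : ℤ) := by
    apply IsCoprime.pow_left
    rw [Nat.isCoprime_iff_coprime]
    exact hqB.symm
  have h2 : ∀ e : ℕ, ((B : ℤ) ^ 2 ∣ (q : ℤ) * k * (e : ℤ)) ↔ ((B : ℤ) ^ 2 ∣ k * (e : ℤ)) := by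
    intro e
    rw [mul_assoc]
    exact ⟨fun hd => hcop.dvd_of_dvd_mul_left hd, fun hd => Dvd.dvd.mul_left hd _⟩
  rw [h1, ← mul_div_assoc, Finset.mul_sum]
  congr 1
  have h3 : B.divisors.filter (fun e : ℕ => (B : ℤ) ^ 2 ∣ (q : ℤ) * k * (e : ℤ)) =
      B.divisors.filter (fun e : ℕ => (B : ℤ) ^ 2 ∣ k * (e : ℤ)) := by
    refine Finset.filter_congr fun e _ => ?_
    exact h2 e
  rw [h3]
  refine Finset.sum_congr rfl fun e he => ?_
  have he2 : (B : ℤ) ^ 2 ∣ k * (e : ℤ) := (Finset.mem_filter.1 he).2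
  have he3 : (B : ℤ) ^ 2 ∣ k * (e : ℤ) ^ 2 := by
    rw [pow_two (e : ℤ), ← mul_assoc]
    exact Dvd.dvd.mul_right he2 _
  have h4 : (q : ℤ) * k * (e : ℤ) ^ 2 / (B : ℤ) ^ 2 = q * (k * (e : ℤ) ^ 2 / (B : ℤ) ^ 2) := by
    rw [mul_assoc, Int.mul_ediv_assoc _ he3]
  rw [h4, poi2_jr_mul]
  ring

private theorem poi2_tsum_dvd (g : ℕ → ℝ) {e : ℕ} (he : e ≠ 0) :
    ∑' d, (if e ∣ d then g d else 0) = ∑' m, g (e * m) := by
  have hinj : Function.Injective (fun m : ℕ => e * m) := fun m n h =>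
    Nat.eq_of_mul_eq_mul_left (Nat.pos_of_ne_zero he) h
  rw [← hinj.tsum_eq (f := fun d => if e ∣ d then g d else 0)]
  · refine tsum_congr fun m => ?_
    rw [if_pos (Dvd.intro m rfl)]
  · intro d hd
    rw [Function.mem_support] at hd
    by_cases h : e ∣ d
    · obtain ⟨m, rfl⟩ := h
      exact ⟨m, rfl⟩
    · rw [if_neg h] at hd
      exact absurd rfl hd

private theorem poi2_tsum_dvdZ (g : ℤ → ℝ) {e : ℤ} (he : e ≠ 0) :
    ∑' d, (if e ∣ d then g d else 0) = ∑' m, g (e * m) := by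
  have hinj : Function.Injective (fun m : ℤ => e * m) := fun m n h =>
    mul_left_cancel₀ he h
  rw [← hinj.tsum_eq (f := fun d => if e ∣ d then g d else 0)]
  · refine tsum_congr fun m => ?_
    rw [if_pos (Dvd.intro m rfl)]
  · intro d hd
    rw [Function.mem_support] at hd
    by_cases h : e ∣ d
    · obtain ⟨m, rfl⟩ := h
      exact ⟨m, rfl⟩
    · rw [if_neg h] at hd
      exact absurd rfl hd

theorem p_poi2 : D_poi2 := by
  intro F a b ha hF σ hσ q N hq hN hqN Y hY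
  have hq0 : q ≠ 0 := hq.pos.ne'
  have hqr : (0 : ℝ) < q := by exact_mod_cast hq.pos
  have hNr : (0 : ℝ) < N := by exact_mod_cast hN.pos
  have hqZ : (q : ℤ) ≠ 0 := by exact_mod_cast hq0
  -- the left hand side
  have e1 : ∑' d : ℕ, (if Odd d ∧ q ∣ d then F (d / Y) * jr (2 * σ * d) N else 0) =
      ∑' d : ℕ, (if q ∣ d then (if Odd d then F (d / Y) * jr (2 * σ * d) N else 0) else 0) := by
    refine tsum_congr fun d => ?_
    by_cases h1 : q ∣ d <;> by_cases h2 : Odd d <;> simp [h1, h2]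
  have e2 : ∑' m : ℕ, (if Odd (q * m) then F (((q * m : ℕ) : ℝ) / Y) *
      jr (2 * σ * ((q * m : ℕ) : ℤ)) N else 0) =
      jr q N * ∑' m : ℕ, (if Odd m then F (m / (Y / q)) * jr (2 * σ * m) N else 0) := by
    rw [← tsum_mul_left]
    refine tsum_congr fun m => ?_
    have h1 : Odd (q * m) ↔ Odd m := by
      rw [Nat.odd_mul]
      exact ⟨fun h => h.2, fun h => ⟨hq, h⟩⟩
    by_cases h2 : Odd m
    · rw [if_pos (h1.2 h2), if_pos h2]
      have h3 : ((q * m : ℕ) : ℝ) / Y = (m : ℝ) / (Y / q) := by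
        push_cast
        field_simp
      have h4 : 2 * σ * ((q * m : ℕ) : ℤ) = (q : ℤ) * (2 * σ * m) := by
        push_cast
        ring
      rw [h3, h4, poi2_jr_mul]
      ring
    · rw [if_neg (fun h => h2 (h1.1 h)), if_neg h2, mul_zero]
  rw [e1, poi2_tsum_dvd (fun d => if Odd d then F (d / Y) * jr (2 * σ * d) N else 0) hq0, e2,
    (poisson_odd ha hF σ hσ N hN (Y / q) (by positivity)).2]
  -- the right hand side
  rw [poi2_tsum_dvdZ (fun k : ℤ => (-1 : ℝ) ^ k.natAbs * gg k N *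
    Ft F σ ((k : ℝ) * (Y / (q : ℝ) ^ 2) / (2 * N))) hqZ, ← tsum_mul_left, ← tsum_mul_left,
    ← tsum_mul_left]
  refine tsum_congr fun k => ?_
  have h3 : (-1 : ℝ) ^ ((q : ℤ) * k).natAbs = (-1 : ℝ) ^ k.natAbs := by
    rw [Int.natAbs_mul, Int.natAbs_natCast, pow_mul, hq.neg_one_pow]
  have h5 : (((q : ℤ) * k : ℤ) : ℝ) * (Y / (q : ℝ) ^ 2) / (2 * N) =
      (k : ℝ) * (Y / q) / (2 * N) := by
    push_cast
    field_simp
  rw [h3, h5, ← gg_twist k hN hqN]
  field_simp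

end Pool.Agent.MP0016c7.Rz
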