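import Mathlib
import Pool.Agent.Lib.MP_0016c7_nt.PS.Stm
import Pool.Agent.Lib.MP_0016c7_nt.Rz2.Pois8c
import Pool.Agent.Lib.MP_0016c7_nt.Rz.ArithA1
import Pool.Agent.Lib.MP_0016c7_nt.Rz.ArithA2

set_option autoImplicit false

/-!
Prescribed splitting: Poisson summation over the multiples of `q` in a class modulo `8`.
-/

open Finset MeasureTheory Filter Topology
open scoped Real ContDiff

namespace Pool.Agent.MP0016c7.Rz

private theorem poi8_jr_mul (a b : ℤ) (n : ℕ) : jr (a * b) n = jr a n * jr b n := by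
  unfold jr
  split_ifs
  · rw [jacobiSym.mul_left]
    push_cast
    ring
  · simp

private theorem poi8_jr_sq_one {k : ℤ} {n : ℕ} (hn : Odd n) (h : IsCoprime k (n : ℤ)) :
    jr k n ^ 2 = 1 := by
  unfold jr
  rw [if_pos hn]
  have := jacobiSym.sq_one (a := k) (b := n) (by
    rw [← Int.isCoprime_iff_gcd_eq_one]; exact h)
  exact_mod_cast this

private theorem poi8_odd12 {N : ℕ} (hN : Odd N) : Odd (sq1 N) ∧ Odd (sq2 N) := by
  have hNAB := sq1_mul_sq2 N hN.pos.ne'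
  rw [← hNAB] at hN
  exact ⟨(Nat.odd_mul.1 hN).1, (Nat.odd_pow_iff (by norm_num)).1 (Nat.odd_mul.1 hN).2⟩

/-- Twisting of `gg` by an integer coprime to `N`. -/
theorem poi8_gg_mul {N : ℕ} (hN : Odd N) (u : ℤ) (hu : IsCoprime u (N : ℤ)) (k : ℤ) :
    gg (u * k) N = jr u N * gg k N := by
  have hNAB := sq1_mul_sq2 N hN.pos.ne'
  obtain ⟨hA, hB⟩ := poi8_odd12 hN
  have hB0 : (((sq2 N : ℕ) : ℤ)) ^ 2 ≠ 0 := pow_ne_zero _ (by exact_mod_cast hB.pos.ne')
  have hNc : (N : ℤ) = (sq1 N : ℤ) * (sq2 N : ℤ) ^ 2 := by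
    have : (((sq1 N * sq2 N ^ 2 : ℕ)) : ℤ) = (N : ℤ) := by rw [hNAB]
    push_cast at this
    exact this.symm
  have huB : IsCoprime u ((sq2 N : ℤ) ^ 2) := by
    rw [hNc] at hu
    exact hu.of_mul_right_right
  have hjr : jr u N = jr u (sq1 N) := by
    have h1 : jr u N = jr u (sq1 N) * jr u (sq2 N) ^ 2 := by
      have : NeZero (sq1 N) := ⟨hA.pos.ne'⟩
      have : NeZero (sq2 N) := ⟨hB.pos.ne'⟩
      have h0 : jr u (sq1 N * sq2 N ^ 2) = jr u (sq1 N) * jr u (sq2 N) ^ 2 := by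
        unfold jr
        rw [if_pos (hA.mul hB.pow), if_pos hA, if_pos hB, jacobiSym.mul_right,
          jacobiSym.pow_right]
        push_cast
        ring
      rwa [hNAB] at h0
    rw [h1, poi8_jr_sq_one hB (by
      rw [sq] at huB
      exact huB.of_mul_right_left), mul_one]
  rw [hjr]
  unfold gg
  rw [← mul_div_assoc, Finset.mul_sum]
  congr 1
  have hfil : (sq2 N).divisors.filter (fun e : ℕ => ((sq2 N : ℕ) : ℤ) ^ 2 ∣ (u * k) * (e : ℤ)) =
      (sq2 N).divisors.filter (fun e : ℕ => ((sq2 N : ℕ) : ℤ) ^ 2 ∣ k * (e : ℤ)) := by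
    apply Finset.filter_congr
    intro e _
    rw [mul_assoc]
    constructor
    · intro h
      exact huB.symm.dvd_of_dvd_mul_left h
    · intro h
      exact h.mul_left u
  rw [hfil]
  refine Finset.sum_congr rfl fun e he => ?_
  have hdvd := (mem_filter.1 he).2
  obtain ⟨t, ht⟩ := hdvd
  have h2 : (u * k) * (e : ℤ) ^ 2 / ((sq2 N : ℕ) : ℤ) ^ 2 = u * (t * e) := by
    apply Int.ediv_eq_of_eq_mul_right hB0
    have : (u * k) * (e : ℤ) ^ 2 = (k * e) * (u * e) := by ring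
    rw [this, ht]
    ring
  have h3 : k * (e : ℤ) ^ 2 / ((sq2 N : ℕ) : ℤ) ^ 2 = t * e := by
    apply Int.ediv_eq_of_eq_mul_right hB0
    have : k * (e : ℤ) ^ 2 = (k * e) * e := by ring
    rw [this, ht]
    ring
  rw [h2, h3, poi8_jr_mul]
  ring

/-- `jr q N * gg k N = gg (q k) N` for `q` coprime to `N`. -/
theorem gg_twist8 {N : ℕ} (hN : Odd N) {q : ℕ} (hq : Nat.Coprime q N) (k : ℤ) :
    jr (q : ℤ) N * gg k N = gg ((q : ℤ) * k) N :=
  (poi8_gg_mul hN (q : ℤ) (Nat.isCoprime_iff_coprime.2 hq) k).symm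

private theorem poi8_tsum_nat (g : ℕ → ℝ) {e : ℕ} (he : e ≠ 0) :
    ∑' d, (if e ∣ d then g d else 0) = ∑' m, g (e * m) := by
  have hinj : Function.Injective (fun m : ℕ => e * m) := fun m n h =>
    Nat.eq_of_mul_eq_mul_left (Nat.pos_of_ne_zero he) h
  rw [← hinj.tsum_eq (f := fun d => if e ∣ d then g d else 0)]
  · refine tsum_congr fun m => ?_
    rw [if_pos (Dvd.intro m rfl)]
  · intro d hd
    rw [Function.mem_support] at hd
    by_cases h : e ∣ d
    · obtain ⟨m, rfl⟩ := h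
      exact ⟨m, rfl⟩
    · rw [if_neg h] at hd
      exact absurd rfl hd

private theorem poi8_tsum_int (g : ℤ → ℝ) {e : ℤ} (he : e ≠ 0) :
    ∑' d, (if e ∣ d then g d else 0) = ∑' m, g (e * m) := by
  have hinj : Function.Injective (fun m : ℤ => e * m) := fun m n h =>
    mul_left_cancel₀ he h
  rw [← hinj.tsum_eq (f := fun d => if e ∣ d then g d else 0)]
  · refine tsum_congr fun m => ?_
    rw [if_pos (Dvd.intro m rfl)]
  · intro d hd
    rw [Function.mem_support] at hd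
    by_cases h : e ∣ d
    · obtain ⟨m, rfl⟩ := h
      exact ⟨m, rfl⟩
    · rw [if_neg h] at hd
      exact absurd rfl hd

/-- `(σ q d) % 8 = c ↔ (σ d) % 8 = (c q) % 8` for odd `q`. -/
private theorem poi8_cls (x q c : ℤ) (hq : q % 2 = 1) (hc : c % 8 = c) :
    (x * q) % 8 = c ↔ x % 8 = (c * q) % 8 := by
  have h1 : q * q ≡ 1 [ZMOD 8] := by
    have h2 : q % 8 = 1 ∨ q % 8 = 3 ∨ q % 8 = 5 ∨ q % 8 = 7 := by omega
    unfold Int.ModEq
    rw [Int.mul_emod]
    rcases h2 with h | h | h | h <;> rw [h] <;> norm_num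
  have hcc : (x * q) % 8 = c ↔ x * q ≡ c [ZMOD 8] := by
    unfold Int.ModEq
    rw [hc]
  rw [hcc]
  constructor
  · intro h
    have h3 : x * q * q ≡ c * q [ZMOD 8] := h.mul_right q
    have h4 : x * (q * q) ≡ x * 1 [ZMOD 8] := h1.mul_left x
    have h5 : x ≡ c * q [ZMOD 8] := by
      have : x * 1 ≡ c * q [ZMOD 8] := h4.symm.trans (by rw [← mul_assoc]; exact h3)
      rwa [mul_one] at this
    exact h5
  · intro h
    have h0 : x ≡ c * q [ZMOD 8] := h
    have h3 : x * q ≡ c * q * q [ZMOD 8] := h0.mul_right q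
    have h4 : c * (q * q) ≡ c * 1 [ZMOD 8] := h1.mul_left c
    rw [mul_assoc] at h3
    have h5 := h3.trans h4
    rwa [mul_one] at h5

private theorem poi8_t8 (c q k : ℤ) : t8 ((c * q) % 8 * k) = t8 (c * (q * k)) := by
  unfold t8
  have h : ((c * q) % 8 * k) % 8 = (c * (q * k)) % 8 := by
    rw [Int.mul_emod, Int.emod_emod, ← Int.mul_emod, mul_assoc]
  rw [h]

private theorem poi8_t4 (c q k : ℤ) (hq : q % 2 = 1) : t4 ((c * q) % 8) k = t4 c (q * k) := by
  unfold t4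
  have h : ((c * q) % 8 * k) % 4 = (c * (q * k)) % 4 := by
    have h1 : ((c * q) % 8) % 4 = (c * q) % 4 := by omega
    rw [Int.mul_emod, h1, ← Int.mul_emod, mul_assoc]
  have h2 : k % 4 = 2 ↔ (q * k) % 4 = 2 := by
    have h3 : q % 4 = 1 ∨ q % 4 = 3 := by omega
    have h4 : k % 4 = 0 ∨ k % 4 = 1 ∨ k % 4 = 2 ∨ k % 4 = 3 := by omega
    rw [Int.mul_emod]
    rcases h3 with h3 | h3 <;> rcases h4 with h4 | h4 | h4 | h4 <;> rw [h3, h4] <;> norm_num
  rw [h]
  simp only [h2]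

theorem p_poi8 : D_poi8 := by
  intro F a b ha hF σ hσ q N hq hN hqN c hc hc2 Y hY
  have hq0 : q ≠ 0 := hq.pos.ne'
  have hqr : (0 : ℝ) < q := by exact_mod_cast hq.pos
  have hqZ : (q : ℤ) ≠ 0 := by exact_mod_cast hq0
  have hq2 : (q : ℤ) % 2 = 1 := by
    obtain ⟨t, ht⟩ := hq
    rw [ht]
    push_cast
    omega
  have hc'8 : ((c * q) % 8) % 8 = (c * q) % 8 := by omega
  have hc'2 : ((c * q) % 8) % 2 = 1 := by
    have h1 : ((c * q) % 8) % 2 = (c * q) % 2 := by omega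
    rw [h1, Int.mul_emod, hc2, hq2]
    norm_num
  have hN0 : (0 : ℝ) < N := by exact_mod_cast hN.pos
  -- left side
  have hL : ∑' d : ℕ, (if (σ * d) % 8 = c ∧ q ∣ d then F (d / Y) * jr (σ * d) N else 0) =
      ∑' d : ℕ, (if q ∣ d then (if (σ * d) % 8 = c then F (d / Y) * jr (σ * d) N else 0)
        else 0) := by
    refine tsum_congr fun d => ?_
    by_cases h1 : q ∣ d
    · by_cases h2 : (σ * d) % 8 = c
      · rw [if_pos ⟨h2, h1⟩, if_pos h1, if_pos h2]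
      · rw [if_neg (fun h => h2 h.1), if_pos h1, if_neg h2]
    · rw [if_neg (fun h => h1 h.2), if_neg h1]
  rw [hL, poi8_tsum_nat (fun d => if (σ * d) % 8 = c then F (d / Y) * jr (σ * d) N else 0) hq0]
  have hL2 : ∑' m : ℕ, (if (σ * ((q * m : ℕ) : ℤ)) % 8 = c then
        F (((q * m : ℕ) : ℝ) / Y) * jr (σ * ((q * m : ℕ) : ℤ)) N else 0) =
      jr (q : ℤ) N * ∑' m : ℕ, (if (σ * m) % 8 = (c * q) % 8 then
        F (m / (Y / q)) * jr (σ * m) N else 0) := by
    rw [← tsum_mul_left]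
    refine tsum_congr fun m => ?_
    have e1 : (σ * ((q * m : ℕ) : ℤ)) = (σ * m) * q := by
      push_cast
      ring
    have e2 : ((q * m : ℕ) : ℝ) / Y = (m : ℝ) / (Y / q) := by
      push_cast
      field_simp
    rw [e1, e2, poi8_jr_mul]
    by_cases h : (σ * m) % 8 = (c * q) % 8
    · rw [if_pos ((poi8_cls (σ * m) q c hq2 hc).2 h), if_pos h]
      ring
    · rw [if_neg (fun h' => h ((poi8_cls (σ * m) q c hq2 hc).1 h')), if_neg h, mul_zero]
  rw [hL2, poisson8c ha hF σ hσ N hN ((c * q) % 8) hc'8 hc'2 (Y / q) (by positivity)]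
  -- right side
  rw [poi8_tsum_int (fun k : ℤ => gg k N *
        (√2 * t8 (c * k) * Ft F σ ((k : ℝ) * (Y / (q : ℝ) ^ 2) / (8 * N)) +
        t4 c k * Ft F σ ((k : ℝ) * (Y / (q : ℝ) ^ 2) / (4 * N)) +
        Ft F σ ((k : ℝ) * (Y / (q : ℝ) ^ 2) / N))) hqZ]
  rw [mul_left_comm, ← tsum_mul_left, ← div_div, div_right_comm Y 8 (q : ℝ)]
  congr 1
  refine tsum_congr fun k => ?_
  have f1 : (((q : ℤ) * k : ℤ) : ℝ) * (Y / (q : ℝ) ^ 2) = (k : ℝ) * (Y / q) := by
    push_cast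
    field_simp
  rw [f1, ← gg_twist8 hN hqN k, poi8_t8, poi8_t4 c q k hq2]
  ring

end Pool.Agent.MP0016c7.Rz
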