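import Mathlib
import Pool.Agent.Lib.MP_0016c7_nt.PS.Stm

set_option autoImplicit false

/-!
Prescribed splitting, piece qav: the quadratic form of the average is that of the main term.
-/

open Finset MeasureTheory Filter Topology
open scoped Real ContDiff

namespace Pool.Agent.MP0016c7.Rz

private lemma qav_add (W₁ W₂ : ℕ → ℕ → ℝ) (r M : ℕ) (f g : ℕ → ℝ) :
    quad W₁ W₂ r M (fun N => f N + g N) = quad W₁ W₂ r M f + quad W₁ W₂ r M g := by
  unfold quad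
  simp only [← sum_add_distrib]
  refine sum_congr rfl fun n₁ _ => sum_congr rfl fun l₁ _ => sum_congr rfl fun n₂ _ =>
    sum_congr rfl fun l₂ _ => ?_
  split_ifs <;> ring

private lemma qav_smul (W₁ W₂ : ℕ → ℕ → ℝ) (r M : ℕ) (a : ℝ) (f : ℕ → ℝ) :
    quad W₁ W₂ r M (fun N => a * f N) = a * quad W₁ W₂ r M f := by
  unfold quad
  simp only [mul_sum]
  refine sum_congr rfl fun n₁ _ => sum_congr rfl fun l₁ _ => sum_congr rfl fun n₂ _ =>
    sum_congr rfl fun l₂ _ => ?_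
  split_ifs <;> ring

private lemma qav_zero (W₁ W₂ : ℕ → ℕ → ℝ) (r M : ℕ) :
    quad W₁ W₂ r M (fun _ => 0) = 0 := by
  unfold quad
  simp

private lemma qav_sum {τ : Type} (T : Finset τ) (W₁ W₂ : ℕ → ℕ → ℝ) (r M : ℕ) (f : τ → ℕ → ℝ) :
    quad W₁ W₂ r M (fun N => ∑ t ∈ T, f t N) = ∑ t ∈ T, quad W₁ W₂ r M (f t) := by
  classical
  induction T using Finset.induction_on with
  | empty => simp only [sum_empty]; exact qav_zero _ _ _ _
  | insert a s ha ih =>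
    simp only [sum_insert ha]
    rw [qav_add, ih]

private lemma qav_nsc (F : ℝ → ℝ) (σ : ℤ) (α : ℝ) (c : ℤ → ℝ) (Y : ℝ) (N : ℕ) :
    NSc F σ (fun k => α * c k) Y N = α * NSc F σ c Y N := by
  unfold NSc
  rw [← tsum_mul_left]
  refine tsum_congr fun k => ?_
  split_ifs <;> ring

theorem p_qav (hd : D_dec) (hw : D_errW) (he : D_qerr) (hs : D_size) : D_qav := by
  intro _ δ θ hδ hθ hθ1
  obtain ⟨κ₀, η, hκ0, hη, hW⟩ := hw θ δ hθ hδ hθ1
  obtain ⟨η₂, hη₂, hE⟩ := he δ θ hδ hθ hθ1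
  set c₁ : ℝ := min (1 / 100) (min (κ₀ / 34) (min (η / 12) (η₂ / 24))) with hc₁
  have hc0 : 0 < c₁ := by
    refine lt_min (by norm_num) (lt_min (by positivity) (lt_min (by positivity) (by positivity)))
  have hca : c₁ ≤ 1 / 100 := min_le_left _ _
  have hcb : c₁ ≤ κ₀ / 34 := (min_le_right _ _).trans (min_le_left _ _)
  have hcc : c₁ ≤ η / 12 := (min_le_right _ _).trans ((min_le_right _ _).trans (min_le_left _ _))
  have hcd : c₁ ≤ η₂ / 24 := (min_le_right _ _).trans ((min_le_right _ _).trans (min_le_right _ _))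
  refine ⟨c₁, hc0, hca, ?_⟩
  intro F a b ha hF hF0 σ hσ m c ε κ u hf c' hc' ρ₁ ρ₂ h hρ₁ hρ₂ hh ε' hε'
  obtain ⟨C, hC, hdec⟩ := hd F a b ha hF hF0 m c ε σ κ u hf hσ
  obtain ⟨X₁, hX₁⟩ := hW F a b ha hF σ hσ c' hc' ρ₁ ρ₂ h hρ₁ hρ₂ hh
  obtain ⟨X₂, hX₂⟩ := hE c' hc' ρ₁ ρ₂ h hρ₁ hρ₂ hh
  -- eventual inequalities
  have t1 : Tendsto (fun X : ℝ => X ^ (κ₀ / 2)) atTop atTop := tendsto_rpow_atTop (by positivity)
  have t2 : Tendsto (fun X : ℝ => X ^ (η / 2)) atTop atTop := tendsto_rpow_atTop (by positivity)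
  have t3 : Tendsto (fun X : ℝ => X ^ (η₂ / 2)) atTop atTop := tendsto_rpow_atTop (by positivity)
  obtain ⟨X₃, hX₃⟩ := eventually_atTop.1 (((t1.eventually_ge_atTop 4).and
    ((t2.eventually_ge_atTop (8 / ε')).and ((t3.eventually_ge_atTop C).and
    (t3.eventually_ge_atTop (2 / ε'))))).and (eventually_gt_atTop (1 : ℝ)))
  refine ⟨max X₁ (max X₂ X₃), ?_⟩
  intro X hX y P Q R hy hp Y₁ hY₁ Y₂ hY₂
  have hXa : X₁ ≤ X := (le_max_left _ _).trans hX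
  have hXb : X₂ ≤ X := (le_max_left _ _).trans ((le_max_right _ _).trans hX)
  have hXc : X₃ ≤ X := (le_max_right _ _).trans ((le_max_right _ _).trans hX)
  obtain ⟨⟨s1, s2, s3, s4⟩, hX1⟩ := hX₃ X hXc
  have hX0 : 0 < X := by linarith
  obtain ⟨hPodd, hPle, -, -, -, -⟩ := hs c₁ X y P Q R hc0 hX1 hy hp
  have hPX : (P : ℝ) ≤ X := hPle.trans (by
    calc X ^ (2 * c₁) ≤ X ^ (1 : ℝ) := Real.rpow_le_rpow_of_exponent_le hX1.le (by linarith)
      _ = X := Real.rpow_one X)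
  have hP2 : (P : ℝ) ^ 2 ≤ X := by
    calc (P : ℝ) ^ 2 ≤ (X ^ (2 * c₁)) ^ 2 := by gcongr
      _ = X ^ (4 * c₁) := by rw [sq, ← Real.rpow_add hX0]; congr 1; ring
      _ ≤ X ^ (1 : ℝ) := Real.rpow_le_rpow_of_exponent_le hX1.le (by linarith)
      _ = X := Real.rpow_one X
  obtain ⟨T, γ, H, hT, hTt, hmain⟩ := hdec c₁ X y P Q R hc0 hX1 hy hp hP2
  set W₁ := Wt c' ρ₁ h X θ δ Y₁ with hW₁
  set W₂ := Wt c' ρ₂ h X θ δ Y₂ with hW₂
  set M : ℕ := ⌊X ^ 2⌋₊ with hM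
  set A : ℕ → ℝ := fun N => avP m c σ u P Q R F X (fun d => sy σ u d N) with hA
  set E : ℕ → ℝ := fun N => A N - (MP F σ ε κ P Q R X N + ∑ t ∈ T, NSc F σ (γ t) (H t) N) with hEdef
  have hsplit : quad W₁ W₂ P M A - quad W₁ W₂ P M (MP F σ ε κ P Q R X) =
      ∑ t ∈ T, quad W₁ W₂ P M (NSc F σ (γ t) (H t)) + quad W₁ W₂ P M E := by
    have e1 : A = fun N => MP F σ ε κ P Q R X N + ((∑ t ∈ T, NSc F σ (γ t) (H t) N) + E N) := by
      funext N
      rw [hEdef]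
      ring
    have e2 : quad W₁ W₂ P M A = quad W₁ W₂ P M (MP F σ ε κ P Q R X) +
        (∑ t ∈ T, quad W₁ W₂ P M (NSc F σ (γ t) (H t)) + quad W₁ W₂ P M E) := by
      rw [e1, qav_add, qav_add, qav_sum]
    rw [e2]; ring
  rw [hsplit]
  -- the nonsquare terms
  have hpow : 0 < X ^ (4 * c₁) := Real.rpow_pos_of_pos hX0 _
  have hns : ∀ t ∈ T, |quad W₁ W₂ P M (NSc F σ (γ t) (H t))| ≤ X ^ (4 * c₁) * X ^ (-η) := by
    intro t ht
    obtain ⟨g1, g2, g3⟩ := hTt t ht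
    have e1 : NSc F σ (γ t) (H t) = fun N => X ^ (4 * c₁) *
        NSc F σ (fun k => γ t k / X ^ (4 * c₁)) (H t) N := by
      funext N
      rw [← qav_nsc]
      congr 1
      funext k
      field_simp
    rw [e1, qav_smul, abs_mul, abs_of_pos hpow]
    refine mul_le_mul_of_nonneg_left ?_ hpow.le
    refine hX₁ X hXa P hPodd hPX Y₁ hY₁ Y₂ hY₂ _ ?_ (H t) ?_ g3
    · intro k
      rw [abs_div, abs_of_pos hpow, div_le_iff₀ hpow]
      exact g1 k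
    · have e2 : X ^ (1 - κ₀) * 4 ≤ X ^ (1 - 17 * c₁) := by
        calc X ^ (1 - κ₀) * 4 ≤ X ^ (1 - κ₀) * X ^ (κ₀ / 2) := by gcongr
          _ = X ^ (1 - κ₀ / 2) := by rw [← Real.rpow_add hX0]; congr 1; ring
          _ ≤ X ^ (1 - 17 * c₁) := Real.rpow_le_rpow_of_exponent_le hX1.le (by linarith)
      linarith
  have hb1 : |∑ t ∈ T, quad W₁ W₂ P M (NSc F σ (γ t) (H t))| ≤ ε' / 2 := by
    refine (abs_sum_le_sum_abs _ _).trans ((sum_le_sum hns).trans ?_)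
    rw [sum_const, nsmul_eq_mul]
    calc (T.card : ℝ) * (X ^ (4 * c₁) * X ^ (-η)) ≤ 4 * X ^ (2 * c₁) * (X ^ (4 * c₁) * X ^ (-η)) := by
          gcongr
      _ = 4 * X ^ (6 * c₁ - η) := by
          rw [mul_assoc, ← Real.rpow_add hX0, ← Real.rpow_add hX0]; congr 2; ring
      _ ≤ 4 * X ^ (-(η / 2)) := by
          have : X ^ (6 * c₁ - η) ≤ X ^ (-(η / 2)) :=
            Real.rpow_le_rpow_of_exponent_le hX1.le (by linarith)
          linarith
      _ ≤ ε' / 2 := by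
          rw [Real.rpow_neg hX0.le]
          have h8 : 0 < 8 / ε' := by positivity
          have h9 : (X ^ (η / 2))⁻¹ ≤ (8 / ε')⁻¹ := inv_anti₀ h8 s2
          rw [inv_div] at h9
          linarith
  have hb2 : |quad W₁ W₂ P M E| ≤ ε' / 2 := by
    refine (hX₂ X hXb P hPodd E ?_ Y₁ hY₁ Y₂ hY₂).trans ?_
    · intro N hN
      refine (hmain N hN).trans ?_
      have e3 : C * X ^ (12 * c₁ - 1) ≤ X ^ (η₂ - 1) := by
        calc C * X ^ (12 * c₁ - 1) ≤ X ^ (η₂ / 2) * X ^ (12 * c₁ - 1) := by gcongr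
          _ = X ^ (η₂ / 2 + (12 * c₁ - 1)) := by rw [← Real.rpow_add hX0]
          _ ≤ X ^ (η₂ - 1) := Real.rpow_le_rpow_of_exponent_le hX1.le (by linarith)
      calc C * X ^ (12 * c₁ - 1) * N.divisors.card ≤ X ^ (η₂ - 1) * N.divisors.card := by gcongr
        _ = _ := by ring
    · have h10 : X ^ (-η₂) ≤ X ^ (-(η₂ / 2)) :=
        Real.rpow_le_rpow_of_exponent_le hX1.le (by linarith)
      refine h10.trans ?_
      rw [Real.rpow_neg hX0.le]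
      have h8 : 0 < 2 / ε' := by positivity
      have h9 : (X ^ (η₂ / 2))⁻¹ ≤ (2 / ε')⁻¹ := inv_anti₀ h8 s4
      rw [inv_div] at h9
      exact h9
  calc |∑ t ∈ T, quad W₁ W₂ P M (NSc F σ (γ t) (H t)) + quad W₁ W₂ P M E|
      ≤ |∑ t ∈ T, quad W₁ W₂ P M (NSc F σ (γ t) (H t))| + |quad W₁ W₂ P M E| := abs_add_le _ _
    _ ≤ ε' / 2 + ε' / 2 := add_le_add hb1 hb2
    _ = ε' := by ring

end Pool.Agent.MP0016c7.Rz
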