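import Mathlib
import Pool.Agent.Lib.MP_0016c7_nt.PS.DefsM
import Pool.Agent.Lib.MP_0016c7_nt.PS.BUk
import Pool.Agent.Lib.MP_0016c7_nt.PS.BzP
import Pool.Agent.Lib.MP_0016c7_nt.Rz.ArithA10

set_option autoImplicit false

/-!
The Mellin representation of the main function of a pattern.
-/

open Finset MeasureTheory Filter Topology
open scoped Real ContDiff

namespace Pool.Agent.MP0016c7.Rz

private theorem mrpp_sq1_pos (N : ℕ) : 0 < sq1 N := by
  unfold sq1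
  exact Finset.prod_pos (fun p hp => (Nat.prime_of_mem_primeFactors (Finset.mem_filter.1 hp).1).pos)

private theorem mrpp_cont_bz (c : ℝ) (N : ℕ) :
    Continuous (fun t : ℝ => bz ((c : ℂ) + Complex.I * t) N) := by
  unfold bz
  refine continuous_const.mul (continuous_finsetSum _ (fun e he => continuous_const.mul ?_))
  apply Continuous.const_cpow
  · fun_prop
  · left
    have he0 : 0 < e := Nat.pos_of_mem_divisors he
    have h1 : (0 : ℝ) < sq1 N := by exact_mod_cast mrpp_sq1_pos N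
    have h2 : (0 : ℝ) < e := by exact_mod_cast he0
    have h3 : (0 : ℝ) < (sq1 N : ℝ) / (e : ℝ) ^ 2 := by positivity
    exact_mod_cast h3.ne'

private theorem mrpp_kernel {β : ℂ → ℂ} {B : ℝ → ℝ} (hβ : BC β B) (c : ℝ) (hc : 0 < c)
    (hc1 : c ≤ 1 / 8) (Y : ℝ) (hY : 0 < Y) :
    Continuous (fun t : ℝ => β (c + Complex.I * t) * ((Y : ℝ) : ℂ) ^ (-(c + Complex.I * t : ℂ)) /
      (c + Complex.I * t)) ∧
    Integrable (fun t : ℝ => β (c + Complex.I * t) * ((Y : ℝ) : ℂ) ^ (-(c + Complex.I * t : ℂ)) /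
      (c + Complex.I * t)) := by
  have hcont : Continuous (fun t : ℝ => β (c + Complex.I * t) *
      ((Y : ℝ) : ℂ) ^ (-(c + Complex.I * t : ℂ)) / (c + Complex.I * t)) := by
    apply Continuous.div
    · apply Continuous.mul (hβ.ct c (by rw [abs_of_pos hc]; exact hc1))
      apply Continuous.const_cpow
      · fun_prop
      · left
        exact_mod_cast hY.ne'
    · fun_prop
    · intro t h0
      have := congrArg Complex.re h0
      simp at this
      linarith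
  refine ⟨hcont, ?_⟩
  obtain ⟨C, hC, hb⟩ := hβ.bd 2
  have hdom : Integrable (fun t : ℝ => (C * Y ^ (-c) / c) * (1 + t ^ 2)⁻¹) :=
    integrable_inv_one_add_sq.const_mul _
  refine hdom.mono' hcont.aestronglyMeasurable (Filter.Eventually.of_forall fun t => ?_)
  have hre : ((c : ℂ) + Complex.I * t).re = c := by simp
  have him : ((c : ℂ) + Complex.I * t).im = t := by simp
  have h1 := (hb (c + Complex.I * t) (by rw [hre, abs_of_pos hc]; exact hc1)).1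
  have h2 : |t| ≤ ‖(c : ℂ) + Complex.I * t‖ := by
    have := Complex.abs_im_le_norm ((c : ℂ) + Complex.I * t)
    rwa [him] at this
  have h3 : c ≤ ‖(c : ℂ) + Complex.I * t‖ := by
    have := Complex.re_le_norm ((c : ℂ) + Complex.I * t)
    rwa [hre] at this
  have h4 : ‖β (c + Complex.I * t)‖ ≤ C * (1 + t ^ 2)⁻¹ := by
    rw [← div_eq_mul_inv, le_div_iff₀ (by positivity)]
    refine le_trans ?_ h1
    apply mul_le_mul_of_nonneg_left _ (norm_nonneg _)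
    rw [Real.rpow_two]
    have h5 : t ^ 2 ≤ ‖(c : ℂ) + Complex.I * t‖ ^ 2 := by
      rw [← sq_abs t]
      exact pow_le_pow_left₀ (abs_nonneg t) h2 2
    nlinarith [norm_nonneg ((c : ℂ) + Complex.I * t)]
  have h6 : ‖((Y : ℝ) : ℂ) ^ (-(c + Complex.I * t : ℂ))‖ = Y ^ (-c) := by
    rw [Complex.norm_cpow_eq_rpow_re_of_pos hY]
    simp
  rw [norm_div, norm_mul, h6]
  have hYc : 0 < Y ^ (-c) := Real.rpow_pos_of_pos hY _
  calc ‖β (c + Complex.I * t)‖ * Y ^ (-c) / ‖(c : ℂ) + Complex.I * t‖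
      ≤ (C * (1 + t ^ 2)⁻¹) * Y ^ (-c) / c := by
        apply div_le_div₀ (by positivity) (mul_le_mul_of_nonneg_right h4 hYc.le) hc h3
    _ = (C * Y ^ (-c) / c) * (1 + t ^ 2)⁻¹ := by ring

private theorem mrpp_aux {ι : Type*} (S : Finset ι) (a A : ι → ℂ) (h : ι → ℝ → ℂ) (g : ℝ → ℂ)
    (k I : ℂ) (hint : ∀ i ∈ S, Integrable (fun t : ℝ => g t * h i t)) :
    ∑ i ∈ S, a i * (I * (A i - k * ∫ t : ℝ, g t * h i t)) =
      I * (∑ i ∈ S, a i * A i - k * ∫ t : ℝ, g t * ∑ i ∈ S, a i * h i t) := by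
  have h1 : ∫ t : ℝ, g t * ∑ i ∈ S, a i * h i t = ∑ i ∈ S, a i * ∫ t : ℝ, g t * h i t := by
    have h2 : (fun t : ℝ => g t * ∑ i ∈ S, a i * h i t) =
        fun t : ℝ => ∑ i ∈ S, a i * (g t * h i t) := by
      funext t
      rw [Finset.mul_sum]
      exact Finset.sum_congr rfl (fun i _ => by ring)
    rw [h2, integral_finsetSum S (fun i hi => (hint i hi).const_mul (a i))]
    exact Finset.sum_congr rfl (fun i _ => integral_const_mul _ _)
  rw [h1, Finset.mul_sum, ← Finset.sum_sub_distrib, Finset.mul_sum]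
  exact Finset.sum_congr rfl (fun i _ => by ring)

private theorem mrpp_WP0 (P Q R : ℕ) : WP P Q R 0 = 1 := by
  unfold WP
  rw [Finset.prod_eq_one, Finset.prod_eq_one, one_mul]
  · intro p hp
    have hp1 : 1 < p := (Nat.prime_of_mem_primeFactors hp).one_lt
    have h1 : (p : ℂ) ≠ 0 := by exact_mod_cast (by omega : p ≠ 0)
    have h2 : (1 - 1 / (p : ℂ)) ≠ 0 := by
      rw [sub_ne_zero, ne_comm, Ne, div_eq_iff h1, one_mul]
      exact_mod_cast (by omega : 1 ≠ p)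
    have h3 : (1 - (p : ℂ) ^ (2 * (0 : ℂ) - 1)) = 1 - 1 / (p : ℂ) := by
      rw [show (2 * (0 : ℂ) - 1) = -1 by ring, Complex.cpow_neg_one, one_div]
    rw [h3, div_self h2]
  · intro p _
    simp

private theorem mrpp_scale {Y f : ℝ} (hY : 0 < Y) (hf : 0 < f) (z : ℂ) :
    ((Y / f ^ 2 / 2 : ℝ) : ℂ) ^ (-z) = ((Y / 2 : ℝ) : ℂ) ^ (-z) * ((f ^ 2 : ℝ) : ℂ) ^ z := by
  have h1 : (Y / 2 : ℝ) = (Y / f ^ 2 / 2) * f ^ 2 := by field_simp
  have hf0 : ((f ^ 2 : ℝ) : ℂ) ≠ 0 := by exact_mod_cast (by positivity : (f ^ 2 : ℝ) ≠ 0)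
  conv_rhs => rw [h1, Complex.ofReal_mul (Y / f ^ 2 / 2) (f ^ 2),
    Complex.mul_cpow_ofReal_nonneg (by positivity) (by positivity), mul_assoc,
    ← Complex.cpow_add _ _ hf0, neg_add_cancel, Complex.cpow_zero, mul_one]

theorem MRepC_pattern {β : ℂ → ℂ} {B : ℝ → ℝ} (hβ : BC β B) {I₀ : ℝ} {MF : ℝ → ℕ → ℝ}
    (hM : ∀ Y : ℝ, 0 < Y → MRep β I₀ Y (MF Y)) {y : ℝ} {P Q R : ℕ} (hP : Pat y P Q R) {Y : ℝ}
    (hY : 0 < Y) :
    MRepC P (fun z => β z * WP P Q R z) I₀ Y (fun N => 1 / phP P *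
      ∑ e ∈ (P / R).divisors, ∑ f ∈ R.divisors,
        eps Q e * ((ArithmeticFunction.moebius f : ℝ) / f) *
          MF (Y / (f : ℝ) ^ 2) (e * (P / R) ^ 2 * N)) := by
  intro N hN c hc hc1
  -- parity
  have hP0 : P ≠ 0 := hP.sf.ne_zero
  have hPodd : Odd P := hP.odd
  have hPR : P / R ∣ P := Nat.div_dvd_of_dvd hP.hR
  have hPR0 : P / R ≠ 0 := fun h => hP0 (Nat.eq_zero_of_zero_dvd (h ▸ hPR))
  have hPRodd : Odd (P / R) := Odd.of_dvd_nat hPodd hPR
  have hNodd : Odd N := by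
    have h2 : Nat.Coprime N 2 := Nat.Coprime.coprime_mul_right_right hN
    exact (Nat.coprime_comm.1 h2).odd_of_left
  have hodd : ∀ e ∈ (P / R).divisors, Odd (e * (P / R) ^ 2 * N) := by
    intro e he
    have he1 : Odd e := Odd.of_dvd_nat hPRodd (Nat.dvd_of_mem_divisors he)
    exact (he1.mul hPRodd.pow).mul hNodd
  -- kernel
  obtain ⟨hgc, hgi⟩ := mrpp_kernel hβ c hc hc1 (Y / 2) (by positivity)
  set g : ℝ → ℂ := fun t => β (c + Complex.I * t) *
      ((Y / 2 : ℝ) : ℂ) ^ (-(c + Complex.I * t : ℂ)) / (c + Complex.I * t) with hg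
  set H : ℕ × ℕ → ℝ → ℂ := fun i t => ((((i.2 : ℝ) ^ 2 : ℝ) : ℂ) ^ ((c : ℂ) + Complex.I * t) *
    bz (c + Complex.I * t) (i.1 * (P / R) ^ 2 * N)) with hH
  set S : Finset (ℕ × ℕ) := (P / R).divisors ×ˢ R.divisors with hS
  have hint : ∀ i ∈ S, Integrable (fun t : ℝ => g t * H i t) := by
    intro i hi
    rw [hS, Finset.mem_product] at hi
    have hf0 : 0 < i.2 := Nat.pos_of_mem_divisors hi.2
    have hfR : (0 : ℝ) < i.2 := by exact_mod_cast hf0
    have hf2 : (0 : ℝ) < (i.2 : ℝ) ^ 2 := by positivity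
    have hne : i.1 * (P / R) ^ 2 * N ≠ 0 := (hodd i.1 hi.1).pos.ne'
    set M' := i.1 * (P / R) ^ 2 * N with hM'
    set K : ℝ := ((i.2 : ℝ) ^ 2) ^ c * ((M'.divisors.card : ℝ) * (sq1 M' : ℝ) ^ (-(1 / 2) + c))
      with hK
    have hcont : Continuous (fun t : ℝ => H i t) := by
      simp only [hH]
      refine Continuous.mul ?_ (mrpp_cont_bz c _)
      apply Continuous.const_cpow
      · fun_prop
      · left
        exact_mod_cast hf2.ne'
    apply Integrable.mono' (hgi.norm.mul_const K)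
    · exact (hgc.mul hcont).aestronglyMeasurable
    · filter_upwards with t
      rw [norm_mul]
      refine mul_le_mul_of_nonneg_left ?_ (norm_nonneg _)
      simp only [hH]
      rw [norm_mul, hK]
      have hre : ((c : ℂ) + Complex.I * t).re = c := by simp
      have h1 : ‖(((i.2 : ℝ) ^ 2 : ℝ) : ℂ) ^ ((c : ℂ) + Complex.I * t)‖ = ((i.2 : ℝ) ^ 2) ^ c := by
        rw [Complex.norm_cpow_eq_rpow_re_of_pos hf2, hre]
      have h2 := norm_bz_le (c + Complex.I * t) M' hne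
      rw [hre, abs_of_pos hc] at h2
      rw [h1]
      exact mul_le_mul_of_nonneg_left h2 (by positivity)
  -- representation of each term
  have hrep : ∀ i ∈ S, ((MF (Y / (i.2 : ℝ) ^ 2) (i.1 * (P / R) ^ 2 * N) : ℝ) : ℂ) =
      (I₀ : ℂ) * (bz 0 (i.1 * (P / R) ^ 2 * N) - (1 / 2 * (1 / (2 * π))) * ∫ t : ℝ, g t * H i t) := by
    intro i hi
    rw [hS, Finset.mem_product] at hi
    have hf0 : 0 < i.2 := Nat.pos_of_mem_divisors hi.2
    have hfR : (0 : ℝ) < i.2 := by exact_mod_cast hf0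
    rw [hM (Y / (i.2 : ℝ) ^ 2) (by positivity) _ (hodd i.1 hi.1) c hc hc1]
    congr 3
    apply integral_congr_ae
    filter_upwards with t
    simp only [hg, hH]
    rw [mrpp_scale hY hfR]
    ring
  have hsum : (((1 / phP P * ∑ e ∈ (P / R).divisors, ∑ f ∈ R.divisors,
        eps Q e * ((ArithmeticFunction.moebius f : ℝ) / f) *
          MF (Y / (f : ℝ) ^ 2) (e * (P / R) ^ 2 * N) : ℝ)) : ℂ) =
      ((1 / phP P : ℝ) : ℂ) * ∑ i ∈ S,
        ((eps Q i.1 * ((ArithmeticFunction.moebius i.2 : ℝ) / i.2) : ℝ) : ℂ) *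
          ((I₀ : ℂ) * (bz 0 (i.1 * (P / R) ^ 2 * N) -
            (1 / 2 * (1 / (2 * π))) * ∫ t : ℝ, g t * H i t)) := by
    rw [Complex.ofReal_mul, ← Finset.sum_product' (P / R).divisors R.divisors
      (fun e f => eps Q e * ((ArithmeticFunction.moebius f : ℝ) / f) *
          MF (Y / (f : ℝ) ^ 2) (e * (P / R) ^ 2 * N)), Complex.ofReal_sum]
    congr 1
    refine Finset.sum_congr rfl (fun i hi => ?_)
    rw [Complex.ofReal_mul, hrep i hi]
  rw [hsum, mrpp_aux S _ _ _ g _ _ hint]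
  have hz : ∀ z : ℂ, ((1 / phP P : ℝ) : ℂ) * ∑ i ∈ S,
      ((eps Q i.1 * ((ArithmeticFunction.moebius i.2 : ℝ) / i.2) : ℝ) : ℂ) *
        ((((i.2 : ℝ) ^ 2 : ℝ) : ℂ) ^ z * bz z (i.1 * (P / R) ^ 2 * N)) = WP P Q R z * bz z N := by
    intro z
    rw [← bz_pattern hP z hN, ← Finset.sum_product' (P / R).divisors R.divisors
      (fun e f => ((eps Q e * ((ArithmeticFunction.moebius f : ℝ) / f) : ℝ) : ℂ) *
        ((((f : ℝ) ^ 2 : ℝ) : ℂ) ^ z * bz z (e * (P / R) ^ 2 * N)))]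
  have h0 : ((1 / phP P : ℝ) : ℂ) * ∑ i ∈ S,
      ((eps Q i.1 * ((ArithmeticFunction.moebius i.2 : ℝ) / i.2) : ℝ) : ℂ) *
        bz 0 (i.1 * (P / R) ^ 2 * N) = bz 0 N := by
    have h1 := hz 0
    simp only [Complex.cpow_zero, one_mul] at h1
    rw [h1, mrpp_WP0, one_mul]
  have hI : ((1 / phP P : ℝ) : ℂ) * ∫ t : ℝ, g t * ∑ i ∈ S,
      ((eps Q i.1 * ((ArithmeticFunction.moebius i.2 : ℝ) / i.2) : ℝ) : ℂ) * H i t =
      ∫ t : ℝ, (β (c + Complex.I * t) * WP P Q R (c + Complex.I * t)) *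
        (((Y / 2 : ℝ)) : ℂ) ^ (-(c + Complex.I * t : ℂ)) *
          bz (c + Complex.I * t) N / (c + Complex.I * t) := by
    rw [← integral_const_mul]
    apply integral_congr_ae
    filter_upwards with t
    have h1 := hz (c + Complex.I * t)
    calc ((1 / phP P : ℝ) : ℂ) * (g t * ∑ i ∈ S,
      ((eps Q i.1 * ((ArithmeticFunction.moebius i.2 : ℝ) / i.2) : ℝ) : ℂ) * H i t)
        = g t * (((1 / phP P : ℝ) : ℂ) * ∑ i ∈ S,
      ((eps Q i.1 * ((ArithmeticFunction.moebius i.2 : ℝ) / i.2) : ℝ) : ℂ) * H i t) := by ring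
      _ = g t * (WP P Q R (c + Complex.I * t) * bz (c + Complex.I * t) N) := by rw [← h1]
      _ = _ := by
        simp only [hg]
        ring
  calc ((1 / phP P : ℝ) : ℂ) * ((I₀ : ℂ) * (∑ i ∈ S,
        ((eps Q i.1 * ((ArithmeticFunction.moebius i.2 : ℝ) / i.2) : ℝ) : ℂ) *
          bz 0 (i.1 * (P / R) ^ 2 * N) - (1 / 2 * (1 / (2 * π))) * ∫ t : ℝ, g t * ∑ i ∈ S,
      ((eps Q i.1 * ((ArithmeticFunction.moebius i.2 : ℝ) / i.2) : ℝ) : ℂ) * H i t))
      = (I₀ : ℂ) * (((1 / phP P : ℝ) : ℂ) * (∑ i ∈ S,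
        ((eps Q i.1 * ((ArithmeticFunction.moebius i.2 : ℝ) / i.2) : ℝ) : ℂ) *
          bz 0 (i.1 * (P / R) ^ 2 * N)) - (1 / 2 * (1 / (2 * π))) *
        (((1 / phP P : ℝ) : ℂ) * ∫ t : ℝ, g t * ∑ i ∈ S,
      ((eps Q i.1 * ((ArithmeticFunction.moebius i.2 : ℝ) / i.2) : ℝ) : ℂ) * H i t)) := by ring
    _ = _ := by rw [h0, hI]

theorem MRepC_MP {F : ℝ → ℝ} {a b : ℝ} (ha : 0 < a) (hF : Bump F a b) (hF0 : 0 < ∫ t, F t)
    (σ ε : ℤ) (hε : ε = 0 ∨ ε = 1 ∨ ε = -1) (κ : ℕ) {y : ℝ} {P Q R : ℕ} (hP : Pat y P Q R)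
    {Y : ℝ} (hY : 0 < Y) :
    MRepC P (fun z => bU F σ ε κ z * WP P Q R z) (∫ t, F t) Y (MP F σ ε κ P Q R Y) :=
  MRepC_pattern (BC_bU ha hF hF0 σ ε hε κ) (fun Y hY => MRep_MU ha hF hF0 σ ε hε κ Y hY) hP hY

end Pool.Agent.MP0016c7.Rz
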