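import Mathlib
import Pool.Agent.Lib.MP_0016c7_nt.PS.Stm
import Pool.Agent.Lib.MP_0016c7_nt.PS.MRepP

set_option autoImplicit false

/-!
[PS rep] The Mellin representation of the main term (from section M, `MRepC_MP`).
-/

open Finset MeasureTheory Filter Topology
open scoped Real ContDiff

namespace Pool.Agent.MP0016c7.Rz

theorem p_rep (_hb : D_bz) : D_rep := by
  intro F a b ha hF hF0 m c ε σ κ u hf y P Q R hp Y hY
  have hε : ε = 0 ∨ ε = 1 ∨ ε = -1 := by
    rcases hf with h | h | h | h | h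
    · exact Or.inl h.2.2.1
    · exact Or.inr (Or.inl h.2.2.1)
    · exact Or.inr (Or.inr h.2.2.1)
    · exact Or.inl h.2.2.1
    · exact Or.inl h.2.2.1
  exact MRepC_MP ha hF hF0 σ ε hε κ hp hY

end Pool.Agent.MP0016c7.Rz
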