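import Mathlib
import Pool.Agent.Lib.MP_0016c7_nt.PS.Stm

set_option autoImplicit false

open Finset MeasureTheory Filter Topology
open scoped Real ContDiff

namespace Pool.Agent.MP0016c7.Rz

theorem p_shc (h : D_wS) : D_shc := by
  intro A B hA hB L hL T hT hb
  obtain ⟨hw0, hws, hwl⟩ := h A B hA hB
  set s₁ : ℝ := Real.log (∏ p ∈ B, (p : ℝ)) / L with hs₁
  have key : ∀ Y₀ : ℝ, ∃ C : ℝ, ∀ (q : ℕ × ℕ) (Y : ℝ), Y ≤ Y₀ →
      ‖wS A B q * T (Y - sS L q)‖ ≤ wS A B q * C := by
    intro Y₀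
    obtain ⟨C, hC⟩ := hb (Y₀ + s₁)
    refine ⟨C, fun q Y hY => ?_⟩
    by_cases hq : wS A B q = 0
    · rw [hq]
      simp
    · have h1 := hwl L q hL hq
      have h2 := hC (Y - sS L q) (by linarith)
      rw [Real.norm_eq_abs, abs_mul, abs_of_nonneg (hw0 q)]
      exact mul_le_mul_of_nonneg_left h2 (hw0 q)
  have hsum : ∀ C : ℝ, Summable (fun q => wS A B q * C) := fun C => hws.summable.mul_right C
  refine ⟨fun Y => ?_, ?_, fun Y₀ => ?_⟩
  · obtain ⟨C, hC⟩ := key Y
    exact Summable.of_norm_bounded (hsum C) fun q => hC q Y le_rfl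
  · rw [continuous_iff_continuousAt]
    intro Y
    obtain ⟨C, hC⟩ := key (Y + 1)
    have h1 : ContinuousOn (shf A B L T) (Set.Iio (Y + 1)) := by
      refine continuousOn_tsum (u := fun q => wS A B q * C) (fun q => ?_) (hsum C) ?_
      · exact (continuous_const.mul (hT.comp (continuous_id.sub continuous_const))).continuousOn
      · intro q x hx
        exact hC q x (le_of_lt hx)
    exact h1.continuousAt (Iio_mem_nhds (by linarith))
  · obtain ⟨C, hC⟩ := key Y₀
    refine ⟨C, fun Y hY => ?_⟩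
    have h1 : ‖∑' q, wS A B q * T (Y - sS L q)‖ ≤ ∑' q, wS A B q * C :=
      tsum_of_norm_bounded (hsum C).hasSum fun q => hC q Y hY
    rw [tsum_mul_right, hws.tsum_eq, one_mul, Real.norm_eq_abs] at h1
    exact h1

end Pool.Agent.MP0016c7.Rz
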