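import Mathlib
import Pool.Agent.Lib.MP_0016c7_nt.PS.Stm

set_option autoImplicit false

open Finset MeasureTheory Filter Topology
open scoped Real ContDiff

namespace Pool.Agent.MP0016c7.Rz

theorem p_shd (h : D_wS) (hc : D_shc) : D_shd := by
  intro A B hA hB L hL T T' hT' hd hb hb' Y
  obtain ⟨hw0, hw1, hw2⟩ := h A B hA hB
  have hT : Continuous T := continuous_iff_continuousAt.mpr fun y => (hd y).continuousAt
  obtain ⟨C, hC⟩ := hb' (Y + 1 + Real.log (∏ p ∈ B, (p : ℝ)) / L)
  have hsum : Summable (fun q => wS A B q * C) := hw1.summable.mul_right C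
  have key : HasDerivAt (fun z => ∑' q : ℕ × ℕ, wS A B q * T (z - sS L q))
      (∑' q : ℕ × ℕ, wS A B q * T' (Y - sS L q)) Y := by
    refine hasDerivAt_tsum_of_isPreconnected (u := fun q => wS A B q * C) (t := Set.Iio (Y + 1))
      (g := fun q z => wS A B q * T (z - sS L q)) (g' := fun q z => wS A B q * T' (z - sS L q))
      (y₀ := Y) (y := Y) hsum isOpen_Iio isPreconnected_Iio ?_ ?_ ?_ ?_ ?_
    · intro q y _
      exact ((hd (y - sS L q)).comp_sub_const y (sS L q)).const_mul (wS A B q)
    · intro q y hy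
      by_cases hq : wS A B q = 0
      · simp [hq]
      · have h1 := hw2 L q hL hq
        have hy' : y < Y + 1 := hy
        have h2 := hC (y - sS L q) (by linarith)
        rw [Real.norm_eq_abs, abs_mul, abs_of_nonneg (hw0 q)]
        exact mul_le_mul_of_nonneg_left h2 (hw0 q)
    · show Y < Y + 1
      linarith
    · exact (hc A B hA hB L hL T hT hb).1 Y
    · show Y < Y + 1
      linarith
  exact key

end Pool.Agent.MP0016c7.Rz
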