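import Mathlib
import Pool.Agent.Lib.MP_0016c7_nt.PS.Stm

set_option autoImplicit false

/-!
Prescribed splitting: sizes (piece size).
-/

open Finset MeasureTheory Filter Topology
open scoped Real ContDiff

namespace Pool.Agent.MP0016c7.Rz

private lemma size_div {P : ℕ} (hP : Squarefree P) :
    P.divisors.card = 2 ^ P.primeFactors.card := by
  rw [Nat.card_divisors hP.ne_zero]
  have h : ∀ p ∈ P.primeFactors, P.factorization p + 1 = 2 := by
    intro p hp
    rw [Nat.factorization_eq_one_of_squarefree hP (Nat.prime_of_mem_primeFactors hp)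
      (Nat.dvd_of_mem_primeFactors hp)]
  rw [Finset.prod_congr rfl h, Finset.prod_const]

private lemma size_phP {P : ℕ} : 0 < phP P ∧ 1 / phP P ≤ 2 ^ P.primeFactors.card := by
  have h2 : ∀ p ∈ P.primeFactors, (1 / 2 : ℝ) ≤ 1 - 1 / (p : ℝ) := by
    intro p hp
    have hp2 : (2 : ℝ) ≤ (p : ℝ) := by
      exact_mod_cast (Nat.prime_of_mem_primeFactors hp).two_le
    have : 1 / (p : ℝ) ≤ 1 / 2 := one_div_le_one_div_of_le (by norm_num) hp2
    linarith
  have h0 : 0 < phP P := by
    unfold phP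
    exact Finset.prod_pos fun p hp => by linarith [h2 p hp]
  refine ⟨h0, ?_⟩
  have h1 : (1 / 2 : ℝ) ^ P.primeFactors.card ≤ phP P := by
    unfold phP
    rw [← Finset.prod_const]
    exact Finset.prod_le_prod (fun p _ => by norm_num) h2
  rw [div_le_iff₀ h0]
  have h3 : (2 : ℝ) ^ P.primeFactors.card * (1 / 2) ^ P.primeFactors.card = 1 := by
    rw [← mul_pow]
    norm_num
  calc (1 : ℝ) = (2 : ℝ) ^ P.primeFactors.card * (1 / 2) ^ P.primeFactors.card := h3.symm
    _ ≤ 2 ^ P.primeFactors.card * phP P := mul_le_mul_of_nonneg_left h1 (by positivity)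

theorem p_size : D_size := by
  intro c₀ X y P Q R hc hX hy hp
  have hX0 : 0 < X := by linarith
  have hlX : 0 < Real.log X := Real.log_pos hX
  have hP0 : P ≠ 0 := hp.sf.ne_zero
  have hodd : Odd P := hp.odd
  have hpf : ∀ p ∈ P.primeFactors, 3 ≤ p := by
    intro p hpp
    have h20 : p ≠ 2 := by
      rintro rfl
      have h21 := Nat.dvd_of_mem_primeFactors hpp
      rw [Nat.odd_iff] at hodd
      omega
    have := (Nat.prime_of_mem_primeFactors hpp).two_le
    omega
  have hPc : (P : ℝ) ≤ X ^ c₀ := by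
    refine hp.le.trans ?_
    rw [Real.rpow_def_of_pos hX0, Real.exp_le_exp, mul_comm]
    exact hy
  have hPle : (P : ℝ) ≤ X ^ (2 * c₀) :=
    hPc.trans (Real.rpow_le_rpow_of_exponent_le hX.le (by linarith))
  have h2ω : (2 : ℝ) ^ P.primeFactors.card ≤ X ^ c₀ := by
    refine le_trans ?_ hPc
    have h2 : ∏ p ∈ P.primeFactors, p = P := Nat.prod_primeFactors_of_squarefree hp.sf
    have h3 : (2 : ℕ) ^ P.primeFactors.card ≤ P := by
      nth_rewrite 2 [← h2]
      rw [← Finset.prod_const]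
      exact Finset.prod_le_prod' fun p hpp => (Nat.prime_of_mem_primeFactors hpp).two_le
    exact_mod_cast h3
  obtain ⟨hph0, hph1⟩ := size_phP (P := P)
  refine ⟨hodd, hPle, ?_, hph1.trans h2ω, hph0, ?_⟩
  · rw [size_div hp.sf]
    push_cast
    exact h2ω
  · intro m hm
    have hm1 : (0 : ℝ) < (m : ℝ) ∧ (m : ℝ) ≤ 8 := by
      rcases hm with rfl | rfl <;> norm_num
    have hPpos : (0 : ℝ) < (P : ℝ) := by exact_mod_cast Nat.pos_of_ne_zero hP0
    -- the local factors
    have e1 : ∏ p ∈ P.primeFactors, (1 / (p : ℝ)) = 1 / (P : ℝ) := by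
      have h2 : ∏ p ∈ P.primeFactors, p = P := Nat.prod_primeFactors_of_squarefree hp.sf
      rw [Finset.prod_div_distrib, Finset.prod_const_one]
      have h3 : ∏ p ∈ P.primeFactors, (p : ℝ) = (P : ℝ) := by
        rw [← Nat.cast_prod, h2]
      rw [h3]
    have e2 : R.primeFactors = P.primeFactors.filter (fun p => p ∣ R) := by
      ext p
      rw [Finset.mem_filter, Nat.mem_primeFactors, Nat.mem_primeFactors]
      have hR0 : R ≠ 0 := fun h => hP0 (Nat.eq_zero_of_zero_dvd (h ▸ hp.hR))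
      constructor
      · rintro ⟨h1, h2, -⟩
        exact ⟨⟨h1, h2.trans hp.hR, hP0⟩, h2⟩
      · rintro ⟨⟨h1, -, -⟩, h2⟩
        exact ⟨h1, h2, hR0⟩
    have e3 : 1 / (P : ℝ) ≤ (∏ p ∈ R.primeFactors, (1 / (p : ℝ))) *
        ∏ p ∈ P.primeFactors.filter (fun p => ¬ p ∣ R), (1 / 2 : ℝ) := by
      rw [← e1, e2, ← Finset.prod_filter_mul_prod_filter_not P.primeFactors (fun p => p ∣ R)
        (fun p => (1 / (p : ℝ)))]
      refine mul_le_mul_of_nonneg_left ?_ (Finset.prod_nonneg fun p _ => by positivity)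
      refine Finset.prod_le_prod (fun p _ => by positivity) fun p hpp => ?_
      have h3 : (2 : ℝ) ≤ (p : ℝ) := by
        have := hpf p (Finset.mem_filter.1 hpp).1
        exact_mod_cast (by omega : 2 ≤ p)
      exact one_div_le_one_div_of_le (by norm_num) h3
    have e4 : 0 < (∏ p ∈ R.primeFactors, (1 / (p : ℝ))) *
        ∏ p ∈ P.primeFactors.filter (fun p => ¬ p ∣ R), (1 / 2 : ℝ) :=
      lt_of_lt_of_le (by positivity) e3
    have hD0 : 0 < DP m P R := by
      unfold DP
      exact mul_pos (one_div_pos.2 hm1.1) (mul_pos hph0 e4)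
    refine ⟨hD0, ?_⟩
    have hDlow : 1 / 8 * (phP P * (1 / (P : ℝ))) ≤ DP m P R := by
      unfold DP
      refine mul_le_mul (one_div_le_one_div_of_le hm1.1 hm1.2)
        (mul_le_mul_of_nonneg_left e3 hph0.le) (by positivity) (by
          exact (one_div_pos.2 hm1.1).le)
    have h5 : 1 / DP m P R ≤ 1 / (1 / 8 * (phP P * (1 / (P : ℝ)))) :=
      one_div_le_one_div_of_le (by positivity) hDlow
    have h6 : 1 / (1 / 8 * (phP P * (1 / (P : ℝ)))) = 8 * ((1 / phP P) * P) := by
      field_simp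
    have h7 : (1 / phP P) * P ≤ X ^ c₀ * X ^ (2 * c₀) :=
      mul_le_mul (hph1.trans h2ω) hPle hPpos.le (by positivity)
    have h8 : X ^ c₀ * X ^ (2 * c₀) ≤ X ^ (4 * c₀) := by
      rw [← Real.rpow_add hX0]
      exact Real.rpow_le_rpow_of_exponent_le hX.le (by linarith)
    calc 1 / DP m P R ≤ 8 * ((1 / phP P) * P) := by rw [← h6]; exact h5
      _ ≤ 8 * X ^ (4 * c₀) := by linarith

end Pool.Agent.MP0016c7.Rz
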