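import Mathlib
import Pool.Agent.Lib.MP_0016c7_nt.PS.Stm
import Pool.Agent.Lib.MP_0016c7_nt.Rz2.PSplit
import Pool.Agent.Lib.MP_0016c7_nt.Rz2.PRs
import Pool.Agent.Lib.MP_0016c7_nt.Rz2.SqSum
import Pool.Agent.Lib.MP_0016c7_nt.Rz2.ARlim
import Pool.Agent.Lib.MP_0016c7_nt.Rz.Poisson3
import Pool.Agent.Lib.MP_0016c7_nt.Qls.QJr

set_option autoImplicit false

/-!
Prescribed splitting, piece split: the sum over the multiples of `R f` in a residue class.
-/

open Finset MeasureTheory Filter Topology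
open scoped Real ContDiff

namespace Pool.Agent.MP0016c7.Rz

/-! ### Arithmetic of `gg` -/

private theorem split_gg_mul {N : ℕ} (hN : Odd N) (u : ℤ) (hu : IsCoprime u (N : ℤ)) (k : ℤ) :
    gg (u * k) N = jr u N * gg k N := by
  have hNAB := sq1_mul_sq2 N hN.pos.ne'
  have hA : Odd (sq1 N) := by
    rw [← hNAB] at hN
    exact (Nat.odd_mul.1 hN).1
  have hB : Odd (sq2 N) := by
    rw [← hNAB] at hN
    exact (Nat.odd_pow_iff (by norm_num)).1 (Nat.odd_mul.1 hN).2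
  have hB0 : (((sq2 N : ℕ) : ℤ)) ^ 2 ≠ 0 := pow_ne_zero _ (by exact_mod_cast hB.pos.ne')
  have hNc : (N : ℤ) = (sq1 N : ℤ) * (sq2 N : ℤ) ^ 2 := by
    have : (((sq1 N * sq2 N ^ 2 : ℕ)) : ℤ) = (N : ℤ) := by rw [hNAB]
    push_cast at this
    exact this.symm
  have huB : IsCoprime u ((sq2 N : ℤ) ^ 2) := by
    rw [hNc] at hu
    exact hu.of_mul_right_right
  have hjr : jr u N = jr u (sq1 N) := by
    have h1 : jr u N = jr u (sq1 N) * jr u (sq2 N) ^ 2 := by
      have h0 : jr u (sq1 N * sq2 N ^ 2) = jr u (sq1 N) * jr u (sq2 N) ^ 2 := by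
        rw [jr_mul, sq, jr_mul, sq]
      rwa [hNAB] at h0
    rw [h1, jr_sq_one hB (by
      rw [sq] at huB
      exact huB.of_mul_right_left), mul_one]
  rw [hjr]
  unfold gg
  rw [← mul_div_assoc, Finset.mul_sum]
  congr 1
  have hfil : (sq2 N).divisors.filter (fun e : ℕ => ((sq2 N : ℕ) : ℤ) ^ 2 ∣ (u * k) * (e : ℤ)) =
      (sq2 N).divisors.filter (fun e : ℕ => ((sq2 N : ℕ) : ℤ) ^ 2 ∣ k * (e : ℤ)) := by
    apply Finset.filter_congr
    intro e _
    rw [mul_assoc]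
    constructor
    · intro h
      exact huB.symm.dvd_of_dvd_mul_left h
    · intro h
      exact h.mul_left u
  rw [hfil]
  refine Finset.sum_congr rfl fun e he => ?_
  have hdvd := (mem_filter.1 he).2
  obtain ⟨t, ht⟩ := hdvd
  have h2 : (u * k) * (e : ℤ) ^ 2 / ((sq2 N : ℕ) : ℤ) ^ 2 = u * (t * e) := by
    apply Int.ediv_eq_of_eq_mul_right hB0
    have : (u * k) * (e : ℤ) ^ 2 = (k * e) * (u * e) := by ring
    rw [this, ht]
    ring
  have h3 : k * (e : ℤ) ^ 2 / ((sq2 N : ℕ) : ℤ) ^ 2 = t * e := by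
    apply Int.ediv_eq_of_eq_mul_right hB0
    have : k * (e : ℤ) ^ 2 = (k * e) * e := by ring
    rw [this, ht]
    ring
  rw [h2, h3, jr_mul_left]
  ring

private theorem split_gg_sq {N : ℕ} (hN : Odd N) {R : ℕ} (hR : Nat.Coprime R N) (j : ℕ) :
    gg (((R * j : ℕ) : ℤ) ^ 2) N = gg ((j : ℤ) ^ 2) N := by
  have h1 : IsCoprime ((R : ℤ) ^ 2) (N : ℤ) :=
    (Nat.isCoprime_iff_coprime.2 hR).pow_left
  have h2 : ((R * j : ℕ) : ℤ) ^ 2 = (R : ℤ) ^ 2 * (j : ℤ) ^ 2 := by
    push_cast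
    ring
  have h3 : jr ((R : ℤ) ^ 2) N = 1 := by
    rw [sq, jr_mul_left, ← sq]
    exact jr_sq_one hN (Nat.isCoprime_iff_coprime.2 hR)
  rw [h2, split_gg_mul hN _ h1, h3, one_mul]

private theorem split_four {N : ℕ} (hN : Odd N) (j : ℕ) :
    gg (((2 * j : ℕ) : ℤ) ^ 2) N = gg ((j : ℤ) ^ 2) N :=
  split_gg_sq hN ((Nat.coprime_two_left (n := N)).2 hN) j

private theorem split_dvd {R f : ℕ} (hs : Squarefree R) (hf : f ∣ R) (j : ℕ) :
    (((R * f : ℕ) : ℤ) ∣ (j : ℤ) ^ 2) ↔ R ∣ j := by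
  have h0 : (((R * f : ℕ) : ℤ) ∣ (j : ℤ) ^ 2) ↔ R * f ∣ j ^ 2 := by
    have : (j : ℤ) ^ 2 = ((j ^ 2 : ℕ) : ℤ) := by push_cast; ring
    rw [this, Int.natCast_dvd_natCast]
  rw [h0]
  constructor
  · intro h
    have h1 : R ∣ j ^ 2 := (Dvd.intro _ rfl).trans h
    exact (hs.dvd_pow_iff_dvd (by norm_num)).1 h1
  · rintro ⟨t, rfl⟩
    have h1 : R * f ∣ R * R := Nat.mul_dvd_mul_left R hf
    refine h1.trans ?_
    exact ⟨t ^ 2, by ring⟩

private theorem split_inj : Function.Injective (fun j : ℕ => (j : ℤ) ^ 2) := by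
  intro i j hij
  have h4 : ((i ^ 2 : ℕ) : ℤ) = ((j ^ 2 : ℕ) : ℤ) := by
    push_cast
    exact hij
  exact Nat.pow_left_injective (n := 2) (by norm_num) (by exact_mod_cast h4)

/-! ### Splitting of the sum over `k` -/

private theorem split_sum {F : ℝ → ℝ} {a b : ℝ} (ha : 0 < a) (hF : Bump F a b) (σ : ℤ)
    (hσ : σ = 1 ∨ σ = -1) (N : ℕ) (hN : Odd N) (Z : ℝ) (hZ : 0 < Z) (c : ℤ → ℝ) (C : ℝ)
    (hc : ∀ k, |c k| ≤ C) :
    Summable (fun k : ℤ => c k * gg k N * Ft F σ ((k : ℝ) * Z / (2 * N))) := by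
  obtain ⟨h1, _⟩ := poisson_odd ha hF σ hσ N hN Z hZ
  refine Summable.of_norm_bounded (h1.norm.mul_left C) fun k => ?_
  rw [mul_assoc, norm_mul]
  exact mul_le_mul_of_nonneg_right (hc k) (norm_nonneg _)

private theorem split_split {F : ℝ → ℝ} {a b : ℝ} (ha : 0 < a) (hF : Bump F a b) (σ : ℤ)
    (hσ : σ = 1 ∨ σ = -1) (N : ℕ) (hN : Odd N) (Z : ℝ) (hZ : 0 < Z) (c : ℤ → ℝ) (C : ℝ)
    (hc : ∀ k, |c k| ≤ C) :
    ∑' k : ℤ, c k * gg k N * Ft F σ ((k : ℝ) * Z / (2 * N)) =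
      ∑' j : ℕ, c ((j : ℤ) ^ 2) * (gg ((j : ℤ) ^ 2) N * Ft F σ ((j : ℝ) ^ 2 * Z / (2 * N))) +
        NSc F σ c Z N := by
  classical
  set u : ℤ → ℝ := fun k => c k * gg k N * Ft F σ ((k : ℝ) * Z / (2 * N))
    with hu
  have hus : Summable u := split_sum ha hF σ hσ N hN Z hZ c C hc
  have hs1 : Summable fun k : ℤ => if IsSquare k then u k else 0 := by
    refine Summable.of_norm_bounded hus.norm fun k => ?_
    split_ifs
    · exact le_rfl
    · rw [norm_zero]
      exact norm_nonneg _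
  have hs2 : Summable fun k : ℤ => if IsSquare k then 0 else u k := by
    refine Summable.of_norm_bounded hus.norm fun k => ?_
    split_ifs
    · rw [norm_zero]
      exact norm_nonneg _
    · exact le_rfl
  have h3 : ∑' k : ℤ, u k = ∑' k : ℤ, (if IsSquare k then u k else 0) +
      ∑' k : ℤ, (if IsSquare k then 0 else u k) := by
    rw [← hs1.tsum_add hs2]
    refine tsum_congr fun k => ?_
    split_ifs <;> ring
  have h4 : ∑' k : ℤ, (if IsSquare k then u k else 0) =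
      ∑' j : ℕ, c ((j : ℤ) ^ 2) * (gg ((j : ℤ) ^ 2) N *
        Ft F σ ((j : ℝ) ^ 2 * Z / (2 * N))) := by
    rw [← split_inj.tsum_eq (f := fun k : ℤ => if IsSquare k then u k else 0)]
    · refine tsum_congr fun j => ?_
      have h5 : IsSquare ((j : ℤ) ^ 2) := IsSquare.sq _
      simp only [if_pos h5, hu]
      push_cast
      ring
    · intro k hk
      rw [Function.mem_support] at hk
      by_cases h : IsSquare k
      · obtain ⟨r, rfl⟩ := h
        refine ⟨r.natAbs, ?_⟩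
        simp only
        rw [Int.natCast_natAbs, sq_abs, pow_two]
      · rw [if_neg h] at hk
        exact absurd rfl hk
  have h5 : ∑' k : ℤ, (if IsSquare k then 0 else u k) = NSc F σ c Z N := by
    unfold NSc
    refine tsum_congr fun k => ?_
    by_cases h : IsSquare k
    · simp only [if_pos h]
    · simp only [if_neg h]
      rfl
  rw [h3, h4, h5]

/-- The squares divisible by `R f`. -/
private theorem split_sq {F : ℝ → ℝ} (σ : ℤ) {R f N : ℕ} (hN : Odd N) (hR : Nat.Coprime R N)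
    (hR0 : R ≠ 0) (hs : Squarefree R) (hf : f ∣ R) (c : ℤ → ℝ)
    (hc : ∀ j : ℕ, c (((R * j : ℕ) : ℤ) ^ 2) = c ((j : ℤ) ^ 2)) (H : ℝ) :
    ∑' j : ℕ, (if ((R * f : ℕ) : ℤ) ∣ (j : ℤ) ^ 2 then c ((j : ℤ) ^ 2) else 0) *
        (gg ((j : ℤ) ^ 2) N * Ft F σ ((j : ℝ) ^ 2 * H / (2 * N))) =
      ∑' j : ℕ, c ((j : ℤ) ^ 2) *
        (gg ((j : ℤ) ^ 2) N * Ft F σ ((j : ℝ) ^ 2 * ((R : ℝ) ^ 2 * H) / (2 * N))) := by
  have hinj : Function.Injective (fun j : ℕ => R * j) := fun m n h =>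
    Nat.eq_of_mul_eq_mul_left (Nat.pos_of_ne_zero hR0) h
  rw [← hinj.tsum_eq]
  · refine tsum_congr fun j => ?_
    rw [if_pos ((split_dvd hs hf _).2 (Dvd.intro _ rfl)), hc, split_gg_sq hN hR]
    have h2 : ((R * j : ℕ) : ℝ) ^ 2 * H / (2 * N) = (j : ℝ) ^ 2 * ((R : ℝ) ^ 2 * H) / (2 * N) := by
      push_cast
      ring
    rw [h2]
  · intro j hj
    rw [Function.mem_support] at hj
    by_cases h : R ∣ j
    · obtain ⟨t, rfl⟩ := h
      exact ⟨t, rfl⟩
    · rw [if_neg (fun h' => h ((split_dvd hs hf _).1 h')), zero_mul] at hj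
      exact absurd rfl hj

private theorem split_odd {g : ℕ → ℝ} (hg : Summable g) :
    ∑' m, (if Odd m then g m else 0) = ∑' m, g m - ∑' m, g (2 * m) := by
  have h1 : ∑' m, g (2 * m) = ∑' d, (if 2 ∣ d then g d else 0) := by
    have hinj : Function.Injective (fun m : ℕ => 2 * m) := fun m n h =>
      Nat.eq_of_mul_eq_mul_left (by norm_num) h
    rw [← hinj.tsum_eq (f := fun d => if 2 ∣ d then g d else 0)]
    · refine tsum_congr fun m => ?_
      rw [if_pos (Dvd.intro m rfl)]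
    · intro d hd
      rw [Function.mem_support] at hd
      by_cases h : 2 ∣ d
      · obtain ⟨m, rfl⟩ := h
        exact ⟨m, rfl⟩
      · rw [if_neg h] at hd
        exact absurd rfl hd
  have h2 : Summable fun d : ℕ => if 2 ∣ d then g d else 0 := by
    refine Summable.of_norm_bounded hg.norm fun x => ?_
    split_ifs
    · exact le_rfl
    · rw [norm_zero]
      exact norm_nonneg _
  rw [h1, ← hg.tsum_sub h2]
  refine tsum_congr fun m => ?_
  by_cases h : Odd m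
  · rw [if_pos h, if_neg (fun h' => (Nat.not_even_iff_odd.2 h) (even_iff_two_dvd.2 h')), sub_zero]
  · rw [if_neg h, if_pos (even_iff_two_dvd.1 (Nat.not_odd_iff_even.1 h)), sub_self]

private theorem split_AR {F : ℝ → ℝ} {a b : ℝ} (ha : 0 < a) (hF : Bump F a b) (σ : ℤ)
    (hσ : σ = 1 ∨ σ = -1) (N : ℕ) (hN : Odd N) (Z : ℝ) (hZ : 0 < Z) :
    ∑' j : ℕ, (if Odd j then gg ((j : ℤ) ^ 2) N * Ft F σ ((j : ℝ) ^ 2 * Z / (2 * N)) else 0) =
      AR F σ Z N - AR F σ (4 * Z) N := by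
  have hs := split_sum ha hF σ hσ N hN Z hZ (fun _ => 1) 1 (fun _ => by simp)
  have hs2 : Summable fun j : ℕ => gg ((j : ℤ) ^ 2) N *
      Ft F σ ((j : ℝ) ^ 2 * Z / (2 * N)) := by
    refine (hs.comp_injective split_inj).congr fun j => ?_
    simp only [Function.comp]
    push_cast
    rw [one_mul]
  rw [split_odd hs2]
  unfold AR
  congr 1
  refine tsum_congr fun j => ?_
  have h2 : ((2 * j : ℕ) : ℝ) ^ 2 * Z / (2 * N) = (j : ℝ) ^ 2 * (4 * Z) / (2 * N) := by
    push_cast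
    ring
  rw [h2, split_four hN]

private theorem split_sq_odd {j : ℕ} (hj : Odd j) : ((j : ℤ) ^ 2) % 8 = 1 := by
  obtain ⟨t, rfl⟩ := hj
  have h1 : ((2 * t + 1 : ℕ) : ℤ) ^ 2 = 4 * ((t : ℤ) * (t + 1)) + 1 := by
    push_cast
    ring
  obtain ⟨s, hs⟩ : ∃ s : ℤ, (t : ℤ) * (t + 1) = 2 * s := by
    obtain ⟨s, hs⟩ := Int.even_mul_succ_self (t : ℤ)
    exact ⟨s, by rw [hs]; ring⟩
  rw [h1, hs]
  omega

private theorem split_sq_even {j : ℕ} (hj : ¬ Odd j) : ∃ t : ℤ, (j : ℤ) ^ 2 = 4 * t := by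
  rw [Nat.not_odd_iff_even] at hj
  obtain ⟨s, rfl⟩ := hj
  exact ⟨(s : ℤ) ^ 2, by push_cast; ring⟩

private theorem split_t4_le (m k : ℤ) : |t4 m k| ≤ 1 := by
  unfold t4
  split_ifs <;> norm_num

private theorem split_t8_le (m : ℤ) : |t8 m| ≤ 1 := by
  unfold t8
  split_ifs <;> norm_num

private theorem split_mod8 (k : ℤ) : (k * k) % 8 = 0 ∨ (k * k) % 8 = 1 ∨ (k * k) % 8 = 4 := by
  have h : k % 8 = 0 ∨ k % 8 = 1 ∨ k % 8 = 2 ∨ k % 8 = 3 ∨ k % 8 = 4 ∨ k % 8 = 5 ∨ k % 8 = 6 ∨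
      k % 8 = 7 := by omega
  rcases h with h | h | h | h | h | h | h | h <;> rw [Int.mul_emod, h] <;> norm_num

private theorem split_mod4 (k : ℤ) : (k * k) % 4 = 0 ∨ (k * k) % 4 = 1 := by
  have h : k % 4 = 0 ∨ k % 4 = 1 ∨ k % 4 = 2 ∨ k % 4 = 3 := by omega
  rcases h with h | h | h | h <;> rw [Int.mul_emod, h] <;> norm_num

/-- The values of the coefficients at the squares: `t8 (c j²)`, `c` odd. -/
private theorem split_t8_sq (c : ℤ) (hc : c = 1 ∨ c = 5 ∨ c = 3 ∨ c = 7) (j : ℕ) :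
    t8 (c * (j : ℤ) ^ 2) = if Odd j then t8 c else 0 := by
  by_cases hj : Odd j
  · have h6 := split_sq_odd hj
    rw [if_pos hj]
    have h7 : (c * (j : ℤ) ^ 2) % 8 = c % 8 := by
      rcases hc with h | h | h | h <;> rw [h] <;> omega
    unfold t8
    rw [h7]
  · obtain ⟨t, ht⟩ := split_sq_even hj
    rw [if_neg hj]
    unfold t8
    rw [ht]
    rcases hc with h | h | h | h <;> rw [h, if_neg (by omega), if_neg (by omega)]

private theorem split_t4_sq (c : ℤ) (hc : c = 1 ∨ c = 5 ∨ c = 3 ∨ c = 7) (j : ℕ) :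
    t4 c ((j : ℤ) ^ 2) = if Odd j then t4 c 1 else 0 := by
  by_cases hj : Odd j
  · have h6 := split_sq_odd hj
    rw [if_pos hj]
    have h7 : (c * (j : ℤ) ^ 2) % 4 = (c * 1) % 4 := by
      rcases hc with h | h | h | h <;> rw [h] <;> omega
    have h8 : ((j : ℤ) ^ 2) % 4 = 1 % 4 := by omega
    unfold t4
    rw [h7, h8]
  · obtain ⟨t, ht⟩ := split_sq_even hj
    rw [if_neg hj]
    unfold t4
    rw [ht]
    rcases hc with h | h | h | h <;>
      rw [h, if_neg (by omega), if_neg (by omega), if_neg (by omega)]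

private theorem split_oddR {R : ℕ} (hR : Odd R) (j : ℕ) : Odd (R * j) ↔ Odd j := by
  rw [Nat.odd_mul]
  exact ⟨fun h => h.2, fun h => ⟨hR, h⟩⟩

/-! ### The three sums of the class modulo `8` -/

private theorem split_eight {F : ℝ → ℝ} {a b : ℝ} (ha : 0 < a) (hF : Bump F a b) (σ : ℤ)
    (hσ : σ = 1 ∨ σ = -1) (c : ℤ) (hc : c = 1 ∨ c = 5 ∨ c = 3 ∨ c = 7) {R f N : ℕ}
    (hRo : Odd R) (hs : Squarefree R) (hf : f ∣ R) (hN : Odd N) (hR : Nat.Coprime R N)
    (Y : ℝ) (hY : 0 < Y) :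
    ∑' k : ℤ, (if ((R * f : ℕ) : ℤ) ∣ k then gg k N *
        (√2 * t8 (c * k) * Ft F σ ((k : ℝ) * (Y / ((R * f : ℕ) : ℝ) ^ 2) / (8 * N)) +
        t4 c k * Ft F σ ((k : ℝ) * (Y / ((R * f : ℕ) : ℝ) ^ 2) / (4 * N)) +
        Ft F σ ((k : ℝ) * (Y / ((R * f : ℕ) : ℝ) ^ 2) / N)) else 0) =
      (√2 * t8 c * (AR F σ (Y / (f : ℝ) ^ 2 / 4) N - AR F σ (Y / (f : ℝ) ^ 2) N) +
        t4 c 1 * (AR F σ (Y / (f : ℝ) ^ 2 / 2) N - AR F σ (2 * (Y / (f : ℝ) ^ 2)) N) +
        AR F σ (2 * (Y / (f : ℝ) ^ 2)) N) +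
      (NSc F σ (fun k => if ((R * f : ℕ) : ℤ) ∣ k then √2 * t8 (c * k) else 0)
          (Y / ((R * f : ℕ) : ℝ) ^ 2 / 4) N +
        NSc F σ (fun k => if ((R * f : ℕ) : ℤ) ∣ k then t4 c k else 0)
          (Y / ((R * f : ℕ) : ℝ) ^ 2 / 2) N +
        NSc F σ (fun k => if ((R * f : ℕ) : ℤ) ∣ k then 1 else 0)
          (2 * (Y / ((R * f : ℕ) : ℝ) ^ 2)) N) := by
  have hR0 : R ≠ 0 := hRo.pos.ne'
  have hf0 : f ≠ 0 := by
    rintro rfl
    exact hR0 (Nat.eq_zero_of_zero_dvd hf)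
  have hRr : (0 : ℝ) < R := by exact_mod_cast Nat.pos_of_ne_zero hR0
  have hfr : (0 : ℝ) < f := by exact_mod_cast Nat.pos_of_ne_zero hf0
  have hqr : (0 : ℝ) < ((R * f : ℕ) : ℝ) := by push_cast; positivity
  set Z : ℝ := Y / ((R * f : ℕ) : ℝ) ^ 2 with hZ
  have hZ0 : 0 < Z := by positivity
  have hRZ : (R : ℝ) ^ 2 * Z = Y / (f : ℝ) ^ 2 := by
    rw [hZ]
    push_cast
    field_simp
  set Y' : ℝ := Y / (f : ℝ) ^ 2 with hY'
  have hY'0 : 0 < Y' := by positivity
  have hs2 : |√2| ≤ √2 := by rw [abs_of_nonneg (Real.sqrt_nonneg 2)]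
  have b1 : ∀ k : ℤ, |if ((R * f : ℕ) : ℤ) ∣ k then √2 * t8 (c * k) else 0| ≤ √2 := by
    intro k
    split_ifs
    · rw [abs_mul, abs_of_nonneg (Real.sqrt_nonneg 2)]
      calc √2 * |t8 (c * k)| ≤ √2 * 1 :=
            mul_le_mul_of_nonneg_left (split_t8_le _) (Real.sqrt_nonneg 2)
        _ = √2 := mul_one _
    · rw [abs_zero]
      exact Real.sqrt_nonneg 2
  have b2 : ∀ k : ℤ, |if ((R * f : ℕ) : ℤ) ∣ k then t4 c k else 0| ≤ 1 := by
    intro k
    split_ifs
    · exact split_t4_le c k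
    · simp
  have b3 : ∀ k : ℤ, |if ((R * f : ℕ) : ℤ) ∣ k then (1 : ℝ) else 0| ≤ 1 := by
    intro k
    split_ifs <;> simp
  have s1 := split_sum ha hF σ hσ N hN (Z / 4) (by positivity) _ _ b1
  have s2 := split_sum ha hF σ hσ N hN (Z / 2) (by positivity) _ _ b2
  have s3 := split_sum ha hF σ hσ N hN (2 * Z) (by positivity) _ _ b3
  have e1 := split_split ha hF σ hσ N hN (Z / 4) (by positivity) _ _ b1
  have e2 := split_split ha hF σ hσ N hN (Z / 2) (by positivity) _ _ b2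
  have e3 := split_split ha hF σ hσ N hN (2 * Z) (by positivity) _ _ b3
  have h1 : ∀ k : ℤ, (if ((R * f : ℕ) : ℤ) ∣ k then gg k N *
        (√2 * t8 (c * k) * Ft F σ ((k : ℝ) * Z / (8 * N)) +
        t4 c k * Ft F σ ((k : ℝ) * Z / (4 * N)) + Ft F σ ((k : ℝ) * Z / N)) else 0) =
      (if ((R * f : ℕ) : ℤ) ∣ k then √2 * t8 (c * k) else 0) * gg k N *
          Ft F σ ((k : ℝ) * (Z / 4) / (2 * N)) +
        (if ((R * f : ℕ) : ℤ) ∣ k then t4 c k else 0) * gg k N *
          Ft F σ ((k : ℝ) * (Z / 2) / (2 * N)) +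
        (if ((R * f : ℕ) : ℤ) ∣ k then (1 : ℝ) else 0) * gg k N *
          Ft F σ ((k : ℝ) * (2 * Z) / (2 * N)) := by
    intro k
    have h2 : (k : ℝ) * Z / (8 * N) = (k : ℝ) * (Z / 4) / (2 * N) := by
      ring
    have h3 : (k : ℝ) * Z / (4 * N) = (k : ℝ) * (Z / 2) / (2 * N) := by
      ring
    have h4 : (k : ℝ) * Z / N = (k : ℝ) * (2 * Z) / (2 * N) := by
      field_simp
    rw [h2, h3, h4]
    split_ifs
    · ring
    · ring
  rw [tsum_congr h1, (s1.add s2).tsum_add s3, s1.tsum_add s2, e1, e2, e3]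
  have f1 := split_sq (F := F) σ hN hR hR0 hs hf (fun k => √2 * t8 (c * k)) (by
    intro j
    rw [split_t8_sq c hc, split_t8_sq c hc, if_congr (split_oddR hRo j) rfl rfl]) (Z / 4)
  have f2 := split_sq (F := F) σ hN hR hR0 hs hf (fun k => t4 c k) (by
    intro j
    rw [split_t4_sq c hc, split_t4_sq c hc, if_congr (split_oddR hRo j) rfl rfl]) (Z / 2)
  have f3 := split_sq (F := F) σ hN hR hR0 hs hf (fun _ => 1) (fun _ => rfl) (2 * Z)
  have g1 : (R : ℝ) ^ 2 * (Z / 4) = Y' / 4 := by rw [← hRZ]; ring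
  have g2 : (R : ℝ) ^ 2 * (Z / 2) = Y' / 2 := by rw [← hRZ]; ring
  have g3 : (R : ℝ) ^ 2 * (2 * Z) = 2 * Y' := by rw [← hRZ]; ring
  rw [g1] at f1
  rw [g2] at f2
  rw [g3] at f3
  rw [f1, f2, f3]
  have k1 : ∑' j : ℕ, √2 * t8 (c * (j : ℤ) ^ 2) * (gg ((j : ℤ) ^ 2) N *
      Ft F σ ((j : ℝ) ^ 2 * (Y' / 4) / (2 * N))) =
      √2 * t8 c * (AR F σ (Y' / 4) N - AR F σ Y' N) := by
    have h5 := split_AR ha hF σ hσ N hN (Y' / 4) (by positivity)
    rw [show 4 * (Y' / 4) = Y' by ring] at h5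
    rw [← h5, ← tsum_mul_left]
    refine tsum_congr fun j => ?_
    rw [split_t8_sq c hc]
    split_ifs
    · ring
    · ring
  have k2 : ∑' j : ℕ, t4 c ((j : ℤ) ^ 2) * (gg ((j : ℤ) ^ 2) N *
      Ft F σ ((j : ℝ) ^ 2 * (Y' / 2) / (2 * N))) =
      t4 c 1 * (AR F σ (Y' / 2) N - AR F σ (2 * Y') N) := by
    have h5 := split_AR ha hF σ hσ N hN (Y' / 2) (by positivity)
    rw [show 4 * (Y' / 2) = 2 * Y' by ring] at h5
    rw [← h5, ← tsum_mul_left]
    refine tsum_congr fun j => ?_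
    rw [split_t4_sq c hc]
    split_ifs
    · ring
    · ring
  have k3 : ∑' j : ℕ, 1 * (gg ((j : ℤ) ^ 2) N *
      Ft F σ ((j : ℝ) ^ 2 * (2 * Y') / (2 * N))) = AR F σ (2 * Y') N := by
    unfold AR
    refine tsum_congr fun j => ?_
    rw [one_mul]
  rw [k1, k2, k3]
  ring

/-! ### The residue classes -/

private theorem split_NSc_zero (F : ℝ → ℝ) (σ : ℤ) (q : ℤ) (Y : ℝ) (N : ℕ) :
    NSc F σ (fun k => if q ∣ k then 0 else 0) Y N = 0 := by
  unfold NSc
  simp

private theorem split_RU2 (σ : ℤ) (hσ : σ = 1 ∨ σ = -1) (d : ℕ) : RU 2 1 σ 1 d ↔ Odd d := by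
  unfold RU
  rw [one_mul]
  constructor
  · rintro ⟨h, _⟩
    rw [Nat.odd_iff]
    rcases hσ with rfl | rfl <;> omega
  · intro h
    have h1 : (σ * (d : ℤ)) % 2 = 1 := by
      rw [Nat.odd_iff] at h
      rcases hσ with rfl | rfl <;> omega
    refine ⟨h1, ?_⟩
    rintro ⟨k, hk⟩
    have h4 := split_mod4 k
    rw [← hk, mul_assoc] at h4
    omega

private theorem split_IsSq (x : ℤ) : IsSquare (4 * x) ↔ IsSquare x := by
  constructor
  · rintro ⟨s, hs⟩
    have h2 : (2 : ℤ) ∣ s := by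
      have h3 : (2 : ℤ) ∣ s * s := ⟨2 * x, by rw [← hs]; ring⟩
      exact (Int.prime_two.dvd_mul.1 h3).elim id id
    obtain ⟨t, rfl⟩ := h2
    refine ⟨t, ?_⟩
    have : 4 * x = 4 * (t * t) := by rw [hs]; ring
    linarith
  · rintro ⟨t, rfl⟩
    exact ⟨2 * t, by ring⟩

private theorem split_RU8 (c σ : ℤ) (d : ℕ) :
    RU 8 c σ 2 d ↔ (σ * d) % 8 = c ∧ ¬ IsSquare (σ * (d : ℤ)) := by
  unfold RU
  have h1 : 2 * σ * ((2 * d : ℕ) : ℤ) = 4 * (σ * (d : ℤ)) := by
    push_cast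
    ring
  rw [h1, split_IsSq]

private theorem split_sy2 (σ : ℤ) (d : ℕ) {N : ℕ} (hN : Odd N) : sy σ 2 d N = jr (σ * d) N := by
  unfold sy
  have h1 : 2 * σ * ((2 * d : ℕ) : ℤ) = (σ * (d : ℤ)) * ((2 : ℕ) : ℤ) ^ 2 := by
    push_cast
    ring
  rw [h1, jr_mul_sq _ _ hN, if_pos ((Nat.coprime_two_left (n := N)).2 hN)]

private theorem split_fin {F : ℝ → ℝ} {a b : ℝ} (hF : Bump F a b) {Y : ℝ} (hY : 0 < Y)
    (g : ℕ → ℝ) (P : ℕ → Prop) [DecidablePred P] :
    Summable (fun d : ℕ => if P d then F (d / Y) * g d else 0) := by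
  refine summable_of_hasFiniteSupport ?_
  refine (Set.finite_Iic ⌊b * Y⌋₊).subset ?_
  intro d hd
  rw [Function.mem_support] at hd
  have h1 : F (d / Y) ≠ 0 := by
    intro h0
    apply hd
    simp [h0]
  have h2 := (hF.supp _ h1).2
  rw [div_lt_iff₀ hY] at h2
  exact Nat.le_floor h2.le

private theorem split_pol (F : ℝ → ℝ) (σ ε : ℤ) {Y : ℝ} (hY : 0 < Y) (N : ℕ) :
    √2 * ε * (pol F σ (Y / 4) N - pol F σ Y N) + pol F σ (Y / 2) N =
      (1 + ε) * ((∏ p ∈ N.primeFactors, (1 - 1 / (p : ℝ))) *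
        ((1 + σ) / 2 * ∫ t : ℝ, F t / √t)) / √Y := by
  unfold pol
  set P := (∏ p ∈ N.primeFactors, (1 - 1 / (p : ℝ))) * ((1 + σ) / 2 * ∫ t : ℝ, F t / √t) with hP
  have h2 : 0 < √2 := by positivity
  have hs : 0 < √Y := Real.sqrt_pos.2 hY
  have hss : √2 * √2 = 2 := Real.mul_self_sqrt (by norm_num)
  have e1 : √(2 * (Y / 4)) = √Y / √2 := by
    rw [show 2 * (Y / 4) = Y / 2 by ring, Real.sqrt_div hY.le]
  have e2 : √(2 * Y) = √2 * √Y := Real.sqrt_mul (by norm_num) Y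
  have e3 : √(2 * (Y / 2)) = √Y := by
    rw [show 2 * (Y / 2) = Y by ring]
  rw [e1, e2, e3]
  field_simp
  have h3 : √2 ^ 2 = 2 := by rw [sq]; exact hss
  rw [h3]
  ring

open Classical in
/-- The perfect squares of the class. -/
private theorem split_sqs {F : ℝ → ℝ} {R f N : ℕ} (hRo : Odd R) (hs : Squarefree R) (hf : f ∣ R)
    (hN : Odd N) (hR : Nat.Coprime R N) {Y : ℝ} (hY : 0 < Y) :
    ∑' d : ℕ, (if ((1 * (d : ℤ)) % 8 = 1 ∧ IsSquare (1 * (d : ℤ))) ∧ R * f ∣ d then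
        F (d / Y) * jr (1 * d) N else 0) =
      ∑' d : ℕ, (if IsSquare (d : ℤ) ∧ Odd d then F (d / (Y / (R : ℝ) ^ 2)) * jr d N else 0) := by
  have hR0 : R ≠ 0 := hRo.pos.ne'
  have hRr : (0 : ℝ) < R := by exact_mod_cast Nat.pos_of_ne_zero hR0
  have hinj : Function.Injective (fun j : ℕ => R ^ 2 * j) := fun m n h =>
    Nat.eq_of_mul_eq_mul_left (by positivity) h
  rw [← hinj.tsum_eq]
  · refine tsum_congr fun e => ?_
    have h1 : R * f ∣ R ^ 2 * e := by
      rw [sq]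
      exact (Nat.mul_dvd_mul_left R hf).mul_right e
    have h2 : IsSquare (1 * ((R ^ 2 * e : ℕ) : ℤ)) ↔ IsSquare (e : ℤ) := by
      rw [one_mul]
      constructor
      · rintro ⟨s, hs⟩
        have h3 : (R : ℤ) ^ 2 ∣ s ^ 2 := ⟨(e : ℤ), by rw [sq s, ← hs]; push_cast; ring⟩
        have h4 : (R : ℤ) ∣ s := (Int.pow_dvd_pow_iff (by norm_num)).1 h3
        obtain ⟨t, rfl⟩ := h4
        refine ⟨t, ?_⟩
        have hRz : ((R : ℤ) ^ 2) ≠ 0 := by positivity
        apply mul_left_cancel₀ hRz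
        have : ((R ^ 2 * e : ℕ) : ℤ) = (R : ℤ) ^ 2 * e := by push_cast; ring
        rw [← this, hs]
        ring
      · rintro ⟨t, ht⟩
        refine ⟨R * t, ?_⟩
        push_cast
        rw [ht]
        ring
    have h3 : ((1 * ((R ^ 2 * e : ℕ) : ℤ)) % 8 = 1 ∧ IsSquare (1 * ((R ^ 2 * e : ℕ) : ℤ))) ∧
        R * f ∣ R ^ 2 * e ↔ IsSquare (e : ℤ) ∧ Odd e := by
      rw [h2]
      constructor
      · rintro ⟨⟨p1, p2⟩, _⟩
        refine ⟨p2, ?_⟩
        have h4 : Odd (R ^ 2 * e) := by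
          rw [Nat.odd_iff]
          omega
        exact (Nat.odd_mul.1 h4).2
      · rintro ⟨p2, p3⟩
        refine ⟨⟨?_, p2⟩, h1⟩
        obtain ⟨k, hk⟩ := h2.2 p2
        have h8 := split_mod8 k
        rw [← hk] at h8
        have h4 : Odd (R ^ 2 * e) := hRo.pow.mul p3
        obtain ⟨j, hj⟩ := h4
        omega
    rw [if_congr h3 rfl rfl]
    have h5 : ((R ^ 2 * e : ℕ) : ℝ) / Y = (e : ℝ) / (Y / (R : ℝ) ^ 2) := by
      push_cast
      field_simp
    have h6 : jr (1 * ((R ^ 2 * e : ℕ) : ℤ)) N = jr e N := by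
      have h7 : (1 * ((R ^ 2 * e : ℕ) : ℤ)) = (e : ℤ) * (R : ℤ) ^ 2 := by
        push_cast
        ring
      rw [h7, jr_mul_sq _ _ hN, if_pos hR]
    rw [h5, h6]
  · intro d hd
    rw [Function.mem_support] at hd
    by_cases h : ((1 * (d : ℤ)) % 8 = 1 ∧ IsSquare (1 * (d : ℤ))) ∧ R * f ∣ d
    · obtain ⟨⟨_, k, hk⟩, h2⟩ := h
      rw [one_mul] at hk
      have h3 : ((R * f : ℕ) : ℤ) ∣ ((k.natAbs : ℕ) : ℤ) ^ 2 := by
        rw [Int.natCast_natAbs, sq_abs, sq, ← hk]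
        exact Int.natCast_dvd_natCast.2 h2
      obtain ⟨t, ht⟩ := (split_dvd hs hf _).1 h3
      refine ⟨t ^ 2, ?_⟩
      have h4 : (d : ℤ) = ((k.natAbs ^ 2 : ℕ) : ℤ) := by
        push_cast
        rw [sq_abs, sq, ← hk]
      have h5 : d = k.natAbs ^ 2 := by exact_mod_cast h4
      rw [h5, ht]
      ring
    · rw [if_neg h] at hd
      exact absurd rfl hd

private theorem split_m2 (h2 : D_poi2) {F : ℝ → ℝ} {a b : ℝ} (ha : 0 < a) (hF : Bump F a b)
    (σ : ℤ) (hσ : σ = 1 ∨ σ = -1) {R f N : ℕ}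
    (hRo : Odd R) (hs : Squarefree R) (hf : f ∣ R) (hN : Odd N) (hR : Nat.Coprime R N)
    (Y : ℝ) (hY : 0 < Y) :
    PRq F 2 1 σ 1 (R * f) Y N = MM F σ (Y / (f : ℝ) ^ 2) N +
      NSc F σ (fun k => if ((R * f : ℕ) : ℤ) ∣ k then (-1 : ℝ) ^ k.natAbs else 0)
        (Y / ((R * f : ℕ) : ℝ) ^ 2) N := by
  classical
  have hR0 : R ≠ 0 := hRo.pos.ne'
  have hf0 : f ≠ 0 := by
    rintro rfl
    exact hR0 (Nat.eq_zero_of_zero_dvd hf)
  have hfo : Odd f := hRo.of_dvd_nat hf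
  have hRr : (0 : ℝ) < R := by exact_mod_cast Nat.pos_of_ne_zero hR0
  have hfr : (0 : ℝ) < f := by exact_mod_cast Nat.pos_of_ne_zero hf0
  have hqN : Nat.Coprime (R * f) N := hR.mul_left (hR.coprime_dvd_left hf)
  have h3 := h2 F a b ha hF σ hσ (R * f) N (hRo.mul hfo) hN hqN Y hY
  have h4 : PRq F 2 1 σ 1 (R * f) Y N = 2 * ((R * f : ℕ) : ℝ) / Y *
      ∑' d : ℕ, (if Odd d ∧ R * f ∣ d then F (d / Y) * jr (2 * σ * d) N else 0) := by
    unfold PRq
    push_cast
    congr 1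
    refine tsum_congr fun d => ?_
    rw [if_congr (and_congr (split_RU2 σ hσ d) Iff.rfl) rfl rfl]
    unfold sy
    rw [one_mul]
  have hqr : (0 : ℝ) < ((R * f : ℕ) : ℝ) := by push_cast; positivity
  have h0 : 2 * ((R * f : ℕ) : ℝ) / Y * (Y / (2 * ((R * f : ℕ) : ℝ))) = 1 := by
    field_simp
  rw [h4, h3, ← mul_assoc, h0, one_mul]
  set Z : ℝ := Y / ((R * f : ℕ) : ℝ) ^ 2 with hZ
  have hZ0 : 0 < Z := by positivity
  have hRZ : (R : ℝ) ^ 2 * Z = Y / (f : ℝ) ^ 2 := by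
    rw [hZ]
    push_cast
    field_simp
  have b1 : ∀ k : ℤ, |if ((R * f : ℕ) : ℤ) ∣ k then (-1 : ℝ) ^ k.natAbs else 0| ≤ 1 := by
    intro k
    split_ifs
    · rw [abs_pow, abs_neg, abs_one, one_pow]
    · simp
  have e1 := split_split ha hF σ hσ N hN Z hZ0 _ _ b1
  have f1 := split_sq (F := F) σ hN hR hR0 hs hf (fun k => (-1 : ℝ) ^ k.natAbs) (by
    intro j
    rw [Int.natAbs_pow, Int.natAbs_natCast, Int.natAbs_pow, Int.natAbs_natCast]
    rcases Nat.even_or_odd j with h | h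
    · rw [((h.mul_left R).pow_of_ne_zero two_ne_zero).neg_one_pow,
        (h.pow_of_ne_zero two_ne_zero).neg_one_pow]
    · rw [(hRo.mul h).pow.neg_one_pow, h.pow.neg_one_pow]) Z
  rw [hRZ] at f1
  have h1 : ∀ k : ℤ, (if ((R * f : ℕ) : ℤ) ∣ k then
        (-1 : ℝ) ^ k.natAbs * gg k N * Ft F σ ((k : ℝ) * Z / (2 * N)) else 0) =
      (if ((R * f : ℕ) : ℤ) ∣ k then (-1 : ℝ) ^ k.natAbs else 0) * gg k N *
          Ft F σ ((k : ℝ) * Z / (2 * N)) := by
    intro k
    split_ifs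
    · ring
    · ring
  rw [tsum_congr h1, e1, f1]
  congr 1
  unfold MM
  refine tsum_congr fun j => ?_
  rw [Int.natAbs_pow, Int.natAbs_natCast, ← mul_assoc]
  rcases Nat.even_or_odd j with h | h
  · rw [h.neg_one_pow, (h.pow_of_ne_zero two_ne_zero).neg_one_pow]
  · rw [h.neg_one_pow, h.pow.neg_one_pow]

open Classical in
/-- The class modulo `8` with the perfect squares. -/
private theorem split_m8 (h8 : D_poi8) {F : ℝ → ℝ} {a b : ℝ} (ha : 0 < a) (hF : Bump F a b)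
    (σ : ℤ) (hσ : σ = 1 ∨ σ = -1) (c : ℤ) (hc : c = 1 ∨ c = 5 ∨ c = 3 ∨ c = 7) {R f N : ℕ}
    (hRo : Odd R) (hs : Squarefree R) (hf : f ∣ R) (hN : Odd N) (hR : Nat.Coprime R N)
    (Y : ℝ) (hY : 0 < Y) :
    PRq F 8 c σ 2 (R * f) Y N =
      (√2 * t8 c * (AR F σ (Y / (f : ℝ) ^ 2 / 4) N - AR F σ (Y / (f : ℝ) ^ 2) N) +
        t4 c 1 * (AR F σ (Y / (f : ℝ) ^ 2 / 2) N - AR F σ (2 * (Y / (f : ℝ) ^ 2)) N) +
        AR F σ (2 * (Y / (f : ℝ) ^ 2)) N) +
      (NSc F σ (fun k => if ((R * f : ℕ) : ℤ) ∣ k then √2 * t8 (c * k) else 0)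
          (Y / ((R * f : ℕ) : ℝ) ^ 2 / 4) N +
        NSc F σ (fun k => if ((R * f : ℕ) : ℤ) ∣ k then t4 c k else 0)
          (Y / ((R * f : ℕ) : ℝ) ^ 2 / 2) N +
        NSc F σ (fun k => if ((R * f : ℕ) : ℤ) ∣ k then 1 else 0)
          (2 * (Y / ((R * f : ℕ) : ℝ) ^ 2)) N) -
      8 * ((R * f : ℕ) : ℝ) / Y * ∑' d : ℕ,
        (if ((σ * (d : ℤ)) % 8 = c ∧ IsSquare (σ * (d : ℤ))) ∧ R * f ∣ d then
          F (d / Y) * jr (σ * d) N else 0) := by
  have hR0 : R ≠ 0 := hRo.pos.ne'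
  have hf0 : f ≠ 0 := by
    rintro rfl
    exact hR0 (Nat.eq_zero_of_zero_dvd hf)
  have hfo : Odd f := hRo.of_dvd_nat hf
  have hRr : (0 : ℝ) < R := by exact_mod_cast Nat.pos_of_ne_zero hR0
  have hfr : (0 : ℝ) < f := by exact_mod_cast Nat.pos_of_ne_zero hf0
  have hqN : Nat.Coprime (R * f) N := hR.mul_left (hR.coprime_dvd_left hf)
  have hc8 : c % 8 = c := by
    rcases hc with h | h | h | h <;> rw [h] <;> rfl
  have hc2 : c % 2 = 1 := by
    rcases hc with h | h | h | h <;> rw [h] <;> rfl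
  have h3 := h8 F a b ha hF σ hσ (R * f) N (hRo.mul hfo) hN hqN c hc8 hc2 Y hY
  rw [split_eight ha hF σ hσ c hc hRo hs hf hN hR Y hY] at h3
  have hqr : (0 : ℝ) < ((R * f : ℕ) : ℝ) := by push_cast; positivity
  have h4 : PRq F 8 c σ 2 (R * f) Y N = 8 * ((R * f : ℕ) : ℝ) / Y *
      ∑' d : ℕ, (if ((σ * d) % 8 = c ∧ ¬ IsSquare (σ * (d : ℤ))) ∧ R * f ∣ d then
        F (d / Y) * jr (σ * d) N else 0) := by
    unfold PRq
    push_cast
    congr 1
    refine tsum_congr fun d => ?_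
    rw [if_congr (and_congr (split_RU8 c σ d) Iff.rfl) rfl rfl, split_sy2 σ d hN]
  have h5 : ∑' d : ℕ, (if (σ * d) % 8 = c ∧ R * f ∣ d then F (d / Y) * jr (σ * d) N else 0) =
      (∑' d : ℕ, (if ((σ * d) % 8 = c ∧ ¬ IsSquare (σ * (d : ℤ))) ∧ R * f ∣ d then
        F (d / Y) * jr (σ * d) N else 0)) +
      ∑' d : ℕ, (if ((σ * (d : ℤ)) % 8 = c ∧ IsSquare (σ * (d : ℤ))) ∧ R * f ∣ d then
        F (d / Y) * jr (σ * d) N else 0) := by
    rw [← (split_fin hF hY _ _).tsum_add (split_fin hF hY _ _)]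
    refine tsum_congr fun d => ?_
    by_cases p1 : (σ * (d : ℤ)) % 8 = c
    · by_cases p2 : IsSquare (σ * (d : ℤ))
      · by_cases p3 : R * f ∣ d
        · simp [p1, p2, p3]
        · simp [p3]
      · by_cases p3 : R * f ∣ d
        · simp [p1, p2, p3]
        · simp [p3]
    · simp [p1]
  rw [h3] at h5
  rw [h4]
  have h0 : 8 * ((R * f : ℕ) : ℝ) / Y * (Y / (8 * ((R * f : ℕ) : ℝ))) = 1 := by
    field_simp
  have h6 := congrArg (fun x => 8 * ((R * f : ℕ) : ℝ) / Y * x) h5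
  rw [← mul_assoc, h0, one_mul, mul_add] at h6
  rw [h6]
  ring

theorem p_split (h2 : D_poi2) (h8 : D_poi8) : D_split := by
  classical
  intro F a b ha hF hF0 σ hσ m c ε κ u hf
  have hs2 : √2 ≤ 2 := by
    have : √2 ≤ √4 := Real.sqrt_le_sqrt (by norm_num)
    rw [show (4 : ℝ) = 2 ^ 2 by norm_num, Real.sqrt_sq (by norm_num)] at this
    exact this
  by_cases hm : m = 2
  · -- the class of the odd numbers
    subst hm
    obtain ⟨rfl, rfl, rfl, rfl⟩ : c = 1 ∧ ε = 0 ∧ κ = 8 ∧ u = 1 := by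
      rcases hf with h | h | h | h | h
      · exact h.2
      · exact absurd h.1 (by norm_num)
      · exact absurd h.1 (by norm_num)
      · exact absurd h.1 (by norm_num)
      · exact absurd h.1 (by norm_num)
    refine ⟨fun _ => 0, fun _ => 0, fun _ => 0, fun k => (-1 : ℝ) ^ k.natAbs, 0, le_rfl,
      fun k => by simp, fun k => by simp, fun k => by simp, fun k => ?_, ?_⟩
    · rw [abs_pow, abs_neg, abs_one, one_pow]
      norm_num
    · intro R f N hRo hs hfR hN hR Y hY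
      have hR1 : (1 : ℝ) ≤ R := by exact_mod_cast hRo.pos
      have hY0 : 0 < Y := lt_of_lt_of_le (by positivity) hY
      rw [split_m2 h2 ha hF σ hσ hRo hs hfR hN hR Y hY0]
      simp only
      rw [split_NSc_zero, split_NSc_zero, split_NSc_zero]
      unfold MU
      rw [if_pos rfl]
      simp
  · obtain ⟨rfl, rfl, hκ, hcε⟩ : m = 8 ∧ u = 2 ∧ κ ≠ 8 ∧ ((c = 1 ∧ ε = 1) ∨ (c = 5 ∧ ε = -1) ∨
        (c = 3 ∧ ε = 0) ∨ (c = 7 ∧ ε = 0)) := by
      rcases hf with h | h | h | h | h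
      · exact absurd h.1 hm
      all_goals
        obtain ⟨h1, h2, h3, h4, h5⟩ := h
        refine ⟨h1, h5, ?_, ?_⟩
        · rw [h4]; norm_num
        · tauto
    have hc : c = 1 ∨ c = 5 ∨ c = 3 ∨ c = 7 := by tauto
    obtain ⟨C, hC⟩ := sq_sum ha hF
    refine ⟨fun k => √2 * t8 (c * k), fun k => t4 c k, fun _ => 1, fun _ => 0, 8 * |C|,
      by positivity, fun k => ?_, fun k => (split_t4_le c k).trans (by norm_num),
      fun k => by norm_num, fun k => by simp, ?_⟩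
    · simp only
      rw [abs_mul, abs_of_nonneg (Real.sqrt_nonneg 2)]
      calc √2 * |t8 (c * k)| ≤ 2 * 1 :=
            mul_le_mul hs2 (split_t8_le _) (abs_nonneg _) (by norm_num)
        _ = 2 := by norm_num
    · intro R f N hRo hs hfR hN hR Y hY
      have hR1 : (1 : ℝ) ≤ R := by exact_mod_cast hRo.pos
      have hY0 : 0 < Y := lt_of_lt_of_le (by positivity) hY
      have hf0 : f ≠ 0 := by
        rintro rfl
        exact hRo.pos.ne' (Nat.eq_zero_of_zero_dvd hfR)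
      have hfr : (0 : ℝ) < f := by exact_mod_cast Nat.pos_of_ne_zero hf0
      have hRr : (0 : ℝ) < R := by linarith
      have hqr : (0 : ℝ) < ((R * f : ℕ) : ℝ) := by push_cast; positivity
      rw [split_m8 h8 ha hF σ hσ c hc hRo hs hfR hN hR Y hY0]
      simp only
      rw [split_NSc_zero]
      set Y' : ℝ := Y / (f : ℝ) ^ 2 with hY'
      have hY'0 : 0 < Y' := by positivity
      set T := ∑' d : ℕ, (if ((σ * (d : ℤ)) % 8 = c ∧ IsSquare (σ * (d : ℤ))) ∧ R * f ∣ d then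
        F (d / Y) * jr (σ * d) N else 0) with hT
      set n1 := NSc F σ (fun k => if ((R * f : ℕ) : ℤ) ∣ k then √2 * t8 (c * k) else 0)
          (Y / ((R * f : ℕ) : ℝ) ^ 2 / 4) N with hn1
      set n2 := NSc F σ (fun k => if ((R * f : ℕ) : ℤ) ∣ k then t4 c k else 0)
          (Y / ((R * f : ℕ) : ℝ) ^ 2 / 2) N with hn2
      set n3 := NSc F σ (fun k => if ((R * f : ℕ) : ℤ) ∣ k then 1 else 0)
          (2 * (Y / ((R * f : ℕ) : ℝ) ^ 2)) N with hn3
      -- the main term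
      have hmain : (√2 * t8 c * (AR F σ (Y' / 4) N - AR F σ Y' N) +
          t4 c 1 * (AR F σ (Y' / 2) N - AR F σ (2 * Y') N) + AR F σ (2 * Y') N) =
          MU F σ ε κ Y' N + (if ε = 0 then 0 else
            (1 + ε) * ((∏ p ∈ N.primeFactors, (1 - 1 / (p : ℝ))) *
            ((1 + σ) / 2 * ∫ t : ℝ, F t / √t)) / √Y') := by
        have hMU : MU F σ ε κ Y' N = MG F σ ε Y' N := by
          unfold MU
          rw [if_neg hκ]
        rw [hMU]
        by_cases hε : ε = 0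
        · have hc' : c = 3 ∨ c = 7 := by
            rcases hcε with h | h | h | h
            · exact absurd (h.2.symm.trans hε) (by norm_num)
            · exact absurd (h.2.symm.trans hε) (by norm_num)
            · exact Or.inl h.1
            · exact Or.inr h.1
          have ht8 : t8 c = 0 := by
            unfold t8
            rcases hc' with h | h <;> rw [h, if_neg (by norm_num), if_neg (by norm_num)]
          have ht4 : t4 c 1 = -1 := by
            unfold t4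
            rcases hc' with h | h <;> rw [h, if_neg (by norm_num), if_pos (by norm_num)]
          have h1 := AR_step ha hF σ N hN (2 * Y') (by positivity)
          rw [show 2 * Y' / 4 = Y' / 2 by ring] at h1
          have h3 : MG F σ ε Y' N = MM F σ (Y' / 2) N := by
            unfold MG
            rw [if_pos hε]
          rw [if_pos hε, ht8, ht4, h3]
          linarith
        · have hc' : (c = 1 ∧ ε = 1) ∨ (c = 5 ∧ ε = -1) := by
            rcases hcε with h | h | h | h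
            · exact Or.inl h
            · exact Or.inr h
            · exact absurd h.2 hε
            · exact absurd h.2 hε
          have ht8 : t8 c = ε := by
            unfold t8
            rcases hc' with ⟨h, h'⟩ | ⟨h, h'⟩
            · rw [h, h', if_pos (by norm_num)]
              norm_num
            · rw [h, h', if_neg (by norm_num), if_pos (by norm_num)]
              norm_num
          have ht4 : t4 c 1 = 1 := by
            unfold t4
            rcases hc' with ⟨h, h'⟩ | ⟨h, h'⟩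
            · rw [h, if_pos (by norm_num)]
            · rw [h, if_pos (by norm_num)]
          have h3 : MG F σ ε Y' N = √2 * ε * (AA F σ (Y' / 4) N - AA F σ Y' N) +
              AA F σ (Y' / 2) N := by
            unfold MG
            rw [if_neg hε]
          rw [if_neg hε, ht8, ht4, h3, ← split_pol F σ ε hY'0 N,
            AR_eq ha hF hF0 σ N hN (Y' / 4) (by positivity), AR_eq ha hF hF0 σ N hN Y' hY'0,
            AR_eq ha hF hF0 σ N hN (Y' / 2) (by positivity)]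
          ring
      rw [hmain]
      set pl : ℝ := (if ε = 0 then 0 else
            (1 + ε) * ((∏ p ∈ N.primeFactors, (1 - 1 / (p : ℝ))) *
            ((1 + σ) / 2 * ∫ t : ℝ, F t / √t)) / √Y') with hpl
      have e0 : MU F σ ε κ Y' N + pl + (n1 + n2 + n3) - 8 * ((R * f : ℕ) : ℝ) / Y * T -
          (MU F σ ε κ Y' N + n1 + n2 + n3 + 0) = pl - 8 * ((R * f : ℕ) : ℝ) / Y * T := by ring
      rw [e0]
      by_cases hcase : σ = 1 ∧ c = 1
      · obtain ⟨rfl, rfl⟩ := hcase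
        have hε : ε = 1 := by
          rcases hcε with ⟨_, h⟩ | ⟨h, _⟩ | ⟨h, _⟩ | ⟨h, _⟩
          · exact h
          · norm_num at h
          · norm_num at h
          · norm_num at h
        subst hε
        have hYR : 1 ≤ Y / (R : ℝ) ^ 2 := by
          rw [le_div_iff₀ (by positivity), one_mul]
          exact hY
        have h1 := hC N hN (Y / (R : ℝ) ^ 2) hYR
        have hT' : T = ∑' d : ℕ, (if IsSquare (d : ℤ) ∧ Odd d then
            F (d / (Y / (R : ℝ) ^ 2)) * jr d N else 0) := by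
          rw [hT]
          exact split_sqs hRo hs hfR hN hR hY0
        rw [← hT'] at h1
        rw [hpl, if_neg (by norm_num)]
        set P := ∏ p ∈ N.primeFactors, (1 - 1 / (p : ℝ)) with hP
        set I := ∫ t : ℝ, F t / √t with hI
        have hsY : 0 < √Y := Real.sqrt_pos.2 hY0
        have hYY : √Y * √Y = Y := Real.mul_self_sqrt hY0.le
        have hs1 : √Y' = √Y / f := by
          rw [hY', Real.sqrt_div hY0.le, Real.sqrt_sq hfr.le]
        have hs3 : √(Y / (R : ℝ) ^ 2) = √Y / R := by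
          rw [Real.sqrt_div hY0.le, Real.sqrt_sq hRr.le]
        rw [hs3] at h1
        rw [hs1]
        have e1 : (1 + ((1 : ℤ) : ℝ)) * (P * ((1 + ((1 : ℤ) : ℝ)) / 2 * I)) / (√Y / f) -
            8 * ((R * f : ℕ) : ℝ) / Y * T =
            -(8 * (R * f) / Y) * (T - √Y / R / 4 * P * I) := by
          have e2 : 1 / √Y = √Y / Y := by
            rw [div_eq_div_iff hsY.ne' hY0.ne', one_mul, hYY]
          push_cast
          have e3 : (1 + 1) * (P * ((1 + 1) / 2 * I)) / (√Y / f) = 2 * P * I * f * (1 / √Y) := by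
            field_simp
            ring
          rw [e3, e2]
          field_simp
          ring
        rw [e1, abs_mul, abs_neg, abs_of_pos (by positivity : 0 < 8 * ((R : ℝ) * f) / Y)]
        calc 8 * ((R : ℝ) * f) / Y * |T - √Y / R / 4 * P * I| ≤
              8 * ((R : ℝ) * f) / Y * (C * N.divisors.card) :=
              mul_le_mul_of_nonneg_left h1 (by positivity)
          _ ≤ 8 * ((R : ℝ) * f) / Y * (|C| * N.divisors.card) := by
              refine mul_le_mul_of_nonneg_left (mul_le_mul_of_nonneg_right (le_abs_self C) ?_) ?_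
              · exact Nat.cast_nonneg _
              · positivity
          _ = 8 * |C| * (R * f) * N.divisors.card / Y := by ring
      · have hT0 : T = 0 := by
          rw [hT]
          have : ∀ d : ℕ, (if ((σ * (d : ℤ)) % 8 = c ∧ IsSquare (σ * (d : ℤ))) ∧ R * f ∣ d then
              F (d / Y) * jr (σ * d) N else 0) = 0 := by
            intro d
            rw [if_neg]
            rintro ⟨⟨p1, k, hk⟩, _⟩
            have h8 := split_mod8 k
            rw [← hk] at h8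
            rcases hσ with rfl | rfl
            · apply hcase
              refine ⟨rfl, ?_⟩
              rcases hc with h | h | h | h
              · exact h
              · omega
              · omega
              · omega
            · have h0 := mul_self_nonneg k
              rw [← hk] at h0
              have hd0 : (0 : ℤ) ≤ d := Int.natCast_nonneg d
              have hd : (d : ℤ) = 0 := by linarith
              rw [hd] at p1
              rcases hc with h | h | h | h <;> omega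
          rw [tsum_congr this, tsum_zero]
        have hz : pl = 0 := by
          rw [hpl]
          split_ifs with hε
          · rfl
          · rcases hcε with ⟨h, h'⟩ | ⟨h, h'⟩ | ⟨h, h'⟩ | ⟨h, h'⟩
            · have : σ = -1 := by
                rcases hσ with h0 | h0
                · exact absurd ⟨h0, h⟩ hcase
                · exact h0
              rw [this]
              push_cast
              norm_num
            · rw [h']
              push_cast
              norm_num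
            · exact absurd h' hε
            · exact absurd h' hε
        rw [hT0, hz]
        simp only [mul_zero, sub_self, abs_zero]
        positivity

end Pool.Agent.MP0016c7.Rz
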