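import Mathlib
import Pool.Agent.Lib.MP_0016c7_nt.PS.Stm
import Pool.Agent.Lib.MP_0016c7_nt.Rz.TestR

set_option autoImplicit false

/-!
[PS sqf] Almost all members of the pattern families are squarefree.
-/

open Finset MeasureTheory Filter Topology
open scoped Real ContDiff

namespace Pool.Agent.MP0016c7.Rz

private lemma sqf_summable {F : ℝ → ℝ} {a b : ℝ} (hF : Bump F a b) {X : ℝ} (hX : 0 < X)
    (G : ℕ → ℝ) (Q : ℕ → Prop) :
    Summable (fun d : ℕ => @ite ℝ (Q d) (Classical.dec _) (F (d / X) * G d) 0) := by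
  refine summable_of_hasFiniteSupport ?_
  refine (Set.finite_Iic ⌊b * X⌋₊).subset ?_
  intro d hd
  rw [Function.mem_support] at hd
  have h1 : F (d / X) ≠ 0 := by
    intro h0
    apply hd
    simp [h0]
  have h2 := (hF.supp _ h1).2
  rw [div_lt_iff₀ hX] at h2
  exact Nat.le_floor h2.le

private lemma sqf_sum_up {F : ℝ → ℝ} (hF : Bump F (1 / 2) 4) (hFn : ∀ t, 0 ≤ F t)
    (hF1 : ∀ t ∈ Set.Icc (1 : ℝ) 2, 1 ≤ F t) {X : ℝ} (hX : 0 < X) (R : ℕ → Prop)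
    (B : Finset ℕ) (hB : ∀ d ∈ B, X < d ∧ (d : ℝ) ≤ 2 * X ∧ R d) :
    (B.card : ℝ) ≤ ∑' d : ℕ, (@ite ℝ (R d) (Classical.dec _) (F (d / X) * 1) 0) := by
  have hs := sqf_summable hF hX (fun _ => 1) R
  have h0 : (B.card : ℝ) = ∑ d ∈ B, (1 : ℝ) := by simp
  rw [h0]
  refine le_trans ?_ (hs.sum_le_tsum B ?_)
  · refine Finset.sum_le_sum fun d hd => ?_
    obtain ⟨h1, h2, h3⟩ := hB d hd
    rw [if_pos h3]
    have h5 : 1 ≤ F (d / X) := hF1 _ ⟨by rw [le_div_iff₀ hX]; linarith, by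
      rw [div_le_iff₀ hX]; exact h2⟩
    linarith
  · intro d _
    split_ifs
    · exact mul_nonneg (hFn _) zero_le_one
    · exact le_rfl

private lemma sqf_int_pos {F : ℝ → ℝ} {a b : ℝ} (hF : Bump F a b) (hFn : ∀ t, 0 ≤ F t)
    (hF1 : ∀ t ∈ Set.Icc (1 : ℝ) 2, 1 ≤ F t) : 0 < ∫ t, F t := by
  have hi : Integrable F := by
    refine hF.smooth.continuous.integrable_of_hasCompactSupport ?_
    refine HasCompactSupport.of_support_subset_isCompact (isCompact_Icc (a := a) (b := b)) ?_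
    intro t ht
    have := hF.supp t ht
    exact ⟨this.1.le, this.2.le⟩
  have h1 : ∫ t in Set.Icc (1 : ℝ) 2, (1 : ℝ) ≤ ∫ t in Set.Icc (1 : ℝ) 2, F t :=
    setIntegral_mono_on (by simp) hi.integrableOn measurableSet_Icc hF1
  have h2 : ∫ t in Set.Icc (1 : ℝ) 2, F t ≤ ∫ t, F t :=
    setIntegral_le_integral hi (Eventually.of_forall hFn)
  have h3 : ∫ t in Set.Icc (1 : ℝ) 2, (1 : ℝ) = 1 := by
    simp
    norm_num
  linarith

/-- number of members of the class at the height `Y` -/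
private lemma sqf_count {F : ℝ → ℝ} (hF : Bump F (1 / 2) 4) (hFn : ∀ t, 0 ≤ F t)
    (hF1 : ∀ t ∈ Set.Icc (1 : ℝ) 2, 1 ≤ F t) {Y D C1 : ℝ} (hY : 0 < Y) (hD : 0 < D)
    (Rc : ℕ → Prop) (hav : avS Rc D F Y (fun _ => 1) ≤ C1)
    (B : Finset ℕ) (hB : ∀ d ∈ B, Y < d ∧ (d : ℝ) ≤ 2 * Y ∧ Rc d) :
    (B.card : ℝ) ≤ C1 * (D * Y) := by
  have h := sqf_sum_up hF hFn hF1 hY Rc B hB
  unfold avS at hav
  have hDY : 0 < D * Y := mul_pos hD hY
  rw [one_div, inv_mul_le_iff₀ hDY] at hav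
  linarith

private lemma sqf_m {m c ε : ℤ} {κ u : ℕ} (hf : FamP m c ε κ u) : m = 2 ∨ m = 8 := by
  rcases hf with h | h | h | h | h
  · exact Or.inl h.1
  all_goals exact Or.inr h.1

private lemma sqf_odd {m c ε σ : ℤ} {κ u d : ℕ} (hf : FamP m c ε κ u)
    (h : (σ * d) % m = c) : Odd d := by
  by_contra hd
  rw [Nat.not_odd_iff_even] at hd
  obtain ⟨k, rfl⟩ := hd
  have e : σ * ((k + k : ℕ) : ℤ) = 2 * (σ * k) := by push_cast; ring
  rw [e] at h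
  generalize σ * (k : ℤ) = t at h
  rcases hf with ⟨h1, h2, -⟩ | ⟨h1, h2, -⟩ | ⟨h1, h2, -⟩ | ⟨h1, h2, -⟩ | ⟨h1, h2, -⟩ <;>
    · rw [h1, h2] at h
      omega

private lemma sqf_sq8 {p : ℕ} (hp : Odd p) : ((p : ℤ) ^ 2) % 8 = 1 := by
  obtain ⟨k, hk⟩ := hp
  have h1 : (p : ℤ) ^ 2 = 4 * ((k : ℤ) * (k + 1)) + 1 := by rw [hk]; push_cast; ring
  have h2 : ((k : ℤ) * (k + 1)) % 2 = 0 := by
    have := Int.even_mul_succ_self (k : ℤ)
    exact Int.even_iff.mp this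
  omega

private lemma sqf_mod {m σ : ℤ} (hm : m = 2 ∨ m = 8) {p d : ℕ} (hp : Odd p) :
    (σ * ((p ^ 2 * d : ℕ) : ℤ)) % m = (σ * d) % m := by
  have h8 : (σ * ((p ^ 2 * d : ℕ) : ℤ)) ≡ (σ * d) [ZMOD 8] := by
    have h1 : ((p : ℤ) ^ 2) ≡ 1 [ZMOD 8] := by
      unfold Int.ModEq
      rw [sqf_sq8 hp]
      rfl
    have h2 := h1.mul_right (σ * d)
    have e : σ * ((p ^ 2 * d : ℕ) : ℤ) = (p : ℤ) ^ 2 * (σ * d) := by push_cast; ring
    rw [e]
    simpa using h2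
  rcases hm with h | h
  · rw [h]
    exact h8.of_dvd (by norm_num)
  · rw [h]
    exact h8

private lemma sqf_sy {σ : ℤ} {u p q d : ℕ} (hp : p.Prime) (hq : q.Prime) (hpq : q ≠ p) :
    sy σ u (p ^ 2 * d) q = sy σ u d q := by
  unfold sy jr
  by_cases ho : Odd q
  · rw [if_pos ho, if_pos ho]
    have e : 2 * σ * ((u * (p ^ 2 * d) : ℕ) : ℤ) = (p : ℤ) ^ 2 * (2 * σ * ((u * d : ℕ) : ℤ)) := by
      push_cast; ring
    rw [e, jacobiSym.mul_left]
    have hg : ((p : ℤ)).gcd (q : ℤ) = 1 := by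
      rw [Int.gcd_natCast_natCast]
      exact (Nat.coprime_primes hp hq).mpr (Ne.symm hpq)
    rw [jacobiSym.sq_one' hg, one_mul]
  · rw [if_neg ho, if_neg ho]

private lemma sqf_sy_zero {σ : ℤ} {u q d : ℕ} (hq : q.Prime) (hd : q ∣ d) : sy σ u d q = 0 := by
  unfold sy jr
  split_ifs with ho
  · have : NeZero q := ⟨hq.ne_zero⟩
    have : jacobiSym (2 * σ * ((u * d : ℕ) : ℤ)) q = 0 := by
      rw [jacobiSym.eq_zero_iff_not_coprime]
      intro h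
      have h1 : (q : ℤ) ∣ 2 * σ * ((u * d : ℕ) : ℤ) := by
        obtain ⟨e, rfl⟩ := hd
        refine ⟨2 * σ * (u * e : ℕ), ?_⟩
        push_cast; ring
      have h2 : (q : ℤ) ∣ (1 : ℤ) := by
        have h3 := Int.dvd_coe_gcd h1 (dvd_refl (q : ℤ))
        rw [h] at h3
        exact_mod_cast h3
      have h4 : q ∣ 1 := by exact_mod_cast h2
      exact hq.one_lt.ne' (Nat.dvd_one.mp h4)
    rw [this]
    simp
  · rfl

/-- a prime whose square divides a member of the family does not divide `P` -/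
private lemma sqf_large {m c ε σ : ℤ} {κ u : ℕ} {y : ℝ} {P Q R d p : ℕ} (hf : FamP m c ε κ u)
    (hp : Pat y P Q R) (hd : RP m c σ u P Q R d) (hpr : p.Prime) (hpd : p ^ 2 ∣ d) :
    Odd p ∧ (¬ p ∣ P ∧ Real.log y < p) := by
  have hodd : Odd d := sqf_odd hf hd.1.1
  have hpd' : p ∣ d := (dvd_pow_self p two_ne_zero).trans hpd
  have hpo : Odd p := Odd.of_dvd_nat hodd hpd'
  refine ⟨hpo, ?_⟩
  have h3 : 3 ≤ p := by
    have h2 := hpr.two_le
    rcases Nat.lt_or_ge 2 p with h | h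
    · exact h
    · exfalso
      have : p = 2 := le_antisymm h h2
      rw [this] at hpo
      exact absurd hpo (by decide)
  have hP0 : P ≠ 0 := hp.sf.ne_zero
  have key : ¬ p ∣ P := ?_
  · refine ⟨key, ?_⟩
    by_contra hy
    push Not at hy
    exact key (hp.pr p hpr h3 hy)
  intro hpP
  have hmem : p ∈ P.primeFactors := Nat.mem_primeFactors.mpr ⟨hpr, hpP, hP0⟩
  obtain ⟨hR1, hR2⟩ := hd.2 p hmem
  by_cases hR : p ∣ R
  · exact (hR1 hR).2 hpd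
  · have h5 := hR2 hR
    rw [sqf_sy_zero hpr hpd'] at h5
    split_ifs at h5 <;> norm_num at h5

/-- dividing out a square -/
private lemma sqf_div {m c ε σ : ℤ} {κ u : ℕ} {y : ℝ} {P Q R d p : ℕ} (hf : FamP m c ε κ u)
    (_hp : Pat y P Q R) (hpr : p.Prime) (hpo : Odd p) (hpy : ¬ p ∣ P)
    (hd : RP m c σ u P Q R (p ^ 2 * d)) : RP m c σ u P Q R d := by
  obtain ⟨⟨h1, h2⟩, h3⟩ := hd
  refine ⟨⟨?_, ?_⟩, ?_⟩
  · rw [← sqf_mod (sqf_m hf) hpo]
    exact h1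
  · rintro ⟨r, hr⟩
    apply h2
    refine ⟨p * r, ?_⟩
    push_cast at hr ⊢
    linear_combination (p : ℤ) ^ 2 * hr
  · intro q hq
    have hqp : q.Prime := Nat.prime_of_mem_primeFactors hq
    have hqP : q ∣ P := Nat.dvd_of_mem_primeFactors hq
    have hne : q ≠ p := by
      rintro rfl
      exact hpy hqP
    obtain ⟨a, b⟩ := h3 q hq
    have hcop : Nat.Coprime q p := (Nat.coprime_primes hqp hpr).mpr hne
    refine ⟨fun hR => ?_, fun hR => ?_⟩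
    · obtain ⟨a1, a2⟩ := a hR
      refine ⟨?_, fun h => a2 (h.mul_left _)⟩
      exact (Nat.Coprime.pow_right 2 hcop).dvd_of_dvd_mul_left a1
    · rw [← sqf_sy hpr hqp hne]
      exact b hR

private lemma sqf_inv_sq (z : ℝ) (hz : 0 < z) (N : ℕ) :
    ∑ p ∈ (Icc 1 N).filter (fun p : ℕ => z < p), 1 / (p : ℝ) ^ 2 ≤ 2 / z := by
  have h1 := sum_Ioo_inv_sq_le (α := ℝ) ⌊z⌋₊ (N + 1)
  have h2 : ∑ p ∈ (Icc 1 N).filter (fun p : ℕ => z < p), 1 / (p : ℝ) ^ 2 ≤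
      ∑ i ∈ Ioo ⌊z⌋₊ (N + 1), ((i : ℝ) ^ 2)⁻¹ := by
    simp_rw [one_div]
    refine Finset.sum_le_sum_of_subset_of_nonneg ?_ (fun i _ _ => by positivity)
    intro p hp
    rw [Finset.mem_filter, Finset.mem_Icc] at hp
    rw [Finset.mem_Ioo]
    refine ⟨?_, by omega⟩
    exact (Nat.floor_lt hz.le).mpr hp.2
  refine h2.trans (h1.trans ?_)
  have h3 : z < ⌊z⌋₊ + 1 := Nat.lt_floor_add_one z
  exact div_le_div_of_nonneg_left (by norm_num) hz h3.le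

private lemma sqf_core {X y : ℝ} {P Q R : ℕ} (hX : 1 < X) (hy0 : 0 < Real.log y) (hp : Pat y P Q R)
    {σ m c ε : ℤ} {κ u : ℕ} (hf : FamP m c ε κ u) {F : ℝ → ℝ} (hF : Bump F (1 / 2) 4)
    (hFn : ∀ t, 0 ≤ F t) (hF1 : ∀ t ∈ Set.Icc (1 : ℝ) 2, 1 ≤ F t) {C1 : ℝ} (hC1 : 0 < C1)
    (hD : 0 < DP m P R)
    (hav : ∀ Y : ℝ, X ^ (1 / 2 : ℝ) ≤ Y → avP m c σ u P Q R F Y (fun _ => 1) ≤ C1) :
    (Nat.card {d : ℕ | X < d ∧ (d : ℝ) ≤ 2 * X ∧ RP m c σ u P Q R d ∧ ¬ Squarefree d} : ℝ) ≤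
      C1 * (DP m P R * X) * (2 / Real.log y) + 2 * X * (2 / X ^ (1 / 4 : ℝ)) := by
  classical
  have hX0 : 0 < X := by linarith
  have hX4 : 0 < X ^ (1 / 4 : ℝ) := Real.rpow_pos_of_pos hX0 _
  -- the finset
  obtain ⟨B, hBdef⟩ : ∃ B : Finset ℕ, B = (Icc 1 ⌊2 * X⌋₊).filter
    (fun d : ℕ => X < d ∧ RP m c σ u P Q R d ∧ ¬ Squarefree d) := ⟨_, rfl⟩
  obtain ⟨S, hS⟩ : ∃ S : ℕ → Finset ℕ, S = fun p => (Icc 1 ⌊2 * X⌋₊).filter
    (fun d : ℕ => X < d ∧ RP m c σ u P Q R d ∧ p ^ 2 ∣ d) := ⟨_, rfl⟩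
  have hmemS : ∀ p d, d ∈ S p → X < d ∧ (d : ℝ) ≤ 2 * X ∧ RP m c σ u P Q R d ∧ p ^ 2 ∣ d := by
    intro p d hd
    rw [hS, Finset.mem_filter, Finset.mem_Icc] at hd
    exact ⟨hd.2.1, (Nat.le_floor_iff (by linarith)).mp hd.1.2, hd.2.2⟩
  have hcard : (Nat.card {d : ℕ | X < d ∧ (d : ℝ) ≤ 2 * X ∧ RP m c σ u P Q R d ∧ ¬ Squarefree d} : ℝ)
      = (B.card : ℝ) := by
    rw [Nat.card_coe_set_eq]
    have : {d : ℕ | X < d ∧ (d : ℝ) ≤ 2 * X ∧ RP m c σ u P Q R d ∧ ¬ Squarefree d} =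
        ((B : Finset ℕ) : Set ℕ) := by
      ext d
      rw [Finset.mem_coe, hBdef, Finset.mem_filter, Finset.mem_Icc]
      constructor
      · rintro ⟨h1, h2, h3⟩
        refine ⟨⟨?_, (Nat.le_floor_iff (by linarith)).mpr h2⟩, h1, h3⟩
        have : (0 : ℝ) < d := by linarith
        exact_mod_cast this
      · rintro ⟨⟨_, h2⟩, h3, h4⟩
        exact ⟨h3, (Nat.le_floor_iff (by linarith)).mp h2, h4⟩
    rw [this, Set.ncard_coe_finset]
  rw [hcard]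
  -- the cover
  have hcov : B ⊆ ((Icc 1 ⌊2 * X⌋₊).filter (fun p : ℕ => p.Prime ∧ Odd p ∧ (¬ p ∣ P ∧ Real.log y < p))).biUnion S := by
    intro d hd
    rw [hBdef, Finset.mem_filter, Finset.mem_Icc] at hd
    obtain ⟨⟨hd1, hd2⟩, hd3, hd4, hd5⟩ := hd
    obtain ⟨p, hpr, hpd⟩ : ∃ p : ℕ, p.Prime ∧ p * p ∣ d := by
      rw [Nat.squarefree_iff_prime_squarefree] at hd5
      push Not at hd5
      exact hd5
    have hpd2 : p ^ 2 ∣ d := by rw [pow_two]; exact hpd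
    obtain ⟨hpo, hpy⟩ := sqf_large hf hp hd4 hpr hpd2
    rw [Finset.mem_biUnion]
    refine ⟨p, ?_, ?_⟩
    · rw [Finset.mem_filter, Finset.mem_Icc]
      refine ⟨⟨hpr.one_lt.le, ?_⟩, hpr, hpo, hpy⟩
      have : p ≤ d := Nat.le_of_dvd (by omega) ((dvd_pow_self p two_ne_zero).trans hpd2)
      omega
    · rw [hS, Finset.mem_filter, Finset.mem_Icc]
      exact ⟨⟨hd1, hd2⟩, hd3, hd4, hpd2⟩
  have hsum : (B.card : ℝ) ≤
      ∑ p ∈ (Icc 1 ⌊2 * X⌋₊).filter (fun p : ℕ => p.Prime ∧ Odd p ∧ (¬ p ∣ P ∧ Real.log y < p)), ((S p).card : ℝ) := by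
    have h1 := (Finset.card_le_card hcov).trans Finset.card_biUnion_le
    exact_mod_cast h1
  -- the size of `S p`
  have hdivimg : ∀ p : ℕ, p.Prime → ∀ d ∈ S p, p ^ 2 * (d / p ^ 2) = d := fun p _ d hd =>
    Nat.mul_div_cancel' (hmemS p d hd).2.2.2
  have hinj : ∀ p : ℕ, p.Prime → ((S p).image (fun d => d / p ^ 2)).card = (S p).card := by
    intro p hpr
    refine Finset.card_image_of_injOn ?_
    intro d hd d' hd' he
    have he' : d / p ^ 2 = d' / p ^ 2 := he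
    rw [← hdivimg p hpr d hd, ← hdivimg p hpr d' hd', he']
  have hSp : ∀ p ∈ (Icc 1 ⌊2 * X⌋₊).filter (fun p : ℕ => p.Prime ∧ Odd p ∧ (¬ p ∣ P ∧ Real.log y < p)),
      ((S p).card : ℝ) ≤ C1 * (DP m P R * X) * (1 / (p : ℝ) ^ 2) +
        (if X ^ (1 / 4 : ℝ) < p then 2 * X * (1 / (p : ℝ) ^ 2) else 0) := by
    intro p hpm
    rw [Finset.mem_filter] at hpm
    obtain ⟨-, hpr, hpo, hpy⟩ := hpm
    have hp0 : (0 : ℝ) < p := by exact_mod_cast hpr.pos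
    have hp2 : (0 : ℝ) < (p : ℝ) ^ 2 := by positivity
    have hmain0 : 0 ≤ C1 * (DP m P R * X) * (1 / (p : ℝ) ^ 2) := by positivity
    by_cases hpX : X ^ (1 / 4 : ℝ) < p
    · rw [if_pos hpX]
      have h1 : ((S p).image (fun d => d / p ^ 2)) ⊆ Icc 1 ⌊2 * X * (1 / (p : ℝ) ^ 2)⌋₊ := by
        intro e he
        rw [Finset.mem_image] at he
        obtain ⟨d, hd, rfl⟩ := he
        obtain ⟨a1, a2, -, a4⟩ := hmemS p d hd
        have e1 := hdivimg p hpr d hd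
        rw [Finset.mem_Icc]
        constructor
        · rcases Nat.eq_zero_or_pos (d / p ^ 2) with h | h
          · rw [h] at e1
            simp at e1
            rw [← e1] at a1
            simp at a1
            linarith
          · exact h
        · refine Nat.le_floor ?_
          have e2 : ((p : ℝ) ^ 2) * ((d / p ^ 2 : ℕ) : ℝ) = d := by exact_mod_cast e1
          rw [mul_one_div, le_div_iff₀ hp2]
          linarith
      have h2 := Finset.card_le_card h1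
      rw [hinj p hpr, Nat.card_Icc] at h2
      have h3 : ((S p).card : ℝ) ≤ 2 * X * (1 / (p : ℝ) ^ 2) := by
        have h4 : (S p).card ≤ ⌊2 * X * (1 / (p : ℝ) ^ 2)⌋₊ := by omega
        exact (Nat.le_floor_iff (by positivity)).mp h4
      linarith
    · rw [if_neg hpX, add_zero]
      push Not at hpX
      have hY : X ^ (1 / 2 : ℝ) ≤ X / (p : ℝ) ^ 2 := by
        rw [le_div_iff₀ hp2]
        have h1 : (p : ℝ) ^ 2 ≤ (X ^ (1 / 4 : ℝ)) ^ 2 := by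
          exact pow_le_pow_left₀ hp0.le hpX 2
        have h2 : (X ^ (1 / 4 : ℝ)) ^ 2 = X ^ (1 / 2 : ℝ) := by
          rw [← Real.rpow_natCast, ← Real.rpow_mul hX0.le]
          norm_num
        have h3 : X ^ (1 / 2 : ℝ) * X ^ (1 / 2 : ℝ) = X := by
          rw [← Real.rpow_add hX0]
          norm_num
        calc X ^ (1 / 2 : ℝ) * (p : ℝ) ^ 2 ≤ X ^ (1 / 2 : ℝ) * X ^ (1 / 2 : ℝ) := by
              refine mul_le_mul_of_nonneg_left ?_ (Real.rpow_nonneg hX0.le _)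
              rw [← h2]
              exact h1
          _ = X := h3
      have hcount := sqf_count hF hFn hF1 (Y := X / (p : ℝ) ^ 2) (div_pos hX0 hp2) hD
        (RP m c σ u P Q R) (hav _ hY) ((S p).image (fun d => d / p ^ 2)) (by
          intro e he
          rw [Finset.mem_image] at he
          obtain ⟨d, hd, rfl⟩ := he
          obtain ⟨a1, a2, a3, a4⟩ := hmemS p d hd
          have e1 := hdivimg p hpr d hd
          have e2 : ((p : ℝ) ^ 2) * ((d / p ^ 2 : ℕ) : ℝ) = d := by exact_mod_cast e1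
          refine ⟨?_, ?_, ?_⟩
          · rw [div_lt_iff₀ hp2]
            linarith
          · rw [← mul_div_assoc, le_div_iff₀ hp2]
            linarith
          · rw [← e1] at a3
            exact sqf_div hf hp hpr hpo hpy.1 a3)
      rw [hinj p hpr] at hcount
      refine hcount.trans (le_of_eq ?_)
      ring
  refine hsum.trans ((Finset.sum_le_sum hSp).trans ?_)
  rw [Finset.sum_add_distrib]
  refine add_le_add ?_ ?_
  · rw [← Finset.mul_sum]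
    refine mul_le_mul_of_nonneg_left ?_ (by positivity)
    refine le_trans ?_ (sqf_inv_sq (Real.log y) hy0 ⌊2 * X⌋₊)
    refine Finset.sum_le_sum_of_subset_of_nonneg ?_ (fun i _ _ => by positivity)
    intro p hp'
    rw [Finset.mem_filter] at hp' ⊢
    exact ⟨hp'.1, hp'.2.2.2.2⟩
  · rw [← Finset.sum_filter, ← Finset.mul_sum]
    refine mul_le_mul_of_nonneg_left ?_ (by positivity)
    refine le_trans ?_ (sqf_inv_sq (X ^ (1 / 4 : ℝ)) hX4 ⌊2 * X⌋₊)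
    refine Finset.sum_le_sum_of_subset_of_nonneg ?_ (fun i _ _ => by positivity)
    intro p hp'
    rw [Finset.mem_filter, Finset.mem_filter] at hp'
    rw [Finset.mem_filter]
    exact ⟨hp'.1.1, hp'.2⟩

theorem p_sqf (hz : D_zero) (hs : D_size) : D_sqf := by
  intro c₀ X y P Q R hps hc₀ σ hσ m c ε κ u hf ε₀ hε₀
  obtain ⟨F, hF, hFn, hF1, -⟩ := exists_F 1 one_pos
  have hI : 0 < ∫ t, F t := sqf_int_pos hF hFn hF1
  obtain ⟨X₀, hX₀⟩ := hz F (1 / 2) 4 (by norm_num) hF hI σ hσ m c ε κ u hf 1 one_pos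
  obtain ⟨C1, hC1⟩ : ∃ C1 : ℝ, C1 = (∫ t, F t) + 1 := ⟨_, rfl⟩
  have hC1p : 0 < C1 := by linarith
  have e1 : ∀ᶠ n in atTop, X₀ ≤ X n := hps.lim.eventually_ge_atTop X₀
  have e2 : ∀ᶠ n in atTop, 4 * C1 / ε₀ + 1 ≤ Real.log (y n) :=
    (Real.tendsto_log_atTop.comp hps.limy).eventually_ge_atTop _
  have e3 : ∀ᶠ n in atTop, 64 / ε₀ ≤ (X n) ^ (21 / 100 : ℝ) :=
    ((tendsto_rpow_atTop (by norm_num)).comp hps.lim).eventually_ge_atTop _
  filter_upwards [e1, e2, e3] with n h1 h2 h3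
  have hX1 : 1 < X n := hps.one n
  have hX0 : 0 < X n := by linarith
  have hlog : 0 ≤ Real.log (X n) := Real.log_nonneg hX1.le
  have hy : y n ≤ 1 / 100 * Real.log (X n) :=
    (hps.le n).trans (mul_le_mul_of_nonneg_right hc₀ hlog)
  have hpat := hps.pat n
  have hq : 0 ≤ 4 * C1 / ε₀ := by positivity
  have hy0 : 0 < Real.log (y n) := by linarith
  obtain ⟨-, -, -, -, -, hs6⟩ := hs (1 / 100) (X n) (y n) (P n) (Q n) (R n) (by norm_num) hX1 hy hpat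
  obtain ⟨hD, hDi⟩ := hs6 m (sqf_m hf)
  have hcore := sqf_core hX1 hy0 hpat hf hF hFn hF1 hC1p hD (σ := σ) (fun Y hY => by
    have h4 := hX₀ (X n) h1 (y n) (P n) (Q n) (R n) hy hpat Y hY
    rw [abs_le] at h4
    rw [hC1]
    linarith [h4.2])
  refine hcore.trans ?_
  have hDX : 0 < DP m (P n) (R n) * X n := mul_pos hD hX0
  -- first term
  have t1 : C1 * (DP m (P n) (R n) * X n) * (2 / Real.log (y n)) ≤ ε₀ / 2 * (DP m (P n) (R n) * X n) := by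
    have h5 : C1 * (2 / Real.log (y n)) ≤ ε₀ / 2 := by
      rw [← mul_div_assoc, div_le_iff₀ hy0]
      have h6 : 4 * C1 / ε₀ ≤ Real.log (y n) := by linarith
      rw [div_le_iff₀ hε₀] at h6
      linarith
    calc C1 * (DP m (P n) (R n) * X n) * (2 / Real.log (y n)) = C1 * (2 / Real.log (y n)) * (DP m (P n) (R n) * X n) := by ring
      _ ≤ _ := mul_le_mul_of_nonneg_right h5 hDX.le
  -- second term
  have t2 : 2 * X n * (2 / (X n) ^ (1 / 4 : ℝ)) ≤ ε₀ / 2 * (DP m (P n) (R n) * X n) := by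
    have hXe : (X n) ^ (4 * (1 / 100) : ℝ) = (X n) ^ (4 / 100 : ℝ) := by norm_num
    rw [hXe, div_le_iff₀ hD] at hDi
    have hp4 : 0 < (X n) ^ (4 / 100 : ℝ) := Real.rpow_pos_of_pos hX0 _
    have hp14 : 0 < (X n) ^ (1 / 4 : ℝ) := Real.rpow_pos_of_pos hX0 _
    have hprod : (X n) ^ (21 / 100 : ℝ) * (X n) ^ (4 / 100 : ℝ) = (X n) ^ (1 / 4 : ℝ) := by
      rw [← Real.rpow_add hX0]
      norm_num
    rw [← mul_div_assoc, div_le_iff₀ hp14]
    rw [div_le_iff₀ hε₀] at h3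
    -- 4 X ≤ ε₀/2 * D * X * X^(1/4)
    have h7 : 8 ≤ ε₀ * (DP m (P n) (R n) * (X n) ^ (1 / 4 : ℝ)) := by
      rw [← hprod]
      have h8 : 64 * (1 : ℝ) ≤ (X n ^ (21 / 100 : ℝ) * ε₀) * (8 * X n ^ (4 / 100 : ℝ) * DP m (P n) (R n)) :=
        mul_le_mul h3 hDi zero_le_one (by positivity)
      have h9 : (X n ^ (21 / 100 : ℝ) * ε₀) * (8 * X n ^ (4 / 100 : ℝ) * DP m (P n) (R n)) =
          8 * (ε₀ * (DP m (P n) (R n) * (X n ^ (21 / 100 : ℝ) * X n ^ (4 / 100 : ℝ)))) := by ring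
      rw [h9] at h8
      linarith
    have h10 : 2 * X n * 2 = X n * 8 / 2 := by ring
    rw [h10]
    have h11 : X n * 8 ≤ X n * (ε₀ * (DP m (P n) (R n) * (X n) ^ (1 / 4 : ℝ))) :=
      mul_le_mul_of_nonneg_left h7 hX0.le
    calc X n * 8 / 2 ≤ X n * (ε₀ * (DP m (P n) (R n) * (X n) ^ (1 / 4 : ℝ))) / 2 := by linarith
      _ = ε₀ / 2 * (DP m (P n) (R n) * X n) * (X n) ^ (1 / 4 : ℝ) := by ring
  linarith

end Pool.Agent.MP0016c7.Rz
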