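import Mathlib
import Pool.Agent.Lib.MP_0016c7_nt.PS.Stm
import Pool.Agent.Lib.MP_0016c7_nt.Rz2.SumK
import Pool.Agent.Lib.MP_0016c7_nt.Rz2.SSmom

set_option autoImplicit false

/-!
[PS sumkU] The sum over all nonsquare `k`, uniformly in `r`.
-/

open Finset MeasureTheory Filter Topology
open scoped Real ContDiff

namespace Pool.Agent.MP0016c7.Rz

private theorem sumkU_pow4 (δ : ℕ) (hδ : 1 ≤ δ) : (1 / √(δ : ℝ)) ^ 4 = 1 / (δ : ℝ) ^ 2 := by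
  have h : (√(δ : ℝ)) ^ 4 = (δ : ℝ) ^ 2 := by
    calc (√(δ : ℝ)) ^ 4 = ((√(δ : ℝ)) ^ 2) ^ 2 := by ring
      _ = (δ : ℝ) ^ 2 := by rw [Real.sq_sqrt (by positivity)]
  rw [div_pow, one_pow, h]

private theorem sumkU_cop (r n : ℕ) (hn : Odd n) : Nat.Coprime n (2 * r) ↔ Nat.Coprime n r := by
  rw [Nat.coprime_mul_iff_right]
  exact ⟨fun h => h.2, fun h => ⟨Nat.coprime_two_right.mpr hn, h⟩⟩

private theorem sumkU_SS_eq (k : ℤ) (r : ℕ) (s : ℂ) (M δ q : ℕ) (hδ : 1 ≤ δ)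
    (x : ℝ) (hx : 0 < x) (hM : 2 * x ≤ M) (hc : Nat.Coprime δ (2 * r)) :
    SS k (an r s x) M δ q =
      (δ : ℂ) ^ (-(1 / 2 : ℂ) - s) * SA k s (x / δ) (q * r) := by
  have hδ0 : (0 : ℝ) < δ := by exact_mod_cast hδ
  unfold SS SA
  rw [Finset.sum_filter, Finset.sum_filter, Finset.mul_sum]
  have hsub : Icc 1 ⌊2 * (x / (δ : ℝ))⌋₊ ⊆ Icc 1 (M / δ) := by
    apply Finset.Icc_subset_Icc le_rfl
    rw [Nat.le_div_iff_mul_le hδ]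
    have h1 : ((⌊2 * (x / (δ : ℝ))⌋₊ : ℕ) : ℝ) ≤ 2 * (x / (δ : ℝ)) :=
      Nat.floor_le (by positivity)
    have h2 : ((⌊2 * (x / (δ : ℝ))⌋₊ * δ : ℕ) : ℝ) ≤ M := by
      push_cast
      calc ((⌊2 * (x / (δ : ℝ))⌋₊ : ℕ) : ℝ) * δ ≤ 2 * (x / (δ : ℝ)) * δ :=
            mul_le_mul_of_nonneg_right h1 hδ0.le
        _ = 2 * x := by field_simp
        _ ≤ M := hM
    exact_mod_cast h2
  symm
  apply Finset.sum_subset_zero_on_sdiff hsub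
  · intro n hn
    rw [Finset.mem_sdiff, Finset.mem_Icc, Finset.mem_Icc] at hn
    have hn1 : ⌊2 * (x / (δ : ℝ))⌋₊ < n := by omega
    have h1 : 2 * (x / (δ : ℝ)) < n := Nat.lt_of_floor_lt hn1
    have h2 : 2 ≤ ((δ * n : ℕ) : ℝ) / x := by
      rw [le_div_iff₀ hx]
      push_cast
      have h3 : 2 * x / δ < n := by rw [mul_div_assoc]; exact h1
      rw [div_lt_iff₀ hδ0] at h3
      linarith
    split_ifs
    · unfold an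
      rw [om_eq_zero h2]
      simp
    · rfl
  · intro n hn
    rw [Finset.mem_Icc] at hn
    rcases Nat.even_or_odd n with hev | hodd
    · have hj : jr k n = 0 := by
        unfold jr
        rw [if_neg (by rw [Nat.not_odd_iff_even]; exact hev)]
      rw [hj]
      simp
    · have hcc : Nat.Coprime (δ * n) (2 * r) ↔ Nat.Coprime n r := by
        rw [Nat.coprime_mul_iff_left, sumkU_cop r n hodd]
        exact ⟨fun h => h.2, fun h => ⟨hc, h⟩⟩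
      have hom : (((δ * n : ℕ) : ℝ) / x) = (n : ℝ) / (x / δ) := by
        push_cast
        field_simp
      have hcp : (((δ * n : ℕ) : ℂ)) ^ (-(1 / 2 : ℂ) - s) =
          (δ : ℂ) ^ (-(1 / 2 : ℂ) - s) * (n : ℂ) ^ (-(1 / 2 : ℂ) - s) := by
        rw [Nat.cast_mul, Complex.natCast_mul_natCast_cpow]
      by_cases hq : Nat.Coprime n q
      · by_cases hr : Nat.Coprime n r
        · rw [if_pos (Nat.coprime_mul_iff_right.mpr ⟨hq, hr⟩), if_pos hq]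
          unfold an
          rw [if_pos (hcc.mpr hr), hom, hcp]
          ring
        · rw [if_neg (fun h => hr (Nat.coprime_mul_iff_right.mp h).2), if_pos hq]
          unfold an
          rw [if_neg (fun h => hr (hcc.mp h))]
          simp
      · rw [if_neg (fun h => hq (Nat.coprime_mul_iff_right.mp h).1), if_neg hq]
        simp

private theorem sumkU_n_fourth [QlsHyp] (ε : ℝ) (hε : 0 < ε) : ∃ (C : ℝ) (B : ℕ), 0 < C ∧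
    ∀ r : ℕ, Odd r → ∀ X : ℝ, 2 ≤ X → ∀ K M δ q : ℕ, 1 ≤ K → (K : ℝ) ≤ X ^ 4 → 1 ≤ δ → 0 < q →
    ∀ x : ℝ, 0 < x → x ≤ X ^ 4 → 2 * x ≤ M → ∀ s : ℂ, 0 ≤ s.re → s.re ≤ 1 →
    ∀ u : ℤ, (u = 1 ∨ u = -1 ∨ u = 2 ∨ u = -2) →
    ∑ m ∈ (Osf K).filter (fun m : ℕ => u * m ≠ 1), ‖SS (u * m) (an r s x) M δ q‖ ^ 4 / m ≤
      C * X ^ ε * ((q * r).divisors.card : ℝ) ^ 4 * (1 + ‖s‖) ^ B / (δ : ℝ) ^ 2 := by
  obtain ⟨C, B, hC, hf⟩ := fourth_SA' ε hε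
  refine ⟨C, B, hC, ?_⟩
  intro r hr X hX K M δ q hK hKX hδ hq x hx hxX hM s hs0 hs1 u hu
  have hδ0 : (0 : ℝ) < δ := by exact_mod_cast hδ
  have hδ1 : (1 : ℝ) ≤ δ := by exact_mod_cast hδ
  have hX0 : (0 : ℝ) < X := by linarith
  by_cases hc : Nat.Coprime δ (2 * r)
  · have hr0 : 0 < r := hr.pos
    have h1 := hf X hX K hK hKX (x / δ) (by positivity)
      ((div_le_self hx.le hδ1).trans hxX) (q * r) (Nat.mul_pos hq hr0) s hs0 hs1 u hu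
    have h2 : ∀ m ∈ (Osf K).filter (fun m : ℕ => u * m ≠ 1),
        ‖SS (u * m) (an r s x) M δ q‖ ^ 4 / m ≤
          (1 / (δ : ℝ) ^ 2) * (‖SA (u * m) s (x / δ) (q * r)‖ ^ 4 / m) := by
      intro m _
      rw [sumkU_SS_eq _ r s M δ q hδ x hx hM hc, norm_mul]
      have h3 : ‖(δ : ℂ) ^ (-(1 / 2 : ℂ) - s)‖ ≤ 1 / √(δ : ℝ) := by
        have : ((δ : ℕ) : ℂ) = ((δ : ℝ) : ℂ) := by push_cast; rfl
        rw [this, Complex.norm_cpow_eq_rpow_re_of_pos hδ0]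
        have e : (1 : ℝ) / √(δ : ℝ) = (δ : ℝ) ^ (-(1 / 2) : ℝ) := by
          rw [Real.rpow_neg hδ0.le, ← Real.sqrt_eq_rpow, one_div]
        rw [e]
        apply Real.rpow_le_rpow_of_exponent_le hδ1
        simp only [Complex.sub_re, Complex.neg_re]
        norm_num
        exact hs0
      have h4 : (‖(δ : ℂ) ^ (-(1 / 2 : ℂ) - s)‖ * ‖SA (u * m) s (x / δ) (q * r)‖) ^ 4 ≤
          (1 / (δ : ℝ) ^ 2) * ‖SA (u * m) s (x / δ) (q * r)‖ ^ 4 := by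
        rw [mul_pow, ← sumkU_pow4 δ hδ]
        gcongr
      calc (‖(δ : ℂ) ^ (-(1 / 2 : ℂ) - s)‖ * ‖SA (u * m) s (x / δ) (q * r)‖) ^ 4 / m
          ≤ ((1 / (δ : ℝ) ^ 2) * ‖SA (u * m) s (x / δ) (q * r)‖ ^ 4) / m := by gcongr
        _ = _ := by ring
    calc ∑ m ∈ (Osf K).filter (fun m : ℕ => u * m ≠ 1), ‖SS (u * m) (an r s x) M δ q‖ ^ 4 / m
        ≤ ∑ m ∈ (Osf K).filter (fun m : ℕ => u * m ≠ 1),
          (1 / (δ : ℝ) ^ 2) * (‖SA (u * m) s (x / δ) (q * r)‖ ^ 4 / m) := Finset.sum_le_sum h2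
      _ = (1 / (δ : ℝ) ^ 2) * ∑ m ∈ (Osf K).filter (fun m : ℕ => u * m ≠ 1),
          ‖SA (u * m) s (x / δ) (q * r)‖ ^ 4 / m := by rw [Finset.mul_sum]
      _ ≤ (1 / (δ : ℝ) ^ 2) *
          (C * X ^ ε * ((q * r).divisors.card : ℝ) ^ 4 * (1 + ‖s‖) ^ B) :=
          mul_le_mul_of_nonneg_left h1 (by positivity)
      _ = _ := by ring
  · have e : ∀ m ∈ (Osf K).filter (fun m : ℕ => u * m ≠ 1),
        ‖SS (u * m) (an r s x) M δ q‖ ^ 4 / m = 0 := by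
      intro m _
      have e1 : SS (u * m) (an r s x) M δ q = 0 := by
        unfold SS
        apply Finset.sum_eq_zero
        intro n _
        unfold an
        rw [if_neg, zero_mul]
        intro h
        exact hc (Nat.Coprime.coprime_mul_right h)
      rw [e1]
      simp
    rw [Finset.sum_eq_zero e]
    positivity

private lemma sumkU_cover {ι κ : Type*} [DecidableEq κ] (S : Finset κ) (T : Finset ι) (g : ι → κ)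
    (Φ : κ → ℝ) (hΦ : ∀ k, 0 ≤ Φ k) (h : ∀ k ∈ S, ∃ t ∈ T, g t = k) :
    ∑ k ∈ S, Φ k ≤ ∑ t ∈ T, Φ (g t) := by
  calc ∑ k ∈ S, Φ k ≤ ∑ k ∈ S, ∑ t ∈ T with g t = k, Φ (g t) := by
        refine Finset.sum_le_sum fun k hk => ?_
        obtain ⟨t, ht, hgt⟩ := h k hk
        have : Φ k = Φ (g t) := by rw [hgt]
        rw [this]
        exact Finset.single_le_sum (f := fun t => Φ (g t)) (fun i _ => hΦ _)
          (Finset.mem_filter.mpr ⟨ht, hgt⟩)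
    _ = ∑ t ∈ T with g t ∈ S, Φ (g t) := Finset.sum_fiberwise_eq_sum_filter _ _ _ _
    _ ≤ ∑ t ∈ T, Φ (g t) :=
        Finset.sum_le_sum_of_subset_of_nonneg (Finset.filter_subset _ _) (fun i _ _ => hΦ _)

private lemma sumkU_repr (k : ℤ) (hk : ¬ IsSquare k) : ∃ (u : ℤ) (f m : ℕ),
    (u = 1 ∨ u = -1 ∨ u = 2 ∨ u = -2) ∧ 0 < f ∧ Odd m ∧ Squarefree m ∧ u * m ≠ 1 ∧
    k = u * m * (f : ℤ) ^ 2 := by
  have hk0 : k ≠ 0 := by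
    rintro rfl
    exact hk ⟨0, by simp⟩
  obtain ⟨a, b, hab, ha⟩ := Nat.sq_mul_squarefree k.natAbs
  have hb0 : b ≠ 0 := by
    rintro rfl
    simp at hab
    exact hk0 (Int.natAbs_eq_zero.mp hab.symm)
  have hka : k = k.sign * (a : ℤ) * (b : ℤ) ^ 2 := by
    have h1 : k = k.sign * (k.natAbs : ℤ) := (Int.sign_mul_natAbs k).symm
    rw [← hab] at h1
    push_cast at h1
    linarith only [h1, h1]
  have hsign : k.sign = 1 ∨ k.sign = -1 := by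
    rcases lt_trichotomy k 0 with h | h | h
    · right; exact Int.sign_eq_neg_one_of_neg h
    · exact absurd h hk0
    · left; exact Int.sign_eq_one_of_pos h
  rcases Nat.even_or_odd a with hae | hao
  · obtain ⟨m, hm⟩ := hae
    have hm2 : a = 2 * m := by omega
    subst hm2
    have hmo : Odd m := by
      by_contra hno
      rw [Nat.not_odd_iff_even] at hno
      obtain ⟨c, hc⟩ := hno
      have : (2 * 2) ∣ 2 * m := ⟨c, by omega⟩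
      have h2 := ha 2 this
      simp at h2
    have hmsf : Squarefree m := Squarefree.squarefree_of_dvd (Dvd.intro_left 2 rfl) ha
    refine ⟨2 * k.sign, b, m, ?_, Nat.pos_of_ne_zero hb0, hmo, hmsf, ?_, ?_⟩
    · rcases hsign with h | h <;> rw [h] <;> norm_num
    · intro h
      rcases hsign with h' | h' <;> rw [h'] at h <;> omega
    · have h3 := hka
      push_cast at h3
      linarith only [h3, h3]
  · refine ⟨k.sign, b, a, ?_, Nat.pos_of_ne_zero hb0, hao, ha, ?_, hka⟩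
    · rcases hsign with h | h <;> rw [h] <;> norm_num
    · intro h
      rw [h] at hka
      exact hk ⟨b, by rw [hka]; ring⟩

private lemma sumkU_decomp (K : ℕ) (Φ : ℤ → ℝ) (hΦ : ∀ k, 0 ≤ Φ k) (S : Finset ℤ)
    (hS : ∀ k ∈ S, |k| ≤ K ∧ ¬ IsSquare k) :
    ∑ k ∈ S, Φ k ≤ ∑ u ∈ ({1, -1, 2, -2} : Finset ℤ), ∑ f ∈ (Icc 1 K).filter (fun f => f ^ 2 ≤ K),
      ∑ m ∈ (Osf (K / f ^ 2)).filter (fun m : ℕ => u * m ≠ 1), Φ (u * m * (f : ℤ) ^ 2) := by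
  have h2 : ∀ u : ℤ, ∑ f ∈ (Icc 1 K).filter (fun f => f ^ 2 ≤ K),
      ∑ m ∈ (Osf (K / f ^ 2)).filter (fun m : ℕ => u * m ≠ 1), Φ (u * m * (f : ℤ) ^ 2) =
      ∑ x ∈ ((Icc 1 K).filter (fun f => f ^ 2 ≤ K)).sigma
        (fun f => (Osf (K / f ^ 2)).filter (fun m : ℕ => u * m ≠ 1)),
        Φ (u * x.2 * (x.1 : ℤ) ^ 2) := by
    intro u
    rw [Finset.sum_sigma]
  simp_rw [h2]
  rw [Finset.sum_sigma']
  refine sumkU_cover S _ (fun x : (Σ _ : ℤ, Σ _ : ℕ, ℕ) => x.1 * x.2.2 * (x.2.1 : ℤ) ^ 2) Φ hΦ ?_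
  intro k hk
  obtain ⟨hkK, hks⟩ := hS k hk
  obtain ⟨u, f, m, hu, hf, hm, hmsf, hum, hkeq⟩ := sumkU_repr k hks
  have hm1 : 1 ≤ m := by
    rcases hm with ⟨c, hc⟩
    omega
  have hu1 : (1 : ℤ) ≤ |u| := by
    rcases hu with h | h | h | h <;> rw [h] <;> norm_num
  have hmf : m * f ^ 2 ≤ K := by
    have h3 : |k| = |u| * m * (f : ℤ) ^ 2 := by
      rw [hkeq, abs_mul, abs_mul, abs_pow]
      simp
    have h4 : (m : ℤ) * (f : ℤ) ^ 2 ≤ |k| := by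
      rw [h3]
      have : (0 : ℤ) ≤ m * (f : ℤ) ^ 2 := by positivity
      nlinarith only [hu1, this]
    have h5 : ((m * f ^ 2 : ℕ) : ℤ) ≤ (K : ℤ) := by
      push_cast
      linarith only [hkK, h4]
    exact_mod_cast h5
  have hf2 : f ^ 2 ≤ K := by nlinarith only [hmf, hm1]
  have hfK : f ≤ K := by nlinarith only [hf2, hf]
  refine ⟨⟨u, f, m⟩, ?_, ?_⟩
  · simp only [Finset.mem_sigma, Finset.mem_filter, Finset.mem_Icc]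
    refine ⟨?_, ⟨⟨hf, hfK⟩, hf2⟩, ?_, hum⟩
    · simp only [Finset.mem_insert, Finset.mem_singleton]
      exact hu
    · simp only [Osf, Finset.mem_filter, Finset.mem_Icc]
      refine ⟨⟨hm1, ?_⟩, hm, hmsf⟩
      exact (Nat.le_div_iff_mul_le (by positivity)).mpr hmf
  · exact hkeq.symm

private lemma sumkU_holder {ι : Type*} (S : Finset ι) (w s₁ s₂ s₃ s₄ : ι → ℝ) (Q₁ Q₂ Q₃ Q₄ : ℝ)
    (h1 : ∑ i ∈ S, s₁ i ^ 4 ≤ Q₁) (h2 : ∑ i ∈ S, s₂ i ^ 4 ≤ Q₂)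
    (h3 : ∑ i ∈ S, (w i ^ 2) * s₃ i ^ 4 ≤ Q₃) (h4 : ∑ i ∈ S, (w i ^ 2) * s₄ i ^ 4 ≤ Q₄) :
    (∑ i ∈ S, w i * (s₁ i * s₂ i * s₃ i * s₄ i)) ^ 4 ≤ Q₁ * Q₂ * Q₃ * Q₄ := by
  have hA := Finset.sum_mul_sq_le_sq_mul_sq S (fun i => s₁ i * s₂ i)
    (fun i => w i * (s₃ i * s₄ i))
  have hB := Finset.sum_mul_sq_le_sq_mul_sq S (fun i => s₁ i ^ 2) (fun i => s₂ i ^ 2)
  have hC := Finset.sum_mul_sq_le_sq_mul_sq S (fun i => w i * s₃ i ^ 2) (fun i => w i * s₄ i ^ 2)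
  have p1 : (0 : ℝ) ≤ ∑ i ∈ S, s₁ i ^ 4 := Finset.sum_nonneg fun i _ => by positivity
  have p2 : (0 : ℝ) ≤ ∑ i ∈ S, s₂ i ^ 4 := Finset.sum_nonneg fun i _ => by positivity
  have p3 : (0 : ℝ) ≤ ∑ i ∈ S, (w i ^ 2) * s₃ i ^ 4 := Finset.sum_nonneg fun i _ => by positivity
  have p4 : (0 : ℝ) ≤ ∑ i ∈ S, (w i ^ 2) * s₄ i ^ 4 := Finset.sum_nonneg fun i _ => by positivity
  have hB' : (∑ i ∈ S, s₁ i ^ 2 * s₂ i ^ 2) ^ 2 ≤ Q₁ * Q₂ := by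
    calc (∑ i ∈ S, s₁ i ^ 2 * s₂ i ^ 2) ^ 2 ≤ (∑ i ∈ S, (s₁ i ^ 2) ^ 2) * ∑ i ∈ S, (s₂ i ^ 2) ^ 2 :=
          hB
      _ = (∑ i ∈ S, s₁ i ^ 4) * ∑ i ∈ S, s₂ i ^ 4 := by
          congr 1 <;> exact Finset.sum_congr rfl fun i _ => by ring
      _ ≤ Q₁ * Q₂ := by gcongr; linarith
  have hC' : (∑ i ∈ S, w i ^ 2 * (s₃ i ^ 2 * s₄ i ^ 2)) ^ 2 ≤ Q₃ * Q₄ := by
    calc (∑ i ∈ S, w i ^ 2 * (s₃ i ^ 2 * s₄ i ^ 2)) ^ 2
        = (∑ i ∈ S, w i * s₃ i ^ 2 * (w i * s₄ i ^ 2)) ^ 2 := by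
          congr 1; exact Finset.sum_congr rfl fun i _ => by ring
      _ ≤ (∑ i ∈ S, (w i * s₃ i ^ 2) ^ 2) * ∑ i ∈ S, (w i * s₄ i ^ 2) ^ 2 := hC
      _ = (∑ i ∈ S, (w i ^ 2) * s₃ i ^ 4) * ∑ i ∈ S, (w i ^ 2) * s₄ i ^ 4 := by
          congr 1 <;> exact Finset.sum_congr rfl fun i _ => by ring
      _ ≤ Q₃ * Q₄ := by gcongr; linarith
  have hA' : (∑ i ∈ S, w i * (s₁ i * s₂ i * s₃ i * s₄ i)) ^ 2 ≤
      (∑ i ∈ S, s₁ i ^ 2 * s₂ i ^ 2) * ∑ i ∈ S, w i ^ 2 * (s₃ i ^ 2 * s₄ i ^ 2) := by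
    calc (∑ i ∈ S, w i * (s₁ i * s₂ i * s₃ i * s₄ i)) ^ 2
        = (∑ i ∈ S, s₁ i * s₂ i * (w i * (s₃ i * s₄ i))) ^ 2 := by
          congr 1; exact Finset.sum_congr rfl fun i _ => by ring
      _ ≤ _ := hA
      _ = _ := by
          congr 1 <;> exact Finset.sum_congr rfl fun i _ => by ring
  calc (∑ i ∈ S, w i * (s₁ i * s₂ i * s₃ i * s₄ i)) ^ 4
      = ((∑ i ∈ S, w i * (s₁ i * s₂ i * s₃ i * s₄ i)) ^ 2) ^ 2 := by ring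
    _ ≤ ((∑ i ∈ S, s₁ i ^ 2 * s₂ i ^ 2) * ∑ i ∈ S, w i ^ 2 * (s₃ i ^ 2 * s₄ i ^ 2)) ^ 2 := by
        (clear * - hA'; gcongr)
    _ = (∑ i ∈ S, s₁ i ^ 2 * s₂ i ^ 2) ^ 2 * (∑ i ∈ S, w i ^ 2 * (s₃ i ^ 2 * s₄ i ^ 2)) ^ 2 := by
        ring
    _ ≤ (Q₁ * Q₂) * (Q₃ * Q₄) := by
        gcongr
        exact mul_nonneg (p1.trans h1) (p2.trans h2)
    _ = Q₁ * Q₂ * Q₃ * Q₄ := by ring

private lemma sumkU_swap {ι κ : Type*} (S : Finset ι) (A : Finset κ) (c : ι → ℝ)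
    (F : κ → ι → ℝ) (G : κ → ℝ) (h : ∀ a ∈ A, ∑ m ∈ S, c m * F a m ≤ G a) :
    ∑ m ∈ S, c m * ∑ a ∈ A, F a m ≤ ∑ a ∈ A, G a := by
  simp_rw [Finset.mul_sum]
  rw [Finset.sum_comm]
  exact Finset.sum_le_sum h

private lemma sumkU_card {κ : Type*} (A : Finset κ) (G : κ → ℝ) (V b : ℝ) (hb : 0 ≤ b)
    (hA : (A.card : ℝ) ≤ V) (h : ∀ a ∈ A, G a ≤ b) : ∑ a ∈ A, G a ≤ V * b := by
  calc ∑ a ∈ A, G a ≤ A.card • b := Finset.sum_le_card_nsmul _ _ _ h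
    _ = A.card * b := by simp
    _ ≤ V * b := by (clear * - hA hb; gcongr)

private lemma sumkU_harm (N : ℕ) : ∑ g ∈ Icc 1 N, ((g : ℝ))⁻¹ ≤ 1 + Real.log N := by
  have h := harmonic_le_one_add_log N
  rw [harmonic_eq_sum_Icc] at h
  push_cast at h
  exact h

private lemma sumkU_inner [QlsHyp] (ε : ℝ) (hε : 0 < ε) : ∃ (C : ℝ) (B : ℕ), 0 < C ∧
    ∀ r : ℕ, Odd r → ∀ X : ℝ, 2 ≤ X → ∀ K Z M : ℕ, 1 ≤ K → (K : ℝ) ≤ X ^ 4 →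
    (Z : ℝ) ≤ X ^ 4 → (M : ℝ) ≤ X ^ 4 → ∀ x : ℝ, 0 < x → 2 * x ≤ M →
    ∀ a₁ a₂ : ℕ → ℂ, (∀ n : ℕ, 1 ≤ n → ‖a₁ n‖ ≤ 1 / √(n : ℝ)) →
    (∀ n : ℕ, 1 ≤ n → ‖a₂ n‖ ≤ 1 / √(n : ℝ)) →
    ∀ s₁ s₂ : ℂ, 0 ≤ s₁.re → s₁.re ≤ 1 → 0 ≤ s₂.re → s₂.re ≤ 1 →
    ∀ u : ℤ, (u = 1 ∨ u = -1 ∨ u = 2 ∨ u = -2) → ∀ D δ₁ δ₂ δ₃ : ℕ, 0 < D →
    δ₁ ∈ D.divisors → δ₂ ∈ (D / δ₁).divisors → δ₃ ∈ (D / δ₁ / δ₂).divisors →
    ∑ m ∈ (Osf K).filter (fun m : ℕ => u * m ≠ 1), (m : ℝ) ^ (-(1 / 2) : ℝ) *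
      (‖SS (u * m) a₁ Z δ₁ (D / δ₁)‖ * ‖SS (u * m) a₂ Z δ₂ (D / δ₁ / δ₂)‖ *
        ‖SS (u * m) (an r s₁ x) M δ₃ (D / δ₁ / δ₂ / δ₃)‖ *
        ‖SS (u * m) (an r s₂ x) M (D / δ₁ / δ₂ / δ₃) 1‖) ≤
      C * X ^ ε * ((1 + ‖s₁‖) * (1 + ‖s₂‖)) ^ B * √((K : ℝ) + (Z : ℝ) ^ 2) *
        ((D / δ₁ / δ₂ / δ₃ * r).divisors.card : ℝ) * (r.divisors.card : ℝ) / √(D : ℝ) := by
  obtain ⟨C₁, hC₁, h₁⟩ := SS_l_fourth ε hε
  obtain ⟨C₂, B, hC₂, h₂⟩ := sumkU_n_fourth ε hε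
  refine ⟨max C₁ C₂, B, lt_max_of_lt_left hC₁, ?_⟩
  intro r hr X hX K Z M hK hKX hZX hMX x hx hxM a₁ a₂ ha₁ ha₂ s₁ s₂ hs₁ hs₁' hs₂ hs₂' u hu
    D δ₁ δ₂ δ₃ hD hδ₁ hδ₂ hδ₃
  have e1 : δ₁ * (D / δ₁) = D := Nat.mul_div_cancel' (Nat.dvd_of_mem_divisors hδ₁)
  have e2 : δ₂ * (D / δ₁ / δ₂) = D / δ₁ := Nat.mul_div_cancel' (Nat.dvd_of_mem_divisors hδ₂)
  have e3 : δ₃ * (D / δ₁ / δ₂ / δ₃) = D / δ₁ / δ₂ :=
    Nat.mul_div_cancel' (Nat.dvd_of_mem_divisors hδ₃)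
  have p1 : 0 < δ₁ := Nat.pos_of_mem_divisors hδ₁
  have p2 : 0 < δ₂ := Nat.pos_of_mem_divisors hδ₂
  have p3 : 0 < δ₃ := Nat.pos_of_mem_divisors hδ₃
  set q : ℕ := D / δ₁ / δ₂ / δ₃ with hq
  have hDq : D = δ₁ * (δ₂ * (δ₃ * q)) := by rw [e3, e2, e1]
  have pq : 0 < q := by
    rcases Nat.eq_zero_or_pos q with h | h
    · rw [h] at hDq
      simp at hDq
      omega
    · exact h
  have hxX : x ≤ X ^ 4 := by linarith only [hMX, hx, hxM]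
  have hsub : ∀ g : ℕ → ℝ, (∀ m, 0 ≤ g m) →
      ∑ m ∈ (Osf K).filter (fun m : ℕ => u * m ≠ 1), g m ≤ ∑ m ∈ Osf K, g m := fun g hg =>
    Finset.sum_le_sum_of_subset_of_nonneg (Finset.filter_subset _ _) (fun i _ _ => hg i)
  have b1 := (hsub (fun m => ‖SS (u * m) a₁ Z δ₁ (D / δ₁)‖ ^ 4) (fun m => by (clear * -; positivity))).trans
    (h₁ X hX K Z δ₁ (D / δ₁) hK hKX hZX p1 a₁ ha₁ u hu)
  have b2 := (hsub (fun m => ‖SS (u * m) a₂ Z δ₂ (D / δ₁ / δ₂)‖ ^ 4)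
    (fun m => by (clear * -; positivity))).trans
    (h₁ X hX K Z δ₂ (D / δ₁ / δ₂) hK hKX hZX p2 a₂ ha₂ u hu)
  have b3 := h₂ r hr X hX K M δ₃ q hK hKX p3 pq x hx hxX hxM s₁ hs₁ hs₁' u hu
  have b4 := h₂ r hr X hX K M q 1 hK hKX pq one_pos x hx hxX hxM s₂ hs₂ hs₂' u hu
  have hw : ∀ m ∈ (Osf K).filter (fun m : ℕ => u * m ≠ 1),
      ((m : ℝ) ^ (-(1 / 2) : ℝ)) ^ 2 = 1 / m := by
    intro m hm
    have hm1 : 1 ≤ m := by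
      simp only [Osf, Finset.mem_filter, Finset.mem_Icc] at hm
      exact hm.1.1.1
    have hm0 : (0 : ℝ) ≤ m := Nat.cast_nonneg m
    rw [← Real.rpow_natCast, ← Real.rpow_mul hm0]
    norm_num
    rw [Real.rpow_neg_one]
  have b3' : ∑ m ∈ (Osf K).filter (fun m : ℕ => u * m ≠ 1), ((m : ℝ) ^ (-(1 / 2) : ℝ)) ^ 2 *
      ‖SS (u * m) (an r s₁ x) M δ₃ q‖ ^ 4 ≤
      C₂ * X ^ ε * ((q * r).divisors.card : ℝ) ^ 4 * (1 + ‖s₁‖) ^ B / (δ₃ : ℝ) ^ 2 := by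
    refine le_trans (le_of_eq ?_) b3
    refine Finset.sum_congr rfl fun m hm => ?_
    rw [hw m hm]
    ring
  have b4' : ∑ m ∈ (Osf K).filter (fun m : ℕ => u * m ≠ 1), ((m : ℝ) ^ (-(1 / 2) : ℝ)) ^ 2 *
      ‖SS (u * m) (an r s₂ x) M q 1‖ ^ 4 ≤
      C₂ * X ^ ε * ((1 * r).divisors.card : ℝ) ^ 4 * (1 + ‖s₂‖) ^ B / (q : ℝ) ^ 2 := by
    refine le_trans (le_of_eq ?_) b4
    refine Finset.sum_congr rfl fun m hm => ?_
    rw [hw m hm]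
    ring
  have hmain := sumkU_holder ((Osf K).filter (fun m : ℕ => u * m ≠ 1))
    (fun m => (m : ℝ) ^ (-(1 / 2) : ℝ)) (fun m => ‖SS (u * m) a₁ Z δ₁ (D / δ₁)‖)
    (fun m => ‖SS (u * m) a₂ Z δ₂ (D / δ₁ / δ₂)‖)
    (fun m => ‖SS (u * m) (an r s₁ x) M δ₃ q‖) (fun m => ‖SS (u * m) (an r s₂ x) M q 1‖)
    _ _ _ _ b1 b2 b3' b4'
  have hXp : (0 : ℝ) < X ^ ε := Real.rpow_pos_of_pos (by linarith only [hX]) _
  have hMx : 0 < max C₁ C₂ := lt_max_of_lt_left hC₁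
  have hR0 : 0 ≤ max C₁ C₂ * X ^ ε * ((1 + ‖s₁‖) * (1 + ‖s₂‖)) ^ B * √((K : ℝ) + (Z : ℝ) ^ 2) *
        ((q * r).divisors.card : ℝ) * (r.divisors.card : ℝ) / √(D : ℝ) := by
    refine div_nonneg (mul_nonneg (mul_nonneg (mul_nonneg (mul_nonneg (mul_nonneg hMx.le hXp.le) ?_)
      (Real.sqrt_nonneg _)) (Nat.cast_nonneg _)) (Nat.cast_nonneg _)) (Real.sqrt_nonneg _)
    exact pow_nonneg (mul_nonneg (by linarith only [norm_nonneg s₁]) (by linarith only [norm_nonneg s₂])) _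
  refine le_of_pow_le_pow_left₀ (n := 4) (by norm_num) hR0 ?_
  refine hmain.trans ?_
  clear hR0 hmain b1 b2 b3 b4 b3' b4' hsub hw h₁ h₂ hKX hZX hMX ha₁ ha₂ e1 e2 e3 hs₁ hs₁' hs₂ hs₂' hu hxX hxM
  set E : ℝ := X ^ ε with hE
  set T : ℝ := (K : ℝ) + (Z : ℝ) ^ 2 with hT
  have hT0 : 0 ≤ T := by rw [hT]; (clear * - hK; positivity)
  set G₁ : ℝ := ((q * r).divisors.card : ℝ) with hG₁
  set G₂ : ℝ := (r.divisors.card : ℝ) with hG₂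
  have hG₂' : ((1 * r).divisors.card : ℝ) = G₂ := by rw [one_mul]
  rw [hG₂']
  set v₁ : ℝ := 1 + ‖s₁‖ with hv₁
  set v₂ : ℝ := 1 + ‖s₂‖ with hv₂
  have hv₁1 : 1 ≤ v₁ := by rw [hv₁]; linarith only [norm_nonneg s₁]
  have hv₂1 : 1 ≤ v₂ := by rw [hv₂]; linarith only [norm_nonneg s₂]
  have hDr : (D : ℝ) = δ₁ * (δ₂ * (δ₃ * q)) := by
    rw [hDq]; push_cast; ring
  have hD0 : (0 : ℝ) < D := by exact_mod_cast hD
  clear_value q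
  clear hDq hq
  have hG₁0 : 0 ≤ G₁ := Nat.cast_nonneg _
  have hG₂0 : 0 ≤ G₂ := Nat.cast_nonneg _
  have q1 : (0 : ℝ) < δ₁ := by exact_mod_cast p1
  have q2 : (0 : ℝ) < δ₂ := by exact_mod_cast p2
  have q3 : (0 : ℝ) < δ₃ := by exact_mod_cast p3
  have q4 : (0 : ℝ) < q := by exact_mod_cast pq
  have hsT : √T ^ 4 = T ^ 2 := by
    calc √T ^ 4 = (√T ^ 2) ^ 2 := by ring
      _ = T ^ 2 := by rw [Real.sq_sqrt hT0]
  have hsD : √(D : ℝ) ^ 4 = (D : ℝ) ^ 2 := by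
    calc √(D : ℝ) ^ 4 = (√(D : ℝ) ^ 2) ^ 2 := by ring
      _ = (D : ℝ) ^ 2 := by rw [Real.sq_sqrt (by positivity)]
  have hrhs : (max C₁ C₂ * E * (v₁ * v₂) ^ B * √T * G₁ * G₂ / √(D : ℝ)) ^ 4 =
      (max C₁ C₂) ^ 4 * ((v₁ * v₂) ^ B) ^ 4 * (E ^ 4 * T ^ 2 * G₁ ^ 4 * G₂ ^ 4 / (D : ℝ) ^ 2) := by
    rw [div_pow, mul_pow, mul_pow, mul_pow, mul_pow, mul_pow, hsT, hsD]
    ring
  have hlhs : C₁ * E * T / (δ₁ : ℝ) ^ 2 * (C₁ * E * T / (δ₂ : ℝ) ^ 2) *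
      (C₂ * E * G₁ ^ 4 * v₁ ^ B / (δ₃ : ℝ) ^ 2) * (C₂ * E * G₂ ^ 4 * v₂ ^ B / (q : ℝ) ^ 2) =
      (C₁ ^ 2 * C₂ ^ 2) * (v₁ * v₂) ^ B * (E ^ 4 * T ^ 2 * G₁ ^ 4 * G₂ ^ 4 / (D : ℝ) ^ 2) := by
    rw [hDr, mul_pow v₁ v₂]
    field_simp
  rw [hrhs, hlhs]
  have hv : (1 : ℝ) ≤ (v₁ * v₂) ^ B := one_le_pow₀ (one_le_mul_of_one_le_of_one_le hv₁1 hv₂1)
  have hv4 : (v₁ * v₂) ^ B ≤ ((v₁ * v₂) ^ B) ^ 4 := by
    calc (v₁ * v₂) ^ B = ((v₁ * v₂) ^ B) ^ 1 := by ring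
      _ ≤ ((v₁ * v₂) ^ B) ^ 4 := pow_le_pow_right₀ hv (by norm_num)
  have hC : C₁ ^ 2 * C₂ ^ 2 ≤ (max C₁ C₂) ^ 4 := by
    calc C₁ ^ 2 * C₂ ^ 2 ≤ (max C₁ C₂) ^ 2 * (max C₁ C₂) ^ 2 := by
          gcongr
          · exact le_max_left _ _
          · exact le_max_right _ _
      _ = _ := by ring
  have h0 : 0 ≤ E ^ 4 * T ^ 2 * G₁ ^ 4 * G₂ ^ 4 / (D : ℝ) ^ 2 := by (clear * - hX hK hD; positivity)
  (clear * - hC hv4 hC₁ hX hK hD; gcongr)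

private lemma sumkU_log (ε : ℝ) (hε : 0 < ε) (X : ℝ) (hX : 2 ≤ X) (N : ℕ) (hN : (N : ℝ) ≤ X ^ 8) :
    1 + Real.log N ≤ (1 + 8 / ε) * X ^ ε := by
  have hX1 : (1 : ℝ) ≤ X ^ ε := Real.one_le_rpow (by linarith) hε.le
  have h1 : Real.log N ≤ 8 * Real.log X := by
    rcases Nat.eq_zero_or_pos N with h | h
    · rw [h]
      simp
      exact Real.log_nonneg (by linarith)
    · calc Real.log N ≤ Real.log (X ^ 8) := Real.log_le_log (by exact_mod_cast h) hN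
        _ = 8 * Real.log X := by rw [Real.log_pow]; norm_num
  have h2 : Real.log X ≤ X ^ ε / ε := Real.log_le_rpow_div (by linarith) hε
  calc 1 + Real.log N ≤ X ^ ε + 8 * (X ^ ε / ε) := by linarith only [hX1, h1, h2]
    _ = (1 + 8 / ε) * X ^ ε := by ring

private lemma sumkU_sf (u : ℤ) (hu : u = 1 ∨ u = -1 ∨ u = 2 ∨ u = -2) (m : ℕ) (hm : Odd m)
    (hmsf : Squarefree m) : Squarefree (u * (m : ℤ)) := by
  have h1 : Squarefree (m : ℤ) := Int.squarefree_natCast.mpr hmsf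
  have h2 : Squarefree (2 * (m : ℤ)) := by
    have : Squarefree (2 * m) := by
      rw [Nat.squarefree_mul (Nat.coprime_two_left.mpr hm)]
      exact ⟨Nat.prime_two.squarefree, hmsf⟩
    have h3 := Int.squarefree_natCast.mpr this
    push_cast at h3
    exact h3
  rcases hu with h | h | h | h
  · rw [h, one_mul]; exact h1
  · rw [h, neg_one_mul]
    rw [← Int.squarefree_natAbs, Int.natAbs_neg, Int.squarefree_natAbs]
    exact h1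
  · rw [h]; exact h2
  · rw [h]
    have : (-2 : ℤ) * m = -(2 * m) := by ring
    rw [this]
    rw [← Int.squarefree_natAbs, Int.natAbs_neg, Int.squarefree_natAbs]
    exact h2

private lemma sumkU_swap_card {ι κ : Type*} (S : Finset ι) (A : Finset κ) (c : ι → ℝ)
    (F : κ → ι → ℝ) (V b : ℝ) (hb : 0 ≤ b) (hA : (A.card : ℝ) ≤ V)
    (h : ∀ a ∈ A, ∑ m ∈ S, c m * F a m ≤ b) : ∑ m ∈ S, c m * ∑ a ∈ A, F a m ≤ V * b :=
  (sumkU_swap S A c F (fun _ => b) h).trans (sumkU_card A (fun _ => b) V b hb hA fun _ _ => le_rfl)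

private lemma sumkU_T4 [QlsHyp] (ε : ℝ) (hε : 0 < ε) : ∃ (C : ℝ) (B : ℕ), 0 < C ∧
    ∀ r : ℕ, Odd r → ∀ X : ℝ, 2 ≤ X → ∀ K₀ K Z M : ℕ, 1 ≤ K → K ≤ K₀ → (K : ℝ) ≤ X ^ 4 →
    (Z : ℝ) ≤ X ^ 4 → (M : ℝ) ≤ X ^ 4 → ∀ x : ℝ, 0 < x → 2 * x ≤ M →
    ∀ a₁ a₂ : ℕ → ℂ, (∀ n : ℕ, 1 ≤ n → ‖a₁ n‖ ≤ 1 / √(n : ℝ)) →
    (∀ n : ℕ, 1 ≤ n → ‖a₂ n‖ ≤ 1 / √(n : ℝ)) → (∀ n, a₁ n ≠ 0 → Odd n) →
    (∀ n, a₂ n ≠ 0 → Odd n) →
    ∀ s₁ s₂ : ℂ, 0 ≤ s₁.re → s₁.re ≤ 1 → 0 ≤ s₂.re → s₂.re ≤ 1 →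
    ∀ u : ℤ, (u = 1 ∨ u = -1 ∨ u = 2 ∨ u = -2) → ∀ V L : ℝ, 0 ≤ V →
    1 + Real.log ((Z * M : ℕ) : ℝ) ≤ L → ∀ f : ℕ, 0 < f → (f : ℝ) ^ 2 ≤ X ^ 4 → (r : ℝ) ≤ X →
    (∀ n : ℕ, 0 < n → (n : ℝ) ≤ X ^ 21 → (n.divisors.card : ℝ) ≤ V) →
    ∑ m ∈ (Osf K).filter (fun m : ℕ => u * m ≠ 1), (m : ℝ) ^ (-(1 / 2) : ℝ) *
      ‖T4 (u * m * (f : ℤ) ^ 2) Z M a₁ a₂ (an r s₁ x) (an r s₂ x)‖ ≤
      V ^ 7 * L * (C * X ^ ε * ((1 + ‖s₁‖) * (1 + ‖s₂‖)) ^ B * (√(K₀ : ℝ) + Z)) := by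
  obtain ⟨C₀, B, hC₀, hin⟩ := sumkU_inner ε hε
  refine ⟨C₀, B, hC₀, ?_⟩
  intro r hr X hX K₀ K Z M hK hKK hKX hZX hMX x hx hxM a₁ a₂ ha₁ ha₂ ha₁' ha₂' s₁ s₂ hs₁ hs₁' hs₂ hs₂'
    u hu V L hV hL f hf hfX hrX hVn
  have hX0 : (0 : ℝ) < X := by linarith only [hX]
  have hX1 : (1 : ℝ) ≤ X := by linarith only [hX]
  have hr0 : 0 < r := hr.pos
  set P : ℝ := C₀ * X ^ ε * ((1 + ‖s₁‖) * (1 + ‖s₂‖)) ^ B * (√(K₀ : ℝ) + Z) with hP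
  have hW0 : 0 ≤ C₀ * X ^ ε * ((1 + ‖s₁‖) * (1 + ‖s₂‖)) ^ B := by (clear * - hC₀ hX; positivity)
  have hP0 : 0 ≤ P := by (clear * - hC₀ hX; positivity)
  have hPle : C₀ * X ^ ε * ((1 + ‖s₁‖) * (1 + ‖s₂‖)) ^ B * √((K : ℝ) + (Z : ℝ) ^ 2) ≤ P := by
    refine mul_le_mul_of_nonneg_left ?_ hW0
    have h1 : √((K : ℝ) + (Z : ℝ) ^ 2) ≤ √(K : ℝ) + Z := by
      rw [Real.sqrt_le_left (by positivity)]
      have h3 : √(K : ℝ) ^ 2 = K := Real.sq_sqrt (Nat.cast_nonneg K)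
      have h4 : 0 ≤ √(K : ℝ) * Z := by (clear * - hK; positivity)
      nlinarith only [h3, h4]
    have h2 : √(K : ℝ) ≤ √(K₀ : ℝ) := Real.sqrt_le_sqrt (by exact_mod_cast hKK)
    linarith only [h1, h2]
  have hL0 : 0 ≤ L := by
    have := Real.log_natCast_nonneg (Z * M)
    linarith
  have hodd : ∀ (s : ℂ) (n : ℕ), an r s x n ≠ 0 → Odd n := by
    intro s n hn
    unfold an at hn
    split_ifs at hn with hc
    · have : Nat.Coprime n 2 := Nat.Coprime.coprime_mul_right_right hc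
      exact (Nat.coprime_two_right.mp this)
    · exact absurd rfl hn
  have hT : ∀ m ∈ (Osf K).filter (fun m : ℕ => u * m ≠ 1),
      (m : ℝ) ^ (-(1 / 2) : ℝ) *
        ‖T4 (u * m * (f : ℤ) ^ 2) Z M a₁ a₂ (an r s₁ x) (an r s₂ x)‖ ≤
      (m : ℝ) ^ (-(1 / 2) : ℝ) * _ := fun m hm =>
    mul_le_mul_of_nonneg_left (T4_le (u * m) (by
      simp only [Osf, Finset.mem_filter, Finset.mem_Icc] at hm
      exact sumkU_sf u hu m hm.1.2.1 hm.1.2.2) f Z M hf a₁ a₂ (an r s₁ x) (an r s₂ x)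
      ha₁' ha₂' (hodd s₁) (hodd s₂)) (Real.rpow_nonneg (Nat.cast_nonneg _) _)
  refine (Finset.sum_le_sum hT).trans ?_
  have hfinal : V ^ 7 * L * P = V * (V * (L * (V ^ 5 * P))) := by ring
  rw [hfinal]
  have hfV : (f.divisors.card : ℝ) ≤ V := by
    refine hVn f hf ?_
    have h1 : (1 : ℝ) ≤ f := by exact_mod_cast hf
    calc (f : ℝ) ≤ (f : ℝ) ^ 2 := by nlinarith only [h1]
      _ ≤ X ^ 4 := hfX
      _ ≤ X ^ 21 := pow_le_pow_right₀ hX1 (by norm_num)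
  refine sumkU_swap_card _ f.divisors _ _ V (V * (L * (V ^ 5 * P))) (by (clear * - hV hL0 hC₀ hX; positivity)) hfV ?_
  intro a ha
  have had : a ∣ f := Nat.dvd_of_mem_divisors ha
  have ha0 : 0 < a := Nat.pos_of_mem_divisors ha
  have hfa0 : 0 < f / a := Nat.div_pos (Nat.le_of_dvd hf had) ha0
  have hfaV : ((f / a).divisors.card : ℝ) ≤ V := by
    refine le_trans ?_ hfV
    exact_mod_cast Finset.card_le_card (Nat.divisors_subset_of_dvd hf.ne' (Nat.div_dvd_of_dvd had))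
  refine sumkU_swap_card _ (f / a).divisors _ _ V (L * (V ^ 5 * P)) (by (clear * - hL0 hV hC₀ hX; positivity)) hfaV ?_
  intro b hb
  have hbd : b ∣ f / a := Nat.dvd_of_mem_divisors hb
  have hb0 : 0 < b := Nat.pos_of_mem_divisors hb
  have habf : a * b ≤ f := by
    have : a * b ∣ f := by
      obtain ⟨c, hc⟩ := hbd
      refine ⟨c, ?_⟩
      rw [mul_assoc, ← hc, Nat.mul_div_cancel' had]
    exact Nat.le_of_dvd hf this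
  refine (sumkU_swap _ (Icc 1 (Z * M)) _ _ (fun g => ((g : ℝ))⁻¹ * (V ^ 5 * P)) ?_).trans ?_
  · intro g hg
    have hg1 : 1 ≤ g := (Finset.mem_Icc.mp hg).1
    have hg2 : g ≤ Z * M := (Finset.mem_Icc.mp hg).2
    have hD0 : 0 < g ^ 2 * (a * b ^ 2) := by positivity
    have hDX : ((g ^ 2 * (a * b ^ 2) : ℕ) : ℝ) ≤ X ^ 20 := by
      have h1 : (g : ℝ) ≤ X ^ 8 := by
        calc (g : ℝ) ≤ ((Z * M : ℕ) : ℝ) := by exact_mod_cast hg2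
          _ = (Z : ℝ) * M := by push_cast; ring
          _ ≤ X ^ 4 * X ^ 4 := by (clear * - hZX hMX hX; gcongr)
          _ = X ^ 8 := by ring
      have h2 : (a * b ^ 2 : ℕ) ≤ f ^ 2 := by
        have hbf : b ≤ f := le_trans (Nat.le_mul_of_pos_left b ha0) habf
        calc a * b ^ 2 = (a * b) * b := by ring
          _ ≤ f * f := Nat.mul_le_mul habf hbf
          _ = f ^ 2 := by ring
      have h3 : ((a * b ^ 2 : ℕ) : ℝ) ≤ X ^ 4 := by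
        refine le_trans ?_ hfX
        exact_mod_cast h2
      calc ((g ^ 2 * (a * b ^ 2) : ℕ) : ℝ) = (g : ℝ) ^ 2 * ((a * b ^ 2 : ℕ) : ℝ) := by
            push_cast; ring
        _ ≤ (X ^ 8) ^ 2 * X ^ 4 := by (clear * - hg1 h1 h3 ha0 hb0 hX; gcongr)
        _ = X ^ 20 := by ring
    set D : ℕ := g ^ 2 * (a * b ^ 2) with hD
    have hDrX : ((D * r : ℕ) : ℝ) ≤ X ^ 21 := by
      calc ((D * r : ℕ) : ℝ) = (D : ℝ) * r := by push_cast; ring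
        _ ≤ X ^ 20 * X := by (clear * - hDX hrX hr0 hX; gcongr)
        _ = X ^ 21 := by ring
    have hDr0 : 0 < D * r := Nat.mul_pos hD0 hr0
    have hDrV : ((D * r).divisors.card : ℝ) ≤ V := hVn _ hDr0 hDrX
    have hdvdV : ∀ n : ℕ, n ∣ D * r → (n.divisors.card : ℝ) ≤ V := by
      intro n hn
      refine le_trans ?_ hDrV
      exact_mod_cast Finset.card_le_card (Nat.divisors_subset_of_dvd hDr0.ne' hn)
    have hsD : 0 < √(D : ℝ) := Real.sqrt_pos.mpr (by exact_mod_cast hD0)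
    have hgoal : (b : ℝ) * (V * (V * (V * (P * V * V / √(D : ℝ))))) ≤
        ((g : ℝ))⁻¹ * (V ^ 5 * P) := by
      have h1 : (b : ℝ) / √(D : ℝ) ≤ ((g : ℝ))⁻¹ := by
        have hg0 : (0 : ℝ) < g := by exact_mod_cast hg1
        have h2 : (g : ℝ) * b ≤ √(D : ℝ) := by
          refine Real.le_sqrt_of_sq_le ?_
          have h3 : (g * b) ^ 2 ≤ D := by
            rw [hD, mul_pow]
            exact Nat.mul_le_mul_left _ (Nat.le_mul_of_pos_left _ ha0)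
          exact_mod_cast h3
        rw [div_le_iff₀ hsD, inv_mul_eq_div, le_div_iff₀ hg0]
        linarith only [h2]
      calc (b : ℝ) * (V * (V * (V * (P * V * V / √(D : ℝ))))) =
          (b : ℝ) / √(D : ℝ) * (V ^ 5 * P) := by ring
        _ ≤ ((g : ℝ))⁻¹ * (V ^ 5 * P) := by (clear * - h1 hV hC₀ hX; gcongr)
    refine le_trans ?_ hgoal
    have hpull : ∀ (S : Finset ℕ) (c F : ℕ → ℝ), ∑ m ∈ S, c m * ((b : ℝ) * F m) =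
        (b : ℝ) * ∑ m ∈ S, c m * F m := by
      intro S c F
      rw [Finset.mul_sum]
      exact Finset.sum_congr rfl fun m _ => by ring
    rw [hpull]
    refine mul_le_mul_of_nonneg_left ?_ (Nat.cast_nonneg b)
    have hR0 : 0 ≤ P * V * V / √(D : ℝ) := by (clear * - hC₀ hX hV hg1 ha0 hb0; positivity)
    refine sumkU_swap_card _ D.divisors _ _ V _ (by (clear * - hV hC₀ hX hg1 ha0 hb0; positivity))
      (hdvdV D (Dvd.intro r rfl)) ?_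
    intro δ₁ hδ₁
    have hd1 : δ₁ ∣ D := Nat.dvd_of_mem_divisors hδ₁
    have hd1' : D / δ₁ ∣ D := Nat.div_dvd_of_dvd hd1
    refine sumkU_swap_card _ (D / δ₁).divisors _ _ V _ (by (clear * - hV hC₀ hX hg1 ha0 hb0; positivity))
      (hdvdV _ (hd1'.trans (Dvd.intro r rfl))) ?_
    intro δ₂ hδ₂
    have hd2 : δ₂ ∣ D / δ₁ := Nat.dvd_of_mem_divisors hδ₂
    have hd2' : D / δ₁ / δ₂ ∣ D := (Nat.div_dvd_of_dvd hd2).trans hd1'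
    refine sumkU_swap_card _ (D / δ₁ / δ₂).divisors _ _ V _ (by (clear * - hC₀ hX hV hg1 ha0 hb0; positivity))
      (hdvdV _ (hd2'.trans (Dvd.intro r rfl))) ?_
    intro δ₃ hδ₃
    have hd3 : δ₃ ∣ D / δ₁ / δ₂ := Nat.dvd_of_mem_divisors hδ₃
    have hd3' : D / δ₁ / δ₂ / δ₃ ∣ D := (Nat.div_dvd_of_dvd hd3).trans hd2'
    refine (hin r hr X hX K Z M hK hKX hZX hMX x hx hxM a₁ a₂ ha₁ ha₂ s₁ s₂ hs₁ hs₁' hs₂ hs₂' u hu
      D δ₁ δ₂ δ₃ hD0 hδ₁ hδ₂ hδ₃).trans ?_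
    refine div_le_div_of_nonneg_right ?_ hsD.le
    have hq1 : ((D / δ₁ / δ₂ / δ₃ * r).divisors.card : ℝ) ≤ V :=
      hdvdV _ (Nat.mul_dvd_mul_right hd3' r)
    have hq2 : (r.divisors.card : ℝ) ≤ V := hdvdV _ (Dvd.intro_left D rfl)
    exact mul_le_mul (mul_le_mul hPle hq1 (Nat.cast_nonneg _) hP0) hq2 (Nat.cast_nonneg _)
      (mul_nonneg hP0 hV)
  · rw [← Finset.sum_mul]
    refine mul_le_mul_of_nonneg_right ?_ (by (clear * - hV hC₀ hX; positivity))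
    exact (sumkU_harm (Z * M)).trans hL

theorem p_sumkU : D_sumkU := by
  intro _ ε hε
  obtain ⟨C₀, B, hC₀, hT⟩ := sumkU_T4 (ε / 4) (by positivity)
  obtain ⟨Cd, hCd, hdiv⟩ := divisor_bound (ε / 588) (by positivity)
  have hCl : 0 < 1 + 8 / (ε / 4) := by positivity
  refine ⟨4 * C₀ * Cd ^ 7 * (1 + 8 / (ε / 4)) ^ 2, B, by positivity, ?_⟩
  intro r hr X hX hrX K Z M hK hKX hZ hZX hMX x hx hxM a₁ a₂ ha₁ ha₂ ha₁' ha₂' s₁ s₂ hs₁ hs₁' hs₂ hs₂'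
  have hX0 : (0 : ℝ) < X := by linarith only [hX]
  have hX1 : (1 : ℝ) ≤ X := by linarith only [hX]
  set V : ℝ := Cd * X ^ (ε / 28) with hV
  have hV0 : 0 ≤ V := by positivity
  have hVn : ∀ n : ℕ, 0 < n → (n : ℝ) ≤ X ^ 21 → (n.divisors.card : ℝ) ≤ V := by
    intro n hn hnX
    refine (hdiv n hn).trans ?_
    refine mul_le_mul_of_nonneg_left ?_ hCd.le
    calc (n : ℝ) ^ (ε / 588) ≤ (X ^ 21) ^ (ε / 588) :=
          Real.rpow_le_rpow (Nat.cast_nonneg n) hnX (by positivity)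
      _ = X ^ (ε / 28) := by
          rw [← Real.rpow_natCast X 21, ← Real.rpow_mul hX0.le]
          congr 1
          push_cast
          ring
  set L : ℝ := (1 + 8 / (ε / 4)) * X ^ (ε / 4) with hL
  have hL1 : 1 + Real.log ((Z * M : ℕ) : ℝ) ≤ L := by
    refine sumkU_log (ε / 4) (by positivity) X hX (Z * M) ?_
    push_cast
    calc (Z : ℝ) * M ≤ X ^ 4 * X ^ 4 := by (clear * - hZX hMX hX; gcongr)
      _ = X ^ 8 := by ring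
  have hL2 : 1 + Real.log (K : ℝ) ≤ L := by
    refine sumkU_log (ε / 4) (by positivity) X hX K ?_
    exact hKX.trans (pow_le_pow_right₀ hX1 (by norm_num))
  set P : ℝ := C₀ * X ^ (ε / 4) * ((1 + ‖s₁‖) * (1 + ‖s₂‖)) ^ B * (√(K : ℝ) + Z) with hP
  have hP0 : 0 ≤ P := by (clear * - hC₀ hX hK hZ; positivity)
  have hL0 : 0 ≤ L := by positivity
  have hdec := sumkU_decomp K
    (fun k => |(k : ℝ)| ^ (-(1 / 2) : ℝ) * ‖T4 k Z M a₁ a₂ (an r s₁ x) (an r s₂ x)‖)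
    (fun k => by (clear * -; positivity)) ((Icc (-(K : ℤ)) K).filter (fun k => ¬ IsSquare k)) (by
      intro k hk
      rw [Finset.mem_filter, Finset.mem_Icc] at hk
      exact ⟨abs_le.mpr hk.1, hk.2⟩)
  refine hdec.trans ?_
  have hper : ∀ u ∈ ({1, -1, 2, -2} : Finset ℤ), ∑ f ∈ (Icc 1 K).filter (fun f => f ^ 2 ≤ K),
      ∑ m ∈ (Osf (K / f ^ 2)).filter (fun m : ℕ => u * m ≠ 1),
        |((u * m * (f : ℤ) ^ 2 : ℤ) : ℝ)| ^ (-(1 / 2) : ℝ) *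
          ‖T4 (u * m * (f : ℤ) ^ 2) Z M a₁ a₂ (an r s₁ x) (an r s₂ x)‖ ≤ L * (V ^ 7 * L * P) := by
    intro u hu
    have hu' : u = 1 ∨ u = -1 ∨ u = 2 ∨ u = -2 := by
      simpa only [Finset.mem_insert, Finset.mem_singleton] using hu
    have hu1 : (1 : ℝ) ≤ |(u : ℝ)| := by
      rcases hu' with h | h | h | h <;> rw [h] <;> norm_num
    have hf1 : ∀ f ∈ (Icc 1 K).filter (fun f => f ^ 2 ≤ K),
        ∑ m ∈ (Osf (K / f ^ 2)).filter (fun m : ℕ => u * m ≠ 1),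
          |((u * m * (f : ℤ) ^ 2 : ℤ) : ℝ)| ^ (-(1 / 2) : ℝ) *
            ‖T4 (u * m * (f : ℤ) ^ 2) Z M a₁ a₂ (an r s₁ x) (an r s₂ x)‖ ≤
          ((f : ℝ))⁻¹ * (V ^ 7 * L * P) := by
      intro f hf
      rw [Finset.mem_filter, Finset.mem_Icc] at hf
      obtain ⟨⟨hf1, hfK⟩, hf2⟩ := hf
      have hf0 : (0 : ℝ) < f := by exact_mod_cast hf1
      have hK'1 : 1 ≤ K / f ^ 2 := Nat.div_pos hf2 (by positivity)
      have hK'K : K / f ^ 2 ≤ K := Nat.div_le_self _ _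
      have hK'X : ((K / f ^ 2 : ℕ) : ℝ) ≤ X ^ 4 := le_trans (by exact_mod_cast hK'K) hKX
      have hfX : (f : ℝ) ^ 2 ≤ X ^ 4 := le_trans (by exact_mod_cast hf2) hKX
      have hmain := hT r hr X hX K (K / f ^ 2) Z M hK'1 hK'K hK'X hZX hMX x hx hxM a₁ a₂ ha₁ ha₂
        ha₁' ha₂' s₁ s₂ hs₁ hs₁' hs₂ hs₂' u hu' V L hV0 hL1 f hf1 hfX hrX hVn
      refine le_trans ?_ (mul_le_mul_of_nonneg_left hmain (inv_nonneg.mpr hf0.le))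
      rw [Finset.mul_sum]
      refine Finset.sum_le_sum fun m hm => ?_
      have hm1 : 1 ≤ m := by
        simp only [Osf, Finset.mem_filter, Finset.mem_Icc] at hm
        exact hm.1.1.1
      have hm0 : (0 : ℝ) < m := by exact_mod_cast hm1
      rw [← mul_assoc]
      refine mul_le_mul_of_nonneg_right ?_ (norm_nonneg _)
      have h1 : (m : ℝ) * (f : ℝ) ^ 2 ≤ |((u * m * (f : ℤ) ^ 2 : ℤ) : ℝ)| := by
        push_cast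
        rw [abs_mul, abs_mul, abs_pow, Nat.abs_cast, Nat.abs_cast]
        have : 0 ≤ (m : ℝ) * (f : ℝ) ^ 2 := by positivity
        nlinarith only [hu1, this]
      calc |((u * m * (f : ℤ) ^ 2 : ℤ) : ℝ)| ^ (-(1 / 2) : ℝ) ≤
          ((m : ℝ) * (f : ℝ) ^ 2) ^ (-(1 / 2) : ℝ) :=
            Real.rpow_le_rpow_of_nonpos (by positivity) h1 (by norm_num)
        _ = (m : ℝ) ^ (-(1 / 2) : ℝ) * ((f : ℝ) ^ 2) ^ (-(1 / 2) : ℝ) :=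
            Real.mul_rpow hm0.le (by positivity)
        _ = ((f : ℝ))⁻¹ * (m : ℝ) ^ (-(1 / 2) : ℝ) := by
            rw [← Real.rpow_natCast (f : ℝ) 2, ← Real.rpow_mul hf0.le]
            norm_num
            rw [Real.rpow_neg_one]
            ring
    refine (Finset.sum_le_sum hf1).trans ?_
    rw [← Finset.sum_mul]
    refine mul_le_mul_of_nonneg_right ?_ (by positivity)
    refine le_trans ?_ ((sumkU_harm K).trans hL2)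
    exact Finset.sum_le_sum_of_subset_of_nonneg (Finset.filter_subset _ _)
      (fun i _ _ => by positivity)
  have hcard : ((({1, -1, 2, -2} : Finset ℤ)).card : ℝ) ≤ 4 := by
    norm_cast
  refine (sumkU_card _ _ 4 (L * (V ^ 7 * L * P)) (by positivity) hcard hper).trans (le_of_eq ?_)
  have e1 : X ^ (ε / 28) = (X ^ (ε / 28)) := rfl
  have e7 : (X ^ (ε / 28)) ^ 7 = X ^ (ε / 4) := by
    rw [← Real.rpow_natCast, ← Real.rpow_mul hX0.le]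
    congr 1
    push_cast
    ring
  have e4 : X ^ (ε / 4) * X ^ (ε / 4) * X ^ (ε / 4) * X ^ (ε / 4) = X ^ ε := by
    rw [← Real.rpow_add hX0, ← Real.rpow_add hX0, ← Real.rpow_add hX0]
    congr 1
    ring
  rw [hP, hL, hV, mul_pow, e7, ← e4]
  ring

end Pool.Agent.MP0016c7.Rz
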