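import Mathlib
import Pool.Agent.Lib.MP_0016c7_nt.PS.Stm

set_option autoImplicit false

/-!
The weights of the shifts.
-/

open Finset MeasureTheory Filter Topology
open scoped Real ContDiff

namespace Pool.Agent.MP0016c7.Rz

/-- `n ↦ 1 / √n` as a monoid homomorphism. -/
private noncomputable def wS_hom : ℕ →* ℝ where
  toFun n := 1 / √(n : ℝ)
  map_one' := by simp
  map_mul' m n := by
    rw [Nat.cast_mul, Real.sqrt_mul (Nat.cast_nonneg m), one_div_mul_one_div]

private theorem wS_hom_apply (n : ℕ) : wS_hom n = 1 / √(n : ℝ) := rfl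

private theorem wS_sqrt_gt {p : ℕ} (hp : p.Prime) : 1 < √(p : ℝ) := by
  rw [Real.lt_sqrt (by norm_num)]
  have := hp.one_lt
  norm_num
  exact_mod_cast this

private theorem wS_lt {p : ℕ} (hp : p.Prime) : 1 / √(p : ℝ) < 1 := by
  have h := wS_sqrt_gt hp
  rw [div_lt_one (by linarith)]
  exact h

private theorem wS_hasSumA (A : Finset ℕ) (hA : ∀ p ∈ A, p.Prime) :
    HasSum (fun n : ℕ => (Nat.factoredNumbers A).indicator (fun n : ℕ => 1 / √(n : ℝ)) n)
      (∏ p ∈ A, (1 - 1 / √(p : ℝ)))⁻¹ := by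
  have h1 := (EulerProduct.summable_and_hasSum_factoredNumbers_prod_filter_prime_geometric
    (f := wS_hom) (fun {p} hp => by
      rw [wS_hom_apply, Real.norm_eq_abs, abs_of_nonneg (by positivity)]
      exact wS_lt hp) A).2
  rw [filter_true_of_mem hA, prod_inv_distrib] at h1
  simp only [wS_hom_apply] at h1
  exact (hasSum_subtype_iff_indicator (f := fun n : ℕ => 1 / √(n : ℝ))
    (s := Nat.factoredNumbers A)).1 h1

private noncomputable def wS_af : ArithmeticFunction ℝ where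
  toFun n := 1 / √(n : ℝ)
  map_zero' := by simp

private theorem wS_af_apply (n : ℕ) : wS_af n = 1 / √(n : ℝ) := rfl

private theorem wS_af_mult : wS_af.IsMultiplicative := by
  refine ⟨by simp [wS_af_apply], ?_⟩
  intro m n _
  rw [wS_af_apply, wS_af_apply, wS_af_apply, Nat.cast_mul, Real.sqrt_mul (Nat.cast_nonneg m),
    one_div_mul_one_div]

private theorem wS_hasSumB (B : Finset ℕ) (hB : ∀ p ∈ B, p.Prime) :
    HasSum (fun b : ℕ => if b ∣ ∏ p ∈ B, p then 1 / √(b : ℝ) else 0)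
      (∏ p ∈ B, (1 + 1 / √(p : ℝ))) := by
  have hsf : Squarefree (∏ p ∈ B, p) := by
    refine Finset.squarefree_prod_of_pairwise_isCoprime (fun p hp q hq hpq ↦ ?_)
      fun p hp ↦ (hB p hp).squarefree
    exact Nat.coprime_iff_isRelPrime.1 ((Nat.coprime_primes (hB p hp) (hB q hq)).2 hpq)
  have h1 := wS_af_mult.prodPrimeFactors_one_add_of_squarefree hsf
  rw [Nat.primeFactors_prod hB] at h1
  simp only [wS_af_apply] at h1
  rw [h1]
  have h2 : ∑ d ∈ (∏ p ∈ B, p).divisors, 1 / √(d : ℝ) =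
      ∑ d ∈ (∏ p ∈ B, p).divisors, (if d ∣ ∏ p ∈ B, p then 1 / √(d : ℝ) else 0) := by
    refine sum_congr rfl fun d hd => ?_
    rw [if_pos (Nat.dvd_of_mem_divisors hd)]
  rw [h2]
  refine hasSum_sum_of_ne_finset_zero ?_
  intro b hb
  refine if_neg ?_
  intro hdv
  exact hb (Nat.mem_divisors.2 ⟨hdv, hsf.ne_zero⟩)

theorem p_wS : D_wS := by
  intro A B hA hB
  have hPA : 0 < ∏ p ∈ A, (1 - 1 / √(p : ℝ)) :=
    prod_pos fun p hp => by linarith [wS_lt (hA p hp)]
  have hPB : 0 < ∏ p ∈ B, (1 + 1 / √(p : ℝ)) :=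
    prod_pos fun p _ => by positivity
  refine ⟨?_, ?_, ?_⟩
  · intro q
    unfold wS
    refine mul_nonneg (div_nonneg hPA.le hPB.le) ?_
    split_ifs
    · positivity
    · exact le_rfl
  · have h1 := wS_hasSumA A hA
    have h2 := wS_hasSumB B hB
    have n1 : ∀ n : ℕ, 0 ≤ (Nat.factoredNumbers A).indicator (fun n : ℕ => 1 / √(n : ℝ)) n :=
      fun n => Set.indicator_nonneg (fun _ _ => by positivity) n
    have n2 : ∀ b : ℕ, 0 ≤ (if b ∣ ∏ p ∈ B, p then 1 / √(b : ℝ) else 0) := by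
      intro b
      split_ifs
      · positivity
      · exact le_rfl
    have h3 := (h1.mul h2 (h1.summable.mul_of_nonneg h2.summable n1 n2)).mul_left
      ((∏ p ∈ A, (1 - 1 / √(p : ℝ))) / (∏ p ∈ B, (1 + 1 / √(p : ℝ))))
    have e : (∏ p ∈ A, (1 - 1 / √(p : ℝ))) / (∏ p ∈ B, (1 + 1 / √(p : ℝ))) *
        ((∏ p ∈ A, (1 - 1 / √(p : ℝ)))⁻¹ * ∏ p ∈ B, (1 + 1 / √(p : ℝ))) = 1 := by
      field_simp
    rw [e] at h3
    refine h3.congr_fun (fun q => ?_)
    unfold wS
    congr 1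
    by_cases hq1 : q.1 ∈ Nat.factoredNumbers A
    · rw [Set.indicator_of_mem hq1]
      by_cases hq2 : q.2 ∣ ∏ p ∈ B, p
      · rw [if_pos ⟨hq1, hq2⟩, if_pos hq2, Nat.cast_mul, Real.sqrt_mul (Nat.cast_nonneg _),
          one_div_mul_one_div]
      · rw [if_neg (fun h => hq2 h.2), if_neg hq2, mul_zero]
    · rw [Set.indicator_of_notMem hq1, if_neg (fun h => hq1 h.1), zero_mul]
  · intro L q hL hq
    have hs : q.1 ∈ Nat.factoredNumbers A ∧ q.2 ∣ ∏ p ∈ B, p := by
      by_contra hcon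
      apply hq
      unfold wS
      rw [if_neg hcon, mul_zero]
    have hB0 : ∏ p ∈ B, p ≠ 0 := prod_ne_zero_iff.2 fun p hp => (hB p hp).ne_zero
    have h1 : 0 ≤ Real.log q.1 := Real.log_natCast_nonneg _
    have h2 : Real.log q.2 ≤ Real.log (∏ p ∈ B, (p : ℝ)) := by
      have h3 : 0 < q.2 := Nat.pos_of_ne_zero (ne_zero_of_dvd_ne_zero hB0 hs.2)
      have h4 : q.2 ≤ ∏ p ∈ B, p := Nat.le_of_dvd (Nat.pos_of_ne_zero hB0) hs.2
      have h5 : (q.2 : ℝ) ≤ ∏ p ∈ B, (p : ℝ) := by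
        rw [← Nat.cast_prod]; exact_mod_cast h4
      exact Real.log_le_log (by exact_mod_cast h3) h5
    unfold sS
    rw [← neg_div]
    exact div_le_div_of_nonneg_right (by linarith) hL.le

end Pool.Agent.MP0016c7.Rz
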