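import Mathlib
import Pool.Agent.Lib.MP_0016c7_nt.PS.Stm
import Pool.Agent.Lib.MP_0016c7_nt.PS.Mert

set_option autoImplicit false

/-!
Prescribed splitting, piece wSl: the shifts are small on average and bounded below.
-/

open Finset MeasureTheory Filter Topology
open scoped Real ContDiff

namespace Pool.Agent.MP0016c7.Rz

private noncomputable def wSl_f (k : ℕ) : ℝ := Real.log k / √(k : ℝ)

private lemma wSl_f_nonneg (k : ℕ) : 0 ≤ wSl_f k :=
  div_nonneg (Real.log_natCast_nonneg k) (Real.sqrt_nonneg _)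

private lemma wSl_f_lim : Tendsto wSl_f atTop (𝓝 0) := by
  have h1 : Tendsto (fun x : ℝ => Real.log x / x ^ (1 / 2 : ℝ)) atTop (𝓝 0) :=
    (isLittleO_log_rpow_atTop (by norm_num : (0 : ℝ) < 1 / 2)).tendsto_div_nhds_zero
  have h2 := h1.comp tendsto_natCast_atTop_atTop
  refine h2.congr fun k => ?_
  simp only [Function.comp_apply, wSl_f, Real.sqrt_eq_rpow]

private lemma wSl_ces : Tendsto (fun n : ℕ => (n : ℝ)⁻¹ * ∑ i ∈ range n, wSl_f i) atTop (𝓝 0) :=
  wSl_f_lim.cesaro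

private lemma wSl_pA {ε : ℤ} {P Q R p : ℕ} (hp : p ∈ setA ε P Q R) :
    p.Prime ∧ (p ∈ P.primeFactors ∨ p = 2) := by
  unfold setA at hp
  rw [Finset.mem_union, Finset.mem_filter] at hp
  rcases hp with h | h
  · exact ⟨Nat.prime_of_mem_primeFactors h.1, Or.inl h.1⟩
  · split_ifs at h with h1
    · rw [Finset.mem_singleton] at h
      subst h
      exact ⟨Nat.prime_two, Or.inr rfl⟩
    · simp at h

private lemma wSl_pB {ε : ℤ} {P Q p : ℕ} (hQ : Q ∣ P) (hP : P ≠ 0) (hp : p ∈ setB ε Q) :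
    p.Prime ∧ (p ∈ P.primeFactors ∨ p = 2) := by
  unfold setB at hp
  rw [Finset.mem_union] at hp
  rcases hp with h | h
  · exact ⟨Nat.prime_of_mem_primeFactors h, Or.inl (Nat.primeFactors_mono hQ hP h)⟩
  · split_ifs at h with h1
    · rw [Finset.mem_singleton] at h
      subst h
      exact ⟨Nat.prime_two, Or.inr rfl⟩
    · simp at h

private lemma wSl_sum {L y : ℝ} {P Q R : ℕ} (hpat : Pat y P Q R) (hyL : y ≤ L) (hL : 2 ≤ L)
    (A : Finset ℕ) (hA : ∀ p ∈ A, p.Prime ∧ (p ∈ P.primeFactors ∨ p = 2)) :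
    ∑ p ∈ A, Real.log p / √(p : ℝ) ≤ ∑ i ∈ range (⌊L⌋₊ + 1), wSl_f i + √L := by
  have hL0 : 0 < L := by linarith
  have hP0 : 0 < P := Nat.pos_of_ne_zero hpat.sf.ne_zero
  have hP1 : (0 : ℝ) < P := by exact_mod_cast hP0
  have hlP : Real.log P ≤ L := by
    have h1 : Real.log P ≤ y := by
      rw [Real.log_le_iff_le_exp hP1]
      exact hpat.le
    linarith
  rw [← Finset.sum_filter_add_sum_filter_not A (fun p : ℕ => (p : ℝ) ≤ L)]
  refine add_le_add ?_ ?_
  · refine Finset.sum_le_sum_of_subset_of_nonneg (f := wSl_f) ?_ (fun i _ _ => wSl_f_nonneg i)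
    intro p hp
    rw [Finset.mem_filter] at hp
    rw [Finset.mem_range]
    have := Nat.le_floor hp.2
    omega
  · have hs : 0 < √L := Real.sqrt_pos.2 hL0
    have h3 : ∀ p ∈ A.filter (fun p : ℕ => ¬ (p : ℝ) ≤ L),
        Real.log p / √(p : ℝ) ≤ Real.log p * (1 / √L) := by
      intro p hp
      rw [Finset.mem_filter] at hp
      rw [mul_one_div]
      exact div_le_div_of_nonneg_left (Real.log_natCast_nonneg p) hs
        (Real.sqrt_le_sqrt (not_le.1 hp.2).le)
    refine (Finset.sum_le_sum h3).trans ?_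
    rw [← Finset.sum_mul]
    have h4 : ∑ p ∈ A.filter (fun p : ℕ => ¬ (p : ℝ) ≤ L), Real.log p ≤ L := by
      refine le_trans (Finset.sum_le_sum_of_subset_of_nonneg ?_
        fun p _ _ => Real.log_natCast_nonneg p) ((sum_log_pf_le hP0).trans hlP)
      intro p hp
      rw [Finset.mem_filter] at hp
      rcases (hA p hp.1).2 with h5 | h5
      · exact h5
      · exfalso
        apply hp.2
        rw [h5]
        exact_mod_cast hL
    have h5 : √L * √L = L := Real.mul_self_sqrt hL0.le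
    calc _ ≤ L * (1 / √L) := mul_le_mul_of_nonneg_right h4 (by positivity)
      _ = √L := by
          rw [mul_one_div, div_eq_iff hs.ne', h5]

private lemma wSl_log {c₀ X y : ℝ} {P Q R : ℕ} (hs : D_size) (hc : 0 < c₀) (hX : 1 < X)
    (hy : y ≤ c₀ * Real.log X) (hpat : Pat y P Q R) (ε : ℤ)
    (hL : Real.log 2 ≤ c₀ * Real.log X) :
    Real.log (∏ p ∈ setB ε Q, (p : ℝ)) ≤ 3 * c₀ * Real.log X := by
  have hP0 : P ≠ 0 := hpat.sf.ne_zero
  have hQ0 : Q ≠ 0 := fun h => hP0 (by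
    have := hpat.hQ
    rw [h] at this
    exact Nat.eq_zero_of_zero_dvd this)
  have hQP : Q ≤ P := Nat.le_of_dvd (Nat.pos_of_ne_zero hP0) hpat.hQ
  have hPX : (P : ℝ) ≤ X ^ (2 * c₀) := (hs c₀ X y P Q R hc hX hy hpat).2.1
  have hX0 : 0 < X := by linarith
  have hprod : (∏ p ∈ Q.primeFactors, (p : ℝ)) ≤ Q := by
    have h1 := Nat.le_of_dvd (Nat.pos_of_ne_zero hQ0) (Nat.prod_primeFactors_dvd Q)
    have h2 : ((∏ p ∈ Q.primeFactors, p : ℕ) : ℝ) ≤ Q := by exact_mod_cast h1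
    rwa [Nat.cast_prod] at h2
  have hpos : 0 < (∏ p ∈ Q.primeFactors, (p : ℝ)) :=
    Finset.prod_pos fun p hp => by
      exact_mod_cast (Nat.prime_of_mem_primeFactors hp).pos
  have h2Q : 2 ∉ Q.primeFactors := by
    intro h
    have h1 : 2 ∣ P := (Nat.dvd_of_mem_primeFactors h).trans hpat.hQ
    have h2 := hpat.odd
    rw [Nat.odd_iff] at h2
    omega
  have hle : (∏ p ∈ setB ε Q, (p : ℝ)) ≤ 2 * ∏ p ∈ Q.primeFactors, (p : ℝ) := by
    unfold setB
    split_ifs with h1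
    · rw [Finset.prod_union (Finset.disjoint_singleton_right.2 h2Q), Finset.prod_singleton]
      push_cast
      linarith
    · rw [Finset.union_empty]
      linarith
  have hpos' : 0 < ∏ p ∈ setB ε Q, (p : ℝ) :=
    Finset.prod_pos fun p hp => by
      exact_mod_cast (wSl_pB hpat.hQ hP0 hp).1.pos
  have h3 : (∏ p ∈ setB ε Q, (p : ℝ)) ≤ 2 * X ^ (2 * c₀) := by
    have : (Q : ℝ) ≤ P := by exact_mod_cast hQP
    linarith
  calc Real.log (∏ p ∈ setB ε Q, (p : ℝ)) ≤ Real.log (2 * X ^ (2 * c₀)) :=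
        Real.log_le_log hpos' h3
    _ = Real.log 2 + 2 * c₀ * Real.log X := by
        rw [Real.log_mul (by norm_num) (Real.rpow_pos_of_pos hX0 _).ne', Real.log_rpow hX0]
    _ ≤ 3 * c₀ * Real.log X := by linarith

theorem p_wSl (hm : D_wSm) (hw : D_wS) (hs : D_size) : D_wSl := by
  intro c₀ X y P Q R h ε
  have hA : ∀ n, ∀ p ∈ setA ε (P n) (Q n) (R n), p.Prime := fun n p hp => (wSl_pA hp).1
  have hB : ∀ n, ∀ p ∈ setB ε (Q n), p.Prime := fun n p hp =>
    (wSl_pB (h.pat n).hQ (h.pat n).sf.ne_zero hp).1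
  have hL : ∀ n, 0 < Real.log (X n) := fun n => Real.log_pos (h.one n)
  have hlogX : Tendsto (fun n => Real.log (X n)) atTop atTop := Real.tendsto_log_atTop.comp h.lim
  refine ⟨?_, hA, hB, ?_⟩
  · have hN : Tendsto (fun n => ⌊Real.log (X n)⌋₊ + 1) atTop atTop :=
      (tendsto_add_atTop_nat 1).comp (tendsto_nat_floor_atTop.comp hlogX)
    have hlim1 : Tendsto (fun n => 16 * (((⌊Real.log (X n)⌋₊ + 1 : ℕ) : ℝ)⁻¹ *
        ∑ i ∈ range (⌊Real.log (X n)⌋₊ + 1), wSl_f i)) atTop (𝓝 0) := by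
      have := (wSl_ces.comp hN).const_mul 16
      rw [mul_zero] at this
      exact this
    have hlim2 : Tendsto (fun n => 8 * (Real.log (X n)) ^ (-(1 / 2) : ℝ)) atTop (𝓝 0) := by
      have := ((tendsto_rpow_neg_atTop (by norm_num : (0 : ℝ) < 1 / 2)).comp hlogX).const_mul 8
      rw [mul_zero] at this
      exact this
    have hlim := hlim1.add hlim2
    rw [add_zero] at hlim
    refine squeeze_zero' (Eventually.of_forall fun n => ?_) ?_ hlim
    · exact tsum_nonneg fun q => mul_nonneg ((hw _ _ (hA n) (hB n)).1 q) (abs_nonneg _)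
    · filter_upwards [hlogX.eventually_ge_atTop 2] with n hn
      have h4 : y n ≤ Real.log (X n) := by
        have := h.le n
        have h5 := h.c1
        have h6 := hL n
        nlinarith
      have h1 := (hm _ _ (hA n) (hB n) (Real.log (X n)) (hL n)).2
      have h2 := wSl_sum (h.pat n) h4 hn (setA ε (P n) (Q n) (R n)) (fun p hp => wSl_pA hp)
      have h3 := wSl_sum (h.pat n) h4 hn (setB ε (Q n))
        (fun p hp => wSl_pB (h.pat n).hQ (h.pat n).sf.ne_zero hp)
      set S := ∑ i ∈ range (⌊Real.log (X n)⌋₊ + 1), wSl_f i with hS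
      have hS0 : 0 ≤ S := Finset.sum_nonneg fun i _ => wSl_f_nonneg i
      have hN1 : ((⌊Real.log (X n)⌋₊ + 1 : ℕ) : ℝ) ≤ 2 * Real.log (X n) := by
        push_cast
        have := Nat.floor_le (show 0 ≤ Real.log (X n) by linarith)
        linarith
      have hN0 : (0 : ℝ) < ((⌊Real.log (X n)⌋₊ + 1 : ℕ) : ℝ) := by positivity
      have h7 : 1 / Real.log (X n) ≤ 2 * ((⌊Real.log (X n)⌋₊ + 1 : ℕ) : ℝ)⁻¹ := by
        rw [← div_eq_mul_inv, div_le_div_iff₀ (hL n) hN0]
        linarith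
      have h8 : 1 / Real.log (X n) * √(Real.log (X n)) = (Real.log (X n)) ^ (-(1 / 2) : ℝ) := by
        rw [Real.sqrt_eq_rpow, one_div, ← Real.rpow_neg_one, ← Real.rpow_add (hL n)]
        norm_num
      calc _ ≤ 4 / Real.log (X n) * ((∑ p ∈ setA ε (P n) (Q n) (R n), Real.log p / √(p : ℝ)) +
            ∑ p ∈ setB ε (Q n), Real.log p / √(p : ℝ)) := h1
        _ ≤ 4 / Real.log (X n) * ((S + √(Real.log (X n))) + (S + √(Real.log (X n)))) := by
            apply mul_le_mul_of_nonneg_left (add_le_add h2 h3)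
            exact div_nonneg (by norm_num) (hL n).le
        _ = 8 * (1 / Real.log (X n)) * S + 8 * (1 / Real.log (X n) * √(Real.log (X n))) := by ring
        _ ≤ 8 * (2 * ((⌊Real.log (X n)⌋₊ + 1 : ℕ) : ℝ)⁻¹) * S +
            8 * (Real.log (X n)) ^ (-(1 / 2) : ℝ) := by
            rw [h8]
            refine add_le_add (mul_le_mul_of_nonneg_right ?_ hS0) le_rfl
            linarith
        _ = 16 * (((⌊Real.log (X n)⌋₊ + 1 : ℕ) : ℝ)⁻¹ * S) +
            8 * (Real.log (X n)) ^ (-(1 / 2) : ℝ) := by ring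
  · have hc0 := h.c0
    have h1 : ∀ᶠ n in atTop, Real.log 2 / c₀ ≤ Real.log (X n) :=
      hlogX.eventually_ge_atTop _
    filter_upwards [h1] with n hn q hq
    have h2 := (hw _ _ (hA n) (hB n)).2.2 (Real.log (X n)) q (hL n) hq
    have h3 : Real.log 2 ≤ c₀ * Real.log (X n) := by
      rw [div_le_iff₀ hc0] at hn
      linarith
    have h4 := wSl_log hs hc0 (h.one n) (h.le n) (h.pat n) ε h3
    have h5 : Real.log (∏ p ∈ setB ε (Q n), (p : ℝ)) / Real.log (X n) ≤ 3 * c₀ := by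
      rw [div_le_iff₀ (hL n)]
      exact h4
    linarith

end Pool.Agent.MP0016c7.Rz
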