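import Mathlib
import Pool.Agent.Lib.MP_0016c7_nt.PS.Stm

set_option autoImplicit false

/-!
MP_0016c7_nt, prescribed splitting: the mean shift (piece wSm).
-/

open Finset MeasureTheory Filter Topology
open scoped Real ContDiff

namespace Pool.Agent.MP0016c7.Rz

private theorem wSm_mul {α β : Type} {f : α → ℝ} {g : β → ℝ} {s t : ℝ} (hf : HasSum f s)
    (hg : HasSum g t) (hf' : ∀ x, 0 ≤ f x) (hg' : ∀ x, 0 ≤ g x) :
    HasSum (fun x : α × β => f x.1 * g x.2) (s * t) :=
  hf.mul hg (hf.summable.mul_of_nonneg hg.summable hf' hg')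

private theorem wSm_a (p : ℕ) (hp : p.Prime) : 0 < 1 / √(p : ℝ) ∧ 1 / √(p : ℝ) ≤ 3 / 4 := by
  have h2 : (2 : ℝ) ≤ p := by exact_mod_cast hp.two_le
  have h3 : (4 / 3 : ℝ) ≤ √(p : ℝ) := by
    apply Real.le_sqrt_of_sq_le
    norm_num
    linarith
  have h4 : (0 : ℝ) < √(p : ℝ) := by linarith
  refine ⟨by positivity, ?_⟩
  rw [div_le_iff₀ h4]
  linarith

private theorem wSm_A (A : Finset ℕ) : (∀ p ∈ A, p.Prime) →
    HasSum (fun n : Nat.factoredNumbers A => 1 / √((n : ℕ) : ℝ)) (∏ p ∈ A, (1 - 1 / √(p : ℝ))⁻¹) ∧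
    HasSum (fun n : Nat.factoredNumbers A => Real.log ((n : ℕ) : ℝ) * (1 / √((n : ℕ) : ℝ)))
      ((∏ p ∈ A, (1 - 1 / √(p : ℝ))⁻¹) *
        ∑ p ∈ A, Real.log p * (1 / √(p : ℝ) * (1 - 1 / √(p : ℝ))⁻¹)) := by
  induction A using Finset.induction_on with
  | empty =>
    intro _
    have h : ∀ f : ℕ → ℝ, HasSum (fun n : Nat.factoredNumbers ∅ => f n) (f 1) := by
      intro f
      have h1 : (1 : ℕ) ∈ Nat.factoredNumbers ∅ := by
        rw [Nat.factoredNumbers_empty]; exact Set.mem_singleton 1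
      have h2 := hasSum_single (f := fun n : Nat.factoredNumbers ∅ => f n)
        (⟨1, h1⟩ : Nat.factoredNumbers ∅) (by
        rintro ⟨n, hn⟩ hne
        exfalso
        apply hne
        have hn' := hn
        rw [Nat.factoredNumbers_empty] at hn'
        exact Subtype.ext hn')
      exact h2
    constructor
    · have h1 := h (fun n => 1 / √(n : ℝ))
      simpa using h1
    · have h1 := h (fun n => Real.log (n : ℝ) * (1 / √(n : ℝ)))
      simpa using h1
  | insert p s hps ih =>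
    intro hA
    have hp : p.Prime := hA p (Finset.mem_insert_self p s)
    obtain ⟨ih1, ih2⟩ := ih fun q hq => hA q (Finset.mem_insert_of_mem hq)
    obtain ⟨ha0, ha1⟩ := wSm_a p hp
    set a : ℝ := 1 / √(p : ℝ) with ha
    have hp0 : (0 : ℝ) < p := by exact_mod_cast hp.pos
    have hg : HasSum (fun e : ℕ => a ^ e) (1 - a)⁻¹ :=
      hasSum_geometric_of_lt_one ha0.le (by linarith)
    have hg2 : HasSum (fun e : ℕ => (e : ℝ) * a ^ e) (a / (1 - a) ^ 2) :=
      hasSum_coe_mul_geometric_of_norm_lt_one (by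
        rw [Real.norm_of_nonneg ha0.le]; linarith)
    have hlogp : 0 ≤ Real.log p := Real.log_natCast_nonneg p
    have hval : ∀ x : ℕ × Nat.factoredNumbers s,
        1 / √(((Nat.equivProdNatFactoredNumbers hp hps x : Nat.factoredNumbers (insert p s)) : ℕ) : ℝ) =
          a ^ x.1 * (1 / √((x.2 : ℕ) : ℝ)) := by
      rintro ⟨e, m⟩
      rw [Nat.equivProdNatFactoredNumbers_apply']
      push_cast
      rw [Real.sqrt_mul (by positivity), ha, Real.sqrt_eq_rpow, ← Real.rpow_natCast,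
        ← Real.rpow_mul hp0.le, Real.sqrt_eq_rpow ((p : ℕ) : ℝ), div_pow, one_pow,
        ← Real.rpow_natCast ((p : ℝ) ^ (1 / 2 : ℝ)), ← Real.rpow_mul hp0.le]
      rw [mul_comm (1 / 2 : ℝ)]
      field_simp
    have hlog : ∀ x : ℕ × Nat.factoredNumbers s,
        Real.log (((Nat.equivProdNatFactoredNumbers hp hps x :
          Nat.factoredNumbers (insert p s)) : ℕ) : ℝ) =
          x.1 * Real.log p + Real.log ((x.2 : ℕ) : ℝ) := by
      rintro ⟨e, m⟩
      rw [Nat.equivProdNatFactoredNumbers_apply']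
      have hm : (((m : ℕ) : ℝ)) ≠ 0 := by
        have := Nat.ne_zero_of_mem_factoredNumbers m.2
        exact_mod_cast this
      push_cast
      rw [Real.log_mul (by positivity) hm, Real.log_pow]
    have hnn : ∀ m : Nat.factoredNumbers s, 0 ≤ 1 / √((m : ℕ) : ℝ) := fun m => by positivity
    have hnl : ∀ m : Nat.factoredNumbers s, 0 ≤ Real.log ((m : ℕ) : ℝ) * (1 / √((m : ℕ) : ℝ)) :=
      fun m => mul_nonneg (Real.log_natCast_nonneg _) (by positivity)
    have h1 := wSm_mul hg ih1 (fun e => by positivity) hnn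
    have h2 := wSm_mul hg2 ih1 (fun e => by positivity) hnn
    have h3 := wSm_mul hg ih2 (fun e => by positivity) hnl
    constructor
    · rw [← (Nat.equivProdNatFactoredNumbers hp hps).hasSum_iff, Finset.prod_insert hps]
      have hfun : ((fun n : Nat.factoredNumbers (insert p s) => 1 / √((n : ℕ) : ℝ)) ∘
          (Nat.equivProdNatFactoredNumbers hp hps)) =
          fun x : ℕ × Nat.factoredNumbers s => a ^ x.1 * (1 / √((x.2 : ℕ) : ℝ)) := by
        funext x
        exact hval x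
      rw [hfun]
      exact h1
    · rw [← (Nat.equivProdNatFactoredNumbers hp hps).hasSum_iff, Finset.prod_insert hps,
        Finset.sum_insert hps]
      have hfun : ((fun n : Nat.factoredNumbers (insert p s) =>
          Real.log ((n : ℕ) : ℝ) * (1 / √((n : ℕ) : ℝ))) ∘
          (Nat.equivProdNatFactoredNumbers hp hps)) =
          fun x : ℕ × Nat.factoredNumbers s =>
            Real.log p * ((x.1 : ℝ) * a ^ x.1 * (1 / √((x.2 : ℕ) : ℝ))) +
              a ^ x.1 * (Real.log ((x.2 : ℕ) : ℝ) * (1 / √((x.2 : ℕ) : ℝ))) := by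
        funext x
        show Real.log _ * (1 / √_) = _
        rw [hval x, hlog x]
        ring
      rw [hfun]
      have h4 := (h2.mul_left (Real.log p)).add h3
      have h5 : Real.log p * (a / (1 - a) ^ 2 * ∏ p ∈ s, (1 - 1 / √(p : ℝ))⁻¹) +
          (1 - a)⁻¹ * ((∏ p ∈ s, (1 - 1 / √(p : ℝ))⁻¹) *
            ∑ p ∈ s, Real.log p * (1 / √(p : ℝ) * (1 - 1 / √(p : ℝ))⁻¹)) =
          (1 - a)⁻¹ * (∏ p ∈ s, (1 - 1 / √(p : ℝ))⁻¹) * (Real.log p * (a * (1 - a)⁻¹) +
            ∑ p ∈ s, Real.log p * (1 / √(p : ℝ) * (1 - 1 / √(p : ℝ))⁻¹)) := by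
        have : a / (1 - a) ^ 2 = a * ((1 - a)⁻¹ * (1 - a)⁻¹) := by
          rw [div_eq_mul_inv, sq, mul_inv]
        rw [this]
        ring
      rw [h5] at h4
      exact h4

private theorem wSm_div (p N : ℕ) (hp : p.Prime) (hN : Nat.Coprime p N) (g : ℕ → ℝ) :
    ∑ d ∈ (p * N).divisors, g d = ∑ d ∈ N.divisors, g d + ∑ d ∈ N.divisors, g (p * d) := by
  rw [Nat.divisors_mul, Finset.mul_def, Finset.sum_image hN.mul_injOn_divisors,
    Finset.sum_product, hp.divisors, Finset.sum_insert, Finset.sum_singleton]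
  · simp
  · rw [Finset.mem_singleton]
    exact hp.one_lt.ne

private theorem wSm_B (B : Finset ℕ) : (∀ p ∈ B, p.Prime) →
    (∑ b ∈ (∏ p ∈ B, p).divisors, 1 / √(b : ℝ) = ∏ p ∈ B, (1 + 1 / √(p : ℝ))) ∧
    (∑ b ∈ (∏ p ∈ B, p).divisors, Real.log b * (1 / √(b : ℝ)) =
      (∏ p ∈ B, (1 + 1 / √(p : ℝ))) *
        ∑ p ∈ B, Real.log p * (1 / √(p : ℝ) * (1 + 1 / √(p : ℝ))⁻¹)) := by
  induction B using Finset.induction_on with
  | empty =>
    intro _
    simp
  | insert p s hps ih =>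
    intro hA
    have hp : p.Prime := hA p (Finset.mem_insert_self p s)
    obtain ⟨ih1, ih2⟩ := ih fun q hq => hA q (Finset.mem_insert_of_mem hq)
    obtain ⟨ha0, ha1⟩ := wSm_a p hp
    have hcop : Nat.Coprime p (∏ q ∈ s, q) := by
      apply Nat.Coprime.prod_right
      intro q hq
      refine (Nat.coprime_primes hp (hA q (Finset.mem_insert_of_mem hq))).2 ?_
      rintro rfl
      exact hps hq
    have hp0 : (0 : ℝ) < p := by exact_mod_cast hp.pos
    have hval : ∀ b : ℕ, 1 / √((p * b : ℕ) : ℝ) = 1 / √(p : ℝ) * (1 / √(b : ℝ)) := by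
      intro b
      rw [Nat.cast_mul, Real.sqrt_mul hp0.le]
      ring
    rw [Finset.prod_insert hps, Finset.prod_insert hps, Finset.sum_insert hps,
      wSm_div p _ hp hcop, wSm_div p _ hp hcop]
    constructor
    · simp_rw [hval]
      rw [← Finset.mul_sum, ih1]
      ring
    · have h1 : ∑ d ∈ (∏ q ∈ s, q).divisors,
          Real.log ((p * d : ℕ) : ℝ) * (1 / √((p * d : ℕ) : ℝ)) =
          Real.log p * (1 / √(p : ℝ)) * ∑ d ∈ (∏ q ∈ s, q).divisors, 1 / √(d : ℝ) +
          1 / √(p : ℝ) * ∑ d ∈ (∏ q ∈ s, q).divisors, Real.log d * (1 / √(d : ℝ)) := by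
        rw [Finset.mul_sum, Finset.mul_sum, ← Finset.sum_add_distrib]
        refine Finset.sum_congr rfl fun d hd => ?_
        have hd0 : (d : ℝ) ≠ 0 := by
          have := (Nat.pos_of_mem_divisors hd).ne'
          exact_mod_cast this
        rw [hval, Nat.cast_mul, Real.log_mul hp0.ne' hd0]
        ring
      rw [h1, ih1, ih2]
      have h2 : (1 + 1 / √(p : ℝ)) ≠ 0 := by positivity
      field_simp
      ring

open Classical in
theorem p_wSm (h : D_wS) : D_wSm := by
  intro A B hA hB L hL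
  obtain ⟨hA1, hA2⟩ := wSm_A A hA
  obtain ⟨hB1, hB2⟩ := wSm_B B hB
  set ZA : ℝ := ∏ p ∈ A, (1 - 1 / √(p : ℝ))⁻¹ with hZA
  set SA : ℝ := ∑ p ∈ A, Real.log p * (1 / √(p : ℝ) * (1 - 1 / √(p : ℝ))⁻¹) with hSA
  set ZB : ℝ := ∏ p ∈ B, (1 + 1 / √(p : ℝ)) with hZB
  set SB : ℝ := ∑ p ∈ B, Real.log p * (1 / √(p : ℝ) * (1 + 1 / √(p : ℝ))⁻¹) with hSB
  set N : ℕ := ∏ p ∈ B, p with hN
  have hN0 : N ≠ 0 := by
    rw [hN]
    exact Finset.prod_ne_zero_iff.2 fun p hp => (hB p hp).ne_zero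
  -- indicator versions
  have hind : ∀ (g : ℕ → ℝ) (s : ℝ), HasSum (fun n : Nat.factoredNumbers A => g n) s →
      HasSum (fun n : ℕ => if n ∈ Nat.factoredNumbers A then g n else 0) s := by
    intro g s hg
    have h1 := hasSum_subtype_iff_indicator.1 hg
    have h2 : (fun n : ℕ => if n ∈ Nat.factoredNumbers A then g n else 0) =
        Set.indicator (Nat.factoredNumbers A) g := by
      funext n
      by_cases hn : n ∈ Nat.factoredNumbers A
      · rw [if_pos hn, Set.indicator_of_mem hn]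
      · rw [if_neg hn, Set.indicator_of_notMem hn]
    rw [h2]
    exact h1
  have hfin : ∀ (g : ℕ → ℝ), HasSum (fun n : ℕ => if n ∣ N then g n else 0)
      (∑ b ∈ N.divisors, g b) := by
    intro g
    have h1 : HasSum (fun n : ℕ => if n ∣ N then g n else 0)
        (∑ b ∈ N.divisors, (fun n : ℕ => if n ∣ N then g n else 0) b) := by
      apply hasSum_sum_of_ne_finset_zero
      intro b hb
      rw [Nat.mem_divisors] at hb
      rw [if_neg]
      intro h1
      exact hb ⟨h1, hN0⟩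
    have h2 : ∑ b ∈ N.divisors, (fun n : ℕ => if n ∣ N then g n else 0) b =
        ∑ b ∈ N.divisors, g b := by
      refine Finset.sum_congr rfl fun b hb => ?_
      show (if b ∣ N then g b else 0) = g b
      rw [if_pos (Nat.dvd_of_mem_divisors hb)]
    rw [h2] at h1
    exact h1
  have hu1 := hind (fun n => 1 / √(n : ℝ)) _ hA1
  have hu2 := hind (fun n => Real.log n * (1 / √(n : ℝ))) _ hA2
  have hv1 := hfin (fun b => 1 / √(b : ℝ))
  have hv2 := hfin (fun b => Real.log b * (1 / √(b : ℝ)))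
  rw [hB1] at hv1
  rw [hB2] at hv2
  have hn1 : ∀ n : ℕ, 0 ≤ (if n ∈ Nat.factoredNumbers A then 1 / √(n : ℝ) else 0) := by
    intro n
    split_ifs
    · positivity
    · exact le_refl _
  have hn2 : ∀ n : ℕ, 0 ≤ (if n ∈ Nat.factoredNumbers A then
      Real.log n * (1 / √(n : ℝ)) else 0) := by
    intro n
    split_ifs
    · exact mul_nonneg (Real.log_natCast_nonneg n) (by positivity)
    · exact le_refl _
  have hn3 : ∀ n : ℕ, 0 ≤ (if n ∣ N then 1 / √(n : ℝ) else 0) := by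
    intro n
    split_ifs
    · positivity
    · exact le_refl _
  have hn4 : ∀ n : ℕ, 0 ≤ (if n ∣ N then Real.log n * (1 / √(n : ℝ)) else 0) := by
    intro n
    split_ifs
    · exact mul_nonneg (Real.log_natCast_nonneg n) (by positivity)
    · exact le_refl _
  have hm1 := wSm_mul hu2 hv1 hn2 hn3
  have hm2 := wSm_mul hu1 hv2 hn1 hn4
  set c : ℝ := (∏ p ∈ A, (1 - 1 / √(p : ℝ))) / (∏ p ∈ B, (1 + 1 / √(p : ℝ))) with hc
  have hA0 : 0 < ∏ p ∈ A, (1 - 1 / √(p : ℝ)) := by
    apply Finset.prod_pos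
    intro p hp
    obtain ⟨h1, h2⟩ := wSm_a p (hA p hp)
    linarith
  have hB0 : 0 < ZB := by
    rw [hZB]
    apply Finset.prod_pos
    intro p hp
    obtain ⟨h1, h2⟩ := wSm_a p (hB p hp)
    linarith
  have hZA1 : (∏ p ∈ A, (1 - 1 / √(p : ℝ))) * ZA = 1 := by
    rw [hZA, Finset.prod_inv_distrib, mul_inv_cancel₀ hA0.ne']
  have hc0 : 0 < c := div_pos hA0 hB0
  have hcZ : c * (ZA * ZB) = 1 := by
    have : c * (ZA * ZB) = ((∏ p ∈ A, (1 - 1 / √(p : ℝ))) * ZA) * (ZB / ZB) := by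
      rw [hc, ← hZB]; ring
    rw [this, hZA1, div_self hB0.ne', one_mul]
  have hM := (hm1.add hm2).mul_left (c / L)
  have hw : ∀ q : ℕ × ℕ, wS A B q * |sS L q| ≤ c / L *
      ((if q.1 ∈ Nat.factoredNumbers A then Real.log q.1 * (1 / √(q.1 : ℝ)) else 0) *
        (if q.2 ∣ N then 1 / √(q.2 : ℝ) else 0) +
      (if q.1 ∈ Nat.factoredNumbers A then 1 / √(q.1 : ℝ) else 0) *
        (if q.2 ∣ N then Real.log q.2 * (1 / √(q.2 : ℝ)) else 0)) := by
    rintro ⟨n, b⟩
    have hs : |sS L (n, b)| ≤ (Real.log n + Real.log b) / L := by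
      unfold sS
      rw [abs_div, abs_of_pos hL]
      apply div_le_div_of_nonneg_right _ hL.le
      have h1 := Real.log_natCast_nonneg n
      have h2 := Real.log_natCast_nonneg b
      rw [abs_le]
      constructor
      · show -(Real.log n + Real.log b) ≤ Real.log n - Real.log b
        linarith
      · show Real.log n - Real.log b ≤ Real.log n + Real.log b
        linarith
    have hws : wS A B (n, b) = c * ((if n ∈ Nat.factoredNumbers A then 1 / √(n : ℝ) else 0) *
        (if b ∣ N then 1 / √(b : ℝ) else 0)) := by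
      unfold wS
      by_cases h1 : n ∈ Nat.factoredNumbers A
      · by_cases h2 : b ∣ N
        · rw [if_pos h1, if_pos h2, if_pos ⟨h1, h2⟩, Nat.cast_mul,
            Real.sqrt_mul (Nat.cast_nonneg _)]
          show _ = _
          rw [one_div_mul_one_div]
        · rw [if_neg h2, if_neg (fun h3 => h2 h3.2)]
          ring
      · rw [if_neg h1, if_neg (fun h3 => h1 h3.1)]
        ring
    have hw0 : 0 ≤ wS A B (n, b) := by
      rw [hws]
      exact mul_nonneg hc0.le (mul_nonneg (hn1 n) (hn3 b))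
    refine (mul_le_mul_of_nonneg_left hs hw0).trans (le_of_eq ?_)
    rw [hws]
    by_cases h1 : n ∈ Nat.factoredNumbers A
    · by_cases h2 : b ∣ N
      · simp only [if_pos h1, if_pos h2]
        ring
      · simp only [if_neg h2]
        ring
    · simp only [if_neg h1]
      ring
  have hw0 : ∀ q : ℕ × ℕ, 0 ≤ wS A B q * |sS L q| := fun q =>
    mul_nonneg ((h A B hA hB).1 q) (abs_nonneg _)
  have hsum : Summable (fun q => wS A B q * |sS L q|) :=
    Summable.of_nonneg_of_le hw0 hw hM.summable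
  refine ⟨hsum, ?_⟩
  refine (hasSum_le hw hsum.hasSum hM).trans ?_
  have h1 : c / L * (ZA * SA * ZB + ZA * (ZB * SB)) = 1 / L * (SA + SB) := by
    have : c / L * (ZA * SA * ZB + ZA * (ZB * SB)) = (c * (ZA * ZB)) / L * (SA + SB) := by ring
    rw [this, hcZ]
  rw [h1]
  have h2 : SA ≤ 4 * ∑ p ∈ A, Real.log p / √(p : ℝ) := by
    rw [hSA, Finset.mul_sum]
    refine Finset.sum_le_sum fun p hp => ?_
    obtain ⟨h3, h4⟩ := wSm_a p (hA p hp)
    have h5 : (1 - 1 / √(p : ℝ))⁻¹ ≤ 4 := by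
      rw [inv_le_comm₀ (by linarith) (by norm_num)]
      linarith
    have h6 := Real.log_natCast_nonneg p
    calc Real.log p * (1 / √(p : ℝ) * (1 - 1 / √(p : ℝ))⁻¹) ≤
          Real.log p * (1 / √(p : ℝ) * 4) := by gcongr
      _ = 4 * (Real.log p / √(p : ℝ)) := by ring
  have h3 : SB ≤ 4 * ∑ p ∈ B, Real.log p / √(p : ℝ) := by
    rw [hSB, Finset.mul_sum]
    refine Finset.sum_le_sum fun p hp => ?_
    obtain ⟨h3, h4⟩ := wSm_a p (hB p hp)
    have h5 : (1 + 1 / √(p : ℝ))⁻¹ ≤ 4 := by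
      rw [inv_le_comm₀ (by linarith) (by norm_num)]
      linarith
    have h6 := Real.log_natCast_nonneg p
    calc Real.log p * (1 / √(p : ℝ) * (1 + 1 / √(p : ℝ))⁻¹) ≤
          Real.log p * (1 / √(p : ℝ) * 4) := by gcongr
      _ = 4 * (Real.log p / √(p : ℝ)) := by ring
  calc 1 / L * (SA + SB) ≤ 1 / L * (4 * (∑ p ∈ A, Real.log p / √(p : ℝ)) +
        4 * ∑ p ∈ B, Real.log p / √(p : ℝ)) := by gcongr
    _ = _ := by ring

end Pool.Agent.MP0016c7.Rz
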