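import Mathlib
import Pool.Agent.Lib.MP_0016c7_nt.PS.Stm
import Pool.Agent.Lib.MP_0016c7_nt.Rz.Ker4
import Pool.Agent.Lib.MP_0016c7_nt.Rz.KerPhi

set_option autoImplicit false

open Finset MeasureTheory Filter Topology
open scoped Real ContDiff

namespace Pool.Agent.MP0016c7.Rz

theorem p_ybc : D_ybc := by
  intro δ θ hδ ρ h hρ hh c' hc' σ u P X hX
  have hc0 : 0 ≤ c' := by
    rcases hc' with h | h
    · exact h.ge
    · rw [h]; exact zero_le_one
  have hL : 0 < Real.log X := Real.log_pos hX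
  have hd : ∀ d Y, HasDerivAt (yB c' σ u P ρ h X d) (yB c' σ u P (deriv ρ) h X d Y) Y := by
    intro d Y
    exact hasDerivAt_ytil hδ hρ hh c' hc' σ X hX (u * (P ^ 2 * d)) Y
  refine ⟨fun d => ?_, hd, ?_⟩
  · exact continuous_iff_continuousAt.2 fun Y => (hd d Y).continuousAt
  · set I : ℝ := ∫ z : ℝ × ℝ, (kap c' z.1 * Real.exp (2 * z.1)) *
      (|ρ z.2| * Real.exp (2 * Real.log X * (0 - z.2))) ∂(volume.prod volume) with hI
    refine ⟨2 * (∫ x, |h x|) * Real.exp (3 * θ * Real.log X) * I / Gam0 c', fun d Y => ?_⟩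
    have hG := Gam0_pos hc0
    show |ytil c' σ ρ h X (u * (P ^ 2 * d)) Y| ≤ _
    rw [(ytil_eq_kpF hc0 hρ hh hX σ (u * (P ^ 2 * d)) Y).2, abs_div, abs_of_pos hG, div_mul_eq_mul_div]
    apply div_le_div_of_nonneg_right _ hG.le
    have h1 : |∫ z, kpF c' σ ρ h (Real.log X) (u * (P ^ 2 * d)) Y z ∂(volume.prod volume)| ≤
        ∫ z : ℝ × ℝ, 2 * (∫ x, |h x|) * Real.exp (3 * θ * Real.log X) *
          ((kap c' z.1 * Real.exp (2 * z.1)) * (|ρ z.2| * Real.exp (2 * Real.log X * (Y - z.2))))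
          ∂(volume.prod volume) := by
      rw [← Real.norm_eq_abs]
      refine norm_integral_le_of_norm_le ((integrable_kp_majorant hc0 (k := 2) (by norm_num) hρ
        (Real.log X) Y).const_mul _) (ae_of_all _ fun z => ?_)
      rw [Real.norm_eq_abs]
      exact abs_kpF_le hh hL σ _ Y z
    refine h1.trans (le_of_eq ?_)
    rw [integral_const_mul]
    have h2 : ∀ z : ℝ × ℝ, (kap c' z.1 * Real.exp (2 * z.1)) *
        (|ρ z.2| * Real.exp (2 * Real.log X * (Y - z.2))) =
        Real.exp (2 * Real.log X * Y) * ((kap c' z.1 * Real.exp (2 * z.1)) *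
          (|ρ z.2| * Real.exp (2 * Real.log X * (0 - z.2)))) := by
      intro z
      have : Real.exp (2 * Real.log X * (Y - z.2)) =
          Real.exp (2 * Real.log X * Y) * Real.exp (2 * Real.log X * (0 - z.2)) := by
        rw [← Real.exp_add]
        congr 1
        ring
      rw [this]
      ring
    rw [integral_congr_ae (ae_of_all _ h2), integral_const_mul, ← hI]
    ring

end Pool.Agent.MP0016c7.Rz
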