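import Mathlib
import Pool.Agent.Lib.MP_0016c7_nt.PS.Stm
import Pool.Agent.Lib.MP_0016c7_nt.Rz.FtS
import Pool.Agent.Lib.MP_0016c7_nt.Rz.ArithA4
import Pool.Agent.Lib.MP_0016c7_nt.Rz.BBs

set_option autoImplicit false

open Finset MeasureTheory Filter Topology
open scoped Real ContDiff

namespace Pool.Agent.MP0016c7.Rz

/-! ### Arithmetic -/

private lemma zero_gg_abs (k : ℤ) (N : ℕ) (hN : 1 ≤ N) : |gg k N| ≤ N := by
  have h1 := abs_gg_le k N hN
  have hN0 : (0 : ℝ) < N := by exact_mod_cast hN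
  have h2 : (N.divisors.card : ℝ) ≤ N := by exact_mod_cast Nat.card_divisors_le_self N
  have h3 : √((Nat.gcd k.natAbs N : ℝ) / N) ≤ 1 := by
    rw [Real.sqrt_le_one, div_le_one hN0]
    exact_mod_cast Nat.gcd_le_right _ hN
  calc _ ≤ (N.divisors.card : ℝ) * √((Nat.gcd k.natAbs N : ℝ) / N) := h1
    _ ≤ N * 1 := mul_le_mul h2 h3 (Real.sqrt_nonneg _) hN0.le
    _ = N := mul_one _

private lemma zero_abs_jr (k : ℤ) (n : ℕ) : |jr k n| ≤ 1 := by
  unfold jr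
  split_ifs
  · rcases jacobiSym.trichotomy k n with h | h | h <;> rw [h] <;> norm_num
  · norm_num

private lemma zero_jr_four (a : ℤ) (n : ℕ) : jr (4 * a) n = jr a n := by
  unfold jr
  split_ifs with h
  · have h1 : jacobiSym 4 n = 1 := by
      have h2 : (4 : ℤ) = 2 ^ 2 := by norm_num
      rw [h2]
      apply jacobiSym.sq_one'
      rw [← Int.isCoprime_iff_gcd_eq_one]
      have h3 : IsCoprime ((2 : ℕ) : ℤ) (n : ℤ) :=
        Nat.isCoprime_iff_coprime.mpr (Nat.coprime_two_left.mpr h)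
      simpa using h3
    rw [jacobiSym.mul_left, h1, one_mul]
  · rfl

private lemma zero_fact {e P : ℕ} (he : e ≠ 0) (hP0 : P ≠ 0) (p : ℕ) :
    (e * P ^ 2).factorization p = e.factorization p + 2 * P.factorization p := by
  rw [Nat.factorization_mul he (pow_ne_zero 2 hP0), Nat.factorization_pow]
  simp

private lemma zero_sq1 {e P : ℕ} (hP : Squarefree P) (he : e ∣ P) : sq1 (e * P ^ 2) = e := by
  have hP0 : P ≠ 0 := hP.ne_zero
  have he0 : e ≠ 0 := fun h => hP0 (by rw [h] at he; exact zero_dvd_iff.1 he)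
  have hes : Squarefree e := hP.squarefree_of_dvd he
  have hset : ((e * P ^ 2).primeFactors.filter fun p => Odd ((e * P ^ 2).factorization p)) =
      e.primeFactors := by
    ext p
    rw [mem_filter, zero_fact he0 hP0, Nat.mem_primeFactors, Nat.mem_primeFactors]
    have h1 := (Nat.squarefree_iff_factorization_le_one he0).1 hes p
    constructor
    · rintro ⟨⟨hp, -, -⟩, hodd⟩
      refine ⟨hp, ?_, he0⟩
      have h2 : e.factorization p ≠ 0 := by
        intro h0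
        rw [h0, zero_add] at hodd
        exact (Nat.not_odd_iff_even.2 (even_two_mul _)) hodd
      exact Nat.dvd_of_factorization_pos h2
    · rintro ⟨hp, hpe, -⟩
      refine ⟨⟨hp, hpe.mul_right _, mul_ne_zero he0 (pow_ne_zero 2 hP0)⟩, ?_⟩
      have h2 : e.factorization p = 1 := by
        have := hp.factorization_pos_of_dvd he0 hpe
        omega
      rw [h2]
      exact ⟨P.factorization p, by ring⟩
  unfold sq1
  rw [hset]
  exact Nat.prod_primeFactors_of_squarefree hes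

private lemma zero_sq2 {e P : ℕ} (hP : Squarefree P) (he : e ∣ P) : sq2 (e * P ^ 2) = P := by
  have hP0 : P ≠ 0 := hP.ne_zero
  have he0 : e ≠ 0 := fun h => hP0 (by rw [h] at he; exact zero_dvd_iff.1 he)
  have h1 := sq1_mul_sq2 (e * P ^ 2) (mul_ne_zero he0 (pow_ne_zero 2 hP0))
  rw [zero_sq1 hP he] at h1
  have h2 := Nat.eq_of_mul_eq_mul_left (Nat.pos_of_ne_zero he0) h1
  exact Nat.pow_left_injective (n := 2) (by norm_num) h2

/-- `n ↦ 1 / n`. -/
private noncomputable def zero_inv : ArithmeticFunction ℝ :=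
  ⟨fun n => if n = 0 then 0 else 1 / (n : ℝ), by simp⟩

private lemma zero_inv_apply {n : ℕ} (h : n ≠ 0) : zero_inv n = 1 / (n : ℝ) := by
  show (if n = 0 then 0 else 1 / (n : ℝ)) = _
  rw [if_neg h]

private lemma zero_inv_mul : zero_inv.IsMultiplicative := by
  rw [ArithmeticFunction.IsMultiplicative.iff_ne_zero]
  refine ⟨?_, fun {m n} hm hn _ => ?_⟩
  · rw [zero_inv_apply one_ne_zero]; norm_num
  · rw [zero_inv_apply (mul_ne_zero hm hn), zero_inv_apply hm, zero_inv_apply hn]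
    push_cast
    rw [one_div_mul_one_div]

private lemma zero_musum {R : ℕ} (hR : Squarefree R) :
    ∑ f ∈ R.divisors, (ArithmeticFunction.moebius f : ℝ) / f =
      ∏ p ∈ R.primeFactors, (1 - 1 / (p : ℝ)) := by
  have h := ArithmeticFunction.IsMultiplicative.prodPrimeFactors_one_sub_of_squarefree
    zero_inv zero_inv_mul hR
  have h1 : ∏ p ∈ R.primeFactors, (1 - zero_inv p) = ∏ p ∈ R.primeFactors, (1 - 1 / (p : ℝ)) :=
    Finset.prod_congr rfl fun p hp => by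
      rw [zero_inv_apply (Nat.prime_of_mem_primeFactors hp).ne_zero]
  rw [← h1, h]
  refine Finset.sum_congr rfl fun f hf => ?_
  have hf0 : f ≠ 0 := (Nat.pos_of_mem_divisors hf).ne'
  rw [zero_inv_apply hf0]
  ring

private lemma zero_gg0 {e P : ℕ} (hP : Squarefree P) (hPo : Odd P) (he : e ∣ P) :
    gg 0 (e * P ^ 2) = if e = 1 then ∏ p ∈ P.primeFactors, (1 - 1 / (p : ℝ)) else 0 := by
  have heo : Odd e := Odd.of_dvd_nat hPo he
  unfold gg
  rw [zero_sq1 hP he, zero_sq2 hP he]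
  have hj : ∀ g : ℕ, jr (0 * (g : ℤ) ^ 2 / ((P : ℕ) : ℤ) ^ 2) e = if e = 1 then 1 else 0 := by
    intro g
    rw [zero_mul, Int.zero_ediv]
    unfold jr
    rw [if_pos heo]
    split_ifs with h1
    · rw [h1, jacobiSym.one_right]; norm_num
    · have h2 : 1 < e := by
        have := heo.pos
        omega
      rw [jacobiSym.zero_left h2]; norm_num
  rw [Finset.filter_true_of_mem (fun g _ => by rw [zero_mul]; exact dvd_zero _)]
  rw [Finset.sum_congr rfl fun g _ => by rw [hj g]]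
  by_cases h1 : e = 1
  · rw [if_pos h1, h1, ← zero_musum hP]
    simp
  · rw [if_neg h1]
    simp [h1]

private lemma zero_phP {y : ℝ} {P Q R : ℕ} (hp : Pat y P Q R) :
    phP P = (∏ p ∈ R.primeFactors, (1 - 1 / (p : ℝ))) *
      ∏ p ∈ (P / R).primeFactors, (1 - 1 / (p : ℝ)) := by
  have h1 : P = R * (P / R) := (Nat.mul_div_cancel' hp.hR).symm
  have hco : Nat.Coprime R (P / R) := by
    have := hp.sf
    rw [h1] at this
    exact Nat.coprime_of_squarefree_mul this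
  unfold phP
  conv_lhs => rw [h1]
  rw [hco.primeFactors_mul, Finset.prod_union hco.disjoint_primeFactors]

/-! ### Decay -/

private lemma zero_Ft0 (F : ℝ → ℝ) (σ : ℤ) : Ft F σ 0 = ∫ t, F t := by
  unfold Ft
  simp

private lemma zero_decay {F : ℝ → ℝ} {a b : ℝ} (hF : Bump F a b) (σ : ℤ) :
    ∃ C : ℝ, 0 ≤ C ∧ ∀ ξ : ℝ, ξ ^ 2 * |Ft F σ ξ| ≤ C := by
  obtain ⟨φ, hφ⟩ := Ft_schwartz hF σ
  obtain ⟨CB, hCB, hdec⟩ := φ.decay 2 0
  refine ⟨CB, hCB.le, fun ξ => ?_⟩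
  have h := hdec ξ
  rw [norm_iteratedFDeriv_zero, hφ] at h
  simpa only [Real.norm_eq_abs, sq_abs] using h

private lemma zero_Ft_le {F : ℝ → ℝ} {σ : ℤ} {C : ℝ} (h : ∀ ξ : ℝ, ξ ^ 2 * |Ft F σ ξ| ≤ C)
    {k : ℤ} (hk : k ≠ 0) {q N : ℕ} (hq : 0 < q) (hN : 0 < N) {Y M : ℝ} (hY : 0 < Y) (hM : 0 < M) :
    |Ft F σ ((k : ℝ) * (Y / (q : ℝ) ^ 2) / (M * N))| ≤
      C * M ^ 2 * N ^ 2 * q ^ 4 / Y ^ 2 * (1 / (k : ℝ) ^ 2) := by
  have hk' : (0 : ℝ) < (k : ℝ) ^ 2 := by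
    have : (k : ℝ) ≠ 0 := by exact_mod_cast hk
    positivity
  have hq' : (0 : ℝ) < q := by exact_mod_cast hq
  have hN' : (0 : ℝ) < N := by exact_mod_cast hN
  have h1 := h ((k : ℝ) * (Y / (q : ℝ) ^ 2) / (M * N))
  have h2 : ((k : ℝ) * (Y / (q : ℝ) ^ 2) / (M * N)) ^ 2 =
      (k : ℝ) ^ 2 * Y ^ 2 / (M ^ 2 * N ^ 2 * q ^ 4) := by
    field_simp
  rw [h2] at h1
  have h3 : C * M ^ 2 * N ^ 2 * q ^ 4 / Y ^ 2 * (1 / (k : ℝ) ^ 2) =
      C / ((k : ℝ) ^ 2 * Y ^ 2 / (M ^ 2 * N ^ 2 * q ^ 4)) := by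
    field_simp
  rw [h3, le_div_iff₀ (by positivity)]
  linarith

/-- a sum over the integers, dominated by `A / k ^ 2` except for the term `k = 0` -/
private lemma zero_tsum {T : ℤ → ℝ} {A : ℝ} (hA : ∀ k : ℤ, k ≠ 0 → |T k| ≤ A * (1 / (k : ℝ) ^ 2)) :
    |∑' k : ℤ, T k - T 0| ≤ A * ∑' k : ℤ, 1 / (k : ℝ) ^ 2 := by
  have hs : Summable (fun k : ℤ => 1 / (k : ℝ) ^ 2) :=
    Real.summable_one_div_int_pow.2 (by norm_num)
  have hT' : Summable (fun k : ℤ => if k = 0 then (0 : ℝ) else T k) := by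
    refine Summable.of_norm_bounded (g := fun k : ℤ => A * (1 / (k : ℝ) ^ 2)) (hs.mul_left A) ?_
    intro k
    by_cases hk : k = 0
    · rw [if_pos hk, hk]
      simp
    · rw [if_neg hk, Real.norm_eq_abs]
      exact hA k hk
  have hT : Summable T := by
    have h0 : Summable (fun k : ℤ => if k = 0 then T k else 0) := by
      refine summable_of_ne_finset_zero (s := {0}) ?_
      intro k hk
      rw [if_neg (by simpa using hk)]
    have := hT'.add h0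
    refine this.congr fun k => ?_
    by_cases hk : k = 0
    · simp [hk]
    · simp [hk]
  have h1 : ∑' k : ℤ, T k - T 0 = ∑' k : ℤ, if k = 0 then (0 : ℝ) else T k := by
    rw [hT.tsum_eq_add_tsum_ite 0]
    ring
  rw [h1, ← tsum_mul_left, ← Real.norm_eq_abs]
  refine tsum_of_norm_bounded (hs.mul_left A).hasSum ?_
  intro k
  by_cases hk : k = 0
  · rw [if_pos hk, hk]
    simp
  · rw [if_neg hk, Real.norm_eq_abs]
    exact hA k hk

/-! ### The class modulo `2` -/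

private lemma zero_RU2 {σ : ℤ} (hσ : σ = 1 ∨ σ = -1) (d : ℕ) : RU 2 1 σ 1 d ↔ Odd d := by
  unfold RU
  rw [Nat.odd_iff]
  constructor
  · rintro ⟨h, -⟩
    rcases hσ with rfl | rfl <;> omega
  · intro h
    refine ⟨by rcases hσ with rfl | rfl <;> omega, ?_⟩
    rintro ⟨k, hk⟩
    have h1 : (2 * σ * ((1 * d : ℕ) : ℤ)) % 4 = 2 := by
      push_cast
      rcases hσ with rfl | rfl <;> omega
    rw [hk] at h1
    have h2 : k % 4 = 0 ∨ k % 4 = 1 ∨ k % 4 = 2 ∨ k % 4 = 3 := by omega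
    rcases h2 with h2 | h2 | h2 | h2 <;> simp [Int.mul_emod, h2] at h1

private lemma zero_PR2 (h2 : D_poi2) {F : ℝ → ℝ} {a b : ℝ} (ha : 0 < a) (hF : Bump F a b)
    {σ : ℤ} (hσ : σ = 1 ∨ σ = -1) :
    ∃ C : ℝ, 0 ≤ C ∧ ∀ q N : ℕ, Odd q → Odd N → Nat.Coprime q N → ∀ Y : ℝ, 0 < Y →
      |PRq F 2 1 σ 1 q Y N - (∫ t, F t) * gg 0 N| ≤ C * ((N : ℝ) ^ 3 * q ^ 4 / Y ^ 2) := by
  obtain ⟨C, hC, hdec⟩ := zero_decay hF σ
  refine ⟨4 * C * ∑' k : ℤ, 1 / (k : ℝ) ^ 2,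
    mul_nonneg (by positivity) (tsum_nonneg fun k => by positivity), ?_⟩
  intro q N hq hN hqN Y hY
  have hq' : (0 : ℝ) < q := by exact_mod_cast hq.pos
  have hN' : (0 : ℝ) < N := by exact_mod_cast hN.pos
  have e1 : PRq F 2 1 σ 1 q Y N = ∑' k : ℤ, (if (q : ℤ) ∣ k then
        (-1 : ℝ) ^ k.natAbs * gg k N * Ft F σ ((k : ℝ) * (Y / (q : ℝ) ^ 2) / (2 * N)) else 0) := by
    have e2 : PRq F 2 1 σ 1 q Y N = ((2 : ℤ) : ℝ) * q / Y *
        ∑' d : ℕ, (if Odd d ∧ q ∣ d then F (d / Y) * jr (2 * σ * d) N else 0) := by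
      unfold PRq
      refine congrArg (fun x => ((2 : ℤ) : ℝ) * q / Y * x) (tsum_congr fun d => ?_)
      by_cases h : Odd d ∧ q ∣ d
      · rw [if_pos h, if_pos ⟨(zero_RU2 hσ d).2 h.1, h.2⟩]
        unfold sy
        rw [one_mul]
      · rw [if_neg h, if_neg (fun h' => h ⟨(zero_RU2 hσ d).1 h'.1, h'.2⟩)]
    rw [e2, h2 F a b ha hF σ hσ q N hq hN hqN Y hY, ← mul_assoc]
    have e3 : (((2 : ℤ) : ℝ) * (q : ℝ) / Y) * (Y / (2 * q)) = 1 := by
      push_cast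
      field_simp
    rw [e3, one_mul]
  rw [e1]
  set T : ℤ → ℝ := fun k => (if (q : ℤ) ∣ k then
        (-1 : ℝ) ^ k.natAbs * gg k N * Ft F σ ((k : ℝ) * (Y / (q : ℝ) ^ 2) / (2 * N)) else 0)
    with hT
  have e4 : T 0 = (∫ t, F t) * gg 0 N := by
    rw [hT]
    simp only [dvd_zero, if_true, Int.natAbs_zero, pow_zero, one_mul, Int.cast_zero, zero_mul,
      zero_div, zero_Ft0]
    ring
  rw [← e4]
  have e5 : ∀ k : ℤ, k ≠ 0 → |T k| ≤ (4 * C * ((N : ℝ) ^ 3 * q ^ 4 / Y ^ 2)) *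
      (1 / (k : ℝ) ^ 2) := by
    intro k hk
    have hk' : (0 : ℝ) < (k : ℝ) ^ 2 := by
      have : (k : ℝ) ≠ 0 := by exact_mod_cast hk
      positivity
    by_cases hd : (q : ℤ) ∣ k
    · have e6 : T k = (-1 : ℝ) ^ k.natAbs * gg k N *
          Ft F σ ((k : ℝ) * (Y / (q : ℝ) ^ 2) / (2 * N)) := by
        rw [hT]
        simp only [hd, if_true]
      rw [e6, abs_mul, abs_mul, abs_pow, abs_neg, abs_one, one_pow, one_mul]
      have e7 := zero_Ft_le hdec hk hq.pos hN.pos hY (M := 2) (by norm_num)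
      have e8 := zero_gg_abs k N hN.pos
      calc |gg k N| * |Ft F σ ((k : ℝ) * (Y / (q : ℝ) ^ 2) / (2 * N))| ≤
          N * (C * 2 ^ 2 * N ^ 2 * q ^ 4 / Y ^ 2 * (1 / (k : ℝ) ^ 2)) :=
            mul_le_mul e8 e7 (abs_nonneg _) hN'.le
        _ = _ := by ring
    · have e6 : T k = 0 := by
        rw [hT]
        simp only [hd, if_false]
      rw [e6, abs_zero]
      positivity
  refine (zero_tsum e5).trans (le_of_eq ?_)
  ring

/-! ### The classes modulo `8` -/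

private lemma zero_sqr {σ : ℤ} (hσ : σ = 1 ∨ σ = -1) (d : ℕ)
    (h : IsSquare (2 * σ * ((2 * d : ℕ) : ℤ))) : ∃ j : ℕ, d = j ^ 2 := by
  obtain ⟨k, hk⟩ := h
  push_cast at hk
  rcases hσ with rfl | rfl
  · have h1 : (2 : ℤ) ∣ k * k := ⟨2 * d, by linarith⟩
    have h2 : (2 : ℤ) ∣ k := by
      rcases Int.prime_two.dvd_or_dvd h1 with h | h <;> exact h
    obtain ⟨j, rfl⟩ := h2
    refine ⟨j.natAbs, ?_⟩
    have h3 : (d : ℤ) = j ^ 2 := by nlinarith
    have h4 : ((j.natAbs ^ 2 : ℕ) : ℤ) = j ^ 2 := by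
      push_cast
      exact sq_abs j
    exact_mod_cast h3.trans h4.symm
  · have h1 := mul_self_nonneg k
    have h2 : d = 0 := by
      have h3 : (d : ℤ) ≤ 0 := by linarith
      have h4 : (0 : ℤ) ≤ d := Int.natCast_nonneg d
      have h5 : (d : ℤ) = 0 := le_antisymm h3 h4
      exact_mod_cast h5
    exact ⟨0, by rw [h2]; norm_num⟩

private lemma zero_sy8 (σ : ℤ) (d N : ℕ) : sy σ 2 d N = jr (σ * d) N := by
  unfold sy
  have h : 2 * σ * ((2 * d : ℕ) : ℤ) = 4 * (σ * d) := by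
    push_cast
    ring
  rw [h, zero_jr_four]

/-- the perfect squares contribute `O(√Y)` -/
private lemma zero_sqsum {F : ℝ → ℝ} {b : ℝ} {K : ℝ} (hK : ∀ t, |F t| ≤ K)
    (hb : 0 < b) (σ : ℤ) (N : ℕ) {Y : ℝ} (hY : 1 ≤ Y) (p : ℕ → Prop) [DecidablePred p]
    (hp : ∀ d, p d → ∃ j : ℕ, d = j ^ 2) :
    |∑ d ∈ range (⌊b * Y⌋₊ + 1), (if p d then F (d / Y) * jr (σ * d) N else 0)| ≤
      K * (√b + 1) * √Y := by
  have hK0 : 0 ≤ K := (abs_nonneg (F 0)).trans (hK 0)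
  have hY0 : 0 < Y := by linarith
  set J : Finset ℕ := (range (⌊√(b * Y)⌋₊ + 1)).image fun j => j ^ 2 with hJ
  have h1 : ∀ d ∈ range (⌊b * Y⌋₊ + 1), d ∉ J →
      (if p d then F (d / Y) * jr (σ * d) N else 0) = 0 := by
    intro d hd hdJ
    rw [if_neg]
    intro hpd
    obtain ⟨j, rfl⟩ := hp d hpd
    apply hdJ
    rw [hJ, mem_image]
    refine ⟨j, ?_, rfl⟩
    rw [mem_range] at hd ⊢
    have h2 : ((j ^ 2 : ℕ) : ℝ) ≤ b * Y := by
      refine le_trans ?_ (Nat.floor_le (by positivity))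
      exact_mod_cast Nat.lt_succ_iff.1 hd
    have h3 : (j : ℝ) ≤ √(b * Y) := by
      refine Real.le_sqrt_of_sq_le ?_
      push_cast at h2
      exact h2
    exact Nat.lt_succ_iff.2 (Nat.le_floor h3)
  have h2 : ∑ d ∈ range (⌊b * Y⌋₊ + 1), (if p d then F (d / Y) * jr (σ * d) N else 0) =
      ∑ d ∈ (range (⌊b * Y⌋₊ + 1)).filter (fun d => d ∈ J),
        (if p d then F (d / Y) * jr (σ * d) N else 0) := by
    symm
    refine Finset.sum_subset (Finset.filter_subset _ _) fun d hd hd' => ?_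
    exact h1 d hd fun h => hd' (Finset.mem_filter.2 ⟨hd, h⟩)
  have h3 : ∀ d : ℕ, |(if p d then F (d / Y) * jr (σ * d) N else 0)| ≤ K := by
    intro d
    split_ifs
    · rw [abs_mul]
      calc |F (d / Y)| * |jr (σ * d) N| ≤ K * 1 :=
            mul_le_mul (hK _) (zero_abs_jr _ _) (abs_nonneg _) hK0
        _ = K := mul_one _
    · rw [abs_zero]
      exact hK0
  have h4 : (((range (⌊b * Y⌋₊ + 1)).filter (fun d => d ∈ J)).card : ℝ) ≤ √(b * Y) + 1 := by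
    have h5 : ((range (⌊b * Y⌋₊ + 1)).filter (fun d => d ∈ J)).card ≤ ⌊√(b * Y)⌋₊ + 1 := by
      calc ((range (⌊b * Y⌋₊ + 1)).filter (fun d => d ∈ J)).card ≤ J.card :=
            Finset.card_le_card fun d hd => (Finset.mem_filter.1 hd).2
        _ ≤ (range (⌊√(b * Y)⌋₊ + 1)).card := Finset.card_image_le
        _ = _ := Finset.card_range _
    calc (((range (⌊b * Y⌋₊ + 1)).filter (fun d => d ∈ J)).card : ℝ)
        ≤ ((⌊√(b * Y)⌋₊ + 1 : ℕ) : ℝ) := by exact_mod_cast h5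
      _ = (⌊√(b * Y)⌋₊ : ℝ) + 1 := by push_cast; ring
      _ ≤ √(b * Y) + 1 := by
          have := Nat.floor_le (Real.sqrt_nonneg (b * Y))
          linarith
  rw [h2]
  refine (Finset.abs_sum_le_sum_abs _ _).trans ?_
  refine (Finset.sum_le_sum fun d _ => h3 d).trans ?_
  rw [Finset.sum_const, nsmul_eq_mul]
  have h6 : √(b * Y) = √b * √Y := Real.sqrt_mul hb.le Y
  have h7 : 1 ≤ √Y := Real.one_le_sqrt.2 hY
  calc _ ≤ (√(b * Y) + 1) * K := mul_le_mul_of_nonneg_right h4 hK0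
    _ ≤ (√b * √Y + √Y) * K := by
        rw [h6]
        exact mul_le_mul_of_nonneg_right (by linarith) hK0
    _ = _ := by ring

private lemma zero_t8_abs (m : ℤ) : |t8 m| ≤ 1 := by
  unfold t8
  split_ifs <;> norm_num

private lemma zero_t4_abs (m k : ℤ) : |t4 m k| ≤ 1 := by
  unfold t4
  split_ifs <;> norm_num

private lemma zero_Fzero {F : ℝ → ℝ} {a b : ℝ} (hF : Bump F a b) {Y : ℝ} (hY : 0 < Y) {d : ℕ}
    (hd : d ∉ range (⌊b * Y⌋₊ + 1)) : F (d / Y) = 0 := by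
  by_contra h
  have h1 := (hF.supp _ h).2
  rw [div_lt_iff₀ hY] at h1
  apply hd
  rw [mem_range]
  exact Nat.lt_succ_iff.2 (Nat.le_floor h1.le)

private lemma zero_PR8 (h8 : D_poi8) {F : ℝ → ℝ} {a b : ℝ} (ha : 0 < a) (hF : Bump F a b)
    (hb : 0 < b) {σ : ℤ} (hσ : σ = 1 ∨ σ = -1) (c : ℤ) (hc : c % 8 = c) (hc2 : c % 2 = 1) :
    ∃ C : ℝ, 0 ≤ C ∧ ∀ q N : ℕ, Odd q → Odd N → Nat.Coprime q N → ∀ Y : ℝ, 1 ≤ Y →
      |PRq F 8 c σ 2 q Y N - (∫ t, F t) * gg 0 N| ≤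
        C * ((N : ℝ) ^ 3 * q ^ 4 / Y ^ 2 + q / √Y) := by
  obtain ⟨C, hC, hdec⟩ := zero_decay hF σ
  obtain ⟨K, hK⟩ : ∃ K : ℝ, ∀ t, |F t| ≤ K := by
    have hcs : HasCompactSupport F := by
      refine HasCompactSupport.intro (isCompact_Icc (a := a) (b := b)) fun x hx => ?_
      by_contra h
      exact hx ⟨(hF.supp x h).1.le, (hF.supp x h).2.le⟩
    obtain ⟨K, hK⟩ := hF.smooth.continuous.bounded_above_of_compact_support hcs
    exact ⟨K, fun t => by simpa [Real.norm_eq_abs] using hK t⟩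
  have hK0 : 0 ≤ K := (abs_nonneg (F 0)).trans (hK 0)
  set Z : ℝ := ∑' k : ℤ, 1 / (k : ℝ) ^ 2 with hZ
  have hZ0 : 0 ≤ Z := tsum_nonneg fun k => by positivity
  refine ⟨200 * C * Z + 8 * K * (√b + 1), by positivity, ?_⟩
  intro q N hq hN hqN Y hY
  have hY0 : 0 < Y := by linarith
  have hq' : (0 : ℝ) < q := by exact_mod_cast hq.pos
  have hN' : (0 : ℝ) < N := by exact_mod_cast hN.pos
  -- the two sums
  set SA : ℝ := ∑' d : ℕ, (if (σ * d) % 8 = c ∧ q ∣ d then F (d / Y) * jr (σ * d) N else 0) with hSA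
  have hSA' : SA = ∑ d ∈ range (⌊b * Y⌋₊ + 1),
      (if (σ * d) % 8 = c ∧ q ∣ d then F (d / Y) * jr (σ * d) N else 0) := by
    refine tsum_eq_sum fun d hd => ?_
    rw [zero_Fzero hF hY0 hd, zero_mul, ite_self]
  classical
  set SB : ℝ := ∑ d ∈ range (⌊b * Y⌋₊ + 1),
      (if RU 8 c σ 2 d ∧ q ∣ d then F (d / Y) * jr (σ * d) N else 0) with hSB
  have hPR : PRq F 8 c σ 2 q Y N = 8 * q / Y * SB := by
    unfold PRq
    rw [hSB]
    push_cast
    refine congrArg (fun x => 8 * (q : ℝ) / Y * x) ?_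
    rw [tsum_eq_sum (s := range (⌊b * Y⌋₊ + 1)) (fun d hd => by
      rw [zero_Fzero hF hY0 hd, zero_mul, ite_self])]
    refine Finset.sum_congr rfl fun d _ => ?_
    rw [zero_sy8]
  have hdiff : |SB - SA| ≤ K * (√b + 1) * √Y := by
    have e1 : SB - SA = -∑ d ∈ range (⌊b * Y⌋₊ + 1),
        (if ((σ * d) % 8 = c ∧ q ∣ d) ∧ IsSquare (2 * σ * ((2 * d : ℕ) : ℤ)) then
          F (d / Y) * jr (σ * d) N else 0) := by
      rw [hSA', hSB, ← Finset.sum_sub_distrib, ← Finset.sum_neg_distrib]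
      refine Finset.sum_congr rfl fun d _ => ?_
      by_cases h : (σ * d) % 8 = c ∧ q ∣ d
      · by_cases h' : IsSquare (2 * σ * ((2 * d : ℕ) : ℤ))
        · rw [if_neg (fun hh : RU 8 c σ 2 d ∧ q ∣ d => hh.1.2 h'), if_pos h, if_pos ⟨h, h'⟩]
          ring
        · have h1 : RU 8 c σ 2 d ∧ q ∣ d := ⟨⟨h.1, h'⟩, h.2⟩
          rw [if_pos h1, if_pos h, if_neg (fun hh => h' hh.2)]
          ring
      · rw [if_neg (fun hh : RU 8 c σ 2 d ∧ q ∣ d => h ⟨hh.1.1, hh.2⟩), if_neg h,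
          if_neg (fun hh => h hh.1)]
        ring
    rw [e1, abs_neg]
    exact zero_sqsum hK hb σ N hY _ fun d hd => zero_sqr hσ d hd.2
  -- Poisson summation
  have e1 : 8 * (q : ℝ) / Y * SA = ∑' k : ℤ, (if (q : ℤ) ∣ k then gg k N *
        (√2 * t8 (c * k) * Ft F σ ((k : ℝ) * (Y / (q : ℝ) ^ 2) / (8 * N)) +
        t4 c k * Ft F σ ((k : ℝ) * (Y / (q : ℝ) ^ 2) / (4 * N)) +
        Ft F σ ((k : ℝ) * (Y / (q : ℝ) ^ 2) / N)) else 0) := by
    rw [hSA, h8 F a b ha hF σ hσ q N hq hN hqN c hc hc2 Y hY0, ← mul_assoc]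
    have e3 : (8 * (q : ℝ) / Y) * (Y / (8 * q)) = 1 := by
      field_simp
    rw [e3, one_mul]
  set T : ℤ → ℝ := fun k => (if (q : ℤ) ∣ k then gg k N *
        (√2 * t8 (c * k) * Ft F σ ((k : ℝ) * (Y / (q : ℝ) ^ 2) / (8 * N)) +
        t4 c k * Ft F σ ((k : ℝ) * (Y / (q : ℝ) ^ 2) / (4 * N)) +
        Ft F σ ((k : ℝ) * (Y / (q : ℝ) ^ 2) / N)) else 0) with hT
  have e4 : T 0 = (∫ t, F t) * gg 0 N := by
    have t80 : t8 (c * 0) = 0 := by simp [t8]
    have t40 : t4 c 0 = 0 := by simp [t4]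
    rw [hT]
    simp only [dvd_zero, if_true, Int.cast_zero, zero_mul, zero_div, zero_Ft0, t80, t40]
    ring
  have e5 : ∀ k : ℤ, k ≠ 0 → |T k| ≤ (200 * C * ((N : ℝ) ^ 3 * q ^ 4 / Y ^ 2)) *
      (1 / (k : ℝ) ^ 2) := by
    intro k hk
    have hk' : (0 : ℝ) < (k : ℝ) ^ 2 := by
      have : (k : ℝ) ≠ 0 := by exact_mod_cast hk
      positivity
    by_cases hd : (q : ℤ) ∣ k
    · have e6 : T k = gg k N *
        (√2 * t8 (c * k) * Ft F σ ((k : ℝ) * (Y / (q : ℝ) ^ 2) / (8 * N)) +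
        t4 c k * Ft F σ ((k : ℝ) * (Y / (q : ℝ) ^ 2) / (4 * N)) +
        Ft F σ ((k : ℝ) * (Y / (q : ℝ) ^ 2) / (1 * N))) := by
        rw [hT]
        simp only [hd, if_true, one_mul]
      set G : ℝ := C * N ^ 2 * q ^ 4 / Y ^ 2 * (1 / (k : ℝ) ^ 2) with hG
      have hG0 : 0 ≤ G := by positivity
      have f8 := zero_Ft_le hdec hk hq.pos hN.pos hY0 (M := 8) (by norm_num)
      have f4 := zero_Ft_le hdec hk hq.pos hN.pos hY0 (M := 4) (by norm_num)
      have f1 := zero_Ft_le hdec hk hq.pos hN.pos hY0 (M := 1) (by norm_num)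
      have g8 : |Ft F σ ((k : ℝ) * (Y / (q : ℝ) ^ 2) / (8 * N))| ≤ 64 * G := by
        refine f8.trans (le_of_eq ?_)
        rw [hG]
        ring
      have g4 : |Ft F σ ((k : ℝ) * (Y / (q : ℝ) ^ 2) / (4 * N))| ≤ 16 * G := by
        refine f4.trans (le_of_eq ?_)
        rw [hG]
        ring
      have g1 : |Ft F σ ((k : ℝ) * (Y / (q : ℝ) ^ 2) / (1 * N))| ≤ G := by
        refine f1.trans (le_of_eq ?_)
        rw [hG]
        ring
      have s2 : √2 ≤ 2 := by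
        rw [Real.sqrt_le_left (by norm_num)]
        norm_num
      have h1 : |√2 * t8 (c * k) * Ft F σ ((k : ℝ) * (Y / (q : ℝ) ^ 2) / (8 * N)) +
        t4 c k * Ft F σ ((k : ℝ) * (Y / (q : ℝ) ^ 2) / (4 * N)) +
        Ft F σ ((k : ℝ) * (Y / (q : ℝ) ^ 2) / (1 * N))| ≤ 200 * G := by
        have i1 : |√2 * t8 (c * k) * Ft F σ ((k : ℝ) * (Y / (q : ℝ) ^ 2) / (8 * N))| ≤
            128 * G := by
          rw [abs_mul, abs_mul, abs_of_nonneg (Real.sqrt_nonneg 2)]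
          calc √2 * |t8 (c * k)| * |Ft F σ ((k : ℝ) * (Y / (q : ℝ) ^ 2) / (8 * N))| ≤
              2 * 1 * (64 * G) := by
                refine mul_le_mul (mul_le_mul s2 (zero_t8_abs _) (abs_nonneg _) (by norm_num)) g8
                  (abs_nonneg _) (by norm_num)
            _ = 128 * G := by ring
        have i2 : |t4 c k * Ft F σ ((k : ℝ) * (Y / (q : ℝ) ^ 2) / (4 * N))| ≤ 16 * G := by
          rw [abs_mul]
          calc |t4 c k| * |Ft F σ ((k : ℝ) * (Y / (q : ℝ) ^ 2) / (4 * N))| ≤ 1 * (16 * G) :=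
                mul_le_mul (zero_t4_abs _ _) g4 (abs_nonneg _) (by norm_num)
            _ = 16 * G := by ring
        have i3 := abs_add_le (√2 * t8 (c * k) * Ft F σ ((k : ℝ) * (Y / (q : ℝ) ^ 2) / (8 * N)) +
          t4 c k * Ft F σ ((k : ℝ) * (Y / (q : ℝ) ^ 2) / (4 * N)))
          (Ft F σ ((k : ℝ) * (Y / (q : ℝ) ^ 2) / (1 * N)))
        have i4 := abs_add_le (√2 * t8 (c * k) * Ft F σ ((k : ℝ) * (Y / (q : ℝ) ^ 2) / (8 * N)))
          (t4 c k * Ft F σ ((k : ℝ) * (Y / (q : ℝ) ^ 2) / (4 * N)))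
        linarith
      rw [e6, abs_mul]
      calc _ ≤ (N : ℝ) * (200 * G) :=
            mul_le_mul (zero_gg_abs k N hN.pos) h1 (abs_nonneg _) hN'.le
        _ = _ := by
            rw [hG]
            ring
    · have e6 : T k = 0 := by
        rw [hT]
        simp only [hd, if_false]
      rw [e6, abs_zero]
      positivity
  have hmain : |8 * (q : ℝ) / Y * SA - (∫ t, F t) * gg 0 N| ≤
      200 * C * Z * ((N : ℝ) ^ 3 * q ^ 4 / Y ^ 2) := by
    rw [e1, ← e4]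
    refine (zero_tsum e5).trans (le_of_eq ?_)
    rw [← hZ]
    ring
  have hsq : |8 * (q : ℝ) / Y * SB - 8 * (q : ℝ) / Y * SA| ≤ 8 * K * (√b + 1) * (q / √Y) := by
    rw [← mul_sub, abs_mul, abs_of_pos (by positivity : 0 < 8 * (q : ℝ) / Y)]
    refine (mul_le_mul_of_nonneg_left hdiff (by positivity)).trans (le_of_eq ?_)
    have hs : 0 < √Y := Real.sqrt_pos.2 hY0
    have hss : Y = √Y * √Y := (Real.mul_self_sqrt hY0.le).symm
    have hs1 : √Y / Y = 1 / √Y := by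
      rw [div_eq_div_iff hY0.ne' hs.ne', one_mul]
      exact hss.symm
    calc 8 * (q : ℝ) / Y * (K * (√b + 1) * √Y) = 8 * K * (√b + 1) * q * (√Y / Y) := by ring
      _ = _ := by rw [hs1]; ring
  rw [hPR]
  have hn1 : 0 ≤ (N : ℝ) ^ 3 * q ^ 4 / Y ^ 2 := by positivity
  have hn2 : 0 ≤ (q : ℝ) / √Y := by positivity
  have h9 := abs_sub_le (8 * (q : ℝ) / Y * SB) (8 * (q : ℝ) / Y * SA) ((∫ t, F t) * gg 0 N)
  have m1 : 0 ≤ 200 * C * Z := by positivity
  have m2 : 0 ≤ 8 * K * (√b + 1) := by positivity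
  nlinarith [mul_nonneg m1 hn2, mul_nonneg m2 hn1]

private lemma zero_PRq (h2 : D_poi2) (h8 : D_poi8) {F : ℝ → ℝ} {a b : ℝ} (ha : 0 < a)
    (hF : Bump F a b) (hF0 : 0 < ∫ t, F t) {σ : ℤ} (hσ : σ = 1 ∨ σ = -1) {m c ε : ℤ} {κ u : ℕ}
    (hf : FamP m c ε κ u) :
    ∃ C : ℝ, 0 ≤ C ∧ ∀ q N : ℕ, Odd q → Odd N → Nat.Coprime q N → ∀ Y : ℝ, 1 ≤ Y →
      |PRq F m c σ u q Y N - (∫ t, F t) * gg 0 N| ≤
        C * ((N : ℝ) ^ 3 * q ^ 4 / Y ^ 2 + q / √Y) := by
  have hb : 0 < b := by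
    by_contra hb
    have : ∀ t, F t = 0 := by
      intro t
      by_contra h
      have := hF.supp t h
      linarith [this.1, this.2]
    rw [integral_congr_ae (ae_of_all _ this)] at hF0
    simp at hF0
  rcases hf with ⟨rfl, rfl, -, -, rfl⟩ | ⟨rfl, rfl, -, -, rfl⟩ | ⟨rfl, rfl, -, -, rfl⟩ |
    ⟨rfl, rfl, -, -, rfl⟩ | ⟨rfl, rfl, -, -, rfl⟩
  · obtain ⟨C, hC, h⟩ := zero_PR2 h2 ha hF hσ
    refine ⟨C, hC, fun q N hq hN hqN Y hY => (h q N hq hN hqN Y (by linarith)).trans ?_⟩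
    refine mul_le_mul_of_nonneg_left ?_ hC
    have : 0 ≤ (q : ℝ) / √Y := by positivity
    linarith
  all_goals exact zero_PR8 h8 ha hF hb hσ _ (by norm_num) (by norm_num)

private lemma zero_eps (Q e : ℕ) : |eps Q e| ≤ 1 := by
  unfold eps
  have h := ArithmeticFunction.abs_moebius_le_one (n := Nat.gcd e Q)
  exact_mod_cast h

private lemma zero_muf {f : ℕ} (hf : 0 < f) : |(ArithmeticFunction.moebius f : ℝ) / f| ≤ 1 := by
  have h := ArithmeticFunction.abs_moebius_le_one (n := f)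
  have h' : |(ArithmeticFunction.moebius f : ℝ)| ≤ 1 := by exact_mod_cast h
  have h1 : (1 : ℝ) ≤ f := by exact_mod_cast hf
  rw [abs_div, abs_of_pos (by linarith : (0 : ℝ) < f), div_le_one (by linarith)]
  linarith

/-- the main term -/
private lemma zero_main {y : ℝ} {P Q R : ℕ} (hp : Pat y P Q R) (hPo : Odd P) (hphi : 0 < phP P)
    (I : ℝ) : I = 1 / phP P * ∑ e ∈ (P / R).divisors, ∑ f ∈ R.divisors,
      eps Q e * ((ArithmeticFunction.moebius f : ℝ) / f) * (I * gg 0 (e * (P / R) ^ 2 * 1)) := by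
  have hP0 : P ≠ 0 := hp.sf.ne_zero
  have hRP : R * (P / R) = P := Nat.mul_div_cancel' hp.hR
  have hd : P / R ∣ P := ⟨R, by rw [mul_comm]; exact hRP.symm⟩
  have hs1 : Squarefree (P / R) := hp.sf.squarefree_of_dvd hd
  have hs2 : Squarefree R := hp.sf.squarefree_of_dvd hp.hR
  have ho : Odd (P / R) := Odd.of_dvd_nat hPo hd
  have h1 : ∀ e ∈ (P / R).divisors, ∑ f ∈ R.divisors,
      eps Q e * ((ArithmeticFunction.moebius f : ℝ) / f) * (I * gg 0 (e * (P / R) ^ 2 * 1)) =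
      if e = 1 then I * ((∏ p ∈ R.primeFactors, (1 - 1 / (p : ℝ))) *
        ∏ p ∈ (P / R).primeFactors, (1 - 1 / (p : ℝ))) else 0 := by
    intro e he
    have he' : e ∣ P / R := (Nat.mem_divisors.1 he).1
    have h2 : ∀ f ∈ R.divisors, eps Q e * ((ArithmeticFunction.moebius f : ℝ) / f) *
        (I * gg 0 (e * (P / R) ^ 2 * 1)) = ((ArithmeticFunction.moebius f : ℝ) / f) *
        (eps Q e * (I * gg 0 (e * (P / R) ^ 2 * 1))) := fun f _ => by ring
    rw [Finset.sum_congr rfl h2, ← Finset.sum_mul, zero_musum hs2, mul_one,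
      zero_gg0 hs1 ho he']
    by_cases h : e = 1
    · rw [if_pos h, if_pos h, h]
      have h3 : eps Q 1 = 1 := by
        unfold eps
        rw [Nat.gcd_one_left]
        simp
      rw [h3]
      ring
    · rw [if_neg h, if_neg h]
      ring
  rw [Finset.sum_congr rfl h1, Finset.sum_ite_eq' (P / R).divisors 1, if_pos
    (Nat.one_mem_divisors.2 hs1.ne_zero), ← zero_phP hp]
  field_simp

theorem p_zero (h2 : D_poi2) (h8 : D_poi8) (ha : D_avsy) (hs : D_size) : D_zero := by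
  intro F a b ha' hF hF0 σ hσ m c ε κ u hf ε' hε'
  obtain ⟨C, hC, hPR⟩ := zero_PRq h2 h8 ha' hF hF0 hσ hf
  have hlim : ∀ᶠ X : ℝ in atTop, 2 * C * X ^ (-(1 / 10) : ℝ) ≤ ε' := by
    have h1 : Tendsto (fun X : ℝ => 2 * C * X ^ (-(1 / 10) : ℝ)) atTop (𝓝 (2 * C * 0)) :=
      (tendsto_rpow_neg_atTop (by norm_num : (0 : ℝ) < 1 / 10)).const_mul _
    rw [mul_zero] at h1
    exact h1.eventually_le_const hε'
  obtain ⟨X₁, hX₁⟩ := eventually_atTop.1 hlim
  refine ⟨max X₁ 2, fun X hX y P Q R hy hp Y hY => ?_⟩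
  have hX2 : 2 ≤ X := (le_max_right _ _).trans hX
  have hX1 : 1 < X := by linarith
  have hX0 : 0 < X := by linarith
  obtain ⟨hPo, hPle, hcard, hphi, hphi0, -⟩ := hs (1 / 100) X y P Q R (by norm_num) hX1 hy hp
  have hY1 : 1 ≤ Y := (Real.one_le_rpow hX1.le (by norm_num)).trans hY
  have hY0 : 0 < Y := by linarith
  have hav := ha F a b ha' hF m c ε σ κ u hf hσ y P Q R hp Y hY0 1 (Nat.coprime_one_left _)
  have h1 : (fun d => sy σ u d 1) = fun _ => (1 : ℝ) := by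
    funext d
    unfold sy jr
    rw [if_pos odd_one, jacobiSym.one_right]
    norm_num
  rw [h1] at hav
  rw [hav]
  conv_lhs => rw [zero_main hp hPo hphi0 (∫ t, F t)]
  rw [← mul_sub, ← Finset.sum_sub_distrib]
  have hP0 : P ≠ 0 := hp.sf.ne_zero
  have hRP : R * (P / R) = P := Nat.mul_div_cancel' hp.hR
  have hd : P / R ∣ P := ⟨R, by rw [mul_comm]; exact hRP.symm⟩
  have hco : Nat.Coprime R (P / R) := by
    have := hp.sf
    rw [← hRP] at this
    exact Nat.coprime_of_squarefree_mul this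
  have hPR1 : (1 : ℝ) ≤ P := by exact_mod_cast Nat.one_le_iff_ne_zero.2 hP0
  -- the error of one term
  have hone : ∀ e ∈ (P / R).divisors, ∀ f ∈ R.divisors,
      |eps Q e * ((ArithmeticFunction.moebius f : ℝ) / f) *
          PRq F m c σ u (R * f) Y (e * (P / R) ^ 2 * 1) -
        eps Q e * ((ArithmeticFunction.moebius f : ℝ) / f) *
          ((∫ t, F t) * gg 0 (e * (P / R) ^ 2 * 1))| ≤ 2 * C * X ^ (-(21 / 100) : ℝ) := by
    intro e he f hf'
    have he' : e ∣ P / R := (Nat.mem_divisors.1 he).1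
    have hfR : f ∣ R := (Nat.mem_divisors.1 hf').1
    have hfP : f ∣ P := hfR.trans hp.hR
    have heP : e ∣ P := he'.trans hd
    have hRo : Odd R := Odd.of_dvd_nat hPo hp.hR
    have hqo : Odd (R * f) := hRo.mul (Odd.of_dvd_nat hPo hfP)
    have hNo : Odd (e * (P / R) ^ 2 * 1) := by
      rw [mul_one]
      exact (Odd.of_dvd_nat hPo heP).mul (Odd.of_dvd_nat hPo hd).pow
    have hqN : Nat.Coprime (R * f) (e * (P / R) ^ 2 * 1) := by
      rw [mul_one]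
      have c1 : Nat.Coprime R e := hco.coprime_dvd_right he'
      have c2 : Nat.Coprime R (e * (P / R) ^ 2) := c1.mul_right (hco.pow_right 2)
      exact Nat.Coprime.mul_left c2 (c2.coprime_dvd_left hfR)
    have hb := hPR (R * f) (e * (P / R) ^ 2 * 1) hqo hNo hqN Y hY1
    have hR1 : (R : ℝ) ≤ P := by exact_mod_cast Nat.le_of_dvd (Nat.pos_of_ne_zero hP0) hp.hR
    have hf1 : (f : ℝ) ≤ P := by exact_mod_cast Nat.le_of_dvd (Nat.pos_of_ne_zero hP0) hfP
    have he1 : (e : ℝ) ≤ P := by exact_mod_cast Nat.le_of_dvd (Nat.pos_of_ne_zero hP0) heP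
    have hd1 : ((P / R : ℕ) : ℝ) ≤ P := by
      exact_mod_cast Nat.le_of_dvd (Nat.pos_of_ne_zero hP0) hd
    have hq1 : ((R * f : ℕ) : ℝ) ≤ (P : ℝ) ^ 2 := by
      push_cast
      rw [sq]
      exact mul_le_mul hR1 hf1 (Nat.cast_nonneg _) (by linarith)
    have hN1 : ((e * (P / R) ^ 2 * 1 : ℕ) : ℝ) ≤ (P : ℝ) ^ 3 := by
      have : ((e * (P / R) ^ 2 * 1 : ℕ) : ℝ) = e * ((P / R : ℕ) : ℝ) ^ 2 := by
        push_cast
        ring
      rw [this]
      calc (e : ℝ) * ((P / R : ℕ) : ℝ) ^ 2 ≤ P * (P : ℝ) ^ 2 :=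
            mul_le_mul he1 (pow_le_pow_left₀ (Nat.cast_nonneg _) hd1 2) (by positivity)
              (by linarith)
        _ = _ := by ring
    have hP17 : (P : ℝ) ^ 17 ≤ X ^ (34 / 100 : ℝ) := by
      calc (P : ℝ) ^ 17 ≤ (X ^ (2 * (1 / 100) : ℝ)) ^ 17 :=
            pow_le_pow_left₀ (Nat.cast_nonneg _) hPle 17
        _ = X ^ (34 / 100 : ℝ) := by
            rw [← Real.rpow_natCast, ← Real.rpow_mul hX0.le]
            norm_num
    have hP2 : (P : ℝ) ^ 2 ≤ X ^ (4 / 100 : ℝ) := by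
      calc (P : ℝ) ^ 2 ≤ (X ^ (2 * (1 / 100) : ℝ)) ^ 2 :=
            pow_le_pow_left₀ (Nat.cast_nonneg _) hPle 2
        _ = X ^ (4 / 100 : ℝ) := by
            rw [← Real.rpow_natCast, ← Real.rpow_mul hX0.le]
            norm_num
    have hY2 : X ≤ Y ^ 2 := by
      calc X = (X ^ (1 / 2 : ℝ)) ^ 2 := by
            rw [← Real.rpow_natCast, ← Real.rpow_mul hX0.le]
            norm_num
        _ ≤ Y ^ 2 := pow_le_pow_left₀ (by positivity) hY 2
    have hYs : X ^ (1 / 4 : ℝ) ≤ √Y := by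
      refine Real.le_sqrt_of_sq_le ?_
      calc (X ^ (1 / 4 : ℝ)) ^ 2 = X ^ (1 / 2 : ℝ) := by
            rw [← Real.rpow_natCast, ← Real.rpow_mul hX0.le]
            norm_num
        _ ≤ Y := hY
    have t1 : ((e * (P / R) ^ 2 * 1 : ℕ) : ℝ) ^ 3 * ((R * f : ℕ) : ℝ) ^ 4 / Y ^ 2 ≤
        X ^ (-(21 / 100) : ℝ) := by
      calc ((e * (P / R) ^ 2 * 1 : ℕ) : ℝ) ^ 3 * ((R * f : ℕ) : ℝ) ^ 4 / Y ^ 2
          ≤ ((P : ℝ) ^ 3) ^ 3 * ((P : ℝ) ^ 2) ^ 4 / X := by
            refine div_le_div₀ (by positivity) (mul_le_mul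
              (pow_le_pow_left₀ (Nat.cast_nonneg _) hN1 3)
              (pow_le_pow_left₀ (Nat.cast_nonneg _) hq1 4) (by positivity) (by positivity)) hX0 hY2
        _ = (P : ℝ) ^ 17 / X := by ring
        _ ≤ X ^ (34 / 100 : ℝ) / X := div_le_div_of_nonneg_right hP17 hX0.le
        _ = X ^ (34 / 100 - 1 : ℝ) := by
            rw [Real.rpow_sub hX0, Real.rpow_one]
        _ ≤ X ^ (-(21 / 100) : ℝ) := Real.rpow_le_rpow_of_exponent_le hX1.le (by norm_num)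
    have t2 : ((R * f : ℕ) : ℝ) / √Y ≤ X ^ (-(21 / 100) : ℝ) := by
      calc ((R * f : ℕ) : ℝ) / √Y ≤ X ^ (4 / 100 : ℝ) / X ^ (1 / 4 : ℝ) :=
            div_le_div₀ (by positivity) (hq1.trans hP2) (by positivity) hYs
        _ = X ^ (4 / 100 - 1 / 4 : ℝ) := by rw [Real.rpow_sub hX0]
        _ ≤ X ^ (-(21 / 100) : ℝ) := Real.rpow_le_rpow_of_exponent_le hX1.le (by norm_num)
    rw [← mul_sub, abs_mul]
    have h3 : |eps Q e * ((ArithmeticFunction.moebius f : ℝ) / f)| ≤ 1 := by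
      rw [abs_mul]
      calc _ ≤ (1 : ℝ) * 1 := mul_le_mul (zero_eps Q e) (zero_muf (Nat.pos_of_mem_divisors hf'))
            (abs_nonneg _) (by norm_num)
        _ = 1 := one_mul 1
    calc _ ≤ 1 * (C * (((e * (P / R) ^ 2 * 1 : ℕ) : ℝ) ^ 3 * ((R * f : ℕ) : ℝ) ^ 4 / Y ^ 2 +
          ((R * f : ℕ) : ℝ) / √Y)) := mul_le_mul h3 hb (abs_nonneg _) (by norm_num)
      _ ≤ 1 * (C * (X ^ (-(21 / 100) : ℝ) + X ^ (-(21 / 100) : ℝ))) := by
          rw [one_mul, one_mul]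
          exact mul_le_mul_of_nonneg_left (add_le_add t1 t2) hC
      _ = _ := by ring
  -- all terms
  set E : ℝ := 2 * C * X ^ (-(21 / 100) : ℝ) with hE
  have hE0 : 0 ≤ E := by positivity
  have hc1 : ((P / R).divisors.card : ℝ) ≤ X ^ (1 / 100 : ℝ) := by
    refine le_trans ?_ hcard
    exact_mod_cast Finset.card_le_card (Nat.divisors_subset_of_dvd hP0 hd)
  have hc2 : (R.divisors.card : ℝ) ≤ X ^ (1 / 100 : ℝ) := by
    refine le_trans ?_ hcard
    exact_mod_cast Finset.card_le_card (Nat.divisors_subset_of_dvd hP0 hp.hR)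
  rw [abs_mul, abs_of_pos (by positivity : 0 < 1 / phP P)]
  have hx0 : 0 ≤ X ^ (1 / 100 : ℝ) := by positivity
  have hsum : |∑ e ∈ (P / R).divisors, (∑ f ∈ R.divisors,
      eps Q e * ((ArithmeticFunction.moebius f : ℝ) / f) *
          PRq F m c σ u (R * f) Y (e * (P / R) ^ 2 * 1) -
      ∑ f ∈ R.divisors, eps Q e * ((ArithmeticFunction.moebius f : ℝ) / f) *
          ((∫ t, F t) * gg 0 (e * (P / R) ^ 2 * 1)))| ≤
      X ^ (1 / 100 : ℝ) * (X ^ (1 / 100 : ℝ) * E) := by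
    refine (Finset.abs_sum_le_sum_abs _ _).trans ?_
    have hin : ∀ e ∈ (P / R).divisors, |∑ f ∈ R.divisors,
        eps Q e * ((ArithmeticFunction.moebius f : ℝ) / f) *
          PRq F m c σ u (R * f) Y (e * (P / R) ^ 2 * 1) -
        ∑ f ∈ R.divisors, eps Q e * ((ArithmeticFunction.moebius f : ℝ) / f) *
          ((∫ t, F t) * gg 0 (e * (P / R) ^ 2 * 1))| ≤ X ^ (1 / 100 : ℝ) * E := by
      intro e he
      rw [← Finset.sum_sub_distrib]
      refine (Finset.abs_sum_le_sum_abs _ _).trans ?_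
      refine (Finset.sum_le_sum fun f hf' => hone e he f hf').trans ?_
      rw [Finset.sum_const, nsmul_eq_mul]
      exact mul_le_mul_of_nonneg_right hc2 hE0
    refine (Finset.sum_le_sum hin).trans ?_
    rw [Finset.sum_const, nsmul_eq_mul]
    exact mul_le_mul_of_nonneg_right hc1 (by positivity)
  calc _ ≤ X ^ (1 / 100 : ℝ) * (X ^ (1 / 100 : ℝ) * (X ^ (1 / 100 : ℝ) * E)) :=
        mul_le_mul hphi hsum (abs_nonneg _) hx0
    _ = 2 * C * X ^ (1 / 100 + 1 / 100 + 1 / 100 + -(21 / 100) : ℝ) := by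
        rw [hE, Real.rpow_add hX0, Real.rpow_add hX0, Real.rpow_add hX0]
        ring
    _ ≤ 2 * C * X ^ (-(1 / 10) : ℝ) := by
        refine mul_le_mul_of_nonneg_left ?_ (by positivity)
        exact Real.rpow_le_rpow_of_exponent_le hX1.le (by norm_num)
    _ ≤ ε' := hX₁ X ((le_max_left _ _).trans hX)

end Pool.Agent.MP0016c7.Rz
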