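import Mathlib
import Pool.Agent.Lib.MP_0016c7_nt.PS.Stm2
import Pool.Agent.Lib.MP_0016c7_nt.PS.P_avsy
import Pool.Agent.Lib.MP_0016c7_nt.PS.P_bad
import Pool.Agent.Lib.MP_0016c7_nt.PS.P_bz
import Pool.Agent.Lib.MP_0016c7_nt.PS.P_ccp
import Pool.Agent.Lib.MP_0016c7_nt.PS.P_char
import Pool.Agent.Lib.MP_0016c7_nt.PS.P_cls
import Pool.Agent.Lib.MP_0016c7_nt.PS.P_cum
import Pool.Agent.Lib.MP_0016c7_nt.PS.P_dec
import Pool.Agent.Lib.MP_0016c7_nt.PS.P_det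
import Pool.Agent.Lib.MP_0016c7_nt.PS.P_dir
import Pool.Agent.Lib.MP_0016c7_nt.PS.P_dya
import Pool.Agent.Lib.MP_0016c7_nt.PS.P_errU
import Pool.Agent.Lib.MP_0016c7_nt.PS.P_errW
import Pool.Agent.Lib.MP_0016c7_nt.PS.P_fam
import Pool.Agent.Lib.MP_0016c7_nt.PS.P_fbs
import Pool.Agent.Lib.MP_0016c7_nt.PS.P_fin
import Pool.Agent.Lib.MP_0016c7_nt.PS.P_ind
import Pool.Agent.Lib.MP_0016c7_nt.PS.P_m1b
import Pool.Agent.Lib.MP_0016c7_nt.PS.P_m1s
import Pool.Agent.Lib.MP_0016c7_nt.PS.P_m2b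
import Pool.Agent.Lib.MP_0016c7_nt.PS.P_m2s
import Pool.Agent.Lib.MP_0016c7_nt.PS.P_mple
import Pool.Agent.Lib.MP_0016c7_nt.PS.P_nsc
import Pool.Agent.Lib.MP_0016c7_nt.PS.P_per
import Pool.Agent.Lib.MP_0016c7_nt.PS.P_poi2
import Pool.Agent.Lib.MP_0016c7_nt.PS.P_poi8
import Pool.Agent.Lib.MP_0016c7_nt.PS.P_qav
import Pool.Agent.Lib.MP_0016c7_nt.PS.P_qerr
import Pool.Agent.Lib.MP_0016c7_nt.PS.P_rep
import Pool.Agent.Lib.MP_0016c7_nt.PS.P_ser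
import Pool.Agent.Lib.MP_0016c7_nt.PS.P_shc
import Pool.Agent.Lib.MP_0016c7_nt.PS.P_shd
import Pool.Agent.Lib.MP_0016c7_nt.PS.P_size
import Pool.Agent.Lib.MP_0016c7_nt.PS.P_split
import Pool.Agent.Lib.MP_0016c7_nt.PS.P_sqf
import Pool.Agent.Lib.MP_0016c7_nt.PS.P_sumkU
import Pool.Agent.Lib.MP_0016c7_nt.PS.P_sumkWU
import Pool.Agent.Lib.MP_0016c7_nt.PS.P_tail
import Pool.Agent.Lib.MP_0016c7_nt.PS.P_tt
import Pool.Agent.Lib.MP_0016c7_nt.PS.P_van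
import Pool.Agent.Lib.MP_0016c7_nt.PS.P_wS
import Pool.Agent.Lib.MP_0016c7_nt.PS.P_wSl
import Pool.Agent.Lib.MP_0016c7_nt.PS.P_wSm
import Pool.Agent.Lib.MP_0016c7_nt.PS.P_ybc
import Pool.Agent.Lib.MP_0016c7_nt.PS.P_zero
import Pool.Agent.Lib.MP_0016c7_nt.Rz2.Qls

set_option autoImplicit false

/-!
Prescribed splitting: assembly.
-/

open Finset MeasureTheory Filter Topology
open scoped Real ContDiff

namespace Pool.Agent.MP0016c7.Rz

theorem ps_fin : D_fin := by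
  have hQ : QlsHyp := qlsHyp
  have hsize := p_size
  have hchar := p_char
  have hwS := p_wS
  have hwSm := p_wSm hwS
  have hwSl := p_wSl hwSm hwS hsize
  have hshc := p_shc hwS
  have hshd := p_shd hwS hshc
  have hybc := p_ybc
  have hpoi2 := p_poi2
  have hpoi8 := p_poi8
  have havsy := p_avsy p_ind
  have hdec := p_dec (p_split hpoi2 hpoi8) havsy p_nsc hsize
  have herrU := p_errU (p_sumkWU p_sumkU) p_tail
  have hqav := p_qav hdec (p_errW herrU) p_qerr hsize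
  have hzero := p_zero hpoi2 hpoi8 havsy hsize
  have hsqf := p_sqf hzero hsize
  have hm2b := p_m2b hqav p_tt hzero (p_rep p_bz) (p_mple hsize) hsize p_ccp p_wbd p_bc
  have hm1b := p_m1b hsize
  have hm2s := p_m2s hwS hshc
  have hm1s := p_m1s hwS hshc
  have hdet := p_det hwS
  have hvan := p_van p_ser (p_dir hwS) hybc
  have hbad := p_bad hdet hvan hchar hwSl
  have hfam : D_fam := p_fam hm2b hm1b hm2s hm1s p_per hbad hzero hsqf hwSl hshc hshd hybc hsize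
  exact p_fin (p_cum (p_dya hfam p_fbs) hsize) (p_cls hchar)

end Pool.Agent.MP0016c7.Rz
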