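import Mathlib
import Pool.Agent.Lib.MP_0016c7_nt.PS.Main
import Pool.Agent.Lib.MP_0016c7_nt.Rz.HandU

set_option autoImplicit false

/-!
Prescribed splitting: the final statement.
-/

open Finset
open scoped Real

namespace Pool.Agent.MP0016c7.Rz

theorem ps_hand : ∃ c : ℝ, 0 < c ∧ ∃ Q₀ : ℕ, ∀ Q : ℕ, Q₀ ≤ Q →
    ∀ T : Finset ℕ, (∀ p ∈ T, p.Prime) → (∏ p ∈ T, (p : ℝ)) ≤ (Q : ℝ) ^ c →
    (∀ S : Set (ℕ × ℂ × (T → ℂ)),
      (874 / 1000 : ℝ) * Nat.card {x : (q : ℕ) × DirichletCharacter ℂ q |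
          x ∈ PQ Q ∧ (Nat.gcd x.1 8, x.2 (-1), fun p : T => x.2 ((p : ℕ) : ZMod x.1)) ∈ S} ≤
        Nat.card {x : (q : ℕ) × DirichletCharacter ℂ q |
          (x ∈ PQ Q ∧ (Nat.gcd x.1 8, x.2 (-1), fun p : T => x.2 ((p : ℕ) : ZMod x.1)) ∈ S) ∧
          ∀ (N : ℕ) (_ : NeZero N) (hN : x.1 ∣ N) (s : ℝ), 0 < s → s < 1 →
            ((DirichletCharacter.changeLevel hN x.2).LFunction s).im = 0 ∧
              0 < ((DirichletCharacter.changeLevel hN x.2).LFunction s).re}) ∧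
    ∀ (σ : ℤ) (e : T → ℤ), (σ = 1 ∨ σ = -1) → (∀ p, e p = 0 ∨ e p = 1 ∨ e p = -1) →
      (874 / 1000 : ℝ) * (Q : ℝ) ^ (9 / 10 : ℝ) ≤
        Nat.card {x : (q : ℕ) × DirichletCharacter ℂ q |
          (x ∈ PQ Q ∧ x.2 (-1) = (σ : ℂ) ∧ ∀ p : T, x.2 ((p : ℕ) : ZMod x.1) = (e p : ℂ)) ∧
          ∀ (N : ℕ) (_ : NeZero N) (hN : x.1 ∣ N) (s : ℝ), 0 < s → s < 1 →
            ((DirichletCharacter.changeLevel hN x.2).LFunction s).im = 0 ∧
              0 < ((DirichletCharacter.changeLevel hN x.2).LFunction s).re} := by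
  classical
  obtain ⟨c, hc, Q₀, h⟩ := ps_fin
  refine ⟨c, hc, Q₀, fun Q hQ T hT hTc => ?_⟩
  obtain ⟨h1, h2⟩ := h Q hQ T hT hTc
  have hval : ∀ x : (q : ℕ) × DirichletCharacter ℂ q,
      (fun p : T => valT T x p) = fun p : T => x.2 ((p : ℕ) : ZMod x.1) := by
    intro x
    funext p
    simp [valT, p.2]
  have hS : ∀ S : Set (ℕ × ℂ × (T → ℂ)),
      (874 / 1000 : ℝ) * Nat.card {x : (q : ℕ) × DirichletCharacter ℂ q |
          x ∈ PQ Q ∧ (Nat.gcd x.1 8, x.2 (-1), fun p : T => x.2 ((p : ℕ) : ZMod x.1)) ∈ S} ≤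
        Nat.card {x : (q : ℕ) × DirichletCharacter ℂ q |
          (x ∈ PQ Q ∧ (Nat.gcd x.1 8, x.2 (-1), fun p : T => x.2 ((p : ℕ) : ZMod x.1)) ∈ S) ∧
          ∀ (N : ℕ) (_ : NeZero N) (hN : x.1 ∣ N) (s : ℝ), 0 < s → s < 1 →
            ((DirichletCharacter.changeLevel hN x.2).LFunction s).im = 0 ∧
              0 < ((DirichletCharacter.changeLevel hN x.2).LFunction s).re} := by
    intro S
    have h3 := h1 {t | (t.1, t.2.1, fun p : T => t.2.2 p) ∈ S}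
    simp only [Set.mem_ofPred_eq, hval] at h3
    refine h3.trans (Nat.cast_le.mpr ?_)
    refine Nat.card_mono ((PQ_finite Q).subset fun x hx => hx.1.1) ?_
    rintro x ⟨hx, hz⟩
    exact ⟨hx, fun N hN0 hN s hs0 hs1 => pos_of_NZx hx.1 hz N (NeZero.pos N) hN s hs0 hs1⟩
  refine ⟨hS, fun σ e hσ he => ?_⟩
  have h4 := h2 (fun p => if hp : p ∈ T then e ⟨p, hp⟩ else 0) (fun p => by
    split_ifs with hp
    · exact he _
    · exact Or.inl rfl) σ hσ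
  have h5 := hS {t | t.2.1 = (σ : ℂ) ∧ ∀ p : T, t.2.2 p = (e p : ℂ)}
  simp only [Set.mem_ofPred_eq] at h5
  refine le_trans (mul_le_mul_of_nonneg_left (h4.trans (Nat.cast_le.mpr ?_)) (by norm_num)) h5
  refine Nat.card_mono ((PQ_finite Q).subset fun x hx => hx.1) ?_
  rintro x ⟨hx, hs, hp⟩
  refine ⟨hx, hs, fun p => ?_⟩
  rw [hp p.1 p.2, dif_pos p.2]

end Pool.Agent.MP0016c7.Rz
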