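import Mathlib
import Pool.Agent.Lib.MP_0016c7_nt.PS.Main
import Pool.Agent.Lib.MP_0016c7_nt.Rz.HandU

set_option autoImplicit false

/-!
Prescribed splitting: the final statement.
-/

open Finset MeasureTheory Filter Topology
open scoped Real ContDiff

namespace Pool.Agent.MP0016c7.Rz

theorem ps_final : ∃ c : ℝ, 0 < c ∧ ∃ Q₀ : ℕ, ∀ Q : ℕ, Q₀ ≤ Q →
    ∀ T : Finset ℕ, (∀ p ∈ T, p.Prime) → (∏ p ∈ T, (p : ℝ)) ≤ (Q : ℝ) ^ c →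
    (∀ S : Set (ℕ × ℂ × (T → ℂ)),
      (874 / 1000 : ℝ) * Nat.card {x : (q : ℕ) × DirichletCharacter ℂ q |
        ((0 < x.1 ∧ x.1 ≤ Q) ∧ x.2.IsPrimitive ∧ x.2 ^ 2 = 1 ∧ x.2 ≠ 1) ∧
        (Nat.gcd x.1 8, x.2 (-1), fun p : T => x.2 (p : ℕ)) ∈ S} ≤
      Nat.card {x : (q : ℕ) × DirichletCharacter ℂ q |
        (((0 < x.1 ∧ x.1 ≤ Q) ∧ x.2.IsPrimitive ∧ x.2 ^ 2 = 1 ∧ x.2 ≠ 1) ∧
          (Nat.gcd x.1 8, x.2 (-1), fun p : T => x.2 (p : ℕ)) ∈ S) ∧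
        ∀ (N : ℕ) (_ : NeZero N) (hN : x.1 ∣ N) (s : ℝ), 0 < s → s < 1 →
          ((DirichletCharacter.changeLevel hN x.2).LFunction s).im = 0 ∧
            0 < ((DirichletCharacter.changeLevel hN x.2).LFunction s).re}) ∧
    ∀ e : ℕ → ℤ, (∀ p, e p = 0 ∨ e p = 1 ∨ e p = -1) → ∀ σ : ℤ, (σ = 1 ∨ σ = -1) →
      (Q : ℝ) ^ (9 / 10 : ℝ) ≤ Nat.card {x : (q : ℕ) × DirichletCharacter ℂ q |
        ((0 < x.1 ∧ x.1 ≤ Q) ∧ x.2.IsPrimitive ∧ x.2 ^ 2 = 1 ∧ x.2 ≠ 1) ∧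
        x.2 (-1) = (σ : ℂ) ∧ ∀ p ∈ T, x.2 p = (e p : ℂ)} := by
  obtain ⟨c, hc, Q₀, H⟩ := ps_fin
  refine ⟨c, hc, Q₀, fun Q hQ T hT hle => ?_⟩
  obtain ⟨h1, h2⟩ := H Q hQ T hT hle
  refine ⟨fun S => ?_, h2⟩
  set S' : Set (ℕ × ℂ × (ℕ → ℂ)) := {t | (t.1, t.2.1, fun p : T => t.2.2 (p : ℕ)) ∈ S} with hS'
  have hmem : ∀ x : (q : ℕ) × DirichletCharacter ℂ q,
      (Nat.gcd x.1 8, x.2 (-1), valT T x) ∈ S' ↔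
      (Nat.gcd x.1 8, x.2 (-1), fun p : T => x.2 (p : ℕ)) ∈ S := by
    intro x
    have e : (fun p : T => valT T x (p : ℕ)) = fun p : T => x.2 (p : ℕ) := by
      funext p
      unfold valT
      rw [if_pos p.2]
    simp only [hS', Set.mem_ofPred_eq]
    rw [e]
  have h3 := h1 S'
  have e1 : {x : (q : ℕ) × DirichletCharacter ℂ q |
        x ∈ PQ Q ∧ (Nat.gcd x.1 8, x.2 (-1), valT T x) ∈ S'} =
      {x : (q : ℕ) × DirichletCharacter ℂ q |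
        ((0 < x.1 ∧ x.1 ≤ Q) ∧ x.2.IsPrimitive ∧ x.2 ^ 2 = 1 ∧ x.2 ≠ 1) ∧
        (Nat.gcd x.1 8, x.2 (-1), fun p : T => x.2 (p : ℕ)) ∈ S} := by
    ext x
    simp only [Set.mem_ofPred_eq, hmem]
    exact Iff.rfl
  rw [e1] at h3
  refine h3.trans ?_
  rw [Nat.card_coe_set_eq, Nat.card_coe_set_eq, Nat.cast_le]
  refine Set.ncard_le_ncard ?_ ((PQ_finite Q).subset fun x hx => hx.1.1)
  rintro x ⟨⟨hx, hS⟩, hnz⟩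
  refine ⟨⟨hx, (hmem x).1 hS⟩, fun N hN0 hN s hs0 hs1 => ?_⟩
  exact pos_of_NZx hx hnz N (Nat.pos_of_ne_zero hN0.ne) hN s hs0 hs1

end Pool.Agent.MP0016c7.Rz
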