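import Mathlib
import Pool.Agent.Lib.MP_0016c7_nt.PS.Stm
import Pool.Agent.Lib.MP_0016c7_nt.Rz2.DetS
import Pool.Agent.Lib.MP_0016c7_nt.Rz.KerPhi

set_option autoImplicit false

/-!
The lower bound of the tail (piece det of the prescribed splitting project).
-/

open Finset MeasureTheory Filter Topology
open scoped Real ContDiff

namespace Pool.Agent.MP0016c7.Rz

/-! ### Summability of the mean shift -/

/-- `n ↦ n ^ (-1/4)` as a monoid homomorphism. -/
private noncomputable def det_f : ℕ →* ℝ where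
  toFun n := (n : ℝ) ^ (-(1 / 4) : ℝ)
  map_one' := by simp
  map_mul' m n := by
    push_cast
    rw [Real.mul_rpow (by positivity) (by positivity)]

private lemma det_f_apply (n : ℕ) : det_f n = (n : ℝ) ^ (-(1 / 4) : ℝ) := rfl

private lemma det_sumA (A : Finset ℕ) :
    Summable (fun n : ℕ => if n ∈ Nat.factoredNumbers A then (n : ℝ) ^ (-(1 / 4) : ℝ) else 0) := by
  classical
  have h1 := (EulerProduct.summable_and_hasSum_factoredNumbers_prod_filter_prime_geometric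
    (f := det_f) (fun {p} hp => by
      rw [det_f_apply, Real.norm_of_nonneg (by positivity)]
      exact Real.rpow_lt_one_of_one_lt_of_neg (by exact_mod_cast hp.one_lt) (by norm_num)) A).1
  have h2 := (summable_subtype_iff_indicator (f := fun n : ℕ => ‖det_f n‖)
    (s := Nat.factoredNumbers A)).mp h1
  refine h2.congr fun n => ?_
  rw [Set.indicator_apply]
  split_ifs with h
  · rw [det_f_apply, Real.norm_of_nonneg (by positivity)]
  · rfl

private lemma det_sumB (M : ℕ) (hM : M ≠ 0) :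
    Summable (fun b : ℕ => if b ∣ M then (1 : ℝ) else 0) := by
  refine summable_of_ne_finset_zero (s := M.divisors) fun b hb => ?_
  rw [if_neg]
  intro h
  exact hb (Nat.mem_divisors.mpr ⟨h, hM⟩)

private lemma det_prod_ne {B : Finset ℕ} (hB : ∀ p ∈ B, p.Prime) : ∏ p ∈ B, p ≠ 0 :=
  Finset.prod_ne_zero_iff.mpr fun p hp => (hB p hp).ne_zero

private lemma det_summable {A B : Finset ℕ} (hB : ∀ p ∈ B, p.Prime) {L : ℝ} (hL : 0 < L) :
    Summable (fun q => wS A B q * |sS L q|) := by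
  classical
  set M := ∏ p ∈ B, p with hM
  have hM0 : M ≠ 0 := det_prod_ne hB
  have h1 : Summable (fun q : ℕ × ℕ => (if q.1 ∈ Nat.factoredNumbers A then
      (q.1 : ℝ) ^ (-(1 / 4) : ℝ) else 0) * (if q.2 ∣ M then (1 : ℝ) else 0)) :=
    Summable.mul_of_nonneg (f := fun n : ℕ => if n ∈ Nat.factoredNumbers A then
      (n : ℝ) ^ (-(1 / 4) : ℝ) else 0) (g := fun b : ℕ => if b ∣ M then (1 : ℝ) else 0)
      (det_sumA A) (det_sumB M hM0) (fun n => by
        simp only [Pi.zero_apply]; split_ifs <;> positivity) (fun b => by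
        simp only [Pi.zero_apply]; split_ifs <;> norm_num)
  set K := |(∏ p ∈ A, (1 - 1 / √(p : ℝ))) / (∏ p ∈ B, (1 + 1 / √(p : ℝ)))| with hK
  refine (h1.mul_left (K * ((4 + Real.log M) / L))).of_norm_bounded fun q => ?_
  rw [Real.norm_eq_abs, abs_mul, abs_abs]
  unfold wS
  rw [abs_mul, ← hK, ← hM]
  by_cases hq : q.1 ∈ Nat.factoredNumbers A ∧ q.2 ∣ M
  · rw [if_pos hq, if_pos hq.1, if_pos hq.2]
    have hn0 : 0 < q.1 := Nat.pos_of_ne_zero (Nat.ne_zero_of_mem_factoredNumbers hq.1)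
    have hb0 : 0 < q.2 := Nat.pos_of_dvd_of_pos hq.2 (Nat.pos_of_ne_zero hM0)
    have hn : (1 : ℝ) ≤ q.1 := by exact_mod_cast hn0
    have hb : (1 : ℝ) ≤ q.2 := by exact_mod_cast hb0
    have hbM : (q.2 : ℝ) ≤ M := by
      exact_mod_cast Nat.le_of_dvd (Nat.pos_of_ne_zero hM0) hq.2
    have hln : 0 ≤ Real.log q.1 := Real.log_nonneg hn
    have hlb : 0 ≤ Real.log q.2 := Real.log_nonneg hb
    have hlM : Real.log q.2 ≤ Real.log M := Real.log_le_log (by linarith) hbM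
    have hs : |sS L q| ≤ (Real.log q.1 + Real.log M) / L := by
      unfold sS
      rw [abs_div, abs_of_pos hL]
      refine div_le_div_of_nonneg_right ?_ hL.le
      rw [abs_le]
      constructor <;> linarith
    have hw : |1 / √((q.1 * q.2 : ℕ) : ℝ)| ≤ 1 / √(q.1 : ℝ) := by
      rw [abs_of_nonneg (by positivity)]
      refine one_div_le_one_div_of_le (Real.sqrt_pos.mpr (by linarith)) (Real.sqrt_le_sqrt ?_)
      push_cast
      nlinarith
    have hlog : Real.log q.1 ≤ 4 * (q.1 : ℝ) ^ (1 / 4 : ℝ) := by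
      have := Real.log_le_rpow_div (x := (q.1 : ℝ)) (by linarith) (ε := 1 / 4) (by norm_num)
      linarith
    have hone : 1 ≤ (q.1 : ℝ) ^ (1 / 4 : ℝ) := Real.one_le_rpow hn (by norm_num)
    have hlM0 : 0 ≤ Real.log M := hlb.trans hlM
    have hsq : 1 / √(q.1 : ℝ) * (q.1 : ℝ) ^ (1 / 4 : ℝ) = (q.1 : ℝ) ^ (-(1 / 4) : ℝ) := by
      rw [Real.sqrt_eq_rpow, one_div ((q.1 : ℝ) ^ (1 / 2 : ℝ)), ← Real.rpow_neg (by linarith),
        ← Real.rpow_add (by linarith)]
      norm_num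
    have hmain : |1 / √((q.1 * q.2 : ℕ) : ℝ)| * |sS L q| ≤
        (4 + Real.log M) / L * (q.1 : ℝ) ^ (-(1 / 4) : ℝ) := by
      calc |1 / √((q.1 * q.2 : ℕ) : ℝ)| * |sS L q| ≤
          1 / √(q.1 : ℝ) * ((Real.log q.1 + Real.log M) / L) :=
            mul_le_mul hw hs (abs_nonneg _) (by positivity)
        _ ≤ 1 / √(q.1 : ℝ) * (((4 + Real.log M) * (q.1 : ℝ) ^ (1 / 4 : ℝ)) / L) := by
            refine mul_le_mul_of_nonneg_left (div_le_div_of_nonneg_right ?_ hL.le) (by positivity)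
            nlinarith
        _ = (4 + Real.log M) / L * (1 / √(q.1 : ℝ) * (q.1 : ℝ) ^ (1 / 4 : ℝ)) := by ring
        _ = _ := by rw [hsq]
    calc K * |1 / √((q.1 * q.2 : ℕ) : ℝ)| * |sS L q| =
        K * (|1 / √((q.1 * q.2 : ℕ) : ℝ)| * |sS L q|) := by ring
      _ ≤ K * ((4 + Real.log M) / L * (q.1 : ℝ) ^ (-(1 / 4) : ℝ)) :=
        mul_le_mul_of_nonneg_left hmain (abs_nonneg _)
      _ = _ := by ring
  · rw [if_neg hq]
    simp only [abs_zero, mul_zero, zero_mul]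
    have hlM0 : 0 ≤ Real.log M := Real.log_natCast_nonneg M
    have : 0 ≤ (if q.1 ∈ Nat.factoredNumbers A then (q.1 : ℝ) ^ (-(1 / 4) : ℝ) else 0) *
        (if q.2 ∣ M then (1 : ℝ) else 0) := by
      refine mul_nonneg ?_ ?_ <;> split_ifs <;> positivity
    positivity

/-! ### The averaged function -/

/-- The average of `kpPhi` over the shifts. -/
private noncomputable def detPhi {ι : Type} (w s : ι → ℝ) (s₀ : ℝ) (σ : ℤ) (D : ℕ) (h : ℝ → ℝ)
    (L t : ℝ) : ℝ :=
  ∑' q, w q * kpPhi σ D h L (t + s₀ + s q)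

private lemma det_term_le {ι : Type} {w s : ι → ℝ} {s₀ : ℝ} (hw0 : ∀ q, 0 ≤ w q)
    (hs : ∀ q, w q ≠ 0 → -s₀ ≤ s q) {h : ℝ → ℝ} {θ L : ℝ} (hh : Bump h 0 θ) (hL : 0 < L)
    (σ : ℤ) (D : ℕ) (t : ℝ) (q : ι) :
    |w q * kpPhi σ D h L (t + s₀ + s q)| ≤
      w q * (2 * (∫ x, |h x|) * Real.exp (3 * θ * L) * Real.exp (-2 * t * L)) := by
  have hI : 0 ≤ ∫ x, |h x| := integral_nonneg fun x => abs_nonneg _
  rw [abs_mul, abs_of_nonneg (hw0 q)]
  by_cases h0 : w q = 0
  · rw [h0]; simp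
  · refine mul_le_mul_of_nonneg_left ?_ (hw0 q)
    refine (abs_kpPhi_le hh hL σ D _).trans ?_
    have h2 : Real.exp (-2 * (t + s₀ + s q) * L) ≤ Real.exp (-2 * t * L) := by
      apply Real.exp_le_exp.mpr
      have h4 := hs q h0
      have h3 : 0 ≤ (s₀ + s q) * L := mul_nonneg (by linarith only [h4]) hL.le
      nlinarith only [h3]
    gcongr

private lemma det_summ {ι : Type} {w s : ι → ℝ} {s₀ : ℝ} (hw0 : ∀ q, 0 ≤ w q)
    (hw1 : HasSum w 1) (hs : ∀ q, w q ≠ 0 → -s₀ ≤ s q) {h : ℝ → ℝ} {θ L : ℝ} (hh : Bump h 0 θ)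
    (hL : 0 < L) (σ : ℤ) (D : ℕ) (t : ℝ) :
    Summable (fun q => w q * kpPhi σ D h L (t + s₀ + s q)) :=
  (hw1.summable.mul_right _).of_norm_bounded (fun q => by
    rw [Real.norm_eq_abs]
    exact det_term_le hw0 hs hh hL σ D t q)

private lemma det_abs_le {ι : Type} {w s : ι → ℝ} {s₀ : ℝ} (hw0 : ∀ q, 0 ≤ w q)
    (hw1 : HasSum w 1) (hs : ∀ q, w q ≠ 0 → -s₀ ≤ s q) {h : ℝ → ℝ} {θ L : ℝ} (hh : Bump h 0 θ)
    (hL : 0 < L) (σ : ℤ) (D : ℕ) (t : ℝ) :
    |detPhi w s s₀ σ D h L t| ≤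
      2 * (∫ x, |h x|) * Real.exp (3 * θ * L) * Real.exp (-2 * t * L) := by
  have h1 := tsum_of_norm_bounded (hw1.mul_right
    (2 * (∫ x, |h x|) * Real.exp (3 * θ * L) * Real.exp (-2 * t * L)))
    (f := fun q => w q * kpPhi σ D h L (t + s₀ + s q)) (fun q => by
      rw [Real.norm_eq_abs]
      exact det_term_le hw0 hs hh hL σ D t q)
  rw [Real.norm_eq_abs, one_mul] at h1
  exact h1

private lemma det_cont {ι : Type} {w s : ι → ℝ} {s₀ : ℝ} (hw0 : ∀ q, 0 ≤ w q)
    (hw1 : HasSum w 1) (hs : ∀ q, w q ≠ 0 → -s₀ ≤ s q) {h : ℝ → ℝ} {θ L : ℝ} (hh : Bump h 0 θ)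
    (hL : 0 < L) (σ : ℤ) (D : ℕ) : Continuous (detPhi w s s₀ σ D h L) := by
  rw [continuous_iff_continuousAt]
  intro t₀
  have h1 : ContinuousOn (detPhi w s s₀ σ D h L) (Set.Ioi (t₀ - 1)) := by
    unfold detPhi
    refine continuousOn_tsum (u := fun q => w q *
      (2 * (∫ x, |h x|) * Real.exp (3 * θ * L) * Real.exp (-2 * (t₀ - 1) * L))) (fun q => ?_)
      (hw1.summable.mul_right _) ?_
    · exact (continuous_const.mul ((continuous_kpPhi hh hL σ D).comp
        (by fun_prop))).continuousOn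
    · intro q t ht
      rw [Real.norm_eq_abs]
      refine (det_term_le hw0 hs hh hL σ D t q).trans ?_
      have hI : 0 ≤ ∫ x, |h x| := integral_nonneg fun x => abs_nonneg _
      have ht' : t₀ - 1 < t := ht
      have h3 : Real.exp (-2 * t * L) ≤ Real.exp (-2 * (t₀ - 1) * L) := by
        apply Real.exp_le_exp.mpr
        nlinarith only [hL, ht']
      have h4 := hw0 q
      gcongr
  exact h1.continuousAt (Ioi_mem_nhds (by linarith))

private lemma det_HH_anti {h : ℝ → ℝ} {a θ : ℝ} (hh : Bump h a θ) (hn : ∀ t, 0 ≤ h t) {x y : ℝ}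
    (hxy : x ≤ y) : HH h y ≤ HH h x := by
  unfold HH
  exact setIntegral_mono_set hh.integrable.integrableOn (ae_of_all _ fun t => hn t)
    (LE.le.eventuallyLE (Set.Ioi_subset_Ioi hxy))

private lemma det_low {ι : Type} {w s : ι → ℝ} {s₀ δ η : ℝ} (hw0 : ∀ q, 0 ≤ w q)
    (hw1 : HasSum w 1) (hs : ∀ q, w q ≠ 0 → -s₀ ≤ s q) (hδ : 0 < δ)
    (hsum : Summable fun q => w q * |s q|) (hη : 8 / δ * ∑' q, w q * |s q| ≤ η)
    {h : ℝ → ℝ} {θ L : ℝ} (hh : Bump h 0 θ) (hhn : ∀ t, 0 ≤ h t)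
    (hL : 0 < L) (σ : ℤ) (D : ℕ) {t : ℝ} (ht : 0 ≤ t) :
    (1 - η) * HH h (t + (s₀ + δ / 8)) ≤ detPhi w s s₀ σ D h L t := by
  set H := HH h (t + (s₀ + δ / 8)) with hH
  have hH0 : 0 ≤ H := HH_nonneg hhn _
  have h1 : HasSum (fun q => H * (w q - 8 / δ * (w q * |s q|)))
      (H * (1 - 8 / δ * ∑' q, w q * |s q|)) :=
    (hw1.sub (hsum.hasSum.mul_left (8 / δ))).mul_left H
  have h2 : H * (1 - 8 / δ * ∑' q, w q * |s q|) ≤ detPhi w s s₀ σ D h L t := by
    refine hasSum_le (fun q => ?_) h1 (det_summ hw0 hw1 hs hh hL σ D t).hasSum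
    by_cases h0 : w q = 0
    · rw [h0]; simp
    · have h4 := hs q h0
      have h5 := hw0 q
      rw [kpPhi_of_nonneg hh hL (by linarith only [ht, h4])]
      have h6 := HH_nonneg hhn (t + s₀ + s q)
      have h9 : H * (w q - 8 / δ * (w q * |s q|)) = w q * (H * (1 - 8 / δ * |s q|)) := by ring
      rw [h9]
      refine mul_le_mul_of_nonneg_left ?_ h5
      have habs : 0 ≤ 8 / δ * |s q| := by positivity
      rcases le_or_gt (s q) (δ / 8) with h7 | h7
      · have h8 : H ≤ HH h (t + s₀ + s q) := det_HH_anti hh hhn (by linarith only [h7])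
        nlinarith only [h8, habs, hH0]
      · have h8 : 1 ≤ 8 / δ * |s q| := by
          rw [div_mul_eq_mul_div, le_div_iff₀ hδ]
          have := le_abs_self (s q)
          linarith only [this, h7]
        have h10 : H * (1 - 8 / δ * |s q|) ≤ 0 :=
          mul_nonpos_of_nonneg_of_nonpos hH0 (by linarith only [h8])
        linarith only [h10, h6]
  refine le_trans ?_ h2
  rw [mul_comm]
  exact mul_le_mul_of_nonneg_left (by linarith only [hη]) hH0

/-! ### The representation of the process -/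

private lemma det_repr {ι : Type} [Countable ι] {w s : ι → ℝ} {s₀ : ℝ} (hw0 : ∀ q, 0 ≤ w q)
    (hw1 : HasSum w 1) (hs : ∀ q, w q ≠ 0 → -s₀ ≤ s q) {c : ℝ} (hc : 0 ≤ c) {ρ h : ℝ → ℝ}
    {a b θ X : ℝ} (hρ : Bump ρ a b)
    (hh : Bump h 0 θ) (hX : 1 < X) (σ : ℤ) (D : ℕ) (Y : ℝ) :
    ∑' q, w q * ytil c σ ρ h X D (Y - s q) =
      dsT c ρ (detPhi w s s₀ σ D h (Real.log X)) (Real.log X) (Y + s₀) := by
  have hL : 0 < Real.log X := Real.log_pos hX
  set L := Real.log X with hLdef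
  have hI : 0 ≤ ∫ x, |h x| := integral_nonneg fun x => abs_nonneg _
  have hterm : ∀ q, w q * ytil c σ ρ h X D (Y - s q) =
      (∫ z : ℝ × ℝ, kap c z.1 * ρ z.2 * (w q *
        kpPhi σ D h L (z.2 - (Y + s₀) - z.1 / L + s₀ + s q))
        ∂(volume.prod volume)) / Gam0 c := by
    intro q
    rw [(ytil_eq_kpF hc hρ hh hX σ D _).2, ← hLdef, ← mul_div_assoc, ← integral_const_mul]
    congr 1
    refine integral_congr_ae (ae_of_all _ fun z => ?_)
    simp only [kpF]
    have h1 : z.2 - (Y - s q) - z.1 / L = z.2 - (Y + s₀) - z.1 / L + s₀ + s q := by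
      ring
    rw [h1]
    ring
  have hsum : HasSum (fun q => ∫ z : ℝ × ℝ, kap c z.1 * ρ z.2 * (w q *
        kpPhi σ D h L (z.2 - (Y + s₀) - z.1 / L + s₀ + s q))
        ∂(volume.prod volume))
      (∫ z : ℝ × ℝ, kap c z.1 * ρ z.2 * (∑' q, w q *
        kpPhi σ D h L (z.2 - (Y + s₀) - z.1 / L + s₀ + s q))
        ∂(volume.prod volume)) := by
    refine hasSum_integral_of_dominated_convergence (fun q z => w q *
      (2 * (∫ x, |h x|) * Real.exp (3 * θ * L) *
        ((kap c z.1 * Real.exp (2 * z.1)) * (|ρ z.2| * Real.exp (2 * L * ((Y + s₀) - z.2))))))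
        ?_ ?_ ?_ ?_ ?_
    · intro q
      refine Continuous.aestronglyMeasurable ?_
      refine (((continuous_kap c).comp continuous_fst).mul
        (hρ.continuous'.comp continuous_snd)).mul ?_
      exact continuous_const.mul ((continuous_kpPhi hh hL σ D).comp (by fun_prop))
    · intro q
      refine ae_of_all _ fun z => ?_
      rw [Real.norm_eq_abs, abs_mul, abs_mul, abs_of_pos (kap_pos c z.1)]
      have h1 := det_term_le hw0 hs hh hL σ D (z.2 - (Y + s₀) - z.1 / L) q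
      rw [kp_exp_identity hL] at h1
      have h2 := (kap_pos c z.1).le
      calc kap c z.1 * |ρ z.2| * |w q *
            kpPhi σ D h L (z.2 - (Y + s₀) - z.1 / L + s₀ + s q)| ≤
          kap c z.1 * |ρ z.2| * (w q * (2 * (∫ x, |h x|) * Real.exp (3 * θ * L) *
            (Real.exp (2 * z.1) * Real.exp (2 * L * ((Y + s₀) - z.2))))) := by
            gcongr
        _ = _ := by ring
    · exact ae_of_all _ fun z => hw1.summable.mul_right _
    · simp_rw [tsum_mul_right]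
      exact ((integrable_kp_majorant hc (k := 2) (by norm_num) hρ L (Y + s₀)).const_mul
        _).const_mul _
    · refine ae_of_all _ fun z => ?_
      exact (det_summ hw0 hw1 hs hh hL σ D _).hasSum.mul_left _
  have hsum2 := hsum.div_const (Gam0 c)
  have hsum3 := hsum2.congr_fun (fun p => (hterm p))
  rw [hsum3.tsum_eq]
  unfold dsT
  congr 1

private lemma det_Hid_nonneg {θ₀ : ℝ} (hθ₀ : 0 < θ₀) (x : ℝ) : 0 ≤ Hid θ₀ x := by
  unfold Hid
  split_ifs with h
  · exact le_rfl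
  · push Not at h
    have h1 : max x 0 ≤ θ₀ := max_le h.le hθ₀.le
    have h2 : 0 ≤ max x 0 := le_max_right _ _
    nlinarith only [h1, hθ₀, h2]

theorem p_det (hw : D_wS) : D_det := by
  intro ρ h δ θ θ₀ hδ hδ4 hθ₀ hθ hθ2 hρ hρn hρ1 hh hhn hH c' hc' σ κ u hκ X one lim A B s₀ hs₀
    hs₁ hq P ε' hε'
  have hc0 : 0 ≤ c' := by rcases hc' with h | h <;> rw [h] <;> norm_num
  have hI : 0 ≤ ∫ x, |h x| := integral_nonneg fun x => abs_nonneg _
  obtain ⟨e, he⟩ : ∃ e : ℝ, e = min ε' 1 := ⟨_, rfl⟩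
  have he0 : 0 < e := by rw [he]; exact lt_min hε' one_pos
  have he1 : e ≤ 1 := by rw [he]; exact min_le_right _ _
  have hee : e ≤ ε' := by rw [he]; exact min_le_left _ _
  obtain ⟨X₁, hX₁⟩ := ds_core (θ := θ) hδ hδ4 hθ₀ hθ hρ hρn hρ1 hhn hH hc0
    (K₀ := 2 * ∫ x, |h x|) (by positivity) e he0 he1
  have hlog : Tendsto (fun n => Real.log (X n)) atTop atTop := Real.tendsto_log_atTop.comp lim
  have hinv : Tendsto (fun n => (Real.log (X n))⁻¹) atTop (𝓝 0) :=
    tendsto_inv_atTop_zero.comp hlog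
  have e1 : ∀ᶠ n in atTop, Real.log 16 / 2 * (Real.log (X n))⁻¹ < 3 * δ / 32 := by
    have := hinv.const_mul (Real.log 16 / 2)
    rw [mul_zero] at this
    exact this.eventually (gt_mem_nhds (by positivity))
  have e2 : ∀ᶠ n in atTop, ∑' q, wS (A n) (B n) q * |sS (Real.log (X n)) q| < δ / 8 * (e / 2) :=
    hq.lim.eventually (gt_mem_nhds (by positivity))
  filter_upwards [e1, e2, hq.low, lim.eventually_ge_atTop X₁] with n f1 f2 f3 f4 d hd1 hd2 α hα
  have hX1 := one n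
  have hX0 : 0 < X n := by linarith
  have hL : 0 < Real.log (X n) := Real.log_pos hX1
  have hκr : (1 : ℝ) ≤ κ ∧ (κ : ℝ) ≤ 8 := by
    rcases hκ with h | h | h <;> rw [h] <;> norm_num
  have hd0 : (0 : ℝ) < d := by linarith only [hd1, hX1]
  have hκ0 : (0 : ℝ) < κ := by linarith only [hκr.1]
  have hb1 : 1 / 2 ≤ Real.log (κ * d) / (2 * Real.log (X n)) := by
    rw [le_div_iff₀ (by positivity)]
    have h1 : Real.log (X n) ≤ Real.log (κ * d) := Real.log_le_log hX0 (by nlinarith only [hd1, hκr, hd0])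
    linarith only [h1]
  have hb2 : Real.log (κ * d) / (2 * Real.log (X n)) ≤ 1 / 2 + 3 * δ / 32 := by
    rw [div_le_iff₀ (by positivity)]
    have h1 : Real.log (κ * d) ≤ Real.log (16 * X n) :=
      Real.log_le_log (mul_pos hκ0 hd0) (by nlinarith only [hd2, hκr.2, hd0, hX0])
    rw [Real.log_mul (by norm_num) hX0.ne'] at h1
    have h2 : Real.log 16 / 2 ≤ 3 * δ / 32 * Real.log (X n) := by
      have := mul_lt_mul_of_pos_right f1 hL
      rw [mul_assoc, inv_mul_cancel₀ hL.ne', mul_one] at this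
      exact this.le
    have h3 : (1 / 2 + 3 * δ / 32) * (2 * Real.log (X n)) =
        Real.log (X n) + 2 * (3 * δ / 32 * Real.log (X n)) := by ring
    rw [h3]
    linarith only [h1, h2]
  obtain ⟨hw0, hw1, -⟩ := hw (A n) (B n) (hq.pA n) (hq.pB n)
  have hsum := det_summable (A := A n) (hq.pB n) hL
  have hη : 8 / δ * ∑' q, wS (A n) (B n) q * |sS (Real.log (X n)) q| ≤ e / 2 := by
    rw [div_mul_eq_mul_div, div_le_iff₀ hδ]
    linarith only [f2]
  have h1 := hX₁ (X n) f4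
    (detPhi (wS (A n) (B n)) (sS (Real.log (X n))) s₀ σ (u * (P n ^ 2 * d)) h (Real.log (X n)))
    (det_cont hw0 hw1 f3 hh hL σ _) (fun t => det_abs_le hw0 hw1 f3 hh hL σ _ t)
    (s₀ + δ / 8) (by linarith only [hs₁, hδ]) (fun t ht =>
      det_low hw0 hw1 f3 hδ hsum hη hh hhn hL σ _ ht)
    (Real.log (κ * d) / (2 * Real.log (X n)) + s₀) (by linarith only [hb1, hs₀])
    (by linarith only [hb2, hs₁]) α hα
  have h2 : ∀ v : ℝ, shf (A n) (B n) (Real.log (X n)) (yB c' σ u (P n) ρ h (X n) d)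
          (Real.log (κ * d) / (2 * Real.log (X n)) - v) =
      dsT c' ρ (detPhi (wS (A n) (B n)) (sS (Real.log (X n))) s₀ σ (u * (P n ^ 2 * d)) h
        (Real.log (X n))) (Real.log (X n))
        (Real.log (κ * d) / (2 * Real.log (X n)) + s₀ - v) := by
    intro v
    have h3 := det_repr hw0 hw1 f3 hc0 hρ hh hX1 σ (u * (P n ^ 2 * d))
      (Real.log (κ * d) / (2 * Real.log (X n)) - v)
    unfold shf yB
    rw [h3]
    congr 1
    ring
  simp_rw [h2]
  refine le_trans ?_ h1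
  have h3 : 0 ≤ ∫ v in Set.Ioc (1 / 2 + δ) (1 / 2 + δ + θ₀), Real.cosh (α * Real.log (X n) * v) *
        Hid θ₀ (v - (1 / 2 + δ)) :=
    setIntegral_nonneg measurableSet_Ioc fun v _ =>
      mul_nonneg (Real.cosh_pos _).le (det_Hid_nonneg hθ₀ _)
  nlinarith only [hee, h3]

end Pool.Agent.MP0016c7.Rz
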