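import Mathlib
import Pool.Agent.Lib.MP_0016c7_nt.PS.Stm
import Pool.Agent.Lib.MP_0016c7_nt.Rz.Sm1

set_option autoImplicit false

/-!
Prescribed splitting: the second moment of the base process ([PS m2b]).
-/

open Finset MeasureTheory Filter Topology
open scoped Real ContDiff

namespace Pool.Agent.MP0016c7.Rz

private theorem m2b_bump_bdd {F : ℝ → ℝ} {a b : ℝ} (hF : Bump F a b) :
    ∃ B : ℝ, 0 ≤ B ∧ ∀ t, |F t| ≤ B := by
  obtain ⟨B, hB⟩ := (isCompact_Icc (a := a) (b := b)).exists_bound_of_continuousOn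
    (f := F) hF.smooth.continuous.continuousOn
  refine ⟨|B|, abs_nonneg _, fun t => ?_⟩
  by_cases h : F t = 0
  · rw [h, abs_zero]; exact abs_nonneg _
  · have h1 := hF.supp t h
    have := hB t ⟨h1.1.le, h1.2.le⟩
    rw [Real.norm_eq_abs] at this
    exact this.trans (le_abs_self _)

/-- replacing one function of `d` by another one which is close, in the average over a class -/
private theorem m2b_replace {F : ℝ → ℝ} {a b B : ℝ} (hF : Bump F a b) (hB0 : 0 ≤ B)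
    (hB : ∀ t, |F t| ≤ B) (Rc : ℕ → Prop) (D : ℝ) (hD : 0 < D)
    (X η : ℝ) (hX : 1 ≤ X) (f g : ℕ → ℝ) (hfg : ∀ d, |f d - g d| ≤ η) (hη : 0 ≤ η) :
    |avS Rc D F X f - avS Rc D F X g| ≤ 1 / D * ((|b| + 2) * (B * η)) := by
  classical
  have hXpos : 0 < X := by linarith
  obtain ⟨K, hK⟩ : ∃ K : ℕ, K = ⌈|b| * X⌉₊ := ⟨_, rfl⟩
  have hzero : ∀ (f : ℕ → ℝ) (d : ℕ), d ∉ range (K + 1) →
      (@ite ℝ (Rc d) (Classical.dec _) (F (d / X) * f d) 0) = 0 := by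
    intro f d hd
    split_ifs
    · rw [mem_range, not_lt] at hd
      have h1 : |b| * X ≤ d := by
        have h2 : (K : ℝ) ≤ d := by exact_mod_cast (by omega : K ≤ d)
        rw [hK] at h2
        exact (Nat.le_ceil _).trans h2
      have h3 : F (d / X) = 0 := by
        by_contra h
        have h4 := (hF.supp _ h).2
        rw [div_lt_iff₀ hXpos] at h4
        have h5 : b * X ≤ |b| * X := mul_le_mul_of_nonneg_right (le_abs_self b) hXpos.le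
        linarith only [h1, h4, h5]
      rw [h3, zero_mul]
    · rfl
  unfold avS
  rw [tsum_eq_sum (s := range (K + 1)) (fun d hd => hzero f d hd),
    tsum_eq_sum (s := range (K + 1)) (fun d hd => hzero g d hd), ← mul_sub, ← sum_sub_distrib,
    abs_mul]
  have hc : |1 / (D * X)| = 1 / (D * X) := abs_of_nonneg (by positivity)
  rw [hc]
  have hs : |∑ d ∈ range (K + 1), ((@ite ℝ (Rc d) (Classical.dec _) (F (d / X) * f d) 0) -
      (@ite ℝ (Rc d) (Classical.dec _) (F (d / X) * g d) 0))| ≤ ((K : ℝ) + 1) * (B * η) := by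
    refine (abs_sum_le_sum_abs _ _).trans ?_
    refine (sum_le_card_nsmul _ _ (B * η) ?_).trans ?_
    · intro d _
      split_ifs
      · rw [← mul_sub, abs_mul]
        exact mul_le_mul (hB _) (hfg d) (abs_nonneg _) hB0
      · rw [sub_zero, abs_zero]; positivity
    · rw [card_range, nsmul_eq_mul]; push_cast; exact le_rfl
  have hKle : (K : ℝ) + 1 ≤ (|b| + 2) * X := by
    have h1 : (K : ℝ) < |b| * X + 1 := by
      rw [hK]
      exact Nat.ceil_lt_add_one (by positivity)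
    linarith only [hX, h1]
  calc 1 / (D * X) * |∑ d ∈ range (K + 1),
        ((@ite ℝ (Rc d) (Classical.dec _) (F (d / X) * f d) 0) -
        (@ite ℝ (Rc d) (Classical.dec _) (F (d / X) * g d) 0))|
      ≤ 1 / (D * X) * (((K : ℝ) + 1) * (B * η)) :=
        mul_le_mul_of_nonneg_left hs (by positivity)
    _ ≤ 1 / (D * X) * (((|b| + 2) * X) * (B * η)) := by
        refine mul_le_mul_of_nonneg_left ?_ (by positivity)
        exact mul_le_mul_of_nonneg_right hKle (by positivity)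
    _ = 1 / D * ((|b| + 2) * (B * η)) := by
        field_simp

theorem p_m2b (hq : D_qav) (ht : D_tt) (hz : D_zero) (hr : D_rep) (hm : D_mple) (hs : D_size)
    (hc : D_ccp) (hw : D_wbd) (hb : D_bc) : D_m2b := by
  intro _ δ θ hδ hδ4 hθ hθ1
  obtain ⟨c₁, hc₁, hc₁', hq⟩ := hq δ θ hδ hθ hθ1
  refine ⟨c₁, hc₁, hc₁', ?_⟩
  intro c₀ X y P Q R hS hc₀ F a b ha hF hF0 σ hσ m c ε κ u hf c' hc' ρ₁ ρ₂ h hρ₁ hρ₂ hh ε' hε'
  obtain ⟨X₁, hX₁⟩ := ytil_trunc hδ hθ hθ1 hρ₁ hh c' hc' σ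
  obtain ⟨X₂, hX₂⟩ := ytil_trunc hδ hθ hθ1 hρ₂ hh c' hc' σ
  obtain ⟨X₃, hX₃⟩ := hq F a b ha hF hF0 σ hσ m c ε κ u hf c' hc' ρ₁ ρ₂ h hρ₁ hρ₂ hh (ε' / 4)
    (by linarith only [hε'])
  obtain ⟨C, hC, hmple⟩ := hm F a b ha hF hF0 m c ε σ κ u hf
  have hccp := hc c₀ X y P Q R hS (fun n => WP (P n) (Q n) (R n)) (hw c₀ X y P Q R hS)
    (bU F σ ε κ) (BU F σ ε κ) (hb F a b ha hF hF0 m c ε σ κ u hf) (∫ t, F t) δ θ hδ hδ4 hθ hθ1
    c' hc' ρ₁ ρ₂ h hρ₁ hρ₂ hh (ε' / 4) (by linarith only [hε'])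
  obtain ⟨B, hB0, hB⟩ := m2b_bump_bdd hF
  obtain ⟨A, hA⟩ : ∃ A : ℝ, A = 16 * ((|b| + 2) * B) := ⟨_, rfl⟩
  have hb0 : 0 ≤ |b| := abs_nonneg b
  have hA0 : 0 ≤ A := by rw [hA]; positivity
  have hm28 : m = 2 ∨ m = 8 := by
    rcases hf with h | h | h | h | h
    · exact Or.inl h.1
    · exact Or.inr h.1
    · exact Or.inr h.1
    · exact Or.inr h.1
    · exact Or.inr h.1
  filter_upwards [hccp, hS.lim.eventually_ge_atTop X₁, hS.lim.eventually_ge_atTop X₂,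
    hS.lim.eventually_ge_atTop X₃, hS.lim.eventually_ge_atTop C,
    hS.lim.eventually_ge_atTop (A * 4 / ε')] with n hn hXa hXb hXc hXC hXA
  intro Y₁ hY₁ Y₂ hY₂
  have hone := hS.one n
  have hle := hS.le n
  have hpat := hS.pat n
  obtain ⟨Xn, hXn⟩ : ∃ z, z = X n := ⟨_, rfl⟩
  obtain ⟨yn, hyn⟩ : ∃ z, z = y n := ⟨_, rfl⟩
  obtain ⟨Pn, hPn⟩ : ∃ z, z = P n := ⟨_, rfl⟩
  obtain ⟨Qn, hQn⟩ : ∃ z, z = Q n := ⟨_, rfl⟩
  obtain ⟨Rn, hRn⟩ : ∃ z, z = R n := ⟨_, rfl⟩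
  rw [← hXn, ← hPn, ← hQn, ← hRn] at hn
  rw [← hXn] at hXa hXb hXc hXC hXA hone hle
  rw [← hyn] at hle
  rw [← hyn, ← hPn, ← hQn, ← hRn] at hpat
  rw [← hXn, ← hPn, ← hQn, ← hRn]
  clear hXn hyn hPn hQn hRn
  have hX1 : 1 ≤ Xn := hone.le
  have hXpos : 0 < Xn := by linarith only [hone]
  have hlog : 0 < Real.log Xn := Real.log_pos hone
  have hyle : yn ≤ c₁ * Real.log Xn :=
    hle.trans (mul_le_mul_of_nonneg_right hc₀ hlog.le)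
  have hc00 := hS.c0
  obtain ⟨hodd, hPle, -, -, -, hDP⟩ := hs c₀ Xn yn Pn Qn Rn hc00 hone hle hpat
  obtain ⟨hD0, hD1⟩ := hDP m hm28
  -- step 1: truncation
  have hprod : Xn ^ 20 * Xn ^ (-30 : ℝ) = Xn ^ (-10 : ℝ) := by
    rw [← Real.rpow_natCast Xn 20, ← Real.rpow_add hXpos]
    norm_num
  have huv : ∀ d : ℕ, |yB c' σ u Pn ρ₁ h Xn d Y₁ * yB c' σ u Pn ρ₂ h Xn d Y₂ -
      TT c' σ ρ₁ h Xn θ δ (u * (Pn ^ 2 * d)) Y₁ * TT c' σ ρ₂ h Xn θ δ (u * (Pn ^ 2 * d)) Y₂| ≤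
        2 * Xn ^ (-10 : ℝ) := by
    intro d
    unfold yB
    obtain ⟨p1, p2, p3⟩ := hX₁ Xn hXa Y₁ hY₁ (u * (Pn ^ 2 * d))
    obtain ⟨q1, q2, q3⟩ := hX₂ Xn hXb Y₂ hY₂ (u * (Pn ^ 2 * d))
    have e : ytil c' σ ρ₁ h Xn (u * (Pn ^ 2 * d)) Y₁ * ytil c' σ ρ₂ h Xn (u * (Pn ^ 2 * d)) Y₂ -
      TT c' σ ρ₁ h Xn θ δ (u * (Pn ^ 2 * d)) Y₁ * TT c' σ ρ₂ h Xn θ δ (u * (Pn ^ 2 * d)) Y₂ =
      ytil c' σ ρ₁ h Xn (u * (Pn ^ 2 * d)) Y₁ *
        (ytil c' σ ρ₂ h Xn (u * (Pn ^ 2 * d)) Y₂ - TT c' σ ρ₂ h Xn θ δ (u * (Pn ^ 2 * d)) Y₂) +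
      TT c' σ ρ₂ h Xn θ δ (u * (Pn ^ 2 * d)) Y₂ *
        (ytil c' σ ρ₁ h Xn (u * (Pn ^ 2 * d)) Y₁ - TT c' σ ρ₁ h Xn θ δ (u * (Pn ^ 2 * d)) Y₁) := by
      ring
    rw [e]
    refine (abs_add_le _ _).trans ?_
    rw [abs_mul, abs_mul]
    have h1 := (mul_le_mul p1 q3 (abs_nonneg _) (by positivity)).trans hprod.le
    have h2 := (mul_le_mul q2 p3 (abs_nonneg _) (by positivity)).trans hprod.le
    linarith only [h1, h2]
  have s1 : |avP m c σ u Pn Qn Rn F Xn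
        (fun d => yB c' σ u Pn ρ₁ h Xn d Y₁ * yB c' σ u Pn ρ₂ h Xn d Y₂) -
      avP m c σ u Pn Qn Rn F Xn (fun d => TT c' σ ρ₁ h Xn θ δ (u * (Pn ^ 2 * d)) Y₁ *
        TT c' σ ρ₂ h Xn θ δ (u * (Pn ^ 2 * d)) Y₂)| ≤ ε' / 4 := by
    unfold avP
    refine (m2b_replace hF hB0 hB (RP m c σ u Pn Qn Rn) (DP m Pn Rn) hD0 Xn
      (2 * Xn ^ (-10 : ℝ)) hX1 _ _ huv (by positivity)).trans ?_
    have e1 : 1 / DP m Pn Rn * ((|b| + 2) * (B * (2 * Xn ^ (-10 : ℝ)))) ≤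
        8 * Xn ^ (4 * c₀) * ((|b| + 2) * (B * (2 * Xn ^ (-10 : ℝ)))) :=
      mul_le_mul_of_nonneg_right hD1 (by positivity)
    refine e1.trans ?_
    have e2 : 8 * Xn ^ (4 * c₀) * ((|b| + 2) * (B * (2 * Xn ^ (-10 : ℝ)))) =
        A * Xn ^ (4 * c₀ + (-10)) := by
      rw [Real.rpow_add hXpos, hA]
      ring
    rw [e2]
    have e3 : Xn ^ (4 * c₀ + (-10)) ≤ Xn ^ (-1 : ℝ) :=
      Real.rpow_le_rpow_of_exponent_le hX1 (by linarith only [hc₀, hc₁'])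
    have e4 : Xn ^ (-1 : ℝ) = 1 / Xn := by rw [Real.rpow_neg_one, one_div]
    rw [e4] at e3
    refine (mul_le_mul_of_nonneg_left e3 hA0).trans ?_
    rw [mul_one_div, div_le_iff₀ hXpos]
    rw [div_le_iff₀ hε'] at hXA
    linarith only [hXA]
  have s2 := ht F a b ha hF σ hσ m c ε κ u hf Pn Qn Rn hodd c' ρ₁ ρ₂ h Xn θ δ hX1 Y₁ Y₂
  rw [s2] at s1
  -- step 2: the main term
  have s3 := hX₃ Xn hXc yn Pn Qn Rn hyle hpat Y₁ hY₁ Y₂ hY₂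
  -- step 3: the evaluation of the main term
  have hP2 : (Pn : ℝ) ^ 2 ≤ Xn := by
    have h1 : (Pn : ℝ) ^ 2 ≤ (Xn ^ (2 * c₀)) ^ 2 := pow_le_pow_left₀ (Nat.cast_nonneg _) hPle 2
    have h2 : (Xn ^ (2 * c₀)) ^ 2 = Xn ^ (4 * c₀) := by
      rw [← Real.rpow_natCast (Xn ^ (2 * c₀)) 2, ← Real.rpow_mul hXpos.le]
      congr 1
      push_cast
      ring
    have h3 : Xn ^ (4 * c₀) ≤ Xn ^ (1 : ℝ) :=
      Real.rpow_le_rpow_of_exponent_le hX1 (by linarith only [hc₀, hc₁'])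
    rw [Real.rpow_one] at h3
    rw [h2] at h1
    exact h1.trans h3
  have hrep := hr F a b ha hF hF0 m c ε σ κ u hf yn Pn Qn Rn hpat Xn hXpos
  have hbd : ∀ N : ℕ, Nat.Coprime N (2 * Pn) → |MP F σ ε κ Pn Qn Rn Xn N| ≤ Xn ^ 3 * N := by
    intro N hN
    refine (hmple c₀ Xn yn Pn Qn Rn hc00 hone hle hpat hP2 N hN).trans ?_
    refine mul_le_mul_of_nonneg_right ?_ (Nat.cast_nonneg _)
    have h1 : Xn ^ (9 * c₀) ≤ Xn ^ (1 : ℝ) :=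
      Real.rpow_le_rpow_of_exponent_le hX1 (by linarith only [hc₀, hc₁'])
    rw [Real.rpow_one] at h1
    calc C * Xn ^ (9 * c₀) ≤ Xn * Xn := mul_le_mul hXC h1 (by positivity) hXpos.le
      _ ≤ Xn ^ 3 := by
        have : Xn ^ 3 = Xn * Xn * Xn := by ring
        rw [this]
        exact le_mul_of_one_le_right (by positivity) hX1
  have s4 := hn (MP F σ ε κ Pn Qn Rn Xn) hrep hbd Y₁ hY₁ Y₂ hY₂
  rw [abs_le] at s1 s3 s4 ⊢
  constructor <;> linarith only [hε', s1.1, s1.2, s3.1, s3.2, s4.1, s4.2]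

end Pool.Agent.MP0016c7.Rz
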