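import Mathlib
import Pool.Agent.Lib.MP_0016c7_nt.PS.Stm
import Pool.Agent.Lib.MP_0016c7_nt.Rz2.VanS
import Pool.Agent.Lib.MP_0016c7_nt.Rz.KerPhi

set_option autoImplicit false

/-!
Prescribed splitting: the relation at a zero for the shifted process of the pattern family.
-/

open Finset MeasureTheory Filter Topology
open scoped Real ContDiff

namespace Pool.Agent.MP0016c7.Rz

private lemma van_cR_mul {q : ℕ} [NeZero q] (χ : DirichletCharacter ℂ q) (h2 : χ ^ 2 = 1)
    (m n : ℕ) : cR χ (m * n) = cR χ m * cR χ n := by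
  have h : ((cR χ (m * n) : ℝ) : ℂ) = ((cR χ m * cR χ n : ℝ) : ℂ) := by
    rw [cR_spec χ h2]
    push_cast
    rw [cR_spec χ h2, cR_spec χ h2, map_mul]
  exact_mod_cast h

private lemma van_par_nonneg {q : ℕ} [NeZero q] (χ : DirichletCharacter ℂ q) : 0 ≤ par χ := by
  rcases χ.even_or_odd with he | ho
  · rw [par_even χ he]
  · rw [par_odd χ ho]
    exact zero_le_one

/-- The twist of the symbol by the square of `P`. -/
private lemma van_jr_sq (a : ℤ) (P m : ℕ) :
    jr (a * (P : ℤ) ^ 2) m = if Nat.Coprime m (2 * P) then jr a m else 0 := by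
  by_cases hm : Odd m
  · have hm2 : Nat.Coprime m 2 := (Nat.coprime_two_right).mpr hm
    have hiff : Nat.Coprime m (2 * P) ↔ Nat.Coprime m P := by
      rw [Nat.coprime_mul_iff_right]
      exact ⟨fun h => h.2, fun h => ⟨hm2, h⟩⟩
    unfold jr
    rw [if_pos hm, if_pos hm, jacobiSym.mul_left, pow_two, jacobiSym.mul_left]
    by_cases hc : Nat.Coprime m P
    · rw [if_pos (hiff.mpr hc)]
      have h1 : Int.gcd (P : ℤ) (m : ℤ) = 1 := by
        rw [Int.gcd_natCast_natCast]
        exact hc.symm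
      have h3 : jacobiSym (P : ℤ) m * jacobiSym (P : ℤ) m = 1 := by
        rcases jacobiSym.eq_one_or_neg_one h1 with h | h <;> rw [h] <;> norm_num
      rw [h3, mul_one]
    · rw [if_neg (fun h => hc (hiff.mp h))]
      have hm0 : m ≠ 0 := by
        rintro rfl
        exact absurd hm (by decide)
      have h3 : jacobiSym (P : ℤ) m = 0 := by
        rw [jacobiSym.eq_zero_iff]
        refine ⟨hm0, ?_⟩
        rw [Int.gcd_natCast_natCast]
        intro h
        exact hc (Nat.Coprime.symm h)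
      rw [h3]
      simp
  · have h1 : ¬ Nat.Coprime m (2 * P) := by
      intro h
      exact hm ((Nat.coprime_two_right).mp (Nat.Coprime.coprime_mul_right_right h))
    rw [if_neg h1, jr, if_neg hm]

/-- The kernel is bounded by an exponential. -/
private lemma van_kL_le {c : ℝ} (hc : 0 ≤ c) {ρ h : ℝ → ℝ} {a b θ L : ℝ} (hρ : Bump ρ a b)
    (hh : Bump h 0 θ) (hL : 0 < L) : ∃ K : ℝ, 0 ≤ K ∧ ∀ z u : ℝ, 0 ≤ u →
      |kL c ρ h L z u| ≤ K * Real.exp (2 * L * z) := by
  have hI : 0 ≤ ∫ x, |h x| := integral_nonneg fun x => abs_nonneg _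
  have hG := Gam0_pos hc
  set J : ℝ := ∫ w : ℝ × ℝ, (kap c w.1 * Real.exp (2 * w.1)) *
    (|ρ w.2| * Real.exp (2 * L * (θ - w.2))) ∂(volume.prod volume) with hJ
  have hJ0 : 0 ≤ J := by
    rw [hJ]
    refine integral_nonneg fun w => ?_
    have := (kap_pos c w.1).le
    positivity
  refine ⟨(∫ x, |h x|) * J / Gam0 c, by positivity, fun z u hu => ?_⟩
  rw [(kL_eq_prod hc hρ hh L z u).2, abs_div, abs_of_pos hG]
  have h1 : |∫ w : ℝ × ℝ, kap c w.1 * ρ w.2 * HH h (u + |z + w.1 / L - w.2|)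
      ∂(volume.prod volume)| ≤ ∫ w : ℝ × ℝ, ((∫ x, |h x|) * Real.exp (2 * L * z)) *
        ((kap c w.1 * Real.exp (2 * w.1)) *
        (|ρ w.2| * Real.exp (2 * L * (θ - w.2)))) ∂(volume.prod volume) := by
    have h2 := norm_integral_le_of_norm_le (μ := (volume.prod volume : Measure (ℝ × ℝ)))
      (f := fun w : ℝ × ℝ => kap c w.1 * ρ w.2 * HH h (u + |z + w.1 / L - w.2|))
      ((integrable_kp_majorant hc (k := 2) (by norm_num) hρ L θ).const_mul
        ((∫ x, |h x|) * Real.exp (2 * L * z))) (ae_of_all _ fun w => ?_)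
    · rwa [Real.norm_eq_abs] at h2
    · rw [Real.norm_eq_abs, abs_mul, abs_mul, abs_of_pos (kap_pos c w.1)]
      have hk := (kap_pos c w.1).le
      have h3 : |HH h (u + |z + w.1 / L - w.2|)| ≤ (∫ x, |h x|) *
          (Real.exp (2 * L * z) * Real.exp (2 * w.1) * Real.exp (2 * L * (θ - w.2))) := by
        by_cases hz : θ ≤ u + |z + w.1 / L - w.2|
        · rw [HH_eq_zero' hh hz, abs_zero]
          positivity
        · push Not at hz
          have h4 : -θ < z + w.1 / L - w.2 := by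
            have := neg_abs_le (z + w.1 / L - w.2)
            linarith
          have h5 : (1 : ℝ) ≤ Real.exp (2 * L * z) * Real.exp (2 * w.1) *
              Real.exp (2 * L * (θ - w.2)) := by
            rw [← Real.exp_add, ← Real.exp_add, Real.one_le_exp_iff]
            have h6 : 2 * L * z + 2 * w.1 + 2 * L * (θ - w.2) =
                2 * L * (z + w.1 / L - w.2 + θ) := by
              field_simp
              ring
            rw [h6]
            have : 0 < z + w.1 / L - w.2 + θ := by linarith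
            positivity
          calc |HH h (u + |z + w.1 / L - w.2|)| ≤ (∫ x, |h x|) * 1 := by
                rw [mul_one]
                exact HH_abs_le hh _
            _ ≤ _ := by gcongr
      calc kap c w.1 * |ρ w.2| * |HH h (u + |z + w.1 / L - w.2|)| ≤
          kap c w.1 * |ρ w.2| * ((∫ x, |h x|) *
          (Real.exp (2 * L * z) * Real.exp (2 * w.1) * Real.exp (2 * L * (θ - w.2)))) := by
            gcongr
        _ = _ := by ring
  rw [integral_const_mul, ← hJ] at h1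
  calc _ ≤ (∫ x, |h x|) * Real.exp (2 * L * z) * J / Gam0 c := by gcongr
    _ = _ := by ring

private lemma van_kL_zero {c : ℝ} {ρ h : ℝ → ℝ} {θ L : ℝ} (hh : Bump h 0 θ) {u : ℝ}
    (hu : θ ≤ u) (z : ℝ) : kL c ρ h L z u = 0 := by
  unfold kL
  have h1 : ∀ x y : ℝ, kap c x * ρ y * HH h (u + |z + x / L - y|) = 0 := by
    intro x y
    rw [HH_eq_zero' hh (by have := abs_nonneg (z + x / L - y); linarith), mul_zero]
  simp [h1]

/-- The coefficient of the mollifier. -/
private noncomputable def van_cf {q : ℕ} [NeZero q] (χ : DirichletCharacter ℂ q) (W l : ℕ) : ℝ :=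
  (if Nat.Coprime l W then (ArithmeticFunction.moebius l : ℝ) else 0) * cR χ l / √(l : ℝ)

/-- The mollified kernel. -/
private noncomputable def van_g {q : ℕ} [NeZero q] (χ : DirichletCharacter ℂ q) (W : ℕ)
    (ρ h : ℝ → ℝ) (L : ℝ) (M : ℕ) (Y : ℝ) : ℝ :=
  ∑ l ∈ Finset.range M, van_cf χ W l * kL (par χ) ρ h L Y (Real.log l / L)

private lemma van_cf_le {q : ℕ} [NeZero q] (χ : DirichletCharacter ℂ q) (h2 : χ ^ 2 = 1)
    (W l : ℕ) : |van_cf χ W l| ≤ 1 := by
  rcases Nat.eq_zero_or_pos l with h0 | h0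
  · subst h0
    simp [van_cf]
  have h1 : (1 : ℝ) ≤ √(l : ℝ) := by
    rw [Real.one_le_sqrt]
    exact_mod_cast h0
  have h4 : |(if Nat.Coprime l W then (ArithmeticFunction.moebius l : ℝ) else 0)| ≤ 1 := by
    split_ifs
    · have := ArithmeticFunction.abs_moebius_le_one (n := l)
      exact_mod_cast this
    · simp
  rw [van_cf, abs_div, abs_mul, abs_of_nonneg (Real.sqrt_nonneg _), div_le_one (by linarith)]
  calc _ ≤ (1 : ℝ) * 1 := mul_le_mul h4 (cR_abs_le χ h2 l) (abs_nonneg _) zero_le_one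
    _ ≤ _ := by linarith

private lemma van_cn_le {q : ℕ} [NeZero q] (χ : DirichletCharacter ℂ q) (h2 : χ ^ 2 = 1)
    (n : ℕ) : |cR χ n / √(n : ℝ)| ≤ 1 := by
  rcases Nat.eq_zero_or_pos n with h0 | h0
  · subst h0
    simp
  have h1 : (1 : ℝ) ≤ √(n : ℝ) := by
    rw [Real.one_le_sqrt]
    exact_mod_cast h0
  rw [abs_div, abs_of_nonneg (Real.sqrt_nonneg _), div_le_one (by linarith)]
  exact (cR_abs_le χ h2 n).trans h1

/-- The log of a natural number is nonnegative. -/
private lemma van_log_nn {L : ℝ} (hL : 0 < L) (l : ℕ) : 0 ≤ Real.log l / L :=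
  div_nonneg (Real.log_natCast_nonneg l) hL.le

private lemma van_M {L θ : ℝ} (hL : 0 < L) {l : ℕ} (hl : ⌈Real.exp (θ * L)⌉₊ + 1 ≤ l) :
    θ ≤ Real.log l / L := by
  have h1 : Real.exp (θ * L) ≤ l := by
    refine (Nat.le_ceil _).trans ?_
    exact_mod_cast (by omega : ⌈Real.exp (θ * L)⌉₊ ≤ l)
  rw [le_div_iff₀ hL, Real.le_log_iff_exp_le (lt_of_lt_of_le (Real.exp_pos _) h1)]
  exact h1

/-- The double series of the full process. -/
private lemma van_sum {q : ℕ} [NeZero q] (χ : DirichletCharacter ℂ q) (h2 : χ ^ 2 = 1) (W : ℕ)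
    {ρ h : ℝ → ℝ} {a b θ L : ℝ} (hρ : Bump ρ a b) (hh : Bump h 0 θ) (hL : 0 < L) (Y : ℝ)
    (m : ℕ → ℝ) (hm : ∀ n, |m n| ≤ |cR χ n / √(n : ℝ)|) :
    Summable (fun p : ℕ × ℕ => m p.1 *
      (van_cf χ W p.2 * kL (par χ) ρ h L (Y - Real.log p.1 / L) (Real.log p.2 / L))) := by
  obtain ⟨K, hK0, hK⟩ := van_kL_le (van_par_nonneg χ) hρ hh hL
  have h1 : Summable (fun n : ℕ => 1 / (n : ℝ) ^ 2) :=
    Real.summable_one_div_nat_pow.mpr (by norm_num)
  have g2 : Summable (fun l : ℕ => if l < ⌈Real.exp (θ * L)⌉₊ + 1 then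
      K * Real.exp (2 * L * Y) else 0) := by
    refine summable_of_ne_finset_zero (s := Finset.range (⌈Real.exp (θ * L)⌉₊ + 1)) ?_
    intro l hl
    rw [Finset.mem_range] at hl
    rw [if_neg hl]
  have g3 := Summable.mul_of_nonneg (f := fun n : ℕ => 1 / (n : ℝ) ^ 2)
    (g := fun l : ℕ => if l < ⌈Real.exp (θ * L)⌉₊ + 1 then K * Real.exp (2 * L * Y) else 0)
    h1 g2 (fun n => by simp only [Pi.zero_apply]; positivity)
    (fun n => by simp only [Pi.zero_apply]; split_ifs <;> positivity)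
  refine g3.of_norm_bounded (fun p => ?_)
  obtain ⟨n, l⟩ := p
  simp only
  by_cases hl : l < ⌈Real.exp (θ * L)⌉₊ + 1
  · rw [if_pos hl, Real.norm_eq_abs, abs_mul, abs_mul]
    rcases Nat.eq_zero_or_pos n with hn | hn
    · subst hn
      have h3 : |m 0| ≤ 0 := by
        have := hm 0
        simpa using this
      have h4 : |m 0| = 0 := le_antisymm h3 (abs_nonneg _)
      rw [h4]
      simp
    · have hn0 : (0 : ℝ) < n := by exact_mod_cast hn
      have h3 := (hm n).trans (van_cn_le χ h2 n)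
      have h4 := van_cf_le χ h2 W l
      have h5 := hK (Y - Real.log n / L) (Real.log l / L) (van_log_nn hL l)
      have h6 : Real.exp (2 * L * (Y - Real.log n / L)) =
          1 / (n : ℝ) ^ 2 * Real.exp (2 * L * Y) := by
        have : 2 * L * (Y - Real.log n / L) = -(Real.log n) + (-(Real.log n)) + 2 * L * Y := by
          field_simp
          ring
        rw [this, Real.exp_add, Real.exp_add, Real.exp_neg, Real.exp_log hn0]
        field_simp
      rw [h6] at h5
      calc |m n| * (|van_cf χ W l| * |kL (par χ) ρ h L (Y - Real.log n / L) (Real.log l / L)|)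
          ≤ 1 * (1 * (K * (1 / (n : ℝ) ^ 2 * Real.exp (2 * L * Y)))) := by gcongr
        _ = _ := by ring
  · rw [if_neg hl, van_kL_zero hh (van_M hL (not_lt.mp hl))]
    simp

private lemma van_tsum {q : ℕ} [NeZero q] (χ : DirichletCharacter ℂ q) (h2 : χ ^ 2 = 1) (W : ℕ)
    {ρ h : ℝ → ℝ} {a b θ L : ℝ} (hρ : Bump ρ a b) (hh : Bump h 0 θ) (hL : 0 < L) (Y : ℝ)
    (m : ℕ → ℝ) (hm : ∀ n, |m n| ≤ |cR χ n / √(n : ℝ)|) :
    ∑' p : ℕ × ℕ, m p.1 *
      (van_cf χ W p.2 * kL (par χ) ρ h L (Y - Real.log p.1 / L) (Real.log p.2 / L)) =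
    ∑' n : ℕ, m n * van_g χ W ρ h L (⌈Real.exp (θ * L)⌉₊ + 1) (Y - Real.log n / L) := by
  rw [(van_sum χ h2 W hρ hh hL Y m hm).tsum_prod]
  refine tsum_congr fun n => ?_
  simp only
  rw [tsum_mul_left]
  congr 1
  rw [van_g]
  refine tsum_eq_sum ?_
  intro l hl
  rw [Finset.mem_range, not_lt] at hl
  rw [van_kL_zero hh (van_M hL hl), mul_zero]

private lemma van_g_le {q : ℕ} [NeZero q] (χ : DirichletCharacter ℂ q) (h2 : χ ^ 2 = 1) (W : ℕ)
    {ρ h : ℝ → ℝ} {a b θ L : ℝ} (hρ : Bump ρ a b) (hh : Bump h 0 θ) (hL : 0 < L) (M : ℕ) :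
    ∃ C : ℝ, ∀ Y, |van_g χ W ρ h L M Y| ≤ C * Real.exp (2 * L * Y) := by
  obtain ⟨K, hK0, hK⟩ := van_kL_le (van_par_nonneg χ) hρ hh hL
  refine ⟨M * K, fun Y => ?_⟩
  rw [van_g]
  refine (Finset.abs_sum_le_sum_abs _ _).trans ?_
  calc ∑ l ∈ Finset.range M, |van_cf χ W l * kL (par χ) ρ h L Y (Real.log l / L)| ≤
      ∑ l ∈ Finset.range M, K * Real.exp (2 * L * Y) := by
        refine Finset.sum_le_sum fun l _ => ?_
        rw [abs_mul]
        calc _ ≤ 1 * (K * Real.exp (2 * L * Y)) :=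
              mul_le_mul (van_cf_le χ h2 W l) (hK _ _ (van_log_nn hL l)) (abs_nonneg _)
                zero_le_one
          _ = _ := by ring
    _ = _ := by
        rw [Finset.sum_const, Finset.card_range, nsmul_eq_mul]
        ring

/-- The full process as a Dirichlet convolution. -/
private lemma van_zF {q : ℕ} [NeZero q] (χ : DirichletCharacter ℂ q) (h2 : χ ^ 2 = 1) (W : ℕ)
    {ρ h : ℝ → ℝ} {a b θ X : ℝ} (hρ : Bump ρ a b) (hh : Bump h 0 θ) (hX : 1 < X) (Y : ℝ) :
    zF χ W ρ h X Y = ∑' n : ℕ, cR χ n / √(n : ℝ) *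
      van_g χ W ρ h (Real.log X) (⌈Real.exp (θ * Real.log X)⌉₊ + 1)
        (Y - Real.log n / Real.log X) := by
  have hL : 0 < Real.log X := Real.log_pos hX
  rw [← van_tsum χ h2 W hρ hh hL Y (fun n => cR χ n / √(n : ℝ)) (fun n => le_rfl), zF]
  refine tsum_congr fun p => ?_
  rw [van_cR_mul χ h2, Real.sqrt_mul (Nat.cast_nonneg _), van_cf]
  ring

/-- The base process as a Dirichlet convolution. -/
private lemma van_yB {q : ℕ} [NeZero q] (χ : DirichletCharacter ℂ q) (h2 : χ ^ 2 = 1)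
    (σ : ℤ) (u P d : ℕ) (hval : ∀ n : ℕ, Odd n → χ n = (sy σ u d n : ℂ))
    {ρ h : ℝ → ℝ} {a b θ X : ℝ} (hρ : Bump ρ a b) (hh : Bump h 0 θ) (hX : 1 < X) (Y : ℝ) :
    yB (par χ) σ u P ρ h X d Y = ∑' n : ℕ, if Nat.Coprime n (2 * P) then cR χ n / √(n : ℝ) *
      van_g χ (2 * P) ρ h (Real.log X) (⌈Real.exp (θ * Real.log X)⌉₊ + 1)
        (Y - Real.log n / Real.log X) else 0 := by
  have hL : 0 < Real.log X := Real.log_pos hX
  have hval' : ∀ n : ℕ, jr (2 * σ * ((u * (P ^ 2 * d) : ℕ) : ℤ)) n =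
      if Nat.Coprime n (2 * P) then cR χ n else 0 := by
    intro n
    have h1 : (2 * σ * ((u * (P ^ 2 * d) : ℕ) : ℤ)) =
        (2 * σ * ((u * d : ℕ) : ℤ)) * (P : ℤ) ^ 2 := by
      push_cast
      ring
    rw [h1, van_jr_sq]
    by_cases hc : Nat.Coprime n (2 * P)
    · rw [if_pos hc, if_pos hc]
      have ho : Odd n := (Nat.coprime_two_right).mp (Nat.Coprime.coprime_mul_right_right hc)
      rw [cR, hval n ho, Complex.ofReal_re, sy]
    · rw [if_neg hc, if_neg hc]
  have h3 := van_tsum χ h2 (2 * P) hρ hh hL Y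
    (fun n => if Nat.Coprime n (2 * P) then cR χ n / √(n : ℝ) else 0)
    (fun n => by
      split_ifs
      · exact le_rfl
      · rw [abs_zero]
        exact abs_nonneg _)
  have h4 : ∀ n : ℕ, (if Nat.Coprime n (2 * P) then cR χ n / √(n : ℝ) *
      van_g χ (2 * P) ρ h (Real.log X) (⌈Real.exp (θ * Real.log X)⌉₊ + 1)
        (Y - Real.log n / Real.log X) else 0) =
      (if Nat.Coprime n (2 * P) then cR χ n / √(n : ℝ) else 0) *
      van_g χ (2 * P) ρ h (Real.log X) (⌈Real.exp (θ * Real.log X)⌉₊ + 1)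
        (Y - Real.log n / Real.log X) := by
    intro n
    split_ifs
    · rfl
    · rw [zero_mul]
  rw [tsum_congr h4, ← h3, yB, ytil]
  refine tsum_congr fun p => ?_
  rw [hval', Real.sqrt_mul (Nat.cast_nonneg _), van_cf]
  by_cases h5 : Nat.Coprime p.1 (2 * P)
  · by_cases h6 : Nat.Coprime p.2 (2 * P)
    · rw [if_pos (Nat.coprime_mul_iff_left.mpr ⟨h5, h6⟩), if_pos h5, if_pos h6,
        van_cR_mul χ h2]
      ring
    · rw [if_neg (fun hcon => h6 (Nat.coprime_mul_iff_left.mp hcon).2), if_neg h6]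
      ring
  · rw [if_neg (fun hcon => h5 (Nat.coprime_mul_iff_left.mp hcon).1), if_neg h5]
    ring

/-- The ending: an even function with a vanishing exponential transform. -/
private lemma van_end (Y : ℝ → ℝ) (hYe : ∀ v, Y (-v) = Y v) (β : ℝ)
    (hi : ∀ β : ℝ, Integrable (fun v : ℝ => Real.exp (β * v) * Y v))
    (hz : ∫ v : ℝ, Real.exp (β * v) * Y v = 0) :
    IntegrableOn (fun v : ℝ => Real.cosh (β * v) * Y v) (Set.Ioi 0) ∧
    ∫ v in Set.Ioi (0 : ℝ), Real.cosh (β * v) * Y v = 0 := by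
  have hYzero' : ∫ v, Real.exp (-β * v) * Y v = 0 := by
    rw [← hz, ← integral_neg_eq_self]
    refine integral_congr_ae (Filter.Eventually.of_forall fun t => ?_)
    simp only
    rw [hYe]
    congr 2
    ring
  have hcosh : (fun v : ℝ => Real.cosh (β * v) * Y v) =
      fun v => 1 / 2 * (Real.exp (β * v) * Y v) + 1 / 2 * (Real.exp (-β * v) * Y v) := by
    ext v
    rw [Real.cosh_eq]
    have : -β * v = -(β * v) := by ring
    rw [this]
    ring
  have hcint : Integrable (fun v : ℝ => Real.cosh (β * v) * Y v) := by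
    rw [hcosh]
    exact ((hi β).const_mul _).add ((hi (-β)).const_mul _)
  have hctot : ∫ v : ℝ, Real.cosh (β * v) * Y v = 0 := by
    rw [hcosh, integral_add ((hi β).const_mul _) ((hi (-β)).const_mul _),
      integral_const_mul, integral_const_mul, hz, hYzero']
    simp
  refine ⟨hcint.integrableOn, ?_⟩
  have hsplit : ∫ v : ℝ, Real.cosh (β * v) * Y v =
      2 * ∫ v in Set.Ioi (0 : ℝ), Real.cosh (β * v) * Y v := by
    rw [← integral_comp_abs (f := fun v => Real.cosh (β * v) * Y v)]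
    refine integral_congr_ae (Filter.Eventually.of_forall fun t => ?_)
    simp only
    rcases le_or_gt 0 t with ht | ht
    · rw [abs_of_nonneg ht]
    · rw [abs_of_neg ht, hYe, ← Real.cosh_neg]
      congr 2
      ring
  rw [hsplit] at hctot
  linarith

theorem p_van (hz : D_ser) (hd : D_dir) (_hy : D_ybc) : D_van := by
  intro q _ hq1 χ hp h2 hsym A B hA hB hAB hχA hχB σ u P d hP hval hWp ρ h δ θ hδ hρ hρe hh X hX
    s hs0 hs1 hzero
  have hL : 0 < Real.log X := Real.log_pos hX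
  obtain ⟨s1, s2, s3⟩ := hz q hq1 χ hp h2 hsym (2 * P) ρ h δ θ hδ hρ hρe hh X hX
  have s3' := s3 s hs0 hs1 hzero
  clear s3
  obtain ⟨C, hC⟩ := van_g_le χ h2 (2 * P) hρ hh hL (⌈Real.exp (θ * Real.log X)⌉₊ + 1)
  have hW : 2 * P ≠ 0 := by
    rcases hP with ⟨k, hk⟩
    omega
  have hc1 : cR χ 1 = 1 := by
    rw [cR, Nat.cast_one, map_one, Complex.one_re]
  have hyB : yB (par χ) σ u P ρ h X d = fun Y => ∑' n : ℕ, if Nat.Coprime n (2 * P) then
      cR χ n / √(n : ℝ) *
      van_g χ (2 * P) ρ h (Real.log X) (⌈Real.exp (θ * Real.log X)⌉₊ + 1)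
        (Y - Real.log n / Real.log X) else 0 := by
    ext Y
    exact van_yB χ h2 σ u P d hval hρ hh hX Y
  set b : ℝ := Real.log q / (2 * Real.log X) with hb
  set L : ℝ := Real.log X with hLdef
  obtain ⟨cc, hcc⟩ : ∃ cc : ℝ, cc = (∏ p ∈ A, (1 - 1 / √(p : ℝ))) /
      (∏ p ∈ B, (1 + 1 / √(p : ℝ))) := ⟨_, rfl⟩
  have hshf : ∀ v, shf A B L (yB (par χ) σ u P ρ h X d) (b - v) = cc *
      ∑ b₁ ∈ (∏ p ∈ B, p).divisors, ∑ b₂ ∈ (∏ p ∈ B, p).divisors, 1 / √((b₁ * b₂ : ℕ) : ℝ) *
        zF χ (2 * P) ρ h X (b - (v + (Real.log b₁ - Real.log b₂) / L)) := by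
    intro v
    rw [hyB, hd A B hA hB hAB (cR χ) hc1 (van_cR_mul χ h2) (cR_abs_le χ h2) hχA hχB (2 * P) hW
      hWp L C hL _ hC (b - v), hcc]
    congr 1
    refine Finset.sum_congr rfl fun b₁ _ => Finset.sum_congr rfl fun b₂ _ => ?_
    rw [van_zF χ h2 (2 * P) hρ hh hX]
    congr 1
    refine tsum_congr fun n => ?_
    congr 2
    ring
  obtain ⟨Z, hZ⟩ : ∃ Z : ℝ → ℝ, Z = fun v => zF χ (2 * P) ρ h X (b - v) := ⟨_, rfl⟩
  have hZe : ∀ v, Z (-v) = Z v := by
    intro v
    rw [hZ]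
    simp only
    rw [sub_neg_eq_add]
    exact s1 v
  have hZi : ∀ β : ℝ, Integrable (fun v : ℝ => Real.exp (β * v) * Z v) := by
    intro β
    rw [hZ]
    exact s2 β
  have hZz : ∫ v : ℝ, Real.exp ((s - 1 / 2) * L * v) * Z v = 0 := by
    rw [hZ]
    exact s3'
  have hshf' : (fun v => shf A B L (yB (par χ) σ u P ρ h X d) (b - v)) = fun v => cc *
      ∑ b₁ ∈ (∏ p ∈ B, p).divisors, ∑ b₂ ∈ (∏ p ∈ B, p).divisors, 1 / √((b₁ * b₂ : ℕ) : ℝ) *
        Z (v + (Real.log b₁ - Real.log b₂) / L) := by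
    ext v
    rw [hshf, hZ]
  have htr : ∀ (β t : ℝ), (fun v : ℝ => Real.exp (β * v) * Z (v + t)) =
      fun v : ℝ => Real.exp (-(β * t)) * (Real.exp (β * (v + t)) * Z (v + t)) := by
    intro β t
    ext v
    rw [← mul_assoc, ← Real.exp_add]
    congr 2
    ring
  have hti : ∀ (β t : ℝ), Integrable (fun v : ℝ => Real.exp (β * v) * Z (v + t)) := by
    intro β t
    rw [htr]
    exact ((hZi β).comp_add_right t).const_mul _
  have hform : ∀ β : ℝ, (fun v => Real.exp (β * v) *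
      shf A B L (yB (par χ) σ u P ρ h X d) (b - v)) = fun v =>
      ∑ b₁ ∈ (∏ p ∈ B, p).divisors, ∑ b₂ ∈ (∏ p ∈ B, p).divisors,
        (cc * (1 / √((b₁ * b₂ : ℕ) : ℝ))) *
          (Real.exp (β * v) * Z (v + (Real.log b₁ - Real.log b₂) / L)) := by
    intro β
    ext v
    have h5 := congrFun hshf' v
    rw [h5, Finset.mul_sum, Finset.mul_sum]
    refine Finset.sum_congr rfl fun b₁ _ => ?_
    rw [Finset.mul_sum, Finset.mul_sum]
    refine Finset.sum_congr rfl fun b₂ _ => ?_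
    ring
  have hend := van_end (fun v => shf A B L (yB (par χ) σ u P ρ h X d) (b - v)) (fun v => ?_)
    ((s - 1 / 2) * L) (fun β => ?_) ?_
  · exact hend
  · have h5 := congrFun hshf' (-v)
    have h6 := congrFun hshf' v
    rw [h5, h6, Finset.sum_comm]
    congr 1
    refine Finset.sum_congr rfl fun b₁ _ => Finset.sum_congr rfl fun b₂ _ => ?_
    rw [← hZe, mul_comm b₂ b₁]
    congr 2
    ring
  · rw [hform]
    refine integrable_finsetSum _ fun b₁ _ => integrable_finsetSum _ fun b₂ _ => ?_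
    exact (hti β _).const_mul _
  · rw [hform, integral_finsetSum]
    · refine Finset.sum_eq_zero fun b₁ _ => ?_
      rw [integral_finsetSum]
      · refine Finset.sum_eq_zero fun b₂ _ => ?_
        rw [integral_const_mul, htr, integral_const_mul,
          integral_add_right_eq_self (fun v => Real.exp ((s - 1 / 2) * L * v) * Z v), hZz,
          mul_zero, mul_zero]
      · intro b₂ _
        exact (hti _ _).const_mul _
    · intro b₁ _
      refine integrable_finsetSum _ fun b₂ _ => ?_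
      exact (hti _ _).const_mul _

end Pool.Agent.MP0016c7.Rz
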